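import Pool.Agent.CUB.PRF

set_option autoImplicit false

/-!
# CUB.PRI

Proof. Induction on `I` (insert `i₀`). Use `prf` / `prf_sum` with the cell set `C i₀`: on a fibre of
`C i₀` the events `P i`, `i ∈ I \ {i₀}`, are constant (hdep and disjointness), and the number of
elements of the fibre satisfying `P i₀` divided by the size of the fibre does not depend on the fibre
(`P i₀` depends only on `C i₀`), hence is at most `q` by `h i₀`. (If `piFinset Vc` is empty all is 0.)
-/

namespace Pool.Agent.CUB

open scoped Classical

/-- mixing map -/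
private noncomputable def PRI_mix {κ : Type} {N : ℕ} (C : Finset κ) (t s : κ → Fin N) : κ → Fin N :=
  fun c => if c ∈ C then s c else t c

private theorem PRI_count {κ : Type} [Fintype κ] [DecidableEq κ] {N : ℕ}
    (Vc : κ → Finset (Fin N)) (C : Finset κ) (t : κ → Fin N)
    (Q : (κ → Fin N) → Prop)
    (hQ : ∀ s ∈ Fintype.piFinset Vc, (Q s ↔ Q (PRI_mix C t s))) :
    ((Fintype.piFinset Vc).filter Q).card
      = ((fib Vc C t).filter Q).card * ∏ c, (if c ∈ C then 1 else (Vc c).card) := by
  have hmaps : ∀ s ∈ (Fintype.piFinset Vc).filter Q, PRI_mix C t s ∈ (fib Vc C t).filter Q := by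
    intro s hs
    rw [Finset.mem_filter] at hs ⊢
    refine ⟨?_, (hQ s hs.1).mp hs.2⟩
    unfold fib
    rw [Fintype.mem_piFinset]
    intro c
    unfold PRI_mix
    by_cases hc : c ∈ C
    · rw [if_pos hc, if_pos hc]
      exact Fintype.mem_piFinset.mp hs.1 c
    · rw [if_neg hc, if_neg hc]
      exact Finset.mem_singleton_self _
  rw [Finset.card_eq_sum_card_fiberwise hmaps, Finset.sum_const_nat]
  intro u hu
  rw [Finset.mem_filter] at hu
  have hu1 : ∀ c, u c ∈ (if c ∈ C then Vc c else {t c}) := Fintype.mem_piFinset.mp hu.1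
  have hset : (((Fintype.piFinset Vc).filter Q).filter fun s => PRI_mix C t s = u)
      = Fintype.piFinset fun c => if c ∈ C then {u c} else Vc c := by
    ext s
    rw [Finset.mem_filter, Finset.mem_filter, Fintype.mem_piFinset, Fintype.mem_piFinset]
    constructor
    · rintro ⟨⟨hs, _⟩, hm⟩ c
      by_cases hc : c ∈ C
      · rw [if_pos hc, Finset.mem_singleton]
        have := congrFun hm c
        unfold PRI_mix at this
        rw [if_pos hc] at this
        exact this
      · rw [if_neg hc]
        exact hs c
    · intro hs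
      have hsV : ∀ c, s c ∈ Vc c := by
        intro c
        have h1 := hs c
        by_cases hc : c ∈ C
        · rw [if_pos hc, Finset.mem_singleton] at h1
          have h2 := hu1 c
          rw [if_pos hc] at h2
          rw [h1]
          exact h2
        · rw [if_neg hc] at h1
          exact h1
      have hm : PRI_mix C t s = u := by
        funext c
        unfold PRI_mix
        by_cases hc : c ∈ C
        · rw [if_pos hc]
          have h1 := hs c
          rw [if_pos hc, Finset.mem_singleton] at h1
          exact h1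
        · rw [if_neg hc]
          have h2 := hu1 c
          rw [if_neg hc, Finset.mem_singleton] at h2
          exact h2.symm
      refine ⟨⟨hsV, ?_⟩, hm⟩
      rw [hQ s (Fintype.mem_piFinset.mpr hsV), hm]
      exact hu.2
  rw [hset, Fintype.card_piFinset]
  refine Finset.prod_congr rfl ?_
  intro c _
  by_cases hc : c ∈ C
  · rw [if_pos hc, if_pos hc, Finset.card_singleton]
  · rw [if_neg hc, if_neg hc]

private theorem PRI_fibre {κ : Type} [Fintype κ] [DecidableEq κ] {N : ℕ}
    (Vc : κ → Finset (Fin N)) (C : Finset κ) (Q : (κ → Fin N) → Prop)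
    (hdep : ∀ t ∈ Fintype.piFinset Vc, ∀ t' ∈ Fintype.piFinset Vc,
      (∀ c ∈ C, t c = t' c) → Q t → Q t') (q : ℝ)
    (h : (((Fintype.piFinset Vc).filter Q).card : ℝ) ≤ q * ((Fintype.piFinset Vc).card : ℝ))
    (t : κ → Fin N) (ht : t ∈ Fintype.piFinset Vc) :
    (((fib Vc C t).filter Q).card : ℝ) ≤ q * ((fib Vc C t).card : ℝ) := by
  have hmix : ∀ s ∈ Fintype.piFinset Vc, PRI_mix C t s ∈ Fintype.piFinset Vc := by
    intro s hs
    rw [Fintype.mem_piFinset] at hs ht ⊢
    intro c
    unfold PRI_mix
    by_cases hc : c ∈ C
    · rw [if_pos hc]; exact hs c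
    · rw [if_neg hc]; exact ht c
  have hag : ∀ s : κ → Fin N, ∀ c ∈ C, s c = PRI_mix C t s c := by
    intro s c hc
    unfold PRI_mix
    rw [if_pos hc]
  have h1 := PRI_count Vc C t Q (fun s hs =>
    ⟨fun hq => hdep s hs _ (hmix s hs) (hag s) hq,
      fun hq => hdep _ (hmix s hs) s hs (fun c hc => (hag s c hc).symm) hq⟩)
  have h2 := PRI_count Vc C t (fun _ => True) (fun s hs => Iff.rfl)
  rw [Finset.filter_true, Finset.filter_true] at h2
  have hW : 0 < ∏ c, (if c ∈ C then 1 else (Vc c).card) := by
    refine Finset.prod_pos ?_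
    intro c _
    by_cases hc : c ∈ C
    · rw [if_pos hc]; exact Nat.one_pos
    · rw [if_neg hc]
      exact Finset.card_pos.mpr ⟨t c, Fintype.mem_piFinset.mp ht c⟩
  have hW' : (0 : ℝ) < ((∏ c, (if c ∈ C then 1 else (Vc c).card) : ℕ) : ℝ) := by
    exact_mod_cast hW
  rw [h1, h2] at h
  rw [Nat.cast_mul, Nat.cast_mul, ← mul_assoc] at h
  exact le_of_mul_le_mul_right h hW'

/-- Independent events. -/
theorem pri {κ ι : Type} [Fintype κ] [DecidableEq κ] {N : ℕ} (Vc : κ → Finset (Fin N))
    (I : Finset ι) (C : ι → Finset κ)
    (hC : ∀ i ∈ I, ∀ j ∈ I, i ≠ j → Disjoint (C i) (C j)) (P : ι → (κ → Fin N) → Prop)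
    (hdep : ∀ i ∈ I, ∀ t ∈ Fintype.piFinset Vc, ∀ t' ∈ Fintype.piFinset Vc,
      (∀ c ∈ C i, t c = t' c) → P i t → P i t')
    (q : ℝ) (hq : 0 ≤ q)
    (h : ∀ i ∈ I, (((Fintype.piFinset Vc).filter (P i)).card : ℝ)
      ≤ q * ((Fintype.piFinset Vc).card : ℝ)) :
    (((Fintype.piFinset Vc).filter fun t => ∀ i ∈ I, P i t).card : ℝ)
      ≤ q ^ I.card * ((Fintype.piFinset Vc).card : ℝ) := by
  induction I using Finset.induction_on with
  | empty =>
    rw [Finset.card_empty, pow_zero, one_mul]
    exact_mod_cast Finset.card_filter_le _ _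
  | insert i₀ I hi₀ ih =>
    have ih' := ih (fun i hi j hj => hC i (Finset.mem_insert_of_mem hi) j
        (Finset.mem_insert_of_mem hj)) (fun i hi => hdep i (Finset.mem_insert_of_mem hi))
      (fun i hi => h i (Finset.mem_insert_of_mem hi))
    have hmain := prf_sum Vc (C i₀)
      (fun t => if ∀ i ∈ insert i₀ I, P i t then (1 : ℝ) else 0)
      (fun t => if ∀ i ∈ I, P i t then (1 : ℝ) else 0) q (by
        intro t ht
        have hsub : ∀ t' ∈ fib Vc (C i₀) t, t' ∈ Fintype.piFinset Vc ∧
            ∀ c, c ∉ C i₀ → t' c = t c := by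
          intro t' ht'
          unfold fib at ht'
          rw [Fintype.mem_piFinset] at ht'
          refine ⟨Fintype.mem_piFinset.mpr fun c => ?_, fun c hc => ?_⟩
          · have := ht' c
            by_cases hc : c ∈ C i₀
            · rw [if_pos hc] at this; exact this
            · rw [if_neg hc, Finset.mem_singleton] at this
              rw [this]
              exact Fintype.mem_piFinset.mp ht c
          · have := ht' c
            rw [if_neg hc, Finset.mem_singleton] at this
            exact this
        have hcst : ∀ t' ∈ fib Vc (C i₀) t, ((∀ i ∈ I, P i t') ↔ ∀ i ∈ I, P i t) := by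
          intro t' ht'
          obtain ⟨h1, h2⟩ := hsub t' ht'
          have hoff : ∀ i ∈ I, ∀ c ∈ C i, c ∉ C i₀ := by
            intro i hi c hc hc0
            have hne : i ≠ i₀ := fun he => hi₀ (he ▸ hi)
            exact Finset.disjoint_left.mp
              (hC i (Finset.mem_insert_of_mem hi) i₀ (Finset.mem_insert_self _ _) hne) hc hc0
          constructor
          · intro hP i hi
            exact hdep i (Finset.mem_insert_of_mem hi) t' h1 t ht
              (fun c hc => h2 c (hoff i hi c hc)) (hP i hi)
          · intro hP i hi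
            exact hdep i (Finset.mem_insert_of_mem hi) t ht t' h1
              (fun c hc => (h2 c (hoff i hi c hc)).symm) (hP i hi)
        by_cases hP : ∀ i ∈ I, P i t
        · have e1 : ∑ t' ∈ fib Vc (C i₀) t, (if ∀ i ∈ insert i₀ I, P i t' then (1 : ℝ) else 0)
              = (((fib Vc (C i₀) t).filter (P i₀)).card : ℝ) := by
            rw [Finset.card_filter, Nat.cast_sum]
            refine Finset.sum_congr rfl ?_
            intro t' ht'
            have hP' := (hcst t' ht').mpr hP
            by_cases hp : P i₀ t'
            · rw [if_pos hp, if_pos]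
              · rw [Nat.cast_one]
              · intro i hi
                rw [Finset.mem_insert] at hi
                rcases hi with rfl | hi
                · exact hp
                · exact hP' i hi
            · rw [if_neg hp, if_neg]
              · rw [Nat.cast_zero]
              · intro hall
                exact hp (hall i₀ (Finset.mem_insert_self _ _))
          have e2 : ∑ t' ∈ fib Vc (C i₀) t, (if ∀ i ∈ I, P i t' then (1 : ℝ) else 0)
              = ((fib Vc (C i₀) t).card : ℝ) := by
            rw [Finset.card_eq_sum_ones, Nat.cast_sum]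
            refine Finset.sum_congr rfl ?_
            intro t' ht'
            rw [if_pos ((hcst t' ht').mpr hP), Nat.cast_one]
          rw [e1, e2]
          exact PRI_fibre Vc (C i₀) (P i₀) (hdep i₀ (Finset.mem_insert_self _ _)) q
            (h i₀ (Finset.mem_insert_self _ _)) t ht
        · have e1 : ∑ t' ∈ fib Vc (C i₀) t, (if ∀ i ∈ insert i₀ I, P i t' then (1 : ℝ) else 0)
              = 0 := by
            refine Finset.sum_eq_zero ?_
            intro t' ht'
            rw [if_neg]
            intro hall
            exact hP ((hcst t' ht').mp fun i hi => hall i (Finset.mem_insert_of_mem hi))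
          rw [e1]
          refine mul_nonneg hq (Finset.sum_nonneg ?_)
          intro t' _
          split_ifs
          · exact zero_le_one
          · exact le_rfl)
    have e1 : (((Fintype.piFinset Vc).filter fun t => ∀ i ∈ insert i₀ I, P i t).card : ℝ)
        = ∑ t ∈ Fintype.piFinset Vc, (if ∀ i ∈ insert i₀ I, P i t then (1 : ℝ) else 0) := by
      rw [Finset.card_filter, Nat.cast_sum]
      refine Finset.sum_congr rfl ?_
      intro t _
      split_ifs
      · exact Nat.cast_one
      · exact Nat.cast_zero
    have e2 : (((Fintype.piFinset Vc).filter fun t => ∀ i ∈ I, P i t).card : ℝ)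
        = ∑ t ∈ Fintype.piFinset Vc, (if ∀ i ∈ I, P i t then (1 : ℝ) else 0) := by
      rw [Finset.card_filter, Nat.cast_sum]
      refine Finset.sum_congr rfl ?_
      intro t _
      split_ifs
      · exact Nat.cast_one
      · exact Nat.cast_zero
    rw [e1, Finset.card_insert_of_notMem hi₀, pow_succ]
    refine hmain.trans ?_
    rw [← e2]
    calc q * (((Fintype.piFinset Vc).filter fun t => ∀ i ∈ I, P i t).card : ℝ)
        ≤ q * (q ^ I.card * ((Fintype.piFinset Vc).card : ℝ)) :=
          mul_le_mul_of_nonneg_left ih' hq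
      _ = q ^ I.card * q * ((Fintype.piFinset Vc).card : ℝ) := by ring

end Pool.Agent.CUB
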