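import Pool.Agent.CUB.Defs

set_option autoImplicit false

/-!
# CUB.BOX

Proof. `θ = ε^4/64`, `κ = (γ/8)^{1/θ}/2`, `κ₀ = γ κ θ/32` (real powers; adjust constants freely).
`vol X = ∏|X a|/N`, `cnt X = #{i∈L0 : t i ∈ X}`, maximise `Φ(X) = cnt X/(M vol(X)^{1-θ})` over boxes with
all sides `≥ κ₀N` (contains the full box, `Φ ≥ γ`). For the maximiser `C`: `UU` gives
`cnt C ≤ 8 M vol C`, so `γ ≤ 8 vol(C)^θ`, `vol C ≥ (γ/8)^{1/θ}`, every side `≥ κN`; and
`cnt C ≥ γ M vol(C)^{1-θ} ≥ γ M vol C`. For `C' ⊆ C` with sides `≥ ε|C a|` split `C` into 16 boxes (each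
side `C' a` or `C a \ C' a`). A box `D ≠ C'` with all sides `≥ κ₀N` has
`cnt D ≤ cnt C (vol D/vol C)^{1-θ} ≤ cnt C (vol D/vol C + θ)` (as `x^{1-θ} ≤ x + θ` on `[0,1]`); if some
side is `< κ₀N`, enlarge that side inside `C a` to size `⌈κ₀N⌉` and take the other sides of `C`: `UU`
gives `cnt D ≤ 16 M κ₀ vol(C)/κ ≤ θ cnt C`. Hence `cnt C' ≥ cnt C (vol C'/vol C - 15θ) ≥
cnt C vol C'/(2 vol C)` since `vol C'/vol C ≥ ε^4 ≥ 30θ`. So `cnt C' ≥ (γ/2) M vol C'`.
-/

namespace Pool.Agent.CUB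

open scoped Classical

private noncomputable def BOX_vol {N : ℕ} (X : Fin 4 → Finset (Fin N)) : ℝ :=
  ∏ a, (((X a).card : ℝ) / (N : ℝ))

private noncomputable def BOX_cnt {N M : ℕ} (t : Fin M × Fin 4 → Fin N) (L0 : Finset (Fin M))
    (X : Fin 4 → Finset (Fin N)) : ℝ :=
  ((L0.filter fun i => ∀ a, t (i, a) ∈ X a).card : ℝ)

private lemma BOX_cnt_nonneg {N M : ℕ} (t : Fin M × Fin 4 → Fin N) (L0 : Finset (Fin M))
    (X : Fin 4 → Finset (Fin N)) : 0 ≤ BOX_cnt t L0 X := Nat.cast_nonneg _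

private lemma BOX_vol_nonneg {N : ℕ} (X : Fin 4 → Finset (Fin N)) : 0 ≤ BOX_vol X :=
  Finset.prod_nonneg fun _ _ => by positivity

private lemma BOX_cnt_le {N M : ℕ} (t : Fin M × Fin 4 → Fin N) (L0 : Finset (Fin M))
    (X Y : Fin 4 → Finset (Fin N)) (h : ∀ a, X a ⊆ Y a) : BOX_cnt t L0 X ≤
    (((Finset.univ : Finset (Fin M)).filter fun i => ∀ a, t (i, a) ∈ Y a).card : ℝ) := by
  unfold BOX_cnt
  refine Nat.cast_le.mpr (Finset.card_le_card fun i hi => ?_)
  rw [Finset.mem_filter] at hi ⊢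
  exact ⟨Finset.mem_univ _, fun a => h a (hi.2 a)⟩

/-- The split box. -/
private def BOX_D {N : ℕ} (C C' : Fin 4 → Finset (Fin N)) (s : Finset (Fin 4)) :
    Fin 4 → Finset (Fin N) := fun a => if a ∈ s then C' a else C a \ C' a

private lemma BOX_cover {N M : ℕ} (t : Fin M × Fin 4 → Fin N) (L0 : Finset (Fin M))
    (C C' : Fin 4 → Finset (Fin N)) :
    BOX_cnt t L0 C ≤ ∑ s ∈ (Finset.univ : Finset (Fin 4)).powerset, BOX_cnt t L0 (BOX_D C C' s) := by
  unfold BOX_cnt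
  rw [← Nat.cast_sum]
  refine Nat.cast_le.mpr (le_trans (Finset.card_le_card ?_) Finset.card_biUnion_le)
  intro i hi
  rw [Finset.mem_filter] at hi
  rw [Finset.mem_biUnion]
  refine ⟨Finset.univ.filter fun a => t (i, a) ∈ C' a, by simp, ?_⟩
  rw [Finset.mem_filter]
  refine ⟨hi.1, fun a => ?_⟩
  unfold BOX_D
  by_cases h : t (i, a) ∈ C' a
  · rw [if_pos (by simpa using h)]
    exact h
  · rw [if_neg (by simpa using h)]
    exact Finset.mem_sdiff.mpr ⟨hi.2 a, h⟩

private lemma BOX_volsum {N : ℕ} (C C' : Fin 4 → Finset (Fin N)) (h : ∀ a, C' a ⊆ C a) :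
    ∑ s ∈ (Finset.univ : Finset (Fin 4)).powerset, BOX_vol (BOX_D C C' s) = BOX_vol C := by
  unfold BOX_vol
  have h1 : ∀ a, (((C a).card : ℝ) / (N : ℝ)) =
      ((C' a).card : ℝ) / (N : ℝ) + ((C a \ C' a).card : ℝ) / (N : ℝ) := by
    intro a
    rw [← add_div]
    congr 1
    rw [← Nat.cast_add]
    congr 1
    rw [add_comm, Finset.card_sdiff_add_card_eq_card (h a)]
  rw [Finset.prod_congr rfl fun a _ => h1 a, Finset.prod_add]
  refine Finset.sum_congr rfl fun s hs => ?_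
  rw [← Finset.prod_sdiff (Finset.subset_univ s), mul_comm]
  congr 1
  · refine Finset.prod_congr rfl fun a ha => ?_
    unfold BOX_D
    rw [if_pos ha]
  · refine Finset.prod_congr rfl fun a ha => ?_
    unfold BOX_D
    rw [if_neg (Finset.mem_sdiff.mp ha).2]

/-- Dense box. -/
theorem dense_box (γ ε : ℝ) (hγ : 0 < γ) (hγ1 : γ ≤ 1) (hε : 0 < ε) (hε1 : ε ≤ 1) :
    ∃ κ : ℝ, 0 < κ ∧ ∃ κ₀ : ℝ, 0 < κ₀ ∧ ∃ h₀ : ℕ, ∀ h ≥ h₀, ∀ N M : ℕ, N = h ^ 96 → M = h ^ 152 →
      ∀ t : Fin M × Fin 4 → Fin N, UU h κ₀ t → ∀ L0 : Finset (Fin M), γ * (M : ℝ) ≤ (L0.card : ℝ) →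
      ∃ Cc : Fin 4 → Finset (Fin N), (∀ a, κ * (N : ℝ) ≤ ((Cc a).card : ℝ)) ∧
        ∀ C' : Fin 4 → Finset (Fin N), (∀ a, C' a ⊆ Cc a) →
          (∀ a, ε * ((Cc a).card : ℝ) ≤ ((C' a).card : ℝ)) →
          γ / 2 * (M : ℝ) * ∏ a, (((C' a).card : ℝ) / (N : ℝ))
            ≤ ((L0.filter fun i => ∀ a, t (i, a) ∈ C' a).card : ℝ) := by
  obtain ⟨θ, hθ⟩ : ∃ θ : ℝ, θ = ε ^ 4 / 64 := ⟨_, rfl⟩
  have hθ0 : 0 < θ := by rw [hθ]; positivity
  have hε4 : ε ^ 4 ≤ 1 := pow_le_one₀ hε.le hε1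
  have hθ1 : θ ≤ 1 / 64 := by rw [hθ]; linarith
  obtain ⟨β, hβ⟩ : ∃ β : ℝ, β = (γ / 8) ^ (1 / θ) := ⟨_, rfl⟩
  have hβ0 : 0 < β := by rw [hβ]; exact Real.rpow_pos_of_pos (by linarith) _
  have hβ1 : β ≤ 1 := by
    rw [hβ]
    exact Real.rpow_le_one (by linarith) (by linarith) (by positivity)
  obtain ⟨κ₀, hκ₀⟩ : ∃ κ₀ : ℝ, κ₀ = γ * β * θ / 16 := ⟨_, rfl⟩
  have hκ₀0 : 0 < κ₀ := by rw [hκ₀]; positivity
  have hκ₀1 : κ₀ ≤ 1 := by
    rw [hκ₀]
    have h1 : γ * β ≤ 1 := mul_le_one₀ hγ1 hβ0.le hβ1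
    have h2 : γ * β * θ ≤ 1 := mul_le_one₀ h1 hθ0.le (by linarith)
    linarith
  refine ⟨β, hβ0, κ₀, hκ₀0, ⌈1 / κ₀⌉₊ + 1, ?_⟩
  intro h hh N M hN hM t hUU L0 hL0
  have hh1 : 1 / κ₀ ≤ (h : ℝ) := by
    have h1 := Nat.le_ceil (1 / κ₀)
    have h2 : ((⌈1 / κ₀⌉₊ : ℕ) : ℝ) ≤ (h : ℝ) := by
      exact_mod_cast (by omega : ⌈1 / κ₀⌉₊ ≤ h)
    linarith
  have hhn : 1 ≤ h := by omega
  have hhR : (1 : ℝ) ≤ (h : ℝ) := by exact_mod_cast hhn
  have hh55 : 1 / κ₀ ≤ (h : ℝ) ^ 55 := hh1.trans (le_self_pow₀ hhR (by norm_num))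
  have hN1 : 1 / κ₀ ≤ (N : ℝ) := by
    rw [hN, Nat.cast_pow]
    exact hh1.trans (le_self_pow₀ hhR (by norm_num))
  have hN0 : (0 : ℝ) < (N : ℝ) := lt_of_lt_of_le (by positivity) hN1
  have hκN : 1 ≤ κ₀ * (N : ℝ) := by
    rw [div_le_iff₀ hκ₀0] at hN1
    linarith
  have hM0 : (0 : ℝ) < (M : ℝ) := by
    rw [hM, Nat.cast_pow]
    positivity
  -- sizes large enough for `UU`
  have hbig : ∀ n : ℕ, κ₀ * (N : ℝ) ≤ (n : ℝ) → N ≤ h ^ 55 * n := by
    intro n hn
    have h1 : (N : ℝ) ≤ (h : ℝ) ^ 55 * (n : ℝ) := by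
      have h2 : (h : ℝ) ^ 55 * (κ₀ * (N : ℝ)) ≤ (h : ℝ) ^ 55 * (n : ℝ) :=
        mul_le_mul_of_nonneg_left hn (by positivity)
      have h3 : 1 ≤ (h : ℝ) ^ 55 * κ₀ := by
        rw [div_le_iff₀ hκ₀0] at hh55
        exact hh55
      nlinarith
    exact_mod_cast h1
  -- the maximiser
  have hcard : ∀ X : Finset (Fin N), (X.card : ℝ) ≤ (N : ℝ) := by
    intro X
    have := Finset.card_le_univ X
    rw [Fintype.card_fin] at this
    exact_mod_cast this
  let BB : Finset (Fin 4 → Finset (Fin N)) :=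
    Finset.univ.filter fun X => ∀ a, κ₀ * (N : ℝ) ≤ ((X a).card : ℝ)
  have huniv : (fun _ => Finset.univ : Fin 4 → Finset (Fin N)) ∈ BB := by
    simp only [BB, Finset.mem_filter, Finset.mem_univ, true_and]
    intro _
    rw [Finset.card_univ, Fintype.card_fin]
    nlinarith
  have hvolpos : ∀ X ∈ BB, 0 < BOX_vol X := by
    intro X hX
    simp only [BB, Finset.mem_filter, Finset.mem_univ, true_and] at hX
    unfold BOX_vol
    refine Finset.prod_pos fun a _ => ?_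
    have : (0 : ℝ) < ((X a).card : ℝ) := lt_of_lt_of_le (by positivity) (hX a)
    positivity
  have hvol1 : ∀ X : Fin 4 → Finset (Fin N), BOX_vol X ≤ 1 := by
    intro X
    unfold BOX_vol
    refine Finset.prod_le_one (fun a _ => by positivity) fun a _ => ?_
    rw [div_le_one hN0]
    exact hcard _
  obtain ⟨C, hCB, hCmax⟩ := Finset.exists_max_image BB
    (fun X => BOX_cnt t L0 X / BOX_vol X ^ (1 - θ)) ⟨_, huniv⟩
  have hCs : ∀ a, κ₀ * (N : ℝ) ≤ ((C a).card : ℝ) := by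
    have := hCB
    simp only [BB, Finset.mem_filter, Finset.mem_univ, true_and] at this
    exact this
  have hVC : 0 < BOX_vol C := hvolpos C hCB
  have hVCp : 0 < BOX_vol C ^ (1 - θ) := Real.rpow_pos_of_pos hVC _
  -- lower bound on the count
  have hlow : γ * (M : ℝ) * BOX_vol C ^ (1 - θ) ≤ BOX_cnt t L0 C := by
    have h1 := hCmax _ huniv
    have h2 : BOX_cnt t L0 (fun _ => Finset.univ) = (L0.card : ℝ) := by
      unfold BOX_cnt
      congr 2
      ext i
      simp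
    have h3 : BOX_vol (fun _ => Finset.univ : Fin 4 → Finset (Fin N)) = 1 := by
      unfold BOX_vol
      simp only [Finset.card_univ, Fintype.card_fin]
      rw [div_self hN0.ne']
      simp
    simp only [h2, h3, Real.one_rpow, div_one] at h1
    rw [le_div_iff₀ hVCp] at h1
    exact (mul_le_mul_of_nonneg_right hL0 hVCp.le).trans h1
  have hlow1 : γ * (M : ℝ) * BOX_vol C ≤ BOX_cnt t L0 C := by
    refine le_trans ?_ hlow
    refine mul_le_mul_of_nonneg_left ?_ (by positivity)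
    have h1 := Real.rpow_le_rpow_of_exponent_ge hVC (hvol1 C) (by linarith : 1 - θ ≤ 1)
    rwa [Real.rpow_one] at h1
  -- upper bound on the count
  have hup : BOX_cnt t L0 C ≤ 8 * (M : ℝ) * BOX_vol C :=
    (BOX_cnt_le t L0 C C fun _ => le_rfl).trans
      (hUU C 0 (hbig _ (hCs 0)) fun a _ => hCs a)
  have hvolβ : β ≤ BOX_vol C := by
    have h1 : γ * (M : ℝ) * BOX_vol C ^ (1 - θ) ≤ 8 * (M : ℝ) * BOX_vol C := hlow.trans hup
    have h2 : BOX_vol C = BOX_vol C ^ (1 - θ) * BOX_vol C ^ θ := by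
      rw [← Real.rpow_add hVC]
      simp
    have h3 : γ / 8 ≤ BOX_vol C ^ θ := by
      have h4 : (M : ℝ) * BOX_vol C ^ (1 - θ) * γ ≤
          (M : ℝ) * BOX_vol C ^ (1 - θ) * (8 * BOX_vol C ^ θ) := by
        calc (M : ℝ) * BOX_vol C ^ (1 - θ) * γ = γ * (M : ℝ) * BOX_vol C ^ (1 - θ) := by ring
          _ ≤ 8 * (M : ℝ) * BOX_vol C := h1
          _ = 8 * (M : ℝ) * (BOX_vol C ^ (1 - θ) * BOX_vol C ^ θ) := by rw [← h2]
          _ = _ := by ring
      have h5 := le_of_mul_le_mul_left h4 (by positivity)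
      linarith
    rw [hβ]
    calc (γ / 8) ^ (1 / θ) ≤ (BOX_vol C ^ θ) ^ (1 / θ) :=
          Real.rpow_le_rpow (by positivity) h3 (by positivity)
      _ = BOX_vol C := by
          rw [← Real.rpow_mul hVC.le, mul_one_div_cancel hθ0.ne', Real.rpow_one]
  have hside : ∀ a, BOX_vol C ≤ ((C a).card : ℝ) / (N : ℝ) := by
    intro a
    unfold BOX_vol
    rw [← Finset.mul_prod_erase Finset.univ _ (Finset.mem_univ a)]
    refine mul_le_of_le_one_right (by positivity) ?_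
    refine Finset.prod_le_one (fun b _ => by positivity) fun b _ => ?_
    rw [div_le_one hN0]
    exact hcard _
  refine ⟨C, fun a => ?_, ?_⟩
  · have h1 := hvolβ.trans (hside a)
    rwa [le_div_iff₀ hN0] at h1
  intro C' hC' hC'ε
  change γ / 2 * (M : ℝ) * BOX_vol C' ≤ BOX_cnt t L0 C'
  have hcntC : 0 ≤ BOX_cnt t L0 C := BOX_cnt_nonneg t L0 C
  -- the bound for every box of the splitting
  have hbox : ∀ D : Fin 4 → Finset (Fin N), (∀ a, D a ⊆ C a) →
      BOX_cnt t L0 D ≤ BOX_cnt t L0 C * (BOX_vol D / BOX_vol C + θ) := by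
    intro D hD
    by_cases hDB : ∀ a, κ₀ * (N : ℝ) ≤ ((D a).card : ℝ)
    · have hDm : D ∈ BB := by
        simp only [BB, Finset.mem_filter, Finset.mem_univ, true_and]
        exact hDB
      have hVD := hvolpos D hDm
      have h1 := hCmax D hDm
      rw [div_le_div_iff₀ (Real.rpow_pos_of_pos hVD _) hVCp] at h1
      have h2 : BOX_cnt t L0 D ≤ BOX_cnt t L0 C * (BOX_vol D / BOX_vol C) ^ (1 - θ) := by
        rw [Real.div_rpow hVD.le hVC.le, ← mul_div_assoc, le_div_iff₀ hVCp]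
        exact h1
      refine h2.trans (mul_le_mul_of_nonneg_left ?_ hcntC)
      have h3 := Real.geom_mean_le_arith_mean2_weighted (by linarith : 0 ≤ 1 - θ) hθ0.le
        (by positivity : 0 ≤ BOX_vol D / BOX_vol C) (zero_le_one : (0 : ℝ) ≤ 1) (by ring)
      rw [Real.one_rpow, mul_one, mul_one] at h3
      refine h3.trans ?_
      have : 0 ≤ BOX_vol D / BOX_vol C := by positivity
      nlinarith
    · push Not at hDB
      obtain ⟨a₁, ha₁⟩ := hDB
      have hceil : ⌈κ₀ * (N : ℝ)⌉₊ ≤ (C a₁).card := Nat.ceil_le.mpr (hCs a₁)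
      have hDle : (D a₁).card ≤ ⌈κ₀ * (N : ℝ)⌉₊ := by
        have : ((D a₁).card : ℝ) ≤ ((⌈κ₀ * (N : ℝ)⌉₊ : ℕ) : ℝ) := ha₁.le.trans (Nat.le_ceil _)
        exact_mod_cast this
      obtain ⟨E, hDE, hEC, hEc⟩ := Finset.exists_subsuperset_card_eq (hD a₁) hDle hceil
      have hX : BOX_cnt t L0 D ≤ 8 * (M : ℝ) * BOX_vol (Function.update C a₁ E) := by
        refine (BOX_cnt_le t L0 D (Function.update C a₁ E) fun a => ?_).trans
          (hUU (Function.update C a₁ E) a₁ ?_ fun a ha => ?_)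
        · by_cases h : a = a₁
          · subst h
            rw [Function.update_self]
            exact hDE
          · rw [Function.update_of_ne h]
            exact hD a
        · rw [Function.update_self]
          refine hbig _ ?_
          rw [hEc]
          exact Nat.le_ceil _
        · rw [Function.update_of_ne ha]
          exact hCs a
      have hV : BOX_vol (Function.update C a₁ E) ≤ (2 * κ₀ / β) * BOX_vol C := by
        unfold BOX_vol
        rw [← Finset.mul_prod_erase Finset.univ _ (Finset.mem_univ a₁),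
          ← Finset.mul_prod_erase Finset.univ (fun a => ((C a).card : ℝ) / (N : ℝ))
            (Finset.mem_univ a₁), Function.update_self]
        have h4 : ∏ x ∈ Finset.univ.erase a₁, (((Function.update C a₁ E x).card : ℝ) / (N : ℝ)) =
            ∏ x ∈ Finset.univ.erase a₁, (((C x).card : ℝ) / (N : ℝ)) := by
          refine Finset.prod_congr rfl fun x hx => ?_
          rw [Function.update_of_ne (Finset.ne_of_mem_erase hx)]
        rw [h4, ← mul_assoc]
        refine mul_le_mul_of_nonneg_right ?_ (Finset.prod_nonneg fun _ _ => by positivity)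
        have h5 : (E.card : ℝ) ≤ 2 * κ₀ * (N : ℝ) := by
          rw [hEc]
          have := (Nat.ceil_lt_add_one (by positivity : 0 ≤ κ₀ * (N : ℝ))).le
          linarith
        have h6 : β ≤ ((C a₁).card : ℝ) / (N : ℝ) := hvolβ.trans (hside a₁)
        calc (E.card : ℝ) / (N : ℝ) ≤ 2 * κ₀ := by
              rw [div_le_iff₀ hN0]
              exact h5
          _ = 2 * κ₀ / β * β := by field_simp
          _ ≤ 2 * κ₀ / β * (((C a₁).card : ℝ) / (N : ℝ)) :=
              mul_le_mul_of_nonneg_left h6 (by positivity)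
      have h7 : 8 * (M : ℝ) * BOX_vol (Function.update C a₁ E) ≤ θ * BOX_cnt t L0 C := by
        calc 8 * (M : ℝ) * BOX_vol (Function.update C a₁ E)
            ≤ 8 * (M : ℝ) * ((2 * κ₀ / β) * BOX_vol C) :=
              mul_le_mul_of_nonneg_left hV (by positivity)
          _ = θ * (γ * (M : ℝ) * BOX_vol C) := by
              rw [hκ₀]
              field_simp
              ring
          _ ≤ θ * BOX_cnt t L0 C := mul_le_mul_of_nonneg_left hlow1 hθ0.le
      have h8 : 0 ≤ BOX_cnt t L0 C * (BOX_vol D / BOX_vol C) :=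
        mul_nonneg hcntC (div_nonneg (BOX_vol_nonneg D) hVC.le)
      have h9 := hX.trans h7
      nlinarith
  -- put together
  have hDsub : ∀ s, ∀ a, BOX_D C C' s a ⊆ C a := by
    intro s a
    unfold BOX_D
    split_ifs
    · exact hC' a
    · exact Finset.sdiff_subset
  have hDu : BOX_D C C' Finset.univ = C' := by
    funext a
    unfold BOX_D
    rw [if_pos (Finset.mem_univ a)]
  have hmem : (Finset.univ : Finset (Fin 4)) ∈ (Finset.univ : Finset (Fin 4)).powerset := by simp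
  have hcov := BOX_cover t L0 C C'
  have hvs := BOX_volsum C C' hC'
  rw [← Finset.add_sum_erase _ _ hmem, hDu] at hcov hvs
  have hsum : ∑ s ∈ ((Finset.univ : Finset (Fin 4)).powerset).erase Finset.univ,
      BOX_cnt t L0 (BOX_D C C' s) ≤ BOX_cnt t L0 C *
        ((BOX_vol C - BOX_vol C') / BOX_vol C + 15 * θ) := by
    calc ∑ s ∈ ((Finset.univ : Finset (Fin 4)).powerset).erase Finset.univ,
          BOX_cnt t L0 (BOX_D C C' s)
        ≤ ∑ s ∈ ((Finset.univ : Finset (Fin 4)).powerset).erase Finset.univ,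
          BOX_cnt t L0 C * (BOX_vol (BOX_D C C' s) / BOX_vol C + θ) :=
          Finset.sum_le_sum fun s _ => hbox _ (hDsub s)
      _ = _ := by
          rw [← Finset.mul_sum, Finset.sum_add_distrib, ← Finset.sum_div, Finset.sum_const,
            Finset.card_erase_of_mem hmem, Finset.card_powerset, Finset.card_univ,
            Fintype.card_fin]
          have h1 : ∑ s ∈ ((Finset.univ : Finset (Fin 4)).powerset).erase Finset.univ,
              BOX_vol (BOX_D C C' s) = BOX_vol C - BOX_vol C' := by linarith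
          rw [h1]
          norm_num
  have hratio : ε ^ 4 ≤ BOX_vol C' / BOX_vol C := by
    rw [le_div_iff₀ hVC]
    unfold BOX_vol
    have h1 : ε ^ 4 * ∏ a, (((C a).card : ℝ) / (N : ℝ)) =
        ∏ a, (ε * (((C a).card : ℝ) / (N : ℝ))) := by
      rw [Finset.prod_mul_distrib, Finset.prod_const, Finset.card_univ, Fintype.card_fin]
    rw [h1]
    refine Finset.prod_le_prod (fun a _ => by positivity) fun a _ => ?_
    rw [← mul_div_assoc]
    exact div_le_div_of_nonneg_right (hC'ε a) hN0.le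
  have hfin : BOX_cnt t L0 C * (BOX_vol C' / BOX_vol C / 2) ≤ BOX_cnt t L0 C' := by
    have h1 : BOX_cnt t L0 C * (BOX_vol C' / BOX_vol C - 15 * θ) ≤ BOX_cnt t L0 C' := by
      have h2 : (BOX_vol C - BOX_vol C') / BOX_vol C = 1 - BOX_vol C' / BOX_vol C := by
        rw [sub_div, div_self hVC.ne']
      rw [h2] at hsum
      nlinarith
    refine le_trans (mul_le_mul_of_nonneg_left ?_ hcntC) h1
    rw [hθ]
    linarith
  refine le_trans ?_ hfin
  have h1 : γ / 2 * (M : ℝ) * BOX_vol C' =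
      γ * (M : ℝ) * BOX_vol C * (BOX_vol C' / BOX_vol C / 2) := by
    field_simp
  rw [h1]
  exact mul_le_mul_of_nonneg_right hlow1 (by
    have := BOX_vol_nonneg C'
    positivity)

end Pool.Agent.CUB
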