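import Pool.Agent.CUB.Defs

set_option autoImplicit false

/-!
# CUB.CLU

Proof. Fix `L` with the listed properties. Let `Vc (i,a)` be the side of the box of the (unique
unordered) edge `e` with `i ∈ L e` (`V e.1` at `pos e.1`, `V e.2` at `pos e.2`, `Vg a` otherwise) if
there is one, and `univ` otherwise. Then `|piFinset Vc| = N^{4M} q^{#{i : i ∈ some L e}}` with
`q = ∏ nn a/N = m/M`. If `t` satisfies `P t (cls family of L0)`, then with `L = cls family` (symmetric,
disjoint for different unordered edges: by `hdis`, `hdisg`) `t ∈ piFinset Vc_L`. So the count is at most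
`∑_L exp(-Km) N^{4M} q^{#blocks}`, and `∑_L q^{#blocks} ≤ (1 + v² q)^M ≤ exp(v² m)` (every block is in
no class or in one of at most `v²` classes).
-/

namespace Pool.Agent.CUB

open scoped Classical

private def CLU_ok {v M : ℕ} (pos : Fin v → Fin 4) (L : Fin v × Fin v → Finset (Fin M)) : Prop :=
  (∀ d d', L (d, d') = L (d', d)) ∧ (∀ e, pos e.1 = pos e.2 → L e = ∅) ∧
    (∀ e e', e ≠ e' → e ≠ (e'.2, e'.1) → Disjoint (L e) (L e'))

private noncomputable def CLU_f {v M : ℕ} (L : Fin v × Fin v → Finset (Fin M)) (i : Fin M) :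
    Option (Fin v × Fin v) :=
  if h : ∃ e, i ∈ L e then some (Classical.choose h) else none

private noncomputable def CLU_bx {v N : ℕ} (pos : Fin v → Fin 4) (V : Fin v → Finset (Fin N))
    (Vg : Fin 4 → Finset (Fin N)) : Option (Fin v × Fin v) → Fin 4 → Finset (Fin N)
  | none, _ => Finset.univ
  | some e, a => if a = pos e.1 then V e.1 else if a = pos e.2 then V e.2 else Vg a

private theorem CLU_bx_some {v N : ℕ} (pos : Fin v → Fin 4) (V : Fin v → Finset (Fin N))
    (Vg : Fin 4 → Finset (Fin N)) (e : Fin v × Fin v) (a : Fin 4) :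
    CLU_bx pos V Vg (some e) a
      = if a = pos e.1 then V e.1 else if a = pos e.2 then V e.2 else Vg a := rfl

private noncomputable def CLU_w {v : ℕ} (q : ℝ) : Option (Fin v × Fin v) → ℝ
  | none => 1
  | some _ => q

private theorem CLU_fA {v M : ℕ} (pos : Fin v → Fin 4) (L : Fin v × Fin v → Finset (Fin M))
    (hL : CLU_ok pos L) (i : Fin M) (e : Fin v × Fin v) (hi : i ∈ L e) :
    ∃ e', CLU_f L i = some e' ∧ i ∈ L e' ∧ (e = e' ∨ e = (e'.2, e'.1)) := by
  have hex : ∃ e, i ∈ L e := ⟨e, hi⟩
  refine ⟨Classical.choose hex, ?_, Classical.choose_spec hex, ?_⟩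
  · unfold CLU_f
    rw [dif_pos hex]
  · by_contra hcon
    push Not at hcon
    have hd := hL.2.2 e (Classical.choose hex) hcon.1 hcon.2
    exact (Finset.disjoint_left.mp hd hi) (Classical.choose_spec hex)

private theorem CLU_fmem {v M : ℕ} (L : Fin v × Fin v → Finset (Fin M)) (i : Fin M)
    (e : Fin v × Fin v) (hf : CLU_f L i = some e) : i ∈ L e := by
  unfold CLU_f at hf
  by_cases hex : ∃ e, i ∈ L e
  · rw [dif_pos hex] at hf
    have := Classical.choose_spec hex
    have he : Classical.choose hex = e := by simpa using hf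
    rw [he] at this
    exact this
  · rw [dif_neg hex] at hf
    exact absurd hf (by simp)

private theorem CLU_memiff {v M : ℕ} (pos : Fin v → Fin 4) (L : Fin v × Fin v → Finset (Fin M))
    (hL : CLU_ok pos L) (i : Fin M) (e : Fin v × Fin v) :
    i ∈ L e ↔ (CLU_f L i = some e ∨ CLU_f L i = some (e.2, e.1)) := by
  constructor
  · intro hi
    obtain ⟨e', h1, _, h3⟩ := CLU_fA pos L hL i e hi
    rcases h3 with h3 | h3
    · left; rw [h1, h3]
    · right
      rw [h1, h3]
  · rintro (h | h)
    · exact CLU_fmem L i e h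
    · have := CLU_fmem L i _ h
      rw [hL.1 e.2 e.1] at this
      exact this

private theorem CLU_inj {v M : ℕ} (pos : Fin v → Fin 4) (L L' : Fin v × Fin v → Finset (Fin M))
    (hL : CLU_ok pos L) (hL' : CLU_ok pos L') (hf : CLU_f L = CLU_f L') : L = L' := by
  funext e
  ext i
  rw [CLU_memiff pos L hL, CLU_memiff pos L' hL', hf]

private theorem CLU_card {v N M : ℕ} (pos : Fin v → Fin 4) (V : Fin v → Finset (Fin N))
    (Vg : Fin 4 → Finset (Fin N)) (nn : Fin 4 → ℕ) (hV : ∀ i, (V i).card = nn (pos i))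
    (hVg : ∀ a, (Vg a).card = nn a) (hN : 0 < N) (g : Fin M → Option (Fin v × Fin v)) :
    ((Fintype.piFinset fun c : Fin M × Fin 4 => CLU_bx pos V Vg (g c.1) c.2).card : ℝ)
      = (Fintype.card (Fin M × Fin 4 → Fin N) : ℝ) *
        ∏ i, CLU_w (∏ a, ((nn a : ℝ) / (N : ℝ))) (g i) := by
  have hN' : (N : ℝ) ≠ 0 := by exact_mod_cast hN.ne'
  have hcard : (Fintype.card (Fin M × Fin 4 → Fin N) : ℝ) = ∏ _i : Fin M, ((N : ℝ) ^ 4) := by
    rw [Fintype.card_fun, Fintype.card_prod]
    simp only [Fintype.card_fin, Finset.prod_const, Finset.card_univ]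
    push_cast
    rw [mul_comm, pow_mul]
  rw [hcard, ← Finset.prod_mul_distrib, Fintype.card_piFinset]
  push_cast
  rw [Fintype.prod_prod_type]
  refine Finset.prod_congr rfl fun i _ => ?_
  cases hgi : g i with
  | none =>
    simp [CLU_bx, CLU_w, hgi]
  | some e =>
    have hc : ∀ a : Fin 4, ((CLU_bx pos V Vg (some e) a).card : ℝ) = (nn a : ℝ) := by
      intro a
      rw [CLU_bx_some]
      by_cases h1 : a = pos e.1
      · rw [if_pos h1, hV, h1]
      · rw [if_neg h1]
        by_cases h2 : a = pos e.2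
        · rw [if_pos h2, hV, h2]
        · rw [if_neg h2, hVg]
    have h2 : ∏ a : Fin 4, ((CLU_bx pos V Vg (g (i, a).1) (i, a).2).card : ℝ)
        = ∏ a : Fin 4, (nn a : ℝ) := by
      refine Finset.prod_congr rfl fun a _ => ?_
      have : g (i, a).1 = some e := hgi
      rw [this]
      exact hc a
    rw [h2]
    unfold CLU_w
    simp only
    rw [Finset.prod_div_distrib, Finset.prod_const, Finset.card_univ, Fintype.card_fin]
    field_simp

/-- Union bound over all families of classes that can be cut out by `L0`. -/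
theorem class_union {v N M : ℕ} (pos : Fin v → Fin 4) (V : Fin v → Finset (Fin N))
    (Vg : Fin 4 → Finset (Fin N)) (nn : Fin 4 → ℕ) (hV : ∀ i, (V i).card = nn (pos i))
    (hVg : ∀ a, (Vg a).card = nn a)
    (hdis : ∀ i j, i ≠ j → pos i = pos j → Disjoint (V i) (V j))
    (hdisg : ∀ i, Disjoint (V i) (Vg (pos i))) (hN : 0 < N) (m K : ℝ)
    (hm : m = (M : ℝ) * ∏ a, ((nn a : ℝ) / (N : ℝ)))
    (P : (Fin M × Fin 4 → Fin N) → (Fin v × Fin v → Finset (Fin M)) → Prop)
    (hP : ∀ (L : Fin v × Fin v → Finset (Fin M)) (Vc : Fin M × Fin 4 → Finset (Fin N)),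
      (∀ d d', L (d, d') = L (d', d)) →
      (∀ e, pos e.1 = pos e.2 → L e = ∅) →
      (∀ e e', e ≠ e' → e ≠ (e'.2, e'.1) → Disjoint (L e) (L e')) →
      (∀ e, ∀ i ∈ L e, Vc (i, pos e.1) = V e.1 ∧ Vc (i, pos e.2) = V e.2) →
      (((Fintype.piFinset Vc).filter fun t => P t L).card : ℝ)
        ≤ Real.exp (-(K * m)) * ((Fintype.piFinset Vc).card : ℝ)) :
    (((Finset.univ : Finset (Fin M × Fin 4 → Fin N)).filter fun t =>
        ∃ L0 : Finset (Fin M),
          P t (fun e => if pos e.1 = pos e.2 then ∅ else cls t pos V Vg L0 e)).card : ℝ)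
      ≤ Real.exp (((v : ℝ) ^ 2 - K) * m) * (Fintype.card (Fin M × Fin 4 → Fin N) : ℝ) := by
  set q : ℝ := ∏ a, ((nn a : ℝ) / (N : ℝ)) with hq
  have hq0 : 0 ≤ q := Finset.prod_nonneg fun a _ => by positivity
  set A : Finset (Fin v × Fin v → Finset (Fin M)) :=
    (Finset.univ : Finset (Fin v × Fin v → Finset (Fin M))).filter (CLU_ok pos) with hA
  set W : (Fin v × Fin v → Finset (Fin M)) → Finset (Fin M × Fin 4 → Fin N) := fun L =>
    Fintype.piFinset fun c : Fin M × Fin 4 => CLU_bx pos V Vg (CLU_f L c.1) c.2 with hW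
  -- the inclusion
  have hsub : ((Finset.univ : Finset (Fin M × Fin 4 → Fin N)).filter fun t =>
        ∃ L0 : Finset (Fin M),
          P t (fun e => if pos e.1 = pos e.2 then ∅ else cls t pos V Vg L0 e))
      ⊆ A.biUnion (fun L => (W L).filter fun t => P t L) := by
    intro t ht
    rw [Finset.mem_filter] at ht
    obtain ⟨_, L0, hPt⟩ := ht
    set L : Fin v × Fin v → Finset (Fin M) :=
      fun e => if pos e.1 = pos e.2 then ∅ else cls t pos V Vg L0 e with hLdef
    have hmem : ∀ e i, i ∈ L e → pos e.1 ≠ pos e.2 ∧ i ∈ L0 ∧ ∀ a : Fin 4,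
        t (i, a) ∈ (if a = pos e.1 then V e.1 else if a = pos e.2 then V e.2 else Vg a) := by
      intro e i hi
      simp only [hLdef] at hi
      by_cases hp : pos e.1 = pos e.2
      · rw [if_pos hp] at hi
        exact absurd hi (Finset.notMem_empty _)
      · rw [if_neg hp] at hi
        unfold cls at hi
        rw [Finset.mem_filter] at hi
        exact ⟨hp, hi.1, hi.2⟩
    have hok : CLU_ok pos L := by
      refine ⟨?_, ?_, ?_⟩
      · intro d d'
        simp only [hLdef]
        by_cases hp : pos d = pos d'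
        · rw [if_pos hp, if_pos hp.symm]
        · rw [if_neg hp, if_neg (fun h => hp h.symm)]
          unfold cls
          refine Finset.filter_congr fun i _ => ?_
          refine forall_congr' fun a => ?_
          simp only
          by_cases h1 : a = pos d
          · have h2 : a ≠ pos d' := fun h => hp (h1.symm.trans h)
            rw [if_pos h1, if_neg h2, if_pos h1]
          · rw [if_neg h1]
            by_cases h2 : a = pos d'
            · rw [if_pos h2, if_pos h2]
            · rw [if_neg h2, if_neg h2, if_neg h1]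
      · intro e he
        simp only [hLdef]
        rw [if_pos he]
      · intro e e' h1 h2
        rw [Finset.disjoint_left]
        intro i hi hi'
        obtain ⟨p1, _, q1⟩ := hmem e i hi
        obtain ⟨p2, _, q2⟩ := hmem e' i hi'
        have key : ∀ d, (d = e.1 ∨ d = e.2) → d ≠ e'.1 → d ≠ e'.2 → False := by
          intro d hd n1 n2
          have hd1 : t (i, pos d) ∈ V d := by
            have := q1 (pos d)
            rcases hd with hd | hd
            · rw [hd] at this ⊢
              rw [if_pos rfl] at this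
              exact this
            · rw [hd] at this ⊢
              rw [if_neg (fun h => p1 h.symm), if_pos rfl] at this
              exact this
          have hd2 := q2 (pos d)
          by_cases g1 : pos d = pos e'.1
          · rw [if_pos g1] at hd2
            exact (Finset.disjoint_left.mp (hdis d e'.1 n1 g1) hd1) hd2
          · rw [if_neg g1] at hd2
            by_cases g2 : pos d = pos e'.2
            · rw [if_pos g2] at hd2
              exact (Finset.disjoint_left.mp (hdis d e'.2 n2 g2) hd1) hd2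
            · rw [if_neg g2] at hd2
              exact (Finset.disjoint_left.mp (hdisg d) hd1) hd2
        have hne : e.1 ≠ e.2 := fun h => p1 (by rw [h])
        have c1 : e.1 = e'.1 ∨ e.1 = e'.2 := by
          by_contra hcon
          push Not at hcon
          exact key e.1 (Or.inl rfl) hcon.1 hcon.2
        have c2 : e.2 = e'.1 ∨ e.2 = e'.2 := by
          by_contra hcon
          push Not at hcon
          exact key e.2 (Or.inr rfl) hcon.1 hcon.2
        rcases c1 with c1 | c1
        · rcases c2 with c2 | c2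
          · exact hne (c1.trans c2.symm)
          · exact h1 (Prod.ext c1 c2)
        · rcases c2 with c2 | c2
          · exact h2 (Prod.ext c1 c2)
          · exact hne (c1.trans c2.symm)
    rw [Finset.mem_biUnion]
    refine ⟨L, ?_, ?_⟩
    · rw [hA, Finset.mem_filter]
      exact ⟨Finset.mem_univ _, hok⟩
    · rw [Finset.mem_filter]
      refine ⟨?_, hPt⟩
      simp only [hW]
      rw [Fintype.mem_piFinset]
      rintro ⟨i, a⟩
      simp only
      cases hf : CLU_f L i with
      | none => exact Finset.mem_univ _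
      | some e =>
        have hi := CLU_fmem L i e hf
        exact (hmem e i hi).2.2 a
  -- each term
  have hterm : ∀ L ∈ A, (((W L).filter fun t => P t L).card : ℝ)
      ≤ Real.exp (-(K * m)) * ((Fintype.card (Fin M × Fin 4 → Fin N) : ℝ) *
        ∏ i, CLU_w q (CLU_f L i)) := by
    intro L hL
    rw [hA, Finset.mem_filter] at hL
    have hok := hL.2
    have h1 := hP L (fun c : Fin M × Fin 4 => CLU_bx pos V Vg (CLU_f L c.1) c.2) hok.1 hok.2.1
      hok.2.2 (by
        intro e i hi
        obtain ⟨e', he1, he2, he3⟩ := CLU_fA pos L hok i e hi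
        have hp : pos e'.1 ≠ pos e'.2 := by
          intro h
          have := hok.2.1 e' h
          rw [this] at he2
          exact absurd he2 (Finset.notMem_empty _)
        simp only [he1]
        rw [CLU_bx_some, CLU_bx_some]
        rcases he3 with he3 | he3
        · rw [he3]
          constructor
          · rw [if_pos rfl]
          · rw [if_neg (fun h => hp h.symm), if_pos rfl]
        · rw [he3]
          constructor
          · show (if pos e'.2 = pos e'.1 then V e'.1
              else if pos e'.2 = pos e'.2 then V e'.2 else Vg (pos e'.2)) = V e'.2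
            rw [if_neg (fun h => hp h.symm), if_pos rfl]
          · show (if pos e'.1 = pos e'.1 then V e'.1
              else if pos e'.1 = pos e'.2 then V e'.2 else Vg (pos e'.1)) = V e'.1
            rw [if_pos rfl])
    refine h1.trans (le_of_eq ?_)
    rw [CLU_card pos V Vg nn hV hVg hN (CLU_f L)]
  -- the sum of the weights
  have hw0 : ∀ o : Option (Fin v × Fin v), 0 ≤ CLU_w q o := by
    intro o
    cases o with
    | none => exact zero_le_one
    | some e => exact hq0
  have hsum : ∑ L ∈ A, ∏ i, CLU_w q (CLU_f L i) ≤ Real.exp ((v : ℝ) ^ 2 * m) := by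
    have hinj : Set.InjOn (fun L : Fin v × Fin v → Finset (Fin M) => CLU_f L) (A : Set _) := by
      intro L hL L' hL' hf
      rw [Finset.mem_coe, hA, Finset.mem_filter] at hL hL'
      exact CLU_inj pos L L' hL.2 hL'.2 hf
    have h1 : ∑ L ∈ A, ∏ i, CLU_w q (CLU_f L i)
        = ∑ g ∈ A.image (fun L => CLU_f L), ∏ i, CLU_w q (g i) := by
      rw [Finset.sum_image hinj]
    have h2 : ∑ g ∈ A.image (fun L => CLU_f L), ∏ i, CLU_w q (g i)
        ≤ ∑ g : Fin M → Option (Fin v × Fin v), ∏ i, CLU_w q (g i) :=
      Finset.sum_le_sum_of_subset_of_nonneg (Finset.subset_univ _)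
        fun g _ _ => Finset.prod_nonneg fun i _ => hw0 _
    have h3 : ∑ g : Fin M → Option (Fin v × Fin v), ∏ i, CLU_w q (g i)
        = (1 + (v : ℝ) ^ 2 * q) ^ M := by
      rw [← Fintype.sum_pow, Fintype.sum_option]
      congr 1
      simp only [CLU_w, Finset.sum_const, Finset.card_univ, Fintype.card_prod, Fintype.card_fin,
        nsmul_eq_mul]
      push_cast
      ring
    have h4 : (1 + (v : ℝ) ^ 2 * q) ^ M ≤ Real.exp ((v : ℝ) ^ 2 * m) := by
      have h5 : 1 + (v : ℝ) ^ 2 * q ≤ Real.exp ((v : ℝ) ^ 2 * q) := by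
        have := Real.add_one_le_exp ((v : ℝ) ^ 2 * q)
        linarith
      have h6 : (0 : ℝ) ≤ 1 + (v : ℝ) ^ 2 * q := by positivity
      calc (1 + (v : ℝ) ^ 2 * q) ^ M ≤ (Real.exp ((v : ℝ) ^ 2 * q)) ^ M :=
            pow_le_pow_left₀ h6 h5 M
        _ = Real.exp ((v : ℝ) ^ 2 * m) := by
            rw [← Real.exp_nat_mul, hm]
            congr 1
            ring
    rw [h1]
    exact (h2.trans (le_of_eq h3)).trans h4
  have hc0 : (0 : ℝ) ≤ (Fintype.card (Fin M × Fin 4 → Fin N) : ℝ) := Nat.cast_nonneg _
  calc (((Finset.univ : Finset (Fin M × Fin 4 → Fin N)).filter fun t =>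
        ∃ L0 : Finset (Fin M),
          P t (fun e => if pos e.1 = pos e.2 then ∅ else cls t pos V Vg L0 e)).card : ℝ)
      ≤ ((A.biUnion (fun L => (W L).filter fun t => P t L)).card : ℝ) := by
        exact_mod_cast Finset.card_le_card hsub
    _ ≤ ∑ L ∈ A, (((W L).filter fun t => P t L).card : ℝ) := by
        exact_mod_cast Finset.card_biUnion_le
    _ ≤ ∑ L ∈ A, Real.exp (-(K * m)) * ((Fintype.card (Fin M × Fin 4 → Fin N) : ℝ) *
        ∏ i, CLU_w q (CLU_f L i)) := Finset.sum_le_sum hterm
    _ = Real.exp (-(K * m)) * ((Fintype.card (Fin M × Fin 4 → Fin N) : ℝ) *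
        ∑ L ∈ A, ∏ i, CLU_w q (CLU_f L i)) := by
        rw [Finset.mul_sum, Finset.mul_sum]
    _ ≤ Real.exp (-(K * m)) * ((Fintype.card (Fin M × Fin 4 → Fin N) : ℝ) *
        Real.exp ((v : ℝ) ^ 2 * m)) := by
        apply mul_le_mul_of_nonneg_left _ (Real.exp_pos _).le
        exact mul_le_mul_of_nonneg_left hsum hc0
    _ = Real.exp (((v : ℝ) ^ 2 - K) * m) * (Fintype.card (Fin M × Fin 4 → Fin N) : ℝ) := by
        have : ((v : ℝ) ^ 2 - K) * m = -(K * m) + (v : ℝ) ^ 2 * m := by ring
        rw [this, Real.exp_add]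
        ring

end Pool.Agent.CUB
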