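import Pool.Agent.CUB.Defs

set_option autoImplicit false

/-!
# CUB.ES

Proof. Split one coordinate after the other. For `σ : Fin j → Bool` let `u_i(σ)` be the sum of `u i`
over the product with side `σ_l` of `J l` for `l < j` and all of `J l` for `l ≥ j`. Coordinate `j`:
choose signs `ε_a` (`a ∈ J j`) at random. For every test `i` and every pattern `σ` of the previous
coordinates, the weights `w(a) = ∑ {lam : lam_l ∈ side σ_l (l<j), lam_j = a, lam_l ∈ J l (l>j)} u i lam`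
are `≤` the full coefficient, and `∑ w ≤` the full total, so
`∑ w(a)^2 ≤ (max w) (∑ w) ≤ θ Sc^2`. With `E exp(s ∑ ε_a w_a) = ∏ cosh(s w_a) ≤ exp(s² ∑ w²/2)`:
`P(|∑ ε_a w_a| > δ' Sc) ≤ 2 exp(-δ'^2 / (2θ))`. There are `|ι| 2^k` tests and
`|ι| exp(-θ₁/θ) ≤ 1`, so with `θ₁` small (e.g. `θ₁ ≤ δ'^2/4` and small enough that
`2^{k+2} exp(-δ'^2/(4θ₁)) < 1/2`) the union bound leaves total probability `< 1/2`, and
`|J j| ≤ 4 |J j \ J0 j|` fails with probability `< 1/2` if `|J j| ≥ n₀` (Chernoff/Chebyshev). So a good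
choice exists. Since `u(σ,+) + u(σ,-) = u(σ)` and `|u(σ,+) - u(σ,-)| ≤ δ' Sc`, all the values `u(σ)`,
`σ : Fin j → Bool`, differ by at most `(1/2) δ_{j-1} + δ'` =: `δ_j ≤ 2δ'`; take `δ' = δ/2` and compare
the patterns all-`+` and all-`-`. (k = 0: both sums are the same single term.)
-/

namespace Pool.Agent.CUB

open scoped Classical

/-- Tail bound for a random signed sum. -/
private theorem ES_tail {M : ℕ} (J : Finset (Fin M)) (w : Fin M → ℝ) (V t : ℝ) (hV : 0 < V)
    (ht : 0 ≤ t) (hw : ∑ a ∈ J, w a ^ 2 ≤ V) :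
    ((J.powerset.filter fun A => t < ∑ a ∈ A, w a - ∑ a ∈ J \ A, w a).card : ℝ)
      ≤ 2 ^ J.card * Real.exp (-(t ^ 2 / (2 * V))) := by
  set s : ℝ := t / V with hs
  have hs0 : 0 ≤ s := div_nonneg ht hV.le
  have h1 : ((J.powerset.filter fun A => t < ∑ a ∈ A, w a - ∑ a ∈ J \ A, w a).card : ℝ)
      ≤ ∑ A ∈ J.powerset,
        Real.exp (s * (∑ a ∈ A, w a - ∑ a ∈ J \ A, w a) - s * t) := by
    rw [Finset.card_filter, Nat.cast_sum]
    refine Finset.sum_le_sum ?_
    intro A _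
    split_ifs with hA
    · rw [Nat.cast_one]
      refine Real.one_le_exp ?_
      have := mul_le_mul_of_nonneg_left hA.le hs0
      linarith
    · rw [Nat.cast_zero]
      exact (Real.exp_pos _).le
  have h2 : ∑ A ∈ J.powerset,
        Real.exp (s * (∑ a ∈ A, w a - ∑ a ∈ J \ A, w a) - s * t)
      = Real.exp (-(s * t)) * ∏ a ∈ J, (Real.exp (s * w a) + Real.exp (-(s * w a))) := by
    rw [Finset.prod_add, Finset.mul_sum]
    refine Finset.sum_congr rfl ?_
    intro A _
    rw [← Real.exp_sum, ← Real.exp_sum, ← Real.exp_add, ← Real.exp_add]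
    congr 1
    rw [Finset.sum_neg_distrib, ← Finset.mul_sum, ← Finset.mul_sum]
    ring
  have h3 : ∏ a ∈ J, (Real.exp (s * w a) + Real.exp (-(s * w a)))
      ≤ ∏ a ∈ J, (2 * Real.exp ((s * w a) ^ 2 / 2)) := by
    refine Finset.prod_le_prod ?_ ?_
    · intro a _
      positivity
    · intro a _
      have := Real.cosh_le_exp_half_sq (s * w a)
      rw [Real.cosh_eq] at this
      linarith
  have h4 : ∏ a ∈ J, (2 * Real.exp ((s * w a) ^ 2 / 2))
      = 2 ^ J.card * Real.exp (s ^ 2 / 2 * ∑ a ∈ J, w a ^ 2) := by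
    rw [Finset.prod_mul_distrib, Finset.prod_const, ← Real.exp_sum]
    congr 2
    rw [Finset.mul_sum]
    refine Finset.sum_congr rfl ?_
    intro a _
    ring
  rw [h2] at h1
  refine h1.trans ?_
  calc Real.exp (-(s * t)) * ∏ a ∈ J, (Real.exp (s * w a) + Real.exp (-(s * w a)))
      ≤ Real.exp (-(s * t)) * (2 ^ J.card * Real.exp (s ^ 2 / 2 * ∑ a ∈ J, w a ^ 2)) := by
        rw [← h4]
        exact mul_le_mul_of_nonneg_left h3 (Real.exp_pos _).le
    _ = 2 ^ J.card * Real.exp (s ^ 2 / 2 * ∑ a ∈ J, w a ^ 2 - s * t) := by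
        rw [sub_eq_add_neg, Real.exp_add]
        ring
    _ ≤ 2 ^ J.card * Real.exp (-(t ^ 2 / (2 * V))) := by
        refine mul_le_mul_of_nonneg_left (Real.exp_le_exp.mpr ?_) (by positivity)
        have e1 : s ^ 2 / 2 * ∑ a ∈ J, w a ^ 2 ≤ s ^ 2 / 2 * V :=
          mul_le_mul_of_nonneg_left hw (by positivity)
        have e2 : s ^ 2 / 2 * V - s * t = -(t ^ 2 / (2 * V)) := by
          rw [hs]
          field_simp
          ring
        linarith

/-- Balanced splitting of one set for finitely many tests. -/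
private theorem ES_bal {M : ℕ} (K : Type) [Fintype K] (J : Finset (Fin M)) (w : K → Fin M → ℝ)
    (V t : ℝ) (hV : 0 < V) (ht : 0 ≤ t) (hw : ∀ s, ∑ a ∈ J, w s a ^ 2 ≤ V)
    (hcard : 2 * (Fintype.card K : ℝ) * Real.exp (-(t ^ 2 / (2 * V))) ≤ 1 / 4)
    (hJ : 16 ≤ J.card) :
    ∃ A ⊆ J, J.card ≤ 4 * (J \ A).card ∧
      ∀ s, |∑ a ∈ A, w s a - ∑ a ∈ J \ A, w s a| ≤ t := by
  by_contra hcon
  push Not at hcon
  have h16 : (16 : ℝ) ≤ (J.card : ℝ) := by exact_mod_cast hJ
  have hsize : ((J.powerset.filter fun A =>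
      (J.card : ℝ) / 2 < ∑ a ∈ A, (1 : ℝ) - ∑ a ∈ J \ A, (1 : ℝ)).card : ℝ)
      ≤ 2 ^ J.card * Real.exp (-(((J.card : ℝ) / 2) ^ 2 / (2 * (J.card : ℝ)))) := by
    refine ES_tail J (fun _ => 1) (J.card : ℝ) ((J.card : ℝ) / 2) (by linarith) (by linarith) ?_
    simp
  have hexp : Real.exp (-(((J.card : ℝ) / 2) ^ 2 / (2 * (J.card : ℝ)))) ≤ 1 / 4 := by
    have e1 : -(((J.card : ℝ) / 2) ^ 2 / (2 * (J.card : ℝ))) = -((J.card : ℝ) / 8) := by
      have : (J.card : ℝ) ≠ 0 := by linarith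
      field_simp
      ring
    rw [e1]
    have e2 : Real.exp (-((J.card : ℝ) / 8)) ≤ Real.exp (-2) :=
      Real.exp_le_exp.mpr (by linarith)
    have e3 : (4 : ℝ) ≤ Real.exp 2 := by
      have h := Real.add_one_le_exp (1 : ℝ)
      have h2 : Real.exp 2 = Real.exp 1 * Real.exp 1 := by
        rw [← Real.exp_add]; norm_num
      rw [h2]
      nlinarith
    have e4 : Real.exp (-2) ≤ 1 / 4 := by
      rw [Real.exp_neg, inv_eq_one_div]
      exact one_div_le_one_div_of_le (by norm_num) e3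
    exact e2.trans e4
  have hsub : J.powerset ⊆ (J.powerset.filter fun A =>
      (J.card : ℝ) / 2 < ∑ a ∈ A, (1 : ℝ) - ∑ a ∈ J \ A, (1 : ℝ)) ∪
      (Finset.univ : Finset K).biUnion fun s =>
        (J.powerset.filter fun A => t < ∑ a ∈ A, w s a - ∑ a ∈ J \ A, w s a) ∪
        (J.powerset.filter fun A => t < ∑ a ∈ A, (-w s a) - ∑ a ∈ J \ A, (-w s a)) := by
    intro A hA
    have hAJ := Finset.mem_powerset.mp hA
    rw [Finset.mem_union]
    by_cases hc : J.card ≤ 4 * (J \ A).card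
    · right
      obtain ⟨s, hs⟩ := hcon A hAJ hc
      rw [Finset.mem_biUnion]
      refine ⟨s, Finset.mem_univ _, ?_⟩
      rw [Finset.mem_union, Finset.mem_filter, Finset.mem_filter]
      rcases lt_abs.mp hs with h | h
      · left
        exact ⟨hA, h⟩
      · right
        refine ⟨hA, ?_⟩
        rw [Finset.sum_neg_distrib, Finset.sum_neg_distrib]
        linarith
    · left
      rw [Finset.mem_filter]
      refine ⟨hA, ?_⟩
      rw [Finset.sum_const, Finset.sum_const, nsmul_eq_mul, nsmul_eq_mul, mul_one, mul_one]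
      have hc1 : 4 * (J \ A).card < J.card := not_le.mp hc
      have hc2 : (4 : ℝ) * ((J \ A).card : ℝ) < (J.card : ℝ) := by exact_mod_cast hc1
      have hc3 : ((J \ A).card : ℝ) + (A.card : ℝ) = (J.card : ℝ) := by
        exact_mod_cast Finset.card_sdiff_add_card_eq_card hAJ
      linarith
  have hcount := Finset.card_le_card hsub
  rw [Finset.card_powerset] at hcount
  have hcount2 : (2 : ℝ) ^ J.card ≤
      ((J.powerset.filter fun A =>
      (J.card : ℝ) / 2 < ∑ a ∈ A, (1 : ℝ) - ∑ a ∈ J \ A, (1 : ℝ)).card : ℝ) +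
      ∑ s : K, (((J.powerset.filter fun A => t < ∑ a ∈ A, w s a - ∑ a ∈ J \ A, w s a).card : ℝ)
        + ((J.powerset.filter fun A =>
          t < ∑ a ∈ A, (-w s a) - ∑ a ∈ J \ A, (-w s a)).card : ℝ)) := by
    have h1 := hcount.trans ((Finset.card_union_le _ _).trans
      (Nat.add_le_add_left Finset.card_biUnion_le _))
    have h2 : ((2 ^ J.card : ℕ) : ℝ) ≤ _ := Nat.cast_le.mpr h1
    rw [Nat.cast_pow, Nat.cast_ofNat, Nat.cast_add, Nat.cast_sum] at h2
    refine h2.trans (add_le_add le_rfl (Finset.sum_le_sum ?_))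
    intro s _
    exact_mod_cast Finset.card_union_le _ _
  have hterm : ∀ s : K,
      (((J.powerset.filter fun A => t < ∑ a ∈ A, w s a - ∑ a ∈ J \ A, w s a).card : ℝ)
        + ((J.powerset.filter fun A =>
          t < ∑ a ∈ A, (-w s a) - ∑ a ∈ J \ A, (-w s a)).card : ℝ))
      ≤ 2 * (2 ^ J.card * Real.exp (-(t ^ 2 / (2 * V)))) := by
    intro s
    have h1 := ES_tail J (w s) V t hV ht (hw s)
    have h2 := ES_tail J (fun a => -w s a) V t hV ht (by
      refine le_trans (le_of_eq (Finset.sum_congr rfl ?_)) (hw s)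
      intro a _
      ring)
    linarith
  have hsum : ∑ s : K,
      (((J.powerset.filter fun A => t < ∑ a ∈ A, w s a - ∑ a ∈ J \ A, w s a).card : ℝ)
        + ((J.powerset.filter fun A =>
          t < ∑ a ∈ A, (-w s a) - ∑ a ∈ J \ A, (-w s a)).card : ℝ))
      ≤ (Fintype.card K : ℝ) * (2 * (2 ^ J.card * Real.exp (-(t ^ 2 / (2 * V))))) := by
    refine (Finset.sum_le_sum fun s _ => hterm s).trans ?_
    rw [Finset.sum_const, nsmul_eq_mul, Finset.card_univ]
  have hpow : (0 : ℝ) < 2 ^ J.card := by positivity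
  have hb : (Fintype.card K : ℝ) * (2 * (2 ^ J.card * Real.exp (-(t ^ 2 / (2 * V)))))
      ≤ 2 ^ J.card * (1 / 4) := by
    calc (Fintype.card K : ℝ) * (2 * (2 ^ J.card * Real.exp (-(t ^ 2 / (2 * V)))))
        = 2 ^ J.card * (2 * (Fintype.card K : ℝ) * Real.exp (-(t ^ 2 / (2 * V)))) := by ring
      _ ≤ 2 ^ J.card * (1 / 4) := mul_le_mul_of_nonneg_left hcard hpow.le
  have hb2 : (2 : ℝ) ^ J.card * Real.exp (-(((J.card : ℝ) / 2) ^ 2 / (2 * (J.card : ℝ))))
      ≤ 2 ^ J.card * (1 / 4) := mul_le_mul_of_nonneg_left hexp hpow.le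
  linarith

/-- patterns -/
private def ES_pat {k M : ℕ} (P : Finset (Fin k)) (J0 : Fin k → Finset (Fin M)) (σ : Fin k → Bool)
    (lam : Fin k → Fin M) : Prop := ∀ j ∈ P, (lam j ∈ J0 j ↔ σ j = true)

/-- partial sums -/
private noncomputable def ES_U {k M : ℕ} (u : (Fin k → Fin M) → ℝ) (J : Fin k → Finset (Fin M))
    (P : Finset (Fin k)) (J0 : Fin k → Finset (Fin M)) (σ : Fin k → Bool) : ℝ :=
  ∑ lam ∈ (Fintype.piFinset J).filter (ES_pat P J0 σ), u lam

private theorem ES_step {k M : ℕ} (ι : Type) [Fintype ι] (u : ι → (Fin k → Fin M) → ℝ)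
    (J : Fin k → Finset (Fin M)) (V t : ℝ) (hu : ∀ i lam, 0 ≤ u i lam) (hV : 0 < V) (ht : 0 ≤ t)
    (hcard : 2 * (Fintype.card (ι × (Fin k → Bool)) : ℝ) * Real.exp (-(t ^ 2 / (2 * V))) ≤ 1 / 4)
    (hJ : ∀ j, 16 ≤ (J j).card)
    (hspr : ∀ i : ι, ∀ j : Fin k, ∀ a ∈ J j,
        (∑ lam ∈ (Fintype.piFinset J).filter (fun lam => lam j = a), u i lam) *
          (∑ lam ∈ Fintype.piFinset J, u i lam) ≤ V)
    (P : Finset (Fin k)) (J0 : Fin k → Finset (Fin M)) (j : Fin k) (hj : j ∉ P) :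
    ∃ A ⊆ J j, (J j).card ≤ 4 * (J j \ A).card ∧
      ∀ i σ, |ES_U (u i) J (insert j P) (Function.update J0 j A) σ
        - ES_U (u i) J P J0 σ / 2| ≤ t / 2 := by
  set w : ι × (Fin k → Bool) → Fin M → ℝ := fun s a =>
    ∑ lam ∈ ((Fintype.piFinset J).filter (ES_pat P J0 s.2)).filter (fun lam => lam j = a),
      u s.1 lam with hwdef
  have hw0 : ∀ s a, 0 ≤ w s a := fun s a => Finset.sum_nonneg fun lam _ => hu s.1 lam
  have hwc : ∀ s a, w s a
      ≤ ∑ lam ∈ (Fintype.piFinset J).filter (fun lam => lam j = a), u s.1 lam := by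
    intro s a
    refine Finset.sum_le_sum_of_subset_of_nonneg ?_ (fun lam _ _ => hu s.1 lam)
    intro lam hlam
    rw [Finset.mem_filter, Finset.mem_filter] at hlam
    rw [Finset.mem_filter]
    exact ⟨hlam.1.1, hlam.2⟩
  have hfib : ∀ (B : Finset (Fin M)) (s : ι × (Fin k → Bool)), B ⊆ J j →
      ∑ a ∈ B, w s a = ∑ lam ∈ ((Fintype.piFinset J).filter (ES_pat P J0 s.2)).filter
        (fun lam => lam j ∈ B), u s.1 lam := by
    intro B s _
    rw [hwdef]
    rw [← Finset.sum_fiberwise_of_maps_to (s := ((Fintype.piFinset J).filter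
      (ES_pat P J0 s.2)).filter (fun lam => lam j ∈ B)) (t := B) (g := fun lam => lam j)
      (fun lam hlam => (Finset.mem_filter.mp hlam).2)]
    refine Finset.sum_congr rfl ?_
    intro a ha
    refine Finset.sum_congr ?_ (fun _ _ => rfl)
    ext lam
    simp only [Finset.mem_filter]
    constructor
    · rintro ⟨h1, h2⟩
      exact ⟨⟨h1, by rw [h2]; exact ha⟩, h2⟩
    · rintro ⟨⟨h1, _⟩, h2⟩
      exact ⟨h1, h2⟩
  have hwsum : ∀ s, ∑ a ∈ J j, w s a = ES_U (u s.1) J P J0 s.2 := by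
    intro s
    rw [hfib (J j) s (Finset.Subset.refl _)]
    unfold ES_U
    refine Finset.sum_congr ?_ (fun _ _ => rfl)
    ext lam
    simp only [Finset.mem_filter]
    constructor
    · rintro ⟨h1, _⟩
      exact h1
    · rintro ⟨h1, h2⟩
      exact ⟨⟨h1, h2⟩, Fintype.mem_piFinset.mp h1 j⟩
  have hUT : ∀ s : ι × (Fin k → Bool), ES_U (u s.1) J P J0 s.2
      ≤ ∑ lam ∈ Fintype.piFinset J, u s.1 lam := fun s =>
    Finset.sum_le_sum_of_subset_of_nonneg (Finset.filter_subset _ _) (fun lam _ _ => hu s.1 lam)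
  have hsq : ∀ s, ∑ a ∈ J j, w s a ^ 2 ≤ V := by
    intro s
    set T : ℝ := ∑ lam ∈ Fintype.piFinset J, u s.1 lam with hT
    have hT0 : 0 ≤ T := Finset.sum_nonneg fun lam _ => hu s.1 lam
    have h1 : (∑ a ∈ J j, w s a ^ 2) * T ≤ V * T := by
      calc (∑ a ∈ J j, w s a ^ 2) * T = ∑ a ∈ J j, w s a * (w s a * T) := by
            rw [Finset.sum_mul]
            refine Finset.sum_congr rfl ?_
            intro a _
            ring
        _ ≤ ∑ a ∈ J j, w s a * V := by
            refine Finset.sum_le_sum ?_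
            intro a ha
            refine mul_le_mul_of_nonneg_left ?_ (hw0 s a)
            exact (mul_le_mul_of_nonneg_right (hwc s a) hT0).trans (hspr s.1 j a ha)
        _ = V * ∑ a ∈ J j, w s a := by
            rw [← Finset.sum_mul, mul_comm]
        _ ≤ V * T := by
            rw [hwsum s]
            exact mul_le_mul_of_nonneg_left (hUT s) hV.le
    rcases hT0.lt_or_eq with hpos | hzero
    · exact le_of_mul_le_mul_right h1 hpos
    · have hz : ∀ a ∈ J j, w s a = 0 := by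
        intro a ha
        have h2 : w s a ≤ ∑ a ∈ J j, w s a :=
          Finset.single_le_sum (fun b _ => hw0 s b) ha
        rw [hwsum s] at h2
        have h3 := hUT s
        rw [← hT, ← hzero] at h3
        exact le_antisymm (h2.trans h3) (hw0 s a)
      rw [Finset.sum_eq_zero]
      · exact hV.le
      · intro a ha
        rw [hz a ha]
        ring
  obtain ⟨A, hAJ, hAc, hA⟩ := ES_bal (ι × (Fin k → Bool)) (J j) w V t hV ht hsq hcard (hJ j)
  refine ⟨A, hAJ, hAc, ?_⟩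
  intro i σ
  have hAs := hA (i, σ)
  have htot : ∑ a ∈ A, w (i, σ) a + ∑ a ∈ J j \ A, w (i, σ) a = ES_U (u i) J P J0 σ := by
    rw [← hwsum (i, σ), add_comm]
    exact Finset.sum_sdiff hAJ
  have hpatj : ∀ lam : Fin k → Fin M, ES_pat (insert j P) (Function.update J0 j A) σ lam ↔
      (ES_pat P J0 σ lam ∧ (lam j ∈ A ↔ σ j = true)) := by
    intro lam
    unfold ES_pat
    constructor
    · intro h
      refine ⟨fun l hl => ?_, ?_⟩
      · have hne : l ≠ j := fun he => hj (he ▸ hl)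
        have := h l (Finset.mem_insert_of_mem hl)
        rw [Function.update_of_ne hne] at this
        exact this
      · have := h j (Finset.mem_insert_self _ _)
        rw [Function.update_self] at this
        exact this
    · rintro ⟨h1, h2⟩ l hl
      rw [Finset.mem_insert] at hl
      rcases hl with rfl | hl
      · rw [Function.update_self]
        exact h2
      · have hne : l ≠ j := fun he => hj (he ▸ hl)
        rw [Function.update_of_ne hne]
        exact h1 l hl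
  cases hσ : σ j with
  | true =>
    have e : ES_U (u i) J (insert j P) (Function.update J0 j A) σ = ∑ a ∈ A, w (i, σ) a := by
      rw [hfib A (i, σ) hAJ]
      unfold ES_U
      refine Finset.sum_congr ?_ (fun _ _ => rfl)
      ext lam
      rw [Finset.mem_filter, Finset.mem_filter, Finset.mem_filter, hpatj, hσ]
      simp only [iff_true, and_assoc]
    rw [e, abs_le]
    rw [abs_le] at hAs
    constructor <;> linarith [hAs.1, hAs.2]
  | false =>
    have e : ES_U (u i) J (insert j P) (Function.update J0 j A) σ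
        = ∑ a ∈ J j \ A, w (i, σ) a := by
      rw [hfib (J j \ A) (i, σ) Finset.sdiff_subset]
      unfold ES_U
      refine Finset.sum_congr ?_ (fun _ _ => rfl)
      ext lam
      rw [Finset.mem_filter, Finset.mem_filter, Finset.mem_filter, hpatj, hσ, Finset.mem_sdiff]
      constructor
      · rintro ⟨h1, h2, h3⟩
        refine ⟨⟨h1, h2⟩, Fintype.mem_piFinset.mp h1 j, fun h => ?_⟩
        exact absurd (h3.mp h) Bool.false_ne_true
      · rintro ⟨⟨h1, h2⟩, _, h3⟩
        exact ⟨h1, h2, fun h => absurd h h3, fun h => absurd h Bool.false_ne_true⟩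
    rw [e, abs_le]
    rw [abs_le] at hAs
    constructor <;> linarith [hAs.1, hAs.2]

private theorem ES_ind {k M : ℕ} (ι : Type) [Fintype ι] (u : ι → (Fin k → Fin M) → ℝ)
    (J : Fin k → Finset (Fin M)) (V t : ℝ) (hu : ∀ i lam, 0 ≤ u i lam) (hV : 0 < V) (ht : 0 ≤ t)
    (hcard : 2 * (Fintype.card (ι × (Fin k → Bool)) : ℝ) * Real.exp (-(t ^ 2 / (2 * V))) ≤ 1 / 4)
    (hJ : ∀ j, 16 ≤ (J j).card)
    (hspr : ∀ i : ι, ∀ j : Fin k, ∀ a ∈ J j,
        (∑ lam ∈ (Fintype.piFinset J).filter (fun lam => lam j = a), u i lam) *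
          (∑ lam ∈ Fintype.piFinset J, u i lam) ≤ V)
    (P : Finset (Fin k)) :
    ∃ J0 : Fin k → Finset (Fin M), (∀ j ∈ P, J0 j ⊆ J j ∧ (J j).card ≤ 4 * (J j \ J0 j).card) ∧
      ∀ i σ, |ES_U (u i) J P J0 σ - (∑ lam ∈ Fintype.piFinset J, u i lam) / 2 ^ P.card| ≤ t := by
  induction P using Finset.induction_on with
  | empty =>
    refine ⟨fun _ => ∅, fun j hj => absurd hj (Finset.notMem_empty j), ?_⟩
    intro i σ
    have e : ES_U (u i) J ∅ (fun _ => ∅) σ = ∑ lam ∈ Fintype.piFinset J, u i lam := by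
      unfold ES_U
      rw [Finset.filter_true_of_mem]
      intro lam _ j hj
      exact absurd hj (Finset.notMem_empty j)
    rw [e, Finset.card_empty, pow_zero, div_one, sub_self, abs_zero]
    exact ht
  | insert j P hj ih =>
    obtain ⟨J0, h1, h2⟩ := ih
    obtain ⟨A, hAJ, hAc, hA⟩ := ES_step ι u J V t hu hV ht hcard hJ hspr P J0 j hj
    refine ⟨Function.update J0 j A, ?_, ?_⟩
    · intro l hl
      by_cases hlj : l = j
      · subst hlj
        rw [Function.update_self]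
        exact ⟨hAJ, hAc⟩
      · rw [Function.update_of_ne hlj]
        rw [Finset.mem_insert] at hl
        exact h1 l (hl.resolve_left hlj)
    · intro i σ
      have e1 := hA i σ
      have e2 := h2 i σ
      rw [Finset.card_insert_of_notMem hj, pow_succ]
      have e3 : (∑ lam ∈ Fintype.piFinset J, u i lam) / (2 ^ P.card * 2)
          = (∑ lam ∈ Fintype.piFinset J, u i lam) / 2 ^ P.card / 2 := by
        rw [div_div]
      rw [e3]
      rw [abs_le] at e1 e2 ⊢
      constructor <;> linarith [e1.1, e1.2, e2.1, e2.2]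

/-- Even splitting: a product set `∏ J j` can be split in every coordinate so that all the tests
`u i` are nearly equal on the two products, provided the tests are spread. -/
theorem even_split (k : ℕ) (δ : ℝ) (hδ : 0 < δ) :
    ∃ θ₁ : ℝ, 0 < θ₁ ∧ ∃ n₀ : ℕ, ∀ (M : ℕ) (ι : Type) [Fintype ι] (u : ι → (Fin k → Fin M) → ℝ)
      (J : Fin k → Finset (Fin M)) (Sc θ : ℝ),
      (∀ i lam, 0 ≤ u i lam) → 0 < Sc → 0 < θ → θ ≤ θ₁ →
      (Fintype.card ι : ℝ) * Real.exp (-(θ₁ / θ)) ≤ 1 → (∀ j, n₀ ≤ (J j).card) →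
      (∀ i : ι, ∀ j : Fin k, ∀ a ∈ J j,
        (∑ lam ∈ (Fintype.piFinset J).filter (fun lam => lam j = a), u i lam) *
          (∑ lam ∈ Fintype.piFinset J, u i lam) ≤ θ * Sc ^ 2) →
      ∃ J0 : Fin k → Finset (Fin M), (∀ j, J0 j ⊆ J j) ∧
        (∀ j, (J j).card ≤ 4 * (J j \ J0 j).card) ∧
        ∀ i : ι, |(∑ lam ∈ Fintype.piFinset J0, u i lam) -
            ∑ lam ∈ Fintype.piFinset (fun j => J j \ J0 j), u i lam| ≤ δ * Sc := by
  have hL : (0 : ℝ) < 8 * 2 ^ k := by positivity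
  have hL1 : (1 : ℝ) ≤ 8 * 2 ^ k := by
    have : (1 : ℝ) ≤ 2 ^ k := one_le_pow₀ (by norm_num)
    linarith
  refine ⟨(δ / 2) ^ 2 / (4 * (8 * 2 ^ k)), by positivity, 16, ?_⟩
  intro M ι _ u J Sc θ hu hSc hθ hθ1 hcard hJ hspr
  set δ' : ℝ := δ / 2 with hδ'
  have hδ'0 : 0 < δ' := by rw [hδ']; linarith
  set θ₁ : ℝ := δ' ^ 2 / (4 * (8 * 2 ^ k)) with hθ₁
  have hθ₁0 : 0 < θ₁ := by rw [hθ₁]; positivity
  have hV : 0 < θ * Sc ^ 2 := by positivity
  have ht : 0 ≤ δ' * Sc := by positivity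
  have hexpo : -((δ' * Sc) ^ 2 / (2 * (θ * Sc ^ 2))) = -(θ₁ / θ) + (θ₁ / θ - δ' ^ 2 / (2 * θ)) := by
    have : Sc ≠ 0 := hSc.ne'
    field_simp
    ring
  have hexp2 : θ₁ / θ - δ' ^ 2 / (2 * θ) ≤ -(8 * 2 ^ k) := by
    have h1 : θ₁ ≤ δ' ^ 2 / 4 := by
      rw [hθ₁]
      refine div_le_div_of_nonneg_left (by positivity) (by norm_num) ?_
      linarith
    have h2 : θ₁ / θ - δ' ^ 2 / (2 * θ) ≤ -(δ' ^ 2 / 4 / θ) := by
      have h3 : θ₁ / θ ≤ δ' ^ 2 / 4 / θ := div_le_div_of_nonneg_right h1 hθ.le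
      have h4 : δ' ^ 2 / (2 * θ) = 2 * (δ' ^ 2 / 4 / θ) := by
        field_simp
        ring
      rw [h4]
      linarith
    have h5 : 8 * 2 ^ k ≤ δ' ^ 2 / 4 / θ := by
      rw [le_div_iff₀ hθ]
      calc 8 * 2 ^ k * θ ≤ 8 * 2 ^ k * θ₁ := mul_le_mul_of_nonneg_left hθ1 hL.le
        _ = δ' ^ 2 / 4 := by
          rw [hθ₁]
          field_simp
    linarith
  have hc2 : 2 * (Fintype.card (ι × (Fin k → Bool)) : ℝ) *
      Real.exp (-((δ' * Sc) ^ 2 / (2 * (θ * Sc ^ 2)))) ≤ 1 / 4 := by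
    rw [Fintype.card_prod, Fintype.card_fun, Fintype.card_bool, Fintype.card_fin, hexpo,
      Real.exp_add]
    have h1 : Real.exp (θ₁ / θ - δ' ^ 2 / (2 * θ)) ≤ 1 / (8 * 2 ^ k) := by
      calc Real.exp (θ₁ / θ - δ' ^ 2 / (2 * θ)) ≤ Real.exp (-(8 * 2 ^ k)) :=
            Real.exp_le_exp.mpr hexp2
        _ ≤ 1 / (8 * 2 ^ k) := by
          rw [Real.exp_neg, inv_eq_one_div]
          refine one_div_le_one_div_of_le hL ?_
          have := Real.add_one_le_exp (8 * 2 ^ k : ℝ)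
          linarith
    have h2 : (0 : ℝ) ≤ (Fintype.card ι : ℝ) * Real.exp (-(θ₁ / θ)) := by positivity
    calc 2 * ((Fintype.card ι * 2 ^ k : ℕ) : ℝ) *
          (Real.exp (-(θ₁ / θ)) * Real.exp (θ₁ / θ - δ' ^ 2 / (2 * θ)))
        = 2 * 2 ^ k * ((Fintype.card ι : ℝ) * Real.exp (-(θ₁ / θ))) *
            Real.exp (θ₁ / θ - δ' ^ 2 / (2 * θ)) := by
          push_cast
          ring
      _ ≤ 2 * 2 ^ k * 1 * (1 / (8 * 2 ^ k)) := by
          refine mul_le_mul ?_ h1 (Real.exp_pos _).le (by positivity)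
          exact mul_le_mul_of_nonneg_left hcard (by positivity)
      _ = 1 / 4 := by
          field_simp
          norm_num
  obtain ⟨J0, h1, h2⟩ := ES_ind ι u J (θ * Sc ^ 2) (δ' * Sc) hu hV ht hc2 hJ hspr Finset.univ
  refine ⟨J0, fun j => (h1 j (Finset.mem_univ j)).1, fun j => (h1 j (Finset.mem_univ j)).2, ?_⟩
  intro i
  have e1 := h2 i (fun _ => true)
  have e2 := h2 i (fun _ => false)
  have f1 : ES_U (u i) J Finset.univ J0 (fun _ => true)
      = ∑ lam ∈ Fintype.piFinset J0, u i lam := by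
    unfold ES_U
    refine Finset.sum_congr ?_ (fun _ _ => rfl)
    ext lam
    rw [Finset.mem_filter, Fintype.mem_piFinset, Fintype.mem_piFinset]
    constructor
    · rintro ⟨_, hp⟩ j
      exact (hp j (Finset.mem_univ j)).mpr rfl
    · intro hp
      exact ⟨fun j => (h1 j (Finset.mem_univ j)).1 (hp j), fun j _ => ⟨fun _ => rfl, fun _ => hp j⟩⟩
  have f2 : ES_U (u i) J Finset.univ J0 (fun _ => false)
      = ∑ lam ∈ Fintype.piFinset (fun j => J j \ J0 j), u i lam := by
    unfold ES_U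
    refine Finset.sum_congr ?_ (fun _ _ => rfl)
    ext lam
    rw [Finset.mem_filter, Fintype.mem_piFinset, Fintype.mem_piFinset]
    constructor
    · rintro ⟨hJl, hp⟩ j
      rw [Finset.mem_sdiff]
      exact ⟨hJl j, fun h => absurd ((hp j (Finset.mem_univ j)).mp h) Bool.false_ne_true⟩
    · intro hp
      refine ⟨fun j => (Finset.mem_sdiff.mp (hp j)).1, fun j _ => ?_⟩
      exact ⟨fun h => absurd h (Finset.mem_sdiff.mp (hp j)).2,
        fun h => absurd h Bool.false_ne_true⟩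
  rw [f1] at e1
  rw [f2] at e2
  rw [abs_le] at e1 e2 ⊢
  constructor <;> nlinarith [e1.1, e1.2, e2.1, e2.2]

end Pool.Agent.CUB
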