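import Pool.Agent.CUB.PRI

set_option autoImplicit false

/-!
# CUB.HALF

Proof. If `1 ≤ a` the factor is `≥ 1`. If `a < 1`: union bound over the subsets `J' ⊆ J` with
`J.card ≤ 2 * J'.card` on which `t c ∈ A`: each has probability `≤ a ^ J'.card = (√a) ^ (2 J'.card)
≤ (√a) ^ J.card` (use `pri` with singletons, or count directly), and there are `≤ 2 ^ J.card` of
them.
-/

namespace Pool.Agent.CUB

open scoped Classical

private theorem HALF_card {α : Type*} (s : Finset α) (p q : α → Prop) (hp : DecidablePred p)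
    (hq : DecidablePred q) (h : ∀ x ∈ s, (p x ↔ q x)) :
    (@Finset.filter α p hp s).card = (@Finset.filter α q hq s).card := by
  rw [Finset.filter_congr h]

private theorem HALF_one {κ : Type} [Fintype κ] [DecidableEq κ] {N : ℕ}
    (Vc : κ → Finset (Fin N)) (A : Finset (Fin N)) (a : ℝ) (c : κ)
    (hc : (((Vc c).filter fun y => y ∈ A).card : ℝ) ≤ a * ((Vc c).card : ℝ)) :
    (((Fintype.piFinset Vc).filter fun t => t c ∈ A).card : ℝ)
      ≤ a * ((Fintype.piFinset Vc).card : ℝ) := by
  have hset : ((Fintype.piFinset Vc).filter fun t => t c ∈ A)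
      = Fintype.piFinset (Function.update Vc c ((Vc c).filter fun y => y ∈ A)) := by
    ext t
    rw [Finset.mem_filter, Fintype.mem_piFinset, Fintype.mem_piFinset]
    constructor
    · rintro ⟨h1, h2⟩ d
      by_cases hd : d = c
      · subst hd
        rw [Function.update_self, Finset.mem_filter]
        exact ⟨h1 d, h2⟩
      · rw [Function.update_of_ne hd]
        exact h1 d
    · intro h1
      have hcc := h1 c
      rw [Function.update_self, Finset.mem_filter] at hcc
      refine ⟨fun d => ?_, hcc.2⟩
      by_cases hd : d = c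
      · subst hd
        exact hcc.1
      · have := h1 d
        rw [Function.update_of_ne hd] at this
        exact this
  rw [hset, Fintype.card_piFinset, Fintype.card_piFinset,
    ← Finset.mul_prod_erase Finset.univ _ (Finset.mem_univ c),
    ← Finset.mul_prod_erase Finset.univ (fun d => (Vc d).card) (Finset.mem_univ c),
    Function.update_self]
  have e : ∏ x ∈ Finset.univ.erase c,
      (Function.update Vc c ((Vc c).filter fun y => y ∈ A) x).card
      = ∏ x ∈ Finset.univ.erase c, (Vc x).card := by
    refine Finset.prod_congr rfl ?_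
    intro x hx
    rw [Function.update_of_ne (Finset.ne_of_mem_erase hx)]
  rw [e, Nat.cast_mul, Nat.cast_mul, ← mul_assoc]
  exact mul_le_mul_of_nonneg_right hc (Nat.cast_nonneg _)

/-- At least half of the cells in `J` fall into a set of density `a`. -/
theorem half {κ : Type} [Fintype κ] [DecidableEq κ] {N : ℕ} (Vc : κ → Finset (Fin N))
    (J : Finset κ) (A : Finset (Fin N)) (a : ℝ) (ha0 : 0 ≤ a)
    (ha : ∀ c ∈ J, (((Vc c).filter fun y => y ∈ A).card : ℝ) ≤ a * ((Vc c).card : ℝ)) :
    (((Fintype.piFinset Vc).filter fun t =>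
        J.card ≤ 2 * (J.filter fun c => t c ∈ A).card).card : ℝ)
      ≤ (2 * Real.sqrt a) ^ J.card * ((Fintype.piFinset Vc).card : ℝ) := by
  have hΩ : (0 : ℝ) ≤ ((Fintype.piFinset Vc).card : ℝ) := Nat.cast_nonneg _
  by_cases h1 : 1 ≤ a
  · have hs : 1 ≤ Real.sqrt a := Real.one_le_sqrt.mpr h1
    have hp : (1 : ℝ) ≤ (2 * Real.sqrt a) ^ J.card := one_le_pow₀ (by linarith)
    calc (((Fintype.piFinset Vc).filter fun t =>
          J.card ≤ 2 * (J.filter fun c => t c ∈ A).card).card : ℝ)
        ≤ ((Fintype.piFinset Vc).card : ℝ) := by exact_mod_cast Finset.card_filter_le _ _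
      _ = 1 * ((Fintype.piFinset Vc).card : ℝ) := (one_mul _).symm
      _ ≤ _ := mul_le_mul_of_nonneg_right hp hΩ
  · have h1' : a < 1 := not_le.mp h1
    have hs0 : 0 ≤ Real.sqrt a := Real.sqrt_nonneg a
    have hs1 : Real.sqrt a ≤ 1 := Real.sqrt_le_one.mpr h1'.le
    have hsub : ((Fintype.piFinset Vc).filter fun t =>
          J.card ≤ 2 * (J.filter fun c => t c ∈ A).card)
        ⊆ (J.powerset.filter fun J' => J.card ≤ 2 * J'.card).biUnion fun J' =>
            (Fintype.piFinset Vc).filter fun t => ∀ c ∈ J', t c ∈ A := by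
      intro t ht
      rw [Finset.mem_filter] at ht
      rw [Finset.mem_biUnion]
      refine ⟨J.filter fun c => t c ∈ A, ?_, ?_⟩
      · rw [Finset.mem_filter, Finset.mem_powerset]
        exact ⟨Finset.filter_subset _ _, ht.2⟩
      · rw [Finset.mem_filter]
        exact ⟨ht.1, fun c hc => (Finset.mem_filter.mp hc).2⟩
    have hterm : ∀ J' ∈ J.powerset.filter (fun J' => J.card ≤ 2 * J'.card),
        (((Fintype.piFinset Vc).filter fun t => ∀ c ∈ J', t c ∈ A).card : ℝ)
          ≤ Real.sqrt a ^ J.card * ((Fintype.piFinset Vc).card : ℝ) := by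
      intro J' hJ'
      rw [Finset.mem_filter, Finset.mem_powerset] at hJ'
      have hp := pri Vc J' (fun c => ({c} : Finset κ))
        (fun i _ j _ hij => Finset.disjoint_singleton.mpr hij) (fun c t => t c ∈ A)
        (fun c _ t _ t' _ hag hA => by
          rw [← hag c (Finset.mem_singleton_self c)]
          exact hA) a ha0
        (fun c hc => le_of_eq_of_le
          (congrArg (Nat.cast : ℕ → ℝ) (HALF_card _ _ _ _ _ (fun _ _ => Iff.rfl)))
          (HALF_one Vc A a c (ha c (hJ'.1 hc))))
      refine le_of_eq_of_le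
        (congrArg (Nat.cast : ℕ → ℝ) (HALF_card _ _ _ _ _ (fun _ _ => Iff.rfl)))
        (hp.trans (mul_le_mul_of_nonneg_right ?_ hΩ))
      calc a ^ J'.card = Real.sqrt a ^ (2 * J'.card) := by
            rw [pow_mul, Real.sq_sqrt ha0]
        _ ≤ Real.sqrt a ^ J.card := pow_le_pow_of_le_one hs0 hs1 hJ'.2
    calc (((Fintype.piFinset Vc).filter fun t =>
          J.card ≤ 2 * (J.filter fun c => t c ∈ A).card).card : ℝ)
        ≤ (((J.powerset.filter fun J' => J.card ≤ 2 * J'.card).biUnion fun J' =>
            (Fintype.piFinset Vc).filter fun t => ∀ c ∈ J', t c ∈ A).card : ℝ) := by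
          exact_mod_cast Finset.card_le_card hsub
      _ ≤ ((∑ J' ∈ J.powerset.filter (fun J' => J.card ≤ 2 * J'.card),
            ((Fintype.piFinset Vc).filter fun t => ∀ c ∈ J', t c ∈ A).card : ℕ) : ℝ) := by
          exact_mod_cast Finset.card_biUnion_le
      _ = ∑ J' ∈ J.powerset.filter (fun J' => J.card ≤ 2 * J'.card),
            (((Fintype.piFinset Vc).filter fun t => ∀ c ∈ J', t c ∈ A).card : ℝ) := by
          rw [Nat.cast_sum]
      _ ≤ ∑ J' ∈ J.powerset.filter (fun J' => J.card ≤ 2 * J'.card),
            Real.sqrt a ^ J.card * ((Fintype.piFinset Vc).card : ℝ) :=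
          Finset.sum_le_sum hterm
      _ = ((J.powerset.filter fun J' => J.card ≤ 2 * J'.card).card : ℝ) *
            (Real.sqrt a ^ J.card * ((Fintype.piFinset Vc).card : ℝ)) := by
          rw [Finset.sum_const, nsmul_eq_mul]
      _ ≤ (2 : ℝ) ^ J.card * (Real.sqrt a ^ J.card * ((Fintype.piFinset Vc).card : ℝ)) := by
          refine mul_le_mul_of_nonneg_right ?_ (mul_nonneg (pow_nonneg hs0 _) hΩ)
          have : (J.powerset.filter fun J' => J.card ≤ 2 * J'.card).card ≤ 2 ^ J.card := by
            rw [← Finset.card_powerset]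
            exact Finset.card_filter_le _ _
          exact_mod_cast this
      _ = (2 * Real.sqrt a) ^ J.card * ((Fintype.piFinset Vc).card : ℝ) := by
          rw [mul_pow]
          ring

end Pool.Agent.CUB
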