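import Pool.Agent.CUB.PRF
import Pool.Agent.CUB.HALF
import Pool.Agent.CUB.ES
import Pool.Agent.CUB.WS

set_option autoImplicit false

/-!
# CUB.CORE

Core lower tail estimate, by induction on `k`.
-/

namespace Pool.Agent.CUB

open scoped Classical

/-- The conclusion of `core` for fixed constants. -/
def CoreS (k : ℕ) (ρ η b ε₀ c₁ c₃ θ₁ : ℝ) (z₀ : ℕ) : Prop :=
  ∀ (N M : ℕ) (p : Fin k → Fin 4) (V Vst : Fin k → Finset (Fin N)) (J : Fin k → Finset (Fin M))
      (Vc : Fin M × Fin 4 → Finset (Fin N)) (z : ℕ) (θ : ℝ) (g : (Fin k → Fin N) → ℝ),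
      (∀ y, 0 ≤ g y) → (∀ j, Vst j ⊆ V j) → (∀ j, (V j).Nonempty) →
      (∀ j, ρ * ((V j).card : ℝ) ≤ ((Vst j).card : ℝ)) →
      (∀ Y : Fin k → Finset (Fin N), (∀ j, Y j ⊆ Vst j) →
        (∀ j, ε₀ * ((V j).card : ℝ) ≤ ((Y j).card : ℝ)) →
        c₁ * ∏ j, ((V j).card : ℝ) ≤ ∑ y ∈ Fintype.piFinset Y, g y) →
      (∀ j, η * (z : ℝ) ≤ ((J j).card : ℝ)) → (∀ j, (J j).card ≤ z) → z₀ ≤ z →
      0 < θ → θ ≤ θ₁ → (N : ℝ) * Real.exp (-(θ₁ / θ)) ≤ 1 →
      (∀ i j, i ≠ j → Disjoint (J i) (J j)) → (∀ j, ∀ i ∈ J j, Vc (i, p j) = Vst j) →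
      (((Fintype.piFinset Vc).filter fun t =>
          SprC p t V J z θ g ∧ emp p t J g ≤ c₃ * (z : ℝ) ^ k).card : ℝ)
        ≤ Real.exp (-(b * z)) * ((Fintype.piFinset Vc).card : ℝ)

/-- The conclusion of `even_split` for fixed constants. -/
def ESplit (k : ℕ) (δ θ₁ : ℝ) (n₀ : ℕ) : Prop :=
  ∀ (M : ℕ) (ι : Type) [Fintype ι] (u : ι → (Fin k → Fin M) → ℝ)
      (J : Fin k → Finset (Fin M)) (Sc θ : ℝ),
      (∀ i lam, 0 ≤ u i lam) → 0 < Sc → 0 < θ → θ ≤ θ₁ →
      (Fintype.card ι : ℝ) * Real.exp (-(θ₁ / θ)) ≤ 1 → (∀ j, n₀ ≤ (J j).card) →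
      (∀ i : ι, ∀ j : Fin k, ∀ a ∈ J j,
        (∑ lam ∈ (Fintype.piFinset J).filter (fun lam => lam j = a), u i lam) *
          (∑ lam ∈ Fintype.piFinset J, u i lam) ≤ θ * Sc ^ 2) →
      ∃ J0 : Fin k → Finset (Fin M), (∀ j, J0 j ⊆ J j) ∧
        (∀ j, (J j).card ≤ 4 * (J j \ J0 j).card) ∧
        ∀ i : ι, |(∑ lam ∈ Fintype.piFinset J0, u i lam) -
            ∑ lam ∈ Fintype.piFinset (fun j => J j \ J0 j), u i lam| ≤ δ * Sc

theorem core_emp_congr {k N M : ℕ} (p : Fin k → Fin 4) (t t' : Fin M × Fin 4 → Fin N)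
    (J : Fin k → Finset (Fin M)) (g : (Fin k → Fin N) → ℝ)
    (h : ∀ j, ∀ i ∈ J j, t (i, p j) = t' (i, p j)) : emp p t J g = emp p t' J g := by
  unfold emp
  refine Finset.sum_congr rfl fun lam hlam => ?_
  have h1 := Fintype.mem_piFinset.mp hlam
  congr 1
  funext j
  exact h j _ (h1 j)

theorem core_emp_avg {k N M : ℕ} {ι : Type} (p : Fin k → Fin 4) (t : Fin M × Fin 4 → Fin N)
    (J : Fin k → Finset (Fin M)) (u : ι → (Fin k → Fin N) → ℝ) (S : Finset ι) (W : ℝ) :
    emp p t J (fun y => (∑ x ∈ S, u x y) / W) = (∑ x ∈ S, emp p t J (u x)) / W := by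
  unfold emp
  rw [← Finset.sum_div, Finset.sum_comm]

theorem core_emp_nonneg {k N M : ℕ} (p : Fin k → Fin 4) (t : Fin M × Fin 4 → Fin N)
    (J : Fin k → Finset (Fin M)) (g : (Fin k → Fin N) → ℝ) (hg : ∀ y, 0 ≤ g y) :
    0 ≤ emp p t J g :=
  Finset.sum_nonneg fun _ _ => hg _

/-- The cells of a family of block sets. -/
def coreCells {k M : ℕ} (p : Fin k → Fin 4) (J : Fin k → Finset (Fin M)) :
    Finset (Fin M × Fin 4) :=
  Finset.univ.filter fun c => ∃ j, c.1 ∈ J j ∧ c.2 = p j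

theorem mem_coreCells {k M : ℕ} (p : Fin k → Fin 4) (J : Fin k → Finset (Fin M)) (i : Fin M)
    (a : Fin 4) : (i, a) ∈ coreCells p J ↔ ∃ j, i ∈ J j ∧ a = p j := by
  simp [coreCells]

theorem core_mem_fib {κ : Type} [Fintype κ] [DecidableEq κ] {N : ℕ} (Vc : κ → Finset (Fin N))
    (C : Finset κ) (t t' : κ → Fin N) (h : t' ∈ fib Vc C t) (c : κ) (hc : c ∉ C) :
    t' c = t c := by
  have h1 := Fintype.mem_piFinset.mp h c
  rw [if_neg hc] at h1
  exact Finset.mem_singleton.mp h1

theorem core_filter_zero {α : Type} (s : Finset α) (P : α → Prop) {inst : DecidablePred P} (q : ℝ)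
    (hq : 0 ≤ q) (h : ∀ a ∈ s, ¬ P a) : ((s.filter P).card : ℝ) ≤ q := by
  rw [Finset.filter_false_of_mem h]
  simpa using hq

theorem core_prf {κ : Type} [Fintype κ] [DecidableEq κ] {N : ℕ} (Vc : κ → Finset (Fin N))
    (C : Finset κ) (P : (κ → Fin N) → Prop) {inst : DecidablePred P} (q : ℝ) (hq : 0 ≤ q)
    (h : ∀ t ∈ Fintype.piFinset Vc,
      ((@Finset.filter _ P inst (fib Vc C t)).card : ℝ) ≤ q * ((fib Vc C t).card : ℝ)) :
    ((@Finset.filter _ P inst (Fintype.piFinset Vc)).card : ℝ) ≤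
      q * ((Fintype.piFinset Vc).card : ℝ) := by
  have hi : inst = fun a => Classical.propDecidable (P a) := Subsingleton.elim _ _
  subst hi
  exact prf Vc C P q hq h

theorem core_card_union {α : Type} [DecidableEq α] (X A B : Finset α) (h : X ⊆ A ∪ B) :
    (X.card : ℝ) ≤ (A.card : ℝ) + (B.card : ℝ) := by
  exact_mod_cast (Finset.card_le_card h).trans (Finset.card_union_le _ _)

theorem core_caseB (k : ℕ) (ρ η b c₁ c₃ θ' θ'' ε₀ : ℝ) (z₀ n₀ : ℕ) (hc₃ : 0 < c₃)
    (hcore : CoreS k ρ (η / 4) (b + k * Real.log 2 + 1) ε₀ c₁ c₃ θ' z₀)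
    (hes : ESplit k (c₃ / 2) θ'' n₀)
    (N M : ℕ) (ι : Type) [Fintype ι] (p : Fin k → Fin 4) (V Vst : Fin k → Finset (Fin N))
    (J : Fin k → Finset (Fin M)) (Vc : Fin M × Fin 4 → Finset (Fin N)) (z : ℕ) (θ : ℝ)
    (u : ι → (Fin k → Fin N) → ℝ) (I0 : Finset ι) (T : ℝ)
    (hu : ∀ x y, 0 ≤ u x y) (hVst : ∀ j, Vst j ⊆ V j) (hV : ∀ j, (V j).Nonempty)
    (hρ : ∀ j, ρ * ((V j).card : ℝ) ≤ ((Vst j).card : ℝ))
    (hD : ∀ S : Finset ι, S ⊆ I0 → T ≤ (S.card : ℝ) → ∀ Y : Fin k → Finset (Fin N),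
      (∀ j, Y j ⊆ Vst j) → (∀ j, ε₀ * ((V j).card : ℝ) ≤ ((Y j).card : ℝ)) →
      c₁ * ∏ j, ((V j).card : ℝ) ≤
        ∑ y ∈ Fintype.piFinset Y, (∑ x ∈ S, u x y) / (Fintype.card ι : ℝ))
    (hη : ∀ j, η * (z : ℝ) ≤ ((J j).card : ℝ)) (hJz : ∀ j, (J j).card ≤ z) (hz₀ : z₀ ≤ z)
    (hz : 1 ≤ z) (hn₀ : ∀ j, n₀ ≤ (J j).card) (hθ : 0 < θ) (hθ' : θ ≤ θ') (hθ'' : θ ≤ θ'')
    (hN : (N : ℝ) * Real.exp (-(θ' / θ)) ≤ 1)
    (hι : (Fintype.card ι : ℝ) * Real.exp (-(θ'' / θ)) ≤ 1)
    (hdis : ∀ i j, i ≠ j → Disjoint (J i) (J j)) (hVc : ∀ j, ∀ i ∈ J j, Vc (i, p j) = Vst j) :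
    (((Fintype.piFinset Vc).filter fun t =>
        SprA p t J z θ u ∧ SprC p t V J z θ (fun y => (∑ x, u x y) / (Fintype.card ι : ℝ)) ∧
        T ≤ ((I0.filter fun x => emp p t J (u x) < (c₃ / 2) * (z : ℝ) ^ k).card : ℝ)).card : ℝ)
      ≤ Real.exp (-((b + 1) * z)) * ((Fintype.piFinset Vc).card : ℝ) := by
  obtain ⟨bad, hbad⟩ : ∃ bad : (Fin M × Fin 4 → Fin N) → (Fin k → Finset (Fin M)) → Finset ι,
      bad = fun t J0 => I0.filter fun x => emp p t J0 (u x) < (c₃ / 2) * (z : ℝ) ^ k := ⟨_, rfl⟩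
  obtain ⟨E, hE⟩ : ∃ E : (Fin k → Finset (Fin M)) → (Fin M × Fin 4 → Fin N) → Prop,
      E = fun J0 t => T ≤ ((bad t J0).card : ℝ) ∧ (∀ j, J0 j ⊆ J j) ∧
        (∀ j, (J j).card ≤ 4 * (J j \ J0 j).card) ∧
        SprC p t V (fun j => J j \ J0 j) z θ
          (fun y => (∑ x ∈ bad t J0, u x y) / (Fintype.card ι : ℝ)) ∧
        emp p t (fun j => J j \ J0 j)
          (fun y => (∑ x ∈ bad t J0, u x y) / (Fintype.card ι : ℝ)) ≤ c₃ * (z : ℝ) ^ k := ⟨_, rfl⟩
  have hzpos : (0 : ℝ) < (z : ℝ) := by exact_mod_cast hz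
  -- step 1
  have step1 : ∀ J0, (((Fintype.piFinset Vc).filter (E J0)).card : ℝ) ≤
      Real.exp (-((b + k * Real.log 2 + 1) * z)) * ((Fintype.piFinset Vc).card : ℝ) := by
    intro J0
    by_cases hJ0 : (∀ j, J0 j ⊆ J j) ∧ (∀ j, (J j).card ≤ 4 * (J j \ J0 j).card)
    swap
    · refine core_filter_zero _ _ _ (by positivity) ?_
      intro t _ ht
      rw [hE] at ht
      exact hJ0 ⟨ht.2.1, ht.2.2.1⟩
    obtain ⟨hJ1, hJ2⟩ := hJ0
    refine prf Vc (coreCells p fun j => J j \ J0 j) (E J0) _ (Real.exp_pos _).le ?_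
    intro t _
    have hconst : ∀ t' ∈ fib Vc (coreCells p fun j => J j \ J0 j) t, bad t' J0 = bad t J0 := by
      intro t' ht'
      rw [hbad]
      simp only
      refine Finset.filter_congr fun x _ => ?_
      rw [core_emp_congr p t' t J0 (u x)]
      intro j i hi
      refine core_mem_fib Vc _ t t' ht' _ ?_
      rw [mem_coreCells]
      rintro ⟨j', hj', hp⟩
      rw [Finset.mem_sdiff] at hj'
      by_cases hjj : j = j'
      · subst hjj
        exact hj'.2 hi
      · exact Finset.disjoint_left.mp (hdis j j' hjj) (hJ1 j hi) hj'.1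
    by_cases hT : T ≤ ((bad t J0).card : ℝ)
    swap
    · refine core_filter_zero _ _ _ (by positivity) ?_
      intro t' ht' h1
      rw [hE] at h1
      have h2 := h1.1
      rw [hconst t' ht'] at h2
      exact hT h2
    have h3 := hcore N M p V Vst (fun j => J j \ J0 j)
      (fun c => if c ∈ coreCells p (fun j => J j \ J0 j) then Vc c else {t c}) z θ
      (fun y => (∑ x ∈ bad t J0, u x y) / (Fintype.card ι : ℝ))
      (fun y => div_nonneg (Finset.sum_nonneg fun x _ => hu x y) (Nat.cast_nonneg _))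
      hVst hV hρ
      (fun Y hY1 hY2 => hD (bad t J0) (by rw [hbad]; exact Finset.filter_subset _ _) hT Y hY1 hY2)
      (fun j => by
        have h4 := hη j
        have h5 : ((J j).card : ℝ) ≤ 4 * ((J j \ J0 j).card : ℝ) := by exact_mod_cast hJ2 j
        linarith)
      (fun j => (Finset.card_le_card Finset.sdiff_subset).trans (hJz j)) hz₀ hθ hθ' hN
      (fun i j hij => (hdis i j hij).mono Finset.sdiff_subset Finset.sdiff_subset)
      (fun j i hi => by
        have h6 : (i, p j) ∈ coreCells p (fun j => J j \ J0 j) := by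
          rw [mem_coreCells]
          exact ⟨j, hi, rfl⟩
        simp only [h6, if_true]
        exact hVc j i (Finset.mem_sdiff.mp hi).1)
    refine le_trans ?_ h3
    rw [Nat.cast_le]
    refine Finset.card_le_card fun t' ht' => ?_
    rw [Finset.mem_filter] at ht' ⊢
    obtain ⟨h7, h8⟩ := ht'
    rw [hE] at h8
    obtain ⟨-, -, -, h9, h10⟩ := h8
    rw [hconst t' h7] at h9 h10
    exact ⟨h7, h9, h10⟩
  -- step 2
  have step2 : ((Fintype.piFinset Vc).filter fun t =>
        SprA p t J z θ u ∧ SprC p t V J z θ (fun y => (∑ x, u x y) / (Fintype.card ι : ℝ)) ∧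
        T ≤ ((I0.filter fun x => emp p t J (u x) < (c₃ / 2) * (z : ℝ) ^ k).card : ℝ)) ⊆
      (Fintype.piFinset fun j => (J j).powerset).biUnion fun J0 =>
        (Fintype.piFinset Vc).filter (E J0) := by
    intro t ht
    rw [Finset.mem_filter] at ht
    obtain ⟨ht0, hA, hC, hT⟩ := ht
    obtain ⟨J0, hJ1, hJ2, hJ3⟩ := hes M ι (fun x lam => u x (fun j => t (lam j, p j))) J
      ((z : ℝ) ^ k) θ (fun x lam => hu _ _) (by positivity) hθ hθ'' hι hn₀ (by
        intro x j a ha
        have h1 := hA x j a ha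
        rw [← emp_coef p t J (u x) j a ha, ← emp_eq_wsum] at h1
        exact h1)
    rw [Finset.mem_biUnion]
    refine ⟨J0, ?_, ?_⟩
    · rw [Fintype.mem_piFinset]
      intro j
      rw [Finset.mem_powerset]
      exact hJ1 j
    rw [Finset.mem_filter]
    refine ⟨ht0, ?_⟩
    rw [hE]
    refine ⟨?_, hJ1, hJ2, ?_, ?_⟩
    · refine hT.trans ?_
      rw [Nat.cast_le]
      refine Finset.card_le_card ?_
      rw [hbad]
      simp only
      intro x hx
      rw [Finset.mem_filter] at hx ⊢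
      exact ⟨hx.1, lt_of_le_of_lt (emp_mono p t J0 J (u x) (u x) hJ1 (hu x) (fun _ => le_rfl)) hx.2⟩
    · refine sprC_mono p t V _ J z θ _ _ (fun j => Finset.sdiff_subset) ?_ ?_ hC
      · intro y
        exact div_nonneg (Finset.sum_nonneg fun x _ => hu x y) (Nat.cast_nonneg _)
      · intro y
        exact div_le_div_of_nonneg_right
          (Finset.sum_le_sum_of_subset_of_nonneg (Finset.subset_univ _)
            fun x _ _ => hu x y) (Nat.cast_nonneg _)
    · rw [core_emp_avg]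
      have h1 : ∀ x ∈ bad t J0, emp p t (fun j => J j \ J0 j) (u x) ≤ c₃ * (z : ℝ) ^ k := by
        intro x hx
        have h2 := hJ3 x
        have h3 : emp p t J0 (u x) < (c₃ / 2) * (z : ℝ) ^ k := by
          rw [hbad] at hx
          exact (Finset.mem_filter.mp hx).2
        unfold emp at h3 ⊢
        have h4 := (abs_le.mp h2).1
        linarith
      have h2 : ∑ x ∈ bad t J0, emp p t (fun j => J j \ J0 j) (u x) ≤
          ((bad t J0).card : ℝ) * (c₃ * (z : ℝ) ^ k) := by
        have := Finset.sum_le_card_nsmul _ _ _ h1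
        rwa [nsmul_eq_mul] at this
      have h3 : ((bad t J0).card : ℝ) ≤ (Fintype.card ι : ℝ) := by
        exact_mod_cast Finset.card_le_univ _
      refine div_le_of_le_mul₀ (Nat.cast_nonneg _) (by positivity) ?_
      calc ∑ x ∈ bad t J0, emp p t (fun j => J j \ J0 j) (u x)
          ≤ ((bad t J0).card : ℝ) * (c₃ * (z : ℝ) ^ k) := h2
        _ ≤ (Fintype.card ι : ℝ) * (c₃ * (z : ℝ) ^ k) :=
            mul_le_mul_of_nonneg_right h3 (by positivity)
        _ = c₃ * (z : ℝ) ^ k * (Fintype.card ι : ℝ) := mul_comm _ _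
  -- count the choices
  have step3 : (((Fintype.piFinset fun j => (J j).powerset).card : ℕ) : ℝ) ≤
      Real.exp (k * Real.log 2 * z) := by
    rw [Fintype.card_piFinset]
    have h1 : ∏ j, (J j).powerset.card ≤ ∏ _j : Fin k, 2 ^ z := by
      refine Finset.prod_le_prod' fun j _ => ?_
      rw [Finset.card_powerset]
      exact Nat.pow_le_pow_right (by norm_num) (hJz j)
    rw [Finset.prod_const, Finset.card_univ, Fintype.card_fin] at h1
    have h2 : ((∏ j, (J j).powerset.card : ℕ) : ℝ) ≤ (((2 ^ z) ^ k : ℕ) : ℝ) := by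
      exact_mod_cast h1
    refine h2.trans ?_
    have h3 : Real.exp (k * Real.log 2 * z) = (2 : ℝ) ^ (z * k) := by
      rw [← Real.exp_log (show (0 : ℝ) < 2 ^ (z * k) by positivity), Real.log_pow]
      congr 1
      push_cast
      ring
    rw [h3]
    push_cast
    rw [← pow_mul]
  calc (((Fintype.piFinset Vc).filter fun t =>
        SprA p t J z θ u ∧ SprC p t V J z θ (fun y => (∑ x, u x y) / (Fintype.card ι : ℝ)) ∧
        T ≤ ((I0.filter fun x => emp p t J (u x) < (c₃ / 2) * (z : ℝ) ^ k).card : ℝ)).card : ℝ)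
      ≤ (((Fintype.piFinset fun j => (J j).powerset).biUnion fun J0 =>
        (Fintype.piFinset Vc).filter (E J0)).card : ℝ) := by
          exact_mod_cast Finset.card_le_card step2
    _ ≤ ∑ J0 ∈ Fintype.piFinset fun j => (J j).powerset,
        (((Fintype.piFinset Vc).filter (E J0)).card : ℝ) := by
          exact_mod_cast Finset.card_biUnion_le
    _ ≤ ∑ _J0 ∈ Fintype.piFinset fun j => (J j).powerset,
        Real.exp (-((b + k * Real.log 2 + 1) * z)) * ((Fintype.piFinset Vc).card : ℝ) :=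
          Finset.sum_le_sum fun J0 _ => step1 J0
    _ = ((Fintype.piFinset fun j => (J j).powerset).card : ℝ) *
        (Real.exp (-((b + k * Real.log 2 + 1) * z)) * ((Fintype.piFinset Vc).card : ℝ)) := by
          rw [Finset.sum_const, nsmul_eq_mul]
    _ ≤ Real.exp (k * Real.log 2 * z) *
        (Real.exp (-((b + k * Real.log 2 + 1) * z)) * ((Fintype.piFinset Vc).card : ℝ)) :=
          mul_le_mul_of_nonneg_right step3 (by positivity)
    _ = Real.exp (-((b + 1) * z)) * ((Fintype.piFinset Vc).card : ℝ) := by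
          rw [← mul_assoc, ← Real.exp_add]
          congr 2
          ring

theorem core_sum_succ {k : ℕ} {α : Type} (J : Fin (k + 1) → Finset α)
    (f : (Fin (k + 1) → α) → ℝ) :
    ∑ lam ∈ Fintype.piFinset J, f lam =
      ∑ i ∈ J 0, ∑ lam ∈ Fintype.piFinset (fun j : Fin k => J j.succ), f (Fin.cons i lam) := by
  rw [← Finset.sum_product']
  symm
  refine Finset.sum_nbij' (fun x => (Fin.cons x.1 x.2 : Fin (k + 1) → α))
    (fun lam => (lam 0, fun j => lam j.succ)) ?_ ?_ ?_ ?_ ?_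
  · rintro ⟨i, lam⟩ h
    rw [Finset.mem_product, Fintype.mem_piFinset] at h
    rw [Fintype.mem_piFinset]
    intro j
    refine Fin.cases ?_ ?_ j
    · exact h.1
    · intro j
      exact h.2 j
  · intro lam h
    rw [Fintype.mem_piFinset] at h
    rw [Finset.mem_product, Fintype.mem_piFinset]
    exact ⟨h 0, fun j => h j.succ⟩
  · rintro ⟨i, lam⟩ _
    simp
  · intro lam _
    funext j
    refine Fin.cases ?_ ?_ j
    · rfl
    · intro j
      rfl
  · rintro ⟨i, lam⟩ _
    rfl

theorem core_emp_succ {k N M : ℕ} (p : Fin (k + 1) → Fin 4) (t : Fin M × Fin 4 → Fin N)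
    (J : Fin (k + 1) → Finset (Fin M)) (g : (Fin (k + 1) → Fin N) → ℝ) :
    emp p t J g = ∑ i ∈ J 0, emp (fun j => p j.succ) t (fun j => J j.succ)
      (fun y => g (Fin.cons (t (i, p 0)) y)) := by
  unfold emp
  rw [core_sum_succ]
  refine Finset.sum_congr rfl fun i _ => Finset.sum_congr rfl fun lam _ => ?_
  congr 1
  funext j
  refine Fin.cases ?_ ?_ j
  · rfl
  · intro j
    rfl

theorem core_update_succ {k : ℕ} {α : Type} (w : Fin (k + 1) → α) (j : Fin k) (v : α) :
    (fun i : Fin k => Function.update w j.succ v i.succ) =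
      Function.update (fun i : Fin k => w i.succ) j v := by
  funext i
  by_cases h : i = j
  · subst h
    simp
  · rw [Function.update_of_ne h, Function.update_of_ne]
    exact fun h' => h (Fin.succ_injective _ h')

theorem core_w1_sum {N : ℕ} (y : Fin N) (f : Fin N → ℝ) : ∑ b, w1 y b * f b = f y := by
  unfold w1
  simp

theorem core_sprA {k N M : ℕ} (p : Fin (k + 1) → Fin 4) (t : Fin M × Fin 4 → Fin N)
    (V : Fin (k + 1) → Finset (Fin N)) (J : Fin (k + 1) → Finset (Fin M)) (z : ℕ) (θ : ℝ)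
    (g : (Fin (k + 1) → Fin N) → ℝ) (h : SprC p t V J z θ g) :
    SprA (fun j => p j.succ) t (fun j => J j.succ) z θ
      (fun (x : ↥(V 0)) (y : Fin k → Fin N) => g (Fin.cons x.1 y)) := by
  intro x j a ha
  have h1 := h 0 x.1 x.2 j.succ (Fin.succ_pos j) a ha
  have h2 : ∀ i : Fin k, lw p t V J 0 x.1 i.succ = wE (fun j => p j.succ) t (fun j => J j.succ) i := by
    intro i
    funext b
    unfold lw
    rw [if_neg (Fin.not_lt_zero _), if_neg (Fin.succ_ne_zero i)]
    rfl
  have h3 : ∀ b, lw p t V J 0 x.1 0 b = w1 x.1 b := by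
    intro b
    unfold lw
    rw [if_neg (lt_irrefl _), if_pos rfl]
  rw [wsum_cons, wsum_cons (lw p t V J 0 x.1), core_update_succ] at h1
  rw [Function.update_of_ne (Fin.succ_ne_zero j).symm] at h1
  simp only [h3, h2] at h1
  rw [core_w1_sum x.1 (fun y₀ => wsum _ (fun y => g (Fin.cons y₀ y))),
    core_w1_sum x.1 (fun y₀ => wsum _ (fun y => g (Fin.cons y₀ y)))] at h1
  have h4 : (Finset.univ.filter fun i : Fin (k + 1) => i < 0) = ∅ := by
    ext i
    simp
  rw [h4, Finset.prod_empty, mul_one] at h1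
  have h5 : k + 1 - 1 - ((0 : Fin (k + 1)) : ℕ) = k := by simp
  rw [h5] at h1
  exact h1

theorem core_sprC {k N M : ℕ} (p : Fin (k + 1) → Fin 4) (t : Fin M × Fin 4 → Fin N)
    (V : Fin (k + 1) → Finset (Fin N)) (J : Fin (k + 1) → Finset (Fin M)) (z : ℕ) (θ : ℝ)
    (g : (Fin (k + 1) → Fin N) → ℝ) (hV : (V 0).Nonempty) (h : SprC p t V J z θ g) :
    SprC (fun j => p j.succ) t (fun j => V j.succ) (fun j => J j.succ) z θ
      (fun y => (∑ x : ↥(V 0), g (Fin.cons x.1 y)) / (Fintype.card ↥(V 0) : ℝ)) := by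
  intro l y hy j hj a ha
  have h1 := h l.succ y hy j.succ (Fin.succ_lt_succ_iff.mpr hj) a ha
  have h2 : ∀ i : Fin k, lw p t V J l.succ y i.succ =
      lw (fun j => p j.succ) t (fun j => V j.succ) (fun j => J j.succ) l y i := by
    intro i
    funext b
    unfold lw
    simp only [Fin.succ_lt_succ_iff, Fin.succ_inj]
    rfl
  have h3 : ∀ b, lw p t V J l.succ y 0 b = if b ∈ V 0 then 1 else 0 := by
    intro b
    unfold lw
    rw [if_pos (Fin.succ_pos l)]
  have h6 : ∀ w : Fin k → Fin N → ℝ,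
      ∑ y₀, (if y₀ ∈ V 0 then (1 : ℝ) else 0) * wsum w (fun y => g (Fin.cons y₀ y)) =
        (Fintype.card ↥(V 0) : ℝ) *
          wsum w (fun y => (∑ x : ↥(V 0), g (Fin.cons x.1 y)) / (Fintype.card ↥(V 0) : ℝ)) := by
    intro w
    rw [wsum_div, wsum_sum Finset.univ w (fun (x : ↥(V 0)) y => g (Fin.cons x.1 y))]
    rw [mul_div_cancel₀]
    · simp only [ite_mul, one_mul, zero_mul]
      rw [← Finset.sum_filter]
      rw [Finset.sum_coe_sort (V 0) (fun y₀ => wsum w (fun y => g (Fin.cons y₀ y)))]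
      refine Finset.sum_congr ?_ fun _ _ => rfl
      ext b
      simp
    · rw [Fintype.card_coe]
      exact_mod_cast hV.card_pos.ne'
  rw [wsum_cons, wsum_cons (lw p t V J l.succ y), core_update_succ] at h1
  rw [Function.update_of_ne (Fin.succ_ne_zero j).symm] at h1
  simp only [h3, h2] at h1
  rw [h6, h6] at h1
  have h7 : (∏ i ∈ Finset.univ.filter (fun i : Fin (k + 1) => i < l.succ), ((V i).card : ℝ)) =
      (Fintype.card ↥(V 0) : ℝ) *
        ∏ i ∈ Finset.univ.filter (fun i : Fin k => i < l), ((V i.succ).card : ℝ) := by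
    rw [Finset.prod_filter, Finset.prod_filter, Fin.prod_univ_succ, if_pos (Fin.succ_pos l),
      Fintype.card_coe]
    simp only [Fin.succ_lt_succ_iff]
  have h8 : k + 1 - 1 - ((l.succ : Fin (k + 1)) : ℕ) = k - 1 - (l : ℕ) := by
    rw [Fin.val_succ]
    omega
  rw [h7, h8] at h1
  have hW : (0 : ℝ) < (Fintype.card ↥(V 0) : ℝ) := by
    rw [Fintype.card_coe]
    exact_mod_cast hV.card_pos
  obtain ⟨W, hWe⟩ : ∃ W : ℝ, W = (Fintype.card ↥(V 0) : ℝ) := ⟨_, rfl⟩
  rw [← hWe] at h1 hW ⊢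
  have h9 : W ^ 2 * (wsum (Function.update
        (lw (fun j => p j.succ) t (fun j => V j.succ) (fun j => J j.succ) l y) j
          (w1 (t (a, p j.succ)))) (fun y => (∑ x : ↥(V 0), g (Fin.cons x.1 y)) / W) *
      wsum (lw (fun j => p j.succ) t (fun j => V j.succ) (fun j => J j.succ) l y)
        (fun y => (∑ x : ↥(V 0), g (Fin.cons x.1 y)) / W)) ≤
      W ^ 2 * (θ * ((z : ℝ) ^ (k - 1 - (l : ℕ)) *
        ∏ i ∈ Finset.univ.filter (fun i : Fin k => i < l), ((V i.succ).card : ℝ)) ^ 2) := by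
    refine le_trans (le_of_eq ?_) (h1.trans (le_of_eq ?_)) <;> ring
  exact le_of_mul_le_mul_left h9 (by positivity)

/-- Core lower tail estimate for an empirical sum of a fixed function. -/
theorem core (k : ℕ) : ∀ ρ : ℝ, 0 < ρ → ∀ η : ℝ, 0 < η → ∀ b : ℝ, 0 < b →
    ∃ ε₀ : ℝ, 0 < ε₀ ∧ ∀ c₁ : ℝ, 0 < c₁ → ∃ c₃ : ℝ, 0 < c₃ ∧ ∃ θ₁ : ℝ, 0 < θ₁ ∧ ∃ z₀ : ℕ,
    ∀ (N M : ℕ) (p : Fin k → Fin 4) (V Vst : Fin k → Finset (Fin N)) (J : Fin k → Finset (Fin M))
      (Vc : Fin M × Fin 4 → Finset (Fin N)) (z : ℕ) (θ : ℝ) (g : (Fin k → Fin N) → ℝ),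
      (∀ y, 0 ≤ g y) → (∀ j, Vst j ⊆ V j) → (∀ j, (V j).Nonempty) →
      (∀ j, ρ * ((V j).card : ℝ) ≤ ((Vst j).card : ℝ)) →
      (∀ Y : Fin k → Finset (Fin N), (∀ j, Y j ⊆ Vst j) →
        (∀ j, ε₀ * ((V j).card : ℝ) ≤ ((Y j).card : ℝ)) →
        c₁ * ∏ j, ((V j).card : ℝ) ≤ ∑ y ∈ Fintype.piFinset Y, g y) →
      (∀ j, η * (z : ℝ) ≤ ((J j).card : ℝ)) → (∀ j, (J j).card ≤ z) → z₀ ≤ z →
      0 < θ → θ ≤ θ₁ → (N : ℝ) * Real.exp (-(θ₁ / θ)) ≤ 1 →
      (∀ i j, i ≠ j → Disjoint (J i) (J j)) → (∀ j, ∀ i ∈ J j, Vc (i, p j) = Vst j) →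
      (((Fintype.piFinset Vc).filter fun t =>
          SprC p t V J z θ g ∧ emp p t J g ≤ c₃ * (z : ℝ) ^ k).card : ℝ)
        ≤ Real.exp (-(b * z)) * ((Fintype.piFinset Vc).card : ℝ) := by
  induction k with
  | zero =>
    intro ρ _ η _ b _
    refine ⟨1, one_pos, fun c₁ hc₁ => ⟨c₁ / 2, by positivity, 1, one_pos, 0, ?_⟩⟩
    intro N M p V Vst J Vc z θ g hg hVst hV hρV hD hηJ hJz hz₀ hθ hθ₁ hN hdis hVc
    refine core_filter_zero _ _ _ (by positivity) ?_
    rintro t _ ⟨_, ht⟩
    have h1 := hD Vst (fun j => Finset.Subset.refl _) (fun j => j.elim0)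
    have h2 : ∀ {α : Type} (s : Fin 0 → Finset α) (f : (Fin 0 → α) → ℝ),
        ∑ x ∈ Fintype.piFinset s, f x = f (fun j => j.elim0) := by
      intro α s f
      rw [Fintype.piFinset_of_isEmpty, Fintype.sum_unique]
      congr 1
    unfold emp at ht
    rw [h2] at h1 ht
    have h3 : (fun j : Fin 0 => t ((fun j : Fin 0 => (j.elim0 : Fin M)) j, p j)) =
        (fun j : Fin 0 => (j.elim0 : Fin N)) := Subsingleton.elim _ _
    rw [h3] at ht
    simp only [Finset.univ_eq_empty, Finset.prod_empty, mul_one, pow_zero] at h1 ht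
    linarith
  | succ k ih =>
    intro ρ hρ η hη b hb
    obtain ⟨L, hL⟩ : ∃ L : ℝ, L = (b + 1) / η := ⟨_, rfl⟩
    obtain ⟨a, ha⟩ : ∃ a : ℝ, a = (Real.exp (-L) / 2) ^ 2 := ⟨_, rfl⟩
    have ha0 : 0 < a := by rw [ha]; positivity
    have hsq : 2 * Real.sqrt a = Real.exp (-L) := by
      rw [ha, Real.sqrt_sq (by positivity)]
      ring
    obtain ⟨ε₀', hε₀', ih1⟩ := ih ρ hρ (η / 4) (by positivity) (b + k * Real.log 2 + 1)
      (by positivity)
    refine ⟨min ε₀' (ρ * a), lt_min hε₀' (by positivity), ?_⟩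
    intro c₁ hc₁
    obtain ⟨c₃', hc₃', θ', hθ', z₀', ih2⟩ := ih1 c₁ hc₁
    obtain ⟨θ'', hθ'', n₀, hes⟩ := even_split k (c₃' / 2) (by positivity)
    refine ⟨η * (c₃' / 2) / 4, by positivity, min θ' θ'', lt_min hθ' hθ'',
      z₀' + ⌈(n₀ : ℝ) / η⌉₊ + 1, ?_⟩
    intro N M p V Vst J Vc z θ g hg hVst hV hρV hD hηJ hJz hz₀ hθ hθ₁ hN hdis hVc
    have hz1 : 1 ≤ z := by omega
    have hzpos : (0 : ℝ) < (z : ℝ) := by exact_mod_cast hz1
    have hz1' : (1 : ℝ) ≤ (z : ℝ) := by exact_mod_cast hz1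
    obtain ⟨u, hu⟩ : ∃ u : Fin N → (Fin k → Fin N) → ℝ, u = fun y y' => g (Fin.cons y y') :=
      ⟨_, rfl⟩
    obtain ⟨low, hlow⟩ : ∃ low : (Fin M × Fin 4 → Fin N) → Finset (Fin N), low = fun t =>
        (Vst 0).filter fun y => emp (fun j => p j.succ) t (fun j => J j.succ) (u y)
          < (c₃' / 2) * (z : ℝ) ^ k := ⟨_, rfl⟩
    obtain ⟨T, hT⟩ : ∃ T : ℝ, T = ρ * a * ((V 0).card : ℝ) := ⟨_, rfl⟩
    have hθexp : ∀ x : ℝ, min θ' θ'' ≤ x → Real.exp (-(x / θ)) ≤ Real.exp (-(min θ' θ'' / θ)) := by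
      intro x hx
      refine Real.exp_le_exp.mpr (neg_le_neg (div_le_div_of_nonneg_right hx hθ.le))
    have hV0 : (0 : ℝ) < ((V 0).card : ℝ) := by exact_mod_cast (hV 0).card_pos
    -- case B
    have hB := core_caseB k ρ η b c₁ c₃' θ' θ'' ε₀' z₀' n₀ hc₃' ih2 hes N M ↥(V 0)
      (fun j => p j.succ) (fun j => V j.succ) (fun j => Vst j.succ) (fun j => J j.succ) Vc z θ
      (fun x y => g (Fin.cons x.1 y)) (Finset.univ.filter fun x => x.1 ∈ Vst 0) T
      (fun x y => hg _) (fun j => hVst _) (fun j => hV _) (fun j => hρV _)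
      (by
        intro S hS hTS Y hY1 hY2
        have h1 := hD (Fin.cons (S.map ⟨Subtype.val, Subtype.val_injective⟩) Y)
          (by
            intro j
            refine Fin.cases ?_ (fun j => ?_) j
            · intro y hy
              rw [Fin.cons_zero, Finset.mem_map] at hy
              obtain ⟨x, hx, rfl⟩ := hy
              exact (Finset.mem_filter.mp (hS hx)).2
            · rw [Fin.cons_succ]
              exact hY1 j)
          (by
            intro j
            refine Fin.cases ?_ (fun j => ?_) j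
            · rw [Fin.cons_zero, Finset.card_map]
              refine le_trans ?_ hTS
              rw [hT]
              exact mul_le_mul_of_nonneg_right (min_le_right _ _) hV0.le
            · rw [Fin.cons_succ]
              refine le_trans ?_ (hY2 j)
              exact mul_le_mul_of_nonneg_right (min_le_left _ _) (Nat.cast_nonneg _))
        rw [core_sum_succ, Fin.prod_univ_succ] at h1
        simp only [Fin.cons_zero, Fin.cons_succ, Finset.sum_map, Function.Embedding.coeFn_mk] at h1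
        rw [Finset.sum_comm] at h1
        rw [← Finset.sum_div, le_div_iff₀ (by rw [Fintype.card_coe]; exact hV0), Fintype.card_coe]
        refine le_trans (le_of_eq ?_) h1
        ring)
      (fun j => hηJ _) (fun j => hJz _) (by omega) hz1
      (by
        intro j
        have h1 := hηJ j.succ
        have h2 : (n₀ : ℝ) / η ≤ (z : ℝ) := by
          refine (Nat.le_ceil _).trans ?_
          exact_mod_cast (by omega : ⌈(n₀ : ℝ) / η⌉₊ ≤ z)
        rw [div_le_iff₀ hη] at h2
        have h3 : (n₀ : ℝ) ≤ ((J j.succ).card : ℝ) := by linarith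
        exact_mod_cast h3)
      hθ (hθ₁.trans (min_le_left _ _)) (hθ₁.trans (min_le_right _ _))
      (le_trans (mul_le_mul_of_nonneg_left (hθexp _ (min_le_left _ _)) (Nat.cast_nonneg _)) hN)
      (by
        rw [Fintype.card_coe]
        have h1 : ((V 0).card : ℝ) ≤ (N : ℝ) := by
          have := Finset.card_le_univ (V 0)
          rw [Fintype.card_fin] at this
          exact_mod_cast this
        refine le_trans (mul_le_mul h1 (hθexp _ (min_le_right _ _)) (Real.exp_pos _).le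
          (Nat.cast_nonneg _)) hN)
      (fun i j hij => hdis _ _ (fun h => hij (Fin.succ_injective _ h)))
      (fun j i hi => hVc _ i hi)
    -- case A
    obtain ⟨C, hC⟩ : ∃ C : Finset (Fin M × Fin 4), C = (J 0).image (fun i => (i, p 0)) := ⟨_, rfl⟩
    have hCinj : Function.Injective (fun i : Fin M => (i, p 0)) := fun i i' h => (Prod.mk.inj h).1
    have hCcard : C.card = (J 0).card := by
      rw [hC, Finset.card_image_of_injective _ hCinj]
    have hA : (((Fintype.piFinset Vc).filter fun t => ((low t).card : ℝ) < T ∧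
        emp p t J g ≤ η * (c₃' / 2) / 4 * (z : ℝ) ^ (k + 1)).card : ℝ) ≤
        Real.exp (-((b + 1) * z)) * ((Fintype.piFinset Vc).card : ℝ) := by
      refine core_prf Vc C _ _ (Real.exp_pos _).le ?_
      intro t _
      have hconst : ∀ t' ∈ fib Vc C t, low t' = low t := by
        intro t' ht'
        rw [hlow]
        simp only
        refine Finset.filter_congr fun y _ => ?_
        rw [core_emp_congr (fun j => p j.succ) t' t (fun j => J j.succ) (u y)]
        intro j i hi
        refine core_mem_fib Vc C t t' ht' _ ?_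
        rw [hC, Finset.mem_image]
        rintro ⟨i', hi', h⟩
        have h1 : i' = i := (Prod.mk.inj h).1
        rw [h1] at hi'
        exact Finset.disjoint_left.mp (hdis 0 j.succ (Fin.succ_ne_zero j).symm) hi' hi
      by_cases hlt : ((low t).card : ℝ) < T
      swap
      · refine core_filter_zero _ _ _ (by positivity) ?_
        intro t' ht' h1
        have h2 := h1.1
        rw [hconst t' ht'] at h2
        exact hlt h2
      have h3 := half (fun c => if c ∈ C then Vc c else {t c}) C (low t) a ha0.le (by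
        intro c hc
        simp only [hc, if_true]
        rw [hC, Finset.mem_image] at hc
        obtain ⟨i, hi, rfl⟩ := hc
        rw [hVc 0 i hi]
        have h4 : (((Vst 0).filter fun y => y ∈ low t).card : ℝ) ≤ ((low t).card : ℝ) := by
          rw [Nat.cast_le]
          refine Finset.card_le_card fun y hy => (Finset.mem_filter.mp hy).2
        have h5 := hρV 0
        have h6 : a * (ρ * ((V 0).card : ℝ)) ≤ a * ((Vst 0).card : ℝ) :=
          mul_le_mul_of_nonneg_left h5 ha0.le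
        rw [hT] at hlt
        linarith)
      have h4 : (2 * Real.sqrt a) ^ C.card ≤ Real.exp (-((b + 1) * z)) := by
        rw [hsq, ← Real.exp_nat_mul]
        refine Real.exp_le_exp.mpr ?_
        have h5 := hηJ 0
        rw [hCcard, hL]
        have h6 : (b + 1) / η * (η * (z : ℝ)) ≤ (b + 1) / η * ((J 0).card : ℝ) :=
          mul_le_mul_of_nonneg_left h5 (by positivity)
        have h7 : (b + 1) / η * (η * (z : ℝ)) = (b + 1) * z := by
          field_simp
        rw [h7] at h6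
        linarith
      have h5 : (((fib Vc C t).filter fun t => ((low t).card : ℝ) < T ∧
          emp p t J g ≤ η * (c₃' / 2) / 4 * (z : ℝ) ^ (k + 1)).card : ℝ) ≤
          (((Fintype.piFinset fun c => if c ∈ C then Vc c else {t c}).filter fun t' =>
            C.card ≤ 2 * (C.filter fun c => t' c ∈ low t).card).card : ℝ) := by
        rw [Nat.cast_le]
        refine Finset.card_le_card fun t' ht' => ?_
        rw [Finset.mem_filter] at ht' ⊢
        obtain ⟨h6, h7, h8⟩ := ht'
        refine ⟨h6, ?_⟩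
        by_contra hcon
        rw [not_le] at hcon
        have h9 : (C.filter fun c => t' c ∈ low t).card =
            ((J 0).filter fun i => t' (i, p 0) ∈ low t).card := by
          rw [hC, Finset.filter_image, Finset.card_image_of_injective _ hCinj]
        rw [h9, hCcard] at hcon
        have h10 : ((J 0).filter fun i => t' (i, p 0) ∈ low t).card +
            ((J 0).filter fun i => ¬ t' (i, p 0) ∈ low t).card = (J 0).card :=
          Finset.card_filter_add_card_filter_not _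
        have h11 : (J 0).card < 2 * ((J 0).filter fun i => ¬ t' (i, p 0) ∈ low t).card := by
          omega
        have h12 : (((J 0).filter fun i => ¬ t' (i, p 0) ∈ low t).card : ℝ) *
            ((c₃' / 2) * (z : ℝ) ^ k) ≤ emp p t' J g := by
          rw [core_emp_succ]
          calc (((J 0).filter fun i => ¬ t' (i, p 0) ∈ low t).card : ℝ) *
                ((c₃' / 2) * (z : ℝ) ^ k)
              = ∑ _i ∈ (J 0).filter (fun i => ¬ t' (i, p 0) ∈ low t),
                ((c₃' / 2) * (z : ℝ) ^ k) := by rw [Finset.sum_const, nsmul_eq_mul]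
            _ ≤ ∑ i ∈ (J 0).filter (fun i => ¬ t' (i, p 0) ∈ low t),
                emp (fun j => p j.succ) t' (fun j => J j.succ)
                  (fun y => g (Fin.cons (t' (i, p 0)) y)) := by
                refine Finset.sum_le_sum fun i hi => ?_
                rw [Finset.mem_filter] at hi
                obtain ⟨hi1, hi2⟩ := hi
                rw [← hconst t' h6, hlow] at hi2
                simp only [Finset.mem_filter, not_and, not_lt] at hi2
                have h13 : t' (i, p 0) ∈ Vst 0 := by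
                  have h14 := Fintype.mem_piFinset.mp h6 (i, p 0)
                  rw [if_pos (by rw [hC]; exact Finset.mem_image_of_mem _ hi1), hVc 0 i hi1] at h14
                  exact h14
                have h15 := hi2 h13
                rw [hu] at h15
                exact h15
            _ ≤ _ := Finset.sum_le_sum_of_subset_of_nonneg (Finset.filter_subset _ _)
                fun i _ _ => core_emp_nonneg _ _ _ _ fun y => hg _
        have h16 : η * (z : ℝ) < 2 * (((J 0).filter fun i => ¬ t' (i, p 0) ∈ low t).card : ℝ) := by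
          refine lt_of_le_of_lt (hηJ 0) ?_
          exact_mod_cast h11
        have h17 : η * (z : ℝ) * ((c₃' / 2) * (z : ℝ) ^ k) <
            2 * (((J 0).filter fun i => ¬ t' (i, p 0) ∈ low t).card : ℝ) *
              ((c₃' / 2) * (z : ℝ) ^ k) := mul_lt_mul_of_pos_right h16 (by positivity)
        have h18 : 0 < η * (z : ℝ) * ((c₃' / 2) * (z : ℝ) ^ k) := by positivity
        have h19 : η * (c₃' / 2) / 4 * (z : ℝ) ^ (k + 1) =
            (η * (z : ℝ) * ((c₃' / 2) * (z : ℝ) ^ k)) / 4 := by ring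
        rw [h19] at h8
        linarith
      refine h5.trans (h3.trans ?_)
      exact mul_le_mul_of_nonneg_right h4 (Nat.cast_nonneg _)
    -- union
    have hsub : ((Fintype.piFinset Vc).filter fun t =>
          SprC p t V J z θ g ∧ emp p t J g ≤ η * (c₃' / 2) / 4 * (z : ℝ) ^ (k + 1)) ⊆
        ((Fintype.piFinset Vc).filter fun t => ((low t).card : ℝ) < T ∧
          emp p t J g ≤ η * (c₃' / 2) / 4 * (z : ℝ) ^ (k + 1)) ∪
        ((Fintype.piFinset Vc).filter fun t =>
          SprA (fun j => p j.succ) t (fun j => J j.succ) z θ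
            (fun (x : ↥(V 0)) (y : Fin k → Fin N) => g (Fin.cons x.1 y)) ∧
          SprC (fun j => p j.succ) t (fun j => V j.succ) (fun j => J j.succ) z θ
            (fun y => (∑ x : ↥(V 0), g (Fin.cons x.1 y)) / (Fintype.card ↥(V 0) : ℝ)) ∧
          T ≤ (((Finset.univ.filter fun x : ↥(V 0) => x.1 ∈ Vst 0).filter fun x =>
            emp (fun j => p j.succ) t (fun j => J j.succ) (fun y => g (Fin.cons x.1 y))
              < (c₃' / 2) * (z : ℝ) ^ k).card : ℝ)) := by
      intro t ht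
      rw [Finset.mem_filter] at ht
      obtain ⟨h1, h2, h3⟩ := ht
      rw [Finset.mem_union, Finset.mem_filter, Finset.mem_filter]
      by_cases h4 : ((low t).card : ℝ) < T
      · exact Or.inl ⟨h1, h4, h3⟩
      · right
        refine ⟨h1, core_sprA p t V J z θ g h2, core_sprC p t V J z θ g (hV 0) h2, ?_⟩
        rw [not_lt] at h4
        refine h4.trans (le_of_eq ?_)
        rw [Nat.cast_inj, hlow, hu]
        rw [← Finset.card_map (⟨Subtype.val, Subtype.val_injective⟩ : ↥(V 0) ↪ Fin N)]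
        congr 1
        ext y
        simp only [Finset.mem_filter, Finset.mem_map, Function.Embedding.coeFn_mk, Finset.mem_univ,
          true_and]
        constructor
        · rintro ⟨h5, h6⟩
          exact ⟨⟨y, hVst 0 h5⟩, ⟨h5, h6⟩, rfl⟩
        · rintro ⟨x, ⟨h5, h6⟩, rfl⟩
          exact ⟨h5, h6⟩
    have hfin : 2 * Real.exp (-((b + 1) * z)) ≤ Real.exp (-(b * z)) := by
      have h1 : Real.exp (-(b * z)) = Real.exp (-((b + 1) * z)) * Real.exp z := by
        rw [← Real.exp_add]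
        congr 1
        ring
      have h2 : (2 : ℝ) ≤ Real.exp z := by
        have := Real.add_one_le_exp (z : ℝ)
        linarith
      rw [h1]
      have := Real.exp_pos (-((b + 1) * z))
      nlinarith
    refine (core_card_union _ _ _ hsub).trans ((add_le_add hA hB).trans ?_)
    rw [← two_mul, ← mul_assoc]
    exact mul_le_mul_of_nonneg_right hfin (Nat.cast_nonneg _)

end Pool.Agent.CUB
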