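import Mathlib

set_option autoImplicit false

/-!
Project CUB (MP_e72c4a, case `Δ = 3`): `K_{4,4}`-free graphs on `O(n)` vertices that are `r`-partition
universal for the graphs on `n` vertices of maximum degree at most three.

Conventions: `N = h ^ 96`, `M = h ^ 152` (so `M / N = h ^ 56` and `M / N ^ 2 = h ^ (-40)`).
A configuration is a function `t : Fin M × Fin 4 → Fin N` (block `i` has the four cells `(i, a)`).
Types are the elements of `Fin v`, every type `d` has a position `pos d : Fin 4`; an edge is a pair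
`e : Fin v × Fin v` of types with different positions. A type assignment is `x : Fin v → Fin N`.
-/

namespace Pool.Agent.CUB

open scoped Classical

/-! ### Counting structures in a configuration -/

/-- Number of blocks in `L e` that join `x e.1` and `x e.2`. -/
def mm {v N M : ℕ} (t : Fin M × Fin 4 → Fin N) (pos : Fin v → Fin 4)
    (L : Fin v × Fin v → Finset (Fin M)) (e : Fin v × Fin v) (x : Fin v → Fin N) : ℕ :=
  ((L e).filter fun i => t (i, pos e.1) = x e.1 ∧ t (i, pos e.2) = x e.2).card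

/-- Assignments with the coordinates in `B` ranging over `S`, the others frozen at `x`. -/
def box {v N : ℕ} (B : Finset (Fin v)) (S : Fin v → Finset (Fin N)) (x : Fin v → Fin N) :
    Finset (Fin v → Fin N) :=
  Fintype.piFinset fun i => if i ∈ B then S i else {x i}

/-- Number of extensions (with multiplicity) of the root assignment `x` to the free vertices `B`,
placed inside `S`. -/
def ext {v N M : ℕ} (t : Fin M × Fin 4 → Fin N) (pos : Fin v → Fin 4)
    (L : Fin v × Fin v → Finset (Fin M)) (F : Finset (Fin v × Fin v)) (B : Finset (Fin v))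
    (S : Fin v → Finset (Fin N)) (x : Fin v → Fin N) : ℕ :=
  ∑ y ∈ box B S x, ∏ e ∈ F, mm t pos L e y

/-- The nominal value of `ext`. -/
noncomputable def nom {v N : ℕ} (V : Fin v → Finset (Fin N)) (m : ℝ) (F : Finset (Fin v × Fin v))
    (B : Finset (Fin v)) : ℝ :=
  (∏ i ∈ B, ((V i).card : ℝ)) * ∏ e ∈ F, (m / (((V e.1).card : ℝ) * ((V e.2).card : ℝ)))

/-- Regularity: inside all large sets `S`, all but an `ε` proportion of the root assignments have at
least `c` times the nominal number of extensions. -/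
def Reg {v N M : ℕ} (t : Fin M × Fin 4 → Fin N) (pos : Fin v → Fin 4)
    (L : Fin v × Fin v → Finset (Fin M)) (V : Fin v → Finset (Fin N)) (m : ℝ)
    (F : Finset (Fin v × Fin v)) (B : Finset (Fin v)) (ε c : ℝ) : Prop :=
  ∀ S : Fin v → Finset (Fin N), (∀ i, S i ⊆ V i) →
    (∀ i ∈ B, ε * ((V i).card : ℝ) ≤ ((S i).card : ℝ)) →
    (((Fintype.piFinset V).filter fun x =>
        (ext t pos L F B S x : ℝ) < c * nom V m F B).card : ℝ)
      ≤ ε * ((Fintype.piFinset V).card : ℝ)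

/-- Every class `L e` (`e ∈ F`) is dense on all large sub-rectangles. -/
def Dense {v N M : ℕ} (t : Fin M × Fin 4 → Fin N) (pos : Fin v → Fin 4)
    (L : Fin v × Fin v → Finset (Fin M)) (V : Fin v → Finset (Fin N)) (m : ℝ)
    (F : Finset (Fin v × Fin v)) (ε c₀ : ℝ) : Prop :=
  ∀ e ∈ F, ∀ S₁ S₂ : Finset (Fin N), S₁ ⊆ V e.1 → S₂ ⊆ V e.2 →
    ε * ((V e.1).card : ℝ) ≤ (S₁.card : ℝ) → ε * ((V e.2).card : ℝ) ≤ (S₂.card : ℝ) →
    c₀ * m * ((S₁.card : ℝ) / ((V e.1).card : ℝ)) * ((S₂.card : ℝ) / ((V e.2).card : ℝ))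
      ≤ (((L e).filter fun i => t (i, pos e.1) ∈ S₁ ∧ t (i, pos e.2) ∈ S₂).card : ℝ)

/-- The crude rooted count: pairs (assignment `y` equal to `ρ` off `B`, injective choice of blocks
for the edges) that are consistent. -/
noncomputable def Gcnt {v N M : ℕ} (t : Fin M × Fin 4 → Fin N) (pos : Fin v → Fin 4)
    (F : Finset (Fin v × Fin v)) (B : Finset (Fin v)) (ρ : Fin v → Fin N) : ℕ :=
  ((Finset.univ : Finset ((Fin v → Fin N) × (↥F → Fin M))).filter fun p =>
    (∀ i, i ∉ B → p.1 i = ρ i) ∧ Function.Injective p.2 ∧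
      ∀ e : ↥F, t (p.2 e, pos e.1.1) = p.1 e.1.1 ∧ t (p.2 e, pos e.1.2) = p.1 e.1.2).card

/-- Edges of `F` that touch `T`. -/
def tch {v : ℕ} (F : Finset (Fin v × Fin v)) (T : Finset (Fin v)) : Finset (Fin v × Fin v) :=
  F.filter fun e => e.1 ∈ T ∨ e.2 ∈ T

/-- Edges of `F` inside `T`. -/
def ins {v : ℕ} (F : Finset (Fin v × Fin v)) (T : Finset (Fin v)) : Finset (Fin v × Fin v) :=
  F.filter fun e => e.1 ∈ T ∧ e.2 ∈ T

/-- The two ends of every edge have different positions. -/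
def PosD {v : ℕ} (pos : Fin v → Fin 4) (F : Finset (Fin v × Fin v)) : Prop :=
  ∀ e ∈ F, pos e.1 ≠ pos e.2

/-- No edge occurs with both orientations. -/
def Simp {v : ℕ} (F : Finset (Fin v × Fin v)) : Prop := ∀ e ∈ F, (e.2, e.1) ∉ F

/-- Every edge touches `B`. -/
def Tch {v : ℕ} (F : Finset (Fin v × Fin v)) (B : Finset (Fin v)) : Prop :=
  ∀ e ∈ F, e.1 ∈ B ∨ e.2 ∈ B

/-- Local sparsity (holds for subcubic `K_4`-free graphs). -/
def D2 {v : ℕ} (F : Finset (Fin v × Fin v)) : Prop :=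
  ∀ S : Finset (Fin v), 3 ≤ S.card → 5 * (ins F S).card + 20 ≤ 12 * S.card

/-- Rooted sparsity. -/
def RS {v : ℕ} (F : Finset (Fin v × Fin v)) (B : Finset (Fin v)) : Prop :=
  ∀ S : Finset (Fin v), S ⊆ B → S.Nonempty →
    5 * (F.filter fun e => (e.1 ∈ B → e.1 ∈ S) ∧ (e.2 ∈ B → e.2 ∈ S)).card + 1 ≤ 12 * S.card

/-- Crude upper bounds for all rooted counts. -/
def CR {v N M : ℕ} (h : ℕ) (t : Fin M × Fin 4 → Fin N) (pos : Fin v → Fin 4) : Prop :=
  ∀ (F : Finset (Fin v × Fin v)) (B : Finset (Fin v)) (ρ : Fin v → Fin N) (a : ℕ), PosD pos F →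
    (∀ T : Finset (Fin v), T ⊆ B → 96 * T.card ≤ a + 40 * (tch F T).card) →
    Gcnt t pos F B ρ ≤ h ^ (a + 1)

/-! ### Resampling -/

/-- The configurations of `piFinset Vc` that agree with `t` off `C`. -/
def fib {κ : Type} [Fintype κ] [DecidableEq κ] {N : ℕ} (Vc : κ → Finset (Fin N)) (C : Finset κ)
    (t : κ → Fin N) : Finset (κ → Fin N) :=
  Fintype.piFinset fun c => if c ∈ C then Vc c else {t c}

/-! ### Weighted and empirical sums -/

/-- Weighted sum of `g`. -/
noncomputable def wsum {k N : ℕ} (w : Fin k → Fin N → ℝ) (g : (Fin k → Fin N) → ℝ) : ℝ :=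
  ∑ y : Fin k → Fin N, (∏ j, w j (y j)) * g y

/-- Empirical sum of `g` over the blocks `J`. -/
noncomputable def emp {k N M : ℕ} (p : Fin k → Fin 4) (t : Fin M × Fin 4 → Fin N)
    (J : Fin k → Finset (Fin M)) (g : (Fin k → Fin N) → ℝ) : ℝ :=
  ∑ lam ∈ Fintype.piFinset J, g fun j => t (lam j, p j)

/-- Empirical weight: how often `b` occurs at the `j`-th coordinate. -/
def wE {k N M : ℕ} (p : Fin k → Fin 4) (t : Fin M × Fin 4 → Fin N) (J : Fin k → Finset (Fin M))
    (j : Fin k) (b : Fin N) : ℝ :=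
  (((J j).filter fun i => t (i, p j) = b).card : ℝ)

/-- Point weight. -/
def w1 {N : ℕ} (y : Fin N) (b : Fin N) : ℝ := if b = y then 1 else 0

/-- Level weights: coordinates below `l` are summed over `V`, coordinate `l` is fixed at `y`, the
coordinates above `l` are empirical. -/
def lw {k N M : ℕ} (p : Fin k → Fin 4) (t : Fin M × Fin 4 → Fin N) (V : Fin k → Finset (Fin N))
    (J : Fin k → Finset (Fin M)) (l : Fin k) (y : Fin N) (j : Fin k) (b : Fin N) : ℝ :=
  if j < l then (if b ∈ V j then 1 else 0) else if j = l then w1 y b else wE p t J j b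

/-- Spread condition for a family of functions, all coordinates empirical. -/
def SprA {k N M : ℕ} {ι : Type} (p : Fin k → Fin 4) (t : Fin M × Fin 4 → Fin N)
    (J : Fin k → Finset (Fin M)) (z : ℕ) (θ : ℝ) (u : ι → (Fin k → Fin N) → ℝ) : Prop :=
  ∀ x : ι, ∀ j : Fin k, ∀ a ∈ J j,
    wsum (Function.update (wE p t J) j (w1 (t (a, p j)))) (u x) * wsum (wE p t J) (u x)
      ≤ θ * ((z : ℝ) ^ k) ^ 2

/-- Spread condition at all levels. -/
def SprC {k N M : ℕ} (p : Fin k → Fin 4) (t : Fin M × Fin 4 → Fin N) (V : Fin k → Finset (Fin N))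
    (J : Fin k → Finset (Fin M)) (z : ℕ) (θ : ℝ) (g : (Fin k → Fin N) → ℝ) : Prop :=
  ∀ l : Fin k, ∀ y ∈ V l, ∀ j : Fin k, l < j → ∀ a ∈ J j,
    wsum (Function.update (lw p t V J l y) j (w1 (t (a, p j)))) g * wsum (lw p t V J l y) g
      ≤ θ * ((z : ℝ) ^ (k - 1 - (l : ℕ)) *
          ∏ i ∈ Finset.univ.filter (fun i : Fin k => i < l), ((V i).card : ℝ)) ^ 2

/-! ### The star at a root -/

/-- Blocks of `D j` at `s'` whose `j`-th cell lies in `S j`. -/
def JS {k N M : ℕ} (ps : Fin 4) (p : Fin k → Fin 4) (t : Fin M × Fin 4 → Fin N)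
    (D : Fin k → Finset (Fin M)) (S : Fin k → Finset (Fin N)) (s' : Fin N) :
    Fin k → Finset (Fin M) :=
  fun j => (D j).filter fun i => t (i, ps) = s' ∧ t (i, p j) ∈ S j

/-- `en` enumerates the edges of `F` at `s`, `nb j` is the other end of `en j`. -/
structure Star {v : ℕ} (F : Finset (Fin v × Fin v)) (s : Fin v) (k : ℕ)
    (en : Fin k → Fin v × Fin v) (nb : Fin k → Fin v) : Prop where
  inj : Function.Injective en
  injn : Function.Injective nb
  mem : ∀ e, (∃ j, en j = e) ↔ e ∈ F ∧ (e.1 = s ∨ e.2 = s)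
  ends : ∀ j, ((en j).1 = s ∧ (en j).2 = nb j) ∨ ((en j).1 = nb j ∧ (en j).2 = s)

/-- Edges of `F` not at `s`. -/
def offs {v : ℕ} (F : Finset (Fin v × Fin v)) (s : Fin v) : Finset (Fin v × Fin v) :=
  F.filter fun e => e.1 ≠ s ∧ e.2 ≠ s

/-- The number of extensions with prescribed values at the vertices `nb j`, normalised by `E`. -/
noncomputable def uu {v N M k : ℕ} (t : Fin M × Fin 4 → Fin N) (pos : Fin v → Fin 4)
    (L : Fin v × Fin v → Finset (Fin M)) (F : Finset (Fin v × Fin v)) (B : Finset (Fin v))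
    (S : Fin v → Finset (Fin N)) (nb : Fin k → Fin v) (E : ℝ) (x : Fin v → Fin N)
    (y' : Fin k → Fin N) : ℝ :=
  ((∑ y ∈ (box B S x).filter (fun y => ∀ j, y (nb j) = y' j), ∏ e ∈ F, mm t pos L e y : ℕ) : ℝ) / E

/-- Standing hypotheses for a fixed family of classes `L`. -/
structure KHyp {v N M : ℕ} (h : ℕ) (pos : Fin v → Fin 4) (F : Finset (Fin v × Fin v)) (κ₁ : ℝ)
    (V : Fin v → Finset (Fin N)) (m : ℝ) (L : Fin v × Fin v → Finset (Fin M))
    (Vc : Fin M × Fin 4 → Finset (Fin N)) : Prop where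
  hN : N = h ^ 96
  hM : M = h ^ 152
  hV : ∀ i, κ₁ * (N : ℝ) ≤ ((V i).card : ℝ)
  hm : κ₁ * (M : ℝ) ≤ m
  hmM : m ≤ (M : ℝ)
  hdis : ∀ e ∈ F, ∀ e' ∈ F, e ≠ e' → Disjoint (L e) (L e')
  hVc : ∀ e ∈ F, ∀ i ∈ L e, Vc (i, pos e.1) = V e.1 ∧ Vc (i, pos e.2) = V e.2

/-! ### Global properties of a configuration -/

/-- Two vertices (at different positions) lie in at most four common blocks. -/
def MUL {N M : ℕ} (t : Fin M × Fin 4 → Fin N) : Prop :=
  ∀ a b : Fin 4, a ≠ b → ∀ x y : Fin N,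
    ((Finset.univ : Finset (Fin M)).filter fun i => t (i, a) = x ∧ t (i, b) = y).card ≤ 4

/-- Upper uniformity on boxes. -/
def UU {N M : ℕ} (h : ℕ) (κ₁ : ℝ) (t : Fin M × Fin 4 → Fin N) : Prop :=
  ∀ (X : Fin 4 → Finset (Fin N)) (a₀ : Fin 4), N ≤ h ^ 55 * (X a₀).card →
    (∀ a, a ≠ a₀ → κ₁ * (N : ℝ) ≤ ((X a).card : ℝ)) →
    (((Finset.univ : Finset (Fin M)).filter fun i => ∀ a, t (i, a) ∈ X a).card : ℝ)
      ≤ 8 * (M : ℝ) * ∏ a, (((X a).card : ℝ) / (N : ℝ))

/-- Degrees. -/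
def DEG {N M : ℕ} (h : ℕ) (t : Fin M × Fin 4 → Fin N) : Prop :=
  ∀ (a : Fin 4) (x : Fin N),
    ((Finset.univ : Finset (Fin M)).filter fun i => t (i, a) = x).card ≤ 8 * h ^ 56

/-- Total counts of all patterns. -/
def TOT {v N M : ℕ} (h : ℕ) (K₁ : ℝ) (t : Fin M × Fin 4 → Fin N) (pos : Fin v → Fin 4) : Prop :=
  ∀ (F : Finset (Fin v × Fin v)) (ρ : Fin v → Fin N), PosD pos F →
    (Gcnt t pos F Finset.univ ρ : ℝ) ≤ K₁ * ((h : ℝ) ^ (96 * v) / (h : ℝ) ^ (40 * F.card))

/-! ### Forests -/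

/-- A list of edges `(u, w)` such that every edge has a new leaf `w` with respect to the rest of the
list. -/
def Fst {v : ℕ} : List (Fin v × Fin v) → Prop
  | [] => True
  | e :: l => e.1 ≠ e.2 ∧ (∀ e' ∈ l, e'.1 ≠ e.2 ∧ e'.2 ≠ e.2) ∧ Fst l

/-- A finset of edges that can be ordered as an `Fst` list. -/
def Frst {v : ℕ} (E : Finset (Fin v × Fin v)) : Prop := ∃ l : List (Fin v × Fin v), l.toFinset = E ∧ Fst l

/-- Number of blocks of `L (d, d')` through `a` and `b`. -/
def pmul {v N M : ℕ} (t : Fin M × Fin 4 → Fin N) (pos : Fin v → Fin 4)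
    (L : Fin v × Fin v → Finset (Fin M)) (d d' : Fin v) (a b : Fin N) : ℕ :=
  ((L (d, d')).filter fun i => t (i, pos d) = a ∧ t (i, pos d') = b).card

/-- The potential functional of a forest `l` and a weight `Y`, given the values of `x` on `S`. -/
noncomputable def Phi {v N M : ℕ} (t : Fin M × Fin 4 → Fin N) (pos : Fin v → Fin 4)
    (L : Fin v × Fin v → Finset (Fin M)) (V : Fin v → Finset (Fin N)) (m : ℝ)
    (l : Finset (Fin v × Fin v)) (Y : (Fin v → Fin N) → ℝ) (S : Finset (Fin v))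
    (x : Fin v → Fin N) : ℝ :=
  (∑ α ∈ box Sᶜ V x, Y α * ∏ e ∈ l.filter (fun e => ¬ (e.1 ∈ S ∧ e.2 ∈ S)),
      ((mm t pos L e α : ℝ) * (((V e.1).card : ℝ) * ((V e.2).card : ℝ) / m)))
    / ∏ i ∈ Sᶜ, ((V i).card : ℝ)

/-- Edges of the item `A` of a rooted forest (`par j = j` means that `j` is a root). -/
def edg {v n : ℕ} (ty : Fin n → Fin v) (par : Fin n → Fin n) (A : Finset (Fin n)) :
    Finset (Fin v × Fin v) :=
  (A.filter fun j => par j ≠ j).image fun j => (ty (par j), ty j)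

/-- The type assignment of a vertex assignment `φ` on `A`, equal to `x₀` elsewhere. -/
noncomputable def asg {v n N : ℕ} (ty : Fin n → Fin v) (A : Finset (Fin n)) (φ : Fin n → Fin N)
    (x₀ : Fin v → Fin N) : Fin v → Fin N :=
  fun d => if hd : ∃ j ∈ A, ty j = d then φ (Classical.choose hd) else x₀ d

/-! ### Classes cut out by boxes -/

/-- Blocks of `L0` whose cells at `pos e.1`, `pos e.2` lie in `V e.1`, `V e.2` and whose other cells
lie in `Vg`. -/
def cls {v N M : ℕ} (t : Fin M × Fin 4 → Fin N) (pos : Fin v → Fin 4)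
    (V : Fin v → Finset (Fin N)) (Vg : Fin 4 → Finset (Fin N)) (L0 : Finset (Fin M))
    (e : Fin v × Fin v) : Finset (Fin M) :=
  L0.filter fun i => ∀ a : Fin 4,
    t (i, a) ∈ (if a = pos e.1 then V e.1 else if a = pos e.2 then V e.2 else Vg a)

end Pool.Agent.CUB
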