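import Pool.Agent.CUB.Defs

set_option autoImplicit false

/-!
Project CUB, second part of the definitions: union bounds, embedding instances, host graph.
-/

namespace Pool.Agent.CUB

open scoped Classical

/-- The family of classes cut out by `V`, `Vg` from `L0`. -/
def clsL {v N M : ℕ} (t : Fin M × Fin 4 → Fin N) (pos : Fin v → Fin 4)
    (V : Fin v → Finset (Fin N)) (Vg : Fin 4 → Finset (Fin N)) (L0 : Finset (Fin M)) :
    Fin v × Fin v → Finset (Fin M) :=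
  fun e => if pos e.1 = pos e.2 then ∅ else cls t pos V Vg L0 e

/-- The nominal total weight of a forest `E`. -/
noncomputable def nrm {v N : ℕ} (V : Fin v → Finset (Fin N)) (m : ℝ)
    (E : Finset (Fin v × Fin v)) : ℝ :=
  ((Fintype.piFinset V).card : ℝ) * ∏ e ∈ E, (m / (((V e.1).card : ℝ) * ((V e.2).card : ℝ)))

/-- Admissible rooted pattern. -/
structure Adm {v : ℕ} (pos : Fin v → Fin 4) (F : Finset (Fin v × Fin v)) (B : Finset (Fin v)) :
    Prop where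
  posd : PosD pos F
  simp : Simp F
  tch : Tch F B
  d2 : D2 F
  rs : RS F B

/-- The parts `V d`, `Vg a` have the right sizes and are disjoint. -/
structure Parts {v N : ℕ} (pos : Fin v → Fin 4) (κ₁ : ℝ) (V : Fin v → Finset (Fin N))
    (Vg : Fin 4 → Finset (Fin N)) (nn : Fin 4 → ℕ) : Prop where
  cV : ∀ i, (V i).card = nn (pos i)
  cg : ∀ a, (Vg a).card = nn a
  big : ∀ a, κ₁ * (N : ℝ) ≤ (nn a : ℝ)
  disV : ∀ i j, i ≠ j → pos i = pos j → Disjoint (V i) (V j)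
  disg : ∀ i, Disjoint (V i) (Vg (pos i))

/-- The nominal class size. -/
noncomputable def msz (N M : ℕ) (nn : Fin 4 → ℕ) : ℝ := (M : ℝ) * ∏ a, ((nn a : ℝ) / (N : ℝ))

/-- All pairs of types with different positions. -/
def allE {v : ℕ} (pos : Fin v → Fin 4) : Finset (Fin v × Fin v) :=
  Finset.univ.filter fun e => pos e.1 ≠ pos e.2

/-- Pattern goodness: for all parts and all `L0` that are dense, the root assignments with few
extensions, and those with a poor vertex, carry little forest weight. -/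
def PG {v N M : ℕ} (t : Fin M × Fin 4 → Fin N) (pos : Fin v → Fin 4) (c₀ εin c ε₄ κ₁ : ℝ) : Prop :=
  ∀ (V : Fin v → Finset (Fin N)) (Vg : Fin 4 → Finset (Fin N)) (nn : Fin 4 → ℕ)
    (L0 : Finset (Fin M)), Parts pos κ₁ V Vg nn →
    Dense t pos (clsL t pos V Vg L0) V (msz N M nn) (allE pos) εin c₀ →
    (∀ (F : Finset (Fin v × Fin v)) (B : Finset (Fin v)) (E : Finset (Fin v × Fin v))
        (S : Fin v → Finset (Fin N)), Adm pos F B → Frst E →
        (∀ e ∈ E, pos e.1 ≠ pos e.2 ∧ e.1 ∉ B ∧ e.2 ∉ B) → (∀ i, S i ⊆ V i) →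
        (∀ i ∈ B, (V i).card ≤ 2 * (S i).card) →
        ((∑ x ∈ (Fintype.piFinset V).filter (fun x =>
            (ext t pos (clsL t pos V Vg L0) F B S x : ℝ) < c * nom V (msz N M nn) F B),
            ∏ e ∈ E, mm t pos (clsL t pos V Vg L0) e x : ℕ) : ℝ) ≤ ε₄ * nrm V (msz N M nn) E) ∧
    (∀ (d d' : Fin v) (E : Finset (Fin v × Fin v)), pos d ≠ pos d' → Frst E →
        (∀ e ∈ E, pos e.1 ≠ pos e.2 ∧ e ≠ (d, d') ∧ e ≠ (d', d)) →
        ((∑ x ∈ (Fintype.piFinset V).filter (fun x =>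
            (((clsL t pos V Vg L0 (d, d')).filter fun i => t (i, pos d) = x d).card : ℝ)
              < c₀ * msz N M nn / ((V d).card : ℝ)),
            ∏ e ∈ E, mm t pos (clsL t pos V Vg L0) e x : ℕ) : ℝ) ≤ ε₄ * nrm V (msz N M nn) E)

/-- Invariant of the sequential embedding after the first `j` vertices. -/
def WInv {v N M n : ℕ} {β μ ι : Type} [Fintype ι] (t : Fin M × Fin 4 → Fin N)
    (pos : Fin v → Fin 4) (L : Fin v × Fin v → Finset (Fin M)) (V : Fin v → Finset (Fin N))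
    (ty : Fin n → Fin v) (par : Fin n → Fin n) (x₀ : Fin v → Fin N)
    (Ab : β → Finset (Fin n)) (Yb : β → (Fin v → Fin N) → ℝ)
    (A : μ → ι → Finset (Fin n)) (Y : μ → ι → (Fin v → Fin N) → ℝ) (μ₀ : ℝ) (j : ℕ)
    (φ : Fin n → Fin N) : Prop :=
  (∀ i : Fin n, (i : ℕ) < j → φ i ∈ V (ty i)) ∧
  (∀ i : Fin n, (i : ℕ) < j → par i ≠ i → 0 < pmul t pos L (ty (par i)) (ty i) (φ (par i)) (φ i)) ∧
  (∀ i i' : Fin n, (i : ℕ) < j → (i' : ℕ) < j → i ≠ i' → ty i = ty i' → φ i ≠ φ i') ∧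
  (∀ b : β, (∀ i ∈ Ab b, (i : ℕ) < j) → Yb b (asg ty (Ab b) φ x₀) < 1) ∧
  (∀ k : μ, ∑ i ∈ Finset.univ.filter (fun i : ι => ∀ a ∈ A k i, (a : ℕ) < j),
    Y k i (asg ty (A k i) φ x₀) ≤ 3 * μ₀)

/-- Embedding instance: a rooted forest with types (`n` vertices, parent function `par`, ancestor
sets `anc`) and `q` pieces, piece `i` with pattern `(F i, B i)` and root vertices (closed under
parents) `A i`. -/
structure Inst {v n q : ℕ} (pos : Fin v → Fin 4) (ty : Fin n → Fin v) (par : Fin n → Fin n)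
    (anc : Fin n → Finset (Fin n)) (F : Fin q → Finset (Fin v × Fin v)) (B : Fin q → Finset (Fin v))
    (A : Fin q → Finset (Fin n)) : Prop where
  par_le : ∀ j, par j ≤ j
  par_pos : ∀ j, par j ≠ j → pos (ty (par j)) ≠ pos (ty j)
  anc_self : ∀ j, j ∈ anc j
  anc_par : ∀ j, ∀ i ∈ anc j, par i ∈ anc j
  anc_le : ∀ j, ∀ i ∈ anc j, i ≤ j
  anc_mono : ∀ j, anc (par j) ⊆ anc j
  anc_inj : ∀ j, Set.InjOn ty (anc j : Set (Fin n))
  anc_card : ∀ j, (anc j).card ≤ 100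
  anc_cnt : ∀ i, (Finset.univ.filter fun j => i ∈ anc j).card ≤ 50
  anc_disj : ∀ j j', j ≠ j' → ty j = ty j' → Disjoint (anc j) (anc j')
  anc_child : ∀ j, par j ≠ j → ∀ i ∈ anc (par j), ty i ≠ ty j
  adm : ∀ i, Adm pos (F i) (B i)
  B_ne : ∀ i, (B i).Nonempty
  BA : ∀ i, ∀ j : Fin n, ty j ∉ B i
  FA : ∀ i, ∀ e ∈ F i, (e.1 ∈ B i ∨ ∃ j ∈ A i, ty j = e.1) ∧ (e.2 ∈ B i ∨ ∃ j ∈ A i, ty j = e.2)
  A_par : ∀ i, ∀ j ∈ A i, par j ∈ A i
  A_inj : ∀ i, Set.InjOn ty (A i : Set (Fin n))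
  A_card : ∀ i, (A i).card ≤ 100
  A_cnt : ∀ j, (Finset.univ.filter fun i => j ∈ A i).card ≤ 150
  A_disj : ∀ i i', i ≠ i' → (∃ d, d ∈ B i ∧ d ∈ B i') → Disjoint (A i) (A i')

/-- The instance is realised: `φ` embeds the forest, `y i` is a copy of the `i`-th piece. -/
structure Realised {v N M n q : ℕ} (t : Fin M × Fin 4 → Fin N) (pos : Fin v → Fin 4)
    (L : Fin v × Fin v → Finset (Fin M)) (V : Fin v → Finset (Fin N)) (ty : Fin n → Fin v)
    (par : Fin n → Fin n) (F : Fin q → Finset (Fin v × Fin v)) (B : Fin q → Finset (Fin v))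
    (A : Fin q → Finset (Fin n)) (φ : Fin n → Fin N) (y : Fin q → Fin v → Fin N) : Prop where
  mem : ∀ j, φ j ∈ V (ty j)
  edge : ∀ j, par j ≠ j → 0 < pmul t pos L (ty (par j)) (ty j) (φ (par j)) (φ j)
  inj : ∀ j j', j ≠ j' → ty j = ty j' → φ j ≠ φ j'
  ymem : ∀ i, ∀ d ∈ B i, y i d ∈ V d
  yA : ∀ i, ∀ j ∈ A i, y i (ty j) = φ j
  yF : ∀ i, ∀ e ∈ F i, 0 < mm t pos L e (y i)
  yinj : ∀ i i', i ≠ i' → ∀ d, d ∈ B i → d ∈ B i' → y i d ≠ y i' d

/-- The pattern of a vertex set `Q` of `H` under the typing `ty`. -/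
noncomputable def patF {v : ℕ} {X : Type} (H : SimpleGraph X) (ty : X → Fin v) (Q : Finset X) :
    Finset (Fin v × Fin v) :=
  Finset.univ.filter fun e => e.1 < e.2 ∧
    ∃ a b, H.Adj a b ∧ ty a = e.1 ∧ ty b = e.2 ∧ (a ∈ Q ∨ b ∈ Q)

/-- Structure of a subcubic `K_4`-free graph: `U` is the union of the pieces `Q i` (connected, with
3 to 8 vertices, no edges between different pieces), the rest is a forest of depth at most three with
parent function `par`. -/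
structure Decomp {X : Type} (H : SimpleGraph X) (U : Finset X) (par : X → X) (rk : X → ℕ) (q : ℕ)
    (Q : Fin q → Finset X) : Prop where
  sub : ∀ i, Q i ⊆ U
  cov : ∀ u ∈ U, ∃ i, u ∈ Q i
  dis : ∀ i j, i ≠ j → Disjoint (Q i) (Q j)
  lo : ∀ i, 3 ≤ (Q i).card
  hi : ∀ i, (Q i).card ≤ 8
  conn : ∀ i, (H.induce (Q i : Set X)).Connected
  adjU : ∀ u ∈ U, ∀ w ∈ U, H.Adj u w → ∃ i, u ∈ Q i ∧ w ∈ Q i
  parW : ∀ w, w ∉ U → par w ∉ U
  parA : ∀ w, w ∉ U → par w ≠ w → H.Adj (par w) w ∧ rk (par w) < rk w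
  rk3 : ∀ w, w ∉ U → rk w ≤ 3
  adjW : ∀ w, w ∉ U → ∀ w', w' ∉ U → H.Adj w w' → par w = w' ∨ par w' = w

/-- All graphs on `n` vertices of maximum degree at most three embed into the four-partite graph of
the blocks in `L0`. -/
def UnivP {N M : ℕ} (t : Fin M × Fin 4 → Fin N) (L0 : Finset (Fin M)) (n : ℕ) : Prop :=
  ∀ H : SimpleGraph (Fin n), (∀ x, (H.neighborSet x).ncard ≤ 3) →
    ∃ φ : Fin n → Fin 4 × Fin N, Function.Injective φ ∧ ∀ u w, H.Adj u w →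
      (φ u).1 ≠ (φ w).1 ∧ ∃ i ∈ L0, t (i, (φ u).1) = (φ u).2 ∧ t (i, (φ w).1) = (φ w).2

/-- `K_{4,4}`-free, in elementary form. -/
def K44Free {X : Type} (G : SimpleGraph X) : Prop :=
  ∀ a a' : Fin 4 → X, Function.Injective a → Function.Injective a' → ¬ ∀ i j, G.Adj (a i) (a' j)

/-- The host graph: blocks `f (i, ·)`, `i ∈ 𝒢`, each spanning a copy of `B`. -/
def hostG {b N M : ℕ} (B : SimpleGraph (Fin b)) (f : Fin M × Fin b → Fin N)
    (𝒢 : Finset (Fin M)) : SimpleGraph (Fin b × Fin N) where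
  Adj p q := B.Adj p.1 q.1 ∧ ∃ i ∈ 𝒢, f (i, p.1) = p.2 ∧ f (i, q.1) = q.2
  symm := ⟨by
    rintro p q ⟨h, i, hi, h1, h2⟩
    exact ⟨h.symm, i, hi, h2, h1⟩⟩
  loopless := ⟨fun p h => h.1.ne rfl⟩

/-- A crossing `K_{4,4}`: two injective quadruples of vertices, all pairs covered by blocks that are
not all the same. -/
def CrossK {b N M : ℕ} (B : SimpleGraph (Fin b)) (f : Fin M × Fin b → Fin N)
    (c : (Fin 4 → Fin b × Fin N) × (Fin 4 → Fin b × Fin N) × (Fin 4 → Fin 4 → Fin M)) : Prop :=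
  Function.Injective c.1 ∧ Function.Injective c.2.1 ∧ (∀ i j, B.Adj (c.1 i).1 (c.2.1 j).1) ∧
    (∀ i j, f (c.2.2 i j, (c.1 i).1) = (c.1 i).2 ∧ f (c.2.2 i j, (c.2.1 j).1) = (c.2.1 j).2) ∧
    ¬ ∀ i j i' j', c.2.2 i j = c.2.2 i' j'

end Pool.Agent.CUB
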