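import Pool.Agent.CUB.Defs2

set_option autoImplicit false

/-!
# CUB.EDG

frst_edg: induct on `A` by its maximum `j` (`A \ {j}` is closed under `par` since `par ≤ id`): the edge
`(ty (par j), ty j)` (if `par j ≠ j`) is put in front; `ty j` is new by injectivity. The rest: unfold `asg`;
the chosen witness is unique by injectivity.
-/

namespace Pool.Agent.CUB

open scoped Classical

/-- The edges of a set closed under parents form a forest. -/
theorem frst_edg {v n : ℕ} (ty : Fin n → Fin v) (par : Fin n → Fin n) (hpar : ∀ j, par j ≤ j)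
    (A : Finset (Fin n)) (hA : ∀ j ∈ A, par j ∈ A) (hinj : Set.InjOn ty (A : Set (Fin n))) :
    Frst (edg ty par A) := by
  revert hA hinj
  induction A using Finset.induction_on_max with
  | empty => intro _ _; exact ⟨[], by simp [edg], trivial⟩
  | insert a s hlt ih =>
    intro hA hinj
    have has : a ∉ s := fun h => lt_irrefl _ (hlt a h)
    have hs : ∀ j ∈ s, par j ∈ s := by
      intro j hj
      have h1 := hA j (Finset.mem_insert_of_mem hj)
      rcases Finset.mem_insert.1 h1 with h2 | h2
      · exact absurd (lt_of_le_of_lt (hpar j) (hlt j hj)) (by rw [h2]; exact lt_irrefl _)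
      · exact h2
    have hinj' : Set.InjOn ty (s : Set (Fin n)) :=
      hinj.mono (by intro x hx; exact Finset.mem_coe.2 (Finset.mem_insert_of_mem hx))
    obtain ⟨l, hl, hF⟩ := ih hs hinj'
    by_cases hp : par a = a
    · refine ⟨l, ?_, hF⟩
      rw [hl]
      unfold edg
      rw [Finset.filter_insert, if_neg (by simpa using hp)]
    · have hpa : par a ∈ s := by
        rcases Finset.mem_insert.1 (hA a (Finset.mem_insert_self _ _)) with h2 | h2
        · exact absurd h2 hp
        · exact h2
      have hne : ∀ i ∈ s, ty i ≠ ty a := by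
        intro i hi h
        have := hinj (Finset.mem_coe.2 (Finset.mem_insert_of_mem hi))
          (Finset.mem_coe.2 (Finset.mem_insert_self _ _)) h
        exact has (this ▸ hi)
      refine ⟨(ty (par a), ty a) :: l, ?_, hne _ hpa, ?_, hF⟩
      · rw [List.toFinset_cons, hl]
        unfold edg
        rw [Finset.filter_insert, if_pos hp, Finset.image_insert]
      · intro e' he'
        have : e' ∈ edg ty par s := by rw [← hl]; exact List.mem_toFinset.2 he'
        unfold edg at this
        obtain ⟨j, hj, rfl⟩ := Finset.mem_image.1 this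
        have hj' := (Finset.mem_filter.1 hj).1
        exact ⟨hne _ (hs j hj'), hne _ hj'⟩

theorem asg_mem {v n N : ℕ} (ty : Fin n → Fin v) (A : Finset (Fin n))
    (hinj : Set.InjOn ty (A : Set (Fin n))) (φ : Fin n → Fin N) (x₀ : Fin v → Fin N) (j : Fin n)
    (hj : j ∈ A) : asg ty A φ x₀ (ty j) = φ j := by
  have hd : ∃ j' ∈ A, ty j' = ty j := ⟨j, hj, rfl⟩
  unfold asg
  rw [dif_pos hd]
  have hc := Classical.choose_spec hd
  rw [hinj (Finset.mem_coe.2 hc.1) (Finset.mem_coe.2 hj) hc.2]

theorem asg_not {v n N : ℕ} (ty : Fin n → Fin v) (A : Finset (Fin n)) (φ : Fin n → Fin N)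
    (x₀ : Fin v → Fin N) (d : Fin v) (hd : ∀ j ∈ A, ty j ≠ d) : asg ty A φ x₀ d = x₀ d := by
  unfold asg
  rw [dif_neg]
  rintro ⟨j, hj, h⟩
  exact hd j hj h

/-- Adding the last vertex to the assignment. -/
theorem asg_insert {v n N : ℕ} (ty : Fin n → Fin v) (A : Finset (Fin n)) (j : Fin n) (hj : j ∉ A)
    (hinj : Set.InjOn ty (insert j A : Finset (Fin n))) (φ : Fin n → Fin N) (y : Fin N)
    (x₀ : Fin v → Fin N) :
    asg ty (insert j A) (Function.update φ j y) x₀ = Function.update (asg ty A φ x₀) (ty j) y := by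
  funext d
  by_cases h1 : d = ty j
  · subst h1
    rw [asg_mem ty (insert j A) hinj _ x₀ j (Finset.mem_insert_self _ _), Function.update_self,
      Function.update_self]
  · rw [Function.update_of_ne h1]
    by_cases h2 : ∃ i ∈ A, ty i = d
    · obtain ⟨i, hi, rfl⟩ := h2
      have hij : i ≠ j := fun h => hj (h ▸ hi)
      rw [asg_mem ty (insert j A) hinj _ x₀ i (Finset.mem_insert_of_mem hi),
        Function.update_of_ne hij,
        asg_mem ty A (hinj.mono (by
          intro x hx; exact Finset.mem_coe.2 (Finset.mem_insert_of_mem hx))) φ x₀ i hi]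
    · rw [asg_not ty A φ x₀ d (fun i hi h => h2 ⟨i, hi, h⟩),
        asg_not ty (insert j A) _ x₀ d]
      intro i hi h
      rcases Finset.mem_insert.1 hi with h3 | h3
      · exact h1 (h3 ▸ h.symm)
      · exact h2 ⟨i, h3, h⟩

theorem asg_congr {v n N : ℕ} (ty : Fin n → Fin v) (A : Finset (Fin n)) (φ φ' : Fin n → Fin N)
    (x₀ : Fin v → Fin N) (h : ∀ j ∈ A, φ j = φ' j) : asg ty A φ x₀ = asg ty A φ' x₀ := by
  funext d
  unfold asg
  by_cases hd : ∃ j ∈ A, ty j = d
  · rw [dif_pos hd, dif_pos hd]
    exact h _ (Classical.choose_spec hd).1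
  · rw [dif_neg hd, dif_neg hd]

end Pool.Agent.CUB
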