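import Pool.Agent.CUB.Defs2

set_option autoImplicit false

/-!
# CUB.ITA

Let `L = clsL ..`, `m = msz N M nn`, `κ₁^4 M ≤ m`, `|V i| ≤ N`. The classes `L e`, `L e'` are disjoint for
different unordered edges (by `Parts.disV`, `Parts.disg`).
(1) As in GSP: `a = 96|B| - 40|F| ≥ 8` (`RS` for `S = B`). `ext t pos L F (B.erase d) S (update α d x) ≤
Gcnt t pos F (B.erase d) (update α d x) ≤ h^(a-8+1)` by `CR`: for `T ⊆ B.erase d` (a proper subset of `B`)
`RS` for `B \ T` gives `96|T| + 8 ≤ a + 40|tch F T|`. And `nom ≥ C h^a`.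
(2) `Phi .. ∅ x₀ = (∑_{α∈piFinset V} Y α ∏_{e∈E} mm e α) / nrm V m E`, and
`∑_α ext(.., update α d x) ∏_{E} mm e α ≤ (∏_{i∈B}|V i|) Gcnt t pos (F ∪ E) (univ.erase d) ρ`, `ρ d = x`
(the edges of `E` avoid `B`; the `B`-coordinates of `α` are irrelevant; different edges of `F ∪ E` have
disjoint classes: `Simp F`, `Frst E`, and edges of `F` touch `B`). Insert the hypothesis on `S`:
`≤ h^6 K₂ h^{96(v-1) - 40(|F|+|E|)} ∏_{e∈E∪F} (|V||V|/m) / ∏_{all i}|V i|
≤ K₂ κ₁^{-(4(|F|+|E|)+v)} h^{6-96}`. `C₇` = the maximum over the finitely many `F, E`.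
-/

namespace Pool.Agent.CUB

open scoped Classical

private theorem ITA_box_card {v N : ℕ} (B : Finset (Fin v)) (V : Fin v → Finset (Fin N))
    (y : Fin v → Fin N) : (box B V y).card = ∏ i ∈ B, (V i).card := by
  unfold box
  rw [Fintype.card_piFinset]
  have h1 : ∀ i : Fin v, (if i ∈ B then V i else {y i} : Finset (Fin N)).card =
      if i ∈ B then (V i).card else 1 := by
    intro i
    split_ifs <;> simp
  rw [Finset.prod_congr rfl fun i _ => h1 i, Finset.prod_ite_mem, Finset.univ_inter]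

private theorem ITA_ext_le {v N M : ℕ} (t : Fin M × Fin 4 → Fin N) (pos : Fin v → Fin 4)
    (L : Fin v × Fin v → Finset (Fin M)) (F : Finset (Fin v × Fin v)) (B : Finset (Fin v))
    (S : Fin v → Finset (Fin N)) (x : Fin v → Fin N)
    (hdis : ∀ e ∈ F, ∀ e' ∈ F, e ≠ e' → Disjoint (L e) (L e')) :
    ext t pos L F B S x ≤ Gcnt t pos F B x := by
  unfold ext
  have h1 : ∀ y : Fin v → Fin N, ∏ e ∈ F, mm t pos L e y =
      (Fintype.piFinset fun e : ↥F => (L e.1).filter fun i =>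
        t (i, pos e.1.1) = y e.1.1 ∧ t (i, pos e.1.2) = y e.1.2).card := by
    intro y
    rw [Fintype.card_piFinset]
    unfold mm
    exact (Finset.prod_coe_sort F fun e => ((L e).filter fun i =>
        t (i, pos e.1) = y e.1 ∧ t (i, pos e.2) = y e.2).card).symm
  rw [Finset.sum_congr rfl fun y _ => h1 y, ← Finset.card_sigma]
  unfold Gcnt
  apply Finset.card_le_card_of_injOn
    (fun p : (Σ _ : Fin v → Fin N, (↥F → Fin M)) => ((p.1, p.2) : (Fin v → Fin N) × (↥F → Fin M)))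
  · rintro ⟨y, l⟩ hp
    rw [Finset.mem_coe, Finset.mem_sigma] at hp
    obtain ⟨hy, hl⟩ := hp
    rw [Fintype.mem_piFinset] at hl
    simp only [Finset.coe_filter, Set.mem_ofPred_eq, Finset.mem_univ, true_and]
    refine ⟨?_, ?_, ?_⟩
    · intro i hi
      have h2 := Fintype.mem_piFinset.1 hy i
      simpa [hi] using h2
    · intro e e' hee
      by_contra hne
      have h2 := (Finset.mem_filter.1 (hl e)).1
      have h3 := (Finset.mem_filter.1 (hl e')).1
      have h4 := hdis e.1 e.2 e'.1 e'.2 (fun h => hne (Subtype.ext h))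
      have hee' : l e = l e' := hee
      change l e ∈ _ at h2
      change l e' ∈ _ at h3
      rw [hee'] at h2
      exact Finset.disjoint_left.1 h4 h2 h3
    · intro e
      exact (Finset.mem_filter.1 (hl e)).2
  · rintro ⟨y, l⟩ _ ⟨y', l'⟩ _ h
    simp only [Prod.mk.injEq] at h
    obtain ⟨h2, h3⟩ := h
    subst h2; subst h3
    rfl

private theorem ITA_cls_disj {v N M : ℕ} (t : Fin M × Fin 4 → Fin N) (pos : Fin v → Fin 4)
    {κ₁ : ℝ} {V : Fin v → Finset (Fin N)} {Vg : Fin 4 → Finset (Fin N)} {nn : Fin 4 → ℕ}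
    (L0 : Finset (Fin M)) (hP : Parts pos κ₁ V Vg nn) (e e' : Fin v × Fin v)
    (he : pos e.1 ≠ pos e.2) (he' : pos e'.1 ≠ pos e'.2)
    (hu : (e.1 ≠ e'.1 ∧ e.1 ≠ e'.2) ∨ (e.2 ≠ e'.1 ∧ e.2 ≠ e'.2)) :
    Disjoint (clsL t pos V Vg L0 e) (clsL t pos V Vg L0 e') := by
  rw [Finset.disjoint_left]
  intro i hi hi'
  unfold clsL at hi hi'
  rw [if_neg he] at hi
  rw [if_neg he'] at hi'
  unfold cls at hi hi'
  have h1 := (Finset.mem_filter.1 hi).2
  have h2 := (Finset.mem_filter.1 hi').2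
  have key : ∀ u : Fin v, t (i, pos u) ∈ V u → u ≠ e'.1 → u ≠ e'.2 → False := by
    intro u hu hu1 hu2
    have h3 := h2 (pos u)
    split_ifs at h3 with h4 h5
    · exact Finset.disjoint_left.1 (hP.disV u e'.1 hu1 h4) hu h3
    · exact Finset.disjoint_left.1 (hP.disV u e'.2 hu2 h5) hu h3
    · exact Finset.disjoint_left.1 (hP.disg u) hu h3
  rcases hu with hu | hu
  · refine key e.1 ?_ hu.1 hu.2
    have h3 := h1 (pos e.1)
    rwa [if_pos rfl] at h3
  · refine key e.2 ?_ hu.1 hu.2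
    have h3 := h1 (pos e.2)
    rwa [if_neg (Ne.symm he), if_pos rfl] at h3

private theorem ITA_fam {v N M : ℕ} (t : Fin M × Fin 4 → Fin N) (pos : Fin v → Fin 4)
    {κ₁ : ℝ} {V : Fin v → Finset (Fin N)} {Vg : Fin 4 → Finset (Fin N)} {nn : Fin 4 → ℕ}
    (L0 : Finset (Fin M)) (hP : Parts pos κ₁ V Vg nn) (F : Finset (Fin v × Fin v))
    (hpos : PosD pos F) (hne : ∀ e ∈ F, ∀ e' ∈ F, e ≠ e' → e' ≠ (e.2, e.1)) :
    ∀ e ∈ F, ∀ e' ∈ F, e ≠ e' → Disjoint (clsL t pos V Vg L0 e) (clsL t pos V Vg L0 e') := by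
  intro e he e' he' hee
  refine ITA_cls_disj t pos L0 hP e e' (hpos e he) (hpos e' he') ?_
  by_contra hcon
  have hl : e.1 ≠ e.2 := fun h => hpos e he (by rw [h])
  rcases e with ⟨a, b⟩
  rcases e' with ⟨a', b'⟩
  simp only at hcon hl
  have h1 := hne _ he _ he' hee
  simp only [ne_eq, Prod.mk.injEq] at h1 hee
  by_cases ha : a = a'
  · by_cases hb : b = b'
    · exact hee ⟨ha, hb⟩
    · apply hcon
      right
      exact ⟨fun h => hl (ha.trans h.symm), hb⟩
  · by_cases hb : a = b'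
    · by_cases hc : b = a'
      · exact h1 ⟨hc.symm, hb.symm⟩
      · apply hcon
        right
        exact ⟨hc, fun h => hl (hb.trans h.symm)⟩
    · apply hcon
      left
      exact ⟨ha, hb⟩

private theorem ITA_fst {v : ℕ} (l : List (Fin v × Fin v)) (hl : Fst l) :
    ∀ e ∈ l, ∀ e' ∈ l, e ≠ e' → e' ≠ (e.2, e.1) := by
  induction l with
  | nil => intro e he; simp at he
  | cons c l ih =>
    obtain ⟨h1, h2, h3⟩ := hl
    intro e he e' he' hee
    rcases List.mem_cons.1 he with k1 | k1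
    · rcases List.mem_cons.1 he' with k2 | k2
      · exact absurd (k1.trans k2.symm) hee
      · intro h
        apply (h2 e' k2).1
        rw [h, k1]
    · rcases List.mem_cons.1 he' with k2 | k2
      · intro h
        apply (h2 e k1).1
        rw [← k2, h]
      · exact ih h3 e k1 e' k2 hee

private theorem ITA_alg (K q A Bq Cq D : ℝ) (hA : 0 < A) (hB : 0 < Bq) (hC : 0 < Cq)
    (hD : 0 < D) : q * (K * (A / (Bq * Cq))) / (D * A / Cq) = K / D * q / Bq := by
  field_simp

private theorem ITA_pw (k a b : ℝ) (f e v : ℕ) : (k ^ 4 / a) ^ f * (k ^ 4 / a) ^ e *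
    (k * b) ^ v = k ^ (4 * (f + e) + v) * b ^ v / a ^ (f + e) := by
  rw [← pow_add, div_pow, mul_pow, pow_add k, ← pow_mul]
  ring

private theorem ITA_e1 (q W A B X P : ℝ) (hW : W ≠ 0) (hA : A ≠ 0) (hB : B ≠ 0) (hP : P ≠ 0) :
    q / (W * A) * B⁻¹ * (W * X) / P = q * X / (A * B * P) := by
  field_simp

private theorem ITA_frst {v : ℕ} (E : Finset (Fin v × Fin v)) (hE : Frst E) :
    ∀ e ∈ E, ∀ e' ∈ E, e ≠ e' → e' ≠ (e.2, e.1) := by
  obtain ⟨l, hl, hf⟩ := hE
  intro e he e' he'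
  rw [← hl, List.mem_toFinset] at he he'
  exact ITA_fst l hf e he e' he'

private theorem ITA_swap {v N M : ℕ} (t : Fin M × Fin 4 → Fin N) (pos : Fin v → Fin 4)
    (L : Fin v × Fin v → Finset (Fin M)) (F E : Finset (Fin v × Fin v)) (B : Finset (Fin v))
    (V S : Fin v → Finset (Fin N)) (d : Fin v) (hd : d ∈ B) (x : Fin N)
    (hFE : Disjoint F E) (hE : ∀ e ∈ E, e.1 ∉ B ∧ e.2 ∉ B) :
    ∑ α ∈ Fintype.piFinset V, ext t pos L F (B.erase d) S (Function.update α d x) *
        ∏ e ∈ E, mm t pos L e α =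
      (∏ i ∈ B, (V i).card) * ext t pos L (F ∪ E) (Finset.univ.erase d)
        (fun i => if i ∈ B then S i else V i) (fun _ => x) := by
  unfold ext
  have h1 : ∀ α ∈ Fintype.piFinset V,
      (∑ y ∈ box (B.erase d) S (Function.update α d x), ∏ e ∈ F, mm t pos L e y) *
        ∏ e ∈ E, mm t pos L e α =
      ∑ y ∈ box (B.erase d) S (Function.update α d x), ∏ e ∈ F ∪ E, mm t pos L e y := by
    intro α _
    rw [Finset.sum_mul]
    apply Finset.sum_congr rfl
    intro y hy
    rw [Finset.prod_union hFE]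
    congr 1
    apply Finset.prod_congr rfl
    intro e he
    have h2 : ∀ i, i ∉ B → y i = α i := by
      intro i hi
      have h3 := Fintype.mem_piFinset.1 hy i
      have hid : i ≠ d := fun h => hi (h ▸ hd)
      have h4 : i ∉ B.erase d := fun h => hi (Finset.mem_of_mem_erase h)
      rw [if_neg h4, Finset.mem_singleton, Function.update_of_ne hid] at h3
      exact h3
    unfold mm
    rw [h2 _ (hE e he).1, h2 _ (hE e he).2]
  rw [Finset.sum_congr rfl h1]
  rw [Finset.sum_comm' (s := Fintype.piFinset V)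
    (t := fun α => box (B.erase d) S (Function.update α d x))
    (t' := box (Finset.univ.erase d) (fun i => if i ∈ B then S i else V i) (fun _ => x))
    (s' := fun y => box B V y)]
  · rw [Finset.mul_sum]
    apply Finset.sum_congr rfl
    intro y _
    rw [Finset.sum_const, ITA_box_card, smul_eq_mul]
  · intro α y
    unfold box
    simp only [Fintype.mem_piFinset]
    constructor
    · rintro ⟨h2, h3⟩
      constructor
      · intro i
        by_cases hi : i ∈ B
        · simp only [hi, if_true]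
          exact h2 i
        · simp only [hi, if_false, Finset.mem_singleton]
          have h4 := h3 i
          have hid : i ≠ d := fun h => hi (h ▸ hd)
          have h5 : i ∉ B.erase d := fun h => hi (Finset.mem_of_mem_erase h)
          rw [if_neg h5, Finset.mem_singleton, Function.update_of_ne hid] at h4
          exact h4.symm
      · intro i
        have h4 := h3 i
        by_cases hid : i = d
        · subst hid
          have h5 : i ∉ B.erase i := Finset.notMem_erase i B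
          rw [if_neg h5, Finset.mem_singleton, Function.update_self] at h4
          have h6 : i ∉ Finset.univ.erase i := Finset.notMem_erase i _
          rw [if_neg h6, Finset.mem_singleton]
          exact h4
        · have h6 : i ∈ Finset.univ.erase d := Finset.mem_erase.2 ⟨hid, Finset.mem_univ _⟩
          rw [if_pos h6]
          by_cases hi : i ∈ B
          · rw [if_pos hi]
            rw [if_pos (Finset.mem_erase.2 ⟨hid, hi⟩)] at h4
            exact h4
          · rw [if_neg hi]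
            have h5 : i ∉ B.erase d := fun h => hi (Finset.mem_of_mem_erase h)
            rw [if_neg h5, Finset.mem_singleton, Function.update_of_ne hid] at h4
            rw [h4]
            exact h2 i
    · rintro ⟨h2, h3⟩
      have h7 : ∀ i, i ∉ B → α i = y i := by
        intro i hi
        have := h2 i
        rw [if_neg hi, Finset.mem_singleton] at this
        exact this
      constructor
      · intro i
        by_cases hi : i ∈ B
        · have := h2 i
          rwa [if_pos hi] at this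
        · have hid : i ≠ d := fun h => hi (h ▸ hd)
          have h6 : i ∈ Finset.univ.erase d := Finset.mem_erase.2 ⟨hid, Finset.mem_univ _⟩
          have h4 := h3 i
          rw [if_pos h6, if_neg hi] at h4
          rw [h7 i hi]
          exact h4
      · intro i
        have h4 := h3 i
        by_cases hid : i = d
        · subst hid
          have h6 : i ∉ Finset.univ.erase i := Finset.notMem_erase i _
          rw [if_neg h6, Finset.mem_singleton] at h4
          have h5 : i ∉ B.erase i := Finset.notMem_erase i B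
          rw [if_neg h5, Finset.mem_singleton, Function.update_self]
          exact h4
        · have h6 : i ∈ Finset.univ.erase d := Finset.mem_erase.2 ⟨hid, Finset.mem_univ _⟩
          rw [if_pos h6] at h4
          by_cases hi : i ∈ B
          · rw [if_pos (Finset.mem_erase.2 ⟨hid, hi⟩)]
            rwa [if_pos hi] at h4
          · have h5 : i ∉ B.erase d := fun h => hi (Finset.mem_of_mem_erase h)
            rw [if_neg h5, Finset.mem_singleton, Function.update_of_ne hid]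
            exact (h7 i hi).symm

private theorem ITA_crude {v N M : ℕ} (h : ℕ) (t : Fin M × Fin 4 → Fin N) (pos : Fin v → Fin 4)
    (hCR : CR h t pos) (F : Finset (Fin v × Fin v)) (B : Finset (Fin v)) (d : Fin v)
    (hA : Adm pos F B) (hd : d ∈ B) (ρ : Fin v → Fin N) :
    ∃ a : ℕ, 96 * B.card = a + 8 + 40 * F.card ∧ Gcnt t pos F (B.erase d) ρ ≤ h ^ (a + 1) := by
  have h1 := hA.rs B (Finset.Subset.refl _) ⟨d, hd⟩
  have h2 : (F.filter fun e => (e.1 ∈ B → e.1 ∈ B) ∧ (e.2 ∈ B → e.2 ∈ B)) = F :=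
    Finset.filter_true_of_mem fun e _ => ⟨id, id⟩
  rw [h2] at h1
  refine ⟨96 * B.card - 8 - 40 * F.card, by omega, ?_⟩
  apply hCR F (B.erase d) ρ _ hA.posd
  intro T hT
  have hTB : T ⊆ B := hT.trans (Finset.erase_subset _ _)
  have h3 := hA.rs (B \ T) Finset.sdiff_subset
    ⟨d, Finset.mem_sdiff.2 ⟨hd, fun hh => by
      have := hT hh
      simp at this⟩⟩
  have h4 : (F.filter fun e => (e.1 ∈ B → e.1 ∈ B \ T) ∧ (e.2 ∈ B → e.2 ∈ B \ T)) =
      F \ tch F T := by
    ext e
    simp only [Finset.mem_filter, Finset.mem_sdiff, tch]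
    constructor
    · rintro ⟨h5, h6, h7⟩
      refine ⟨h5, ?_⟩
      rintro ⟨_, h8 | h8⟩
      · exact (h6 (hTB h8)).2 h8
      · exact (h7 (hTB h8)).2 h8
    · rintro ⟨h5, h6⟩
      refine ⟨h5, fun h7 => ⟨h7, fun h8 => h6 ⟨h5, Or.inl h8⟩⟩,
        fun h7 => ⟨h7, fun h8 => h6 ⟨h5, Or.inr h8⟩⟩⟩
  have h5 : tch F T ⊆ F := Finset.filter_subset _ _
  rw [h4, Finset.card_sdiff_of_subset h5, Finset.card_sdiff_of_subset hTB] at h3
  have h6 := Finset.card_le_card h5
  have h7 := Finset.card_le_card hTB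
  omega

/-- Bounds for the usage of the vertex `x` (type `d`) by copies of a piece. -/
theorem ita (v : ℕ) (pos : Fin v → Fin 4) (κ₁ K₂ : ℝ) (hκ : 0 < κ₁) (hK₂ : 0 < K₂) :
    ∃ C₇ : ℝ, 0 < C₇ ∧ ∃ h₀ : ℕ, ∀ h ≥ h₀, ∀ N M : ℕ, N = h ^ 96 → M = h ^ 152 →
    ∀ t : Fin M × Fin 4 → Fin N, CR h t pos →
    ∀ (V : Fin v → Finset (Fin N)) (Vg : Fin 4 → Finset (Fin N)) (nn : Fin 4 → ℕ)
      (L0 : Finset (Fin M)) (S : Fin v → Finset (Fin N)), Parts pos κ₁ V Vg nn →
      (∀ i, S i ⊆ V i) →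
      (∀ i, ∀ x ∈ S i, ∀ F : Finset (Fin v × Fin v), PosD pos F → ∀ ρ : Fin v → Fin N, ρ i = x →
          (Gcnt t pos F (Finset.univ.erase i) ρ : ℝ)
            ≤ K₂ * ((h : ℝ) ^ (96 * v) / ((h : ℝ) ^ 96 * (h : ℝ) ^ (40 * F.card)))) →
      ∀ (F : Finset (Fin v × Fin v)) (B : Finset (Fin v)) (d : Fin v) (x : Fin N)
        (E : Finset (Fin v × Fin v)), Adm pos F B → d ∈ B → x ∈ S d → Frst E →
        (∀ e ∈ E, pos e.1 ≠ pos e.2 ∧ e.1 ∉ B ∧ e.2 ∉ B) →
        (∀ α : Fin v → Fin N, (h : ℝ) ^ 6 *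
            (ext t pos (clsL t pos V Vg L0) F (B.erase d) S (Function.update α d x) : ℝ)
          ≤ nom V (msz N M nn) F B) ∧
        ∀ x₀ : Fin v → Fin N,
          Phi t pos (clsL t pos V Vg L0) V (msz N M nn) E (fun α => (h : ℝ) ^ 6 *
            (ext t pos (clsL t pos V Vg L0) F (B.erase d) S (Function.update α d x) : ℝ) /
              nom V (msz N M nn) F B) ∅ x₀
            ≤ C₇ * (h : ℝ) ^ 6 / (N : ℝ) := by
  classical
  set κ : ℝ := min κ₁ 1 with hκdef
  have hκ0 : 0 < κ := lt_min hκ one_pos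
  have hκ1 : κ ≤ 1 := min_le_right _ _
  have hκκ : κ ≤ κ₁ := min_le_left _ _
  refine ⟨K₂ / κ ^ (8 * (v * v) + v), by positivity, max 1 ⌈1 / κ ^ (v + 4 * (v * v))⌉₊, ?_⟩
  intro h hh N M hN hM t hCR V Vg nn L0 S hP hSV hcnt F B d x E hA hd hx hE hEB
  have hh1 : 1 ≤ h := (le_max_left _ _).trans hh
  have hh2 : 1 / κ ^ (v + 4 * (v * v)) ≤ (h : ℝ) := by
    refine (Nat.le_ceil _).trans ?_
    exact_mod_cast (le_max_right _ _).trans hh
  have hr0 : (0 : ℝ) < (h : ℝ) := by exact_mod_cast hh1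
  have hNr : (N : ℝ) = (h : ℝ) ^ 96 := by rw [hN]; push_cast; ring
  have hMr : (M : ℝ) = (h : ℝ) ^ 152 := by rw [hM]; push_cast; ring
  have hN0 : (0 : ℝ) < (N : ℝ) := by rw [hNr]; positivity
  have hM0 : (0 : ℝ) < (M : ℝ) := by rw [hMr]; positivity
  set m : ℝ := msz N M nn with hm
  have hVlo : ∀ i, κ * (N : ℝ) ≤ ((V i).card : ℝ) := by
    intro i
    rw [hP.cV i]
    exact (mul_le_mul_of_nonneg_right hκκ hN0.le).trans (hP.big _)
  have hV0 : ∀ i, (0 : ℝ) < ((V i).card : ℝ) := fun i => (mul_pos hκ0 hN0).trans_le (hVlo i)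
  have hVhi : ∀ i, ((V i).card : ℝ) ≤ (N : ℝ) := by
    intro i
    have h1 := Finset.card_le_univ (V i)
    rw [Fintype.card_fin] at h1
    exact_mod_cast h1
  have hmlo : κ ^ 4 * (M : ℝ) ≤ m := by
    rw [hm]
    unfold msz
    have h1 : κ ^ 4 ≤ ∏ a : Fin 4, ((nn a : ℝ) / (N : ℝ)) := by
      have h2 : ∏ _a : Fin 4, κ ≤ ∏ a : Fin 4, ((nn a : ℝ) / (N : ℝ)) := by
        apply Finset.prod_le_prod
        · intro a _; exact hκ0.le
        · intro a _
          rw [le_div_iff₀ hN0]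
          exact (mul_le_mul_of_nonneg_right hκκ hN0.le).trans (hP.big _)
      simpa using h2
    calc κ ^ 4 * (M : ℝ) = (M : ℝ) * κ ^ 4 := by ring
      _ ≤ _ := by gcongr
  have hm0 : 0 < m := (by positivity : (0 : ℝ) < κ ^ 4 * (M : ℝ)).trans_le hmlo
  set qe : Fin v × Fin v → ℝ := fun e => m / (((V e.1).card : ℝ) * ((V e.2).card : ℝ)) with hqe
  have hqe0 : ∀ e, 0 < qe e := fun e => div_pos hm0 (mul_pos (hV0 _) (hV0 _))
  have hqlo : ∀ e, κ ^ 4 / (h : ℝ) ^ 40 ≤ qe e := by
    intro e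
    rw [hqe]
    simp only
    rw [div_le_div_iff₀ (by positivity) (mul_pos (hV0 _) (hV0 _))]
    have h1 : ((V e.1).card : ℝ) * ((V e.2).card : ℝ) ≤ (N : ℝ) * (N : ℝ) :=
      mul_le_mul (hVhi _) (hVhi _) (hV0 _).le hN0.le
    calc κ ^ 4 * (((V e.1).card : ℝ) * ((V e.2).card : ℝ)) ≤ κ ^ 4 * ((N : ℝ) * (N : ℝ)) := by
          gcongr
      _ = κ ^ 4 * (M : ℝ) * (h : ℝ) ^ 40 := by rw [hNr, hMr]; ring
      _ ≤ m * (h : ℝ) ^ 40 := by gcongr
  have hBc : B.card ≤ v := by simpa using Finset.card_le_univ B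
  have hFc : F.card ≤ v * v := by simpa using Finset.card_le_univ F
  have hEc : E.card ≤ v * v := by simpa using Finset.card_le_univ E
  have hnomeq : nom V m F B = (∏ i ∈ B, ((V i).card : ℝ)) * ∏ e ∈ F, qe e := rfl
  have hW0 : 0 < ∏ i ∈ B, ((V i).card : ℝ) := Finset.prod_pos fun i _ => hV0 i
  have hQF0 : 0 < ∏ e ∈ F, qe e := Finset.prod_pos fun e _ => hqe0 e
  have hnom0 : 0 < nom V m F B := by rw [hnomeq]; exact mul_pos hW0 hQF0
  have hQFlo : (κ ^ 4 / (h : ℝ) ^ 40) ^ F.card ≤ ∏ e ∈ F, qe e := by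
    rw [← Finset.prod_const]
    exact Finset.prod_le_prod (fun e _ => by positivity) fun e _ => hqlo e
  have hQElo : (κ ^ 4 / (h : ℝ) ^ 40) ^ E.card ≤ ∏ e ∈ E, qe e := by
    rw [← Finset.prod_const]
    exact Finset.prod_le_prod (fun e _ => by positivity) fun e _ => hqlo e
  have hWlo : (κ * (h : ℝ) ^ 96) ^ B.card ≤ ∏ i ∈ B, ((V i).card : ℝ) := by
    rw [← Finset.prod_const]
    refine Finset.prod_le_prod (fun e _ => by positivity) fun i _ => ?_
    rw [← hNr]
    exact hVlo i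
  have hdisF := ITA_fam t pos L0 hP F hA.posd (by
    intro e he e' he' _ hcon
    exact hA.simp e he (hcon ▸ he'))
  have hFE : Disjoint F E := by
    rw [Finset.disjoint_left]
    intro e he he'
    have h1 := hEB e he'
    rcases hA.tch e he with h2 | h2
    · exact h1.2.1 h2
    · exact h1.2.2 h2
  have hposFE : PosD pos (F ∪ E) := by
    intro e he
    rcases Finset.mem_union.1 he with he | he
    · exact hA.posd e he
    · exact (hEB e he).1
  have hdisFE := ITA_fam t pos L0 hP (F ∪ E) hposFE (by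
    intro e he e' he' hee hcon
    rcases Finset.mem_union.1 he with he | he <;> rcases Finset.mem_union.1 he' with he' | he'
    · exact hA.simp e he (hcon ▸ he')
    · have h1 := hEB e' he'
      rw [hcon] at h1
      rcases hA.tch e he with h2 | h2
      · exact h1.2.2 h2
      · exact h1.2.1 h2
    · have h1 := hEB e he
      have h3 := hA.tch e' he'
      rw [hcon] at h3
      rcases h3 with h2 | h2
      · exact h1.2.2 h2
      · exact h1.2.1 h2
    · exact ITA_frst E hE e he e' he' hee hcon)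
  constructor
  · intro α
    obtain ⟨a, ha, hG⟩ := ITA_crude h t pos hCR F B d hA hd (Function.update α d x)
    have h1 := ITA_ext_le t pos (clsL t pos V Vg L0) F (B.erase d) S (Function.update α d x) hdisF
    have h2 : (ext t pos (clsL t pos V Vg L0) F (B.erase d) S (Function.update α d x) : ℝ) ≤
        (h : ℝ) ^ (a + 1) := by exact_mod_cast h1.trans hG
    have h3 : κ ^ (v + 4 * (v * v)) * (h : ℝ) ^ (a + 8) ≤ nom V m F B := by
      rw [hnomeq]
      have h4 : (κ * (h : ℝ) ^ 96) ^ B.card * (κ ^ 4 / (h : ℝ) ^ 40) ^ F.card =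
          κ ^ (B.card + 4 * F.card) * (h : ℝ) ^ (a + 8) := by
        have h5 : (h : ℝ) ^ (96 * B.card) = (h : ℝ) ^ (a + 8) * (h : ℝ) ^ (40 * F.card) := by
          rw [← pow_add, ha]
        rw [mul_pow, div_pow, ← pow_mul, ← pow_mul, ← pow_mul, h5, pow_add κ]
        field_simp
      have h6 : κ ^ (v + 4 * (v * v)) ≤ κ ^ (B.card + 4 * F.card) :=
        pow_le_pow_of_le_one hκ0.le hκ1 (by omega)
      calc κ ^ (v + 4 * (v * v)) * (h : ℝ) ^ (a + 8)
          ≤ κ ^ (B.card + 4 * F.card) * (h : ℝ) ^ (a + 8) := by gcongr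
        _ = _ := h4.symm
        _ ≤ _ := mul_le_mul hWlo hQFlo (by positivity) hW0.le
    refine le_trans ?_ h3
    have h7 : 1 ≤ κ ^ (v + 4 * (v * v)) * (h : ℝ) := by
      rw [div_le_iff₀ (by positivity)] at hh2
      linarith
    calc (h : ℝ) ^ 6 * (ext t pos (clsL t pos V Vg L0) F (B.erase d) S (Function.update α d x) : ℝ)
        ≤ (h : ℝ) ^ 6 * (h : ℝ) ^ (a + 1) := by gcongr
      _ = 1 * (h : ℝ) ^ (a + 7) := by ring
      _ ≤ (κ ^ (v + 4 * (v * v)) * (h : ℝ)) * (h : ℝ) ^ (a + 7) := by gcongr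
      _ = κ ^ (v + 4 * (v * v)) * (h : ℝ) ^ (a + 8) := by ring
  · intro x₀
    have hPV0 : 0 < ∏ i : Fin v, ((V i).card : ℝ) := Finset.prod_pos fun i _ => hV0 i
    have hPVlo : (κ * (h : ℝ) ^ 96) ^ v ≤ ∏ i : Fin v, ((V i).card : ℝ) := by
      have h1 : ∏ _i : Fin v, (κ * (h : ℝ) ^ 96) ≤ ∏ i : Fin v, ((V i).card : ℝ) := by
        refine Finset.prod_le_prod (fun e _ => by positivity) fun i _ => ?_
        rw [← hNr]
        exact hVlo i
      simpa using h1
    have hsw := ITA_swap t pos (clsL t pos V Vg L0) F E B V S d hd x hFE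
      (fun e he => (hEB e he).2)
    have hle := ITA_ext_le t pos (clsL t pos V Vg L0) (F ∪ E) (Finset.univ.erase d)
      (fun i => if i ∈ B then S i else V i) (fun _ => x) hdisFE
    have hc := hcnt d x hx (F ∪ E) hposFE (fun _ => x) rfl
    rw [Finset.card_union_of_disjoint hFE] at hc
    have hbox : box (∅ : Finset (Fin v))ᶜ V x₀ = Fintype.piFinset V := by
      unfold box
      congr 1
      funext i
      simp
    have hfil : E.filter (fun e => ¬ (e.1 ∈ (∅ : Finset (Fin v)) ∧ e.2 ∈ (∅ : Finset (Fin v)))) =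
        E := Finset.filter_true_of_mem fun e _ => by simp
    have hsum : ∑ α ∈ Fintype.piFinset V, (h : ℝ) ^ 6 *
        (ext t pos (clsL t pos V Vg L0) F (B.erase d) S (Function.update α d x) : ℝ) /
          nom V m F B * ∏ e ∈ E, ((mm t pos (clsL t pos V Vg L0) e α : ℝ) *
            (((V e.1).card : ℝ) * ((V e.2).card : ℝ) / m)) =
        (h : ℝ) ^ 6 / nom V m F B * (∏ e ∈ E, qe e)⁻¹ *
          ((∑ α ∈ Fintype.piFinset V, ext t pos (clsL t pos V Vg L0) F (B.erase d) S
            (Function.update α d x) * ∏ e ∈ E, mm t pos (clsL t pos V Vg L0) e α : ℕ) : ℝ) := by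
      push_cast
      rw [Finset.mul_sum]
      apply Finset.sum_congr rfl
      intro α _
      have h1 : ∏ e ∈ E, ((mm t pos (clsL t pos V Vg L0) e α : ℝ) *
            (((V e.1).card : ℝ) * ((V e.2).card : ℝ) / m)) =
          (∏ e ∈ E, (mm t pos (clsL t pos V Vg L0) e α : ℝ)) * (∏ e ∈ E, qe e)⁻¹ := by
        rw [Finset.prod_mul_distrib]
        congr 1
        rw [← Finset.prod_inv_distrib]
        apply Finset.prod_congr rfl
        intro e _
        rw [hqe]
        simp only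
        rw [inv_div]
      rw [h1]
      ring
    have hPhi : Phi t pos (clsL t pos V Vg L0) V m E (fun α => (h : ℝ) ^ 6 *
        (ext t pos (clsL t pos V Vg L0) F (B.erase d) S (Function.update α d x) : ℝ) /
          nom V m F B) ∅ x₀ =
        (h : ℝ) ^ 6 / nom V m F B * (∏ e ∈ E, qe e)⁻¹ *
          ((∑ α ∈ Fintype.piFinset V, ext t pos (clsL t pos V Vg L0) F (B.erase d) S
            (Function.update α d x) * ∏ e ∈ E, mm t pos (clsL t pos V Vg L0) e α : ℕ) : ℝ) /
          ∏ i : Fin v, ((V i).card : ℝ) := by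
      unfold Phi
      rw [hbox, hfil, hsum]
      simp
    rw [hPhi, hsw]
    have hX : ((ext t pos (clsL t pos V Vg L0) (F ∪ E) (Finset.univ.erase d)
        (fun i => if i ∈ B then S i else V i) (fun _ => x) : ℕ) : ℝ) ≤
        K₂ * ((h : ℝ) ^ (96 * v) / ((h : ℝ) ^ 96 * (h : ℝ) ^ (40 * (F.card + E.card)))) := by
      refine le_trans ?_ hc
      exact_mod_cast hle
    set X : ℝ := ((ext t pos (clsL t pos V Vg L0) (F ∪ E) (Finset.univ.erase d)
        (fun i => if i ∈ B then S i else V i) (fun _ => x) : ℕ) : ℝ) with hXdef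
    have hX0 : 0 ≤ X := by rw [hXdef]; positivity
    have hcast : (((∏ i ∈ B, (V i).card) * ext t pos (clsL t pos V Vg L0) (F ∪ E)
        (Finset.univ.erase d) (fun i => if i ∈ B then S i else V i) (fun _ => x) : ℕ) : ℝ) =
        (∏ i ∈ B, ((V i).card : ℝ)) * X := by
      rw [hXdef]; push_cast; ring
    rw [hcast, hnomeq]
    have hQE0 : 0 < ∏ e ∈ E, qe e := Finset.prod_pos fun e _ => hqe0 e
    rw [ITA_e1 _ _ _ _ _ _ hW0.ne' hQF0.ne' hQE0.ne' hPV0.ne']
    have hden : (κ ^ 4 / (h : ℝ) ^ 40) ^ F.card * (κ ^ 4 / (h : ℝ) ^ 40) ^ E.card *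
        (κ * (h : ℝ) ^ 96) ^ v ≤
        (∏ e ∈ F, qe e) * (∏ e ∈ E, qe e) * ∏ i : Fin v, ((V i).card : ℝ) :=
      mul_le_mul (mul_le_mul hQFlo hQElo (by positivity) hQF0.le) hPVlo (by positivity)
        (mul_pos hQF0 hQE0).le
    have hden0 : 0 < (κ ^ 4 / (h : ℝ) ^ 40) ^ F.card * (κ ^ 4 / (h : ℝ) ^ 40) ^ E.card *
        (κ * (h : ℝ) ^ 96) ^ v := by positivity
    have hdeneq : (κ ^ 4 / (h : ℝ) ^ 40) ^ F.card * (κ ^ 4 / (h : ℝ) ^ 40) ^ E.card *
        (κ * (h : ℝ) ^ 96) ^ v = κ ^ (4 * (F.card + E.card) + v) * (h : ℝ) ^ (96 * v) /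
          (h : ℝ) ^ (40 * (F.card + E.card)) := by
      rw [ITA_pw, ← pow_mul, ← pow_mul]
    calc (h : ℝ) ^ 6 * X / ((∏ e ∈ F, qe e) * (∏ e ∈ E, qe e) * ∏ i : Fin v, ((V i).card : ℝ))
        ≤ (h : ℝ) ^ 6 * (K₂ * ((h : ℝ) ^ (96 * v) /
            ((h : ℝ) ^ 96 * (h : ℝ) ^ (40 * (F.card + E.card))))) /
          ((κ ^ 4 / (h : ℝ) ^ 40) ^ F.card * (κ ^ 4 / (h : ℝ) ^ 40) ^ E.card *
            (κ * (h : ℝ) ^ 96) ^ v) :=
          div_le_div₀ (by positivity) (mul_le_mul_of_nonneg_left hX (by positivity)) hden0 hden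
      _ = K₂ / κ ^ (4 * (F.card + E.card) + v) * (h : ℝ) ^ 6 / (N : ℝ) := by
          rw [hdeneq, hNr]
          exact ITA_alg _ _ _ _ _ _ (by positivity) (by positivity) (by positivity)
            (by positivity)
      _ ≤ K₂ / κ ^ (8 * (v * v) + v) * (h : ℝ) ^ 6 / (N : ℝ) := by
          have h9 : κ ^ (8 * (v * v) + v) ≤ κ ^ (4 * (F.card + E.card) + v) :=
            pow_le_pow_of_le_one hκ0.le hκ1 (by omega)
          gcongr

end Pool.Agent.CUB
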