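import Pool.Agent.CUB.Defs

set_option autoImplicit false

/-!
# CUB.GQ

Proof by induction on `l`. `l = []`: equality. `l = (u,w) :: l'`: `w` does not occur in `l'`, `u ≠ w`
(so the edge is not in `l'`). Drop the degree conditions of the edge at `w` resp. `u` as needed.
If `i ≠ w`: sum over `x w` first: `∑_{x w} mm (u,w) x ≤ deg(x u) ≤ C m/|V u|`, the rest does not depend on
`x w`: total `≤ (C m/|V u|)(1/|V w|) · (bound for l')`. If `i = w`: `x w = a` is fixed;
`∑_b mm(b,a) · (1/|V w|) ∑_{x : x u = b} ∏_{l'} ≤ deg(a) (1/|V w|) · (bound for l' at u)`,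
`deg(a) ≤ C m/|V w|`.
-/

namespace Pool.Agent.CUB

open scoped Classical

private lemma GQ_upd {v N : ℕ} (V : Fin v → Finset (Fin N)) (z : Fin v)
    (F : (Fin v → Fin N) → ℝ) :
    ∑ x ∈ Fintype.piFinset V, ∑ b ∈ V z, F (Function.update x z b) =
      ((V z).card : ℝ) * ∑ x ∈ Fintype.piFinset V, F x := by
  rw [← Finset.sum_product', Finset.mul_sum]
  have h2 : ∑ x ∈ Fintype.piFinset V, ((V z).card : ℝ) * F x =
      ∑ p ∈ Fintype.piFinset V ×ˢ V z, F p.1 := by
    rw [Finset.sum_product]
    refine Finset.sum_congr rfl fun x _ => ?_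
    simp
  rw [h2]
  refine Finset.sum_nbij' (fun p => (Function.update p.1 z p.2, p.1 z))
    (fun p => (Function.update p.1 z p.2, p.1 z)) ?_ ?_ ?_ ?_ ?_
  · intro p hp
    rw [Finset.mem_product, Fintype.mem_piFinset] at hp
    rw [Finset.mem_product, Fintype.mem_piFinset]
    refine ⟨fun i => ?_, hp.1 z⟩
    by_cases hi : i = z
    · subst hi
      simpa using hp.2
    · simpa [Function.update_of_ne hi] using hp.1 i
  · intro p hp
    rw [Finset.mem_product, Fintype.mem_piFinset] at hp
    rw [Finset.mem_product, Fintype.mem_piFinset]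
    refine ⟨fun i => ?_, hp.1 z⟩
    by_cases hi : i = z
    · subst hi
      simpa using hp.2
    · simpa [Function.update_of_ne hi] using hp.1 i
  · intro p _
    simp
  · intro p _
    simp
  · intro p _
    rfl

theorem Fst.nodup {v : ℕ} (l : List (Fin v × Fin v)) (hl : Fst l) : l.Nodup := by
  induction l with
  | nil => exact List.nodup_nil
  | cons e l ih =>
    obtain ⟨_, h2, h3⟩ := hl
    rw [List.nodup_cons]
    refine ⟨fun h => (h2 e h).2 rfl, ih h3⟩

/-- restricted edge weight -/
private noncomputable def GQw {v N M : ℕ} (t : Fin M × Fin 4 → Fin N) (pos : Fin v → Fin 4)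
    (L : Fin v × Fin v → Finset (Fin M)) (V : Fin v → Finset (Fin N)) (m C : ℝ)
    (e : Fin v × Fin v) (x : Fin v → Fin N) : ℝ :=
  if (((L e).filter fun j => t (j, pos e.1) = x e.1).card : ℝ) ≤ C * m / ((V e.1).card : ℝ) ∧
        (((L e).filter fun j => t (j, pos e.2) = x e.2).card : ℝ) ≤ C * m / ((V e.2).card : ℝ)
  then (mm t pos L e x : ℝ) else 0

private lemma GQw_nonneg {v N M : ℕ} (t : Fin M × Fin 4 → Fin N) (pos : Fin v → Fin 4)
    (L : Fin v × Fin v → Finset (Fin M)) (V : Fin v → Finset (Fin N)) (m C : ℝ)
    (e : Fin v × Fin v) (x : Fin v → Fin N) : 0 ≤ GQw t pos L V m C e x := by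
  unfold GQw
  split_ifs
  · exact Nat.cast_nonneg _
  · exact le_rfl

private lemma GQw_congr {v N M : ℕ} (t : Fin M × Fin 4 → Fin N) (pos : Fin v → Fin 4)
    (L : Fin v × Fin v → Finset (Fin M)) (V : Fin v → Finset (Fin N)) (m C : ℝ)
    (e : Fin v × Fin v) {x y : Fin v → Fin N} (h1 : x e.1 = y e.1) (h2 : x e.2 = y e.2) :
    GQw t pos L V m C e x = GQw t pos L V m C e y := by
  unfold GQw mm
  rw [h1, h2]

private lemma GQ_cardsum {N M : ℕ} (A : Finset (Fin M)) (P : Fin M → Prop) (f : Fin M → Fin N)
    (B : Finset (Fin N)) (i1 : DecidablePred P) (i2 : ∀ b, DecidablePred fun j => P j ∧ f j = b) :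
    ∑ b ∈ B, (@Finset.filter _ (fun j => P j ∧ f j = b) (i2 b) A).card ≤
      (@Finset.filter _ P i1 A).card := by
  have h : ∀ b ∈ B, (@Finset.filter _ (fun j => P j ∧ f j = b) (i2 b) A).card =
      ((@Finset.filter _ P i1 A).filter fun j => f j = b).card := by
    intro b _
    congr 1
    ext j
    simp only [Finset.mem_filter]
    tauto
  rw [Finset.sum_congr rfl h]
  have h3 : ∑ b ∈ B, ((@Finset.filter _ P i1 A).filter fun j => f j = b).card ≤
      ∑ b, ((@Finset.filter _ P i1 A).filter fun j => f j = b).card :=
    Finset.sum_le_sum_of_subset (Finset.subset_univ _)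
  refine h3.trans ?_
  rw [← Finset.card_eq_sum_card_fiberwise (f := f) (t := Finset.univ) (fun _ _ => by simp)]

private lemma GQw_sum2 {v N M : ℕ} (t : Fin M × Fin 4 → Fin N) (pos : Fin v → Fin 4)
    (L : Fin v × Fin v → Finset (Fin M)) (V : Fin v → Finset (Fin N)) (m C : ℝ) (hm : 0 < m)
    (hC : 0 ≤ C) (e : Fin v × Fin v) (he : e.1 ≠ e.2) (x : Fin v → Fin N) :
    ∑ b ∈ V e.2, GQw t pos L V m C e (Function.update x e.2 b) ≤ C * m / ((V e.1).card : ℝ) := by
  by_cases hd : (((L e).filter fun j => t (j, pos e.1) = x e.1).card : ℝ) ≤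
      C * m / ((V e.1).card : ℝ)
  · have h1 : ∀ b ∈ V e.2, GQw t pos L V m C e (Function.update x e.2 b) ≤
        (((L e).filter fun j => t (j, pos e.1) = x e.1 ∧ t (j, pos e.2) = b).card : ℝ) := by
      intro b _
      unfold GQw mm
      rw [Function.update_self, Function.update_of_ne he]
      split_ifs
      · exact le_rfl
      · exact Nat.cast_nonneg _
    refine (Finset.sum_le_sum h1).trans ?_
    rw [← Nat.cast_sum]
    refine le_trans ?_ hd
    exact Nat.cast_le.mpr (GQ_cardsum (L e) (fun j => t (j, pos e.1) = x e.1)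
      (fun j => t (j, pos e.2)) (V e.2) _ _)
  · have h1 : ∀ b ∈ V e.2, GQw t pos L V m C e (Function.update x e.2 b) = 0 := by
      intro b _
      unfold GQw
      rw [if_neg]
      intro h
      apply hd
      have := h.1
      rw [Function.update_of_ne he] at this
      exact this
    rw [Finset.sum_eq_zero h1]
    positivity

private lemma GQw_sum1 {v N M : ℕ} (t : Fin M × Fin 4 → Fin N) (pos : Fin v → Fin 4)
    (L : Fin v × Fin v → Finset (Fin M)) (V : Fin v → Finset (Fin N)) (m C : ℝ) (hm : 0 < m)
    (hC : 0 ≤ C) (e : Fin v × Fin v) (he : e.1 ≠ e.2) (x : Fin v → Fin N) :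
    ∑ b ∈ V e.1, GQw t pos L V m C e (Function.update x e.1 b) ≤ C * m / ((V e.2).card : ℝ) := by
  by_cases hd : (((L e).filter fun j => t (j, pos e.2) = x e.2).card : ℝ) ≤
      C * m / ((V e.2).card : ℝ)
  · have h1 : ∀ b ∈ V e.1, GQw t pos L V m C e (Function.update x e.1 b) ≤
        (((L e).filter fun j => t (j, pos e.2) = x e.2 ∧ t (j, pos e.1) = b).card : ℝ) := by
      intro b _
      unfold GQw mm
      rw [Function.update_self, Function.update_of_ne he.symm]
      split_ifs
      · refine le_of_eq ?_
        congr 2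
        ext j
        simp only [Finset.mem_filter]
        tauto
      · exact Nat.cast_nonneg _
    refine (Finset.sum_le_sum h1).trans ?_
    rw [← Nat.cast_sum]
    refine le_trans ?_ hd
    exact Nat.cast_le.mpr (GQ_cardsum (L e) (fun j => t (j, pos e.2) = x e.2)
      (fun j => t (j, pos e.1)) (V e.1) _ _)
  · have h1 : ∀ b ∈ V e.1, GQw t pos L V m C e (Function.update x e.1 b) = 0 := by
      intro b _
      unfold GQw
      rw [if_neg]
      intro h
      apply hd
      have := h.2
      rw [Function.update_of_ne he.symm] at this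
      exact this
    rw [Finset.sum_eq_zero h1]
    positivity

private lemma GQ_main {v N M : ℕ} (t : Fin M × Fin 4 → Fin N) (pos : Fin v → Fin 4)
    (L : Fin v × Fin v → Finset (Fin M)) (V : Fin v → Finset (Fin N)) (m C : ℝ) (hm : 0 < m)
    (hC : 0 ≤ C) (hV : ∀ i, (V i).Nonempty) (l : List (Fin v × Fin v)) (hl : Fst l) :
    ∀ (i : Fin v) (a : Fin N), a ∈ V i →
    ∑ x ∈ Fintype.piFinset V, (if x i = a then 1 else 0) *
        (l.map fun e => GQw t pos L V m C e x).prod
      ≤ C ^ l.length * (((Fintype.piFinset V).card : ℝ) *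
          (l.map fun e => (m / (((V e.1).card : ℝ) * ((V e.2).card : ℝ)))).prod) /
            ((V i).card : ℝ) := by
  have hVpos : ∀ i, (0 : ℝ) < ((V i).card : ℝ) := fun i => by exact_mod_cast (hV i).card_pos
  induction l with
  | nil =>
    intro i a ha
    simp only [List.map_nil, List.prod_nil, mul_one, List.length_nil, pow_zero, one_mul]
    rw [le_div_iff₀ (hVpos i), mul_comm, ← GQ_upd V i (fun x => if x i = a then 1 else 0)]
    have h1 : ∀ x ∈ Fintype.piFinset V, ∑ b ∈ V i,
        (if (Function.update x i b) i = a then (1 : ℝ) else 0) = 1 := by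
      intro x _
      simp [ha]
    rw [Finset.sum_congr rfl h1]
    simp
  | cons e l ih =>
    obtain ⟨he, hl2, hl3⟩ := hl
    have ih' := ih hl3
    have hP : ∀ (x : Fin v → Fin N) (b : Fin N),
        (l.map fun e' => GQw t pos L V m C e' (Function.update x e.2 b)).prod =
        (l.map fun e' => GQw t pos L V m C e' x).prod := by
      intro x b
      congr 1
      refine List.map_congr_left fun e' he' => ?_
      exact GQw_congr t pos L V m C e' (Function.update_of_ne (hl2 e' he').1 _ _)
        (Function.update_of_ne (hl2 e' he').2 _ _)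
    have hPn : ∀ x : Fin v → Fin N, 0 ≤ (l.map fun e' => GQw t pos L V m C e' x).prod := by
      intro x
      refine List.prod_nonneg fun y hy => ?_
      rw [List.mem_map] at hy
      obtain ⟨e', _, rfl⟩ := hy
      exact GQw_nonneg t pos L V m C e' x
    intro i a ha
    by_cases hi : i = e.2
    · subst hi
      have h1 : ((V e.2).card : ℝ) * ∑ x ∈ Fintype.piFinset V, (if x e.2 = a then 1 else 0) *
          ((e :: l).map fun e' => GQw t pos L V m C e' x).prod ≤
          ∑ b ∈ V e.1, GQw t pos L V m C e (Function.update (fun _ => a) e.1 b) *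
            (C ^ l.length * (((Fintype.piFinset V).card : ℝ) *
          (l.map fun e => (m / (((V e.1).card : ℝ) * ((V e.2).card : ℝ)))).prod) /
            ((V e.1).card : ℝ)) := by
        rw [← GQ_upd V e.2 (fun x => (if x e.2 = a then 1 else 0) *
          ((e :: l).map fun e' => GQw t pos L V m C e' x).prod)]
        have h2 : ∀ x ∈ Fintype.piFinset V, ∑ b ∈ V e.2,
            (if (Function.update x e.2 b) e.2 = a then (1 : ℝ) else 0) *
            ((e :: l).map fun e' => GQw t pos L V m C e' (Function.update x e.2 b)).prod =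
            ∑ b ∈ V e.1, GQw t pos L V m C e (Function.update (fun _ => a) e.1 b) *
              ((if x e.1 = b then (1 : ℝ) else 0) *
                (l.map fun e' => GQw t pos L V m C e' x).prod) := by
          intro x hx
          rw [Fintype.mem_piFinset] at hx
          rw [Finset.sum_eq_single a]
          · rw [Finset.sum_eq_single (x e.1)]
            · rw [List.map_cons, List.prod_cons, hP]
              simp only [Function.update_self, if_true, one_mul]
              congr 1
              refine GQw_congr t pos L V m C e ?_ ?_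
              · rw [Function.update_of_ne he, Function.update_self]
              · rw [Function.update_self, Function.update_of_ne he.symm]
            · intro b _ hb
              rw [if_neg (Ne.symm hb), zero_mul, mul_zero]
            · intro h
              exact absurd (hx e.1) h
          · intro b _ hb
            rw [Function.update_self, if_neg hb, zero_mul]
          · intro h
            exact absurd ha h
        rw [Finset.sum_congr rfl h2, Finset.sum_comm]
        refine Finset.sum_le_sum fun b hb => ?_
        rw [← Finset.mul_sum]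
        exact mul_le_mul_of_nonneg_left (ih' e.1 b hb) (GQw_nonneg t pos L V m C e _)
      rw [← Finset.sum_mul] at h1
      have h3 := GQw_sum1 t pos L V m C hm hC e he (fun _ => a)
      have hb0 : 0 ≤ C ^ l.length * (((Fintype.piFinset V).card : ℝ) *
          (l.map fun e => (m / (((V e.1).card : ℝ) * ((V e.2).card : ℝ)))).prod) /
            ((V e.1).card : ℝ) := by
        have : 0 ≤ (l.map fun e => (m / (((V e.1).card : ℝ) * ((V e.2).card : ℝ)))).prod := by
          refine List.prod_nonneg fun y hy => ?_
          rw [List.mem_map] at hy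
          obtain ⟨e', _, rfl⟩ := hy
          positivity
        positivity
      have h4 := h1.trans (mul_le_mul_of_nonneg_right h3 hb0)
      rw [mul_comm, ← le_div_iff₀ (hVpos e.2)] at h4
      refine h4.trans (le_of_eq ?_)
      rw [List.map_cons, List.prod_cons, List.length_cons, pow_succ]
      have := (hVpos e.2).ne'
      have := (hVpos e.1).ne'
      field_simp
    · have h1 : ((V e.2).card : ℝ) * ∑ x ∈ Fintype.piFinset V, (if x i = a then 1 else 0) *
          ((e :: l).map fun e' => GQw t pos L V m C e' x).prod ≤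
          (C * m / ((V e.1).card : ℝ)) * (C ^ l.length * (((Fintype.piFinset V).card : ℝ) *
          (l.map fun e => (m / (((V e.1).card : ℝ) * ((V e.2).card : ℝ)))).prod) /
            ((V i).card : ℝ)) := by
        rw [← GQ_upd V e.2 (fun x => (if x i = a then 1 else 0) *
          ((e :: l).map fun e' => GQw t pos L V m C e' x).prod)]
        have h2 : ∀ x ∈ Fintype.piFinset V, ∑ b ∈ V e.2,
            (if (Function.update x e.2 b) i = a then (1 : ℝ) else 0) *
            ((e :: l).map fun e' => GQw t pos L V m C e' (Function.update x e.2 b)).prod ≤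
            (C * m / ((V e.1).card : ℝ)) * ((if x i = a then (1 : ℝ) else 0) *
                (l.map fun e' => GQw t pos L V m C e' x).prod) := by
          intro x _
          have h3 : ∀ b ∈ V e.2, (if (Function.update x e.2 b) i = a then (1 : ℝ) else 0) *
            ((e :: l).map fun e' => GQw t pos L V m C e' (Function.update x e.2 b)).prod =
            GQw t pos L V m C e (Function.update x e.2 b) * ((if x i = a then (1 : ℝ) else 0) *
                (l.map fun e' => GQw t pos L V m C e' x).prod) := by
            intro b _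
            rw [List.map_cons, List.prod_cons, hP, Function.update_of_ne hi]
            ring
          rw [Finset.sum_congr rfl h3, ← Finset.sum_mul]
          refine mul_le_mul_of_nonneg_right (GQw_sum2 t pos L V m C hm hC e he x) ?_
          refine mul_nonneg ?_ (hPn x)
          split_ifs <;> norm_num
        refine (Finset.sum_le_sum h2).trans ?_
        rw [← Finset.mul_sum]
        refine mul_le_mul_of_nonneg_left (ih' i a ha) ?_
        positivity
      rw [mul_comm, ← le_div_iff₀ (hVpos e.2)] at h1
      refine h1.trans (le_of_eq ?_)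
      rw [List.map_cons, List.prod_cons, List.length_cons, pow_succ]
      have := (hVpos e.2).ne'
      have := (hVpos e.1).ne'
      field_simp

/-- Weighted count of a forest through a given vertex, over assignments whose class degrees are at
most `C` times the nominal degree. -/
theorem gq {v N M : ℕ} (t : Fin M × Fin 4 → Fin N) (pos : Fin v → Fin 4)
    (L : Fin v × Fin v → Finset (Fin M)) (V : Fin v → Finset (Fin N)) (m C : ℝ) (hm : 0 < m)
    (hC : 0 ≤ C) (hV : ∀ i, (V i).Nonempty) (l : List (Fin v × Fin v)) (hl : Fst l) (i : Fin v)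
    (a : Fin N) (ha : a ∈ V i) :
    ((∑ x ∈ (Fintype.piFinset V).filter (fun x => x i = a ∧ ∀ e ∈ l,
        (((L e).filter fun j => t (j, pos e.1) = x e.1).card : ℝ) ≤ C * m / ((V e.1).card : ℝ) ∧
        (((L e).filter fun j => t (j, pos e.2) = x e.2).card : ℝ) ≤ C * m / ((V e.2).card : ℝ)),
        ∏ e ∈ l.toFinset, mm t pos L e x : ℕ) : ℝ)
      ≤ C ^ l.length * (((Fintype.piFinset V).card : ℝ) *
          ∏ e ∈ l.toFinset, (m / (((V e.1).card : ℝ) * ((V e.2).card : ℝ)))) / ((V i).card : ℝ) := by
  have hnd := Fst.nodup l hl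
  have h1 := GQ_main t pos L V m C hm hC hV l hl i a ha
  have h2 : ∏ e ∈ l.toFinset, (m / (((V e.1).card : ℝ) * ((V e.2).card : ℝ))) =
      (l.map fun e => (m / (((V e.1).card : ℝ) * ((V e.2).card : ℝ)))).prod :=
    List.prod_toFinset _ hnd
  rw [h2]
  refine le_trans (le_of_eq ?_) h1
  rw [Nat.cast_sum, Finset.sum_filter]
  refine Finset.sum_congr rfl fun x _ => ?_
  have h3 : (l.map fun e => GQw t pos L V m C e x).prod =
      ∏ e ∈ l.toFinset, GQw t pos L V m C e x := (List.prod_toFinset _ hnd).symm
  rw [h3]
  split_ifs with hA hB hB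
  · rw [one_mul, Nat.cast_prod]
    refine Finset.prod_congr rfl fun e he => ?_
    unfold GQw
    rw [if_pos (hA.2 e (List.mem_toFinset.1 he))]
  · exact absurd hA.1 hB
  · rw [one_mul]
    symm
    by_contra hne
    apply hA
    refine ⟨hB, fun e he => ?_⟩
    by_contra hc
    apply hne
    refine Finset.prod_eq_zero (List.mem_toFinset.2 he) ?_
    unfold GQw
    rw [if_neg hc]
  · rw [zero_mul]

end Pool.Agent.CUB
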