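import Pool.Agent.CUB.Defs2
import Pool.Agent.CUB.GQ

set_option autoImplicit false

/-!
# CUB.ITB

itb: `Phi .. ∅ x₀ = (∑_{α∈piFinset V} Y α ∏_{e∈E} mm e α)/nrm V m E`. Split according to `b = α d' ∈ V d'`
with `0 < pmul d d' x b`: at most `8h^56` values `b` (each is the `d'`-vertex of a block at `x`; if
`pos d = pos d'` the class is empty). For each `b`, `gq` with `C = 8/κ₁^4` (all class degrees are
`≤ 8h^56 ≤ C m/|V|` by `DEG`, since `m/|V| ≥ κ₁^4 M/N`) gives `≤ C^{|E|} nrm V m E/|V d'|`. So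
`Phi ≤ h^{-50} · 8h^56 · C^{|E|}/(κ₁N)`. phi_bad: direct.
-/

namespace Pool.Agent.CUB

open scoped Classical

private theorem ITB_phi {v N M : ℕ} (t : Fin M × Fin 4 → Fin N) (pos : Fin v → Fin 4)
    (L : Fin v × Fin v → Finset (Fin M)) (V : Fin v → Finset (Fin N)) (m : ℝ) (hm : 0 < m)
    (hV : ∀ i, (V i).Nonempty) (E : Finset (Fin v × Fin v)) (Y : (Fin v → Fin N) → ℝ)
    (x₀ : Fin v → Fin N) :
    Phi t pos L V m E Y ∅ x₀
      = (∑ α ∈ Fintype.piFinset V, Y α * ((∏ e ∈ E, mm t pos L e α : ℕ) : ℝ)) / nrm V m E := by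
  have hVp : ∀ i, (0 : ℝ) < ((V i).card : ℝ) := fun i => by
    exact_mod_cast Finset.card_pos.2 (hV i)
  unfold Phi
  have h1 : box (∅ : Finset (Fin v))ᶜ V x₀ = Fintype.piFinset V := by
    unfold box
    congr 1
    funext i
    simp
  have h2 : E.filter (fun e => ¬ (e.1 ∈ (∅ : Finset (Fin v)) ∧ e.2 ∈ (∅ : Finset (Fin v)))) = E := by
    apply Finset.filter_true_of_mem
    intro e _
    simp
  have h3 : ∏ i ∈ (∅ : Finset (Fin v))ᶜ, ((V i).card : ℝ) = ((Fintype.piFinset V).card : ℝ) := by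
    rw [Fintype.card_piFinset]
    push_cast
    simp
  rw [h1, h2, h3]
  have h4 : ∑ α ∈ Fintype.piFinset V, Y α * ∏ e ∈ E, ((mm t pos L e α : ℝ) *
      (((V e.1).card : ℝ) * ((V e.2).card : ℝ) / m))
      = (∑ α ∈ Fintype.piFinset V, Y α * ((∏ e ∈ E, mm t pos L e α : ℕ) : ℝ)) *
        ∏ e ∈ E, (((V e.1).card : ℝ) * ((V e.2).card : ℝ) / m) := by
    rw [Finset.sum_mul]
    apply Finset.sum_congr rfl
    intro α _
    rw [Finset.prod_mul_distrib]
    push_cast
    ring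
  rw [h4]
  unfold nrm
  have h5 : ∏ e ∈ E, (m / (((V e.1).card : ℝ) * ((V e.2).card : ℝ)))
      = (∏ e ∈ E, (((V e.1).card : ℝ) * ((V e.2).card : ℝ) / m))⁻¹ := by
    rw [← Finset.prod_inv_distrib]
    apply Finset.prod_congr rfl
    intro e _
    rw [inv_div]
  have h6 : (0 : ℝ) < ∏ e ∈ E, (((V e.1).card : ℝ) * ((V e.2).card : ℝ) / m) :=
    Finset.prod_pos (fun e _ => div_pos (mul_pos (hVp _) (hVp _)) hm)
  have h7 : (0 : ℝ) < ((Fintype.piFinset V).card : ℝ) := by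
    rw [Fintype.card_piFinset]
    push_cast
    exact Finset.prod_pos (fun i _ => hVp i)
  rw [h5]
  field_simp

/-- Bounds for the usage of the neighbourhood of a vertex by a forest. -/
theorem itb (v : ℕ) (pos : Fin v → Fin 4) (κ₁ : ℝ) (hκ : 0 < κ₁) :
    ∃ C₇ : ℝ, 0 < C₇ ∧ ∃ h₀ : ℕ, ∀ h ≥ h₀, ∀ N M : ℕ, N = h ^ 96 → M = h ^ 152 →
    ∀ t : Fin M × Fin 4 → Fin N, DEG h t →
    ∀ (V : Fin v → Finset (Fin N)) (Vg : Fin 4 → Finset (Fin N)) (nn : Fin 4 → ℕ)
      (L0 : Finset (Fin M)), Parts pos κ₁ V Vg nn →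
      ∀ (d d' : Fin v) (x : Fin N) (E : Finset (Fin v × Fin v)), Frst E →
        (∀ e ∈ E, pos e.1 ≠ pos e.2) → ∀ x₀ : Fin v → Fin N,
        Phi t pos (clsL t pos V Vg L0) V (msz N M nn) E (fun α =>
          if 0 < pmul t pos (clsL t pos V Vg L0) d d' x (α d') then 1 / (h : ℝ) ^ 50 else 0) ∅ x₀
          ≤ C₇ * (h : ℝ) ^ 6 / (N : ℝ) := by
  set C₁ : ℝ := max 1 (8 / κ₁ ^ 3) with hC₁
  have hC₁1 : 1 ≤ C₁ := le_max_left _ _
  have hC₁2 : 8 / κ₁ ^ 3 ≤ C₁ := le_max_right _ _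
  have hC₁0 : 0 < C₁ := by linarith
  refine ⟨8 * C₁ ^ (v * v) / κ₁, by positivity, 1, ?_⟩
  intro h hh N M hN hM t hDEG V Vg nn L0 hP d d' x E hE hpos x₀
  have hh0 : (0 : ℝ) < (h : ℝ) := by exact_mod_cast (show 0 < h by omega)
  have hNr : (N : ℝ) = (h : ℝ) ^ 96 := by rw [hN]; push_cast; rfl
  have hMr : (M : ℝ) = (h : ℝ) ^ 152 := by rw [hM]; push_cast; rfl
  have hNp : (0 : ℝ) < (N : ℝ) := by rw [hNr]; positivity
  have hMp : (0 : ℝ) < (M : ℝ) := by rw [hMr]; positivity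
  have hnn : ∀ a, 0 < (nn a : ℝ) := fun a => lt_of_lt_of_le (mul_pos hκ hNp) (hP.big a)
  have hm : 0 < msz N M nn := by
    unfold msz
    exact mul_pos hMp (Finset.prod_pos (fun a _ => div_pos (hnn a) hNp))
  have hV : ∀ i, (V i).Nonempty := by
    intro i
    rw [← Finset.card_pos, hP.cV i]
    exact_mod_cast hnn (pos i)
  have hdeg : ∀ a : Fin 4, 8 * (h : ℝ) ^ 56 ≤ C₁ * msz N M nn / (nn a : ℝ) := by
    intro a
    have h1 : κ₁ ^ 3 ≤ ∏ b ∈ Finset.univ.erase a, ((nn b : ℝ) / (N : ℝ)) := by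
      have h2 : (Finset.univ.erase a : Finset (Fin 4)).card = 3 := by
        rw [Finset.card_erase_of_mem (Finset.mem_univ a), Finset.card_univ, Fintype.card_fin]
      calc κ₁ ^ 3 = ∏ _b ∈ Finset.univ.erase a, κ₁ := by rw [Finset.prod_const, h2]
        _ ≤ _ := Finset.prod_le_prod (fun _ _ => hκ.le) (fun b _ => by
            rw [le_div_iff₀ hNp]
            exact hP.big b)
    have h3 : msz N M nn = (M : ℝ) * (((nn a : ℝ) / (N : ℝ)) *
        ∏ b ∈ Finset.univ.erase a, ((nn b : ℝ) / (N : ℝ))) := by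
      unfold msz
      rw [Finset.mul_prod_erase Finset.univ (fun b => (nn b : ℝ) / (N : ℝ)) (Finset.mem_univ a)]
    have h4 : (M : ℝ) / (N : ℝ) = (h : ℝ) ^ 56 := by
      rw [hMr, hNr, div_eq_iff (by positivity)]
      ring
    have h5 : C₁ * msz N M nn / (nn a : ℝ) = C₁ * ((M : ℝ) / (N : ℝ) *
        ∏ b ∈ Finset.univ.erase a, ((nn b : ℝ) / (N : ℝ))) := by
      rw [h3]
      have := (hnn a).ne'
      field_simp
    rw [h5, h4]
    have hκ3 : 0 < κ₁ ^ 3 := by positivity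
    have h6 : 8 ≤ C₁ * κ₁ ^ 3 := by
      have := mul_le_mul_of_nonneg_right hC₁2 hκ3.le
      rwa [div_mul_cancel₀ _ hκ3.ne'] at this
    have h56 : 0 < (h : ℝ) ^ 56 := by positivity
    calc 8 * (h : ℝ) ^ 56 ≤ (C₁ * κ₁ ^ 3) * (h : ℝ) ^ 56 :=
          mul_le_mul_of_nonneg_right h6 h56.le
      _ = C₁ * ((h : ℝ) ^ 56 * κ₁ ^ 3) := by ring
      _ ≤ _ := mul_le_mul_of_nonneg_left (mul_le_mul_of_nonneg_left h1 h56.le) hC₁0.le
  set L := clsL t pos V Vg L0 with hL
  rw [ITB_phi t pos L V (msz N M nn) hm hV E _ x₀]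
  obtain ⟨l, hlE, hlF⟩ := hE
  set m := msz N M nn with hmdef
  have hnrm : 0 < nrm V m E := by
    unfold nrm
    apply mul_pos
    · rw [Fintype.card_piFinset]
      push_cast
      exact Finset.prod_pos (fun i _ => by exact_mod_cast Finset.card_pos.2 (hV i))
    · exact Finset.prod_pos (fun e _ => div_pos hm (mul_pos
        (by exact_mod_cast Finset.card_pos.2 (hV e.1)) (by exact_mod_cast Finset.card_pos.2 (hV e.2))))
  have hdegL : ∀ (e : Fin v × Fin v) (i : Fin v) (y : Fin N),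
      (((L e).filter fun j => t (j, pos i) = y).card : ℝ) ≤ C₁ * m / ((V i).card : ℝ) := by
    intro e i y
    have h1 : ((L e).filter fun j => t (j, pos i) = y).card
        ≤ ((Finset.univ : Finset (Fin M)).filter fun j => t (j, pos i) = y).card :=
      Finset.card_le_card (Finset.filter_subset_filter _ (Finset.subset_univ _))
    have h2 := hDEG (pos i) y
    have h3 : (((L e).filter fun j => t (j, pos i) = y).card : ℝ) ≤ 8 * (h : ℝ) ^ 56 := by
      exact_mod_cast h1.trans h2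
    rw [hP.cV i]
    exact h3.trans (hdeg (pos i))
  have hlen : l.length ≤ v * v := by
    have h1 := Fst.nodup l hlF
    have h2 : l.toFinset.card = l.length := List.toFinset_card_of_nodup h1
    rw [← h2]
    calc l.toFinset.card ≤ (Finset.univ : Finset (Fin v × Fin v)).card :=
          Finset.card_le_card (Finset.subset_univ _)
      _ = v * v := by rw [Finset.card_univ, Fintype.card_prod, Fintype.card_fin]
  set Bs := (V d').filter (fun b => 0 < pmul t pos L d d' x b) with hBs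
  have hBc : (Bs.card : ℝ) ≤ 8 * (h : ℝ) ^ 56 := by
    have h1 : Bs ⊆ ((Finset.univ : Finset (Fin M)).filter fun i => t (i, pos d) = x).image
        (fun i => t (i, pos d')) := by
      intro b hb
      have hb2 := (Finset.mem_filter.1 hb).2
      unfold pmul at hb2
      obtain ⟨i, hi⟩ := Finset.card_pos.1 hb2
      obtain ⟨_, hi1, hi2⟩ := Finset.mem_filter.1 hi
      exact Finset.mem_image.2 ⟨i, Finset.mem_filter.2 ⟨Finset.mem_univ _, hi1⟩, hi2⟩
    have h2 : Bs.card ≤ 8 * h ^ 56 :=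
      (Finset.card_le_card h1).trans (Finset.card_image_le.trans (hDEG (pos d) x))
    exact_mod_cast h2
  have hgq : ∀ b ∈ Bs, ((∑ α ∈ (Fintype.piFinset V).filter (fun α => α d' = b),
      ∏ e ∈ E, mm t pos L e α : ℕ) : ℝ) ≤ C₁ ^ (v * v) * nrm V m E / ((V d').card : ℝ) := by
    intro b hb
    have hbV : b ∈ V d' := (Finset.mem_filter.1 hb).1
    have h1 := gq t pos L V m C₁ hm hC₁0.le hV l hlF d' b hbV
    have h2 : (Fintype.piFinset V).filter (fun x => x d' = b ∧ ∀ e ∈ l,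
        (((L e).filter fun j => t (j, pos e.1) = x e.1).card : ℝ) ≤ C₁ * m / ((V e.1).card : ℝ) ∧
        (((L e).filter fun j => t (j, pos e.2) = x e.2).card : ℝ) ≤ C₁ * m / ((V e.2).card : ℝ))
        = (Fintype.piFinset V).filter (fun α => α d' = b) := by
      apply Finset.filter_congr
      intro α _
      constructor
      · exact fun h => h.1
      · exact fun h => ⟨h, fun e _ => ⟨hdegL e e.1 _, hdegL e e.2 _⟩⟩
    rw [h2, hlE] at h1
    refine h1.trans ?_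
    have hc : (0 : ℝ) ≤ ((V d').card : ℝ) := Nat.cast_nonneg _
    apply div_le_div_of_nonneg_right _ hc
    exact mul_le_mul_of_nonneg_right (pow_le_pow_right₀ hC₁1 hlen) hnrm.le
  have hsum : ∑ α ∈ Fintype.piFinset V,
      (if 0 < pmul t pos L d d' x (α d') then 1 / (h : ℝ) ^ 50 else 0) *
        ((∏ e ∈ E, mm t pos L e α : ℕ) : ℝ)
      = 1 / (h : ℝ) ^ 50 * ∑ b ∈ Bs, ((∑ α ∈ (Fintype.piFinset V).filter (fun α => α d' = b),
        ∏ e ∈ E, mm t pos L e α : ℕ) : ℝ) := by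
    have h1 : ∑ α ∈ Fintype.piFinset V,
      (if 0 < pmul t pos L d d' x (α d') then 1 / (h : ℝ) ^ 50 else 0) *
        ((∏ e ∈ E, mm t pos L e α : ℕ) : ℝ)
        = ∑ α ∈ (Fintype.piFinset V).filter (fun α => 0 < pmul t pos L d d' x (α d')),
          1 / (h : ℝ) ^ 50 * ((∏ e ∈ E, mm t pos L e α : ℕ) : ℝ) := by
      rw [Finset.sum_filter]
      apply Finset.sum_congr rfl
      intro α _
      split_ifs
      · rfl
      · rw [zero_mul]
    rw [h1, ← Finset.mul_sum]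
    congr 1
    rw [← Finset.sum_fiberwise_of_maps_to (s := (Fintype.piFinset V).filter
      (fun α => 0 < pmul t pos L d d' x (α d'))) (t := Bs) (g := fun α => α d')]
    · apply Finset.sum_congr rfl
      intro b hb
      rw [Nat.cast_sum]
      apply Finset.sum_congr _ (fun _ _ => rfl)
      ext α
      simp only [Finset.mem_filter]
      constructor
      · rintro ⟨⟨h1, _⟩, h2⟩
        exact ⟨h1, h2⟩
      · rintro ⟨h1, h2⟩
        refine ⟨⟨h1, ?_⟩, h2⟩
        rw [h2]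
        exact (Finset.mem_filter.1 hb).2
    · intro α hα
      obtain ⟨h1, h2⟩ := Finset.mem_filter.1 hα
      exact Finset.mem_filter.2 ⟨Fintype.mem_piFinset.1 h1 d', h2⟩
  rw [hsum, div_le_iff₀ hnrm]
  have hVd : (0 : ℝ) < ((V d').card : ℝ) := by exact_mod_cast Finset.card_pos.2 (hV d')
  have hVd2 : κ₁ * (N : ℝ) ≤ ((V d').card : ℝ) := by
    rw [hP.cV d']
    exact hP.big (pos d')
  have h50 : 0 < (h : ℝ) ^ 50 := by positivity
  calc 1 / (h : ℝ) ^ 50 * ∑ b ∈ Bs, ((∑ α ∈ (Fintype.piFinset V).filter (fun α => α d' = b),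
        ∏ e ∈ E, mm t pos L e α : ℕ) : ℝ)
      ≤ 1 / (h : ℝ) ^ 50 * ∑ _b ∈ Bs, C₁ ^ (v * v) * nrm V m E / ((V d').card : ℝ) :=
        mul_le_mul_of_nonneg_left (Finset.sum_le_sum hgq) (by positivity)
    _ = 1 / (h : ℝ) ^ 50 * ((Bs.card : ℝ) * (C₁ ^ (v * v) * nrm V m E / ((V d').card : ℝ))) := by
        rw [Finset.sum_const, nsmul_eq_mul]
    _ ≤ 1 / (h : ℝ) ^ 50 * ((8 * (h : ℝ) ^ 56) * (C₁ ^ (v * v) * nrm V m E / (κ₁ * (N : ℝ)))) := by
        apply mul_le_mul_of_nonneg_left _ (by positivity)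
        apply mul_le_mul hBc _ (by positivity) (by positivity)
        apply div_le_div_of_nonneg_left (by positivity) (by positivity) hVd2
    _ = 8 * C₁ ^ (v * v) / κ₁ * (h : ℝ) ^ 6 / (N : ℝ) * nrm V m E := by
        field_simp

/-- Initial value of an indicator item. -/
theorem phi_bad {v N M : ℕ} (t : Fin M × Fin 4 → Fin N) (pos : Fin v → Fin 4)
    (L : Fin v × Fin v → Finset (Fin M)) (V : Fin v → Finset (Fin N)) (m : ℝ) (hm : 0 < m)
    (hV : ∀ i, (V i).Nonempty) (E : Finset (Fin v × Fin v)) (P : (Fin v → Fin N) → Prop) (ε₄ : ℝ)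
    (h : ((∑ x ∈ (Fintype.piFinset V).filter P, ∏ e ∈ E, mm t pos L e x : ℕ) : ℝ) ≤ ε₄ * nrm V m E)
    (x₀ : Fin v → Fin N) :
    Phi t pos L V m E (fun α => if P α then 1 else 0) ∅ x₀ ≤ ε₄ := by
  rw [ITB_phi t pos L V m hm hV E _ x₀]
  have hnrm : 0 < nrm V m E := by
    unfold nrm
    apply mul_pos
    · rw [Fintype.card_piFinset]
      push_cast
      exact Finset.prod_pos (fun i _ => by exact_mod_cast Finset.card_pos.2 (hV i))
    · exact Finset.prod_pos (fun e _ => div_pos hm (mul_pos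
        (by exact_mod_cast Finset.card_pos.2 (hV e.1)) (by exact_mod_cast Finset.card_pos.2 (hV e.2))))
  rw [div_le_iff₀ hnrm]
  refine le_trans (le_of_eq ?_) h
  rw [Nat.cast_sum, Finset.sum_filter]
  apply Finset.sum_congr rfl
  intro α _
  split_ifs
  · rw [one_mul]
  · rw [zero_mul]

end Pool.Agent.CUB
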