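import Pool.Agent.CUB.WEMG
import Pool.Agent.CUB.ITA
import Pool.Agent.CUB.ITB

set_option autoImplicit false

/-!
# CUB.EIA

Proof. `C = max (16/c₀) 4`, `Kb = 200 C`, `Jb = 200`, `μ₀ = c₆ h^6`, `L = clsL ..`, `m = msz`. Apply `wemg` with
b-items `β = Fin q ⊕ Fin n`: piece `i`: `A i`, `Yb α = 1[ext t pos L (F i) (B i) S α < c nom]`, initial value
`≤ ε₄` by `PG` (1) and `phi_bad` (`E = edg ty par (A i)`, `Frst` by `frst_edg`; ends not in `B i` by `BA`);
vertex `j` with `par j ≠ j`: `anc (par j)`, `Yb α = 1[#{i ∈ L (ty (par j), ty j) : t (i, pos (ty (par j))) =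
α (ty (par j))} < c₀ m/|V (ty (par j))|]`, initial value `≤ ε₄` by `PG` (2) (`anc_child`); root `j`: `∅`, `0`.
`Kb^{≤100} ε₄ < 1` by `h4`. At most `150 + 50` b-items contain a vertex (`A_cnt`, `anc_cnt`, `anc_mono`).
Meters `μ = (Fin v × Fin N) ⊕ (Fin v × Fin N × Fin v)`, items `ι = Fin q ⊕ Fin n`:
kind 1, `(d,x)`: for `i` with `d ∈ B i`, `x ∈ S d`: `A i` and
`Y α = h^6 ext t pos L (F i) ((B i).erase d) S (update α d x)/nom` (`≤ 1` and initial value `≤ C₇h^6/N` by
`ita`), all other items trivial (`∅`, `0`); disjoint by `A_disj`.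
kind 2, `(d,x,d')`: for `j` with `ty j = d'`: `anc j` and `Y α = h^{-50} 1[0 < pmul d d' x (α d')]` (initial value
`≤ C₇h^6/N` by `itb`); other items trivial; disjoint by `anc_disj`.
`∑ C^{≤100} Φ ≤ max(n,q) C^{100} C₇ h^6/N ≤ c₈ C^{100} C₇ h^6 ≤ μ₀` for small `c₈`; `|μ| ≤ (v + v²) N ≤ exp(μ₀)`
for `h ≥ h₀`. Dependence (`hYbd`, `hYd`): the ends of `F i` lie in `B i ∪ ty '' A i` (`FA`).
Availability: root `j`: `Av = V (ty j) \ {φ i : i < j}`, `|Av| ≥ |V| - n ≥ |V|/2`. Child `j`, `p = par j < j`: the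
b-item of `j` is complete, so `φ p` has class degree `≥ c₀ m/|V (ty p)|` in `L (ty p, ty j)`; by `MUL` at least
`(c₀/4) m/|V|` vertices `y ∈ V (ty j)` have `0 < pmul`; the meter `(ty p, φ p, ty j)` of kind 2 shows that at
most `3 c₆ h^56 ≤ (c₀/8) κ₁^4 h^56 ≤ (c₀/8) m/|V|` of them are used by `i < j`, `ty i = ty j` (those items are
complete: `anc i ≤ i < j`). So `|Av| ≥ (c₀/8) m/|V|`, `2 m/|V| ≤ C |Av|`.
Output of `wemg` at time `n`: all items complete.
-/

namespace Pool.Agent.CUB

open scoped Classical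

private theorem EIA_exp (v : ℕ) (c : ℝ) (hc : 0 < c) :
    ∃ h1 : ℕ, ∀ h ≥ h1, ((v : ℝ) + v * v) * (h : ℝ) ^ 96 ≤ Real.exp (c * (h : ℝ) ^ 6) := by
  obtain ⟨h1, hh1⟩ := exists_nat_ge (((v : ℝ) + v * v) * ((17 : ℕ).factorial : ℝ) / c ^ 17)
  refine ⟨max h1 1, fun h hh => ?_⟩
  have h2 : (h1 : ℝ) ≤ (h : ℝ) := by exact_mod_cast (le_max_left _ _).trans hh
  have h3 : (1 : ℝ) ≤ (h : ℝ) := by exact_mod_cast (le_max_right _ _).trans hh
  have h4 : (h : ℝ) ≤ (h : ℝ) ^ 6 := le_self_pow₀ h3 (by norm_num)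
  have h5 := (hh1.trans h2).trans h4
  have hc17 : 0 < c ^ 17 := by positivity
  rw [div_le_iff₀ hc17] at h5
  have h6 := Real.pow_div_factorial_le_exp (c * (h : ℝ) ^ 6) (by positivity) 17
  refine le_trans ?_ h6
  have hf : (0 : ℝ) < ((17 : ℕ).factorial : ℝ) := by exact_mod_cast Nat.factorial_pos 17
  rw [le_div_iff₀ hf]
  have h7 : (0 : ℝ) ≤ (h : ℝ) ^ 96 := by positivity
  calc ((v : ℝ) + v * v) * (h : ℝ) ^ 96 * ((17 : ℕ).factorial : ℝ)
      = (((v : ℝ) + v * v) * ((17 : ℕ).factorial : ℝ)) * (h : ℝ) ^ 96 := by ring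
    _ ≤ ((h : ℝ) ^ 6 * c ^ 17) * (h : ℝ) ^ 96 := mul_le_mul_of_nonneg_right h5 h7
    _ = (c * (h : ℝ) ^ 6) ^ 17 := by ring

private theorem EIA_ext_congr {v N M : ℕ} (t : Fin M × Fin 4 → Fin N) (pos : Fin v → Fin 4)
    (L : Fin v × Fin v → Finset (Fin M)) (F : Finset (Fin v × Fin v)) (B : Finset (Fin v))
    (S : Fin v → Finset (Fin N)) (x x' : Fin v → Fin N)
    (h : ∀ e ∈ F, (e.1 ∈ B ∨ x e.1 = x' e.1) ∧ (e.2 ∈ B ∨ x e.2 = x' e.2)) :
    ext t pos L F B S x = ext t pos L F B S x' := by
  unfold ext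
  have hbox : ∀ (z y : Fin v → Fin N), y ∈ box B S z ↔
      ∀ d, (d ∈ B → y d ∈ S d) ∧ (d ∉ B → y d = z d) := by
    intro z y
    unfold box
    rw [Fintype.mem_piFinset]
    constructor
    · intro hy d
      have := hy d
      constructor
      · intro hd; rw [if_pos hd] at this; exact this
      · intro hd; rw [if_neg hd] at this; exact Finset.mem_singleton.mp this
    · intro hy d
      by_cases hd : d ∈ B
      · rw [if_pos hd]; exact (hy d).1 hd
      · rw [if_neg hd]; exact Finset.mem_singleton.mpr ((hy d).2 hd)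
  refine Finset.sum_nbij' (fun y d => if d ∈ B then y d else x' d)
    (fun y d => if d ∈ B then y d else x d) ?_ ?_ ?_ ?_ ?_
  · intro y hy
    rw [hbox] at hy ⊢
    intro d
    constructor
    · intro hd; simp only [if_pos hd]; exact (hy d).1 hd
    · intro hd; simp only [if_neg hd]
  · intro y hy
    rw [hbox] at hy ⊢
    intro d
    constructor
    · intro hd; simp only [if_pos hd]; exact (hy d).1 hd
    · intro hd; simp only [if_neg hd]
  · intro y hy
    rw [hbox] at hy
    funext d
    by_cases hd : d ∈ B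
    · simp only [if_pos hd]
    · simp only [if_neg hd]; exact ((hy d).2 hd).symm
  · intro y hy
    rw [hbox] at hy
    funext d
    by_cases hd : d ∈ B
    · simp only [if_pos hd]
    · simp only [if_neg hd]; exact ((hy d).2 hd).symm
  · intro y hy
    rw [hbox] at hy
    refine Finset.prod_congr rfl fun e he => ?_
    have key : ∀ d, (d ∈ B ∨ x d = x' d) → (if d ∈ B then y d else x' d) = y d := by
      intro d hd
      by_cases hdB : d ∈ B
      · rw [if_pos hdB]
      · rw [if_neg hdB]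
        rcases hd with hd | hd
        · exact absurd hd hdB
        · rw [← hd]; exact ((hy d).2 hdB).symm
    have k1 := key e.1 (h e he).1
    have k2 := key e.2 (h e he).2
    unfold mm
    beta_reduce
    rw [k1, k2]

private theorem EIA_Phi_zero {v N M : ℕ} (t : Fin M × Fin 4 → Fin N) (pos : Fin v → Fin 4)
    (L : Fin v × Fin v → Finset (Fin M)) (V : Fin v → Finset (Fin N)) (m : ℝ)
    (l : Finset (Fin v × Fin v)) (S : Finset (Fin v)) (x : Fin v → Fin N) :
    Phi t pos L V m l (fun _ => 0) S x = 0 := by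
  unfold Phi
  simp

private theorem EIA_avail {v N M : ℕ} (t : Fin M × Fin 4 → Fin N) (pos : Fin v → Fin 4)
    (V : Fin v → Finset (Fin N)) (Vg : Fin 4 → Finset (Fin N)) (L0 : Finset (Fin M))
    (hMUL : MUL t) (d d' : Fin v) (hpos : pos d ≠ pos d') (a : Fin N) :
    ((clsL t pos V Vg L0 (d, d')).filter fun i => t (i, pos d) = a).card
      ≤ 4 * ((V d').filter (fun y => 0 < pmul t pos (clsL t pos V Vg L0) d d' a y)).card := by
  refine Finset.card_le_mul_card_image_of_maps_to (f := fun i => t (i, pos d')) ?_ 4 ?_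
  · intro i hi
    rw [Finset.mem_filter] at hi ⊢
    obtain ⟨hi1, hi2⟩ := hi
    refine ⟨?_, ?_⟩
    · have h1 := hi1
      unfold clsL at h1
      rw [if_neg hpos] at h1
      have h2 := (Finset.mem_filter.mp h1).2 (pos d')
      rw [if_neg (fun h => hpos h.symm), if_pos rfl] at h2
      exact h2
    · unfold pmul
      exact Finset.card_pos.mpr ⟨i, Finset.mem_filter.mpr ⟨hi1, hi2, rfl⟩⟩
  · intro y _
    refine le_trans (Finset.card_le_card ?_) (hMUL (pos d) (pos d') hpos a y)
    intro i hi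
    rw [Finset.mem_filter, Finset.mem_filter] at hi
    exact Finset.mem_filter.mpr ⟨Finset.mem_univ _, hi.1.2, hi.2⟩

private def EIA_Ab {n q : ℕ} (par : Fin n → Fin n) (anc : Fin n → Finset (Fin n))
    (A : Fin q → Finset (Fin n)) : Fin q ⊕ Fin n → Finset (Fin n)
  | Sum.inl i => A i
  | Sum.inr j => if par j = j then ∅ else anc (par j)

private noncomputable def EIA_Yb {v N M n q : ℕ} (t : Fin M × Fin 4 → Fin N)
    (pos : Fin v → Fin 4) (L : Fin v × Fin v → Finset (Fin M)) (V : Fin v → Finset (Fin N))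
    (S : Fin v → Finset (Fin N)) (m c c₀ : ℝ)
    (ty : Fin n → Fin v) (par : Fin n → Fin n) (F : Fin q → Finset (Fin v × Fin v))
    (B : Fin q → Finset (Fin v)) : Fin q ⊕ Fin n → (Fin v → Fin N) → ℝ
  | Sum.inl i => fun α => if (ext t pos L (F i) (B i) S α : ℝ) < c * nom V m (F i) (B i) then 1
      else 0
  | Sum.inr j => fun α => if par j = j then 0 else
      if (((L (ty (par j), ty j)).filter fun i => t (i, pos (ty (par j))) = α (ty (par j))).card : ℝ)
        < c₀ * m / ((V (ty (par j))).card : ℝ) then 1 else 0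

private def EIA_A {v N n q : ℕ} (S : Fin v → Finset (Fin N)) (ty : Fin n → Fin v)
    (anc : Fin n → Finset (Fin n)) (B : Fin q → Finset (Fin v)) (A : Fin q → Finset (Fin n)) :
    (Fin v × Fin N) ⊕ (Fin v × Fin N × Fin v) → Fin q ⊕ Fin n → Finset (Fin n)
  | Sum.inl p, Sum.inl i => if p.1 ∈ B i ∧ p.2 ∈ S p.1 then A i else ∅
  | Sum.inl _, Sum.inr _ => ∅
  | Sum.inr _, Sum.inl _ => ∅
  | Sum.inr p, Sum.inr j => if ty j = p.2.2 then anc j else ∅

private noncomputable def EIA_Y {v N M n q : ℕ} (t : Fin M × Fin 4 → Fin N)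
    (pos : Fin v → Fin 4) (L : Fin v × Fin v → Finset (Fin M)) (V : Fin v → Finset (Fin N))
    (S : Fin v → Finset (Fin N)) (m : ℝ) (h : ℕ)
    (ty : Fin n → Fin v) (F : Fin q → Finset (Fin v × Fin v))
    (B : Fin q → Finset (Fin v)) :
    (Fin v × Fin N) ⊕ (Fin v × Fin N × Fin v) → Fin q ⊕ Fin n → (Fin v → Fin N) → ℝ
  | Sum.inl p, Sum.inl i => fun α => if p.1 ∈ B i ∧ p.2 ∈ S p.1 then (h : ℝ) ^ 6 *
      (ext t pos L (F i) ((B i).erase p.1) S (Function.update α p.1 p.2) : ℝ) /
        nom V m (F i) (B i) else 0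
  | Sum.inl _, Sum.inr _ => fun _ => 0
  | Sum.inr _, Sum.inl _ => fun _ => 0
  | Sum.inr p, Sum.inr j => fun α => if ty j = p.2.2 then
      (if 0 < pmul t pos L p.1 p.2.2 p.2.1 (α p.2.2) then 1 / (h : ℝ) ^ 50 else 0) else 0

/-- Embedding of the forest part of an instance, with good roots for all pieces and controlled
usage. -/
theorem eia (v : ℕ) (pos : Fin v → Fin 4) (c₀ c ε₄ κ₁ K₂ εin c₆ : ℝ) (hc₀ : 0 < c₀) (hc : 0 < c)
    (hε₄ : 0 < ε₄) (hκ : 0 < κ₁) (hK₂ : 0 < K₂) (hεin : 0 < εin) (hc₆ : 0 < c₆)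
    (h4 : (200 * max (16 / c₀) 4) ^ 100 * ε₄ < 1) (h6 : 24 * c₆ ≤ c₀ * κ₁ ^ 4) :
    ∃ c₈ : ℝ, 0 < c₈ ∧ ∃ h₀ : ℕ, ∀ h ≥ h₀, ∀ N M : ℕ, N = h ^ 96 → M = h ^ 152 →
    ∀ t : Fin M × Fin 4 → Fin N, CR h t pos → MUL t → DEG h t → PG t pos c₀ εin c ε₄ κ₁ →
    ∀ (V : Fin v → Finset (Fin N)) (Vg : Fin 4 → Finset (Fin N)) (nn : Fin 4 → ℕ)
      (L0 : Finset (Fin M)) (S : Fin v → Finset (Fin N)), Parts pos κ₁ V Vg nn →
      Dense t pos (clsL t pos V Vg L0) V (msz N M nn) (allE pos) εin c₀ →
      (∀ i, S i ⊆ V i) → (∀ i, (V i).card ≤ 2 * (S i).card) →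
      (∀ i, ∀ x ∈ S i, ∀ F : Finset (Fin v × Fin v), PosD pos F → ∀ ρ : Fin v → Fin N, ρ i = x →
          (Gcnt t pos F (Finset.univ.erase i) ρ : ℝ)
            ≤ K₂ * ((h : ℝ) ^ (96 * v) / ((h : ℝ) ^ 96 * (h : ℝ) ^ (40 * F.card)))) →
      ∀ (n q : ℕ) (ty : Fin n → Fin v) (par : Fin n → Fin n) (anc : Fin n → Finset (Fin n))
        (F : Fin q → Finset (Fin v × Fin v)) (B : Fin q → Finset (Fin v))
        (A : Fin q → Finset (Fin n)), Inst pos ty par anc F B A →
        (n : ℝ) ≤ c₈ * (N : ℝ) → (q : ℝ) ≤ c₈ * (N : ℝ) → ∀ x₀ : Fin v → Fin N,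
        ∃ φ : Fin n → Fin N, (∀ j, φ j ∈ V (ty j)) ∧
          (∀ j, par j ≠ j →
            0 < pmul t pos (clsL t pos V Vg L0) (ty (par j)) (ty j) (φ (par j)) (φ j)) ∧
          (∀ j j', j ≠ j' → ty j = ty j' → φ j ≠ φ j') ∧
          (∀ i, c * nom V (msz N M nn) (F i) (B i)
            ≤ (ext t pos (clsL t pos V Vg L0) (F i) (B i) S (asg ty (A i) φ x₀) : ℝ)) ∧
          (∀ i, ∀ d ∈ B i, ∀ x ∈ S d, (h : ℝ) ^ 6 *
            (ext t pos (clsL t pos V Vg L0) (F i) ((B i).erase d) S
              (Function.update (asg ty (A i) φ x₀) d x) : ℝ) ≤ nom V (msz N M nn) (F i) (B i)) ∧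
          (∀ d, ∀ x ∈ S d, ∑ i ∈ Finset.univ.filter (fun i : Fin q => d ∈ B i), (h : ℝ) ^ 6 *
            (ext t pos (clsL t pos V Vg L0) (F i) ((B i).erase d) S
              (Function.update (asg ty (A i) φ x₀) d x) : ℝ) / nom V (msz N M nn) (F i) (B i)
            ≤ 3 * c₆ * (h : ℝ) ^ 6) := by
  set C : ℝ := max (16 / c₀) 4 with hCdef
  have hC4 : 4 ≤ C := le_max_right _ _
  have hC16 : 16 / c₀ ≤ C := le_max_left _ _
  have hC1 : 1 ≤ C := by linarith
  obtain ⟨Ca, hCa, ha, hita⟩ := ita v pos κ₁ K₂ hκ hK₂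
  obtain ⟨Cb, hCb, hb, hitb⟩ := itb v pos κ₁ hκ
  obtain ⟨he, hhe⟩ := EIA_exp v c₆ hc₆
  set D : ℝ := C ^ 100 * (Ca + Cb) with hD
  have hDpos : 0 < D := by positivity
  refine ⟨min (κ₁ / 2) (c₆ / D), lt_min (by positivity) (by positivity), max (max ha hb) (max he 1), ?_⟩
  intro h hh N M hN hM t hCR hMUL hDEG hPG V Vg nn L0 S hP hDense hSV hVS hG n q ty par anc F B A
    hI hnc hqc x₀
  have hha : h ≥ ha := ((le_max_left _ _).trans (le_max_left _ _)).trans hh
  have hhb : h ≥ hb := ((le_max_right _ _).trans (le_max_left _ _)).trans hh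
  have hhe' : h ≥ he := ((le_max_left _ _).trans (le_max_right _ _)).trans hh
  have hh1 : 1 ≤ h := ((le_max_right _ _).trans (le_max_right _ _)).trans hh
  have hh0 : (0 : ℝ) < (h : ℝ) := by exact_mod_cast (show 0 < h by omega)
  have hh1r : (1 : ℝ) ≤ (h : ℝ) := by exact_mod_cast hh1
  have hNr : (N : ℝ) = (h : ℝ) ^ 96 := by rw [hN]; push_cast; rfl
  have hMr : (M : ℝ) = (h : ℝ) ^ 152 := by rw [hM]; push_cast; rfl
  have hNp : (0 : ℝ) < (N : ℝ) := by rw [hNr]; positivity
  have hMp : (0 : ℝ) < (M : ℝ) := by rw [hMr]; positivity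
  have hnn : ∀ a, 0 < (nn a : ℝ) := fun a => lt_of_lt_of_le (mul_pos hκ hNp) (hP.big a)
  set m : ℝ := msz N M nn with hmdef
  have hm : 0 < m := by
    rw [hmdef]; unfold msz
    exact mul_pos hMp (Finset.prod_pos (fun a _ => div_pos (hnn a) hNp))
  have hVp : ∀ i, (0 : ℝ) < ((V i).card : ℝ) := by
    intro i; rw [hP.cV i]; exact hnn _
  have hV : ∀ i, (V i).Nonempty := by
    intro i
    exact Finset.card_pos.mp (by exact_mod_cast hVp i)
  have hVκ : ∀ i, κ₁ * (N : ℝ) ≤ ((V i).card : ℝ) := by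
    intro i; rw [hP.cV i]; exact hP.big _
  have hmlow : κ₁ ^ 4 * (M : ℝ) ≤ m := by
    rw [hmdef]; unfold msz
    rw [mul_comm]
    refine mul_le_mul_of_nonneg_left ?_ hMp.le
    calc κ₁ ^ 4 = ∏ _a : Fin 4, κ₁ := by rw [Finset.prod_const, Finset.card_univ, Fintype.card_fin]
      _ ≤ ∏ a : Fin 4, ((nn a : ℝ) / (N : ℝ)) := by
        refine Finset.prod_le_prod (fun _ _ => hκ.le) (fun a _ => ?_)
        rw [le_div_iff₀ hNp]; exact hP.big a
  have hmV : ∀ i, κ₁ ^ 4 * (h : ℝ) ^ 56 ≤ m / ((V i).card : ℝ) := by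
    intro i
    rw [le_div_iff₀ (hVp i)]
    have h1 : ((V i).card : ℝ) ≤ (N : ℝ) := by
      have := Finset.card_le_univ (V i)
      rw [Fintype.card_fin] at this
      exact_mod_cast this
    calc κ₁ ^ 4 * (h : ℝ) ^ 56 * ((V i).card : ℝ) ≤ κ₁ ^ 4 * (h : ℝ) ^ 56 * (N : ℝ) :=
          mul_le_mul_of_nonneg_left h1 (by positivity)
      _ = κ₁ ^ 4 * (M : ℝ) := by rw [hNr, hMr]; ring
      _ ≤ m := hmlow
  set L := clsL t pos V Vg L0 with hL
  have hnom : ∀ i, 0 ≤ nom V m (F i) (B i) := by
    intro i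
    unfold nom
    refine mul_nonneg (Finset.prod_nonneg fun _ _ => Nat.cast_nonneg _)
      (Finset.prod_nonneg fun e _ => div_nonneg hm.le (by positivity))
  -- edges of the items
  have hedgA : ∀ i, ∀ e ∈ edg ty par (A i), pos e.1 ≠ pos e.2 ∧ e.1 ∉ B i ∧ e.2 ∉ B i := by
    intro i e hemem
    unfold edg at hemem
    obtain ⟨j, hj, rfl⟩ := Finset.mem_image.1 hemem
    have hj2 := (Finset.mem_filter.1 hj).2
    exact ⟨hI.par_pos j hj2, hI.BA i _, hI.BA i _⟩
  have hedganc : ∀ j', ∀ e ∈ edg ty par (anc j'), pos e.1 ≠ pos e.2 := by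
    intro j' e hemem
    unfold edg at hemem
    obtain ⟨j, hj, rfl⟩ := Finset.mem_image.1 hemem
    exact hI.par_pos j (Finset.mem_filter.1 hj).2
  have hfA : ∀ i, Frst (edg ty par (A i)) := fun i =>
    frst_edg ty par hI.par_le (A i) (hI.A_par i) (hI.A_inj i)
  have hfanc : ∀ j, Frst (edg ty par (anc j)) := fun j =>
    frst_edg ty par hI.par_le (anc j) (hI.anc_par j) (hI.anc_inj j)
  obtain ⟨hPG1, hPG2⟩ := hPG V Vg nn L0 hP hDense
  -- the two initial bounds
  have hKb1 : (1 : ℝ) ≤ 200 * C := by linarith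
  have hKpow : ∀ (k : ℕ) (x : ℝ), k ≤ 100 → x ≤ ε₄ → (200 * C) ^ k * x < 1 := by
    intro k x hk hx
    calc (200 * C) ^ k * x ≤ (200 * C) ^ k * ε₄ := mul_le_mul_of_nonneg_left hx (by positivity)
      _ ≤ (200 * C) ^ 100 * ε₄ :=
        mul_le_mul_of_nonneg_right (pow_le_pow_right₀ hKb1 hk) hε₄.le
      _ < 1 := h4
  have hCpow : ∀ (k : ℕ) (x y : ℝ), k ≤ 100 → x ≤ y → 0 ≤ y → C ^ k * x ≤ C ^ 100 * y := by
    intro k x y hk hx hy
    calc C ^ k * x ≤ C ^ k * y := mul_le_mul_of_nonneg_left hx (by positivity)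
      _ ≤ C ^ 100 * y := mul_le_mul_of_nonneg_right (pow_le_pow_right₀ hC1 hk) hy
  have hc8a : (q : ℝ) * (C ^ 100 * (Ca * (h : ℝ) ^ 6 / (N : ℝ))) ≤ c₆ * (h : ℝ) ^ 6 := by
    have h1 : (q : ℝ) ≤ c₆ / D * (N : ℝ) :=
      hqc.trans (mul_le_mul_of_nonneg_right (min_le_right _ _) hNp.le)
    have h2 : c₆ / D * (C ^ 100 * Ca) ≤ c₆ := by
      rw [div_mul_eq_mul_div, div_le_iff₀ hDpos]
      refine mul_le_mul_of_nonneg_left ?_ hc₆.le
      rw [hD]
      exact mul_le_mul_of_nonneg_left (by linarith) (by positivity)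
    calc (q : ℝ) * (C ^ 100 * (Ca * (h : ℝ) ^ 6 / (N : ℝ)))
        ≤ (c₆ / D * (N : ℝ)) * (C ^ 100 * (Ca * (h : ℝ) ^ 6 / (N : ℝ))) :=
          mul_le_mul_of_nonneg_right h1 (by positivity)
      _ = (c₆ / D * (C ^ 100 * Ca)) * (h : ℝ) ^ 6 := by field_simp
      _ ≤ c₆ * (h : ℝ) ^ 6 := mul_le_mul_of_nonneg_right h2 (by positivity)
  have hc8b : (n : ℝ) * (C ^ 100 * (Cb * (h : ℝ) ^ 6 / (N : ℝ))) ≤ c₆ * (h : ℝ) ^ 6 := by
    have h1 : (n : ℝ) ≤ c₆ / D * (N : ℝ) :=
      hnc.trans (mul_le_mul_of_nonneg_right (min_le_right _ _) hNp.le)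
    have h2 : c₆ / D * (C ^ 100 * Cb) ≤ c₆ := by
      rw [div_mul_eq_mul_div, div_le_iff₀ hDpos]
      refine mul_le_mul_of_nonneg_left ?_ hc₆.le
      rw [hD]
      exact mul_le_mul_of_nonneg_left (by linarith) (by positivity)
    calc (n : ℝ) * (C ^ 100 * (Cb * (h : ℝ) ^ 6 / (N : ℝ)))
        ≤ (c₆ / D * (N : ℝ)) * (C ^ 100 * (Cb * (h : ℝ) ^ 6 / (N : ℝ))) :=
          mul_le_mul_of_nonneg_right h1 (by positivity)
      _ = (c₆ / D * (C ^ 100 * Cb)) * (h : ℝ) ^ 6 := by field_simp
      _ ≤ c₆ * (h : ℝ) ^ 6 := mul_le_mul_of_nonneg_right h2 (by positivity)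
  have hn2 : ∀ i, 2 * (n : ℝ) ≤ ((V i).card : ℝ) := by
    intro i
    have h1 : (n : ℝ) ≤ κ₁ / 2 * (N : ℝ) :=
      hnc.trans (mul_le_mul_of_nonneg_right (min_le_left _ _) hNp.le)
    have h2 := hVκ i
    nlinarith
  -- dependence
  have hdep1 : ∀ (i : Fin q) (x x' : Fin v → Fin N), (∀ j ∈ A i, x (ty j) = x' (ty j)) →
      ext t pos L (F i) (B i) S x = ext t pos L (F i) (B i) S x' := by
    intro i x x' hx
    refine EIA_ext_congr t pos L (F i) (B i) S x x' fun e hemem => ?_
    obtain ⟨h1, h2⟩ := hI.FA i e hemem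
    refine ⟨h1.imp id ?_, h2.imp id ?_⟩
    · rintro ⟨j, hj, hje⟩; rw [← hje]; exact hx j hj
    · rintro ⟨j, hj, hje⟩; rw [← hje]; exact hx j hj
  have hdep2 : ∀ (i : Fin q) (d : Fin v) (y : Fin N) (x x' : Fin v → Fin N),
      (∀ j ∈ A i, x (ty j) = x' (ty j)) →
      ext t pos L (F i) ((B i).erase d) S (Function.update x d y) =
        ext t pos L (F i) ((B i).erase d) S (Function.update x' d y) := by
    intro i d y x x' hx
    refine EIA_ext_congr t pos L (F i) ((B i).erase d) S _ _ fun e hemem => ?_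
    have key : ∀ z : Fin v, (z ∈ B i ∨ ∃ j ∈ A i, ty j = z) →
        (z ∈ (B i).erase d ∨ Function.update x d y z = Function.update x' d y z) := by
      intro z hz
      by_cases hzd : z = d
      · right; subst hzd; rw [Function.update_self, Function.update_self]
      · rcases hz with hz | ⟨j, hj, hje⟩
        · exact Or.inl (Finset.mem_erase.mpr ⟨hzd, hz⟩)
        · right
          rw [Function.update_of_ne hzd, Function.update_of_ne hzd, ← hje]; exact hx j hj
    obtain ⟨h1, h2⟩ := hI.FA i e hemem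
    exact ⟨key _ h1, key _ h2⟩
  have hnext : ∀ (i : Fin q) (d : Fin v) (x : Fin N), d ∈ B i → x ∈ S d → ∀ α : Fin v → Fin N,
      (h : ℝ) ^ 6 * (ext t pos L (F i) ((B i).erase d) S (Function.update α d x) : ℝ)
        ≤ nom V m (F i) (B i) := by
    intro i d x hd hx α
    exact (hita h hha N M hN hM t hCR V Vg nn L0 S hP hSV hG (F i) (B i) d x
      (edg ty par (A i)) (hI.adm i) hd hx (hfA i) (hedgA i)).1 α
  have main := wemg t pos L V m C (200 * C) (c₆ * (h : ℝ) ^ 6) 200 ty par x₀ hm hV hC1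
    (by norm_num) hKb1 (by positivity) hI.par_le (Fin q ⊕ Fin n) (EIA_Ab par anc A)
    (EIA_Yb t pos L V S m c c₀ ty par F B) ?_ ?_ ?_ ?_ ?_ ?_
    ((Fin v × Fin N) ⊕ (Fin v × Fin N × Fin v)) (Fin q ⊕ Fin n) (EIA_A S ty anc B A)
    (EIA_Y t pos L V S m h ty F B) ?_ ?_ ?_ ?_ ?_ ?_ ?_ ?_ ?_
  · -- conclusion
    obtain ⟨φ, hφ1, hφ2, hφ3, hφ4, hφ5⟩ := main
    refine ⟨φ, fun j => hφ1 j j.2, fun j hj => hφ2 j j.2 hj,
      fun j j' hjj ht => hφ3 j j' j.2 j'.2 hjj ht, ?_, ?_, ?_⟩
    · intro i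
      have h1 := hφ4 (Sum.inl i) (fun a _ => a.2)
      simp only [EIA_Yb, EIA_Ab] at h1
      by_contra hcon
      rw [not_le] at hcon
      rw [if_pos hcon] at h1
      exact lt_irrefl _ h1
    · intro i d hd x hx
      exact hnext i d x hd hx _
    · intro d x hx
      have h1 := hφ5 (Sum.inl (d, x))
      have h2 : (Finset.univ.filter fun i : Fin q ⊕ Fin n =>
          ∀ a ∈ EIA_A S ty anc B A (Sum.inl (d, x)) i, (a : ℕ) < n) = Finset.univ := by
        rw [Finset.filter_true_of_mem]
        intro i _ a _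
        exact a.2
      rw [h2, Fintype.sum_sum_type] at h1
      simp only [EIA_Y, EIA_A, Finset.sum_const_zero, add_zero] at h1
      rw [← mul_assoc] at h1
      refine le_trans (le_of_eq ?_) h1
      rw [Finset.sum_filter]
      refine Finset.sum_congr rfl fun i _ => ?_
      by_cases hd : d ∈ B i
      · rw [if_pos hd, if_pos ⟨hd, hx⟩, if_pos ⟨hd, hx⟩]
      · rw [if_neg hd, if_neg (fun hcon => hd hcon.1)]
  · -- hYb0
    rintro (i | j) x
    · simp only [EIA_Yb]; split_ifs <;> norm_num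
    · simp only [EIA_Yb]; split_ifs <;> norm_num
  · -- hAb
    rintro (i | j) k hk
    · exact hI.A_par i k hk
    · simp only [EIA_Ab] at hk ⊢
      by_cases hj : par j = j
      · rw [if_pos hj] at hk; exact absurd hk (Finset.notMem_empty _)
      · rw [if_neg hj] at hk ⊢; exact hI.anc_par _ k hk
  · -- hAbi
    rintro (i | j)
    · exact hI.A_inj i
    · simp only [EIA_Ab]
      by_cases hj : par j = j
      · rw [if_pos hj, Finset.coe_empty]; exact Set.injOn_empty _
      · rw [if_neg hj]; exact hI.anc_inj _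
  · -- hYbd
    rintro (i | j) x x' hx
    · simp only [EIA_Yb]
      rw [hdep1 i x x' hx]
    · simp only [EIA_Yb]
      by_cases hj : par j = j
      · rw [if_pos hj, if_pos hj]
      · have h1 : x (ty (par j)) = x' (ty (par j)) := by
          apply hx
          simp only [EIA_Ab]
          rw [if_neg hj]
          exact hI.anc_self _
        rw [h1]
  · -- hb0
    rintro (i | j)
    · refine hKpow _ _ (hI.A_card i) ?_
      have h1 := hPG1 (F i) (B i) (edg ty par (A i)) S (hI.adm i) (hfA i) (hedgA i) hSV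
        (fun k _ => hVS k)
      have h2 := phi_bad t pos L V m hm hV (edg ty par (A i))
        (fun α => (ext t pos L (F i) (B i) S α : ℝ) < c * nom V m (F i) (B i)) ε₄
        h1 x₀
      refine le_trans (le_of_eq ?_) h2
      have h3 : EIA_Yb t pos L V S m c c₀ ty par F B (Sum.inl i) = (fun α =>
          @ite ℝ ((ext t pos L (F i) (B i) S α : ℝ) < c * nom V m (F i) (B i))
            (Classical.propDecidable _) 1 0) := by
        funext α
        simp only [EIA_Yb]
      rw [h3]
      rfl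
    · by_cases hj : par j = j
      · have h3 : EIA_Yb t pos L V S m c c₀ ty par F B (Sum.inr j) = fun _ => 0 := by
          funext α
          simp only [EIA_Yb]
          rw [if_pos hj]
        rw [h3, EIA_Phi_zero, mul_zero]
        norm_num
      · have hAj : EIA_Ab par anc A (Sum.inr j) = anc (par j) := by
          simp only [EIA_Ab]; rw [if_neg hj]
        rw [hAj]
        refine hKpow _ _ (hI.anc_card _) ?_
        have h1 := hPG2 (ty (par j)) (ty j) (edg ty par (anc (par j))) (hI.par_pos j hj)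
          (hfanc _) (by
            intro e hemem
            unfold edg at hemem
            obtain ⟨k, hk, rfl⟩ := Finset.mem_image.1 hemem
            obtain ⟨hk1, hk2⟩ := Finset.mem_filter.1 hk
            refine ⟨hI.par_pos k hk2, ?_, ?_⟩
            · intro hcon
              exact hI.anc_child j hj k hk1 (congrArg Prod.snd hcon)
            · intro hcon
              exact hI.anc_child j hj (par k) (hI.anc_par _ k hk1) (congrArg Prod.fst hcon))
        have h2 := phi_bad t pos L V m hm hV (edg ty par (anc (par j)))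
          (fun α => (((L (ty (par j), ty j)).filter fun i =>
            t (i, pos (ty (par j))) = α (ty (par j))).card : ℝ)
              < c₀ * m / ((V (ty (par j))).card : ℝ)) ε₄
          h1 x₀
        refine le_trans (le_of_eq ?_) h2
        have h3 : EIA_Yb t pos L V S m c c₀ ty par F B (Sum.inr j) = (fun α =>
            @ite ℝ ((((L (ty (par j), ty j)).filter fun i =>
              t (i, pos (ty (par j))) = α (ty (par j))).card : ℝ)
                < c₀ * m / ((V (ty (par j))).card : ℝ)) (Classical.propDecidable _) 1 0) := by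
          funext α
          simp only [EIA_Yb]
          rw [if_neg hj]
        rw [h3]
  · -- hJb
    intro j
    have h1 : (Finset.univ.filter fun b : Fin q ⊕ Fin n => j ∈ EIA_Ab par anc A b) ⊆
        ((Finset.univ.filter fun i : Fin q => j ∈ A i).image Sum.inl) ∪
        ((Finset.univ.filter fun j' : Fin n => j ∈ anc j').image Sum.inr) := by
      rintro (i | j') hb'
      · have h2 := (Finset.mem_filter.mp hb').2
        exact Finset.mem_union_left _ (Finset.mem_image_of_mem _
          (Finset.mem_filter.mpr ⟨Finset.mem_univ _, h2⟩))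
      · have h2 := (Finset.mem_filter.mp hb').2
        simp only [EIA_Ab] at h2
        by_cases hj : par j' = j'
        · rw [if_pos hj] at h2; exact absurd h2 (Finset.notMem_empty _)
        · rw [if_neg hj] at h2
          exact Finset.mem_union_right _ (Finset.mem_image_of_mem _
            (Finset.mem_filter.mpr ⟨Finset.mem_univ _, hI.anc_mono j' h2⟩))
    calc _ ≤ _ := Finset.card_le_card h1
      _ ≤ _ := Finset.card_union_le _ _
      _ ≤ 150 + 50 := Nat.add_le_add (Finset.card_image_le.trans (hI.A_cnt j))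
        (Finset.card_image_le.trans (hI.anc_cnt j))
      _ = 200 := rfl
  · -- hY0
    rintro (p | p) (i | j) x
    · simp only [EIA_Y]
      split_ifs
      · exact div_nonneg (by positivity) (hnom i)
      · exact le_rfl
    · simp only [EIA_Y]; exact le_rfl
    · simp only [EIA_Y]; exact le_rfl
    · simp only [EIA_Y]
      split_ifs
      · positivity
      · exact le_rfl
      · exact le_rfl
  · -- hY1
    rintro (p | p) (i | j) x
    · simp only [EIA_Y]
      split_ifs with hp
      · exact div_le_one_of_le₀ (hnext i p.1 p.2 hp.1 hp.2 x) (hnom i)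
      · norm_num
    · simp only [EIA_Y]; norm_num
    · simp only [EIA_Y]; norm_num
    · simp only [EIA_Y]
      split_ifs
      · rw [div_le_one (by positivity)]; exact one_le_pow₀ hh1r
      · norm_num
      · norm_num
  · -- hA
    rintro (p | p) (i | j) k hk
    · simp only [EIA_A] at hk ⊢
      split_ifs at hk ⊢ with hp
      · exact hI.A_par i k hk
      · exact absurd hk (Finset.notMem_empty _)
    · simp only [EIA_A] at hk; exact absurd hk (Finset.notMem_empty _)
    · simp only [EIA_A] at hk; exact absurd hk (Finset.notMem_empty _)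
    · simp only [EIA_A] at hk ⊢
      split_ifs at hk ⊢ with hp
      · exact hI.anc_par j k hk
      · exact absurd hk (Finset.notMem_empty _)
  · -- hAi
    rintro (p | p) (i | j)
    · simp only [EIA_A]
      split_ifs
      · exact hI.A_inj i
      · rw [Finset.coe_empty]; exact Set.injOn_empty _
    · simp only [EIA_A]; rw [Finset.coe_empty]; exact Set.injOn_empty _
    · simp only [EIA_A]; rw [Finset.coe_empty]; exact Set.injOn_empty _
    · simp only [EIA_A]
      split_ifs
      · exact hI.anc_inj j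
      · rw [Finset.coe_empty]; exact Set.injOn_empty _
  · -- hYd
    rintro (p | p) (i | j) x x' hx
    · simp only [EIA_Y]
      by_cases hp : p.1 ∈ B i ∧ p.2 ∈ S p.1
      · rw [if_pos hp, if_pos hp, hdep2 i p.1 p.2 x x']
        simp only [EIA_A] at hx
        rw [if_pos hp] at hx
        exact hx
      · rw [if_neg hp, if_neg hp]
    · simp only [EIA_Y]
    · simp only [EIA_Y]
    · simp only [EIA_Y]
      by_cases hp : ty j = p.2.2
      · rw [if_pos hp, if_pos hp]
        have h1 : x p.2.2 = x' p.2.2 := by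
          rw [← hp]
          apply hx
          simp only [EIA_A]
          rw [if_pos hp]
          exact hI.anc_self j
        rw [h1]
      · rw [if_neg hp, if_neg hp]
  · -- hdisj
    rintro (p | p) (i | j) (i' | j') hne
    · simp only [EIA_A]
      split_ifs with h1 h2 h2
      · exact hI.A_disj i i' (fun hcon => hne (by rw [hcon])) ⟨p.1, h1.1, h2.1⟩
      · exact Finset.disjoint_empty_right _
      · exact Finset.disjoint_empty_left _
      · exact Finset.disjoint_empty_left _
    · simp only [EIA_A]; exact Finset.disjoint_empty_right _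
    · simp only [EIA_A]; exact Finset.disjoint_empty_left _
    · simp only [EIA_A]; exact Finset.disjoint_empty_left _
    · simp only [EIA_A]; exact Finset.disjoint_empty_left _
    · simp only [EIA_A]; exact Finset.disjoint_empty_left _
    · simp only [EIA_A]; exact Finset.disjoint_empty_right _
    · simp only [EIA_A]
      split_ifs with h1 h2 h2
      · exact hI.anc_disj j j' (fun hcon => hne (by rw [hcon])) (h1.trans h2.symm)
      · exact Finset.disjoint_empty_right _
      · exact Finset.disjoint_empty_left _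
      · exact Finset.disjoint_empty_left _
  · -- hμ
    rintro (p | p)
    · rw [Fintype.sum_sum_type]
      have h1 : ∀ j : Fin n, C ^ (EIA_A S ty anc B A (Sum.inl p) (Sum.inr j)).card *
          Phi t pos L V m (edg ty par (EIA_A S ty anc B A (Sum.inl p) (Sum.inr j)))
            (EIA_Y t pos L V S m h ty F B (Sum.inl p) (Sum.inr j)) ∅ x₀ = 0 := by
        intro j
        have h2 : EIA_Y t pos L V S m h ty F B (Sum.inl p) (Sum.inr j) = fun _ => 0 := rfl
        rw [h2, EIA_Phi_zero, mul_zero]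
      rw [Finset.sum_eq_zero (fun j _ => h1 j), add_zero]
      have h2 : ∀ i : Fin q, C ^ (EIA_A S ty anc B A (Sum.inl p) (Sum.inl i)).card *
          Phi t pos L V m (edg ty par (EIA_A S ty anc B A (Sum.inl p) (Sum.inl i)))
            (EIA_Y t pos L V S m h ty F B (Sum.inl p) (Sum.inl i)) ∅ x₀
            ≤ C ^ 100 * (Ca * (h : ℝ) ^ 6 / (N : ℝ)) := by
        intro i
        by_cases hp : p.1 ∈ B i ∧ p.2 ∈ S p.1
        · have h3 : EIA_A S ty anc B A (Sum.inl p) (Sum.inl i) = A i := by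
            simp only [EIA_A]; rw [if_pos hp]
          have h4' : EIA_Y (n := n) t pos L V S m h ty F B (Sum.inl p) (Sum.inl i) = fun α =>
              (h : ℝ) ^ 6 * (ext t pos L (F i) ((B i).erase p.1) S
                (Function.update α p.1 p.2) : ℝ) / nom V m (F i) (B i) := by
            funext α
            simp only [EIA_Y]; rw [if_pos hp]
          rw [h3, h4']
          refine hCpow _ _ _ (hI.A_card i) ?_ (by positivity)
          exact (hita h hha N M hN hM t hCR V Vg nn L0 S hP hSV hG (F i) (B i) p.1 p.2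
            (edg ty par (A i)) (hI.adm i) hp.1 hp.2 (hfA i) (hedgA i)).2 x₀
        · have h4' : EIA_Y (n := n) t pos L V S m h ty F B (Sum.inl p) (Sum.inl i) = fun _ => 0 := by
            funext α
            simp only [EIA_Y]; rw [if_neg hp]
          rw [h4', EIA_Phi_zero, mul_zero]
          positivity
      calc _ ≤ ∑ _i : Fin q, C ^ 100 * (Ca * (h : ℝ) ^ 6 / (N : ℝ)) :=
            Finset.sum_le_sum fun i _ => h2 i
        _ = (q : ℝ) * (C ^ 100 * (Ca * (h : ℝ) ^ 6 / (N : ℝ))) := by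
            rw [Finset.sum_const, Finset.card_univ, Fintype.card_fin, nsmul_eq_mul]
        _ ≤ _ := hc8a
    · rw [Fintype.sum_sum_type]
      have h1 : ∀ i : Fin q, C ^ (EIA_A S ty anc B A (Sum.inr p) (Sum.inl i)).card *
          Phi t pos L V m (edg ty par (EIA_A S ty anc B A (Sum.inr p) (Sum.inl i)))
            (EIA_Y t pos L V S m h ty F B (Sum.inr p) (Sum.inl i)) ∅ x₀ = 0 := by
        intro i
        have h2 : EIA_Y (n := n) t pos L V S m h ty F B (Sum.inr p) (Sum.inl i) = fun _ => 0 := rfl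
        rw [h2, EIA_Phi_zero, mul_zero]
      rw [Finset.sum_eq_zero (fun i _ => h1 i), zero_add]
      have h2 : ∀ j : Fin n, C ^ (EIA_A S ty anc B A (Sum.inr p) (Sum.inr j)).card *
          Phi t pos L V m (edg ty par (EIA_A S ty anc B A (Sum.inr p) (Sum.inr j)))
            (EIA_Y t pos L V S m h ty F B (Sum.inr p) (Sum.inr j)) ∅ x₀
            ≤ C ^ 100 * (Cb * (h : ℝ) ^ 6 / (N : ℝ)) := by
        intro j
        by_cases hp : ty j = p.2.2
        · have h3 : EIA_A S ty anc B A (Sum.inr p) (Sum.inr j) = anc j := by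
            simp only [EIA_A]; rw [if_pos hp]
          have h4' : EIA_Y (q := q) t pos L V S m h ty F B (Sum.inr p) (Sum.inr j) = fun α =>
              if 0 < pmul t pos L p.1 p.2.2 p.2.1 (α p.2.2) then 1 / (h : ℝ) ^ 50 else 0 := by
            funext α
            simp only [EIA_Y]; rw [if_pos hp]
          rw [h3, h4']
          refine hCpow _ _ _ (hI.anc_card j) ?_ (by positivity)
          exact hitb h hhb N M hN hM t hDEG V Vg nn L0 hP p.1 p.2.2 p.2.1
            (edg ty par (anc j)) (hfanc j) (hedganc j) x₀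
        · have h4' : EIA_Y (q := q) t pos L V S m h ty F B (Sum.inr p) (Sum.inr j) = fun _ => 0 := by
            funext α
            simp only [EIA_Y]; rw [if_neg hp]
          rw [h4', EIA_Phi_zero, mul_zero]
          positivity
      calc _ ≤ ∑ _j : Fin n, C ^ 100 * (Cb * (h : ℝ) ^ 6 / (N : ℝ)) :=
            Finset.sum_le_sum fun j _ => h2 j
        _ = (n : ℝ) * (C ^ 100 * (Cb * (h : ℝ) ^ 6 / (N : ℝ))) := by
            rw [Finset.sum_const, Finset.card_univ, Fintype.card_fin, nsmul_eq_mul]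
        _ ≤ _ := hc8b
  · -- hμc
    have h1 := hhe h hhe'
    refine le_trans (le_of_eq ?_) h1
    rw [Fintype.card_sum, Fintype.card_prod, Fintype.card_prod, Fintype.card_prod,
      Fintype.card_fin, Fintype.card_fin, hN]
    push_cast
    ring
  · -- hav
    intro j φ hinv
    obtain ⟨hφ1, hφ2, hφ3, hφ4, hφ5⟩ := hinv
    by_cases hj : par j = j
    · refine ⟨V (ty j) \ (Finset.univ.filter fun i : Fin n => i < j).image φ,
        Finset.sdiff_subset, ?_, ?_, fun hcon => absurd hj hcon⟩
      · intro y hy i hi _ hcon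
        exact (Finset.mem_sdiff.mp hy).2 (Finset.mem_image.mpr
          ⟨i, Finset.mem_filter.mpr ⟨Finset.mem_univ _, hi⟩, hcon⟩)
      · intro _
        have h1 := Finset.le_card_sdiff ((Finset.univ.filter fun i : Fin n => i < j).image φ)
          (V (ty j))
        have h2 : ((Finset.univ.filter fun i : Fin n => i < j).image φ).card ≤ n := by
          refine Finset.card_image_le.trans ?_
          refine (Finset.card_le_univ _).trans ?_
          rw [Fintype.card_fin]
        have h3 : ((V (ty j)).card : ℝ) - (n : ℝ) ≤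
            ((V (ty j) \ (Finset.univ.filter fun i : Fin n => i < j).image φ).card : ℝ) := by
          have h5 : (V (ty j)).card ≤
            (V (ty j) \ (Finset.univ.filter fun i : Fin n => i < j).image φ).card + n := by omega
          have h6' : ((V (ty j)).card : ℝ) ≤
            ((V (ty j) \ (Finset.univ.filter fun i : Fin n => i < j).image φ).card : ℝ) + n := by
            exact_mod_cast h5
          linarith
        have h5 := hn2 (ty j)
        have h7 : (0 : ℝ) ≤
            ((V (ty j) \ (Finset.univ.filter fun i : Fin n => i < j).image φ).card : ℝ) :=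
          Nat.cast_nonneg _
        nlinarith
    · -- child
      set p := par j with hp
      have hpj : p < j := lt_of_le_of_ne (hI.par_le j) hj
      have hpos := hI.par_pos j hj
      have hdeg : c₀ * m / ((V (ty p)).card : ℝ) ≤
          (((L (ty p, ty j)).filter fun i => t (i, pos (ty p)) = φ p).card : ℝ) := by
        have h1 := hφ4 (Sum.inr j) (by
          intro i hi
          simp only [EIA_Ab] at hi
          rw [if_neg hj] at hi
          have h2 := hI.anc_le _ i hi
          exact lt_of_le_of_lt (show (i : ℕ) ≤ (p : ℕ) from h2) hpj)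
        have h2 : EIA_Ab par anc A (Sum.inr j) = anc p := by
          simp only [EIA_Ab]; rw [if_neg hj]
        rw [h2] at h1
        simp only [EIA_Yb] at h1
        rw [if_neg hj] at h1
        have h3 : asg ty (anc p) φ x₀ (ty p) = φ p :=
          asg_mem ty (anc p) (hI.anc_inj p) φ x₀ p (hI.anc_self p)
        rw [← hp] at h1
        rw [h3] at h1
        by_contra hcon
        rw [not_le] at hcon
        rw [if_pos hcon] at h1
        exact lt_irrefl _ h1
      have hav := EIA_avail t pos V Vg L0 hMUL (ty p) (ty j) hpos (φ p)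
      rw [← hL] at hav
      set W := (V (ty j)).filter (fun y => 0 < pmul t pos L (ty p) (ty j) (φ p) y) with hW
      set U := Finset.univ.filter fun i : Fin n => i < j ∧ ty i = ty j ∧
        0 < pmul t pos L (ty p) (ty j) (φ p) (φ i) with hU
      have hUc : (U.card : ℝ) ≤ 3 * c₆ * (h : ℝ) ^ 56 := by
        have h1 := hφ5 (Sum.inr (ty p, φ p, ty j))
        have h2 : ∑ i ∈ U.image (Sum.inr : Fin n → Fin q ⊕ Fin n),
            EIA_Y t pos L V S m h ty F B (Sum.inr (ty p, φ p, ty j)) i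
              (asg ty (EIA_A S ty anc B A (Sum.inr (ty p, φ p, ty j)) i) φ x₀)
            = (U.card : ℝ) * (1 / (h : ℝ) ^ 50) := by
          rw [Finset.sum_image (fun a _ b _ hab => Sum.inr_injective hab)]
          rw [← nsmul_eq_mul, ← Finset.sum_const]
          refine Finset.sum_congr rfl fun i hi => ?_
          obtain ⟨hi1, hi2, hi3⟩ := (Finset.mem_filter.mp hi).2
          have h3 : EIA_A S ty anc B A (Sum.inr (ty p, φ p, ty j)) (Sum.inr i) = anc i := by
            simp only [EIA_A]; rw [if_pos hi2]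
          rw [h3]
          simp only [EIA_Y]
          have h5 : asg ty (anc i) φ x₀ (ty j) = φ i := by
            rw [← hi2]
            exact asg_mem ty (anc i) (hI.anc_inj i) φ x₀ i (hI.anc_self i)
          rw [if_pos hi2, h5, if_pos hi3]
        have h3 : U.image (Sum.inr : Fin n → Fin q ⊕ Fin n) ⊆
            Finset.univ.filter (fun i : Fin q ⊕ Fin n =>
              ∀ a ∈ EIA_A S ty anc B A (Sum.inr (ty p, φ p, ty j)) i, (a : ℕ) < (j : ℕ)) := by
          intro i hi
          obtain ⟨i', hi', rfl⟩ := Finset.mem_image.mp hi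
          obtain ⟨hi1, hi2, hi3⟩ := (Finset.mem_filter.mp hi').2
          refine Finset.mem_filter.mpr ⟨Finset.mem_univ _, fun a haa => ?_⟩
          simp only [EIA_A] at haa
          rw [if_pos hi2] at haa
          exact lt_of_le_of_lt (show (a : ℕ) ≤ (i' : ℕ) from hI.anc_le _ a haa) hi1
        have h5 : ∑ i ∈ U.image (Sum.inr : Fin n → Fin q ⊕ Fin n),
            EIA_Y t pos L V S m h ty F B (Sum.inr (ty p, φ p, ty j)) i
              (asg ty (EIA_A S ty anc B A (Sum.inr (ty p, φ p, ty j)) i) φ x₀) ≤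
            3 * (c₆ * (h : ℝ) ^ 6) := by
          refine le_trans (Finset.sum_le_sum_of_subset_of_nonneg h3 ?_) h1
          rintro (i | i) _ _
          · simp only [EIA_Y]; exact le_rfl
          · simp only [EIA_Y]
            split_ifs
            · positivity
            · exact le_rfl
            · exact le_rfl
        rw [h2, mul_one_div, div_le_iff₀ (by positivity)] at h5
        calc (U.card : ℝ) ≤ 3 * (c₆ * (h : ℝ) ^ 6) * (h : ℝ) ^ 50 := h5
          _ = 3 * c₆ * (h : ℝ) ^ 56 := by ring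
      refine ⟨W \ U.image φ, Finset.sdiff_subset.trans (Finset.filter_subset _ _), ?_,
        fun hcon => absurd hcon hj, fun _ => ⟨?_, ?_⟩⟩
      · intro y hy i hi hti hcon
        obtain ⟨hy1, hy2⟩ := Finset.mem_sdiff.mp hy
        refine hy2 (Finset.mem_image.mpr ⟨i, Finset.mem_filter.mpr
          ⟨Finset.mem_univ _, hi, hti, ?_⟩, hcon⟩)
        rw [hcon]
        exact (Finset.mem_filter.mp hy1).2
      · intro y hy
        exact (Finset.mem_filter.mp (Finset.mem_sdiff.mp hy).1).2
      · have h1 := Finset.le_card_sdiff (U.image φ) W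
        have h2 : (U.image φ).card ≤ U.card := Finset.card_image_le
        have h3 : (W.card : ℝ) ≤ ((W \ U.image φ).card : ℝ) + (U.card : ℝ) := by
          have h5 : W.card ≤ (W \ U.image φ).card + U.card := by omega
          exact_mod_cast h5
        have h5 : (((L (ty p, ty j)).filter fun i => t (i, pos (ty p)) = φ p).card : ℝ) ≤
            4 * (W.card : ℝ) := by exact_mod_cast hav
        have h7 := hmV (ty p)
        set R : ℝ := m / ((V (ty p)).card : ℝ) with hR
        have h8 : c₀ * m / ((V (ty p)).card : ℝ) = c₀ * R := by rw [hR, mul_div_assoc]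
        rw [h8] at hdeg
        have h9 : 3 * c₆ * (h : ℝ) ^ 56 ≤ c₀ / 8 * R := by
          have h10 : 0 ≤ (h : ℝ) ^ 56 := by positivity
          have h11 : 3 * c₆ * (h : ℝ) ^ 56 ≤ c₀ / 8 * (κ₁ ^ 4 * (h : ℝ) ^ 56) := by nlinarith
          exact h11.trans (mul_le_mul_of_nonneg_left h7 (by positivity))
        have h12 : c₀ / 8 * R ≤ ((W \ U.image φ).card : ℝ) := by linarith
        have hRpos : 0 < R := div_pos hm (hVp _)
        calc 2 * R = 16 / c₀ * (c₀ / 8 * R) := by field_simp; ring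
          _ ≤ C * (c₀ / 8 * R) := mul_le_mul_of_nonneg_right hC16 (by positivity)
          _ ≤ C * ((W \ U.image φ).card : ℝ) :=
            mul_le_mul_of_nonneg_left h12 (by linarith)

end Pool.Agent.CUB
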