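import Pool.Agent.CUB.Defs

set_option autoImplicit false

/-!
# CUB.FP

Proof. `λ = H/v` (v ≥ 1; if v = 0 trivial). Process `i = 0, 1, ...`. For a partial choice let
`K_{i'} = ∑_{(d,x) used, d∈Q i'} deg_{i'}(d,x)/W_{i'}` (`(d,x)` used if `d ∈ Q i`, `y i d = x` for some
processed `i`), where `deg_i(d,x) = ∑_{y : y d = x} ω i y`; `e_{i,i'} = ∑_{d∈Q i∩Q i'} ∑_x deg_i(d,x)
deg_{i'}(d,x)/(W_i W_{i'})`, `∑_i e_{i,i'} ≤ v c₅ ≤ 1/16`.
Potential `Ψ = ∑_{i'} exp(λ K_{i'} + 4λ ∑_{i not processed} e_{i,i'})`; start `≤ q exp(λ/4)`. At step `i`,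
`exp(λK_i) ≤ Ψ ≤ q exp(λ/4)` gives `K_i ≤ 1/4 + log q/λ ≤ 1/2`, so the weight of the `y` avoiding all
used `(d,x)`, `d ∈ Q i`, is `≥ W_i/2`; choosing `y` among them with probability proportional to
`ω i y`, the increment `Δ = ∑_{d∈Q i∩Q i'} deg_{i'}(d,y d)/W_{i'}` is `≤ v/H = 1/λ` and has expectation
`≤ 2 e_{i,i'}`, and `exp(λΔ) ≤ 1 + 2λΔ`, so `E exp(λ Δ) ≤ exp(4λ e_{i,i'})`: `Ψ` does not increase on
average; pick a `y` with `ω i y > 0` for which it does not increase.
-/

namespace Pool.Agent.CUB

open scoped Classical

private theorem exp_le_aux {z : ℝ} (h0 : 0 ≤ z) (h1 : z ≤ 1) : Real.exp z ≤ 1 + 2 * z := by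
  have hconv := convexOn_exp.2 (Set.mem_univ (0 : ℝ)) (Set.mem_univ (1 : ℝ))
    (show (0 : ℝ) ≤ 1 - z by linarith) h0 (by ring)
  simp only [smul_eq_mul, mul_zero, Real.exp_zero, zero_add, mul_one] at hconv
  have h3 : Real.exp 1 < 3 := by
    have := Real.exp_one_lt_d9
    linarith
  nlinarith

private theorem fib_sum {v N : ℕ} (d : Fin v) (w : (Fin v → Fin N) → ℝ) (f : Fin N → ℝ) :
    ∑ z, w z * f (z d)
      = ∑ x, (∑ z ∈ Finset.univ.filter (fun z : Fin v → Fin N => z d = x), w z) * f x := by
  rw [← Finset.sum_fiberwise (s := Finset.univ) (g := fun z : Fin v → Fin N => z d)]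
  refine Finset.sum_congr rfl fun x _ => ?_
  rw [Finset.sum_mul]
  refine Finset.sum_congr rfl fun z hz => ?_
  rw [(Finset.mem_filter.1 hz).2]


/-- Simultaneous choice of non-conflicting pieces. -/
theorem fp (v q N : ℕ) (Q : Fin q → Finset (Fin v)) (ω : Fin q → (Fin v → Fin N) → ℝ)
    (hω : ∀ i y, 0 ≤ ω i y) (W : Fin q → ℝ) (hW : ∀ i, W i = ∑ y, ω i y) (hWp : ∀ i, 0 < W i)
    (H c₅ : ℝ) (hc₀ : 0 ≤ c₅) (hc₅ : 16 * (v : ℝ) * c₅ ≤ 1) (hHp : 0 < H)
    (hH : 4 * (v : ℝ) * Real.log q ≤ H)
    (ha : ∀ i, ∀ d ∈ Q i, ∀ x, ∑ y ∈ Finset.univ.filter (fun y : Fin v → Fin N => y d = x), ω i y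
      ≤ W i / H)
    (hb : ∀ d x, ∑ i ∈ Finset.univ.filter (fun i : Fin q => d ∈ Q i),
      (∑ y ∈ Finset.univ.filter (fun y : Fin v → Fin N => y d = x), ω i y) / W i ≤ c₅) :
    ∃ y : Fin q → Fin v → Fin N, (∀ i, 0 < ω i (y i)) ∧
      ∀ i i', i ≠ i' → ∀ d ∈ Q i, d ∈ Q i' → y i d ≠ y i' d := by
  -- a positive element for every index
  have hex : ∀ i, ∃ y, 0 < ω i y := by
    intro i
    by_contra hcon
    push Not at hcon
    have h1 : W i ≤ 0 := by
      rw [hW i]
      exact Finset.sum_nonpos fun y _ => hcon y
    exact absurd (hWp i) (not_lt.2 h1)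
  choose y₀ hy₀ using hex
  rcases Nat.eq_zero_or_pos v with hv | hv
  · subst hv
    exact ⟨y₀, hy₀, fun i i' _ d => d.elim0⟩
  have hvR : (0 : ℝ) < (v : ℝ) := Nat.cast_pos.2 hv
  set D : Fin q → Fin v → Fin N → ℝ := fun i d x =>
    (∑ y ∈ Finset.univ.filter (fun y : Fin v → Fin N => y d = x), ω i y) / W i with hDdef
  have hD0 : ∀ i d x, 0 ≤ D i d x := fun i d x =>
    div_nonneg (Finset.sum_nonneg fun y _ => hω i y) (hWp i).le
  have hD1 : ∀ i d, ∑ x, D i d x = 1 := by
    intro i d
    have h1 := fib_sum d (ω i) (fun _ => (1 : ℝ))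
    simp only [mul_one] at h1
    have h2 : ∑ x, D i d x = (∑ x, ∑ z ∈ Finset.univ.filter
        (fun z : Fin v → Fin N => z d = x), ω i z) / W i := by
      rw [Finset.sum_div]
    rw [h2, ← h1, ← hW i]
    exact div_self (hWp i).ne'
  have hDH : ∀ i, ∀ d ∈ Q i, ∀ x, D i d x ≤ 1 / H := by
    intro i d hd x
    have h1 := ha i d hd x
    rw [hDdef]
    simp only
    rw [div_le_iff₀ (hWp i)]
    calc _ ≤ W i / H := h1
      _ = 1 / H * W i := by ring
  have hDc : ∀ d x, ∑ i ∈ Finset.univ.filter (fun i : Fin q => d ∈ Q i), D i d x ≤ c₅ := hb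
  set lam : ℝ := H / v with hlam
  have hlp : 0 < lam := div_pos hHp hvR
  set e : Fin q → Fin q → ℝ := fun i i' => ∑ d ∈ Q i ∩ Q i', ∑ x, D i d x * D i' d x with he
  have he0 : ∀ i i', 0 ≤ e i i' := fun i i' =>
    Finset.sum_nonneg fun d _ => Finset.sum_nonneg fun x _ => mul_nonneg (hD0 _ _ _) (hD0 _ _ _)
  have hesum : ∀ i', ∑ i, e i i' ≤ 1 / 16 := by
    intro i'
    have h1 : ∑ i, e i i' = ∑ d ∈ Q i', ∑ x, D i' d x *
        ∑ i ∈ Finset.univ.filter (fun i : Fin q => d ∈ Q i), D i d x := by
      have h2 : ∀ i, e i i' = ∑ d ∈ Q i', if d ∈ Q i then ∑ x, D i d x * D i' d x else 0 := by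
        intro i
        rw [he]
        simp only
        rw [Finset.inter_comm, ← Finset.filter_mem_eq_inter, Finset.sum_filter]
      simp only [h2]
      rw [Finset.sum_comm]
      refine Finset.sum_congr rfl fun d _ => ?_
      rw [← Finset.sum_filter, Finset.sum_comm]
      refine Finset.sum_congr rfl fun x _ => ?_
      rw [Finset.mul_sum]
      refine Finset.sum_congr rfl fun i _ => ?_
      ring
    rw [h1]
    calc ∑ d ∈ Q i', ∑ x, D i' d x *
        ∑ i ∈ Finset.univ.filter (fun i : Fin q => d ∈ Q i), D i d x
        ≤ ∑ d ∈ Q i', ∑ x, D i' d x * c₅ :=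
          Finset.sum_le_sum fun d _ => Finset.sum_le_sum fun x _ =>
            mul_le_mul_of_nonneg_left (hDc d x) (hD0 _ _ _)
      _ = ∑ _d ∈ Q i', c₅ := by
          refine Finset.sum_congr rfl fun d _ => ?_
          rw [← Finset.sum_mul, hD1, one_mul]
      _ = ((Q i').card : ℝ) * c₅ := by rw [Finset.sum_const, nsmul_eq_mul]
      _ ≤ (v : ℝ) * c₅ := by
          apply mul_le_mul_of_nonneg_right _ hc₀
          have : (Q i').card ≤ v := by
            calc (Q i').card ≤ (Finset.univ : Finset (Fin v)).card := Finset.card_le_univ _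
              _ = v := by simp
          exact_mod_cast this
      _ ≤ 1 / 16 := by linarith
  set Kf : (Fin q → Fin v → Fin N) → ℕ → Fin q → ℝ := fun y k i' =>
    ∑ i ∈ Finset.univ.filter (fun i : Fin q => i.val < k),
      ∑ d ∈ Q i ∩ Q i', D i' d (y i d) with hKf
  set Ef : ℕ → Fin q → ℝ := fun k i' =>
    ∑ i ∈ Finset.univ.filter (fun i : Fin q => k ≤ i.val), e i i' with hEf
  have hEf0 : ∀ k i', 0 ≤ Ef k i' := fun k i' => Finset.sum_nonneg fun i _ => he0 _ _
  set Ψ : (Fin q → Fin v → Fin N) → ℕ → ℝ := fun y k =>
    ∑ i', Real.exp (lam * Kf y k i' + 4 * lam * Ef k i') with hΨ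
  have hstep : ∀ k : ℕ, k ≤ q → ∃ y : Fin q → Fin v → Fin N,
      (∀ i : Fin q, i.val < k → 0 < ω i (y i)) ∧
      (∀ i i' : Fin q, i.val < k → i'.val < k → i ≠ i' → ∀ d ∈ Q i, d ∈ Q i' → y i d ≠ y i' d) ∧
      Ψ y k ≤ q * Real.exp (lam / 4) := by
    intro k
    induction k with
    | zero =>
      intro _
      refine ⟨y₀, fun i h => absurd h (Nat.not_lt_zero _),
        fun i i' h => absurd h (Nat.not_lt_zero _), ?_⟩
      calc Ψ y₀ 0 ≤ ∑ _i' : Fin q, Real.exp (lam / 4) := by
            refine Finset.sum_le_sum fun i' _ => Real.exp_le_exp.2 ?_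
            have h1 : Kf y₀ 0 i' = 0 := by simp [hKf]
            have h2 : Ef 0 i' = ∑ i, e i i' := by simp [hEf]
            rw [h1, h2]
            have h3 := mul_le_mul_of_nonneg_left (hesum i') (show 0 ≤ 4 * lam by positivity)
            linarith
        _ = q * Real.exp (lam / 4) := by simp
    | succ k ih =>
      intro hk
      obtain ⟨y, hy1, hy2, hy3⟩ := ih (Nat.le_of_succ_le hk)
      have hkq : k < q := hk
      set i : Fin q := ⟨k, hkq⟩ with hi
      have hqpos : 0 < q := lt_of_le_of_lt (Nat.zero_le k) hkq
      -- K_i ≤ 1/2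
      have hKi : Kf y k i ≤ 1 / 2 := by
        have h1 : Real.exp (lam * Kf y k i) ≤ q * Real.exp (lam / 4) := by
          refine le_trans ?_ hy3
          refine le_trans ?_ (Finset.single_le_sum (f := fun i' =>
            Real.exp (lam * Kf y k i' + 4 * lam * Ef k i'))
            (fun i' _ => (Real.exp_pos _).le) (Finset.mem_univ i))
          apply Real.exp_le_exp.2
          have := mul_nonneg (show 0 ≤ 4 * lam by positivity) (hEf0 k i)
          linarith
        have h2 : lam * Kf y k i ≤ Real.log q + lam / 4 := by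
          have h3 := Real.log_le_log (Real.exp_pos _) h1
          rw [Real.log_exp, Real.log_mul (by exact_mod_cast hqpos.ne') (Real.exp_pos _).ne',
            Real.log_exp] at h3
          exact h3
        have h4 : Real.log q ≤ lam / 4 := by
          rw [hlam]
          rw [div_div, le_div_iff₀ (by positivity)]
          linarith
        have h5 : lam * Kf y k i ≤ lam * (1 / 2) := by linarith
        exact le_of_mul_le_mul_left h5 hlp
      set p : (Fin v → Fin N) → ℝ := fun z => ω i z / W i with hp
      have hp0 : ∀ z, 0 ≤ p z := fun z => div_nonneg (hω i z) (hWp i).le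
      have hp1 : ∑ z, p z = 1 := by
        rw [hp, ← Finset.sum_div, ← hW i]
        exact div_self (hWp i).ne'
      have hpD : ∀ (d : Fin v) (f : Fin N → ℝ), ∑ z, p z * f (z d) = ∑ x, D i d x * f x := by
        intro d f
        rw [fib_sum d p f]
        refine Finset.sum_congr rfl fun x _ => ?_
        rw [hDdef, hp]
        simp only
        rw [Finset.sum_div]
      -- good set
      set G : Finset (Fin v → Fin N) := Finset.univ.filter fun z =>
        ∀ j : Fin q, j.val < k → ∀ d ∈ Q j ∩ Q i, z d ≠ y j d with hG
      have hGbad : ∑ z ∈ Finset.univ.filter (fun z => z ∉ G), p z ≤ Kf y k i := by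
        calc ∑ z ∈ Finset.univ.filter (fun z => z ∉ G), p z
            ≤ ∑ z ∈ Finset.univ.filter (fun z => z ∉ G),
              ∑ j ∈ Finset.univ.filter (fun j : Fin q => j.val < k),
                ∑ d ∈ Q j ∩ Q i, p z * (if z d = y j d then 1 else 0) := by
              refine Finset.sum_le_sum fun z hz => ?_
              have hz' := (Finset.mem_filter.1 hz).2
              rw [hG, Finset.mem_filter] at hz'
              push Not at hz'
              obtain ⟨j, hj, d, hd, hzd⟩ := hz' (Finset.mem_univ _)
              have hn : ∀ j' : Fin q, ∀ d', 0 ≤ p z * (if z d' = y j' d' then (1 : ℝ) else 0) :=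
                fun j' d' => mul_nonneg (hp0 z) (by split_ifs <;> norm_num)
              calc p z = p z * (if z d = y j d then 1 else 0) := by rw [if_pos hzd, mul_one]
                _ ≤ ∑ d ∈ Q j ∩ Q i, p z * (if z d = y j d then 1 else 0) :=
                  Finset.single_le_sum (f := fun d => p z * (if z d = y j d then (1 : ℝ) else 0))
                    (fun d' _ => hn j d') hd
                _ ≤ _ := Finset.single_le_sum (f := fun j : Fin q =>
                    ∑ d ∈ Q j ∩ Q i, p z * (if z d = y j d then (1 : ℝ) else 0))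
                    (fun j' _ => Finset.sum_nonneg fun d' _ => hn j' d')
                    (Finset.mem_filter.2 ⟨Finset.mem_univ _, hj⟩)
          _ ≤ ∑ z, ∑ j ∈ Finset.univ.filter (fun j : Fin q => j.val < k),
                ∑ d ∈ Q j ∩ Q i, p z * (if z d = y j d then 1 else 0) :=
              Finset.sum_le_sum_of_subset_of_nonneg (Finset.filter_subset _ _)
                fun z _ _ => Finset.sum_nonneg fun j _ => Finset.sum_nonneg fun d _ =>
                  mul_nonneg (hp0 z) (by split_ifs <;> norm_num)
          _ = Kf y k i := by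
              rw [Finset.sum_comm, hKf]
              refine Finset.sum_congr rfl fun j _ => ?_
              rw [Finset.sum_comm]
              refine Finset.sum_congr rfl fun d _ => ?_
              rw [hpD d (fun x => if x = y j d then 1 else 0)]
              simp
      set S : ℝ := ∑ z ∈ G, p z with hS
      have hSge : 1 / 2 ≤ S := by
        have h1 : ∑ z ∈ G, p z + ∑ z ∈ Finset.univ.filter (fun z => z ∉ G), p z = 1 := by
          rw [← hp1, ← Finset.sum_filter_add_sum_filter_not Finset.univ (fun z => z ∈ G) p]
          congr 1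
          refine Finset.sum_congr ?_ fun _ _ => rfl
          ext z; simp
        rw [hS]
        linarith
      set Δ : Fin q → (Fin v → Fin N) → ℝ := fun i' z =>
        ∑ d ∈ Q i ∩ Q i', D i' d (z d) with hΔ
      have hΔ0 : ∀ i' z, 0 ≤ Δ i' z := fun i' z => Finset.sum_nonneg fun d _ => hD0 _ _ _
      have hΔ1 : ∀ i' z, lam * Δ i' z ≤ 1 := by
        intro i' z
        have h1 : Δ i' z ≤ (v : ℝ) * (1 / H) := by
          calc Δ i' z ≤ ∑ _d ∈ Q i ∩ Q i', (1 / H) :=
                Finset.sum_le_sum fun d hd => hDH i' d (Finset.mem_inter.1 hd).2 _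
            _ = ((Q i ∩ Q i').card : ℝ) * (1 / H) := by rw [Finset.sum_const, nsmul_eq_mul]
            _ ≤ (v : ℝ) * (1 / H) := by
                apply mul_le_mul_of_nonneg_right _ (by positivity)
                have : (Q i ∩ Q i').card ≤ v := by
                  calc (Q i ∩ Q i').card ≤ (Finset.univ : Finset (Fin v)).card :=
                        Finset.card_le_univ _
                    _ = v := by simp
                exact_mod_cast this
        calc lam * Δ i' z ≤ lam * ((v : ℝ) * (1 / H)) := mul_le_mul_of_nonneg_left h1 hlp.le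
          _ = 1 := by rw [hlam]; field_simp
      have hΔe : ∀ i', ∑ z ∈ G, p z * Δ i' z ≤ e i i' := by
        intro i'
        calc ∑ z ∈ G, p z * Δ i' z ≤ ∑ z, p z * Δ i' z :=
              Finset.sum_le_sum_of_subset_of_nonneg (Finset.subset_univ _)
                fun z _ _ => mul_nonneg (hp0 z) (hΔ0 i' z)
          _ = ∑ d ∈ Q i ∩ Q i', ∑ z, p z * D i' d (z d) := by
              rw [hΔ]
              simp only [Finset.mul_sum]
              rw [Finset.sum_comm]
          _ = e i i' := by
              rw [he]
              refine Finset.sum_congr rfl fun d _ => ?_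
              exact hpD d (fun x => D i' d x)
      have hexpavg : ∀ i', ∑ z ∈ G, p z * Real.exp (lam * Δ i' z)
          ≤ S * Real.exp (4 * lam * e i i') := by
        intro i'
        calc ∑ z ∈ G, p z * Real.exp (lam * Δ i' z)
            ≤ ∑ z ∈ G, p z * (1 + 2 * (lam * Δ i' z)) :=
              Finset.sum_le_sum fun z _ => mul_le_mul_of_nonneg_left
                (exp_le_aux (mul_nonneg hlp.le (hΔ0 i' z)) (hΔ1 i' z)) (hp0 z)
          _ = S + 2 * lam * ∑ z ∈ G, p z * Δ i' z := by
              rw [hS, Finset.mul_sum, ← Finset.sum_add_distrib]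
              refine Finset.sum_congr rfl fun z _ => ?_
              ring
          _ ≤ S + 2 * lam * e i i' := by
              have := mul_le_mul_of_nonneg_left (hΔe i') (show 0 ≤ 2 * lam by positivity)
              linarith
          _ ≤ S * (1 + 4 * lam * e i i') := by
              have h1 : 0 ≤ lam * e i i' := mul_nonneg hlp.le (he0 i i')
              nlinarith
          _ ≤ S * Real.exp (4 * lam * e i i') := by
              apply mul_le_mul_of_nonneg_left _ (by linarith)
              have := Real.add_one_le_exp (4 * lam * e i i')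
              linarith
      -- the new potential
      have hfil : Finset.univ.filter (fun j : Fin q => j.val < k + 1)
          = insert i (Finset.univ.filter (fun j : Fin q => j.val < k)) := by
        ext j
        simp only [Finset.mem_filter, Finset.mem_univ, true_and, Finset.mem_insert, hi,
          Fin.ext_iff]
        omega
      have hni : i ∉ Finset.univ.filter (fun j : Fin q => j.val < k) := by
        simp [hi]
      have hfil2 : Finset.univ.filter (fun j : Fin q => k ≤ j.val)
          = insert i (Finset.univ.filter (fun j : Fin q => k + 1 ≤ j.val)) := by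
        ext j
        simp only [Finset.mem_filter, Finset.mem_univ, true_and, Finset.mem_insert, hi,
          Fin.ext_iff]
        omega
      have hni2 : i ∉ Finset.univ.filter (fun j : Fin q => k + 1 ≤ j.val) := by
        simp [hi]
      have hEk : ∀ i', Ef k i' = e i i' + Ef (k + 1) i' := by
        intro i'
        rw [hEf]
        simp only
        rw [hfil2, Finset.sum_insert hni2]
      have hKk : ∀ z i', Kf (Function.update y i z) (k + 1) i' = Kf y k i' + Δ i' z := by
        intro z i'
        rw [hKf, hΔ]
        simp only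
        rw [hfil, Finset.sum_insert hni, Function.update_self, add_comm]
        congr 1
        refine Finset.sum_congr rfl fun j hj => ?_
        have hji : j ≠ i := by
          rintro rfl
          exact hni hj
        rw [Function.update_of_ne hji]
      have havg : ∑ z ∈ G, p z * Ψ (Function.update y i z) (k + 1) ≤ S * Ψ y k := by
        calc ∑ z ∈ G, p z * Ψ (Function.update y i z) (k + 1)
            = ∑ i', Real.exp (lam * Kf y k i' + 4 * lam * Ef (k + 1) i') *
                ∑ z ∈ G, p z * Real.exp (lam * Δ i' z) := by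
              simp only [hΨ, Finset.mul_sum]
              rw [Finset.sum_comm]
              refine Finset.sum_congr rfl fun i' _ => Finset.sum_congr rfl fun z _ => ?_
              rw [hKk z i']
              have : lam * (Kf y k i' + Δ i' z) + 4 * lam * Ef (k + 1) i'
                = (lam * Kf y k i' + 4 * lam * Ef (k + 1) i') + lam * Δ i' z := by ring
              rw [this, Real.exp_add]
              ring
          _ ≤ ∑ i', Real.exp (lam * Kf y k i' + 4 * lam * Ef (k + 1) i') *
                (S * Real.exp (4 * lam * e i i')) :=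
              Finset.sum_le_sum fun i' _ => mul_le_mul_of_nonneg_left (hexpavg i')
                (Real.exp_pos _).le
          _ = S * Ψ y k := by
              simp only [hΨ, Finset.mul_sum]
              refine Finset.sum_congr rfl fun i' _ => ?_
              rw [hEk i']
              have : lam * Kf y k i' + 4 * lam * (e i i' + Ef (k + 1) i')
                = (lam * Kf y k i' + 4 * lam * Ef (k + 1) i') + 4 * lam * e i i' := by ring
              rw [this, Real.exp_add (lam * Kf y k i' + 4 * lam * Ef (k + 1) i')
                (4 * lam * e i i')]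
              ring
      have hzex : ∃ z ∈ G, 0 < p z ∧ Ψ (Function.update y i z) (k + 1) ≤ Ψ y k := by
        by_contra hcon
        push Not at hcon
        have h1 : S * Ψ y k < ∑ z ∈ G, p z * Ψ (Function.update y i z) (k + 1) := by
          rw [hS, Finset.sum_mul]
          have hpos : ∃ z ∈ G, 0 < p z := by
            by_contra hc
            push Not at hc
            have : S ≤ 0 := Finset.sum_nonpos hc
            linarith
          obtain ⟨z₁, hz₁, hpz₁⟩ := hpos
          refine Finset.sum_lt_sum (fun z hz => ?_) ⟨z₁, hz₁, ?_⟩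
          · rcases (hp0 z).eq_or_lt with h | h
            · rw [← h]; simp
            · exact mul_le_mul_of_nonneg_left (hcon z hz h).le (hp0 z)
          · exact mul_lt_mul_of_pos_left (hcon z₁ hz₁ hpz₁) hpz₁
        linarith
      obtain ⟨z, hzG, hpz, hzΨ⟩ := hzex
      have hzG' := (Finset.mem_filter.1 hzG).2
      refine ⟨Function.update y i z, ?_, ?_, hzΨ.trans hy3⟩
      · intro j hj
        by_cases hji : j = i
        · subst hji
          rw [Function.update_self]
          rw [hp] at hpz
          simp only at hpz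
          exact (div_pos_iff_of_pos_right (hWp _)).1 hpz
        · rw [Function.update_of_ne hji]
          apply hy1
          have : j.val ≠ k := fun h => hji (Fin.ext h)
          omega
      · intro j j' hj hj' hne d hd hd'
        by_cases hji : j = i
        · have hj'i : j' ≠ i := fun h => hne (hji.trans h.symm)
          have hj'k : j'.val < k := by
            have : j'.val ≠ k := fun h => hj'i (Fin.ext h)
            omega
          rw [hji, Function.update_self, Function.update_of_ne hj'i]
          exact hzG' j' hj'k d (Finset.mem_inter.2 ⟨hd', hji ▸ hd⟩)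
        · have hjk : j.val < k := by
            have : j.val ≠ k := fun h => hji (Fin.ext h)
            omega
          by_cases hj'i : j' = i
          · rw [hj'i, Function.update_self, Function.update_of_ne hji]
            exact (hzG' j hjk d (Finset.mem_inter.2 ⟨hd, hj'i ▸ hd'⟩)).symm
          · have hj'k : j'.val < k := by
              have : j'.val ≠ k := fun h => hj'i (Fin.ext h)
              omega
            rw [Function.update_of_ne hji, Function.update_of_ne hj'i]
            exact hy2 j j' hjk hj'k hne d hd hd'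
  obtain ⟨y, h1, h2, _⟩ := hstep q le_rfl
  exact ⟨y, fun i => h1 i i.isLt, fun i i' => h2 i i' i.isLt i'.isLt⟩

end Pool.Agent.CUB
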