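import Pool.Agent.CUB.Defs2

set_option autoImplicit false

/-!
# CUB.VST

Proof. For fixed `i` and `F`, `∑_{x} Gcnt t pos F (univ.erase i) ρ_x = Gcnt t pos F univ _` (`ρ_x i = x`;
the count depends only on `ρ i`), so by `TOT` and Markov at most `K₁ N/K₂` vertices `x` violate the
bound. There are `≤ 2^{v²}` sets `F`. `K₂ = 2^{v²+1} K₁/κ₁` gives at most `κ₁N/2 ≤ |V i|/2` bad
vertices.
-/

namespace Pool.Agent.CUB

open scoped Classical

private theorem VST_dep {v N M : ℕ} (t : Fin M × Fin 4 → Fin N) (pos : Fin v → Fin 4)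
    (F : Finset (Fin v × Fin v)) (i : Fin v) (ρ : Fin v → Fin N) :
    Gcnt t pos F (Finset.univ.erase i) ρ = Gcnt t pos F (Finset.univ.erase i) (fun _ => ρ i) := by
  unfold Gcnt
  congr 1
  apply Finset.filter_congr
  intro p _
  have h1 : ∀ σ : Fin v → Fin N, (∀ j, j ∉ Finset.univ.erase i → p.1 j = σ j) ↔ p.1 i = σ i := by
    intro σ
    constructor
    · intro h
      exact h i (by simp)
    · intro h j hj
      have : j = i := by simpa using hj
      rw [this]; exact h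
  rw [h1 ρ, h1 (fun _ => ρ i)]

private theorem VST_sum {v N M : ℕ} (t : Fin M × Fin 4 → Fin N) (pos : Fin v → Fin 4)
    (F : Finset (Fin v × Fin v)) (i : Fin v) (ρ : Fin v → Fin N) :
    ∑ x : Fin N, Gcnt t pos F (Finset.univ.erase i) (fun _ => x) = Gcnt t pos F Finset.univ ρ := by
  unfold Gcnt
  rw [Finset.card_eq_sum_card_fiberwise (f := fun p : (Fin v → Fin N) × (↥F → Fin M) => p.1 i)
    (t := Finset.univ) (fun _ _ => Finset.mem_coe.2 (Finset.mem_univ _))]
  apply Finset.sum_congr rfl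
  intro x _
  rw [Finset.filter_filter]
  congr 1
  apply Finset.filter_congr
  intro p _
  constructor
  · rintro ⟨h1, h2, h3⟩
    exact ⟨⟨fun j hj => absurd (Finset.mem_univ j) hj, h2, h3⟩, h1 i (by simp)⟩
  · rintro ⟨⟨_, h2, h3⟩, h1⟩
    refine ⟨?_, h2, h3⟩
    intro j hj
    have : j = i := by simpa using hj
    rw [this]; exact h1

/-- Large sets of vertices that lie in few copies of every pattern. -/
theorem vst (v : ℕ) (pos : Fin v → Fin 4) (κ₁ K₁ : ℝ) (hκ : 0 < κ₁) (hK : 0 < K₁) :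
    ∃ K₂ : ℝ, 0 < K₂ ∧ ∀ h N M : ℕ, 1 ≤ h → N = h ^ 96 → M = h ^ 152 →
    ∀ t : Fin M × Fin 4 → Fin N, TOT h K₁ t pos → ∀ V : Fin v → Finset (Fin N),
      (∀ i, κ₁ * (N : ℝ) ≤ ((V i).card : ℝ)) →
      ∃ S : Fin v → Finset (Fin N), (∀ i, S i ⊆ V i) ∧ (∀ i, (V i).card ≤ 2 * (S i).card) ∧
        ∀ i, ∀ x ∈ S i, ∀ F : Finset (Fin v × Fin v), PosD pos F → ∀ ρ : Fin v → Fin N, ρ i = x →
          (Gcnt t pos F (Finset.univ.erase i) ρ : ℝ)
            ≤ K₂ * ((h : ℝ) ^ (96 * v) / ((h : ℝ) ^ 96 * (h : ℝ) ^ (40 * F.card))) := by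
  let T : ℕ := Fintype.card (Finset (Fin v × Fin v))
  have hT : (0 : ℝ) < (T : ℝ) := by
    have : 0 < T := Fintype.card_pos
    exact_mod_cast this
  refine ⟨2 * (T : ℝ) * K₁ / κ₁, by positivity, ?_⟩
  intro h N M h1 hN hM t hTOT V hV
  have hh : (0 : ℝ) < (h : ℝ) := by exact_mod_cast h1
  have hNr : (N : ℝ) = (h : ℝ) ^ 96 := by rw [hN]; push_cast; ring
  let Bd : Finset (Fin v × Fin v) → ℝ := fun F =>
    (h : ℝ) ^ (96 * v) / ((h : ℝ) ^ 96 * (h : ℝ) ^ (40 * F.card))
  have hBd : ∀ F, 0 < Bd F := fun F => by positivity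
  let bad : Fin v → Finset (Fin v × Fin v) → Finset (Fin N) := fun i F =>
    Finset.univ.filter fun x => 2 * (T : ℝ) * K₁ / κ₁ * Bd F <
      (Gcnt t pos F (Finset.univ.erase i) (fun _ => x) : ℝ)
  have hbad : ∀ i F, PosD pos F → ((bad i F).card : ℝ) ≤ κ₁ * (N : ℝ) / (2 * (T : ℝ)) := by
    intro i F hF
    have hN0 : 0 < N := by rw [hN]; positivity
    have h2 := hTOT F (fun _ => ⟨0, hN0⟩) hF
    rw [← VST_sum t pos F i] at h2
    have h3 : ((bad i F).card : ℝ) * (2 * (T : ℝ) * K₁ / κ₁ * Bd F) ≤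
        ((∑ x : Fin N, Gcnt t pos F (Finset.univ.erase i) (fun _ => x) : ℕ) : ℝ) := by
      push_cast
      calc ((bad i F).card : ℝ) * (2 * (T : ℝ) * K₁ / κ₁ * Bd F)
          = ∑ x ∈ bad i F, (2 * (T : ℝ) * K₁ / κ₁ * Bd F) := by
            rw [Finset.sum_const, nsmul_eq_mul]
        _ ≤ ∑ x ∈ bad i F, (Gcnt t pos F (Finset.univ.erase i) (fun _ => x) : ℝ) := by
            apply Finset.sum_le_sum
            intro x hx
            exact (Finset.mem_filter.1 hx).2.le
        _ ≤ _ := by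
            apply Finset.sum_le_sum_of_subset_of_nonneg (Finset.subset_univ _)
            intro x _ _
            positivity
    have h4 : K₁ * ((h : ℝ) ^ (96 * v) / (h : ℝ) ^ (40 * F.card)) = K₁ * (N : ℝ) * Bd F := by
      simp only [Bd]
      rw [hNr]
      field_simp
    rw [h4] at h2
    have h5 := h3.trans h2
    have h6 : ((bad i F).card : ℝ) * (2 * (T : ℝ) * K₁ / κ₁) ≤ K₁ * (N : ℝ) := by
      have h7 : ((bad i F).card : ℝ) * (2 * (T : ℝ) * K₁ / κ₁) * Bd F ≤ K₁ * (N : ℝ) * Bd F := by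
        linarith
      exact le_of_mul_le_mul_right h7 (hBd F)
    rw [le_div_iff₀ (by positivity)]
    have h8 : ((bad i F).card : ℝ) * (2 * (T : ℝ) * K₁ / κ₁) =
        ((bad i F).card : ℝ) * (2 * (T : ℝ)) * (K₁ / κ₁) := by ring
    rw [h8] at h6
    have h9 : K₁ * (N : ℝ) = κ₁ * (N : ℝ) * (K₁ / κ₁) := by
      field_simp
    rw [h9] at h6
    exact le_of_mul_le_mul_right h6 (by positivity)
  let bb : Fin v → Finset (Fin N) := fun i =>
    (Finset.univ.filter fun F : Finset (Fin v × Fin v) => PosD pos F).biUnion (bad i)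
  have hbb : ∀ i, ((bb i).card : ℝ) ≤ κ₁ * (N : ℝ) / 2 := by
    intro i
    have h2 : ((bb i).card : ℝ) ≤
        ∑ F ∈ Finset.univ.filter (fun F : Finset (Fin v × Fin v) => PosD pos F),
          ((bad i F).card : ℝ) := by
      have := Finset.card_biUnion_le
        (s := Finset.univ.filter fun F : Finset (Fin v × Fin v) => PosD pos F) (t := bad i)
      exact_mod_cast this
    refine h2.trans ?_
    have h3 : ∑ F ∈ Finset.univ.filter (fun F : Finset (Fin v × Fin v) => PosD pos F),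
          ((bad i F).card : ℝ) ≤
        ∑ F ∈ Finset.univ.filter (fun F : Finset (Fin v × Fin v) => PosD pos F),
          κ₁ * (N : ℝ) / (2 * (T : ℝ)) := by
      apply Finset.sum_le_sum
      intro F hF
      exact hbad i F (Finset.mem_filter.1 hF).2
    refine h3.trans ?_
    rw [Finset.sum_const, nsmul_eq_mul]
    have h4 : (((Finset.univ.filter
        (fun F : Finset (Fin v × Fin v) => PosD pos F)).card : ℕ) : ℝ) ≤ (T : ℝ) := by
      exact_mod_cast Finset.card_le_univ _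
    calc _ ≤ (T : ℝ) * (κ₁ * (N : ℝ) / (2 * (T : ℝ))) := by gcongr
      _ = κ₁ * (N : ℝ) / 2 := by field_simp
  refine ⟨fun i => V i \ bb i, fun i => Finset.sdiff_subset, ?_, ?_⟩
  · intro i
    have h2 := Finset.le_card_sdiff (bb i) (V i)
    have h3 := hbb i
    have h4 := hV i
    have h5 : 2 * (bb i).card ≤ (V i).card := by
      have h6 : (2 : ℝ) * ((bb i).card : ℝ) ≤ ((V i).card : ℝ) := by linarith
      exact_mod_cast h6
    show (V i).card ≤ 2 * (V i \ bb i).card
    omega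
  · intro i x hx F hF ρ hρ
    by_contra hcon
    push Not at hcon
    have h2 : x ∉ bb i := (Finset.mem_sdiff.1 hx).2
    apply h2
    rw [Finset.mem_biUnion]
    refine ⟨F, by simp [hF], ?_⟩
    rw [Finset.mem_filter]
    refine ⟨Finset.mem_univ _, ?_⟩
    rw [VST_dep, hρ] at hcon
    exact hcon

end Pool.Agent.CUB
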