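import Pool.Agent.CUB.Defs2

set_option autoImplicit false

/-!
# CUB.EKF

ek4: greedy induction: with `j < q` blocks chosen let `R' a = Vr a \ {t (ι j', a) : j' < j}`, of size
`≥ |Vr a| - q ≥ |Vr a|/2`. k4d: if `x₁..x₄` is a `K_4`, then every `x_i` has its three neighbours inside,
so two `K_4`'s sharing a vertex coincide and nothing else is adjacent to them. Let `q` be the number of
4-element cliques (finsets), enumerate them (`Finset.equivFin`), and each by `Fin 4`.
-/

namespace Pool.Agent.CUB

open scoped Classical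

/-- Greedy choice of disjoint blocks inside the reserved parts. -/
theorem ek4 {N M : ℕ} (t : Fin M × Fin 4 → Fin N) (L0 : Finset (Fin M))
    (Vr : Fin 4 → Finset (Fin N))
    (hR : ∀ R' : Fin 4 → Finset (Fin N), (∀ a, R' a ⊆ Vr a) →
      (∀ a, (Vr a).card ≤ 2 * (R' a).card) → ∃ i ∈ L0, ∀ a, t (i, a) ∈ R' a)
    (q : ℕ) (hq : ∀ a, 2 * q ≤ (Vr a).card) :
    ∃ ι : Fin q → Fin M, (∀ j, ι j ∈ L0) ∧ (∀ j a, t (ι j, a) ∈ Vr a) ∧
      ∀ j j', j ≠ j' → ∀ a, t (ι j, a) ≠ t (ι j', a) := by
  have key : ∀ k : ℕ, k ≤ q → ∃ ι : Fin k → Fin M, (∀ j, ι j ∈ L0) ∧ (∀ j a, t (ι j, a) ∈ Vr a) ∧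
      ∀ j j', j ≠ j' → ∀ a, t (ι j, a) ≠ t (ι j', a) := by
    intro k
    induction k with
    | zero =>
      intro _
      exact ⟨fun j => j.elim0, fun j => j.elim0, fun j => j.elim0, fun j => j.elim0⟩
    | succ k ih =>
      intro hk
      obtain ⟨ι, h1, h2, h3⟩ := ih (by omega)
      obtain ⟨i, hi, hi'⟩ := hR (fun a => Vr a \ Finset.univ.image fun j : Fin k => t (ι j, a))
        (fun a => Finset.sdiff_subset) (by
          intro a
          have h4 : (Finset.univ.image fun j : Fin k => t (ι j, a)).card ≤ k := by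
            refine Finset.card_image_le.trans ?_
            simp
          have h5 := Finset.le_card_sdiff (Finset.univ.image fun j : Fin k => t (ι j, a)) (Vr a)
          have h6 := hq a
          omega)
      refine ⟨Fin.snoc ι i, ?_, ?_, ?_⟩
      · intro j
        refine Fin.lastCases ?_ (fun j => ?_) j
        · simpa using hi
        · simpa using h1 j
      · intro j
        refine Fin.lastCases ?_ (fun j => ?_) j
        · intro a
          have := hi' a
          simp only [Finset.mem_sdiff] at this
          simpa using this.1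
        · intro a
          simpa using h2 j a
      · have hne : ∀ j a, t (ι j, a) ≠ t (i, a) := by
          intro j a hja
          have := hi' a
          simp only [Finset.mem_sdiff, Finset.mem_image, Finset.mem_univ, true_and,
            not_exists] at this
          exact this.2 j hja
        intro j j'
        refine Fin.lastCases ?_ (fun j => ?_) j
        · refine Fin.lastCases ?_ (fun j' => ?_) j'
          · intro h; exact absurd rfl h
          · intro _ a
            simpa using (hne j' a).symm
        · refine Fin.lastCases ?_ (fun j' => ?_) j'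
          · intro _ a
            simpa using hne j a
          · intro h a
            have : j ≠ j' := by
              rintro rfl
              exact h rfl
            simpa using h3 j j' this a
  exact key q le_rfl

private theorem EKF_nbr (n : ℕ) (H : SimpleGraph (Fin n))
    (hdeg : ∀ x, (H.neighborSet x).ncard ≤ 3) (s : Finset (Fin n)) (hs : s.card = 4)
    (hcl : ∀ x ∈ s, ∀ y ∈ s, x ≠ y → H.Adj x y) (x : Fin n) (hx : x ∈ s) (y : Fin n)
    (hxy : H.Adj x y) : y ∈ s := by
  by_contra hy
  have h1 : ((insert y (s.erase x) : Finset (Fin n)) : Set (Fin n)) ⊆ H.neighborSet x := by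
    intro z hz
    simp only [Finset.coe_insert, Finset.coe_erase, Set.mem_insert_iff, Set.mem_sdiff,
      Finset.mem_coe, Set.mem_singleton_iff] at hz
    rw [SimpleGraph.mem_neighborSet]
    rcases hz with rfl | hz
    · exact hxy
    · exact hcl x hx z hz.1 (fun h => hz.2 h.symm)
  have h2 := Set.ncard_le_ncard h1 (Set.toFinite _)
  rw [Set.ncard_coe_finset, Finset.card_insert_of_notMem (by simp [hy]),
    Finset.card_erase_of_mem hx] at h2
  have := hdeg x
  omega

/-- The `K_4`'s of a subcubic graph are components. -/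
theorem k4d (n : ℕ) (H : SimpleGraph (Fin n)) (hdeg : ∀ x, (H.neighborSet x).ncard ≤ 3) :
    ∃ (q : ℕ) (κ : Fin q → Fin 4 → Fin n),
      (∀ i a j b, κ i a = κ j b → i = j ∧ a = b) ∧
      (∀ i a b, a ≠ b → H.Adj (κ i a) (κ i b)) ∧
      (∀ i a x, H.Adj (κ i a) x → ∃ b, x = κ i b) ∧
      (∀ x₁ x₂ x₃ x₄ : Fin n, H.Adj x₁ x₂ → H.Adj x₁ x₃ → H.Adj x₁ x₄ → H.Adj x₂ x₃ →
        H.Adj x₂ x₄ → H.Adj x₃ x₄ → ∃ i a, κ i a = x₁) := by
  let C : Finset (Finset (Fin n)) := Finset.univ.filter fun s =>
    s.card = 4 ∧ ∀ x ∈ s, ∀ y ∈ s, x ≠ y → H.Adj x y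
  have hC : ∀ s ∈ C, s.card = 4 ∧ ∀ x ∈ s, ∀ y ∈ s, x ≠ y → H.Adj x y := by
    intro s hs
    exact (Finset.mem_filter.1 hs).2
  let e := C.equivFin
  have hs : ∀ i : Fin C.card, ((e.symm i : C) : Finset (Fin n)).card = 4 := fun i =>
    (hC _ (e.symm i).2).1
  let f : ∀ i : Fin C.card, ((e.symm i : C) : Finset (Fin n)) ≃ Fin 4 := fun i =>
    ((e.symm i : C) : Finset (Fin n)).equivFinOfCardEq (hs i)
  have hmem : ∀ i a, (((f i).symm a : ((e.symm i : C) : Finset (Fin n))) : Fin n) ∈
      ((e.symm i : C) : Finset (Fin n)) := fun i a => ((f i).symm a).2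
  refine ⟨C.card, fun i a => ((f i).symm a : ((e.symm i : C) : Finset (Fin n))), ?_, ?_, ?_, ?_⟩
  · intro i a j b h
    have hij : i = j := by
      have h1 : ((e.symm i : C) : Finset (Fin n)) = ((e.symm j : C) : Finset (Fin n)) := by
        have hsub : ∀ i' j' : Fin C.card, ∀ x, x ∈ ((e.symm i' : C) : Finset (Fin n)) →
            x ∈ ((e.symm j' : C) : Finset (Fin n)) →
            ((e.symm i' : C) : Finset (Fin n)) ⊆ ((e.symm j' : C) : Finset (Fin n)) := by
          intro i' j' x hx hx' y hy
          by_cases hxy : x = y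
          · rw [← hxy]; exact hx'
          · exact EKF_nbr n H hdeg _ (hs j') (hC _ (e.symm j').2).2 x hx' y
              ((hC _ (e.symm i').2).2 x hx y hy hxy)
        have hxi := hmem i a
        have hxj : (((f i).symm a : ((e.symm i : C) : Finset (Fin n))) : Fin n) ∈
            ((e.symm j : C) : Finset (Fin n)) := by
          have h2 := hmem j b
          have h3 : (((f i).symm a : ((e.symm i : C) : Finset (Fin n))) : Fin n) =
              (((f j).symm b : ((e.symm j : C) : Finset (Fin n))) : Fin n) := h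
          rw [h3]; exact h2
        exact Finset.Subset.antisymm (hsub i j _ hxi hxj) (hsub j i _ hxj hxi)
      have h2 : e.symm i = e.symm j := Subtype.ext h1
      exact e.symm.injective h2
    subst hij
    refine ⟨rfl, ?_⟩
    have h2 : (f i).symm a = (f i).symm b := Subtype.ext h
    exact (f i).symm.injective h2
  · intro i a b hab
    refine (hC _ (e.symm i).2).2 _ (hmem i a) _ (hmem i b) ?_
    intro h
    exact hab ((f i).symm.injective (Subtype.ext h))
  · intro i a x hx
    have h1 := EKF_nbr n H hdeg _ (hs i) (hC _ (e.symm i).2).2 _ (hmem i a) x hx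
    refine ⟨f i ⟨x, h1⟩, ?_⟩
    simp
  · intro x₁ x₂ x₃ x₄ h12 h13 h14 h23 h24 h34
    have hin : ({x₁, x₂, x₃, x₄} : Finset (Fin n)) ∈ C := by
      rw [Finset.mem_filter]
      refine ⟨Finset.mem_univ _, ?_, ?_⟩
      · rw [Finset.card_insert_of_notMem, Finset.card_insert_of_notMem,
          Finset.card_insert_of_notMem, Finset.card_singleton]
        · simpa using h34.ne
        · simp [h23.ne, h24.ne]
        · simp [h12.ne, h13.ne, h14.ne]
      · intro x hx y hy hxy
        simp only [Finset.mem_insert, Finset.mem_singleton] at hx hy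
        rcases hx with rfl | rfl | rfl | rfl <;> rcases hy with rfl | rfl | rfl | rfl <;>
          first
            | exact absurd rfl hxy
            | assumption
            | (apply SimpleGraph.Adj.symm; assumption)
    have h1 : x₁ ∈ ((e.symm (e ⟨_, hin⟩) : C) : Finset (Fin n)) := by simp
    refine ⟨e ⟨_, hin⟩, f _ ⟨x₁, h1⟩, ?_⟩
    simp

end Pool.Agent.CUB
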