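import Pool.Agent.CUB.Defs2

set_option autoImplicit false

/-!
# CUB.GRF

Decomposition of subcubic graphs.
-/

namespace Pool.Agent.CUB

open scoped Classical

namespace GRFaux

variable {X : Type} [Fintype X]

/-- Neighbours as a finset. -/
noncomputable def nb (H : SimpleGraph X) (x : X) : Finset X :=
  Finset.univ.filter fun y => H.Adj x y

theorem mem_nb {H : SimpleGraph X} {x y : X} : y ∈ nb H x ↔ H.Adj x y := by
  simp [nb]

theorem card_nb {H : SimpleGraph X} (hdeg : ∀ x, (H.neighborSet x).ncard ≤ 3) (x : X) :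
    (nb H x).card ≤ 3 := by
  have h : H.neighborSet x = (nb H x : Set X) := by
    ext y
    simp [mem_nb]
  have h2 := hdeg x
  rwa [h, Set.ncard_coe_finset] at h2

/-- Good families of triples. -/
def GFam (H : SimpleGraph X) (F : Finset (Finset X)) : Prop :=
  (∀ T ∈ F, T.card = 3 ∧ (H.induce (T : Set X)).Connected) ∧
  (∀ T ∈ F, ∀ T' ∈ F, T ≠ T' → Disjoint T T' ∧ ∀ u ∈ T, ∀ w ∈ T', ¬ H.Adj u w)

omit [Fintype X] in
theorem conn_star (H : SimpleGraph X) (x : X) (S : Finset X) (hx : x ∈ S)
    (h : ∀ y ∈ S, y ≠ x → H.Adj x y) : (H.induce (S : Set X)).Connected := by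
  rw [SimpleGraph.connected_iff_exists_forall_reachable]
  refine ⟨⟨x, hx⟩, ?_⟩
  rintro ⟨y, hy⟩
  by_cases hyx : y = x
  · subst hyx
    exact SimpleGraph.Reachable.refl _
  · apply SimpleGraph.Adj.reachable
    exact h y hy hyx

omit [Fintype X] in
theorem conn_ext (H : SimpleGraph X) (T S : Finset X) (hTS : T ⊆ S)
    (hT : (H.induce (T : Set X)).Connected)
    (h : ∀ y ∈ S, y ∈ T ∨ ∃ u ∈ T, H.Adj y u) : (H.induce (S : Set X)).Connected := by
  rw [SimpleGraph.connected_iff_exists_forall_reachable] at hT ⊢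
  obtain ⟨⟨x, hx⟩, hr⟩ := hT
  have key : ∀ y (hy : y ∈ T), (H.induce (S : Set X)).Reachable ⟨x, hTS hx⟩ ⟨y, hTS hy⟩ := by
    intro y hy
    have h1 := hr ⟨y, hy⟩
    have hsub : (T : Set X) ⊆ (S : Set X) := by exact_mod_cast hTS
    exact h1.map (SimpleGraph.induceHomOfLE H hsub).toHom
  refine ⟨⟨x, hTS hx⟩, ?_⟩
  rintro ⟨y, hy⟩
  rcases h y hy with h1 | ⟨u, hu, hadj⟩
  · exact key y h1
  · refine (key u hu).trans ?_
    apply SimpleGraph.Adj.reachable
    exact hadj.symm

omit [Fintype X] in
theorem conn_nbr (H : SimpleGraph X) (T : Finset X) (hc : 2 ≤ T.card)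
    (hT : (H.induce (T : Set X)).Connected) (x : X) (hx : x ∈ T) : ∃ y ∈ T, H.Adj x y := by
  obtain ⟨y, hy, hyx⟩ := Finset.exists_mem_ne (by omega : 1 < T.card) x
  have hr := hT.preconnected ⟨x, hx⟩ ⟨y, hy⟩
  obtain ⟨w⟩ := hr
  cases w with
  | nil => exact absurd rfl hyx
  | cons h p =>
    rename_i v
    exact ⟨v.1, v.2, h⟩

theorem out1 {H : SimpleGraph X} (hdeg : ∀ x, (H.neighborSet x).ncard ≤ 3) (T : Finset X) (x y : X)
    (hy : y ∈ T) (h : H.Adj x y) : (nb H x \ T).card ≤ 2 := by
  have h1 := Finset.card_sdiff_add_card_inter (nb H x) T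
  have h2 := card_nb hdeg x
  have h3 : 0 < (nb H x ∩ T).card :=
    Finset.card_pos.mpr ⟨y, Finset.mem_inter.mpr ⟨mem_nb.mpr h, hy⟩⟩
  omega

theorem out2 {H : SimpleGraph X} (hdeg : ∀ x, (H.neighborSet x).ncard ≤ 3) (T : Finset X)
    (x y z : X) (hy : y ∈ T) (hz : z ∈ T) (hyz : y ≠ z) (h : H.Adj x y) (h' : H.Adj x z) :
    (nb H x \ T).card ≤ 1 := by
  have h1 := Finset.card_sdiff_add_card_inter (nb H x) T
  have h2 := card_nb hdeg x
  have h3 : ({y, z} : Finset X) ⊆ nb H x ∩ T := by
    intro w hw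
    rcases Finset.mem_insert.mp hw with rfl | hw
    · exact Finset.mem_inter.mpr ⟨mem_nb.mpr h, hy⟩
    · rw [Finset.mem_singleton] at hw
      subst hw
      exact Finset.mem_inter.mpr ⟨mem_nb.mpr h', hz⟩
  have h4 := Finset.card_le_card h3
  rw [Finset.card_pair hyz] at h4
  omega

theorem out_card {H : SimpleGraph X} (hdeg : ∀ x, (H.neighborSet x).ncard ≤ 3) (T : Finset X)
    (h3 : T.card = 3) (hT : (H.induce (T : Set X)).Connected) :
    (T.biUnion fun x => nb H x \ T).card ≤ 5 := by
  have hle := Finset.card_biUnion_le (s := T) (t := fun x => nb H x \ T)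
  refine hle.trans ?_
  obtain ⟨a, b, c, hab, hac, hbc, rfl⟩ := Finset.card_eq_three.mp h3
  set T : Finset X := {a, b, c} with hTdef
  have ha : a ∈ T := by simp [hTdef]
  have hb : b ∈ T := by simp [hTdef]
  have hc : c ∈ T := by simp [hTdef]
  have hsum : ∑ x ∈ T, (nb H x \ T).card
      = (nb H a \ T).card + (nb H b \ T).card + (nb H c \ T).card := by
    rw [hTdef, Finset.sum_insert (by simp [hab, hac]), Finset.sum_insert (by simp [hbc]),
      Finset.sum_singleton]
    ring
  rw [hsum]
  obtain ⟨ya, hya, ada⟩ := conn_nbr H T (by omega) hT a ha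
  obtain ⟨yb, hyb, adb⟩ := conn_nbr H T (by omega) hT b hb
  obtain ⟨yc, hyc, adc⟩ := conn_nbr H T (by omega) hT c hc
  have oa := out1 hdeg T a ya hya ada
  have ob := out1 hdeg T b yb hyb adb
  have oc := out1 hdeg T c yc hyc adc
  have mem3 : ∀ y ∈ T, y = a ∨ y = b ∨ y = c := by
    intro y hy
    simpa [hTdef] using hy
  rcases mem3 ya hya with e | e | e
  · exact absurd (e ▸ ada) (H.loopless.irrefl _)
  · subst e
    -- a ~ ya
    rcases mem3 yc hyc with e' | e' | e'
    · subst e'
      have := out2 hdeg T yc ya c hb hc hbc ada adc.symm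
      omega
    · subst e'
      have := out2 hdeg T yc a c ha hc hac ada.symm adc.symm
      omega
    · exact absurd (e' ▸ adc) (H.loopless.irrefl _)
  · subst e
    rcases mem3 yb hyb with e' | e' | e'
    · subst e'
      have := out2 hdeg T yb b ya hb hc hbc adb.symm ada
      omega
    · exact absurd (e' ▸ adb) (H.loopless.irrefl _)
    · subst e'
      have := out2 hdeg T yb a b ha hb hab ada.symm adb.symm
      omega

end GRFaux

open GRFaux

/-- Decomposition of subcubic `K_4`-free graphs. -/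
theorem grf (X : Type) [Fintype X] (H : SimpleGraph X)
    (hdeg : ∀ x, (H.neighborSet x).ncard ≤ 3)
    (hK4 : ∀ x₁ x₂ x₃ x₄ : X, H.Adj x₁ x₂ → H.Adj x₁ x₃ → H.Adj x₁ x₄ → H.Adj x₂ x₃ →
        H.Adj x₂ x₄ → H.Adj x₃ x₄ → False) :
    ∃ (U : Finset X) (par : X → X) (rk : X → ℕ) (q : ℕ) (Q : Fin q → Finset X),
      Decomp H U par rk q Q := by
  -- maximal family
  obtain ⟨F, hF, hFmax⟩ := Finset.exists_max_image
    ((Finset.univ : Finset (Finset (Finset X))).filter (GFam H)) Finset.card
    ⟨∅, by simp [GFam]⟩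
  have hFg : GFam H F := (Finset.mem_filter.mp hF).2
  set U₀ : Finset X := F.biUnion id with hU₀
  have memU₀ : ∀ u, u ∈ U₀ ↔ ∃ T ∈ F, u ∈ T := by
    intro u
    simp [hU₀]
  -- Claim 1
  have claim1 : ∀ x y z : X, y ≠ z → H.Adj x y → H.Adj x z →
      (x ∉ U₀ ∧ ∀ u ∈ U₀, ¬ H.Adj x u) → (y ∉ U₀ ∧ ∀ u ∈ U₀, ¬ H.Adj y u) →
      (z ∉ U₀ ∧ ∀ u ∈ U₀, ¬ H.Adj z u) → False := by
    intro x y z hyz hxy hxz hx hy hz
    set S : Finset X := {x, y, z} with hS
    have hxy' : x ≠ y := hxy.ne
    have hxz' : x ≠ z := hxz.ne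
    have hS3 : S.card = 3 := by
      rw [hS]
      exact Finset.card_eq_three.mpr ⟨x, y, z, hxy', hxz', hyz, rfl⟩
    have hSp : ∀ w ∈ S, w ∉ U₀ ∧ ∀ u ∈ U₀, ¬ H.Adj w u := by
      intro w hw
      rw [hS] at hw
      simp only [Finset.mem_insert, Finset.mem_singleton] at hw
      rcases hw with rfl | rfl | rfl
      · exact hx
      · exact hy
      · exact hz
    have hSF : S ∉ F := by
      intro hSF
      exact hx.1 ((memU₀ x).mpr ⟨S, hSF, by simp [hS]⟩)
    have hconn : (H.induce (S : Set X)).Connected := by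
      apply conn_star H x S (by simp [hS])
      intro w hw hwx
      rw [hS] at hw
      simp only [Finset.mem_insert, Finset.mem_singleton] at hw
      rcases hw with rfl | rfl | rfl
      · exact absurd rfl hwx
      · exact hxy
      · exact hxz
    have hnew : GFam H (insert S F) := by
      constructor
      · intro T hT
        rcases Finset.mem_insert.mp hT with rfl | hT
        · exact ⟨hS3, hconn⟩
        · exact hFg.1 T hT
      · intro T hT T' hT' hne
        rcases Finset.mem_insert.mp hT with rfl | hT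
        · rcases Finset.mem_insert.mp hT' with rfl | hT'
          · exact absurd rfl hne
          · refine ⟨?_, ?_⟩
            · rw [Finset.disjoint_left]
              intro w hw hw'
              exact (hSp w hw).1 ((memU₀ w).mpr ⟨T', hT', hw'⟩)
            · intro u hu w hw
              exact (hSp u hu).2 w ((memU₀ w).mpr ⟨T', hT', hw⟩)
        · rcases Finset.mem_insert.mp hT' with rfl | hT'
          · refine ⟨?_, ?_⟩
            · rw [Finset.disjoint_left]
              intro w hw hw'
              exact (hSp w hw').1 ((memU₀ w).mpr ⟨T, hT, hw⟩)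
            · intro u hu w hw hadj
              exact (hSp w hw).2 u ((memU₀ u).mpr ⟨T, hT, hu⟩) hadj.symm
          · exact hFg.2 T hT T' hT' hne
    have hle := hFmax (insert S F) (Finset.mem_filter.mpr ⟨Finset.mem_univ _, hnew⟩)
    rw [Finset.card_insert_of_notMem hSF] at hle
    omega
  -- N₁
  let N1 : X → Prop := fun x => x ∉ U₀ ∧ ∃ u ∈ U₀, H.Adj x u
  -- outside degree
  have outN1 : ∀ x, N1 x → (nb H x \ U₀).card ≤ 2 := by
    rintro x ⟨-, u, hu, hadj⟩
    exact out1 hdeg U₀ x u hu hadj
  -- maximal independent set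
  let ZP : Finset X → Prop := fun Z => (∀ z ∈ Z, N1 z ∧ (nb H z \ U₀).card = 2) ∧
    ∀ z ∈ Z, ∀ z' ∈ Z, ¬ H.Adj z z'
  obtain ⟨Z, hZ, hZmax⟩ := Finset.exists_max_image
    ((Finset.univ : Finset (Finset X)).filter ZP) Finset.card
    ⟨∅, by simp [ZP]⟩
  have hZg : ZP Z := (Finset.mem_filter.mp hZ).2
  set U : Finset X := U₀ ∪ Z with hU
  -- Claim 3
  have claim3 : ∀ w, N1 w → w ∉ U → ∀ y z, y ∉ U → z ∉ U → H.Adj w y → H.Adj w z → y = z := by
    intro w hw hwU y z hy hz hwy hwz
    by_contra hyz
    have hyU₀ : y ∉ U₀ := fun h => hy (Finset.mem_union_left _ h)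
    have hzU₀ : z ∉ U₀ := fun h => hz (Finset.mem_union_left _ h)
    have hwZ : w ∉ Z := fun h => hwU (Finset.mem_union_right _ h)
    have hsub : ({y, z} : Finset X) ⊆ nb H w \ U₀ := by
      intro v hv
      rcases Finset.mem_insert.mp hv with rfl | hv
      · exact Finset.mem_sdiff.mpr ⟨mem_nb.mpr hwy, hyU₀⟩
      · rw [Finset.mem_singleton] at hv
        subst hv
        exact Finset.mem_sdiff.mpr ⟨mem_nb.mpr hwz, hzU₀⟩
    have hc2 := outN1 w hw
    have heq : ({y, z} : Finset X) = nb H w \ U₀ :=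
      Finset.eq_of_subset_of_card_le hsub (by rw [Finset.card_pair hyz]; exact hc2)
    have hcard : (nb H w \ U₀).card = 2 := by
      rw [← heq, Finset.card_pair hyz]
    by_cases hex : ∃ v ∈ Z, H.Adj w v
    · obtain ⟨v, hv, hadj⟩ := hex
      have hvm : v ∈ nb H w \ U₀ :=
        Finset.mem_sdiff.mpr ⟨mem_nb.mpr hadj, (hZg.1 v hv).1.1⟩
      rw [← heq] at hvm
      rcases Finset.mem_insert.mp hvm with rfl | hvm
      · exact hy (Finset.mem_union_right _ hv)
      · rw [Finset.mem_singleton] at hvm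
        subst hvm
        exact hz (Finset.mem_union_right _ hv)
    · push Not at hex
      have hnew : ZP (insert w Z) := by
        constructor
        · intro v hv
          rcases Finset.mem_insert.mp hv with rfl | hv
          · exact ⟨hw, hcard⟩
          · exact hZg.1 v hv
        · intro v hv v' hv'
          rcases Finset.mem_insert.mp hv with e1 | hv2
          · rcases Finset.mem_insert.mp hv' with e2 | hv2'
            · rw [e1, e2]
              exact H.loopless.irrefl _
            · rw [e1]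
              exact hex v' hv2'
          · rcases Finset.mem_insert.mp hv' with e2 | hv2'
            · rw [e2]
              exact fun h => hex v hv2 h.symm
            · exact hZg.2 v hv2 v' hv2'
      have hle := hZmax (insert w Z) (Finset.mem_filter.mpr ⟨Finset.mem_univ _, hnew⟩)
      rw [Finset.card_insert_of_notMem hwZ] at hle
      omega
  -- order
  let ν : X → ℕ := fun x => (Fintype.equivFin X x : ℕ)
  have hνlt : ∀ x, ν x < Fintype.card X := fun x => (Fintype.equivFin X x).2
  have hνinj : ∀ x y, ν x = ν y → x = y := by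
    intro x y h
    exact (Fintype.equivFin X).injective (Fin.ext h)
  let μ : X → ℕ := fun x => ν x + if N1 x then Fintype.card X else 0
  have hμinj : ∀ x y, μ x = μ y → x = y := by
    intro x y h
    have hx := hνlt x
    have hy := hνlt y
    apply hνinj
    simp only [μ] at h
    split_ifs at h <;> omega
  have hμN : ∀ x y, ¬ N1 x → μ y < μ x → ¬ N1 y := by
    intro x y hx h hy
    have hx' := hνlt x
    simp only [μ, hx, hy, if_true, if_false] at h
    omega
  have notN : ∀ x, x ∉ U → ¬ N1 x → x ∉ U₀ ∧ ∀ u ∈ U₀, ¬ H.Adj x u := by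
    intro x hx hn
    have h1 : x ∉ U₀ := fun h => hx (Finset.mem_union_left _ h)
    refine ⟨h1, ?_⟩
    intro u hu hadj
    exact hn ⟨h1, u, hu, hadj⟩
  -- parent relation
  let P : X → X → Prop := fun w y => H.Adj y w ∧ y ∉ U ∧ μ y < μ w
  have hPuniq : ∀ w, w ∉ U → ∀ y z, P w y → P w z → y = z := by
    intro w hw y z hy hz
    by_cases hN : N1 w
    · exact claim3 w hN hw y z hy.2.1 hz.2.1 hy.1.symm hz.1.symm
    · by_contra hyz
      have hyN := hμN w y hN hy.2.2
      have hzN := hμN w z hN hz.2.2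
      exact claim1 w y z hyz hy.1.symm hz.1.symm (notN w hw hN) (notN y hy.2.1 hyN)
        (notN z hz.2.1 hzN)
  let par : X → X := fun w => if h : ∃ y, P w y then h.choose else w
  have hpar1 : ∀ w, par w ≠ w → P w (par w) := by
    intro w hw
    by_cases h : ∃ y, P w y
    · have : par w = h.choose := by simp only [par, dif_pos h]
      rw [this]
      exact h.choose_spec
    · have : par w = w := by simp only [par, dif_neg h]
      exact absurd this hw
  have hpar2 : ∀ w, w ∉ U → ∀ y, P w y → par w = y := by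
    intro w hw y hy
    have h : ∃ y, P w y := ⟨y, hy⟩
    have h1 : par w = h.choose := by simp only [par, dif_pos h]
    rw [h1]
    exact hPuniq w hw _ _ h.choose_spec hy
  let rk : X → ℕ := fun w => if par w = w then 0 else if ¬ N1 w then 1 else
    if ¬ N1 (par w) then 2 else 1
  -- pieces
  let pc : Finset X → Finset X := fun T => T ∪ Z.filter fun z => ∃ u ∈ T, H.Adj z u
  let e := F.equivFin
  refine ⟨U, par, rk, F.card, fun i => pc (e.symm i : Finset X), ?_⟩
  have hZone : ∀ z ∈ Z, ∀ u ∈ U₀, ∀ u' ∈ U₀, H.Adj z u → H.Adj z u' → u = u' := by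
    intro z hz u hu u' hu' h h'
    by_contra hne
    have h1 := out2 hdeg U₀ z u u' hu hu' hne h h'
    have h2 := (hZg.1 z hz).2
    omega
  have pc_sub : ∀ T ∈ F, pc T ⊆ U := by
    intro T hT w hw
    rcases Finset.mem_union.mp hw with h | h
    · exact Finset.mem_union_left _ ((memU₀ w).mpr ⟨T, hT, h⟩)
    · exact Finset.mem_union_right _ (Finset.mem_filter.mp h).1
  have pc_dis : ∀ T ∈ F, ∀ T' ∈ F, T ≠ T' → Disjoint (pc T) (pc T') := by
    intro T hT T' hT' hne
    rw [Finset.disjoint_left]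
    intro w hw hw'
    have hd := (hFg.2 T hT T' hT' hne).1
    rcases Finset.mem_union.mp hw with h | h
    · have hwU : w ∈ U₀ := (memU₀ w).mpr ⟨T, hT, h⟩
      rcases Finset.mem_union.mp hw' with h' | h'
      · exact (Finset.disjoint_left.mp hd) h h'
      · exact (hZg.1 w (Finset.mem_filter.mp h').1).1.1 hwU
    · obtain ⟨hwZ, u, hu, hadj⟩ := Finset.mem_filter.mp h
      rcases Finset.mem_union.mp hw' with h' | h'
      · exact (hZg.1 w hwZ).1.1 ((memU₀ w).mpr ⟨T', hT', h'⟩)
      · obtain ⟨-, u', hu', hadj'⟩ := Finset.mem_filter.mp h'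
        have := hZone w hwZ u ((memU₀ u).mpr ⟨T, hT, hu⟩) u' ((memU₀ u').mpr ⟨T', hT', hu'⟩)
          hadj hadj'
        subst this
        exact (Finset.disjoint_left.mp hd) hu hu'
  have pc_cov : ∀ u ∈ U, ∃ T ∈ F, u ∈ pc T := by
    intro u hu
    rcases Finset.mem_union.mp hu with h | h
    · obtain ⟨T, hT, huT⟩ := (memU₀ u).mp h
      exact ⟨T, hT, Finset.mem_union_left _ huT⟩
    · obtain ⟨-, v, hv, hadj⟩ := (hZg.1 u h).1
      obtain ⟨T, hT, hvT⟩ := (memU₀ v).mp hv
      exact ⟨T, hT, Finset.mem_union_right _ (Finset.mem_filter.mpr ⟨h, v, hvT, hadj⟩)⟩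
  have idx : ∀ T (hT : T ∈ F), ((e.symm (e ⟨T, hT⟩) : F) : Finset X) = T := by
    intro T hT
    simp
  refine
    { sub := ?_
      cov := ?_
      dis := ?_
      lo := ?_
      hi := ?_
      conn := ?_
      adjU := ?_
      parW := ?_
      parA := ?_
      rk3 := ?_
      adjW := ?_ }
  · intro i
    exact pc_sub _ (e.symm i).2
  · intro u hu
    obtain ⟨T, hT, h⟩ := pc_cov u hu
    refine ⟨e ⟨T, hT⟩, ?_⟩
    simp only [idx]
    exact h
  · intro i j hij
    apply pc_dis _ (e.symm i).2 _ (e.symm j).2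
    intro h
    exact hij (e.symm.injective (Subtype.ext h))
  · intro i
    have h3 := (hFg.1 _ (e.symm i).2).1
    calc 3 = ((e.symm i : F) : Finset X).card := h3.symm
      _ ≤ _ := Finset.card_le_card Finset.subset_union_left
  · intro i
    have hT := hFg.1 _ (e.symm i).2
    set T : Finset X := ((e.symm i : F) : Finset X) with hTd
    have h5 := out_card hdeg T hT.1 hT.2
    have hsub : (Z.filter fun z => ∃ u ∈ T, H.Adj z u) ⊆ T.biUnion fun x => nb H x \ T := by
      intro z hz
      obtain ⟨hzZ, u, hu, hadj⟩ := Finset.mem_filter.mp hz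
      rw [Finset.mem_biUnion]
      refine ⟨u, hu, Finset.mem_sdiff.mpr ⟨mem_nb.mpr hadj.symm, ?_⟩⟩
      intro hzT
      exact (hZg.1 z hzZ).1.1 ((memU₀ z).mpr ⟨T, (e.symm i).2, hzT⟩)
    have h6 := Finset.card_le_card hsub
    have h7 := Finset.card_union_le T (Z.filter fun z => ∃ u ∈ T, H.Adj z u)
    have h8 := hT.1
    show (T ∪ Z.filter fun z => ∃ u ∈ T, H.Adj z u).card ≤ 8
    omega
  · intro i
    have hT := hFg.1 _ (e.symm i).2
    refine conn_ext H _ _ Finset.subset_union_left hT.2 ?_
    intro y hy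
    rcases Finset.mem_union.mp hy with h | h
    · exact Or.inl h
    · exact Or.inr (Finset.mem_filter.mp h).2
  · intro u hu w hw hadj
    have main : ∃ T ∈ F, u ∈ pc T ∧ w ∈ pc T := by
      rcases Finset.mem_union.mp hu with h | h
      · obtain ⟨T, hT, huT⟩ := (memU₀ u).mp h
        refine ⟨T, hT, Finset.mem_union_left _ huT, ?_⟩
        rcases Finset.mem_union.mp hw with h' | h'
        · obtain ⟨T', hT', hwT'⟩ := (memU₀ w).mp h'
          by_cases hne : T = T'
          · subst hne
            exact Finset.mem_union_left _ hwT'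
          · exact absurd hadj ((hFg.2 T hT T' hT' hne).2 u huT w hwT')
        · exact Finset.mem_union_right _ (Finset.mem_filter.mpr ⟨h', u, huT, hadj.symm⟩)
      · rcases Finset.mem_union.mp hw with h' | h'
        · obtain ⟨T', hT', hwT'⟩ := (memU₀ w).mp h'
          exact ⟨T', hT', Finset.mem_union_right _ (Finset.mem_filter.mpr ⟨h, w, hwT', hadj⟩),
            Finset.mem_union_left _ hwT'⟩
        · exact absurd hadj (hZg.2 u h w h')
    obtain ⟨T, hT, h1, h2⟩ := main
    refine ⟨e ⟨T, hT⟩, ?_⟩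
    simp only [idx]
    exact ⟨h1, h2⟩
  · intro w hw
    by_cases h : par w = w
    · rw [h]
      exact hw
    · exact (hpar1 w h).2.1
  · intro w hw hne
    have hP := hpar1 w hne
    refine ⟨hP.1, ?_⟩
    -- rank
    have key : ∀ y, y = par w → (N1 w → N1 y) → par y = y := by
      intro y hy hNN
      by_contra hyy
      have hPy := hpar1 y hyy
      have hyU : y ∉ U := by rw [hy]; exact hP.2.1
      have hyw : H.Adj y w := by rw [hy]; exact hP.1
      have hlt : μ y < μ w := by rw [hy]; exact hP.2.2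
      have hzw : par y ≠ w := by
        intro h
        have := hPy.2.2
        rw [h] at this
        omega
      by_cases hNy : N1 y
      · exact hzw (claim3 y hNy hyU _ _ hPy.2.1 hw hPy.1.symm hyw)
      · have hNw : ¬ N1 w := fun h => hNy (hNN h)
        exact claim1 y (par y) w hzw hPy.1.symm hyw (notN y hyU hNy)
          (notN _ hPy.2.1 (hμN y _ hNy hPy.2.2)) (notN w hw hNw)
    have rk0 : ∀ y, par y = y → rk y = 0 := by
      intro y hy
      simp only [rk, if_pos hy]
    by_cases hNw : N1 w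
    · by_cases hNp : N1 (par w)
      · have h1 : rk w = 1 := by
          simp only [rk, if_neg hne]
          rw [if_neg (not_not.mpr hNw), if_neg (not_not.mpr hNp)]
        rw [h1, rk0 _ (key _ rfl fun _ => hNp)]
        norm_num
      · have h1 : rk w = 2 := by
          simp only [rk, if_neg hne]
          rw [if_neg (not_not.mpr hNw), if_pos hNp]
        rw [h1]
        simp only [rk]
        split_ifs <;> norm_num
    · have h1 : rk w = 1 := by
        simp only [rk, if_neg hne]
        rw [if_pos hNw]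
      rw [h1, rk0 _ (key _ rfl fun h => absurd h hNw)]
      norm_num
  · intro w hw
    simp only [rk]
    split_ifs <;> norm_num
  · intro w hw w' hw' hadj
    rcases Nat.lt_trichotomy (μ w) (μ w') with h | h | h
    · exact Or.inr (hpar2 w' hw' w ⟨hadj, hw, h⟩)
    · exact absurd (hμinj w w' h) hadj.ne
    · exact Or.inl (hpar2 w hw w' ⟨hadj.symm, hw', h⟩)

end Pool.Agent.CUB
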