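import Pool.Agent.CUB.INS
import Pool.Agent.CUB.GRF
import Pool.Agent.CUB.EKF

set_option autoImplicit false

/-!
# CUB.EMU

Universality from the realisability of all instances.
-/

namespace Pool.Agent.CUB

open scoped Classical

private lemma EMU_clsL_sub {v N M : ℕ} (t : Fin M × Fin 4 → Fin N) (pos : Fin v → Fin 4)
    (V : Fin v → Finset (Fin N)) (Vg : Fin 4 → Finset (Fin N)) (L0 : Finset (Fin M))
    (e : Fin v × Fin v) {i : Fin M} (hi : i ∈ clsL t pos V Vg L0 e) : i ∈ L0 := by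
  unfold clsL at hi
  split_ifs at hi with h
  · exact absurd hi (Finset.notMem_empty i)
  · exact (Finset.mem_filter.1 hi).1

/-- two vertices of a connected piece with at most eight vertices are joined by a short walk -/
private lemma EMU_walk {X : Type} (H : SimpleGraph X) (Q : Finset X)
    (hc : (H.induce (Q : Set X)).Connected) (hQ : Q.card ≤ 8) (u w : X) (hu : u ∈ Q)
    (hw : w ∈ Q) : ∃ p : H.Walk u w, p.length ≤ 40 := by
  obtain ⟨p, hp⟩ := (hc.preconnected ⟨u, hu⟩ ⟨w, hw⟩).exists_isPath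
  have h1 := hp.length_lt
  have h2 : Fintype.card (Q : Set X) = Q.card := by simp
  rw [h2] at h1
  have h3 := SimpleGraph.Walk.length_map (SimpleGraph.Embedding.induce (Q : Set X)).toHom p
  exact ⟨p.map (SimpleGraph.Embedding.induce (Q : Set X)).toHom,
    le_trans (le_of_eq h3) (by omega)⟩

/-- the part outside the copies of `K_4` -/
private lemma EMU_main {v : ℕ} (pos : Fin v → Fin 4) {X : Type} [Fintype X] (H : SimpleGraph X)
    (hdeg : ∀ x, (H.neighborSet x).ncard ≤ 3)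
    (hK4 : ∀ x₁ x₂ x₃ x₄ : X, H.Adj x₁ x₂ → H.Adj x₁ x₃ → H.Adj x₁ x₄ → H.Adj x₂ x₃ →
        H.Adj x₂ x₄ → H.Adj x₃ x₄ → False)
    (hcol : ∀ (X : Type) [Fintype X] (H : SimpleGraph X)
      (U : Finset X), (∀ x, (H.neighborSet x).ncard ≤ 3) →
      ∃ ty : X → Fin v, (∀ u w, H.Adj u w → pos (ty u) ≠ pos (ty w)) ∧
        (∀ u w, u ≠ w → (∃ p : H.Walk u w, p.length ≤ 40) → ty u ≠ ty w) ∧
        (∀ u w, ty u = ty w → (u ∈ U ↔ w ∈ U)))
    {N M : ℕ} (t : Fin M × Fin 4 → Fin N) (L0 : Finset (Fin M))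
    (V : Fin v → Finset (Fin N)) (Vg : Fin 4 → Finset (Fin N))
    (n : ℕ) (hX : Fintype.card X ≤ n)
    (hI : ∀ (n' q : ℕ) (ty : Fin n' → Fin v) (par : Fin n' → Fin n')
        (anc : Fin n' → Finset (Fin n')) (F : Fin q → Finset (Fin v × Fin v))
        (B : Fin q → Finset (Fin v)) (A : Fin q → Finset (Fin n')), Inst pos ty par anc F B A →
        n' ≤ n → q ≤ n → ∃ (φ : Fin n' → Fin N) (y : Fin q → Fin v → Fin N),
          Realised t pos (clsL t pos V Vg L0) V ty par F B A φ y) :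
    ∃ (ty : X → Fin v) (g : X → Fin N), (∀ x, g x ∈ V (ty x)) ∧
      (∀ x x', ty x = ty x' → g x = g x' → x = x') ∧
      (∀ x x', H.Adj x x' → pos (ty x) ≠ pos (ty x') ∧
        ∃ i ∈ L0, t (i, pos (ty x)) = g x ∧ t (i, pos (ty x')) = g x') := by
  obtain ⟨U, par, rk, q', Q, hD⟩ := grf X H hdeg hK4
  obtain ⟨ty, hT1, hT2, hT3⟩ := hcol X H U hdeg
  obtain ⟨n', e, parW, anc, A, he, hecov, hepar, hA, hInst⟩ :=
    inst_of_decomp H hdeg hK4 pos U par rk q' Q hD ty hT1 hT2 hT3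
  have hn' : n' ≤ n := by
    have := Fintype.card_le_of_injective e he
    rw [Fintype.card_fin] at this
    exact this.trans hX
  have hne : ∀ i, (Q i).Nonempty := fun i => by
    rw [← Finset.card_pos]
    have := hD.lo i
    omega
  have hq' : q' ≤ n := by
    have hinj : Function.Injective fun i => (hne i).choose := by
      intro i j hij
      by_contra hne'
      have h1 := (hne i).choose_spec
      have h2 := (hne j).choose_spec
      change (hne i).choose = (hne j).choose at hij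
      rw [← hij] at h2
      exact Finset.disjoint_left.1 (hD.dis i j hne') h1 h2
    have := Fintype.card_le_of_injective _ hinj
    rw [Fintype.card_fin] at this
    exact this.trans hX
  obtain ⟨φ, y, hR⟩ := hI n' q' _ parW anc _ _ A hInst hn' hq'
  let g : X → Fin N := fun x => if h : x ∈ U then y (hD.cov x h).choose (ty x)
    else φ ((hecov x).1 h).choose
  have G1 : ∀ i, ∀ u ∈ Q i, g u = y i (ty u) := by
    intro i u hu
    have hU : u ∈ U := hD.sub i hu
    have h1 : g u = y (hD.cov u hU).choose (ty u) := dif_pos hU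
    have h2 : (hD.cov u hU).choose = i := by
      by_contra hne'
      exact Finset.disjoint_left.1 (hD.dis _ _ hne') (hD.cov u hU).choose_spec hu
    rw [h1, h2]
  have G2 : ∀ j, g (e j) = φ j := by
    intro j
    have hU : e j ∉ U := (hecov (e j)).2 ⟨j, rfl⟩
    have h1 : g (e j) = φ ((hecov (e j)).1 hU).choose := dif_neg hU
    rw [h1, he ((hecov (e j)).1 hU).choose_spec]
  have hUc : ∀ x, x ∉ U → ∃ j, e j = x := fun x hx => (hecov x).1 hx
  refine ⟨ty, g, ?_, ?_, ?_⟩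
  · intro x
    by_cases hx : x ∈ U
    · obtain ⟨i, hi⟩ := hD.cov x hx
      rw [G1 i x hi]
      exact hR.ymem i (ty x) (Finset.mem_image_of_mem ty hi)
    · obtain ⟨j, rfl⟩ := hUc x hx
      rw [G2]
      exact hR.mem j
  · intro x x' hty hg
    by_contra hxx
    by_cases hx : x ∈ U
    · have hx' : x' ∈ U := (hT3 x x' hty).1 hx
      obtain ⟨i, hi⟩ := hD.cov x hx
      obtain ⟨i', hi'⟩ := hD.cov x' hx'
      by_cases hii : i = i'
      · subst hii
        exact hT2 x x' hxx (EMU_walk H (Q i) (hD.conn i) (hD.hi i) x x' hi hi') hty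
      · rw [G1 i x hi, G1 i' x' hi', ← hty] at hg
        refine hR.yinj i i' hii (ty x) (Finset.mem_image_of_mem ty hi) ?_ hg
        rw [hty]
        exact Finset.mem_image_of_mem ty hi'
    · have hx' : x' ∉ U := fun h => hx ((hT3 x x' hty).2 h)
      obtain ⟨j, rfl⟩ := hUc x hx
      obtain ⟨j', rfl⟩ := hUc x' hx'
      rw [G2, G2] at hg
      exact hR.inj j j' (fun h => hxx (by rw [h])) hty hg
  · -- edges
    have key : ∀ i, ∀ x ∈ Q i, ∀ x', H.Adj x x' →
        ∃ k ∈ L0, t (k, pos (ty x)) = g x ∧ t (k, pos (ty x')) = g x' := by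
      intro i x hx x' hadj
      have h1 : y i (ty x) = g x := (G1 i x hx).symm
      have h2 : y i (ty x') = g x' := by
        by_cases hx' : x' ∈ U
        · obtain ⟨i', hi1, hi2⟩ := hD.adjU x (hD.sub i hx) x' hx' hadj
          have hii : i' = i := by
            by_contra hne'
            exact Finset.disjoint_left.1 (hD.dis _ _ hne') hi1 hx
          subst hii
          exact (G1 i' x' hi2).symm
        · obtain ⟨j, hj, rfl⟩ := hA i x hx x' hx' hadj
          rw [G2]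
          exact hR.yA i j hj
      have hne' : ty x ≠ ty x' := fun h => hT1 x x' hadj (by rw [h])
      rcases lt_or_gt_of_ne hne' with hlt | hlt
      · have hmem : (ty x, ty x') ∈ patF H ty (Q i) := by
          simp only [patF, Finset.mem_filter, Finset.mem_univ, true_and]
          exact ⟨hlt, x, x', hadj, rfl, rfl, Or.inl hx⟩
        have h3 := hR.yF i _ hmem
        unfold mm at h3
        obtain ⟨k, hk⟩ := Finset.card_pos.1 h3
        obtain ⟨hk1, hk2, hk3⟩ := Finset.mem_filter.1 hk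
        exact ⟨k, EMU_clsL_sub _ _ _ _ _ _ hk1, hk2.trans h1, hk3.trans h2⟩
      · have hmem : (ty x', ty x) ∈ patF H ty (Q i) := by
          simp only [patF, Finset.mem_filter, Finset.mem_univ, true_and]
          exact ⟨hlt, x', x, hadj.symm, rfl, rfl, Or.inr hx⟩
        have h3 := hR.yF i _ hmem
        unfold mm at h3
        obtain ⟨k, hk⟩ := Finset.card_pos.1 h3
        obtain ⟨hk1, hk2, hk3⟩ := Finset.mem_filter.1 hk
        exact ⟨k, EMU_clsL_sub _ _ _ _ _ _ hk1, hk3.trans h1, hk2.trans h2⟩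
    have keyW : ∀ x x', x ∉ U → x' ∉ U → H.Adj x x' → par x' = x →
        ∃ k ∈ L0, t (k, pos (ty x)) = g x ∧ t (k, pos (ty x')) = g x' := by
      intro x x' hx hx' hadj hp
      obtain ⟨j, rfl⟩ := hUc x hx
      obtain ⟨j', rfl⟩ := hUc x' hx'
      have hpj : parW j' = j := he ((hepar j').trans hp)
      have hjj : parW j' ≠ j' := by
        rw [hpj]
        rintro rfl
        exact H.loopless.irrefl _ hadj
      have h3 := hR.edge j' hjj
      unfold pmul at h3
      obtain ⟨k, hk⟩ := Finset.card_pos.1 h3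
      obtain ⟨hk1, hk2, hk3⟩ := Finset.mem_filter.1 hk
      rw [hpj] at hk1 hk2
      rw [G2, G2]
      exact ⟨k, EMU_clsL_sub _ _ _ _ _ _ hk1, hk2, hk3⟩
    intro x x' hadj
    refine ⟨hT1 x x' hadj, ?_⟩
    by_cases hx : x ∈ U
    · obtain ⟨i, hi⟩ := hD.cov x hx
      exact key i x hi x' hadj
    · by_cases hx' : x' ∈ U
      · obtain ⟨i, hi⟩ := hD.cov x' hx'
        obtain ⟨k, hk, h1, h2⟩ := key i x' hi x hadj.symm
        exact ⟨k, hk, h2, h1⟩
      · rcases hD.adjW x hx x' hx' hadj with h | h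
        · obtain ⟨k, hk, h1, h2⟩ := keyW x' x hx' hx hadj.symm h
          exact ⟨k, hk, h2, h1⟩
        · exact keyW x x' hx hx' hadj h

/-- Universality from the realisability of all instances. -/
theorem emb_univ {v : ℕ} (pos : Fin v → Fin 4)
    (hcol : ∀ (X : Type) [Fintype X] (H : SimpleGraph X)
      (U : Finset X), (∀ x, (H.neighborSet x).ncard ≤ 3) →
      ∃ ty : X → Fin v, (∀ u w, H.Adj u w → pos (ty u) ≠ pos (ty w)) ∧
        (∀ u w, u ≠ w → (∃ p : H.Walk u w, p.length ≤ 40) → ty u ≠ ty w) ∧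
        (∀ u w, ty u = ty w → (u ∈ U ↔ w ∈ U)))
    {N M : ℕ} (t : Fin M × Fin 4 → Fin N) (L0 : Finset (Fin M)) (κ₁ : ℝ)
    (V : Fin v → Finset (Fin N)) (Vg Vr : Fin 4 → Finset (Fin N)) (nn : Fin 4 → ℕ)
    (hP : Parts pos κ₁ V Vg nn) (hVr : ∀ i, Disjoint (V i) (Vr (pos i)))
    (hR : ∀ R' : Fin 4 → Finset (Fin N), (∀ a, R' a ⊆ Vr a) →
      (∀ a, (Vr a).card ≤ 2 * (R' a).card) → ∃ i ∈ L0, ∀ a, t (i, a) ∈ R' a)
    (n : ℕ) (hn : ∀ a, 2 * n ≤ (Vr a).card)
    (hI : ∀ (n' q : ℕ) (ty : Fin n' → Fin v) (par : Fin n' → Fin n')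
        (anc : Fin n' → Finset (Fin n')) (F : Fin q → Finset (Fin v × Fin v))
        (B : Fin q → Finset (Fin v)) (A : Fin q → Finset (Fin n')), Inst pos ty par anc F B A →
        n' ≤ n → q ≤ n → ∃ (φ : Fin n' → Fin N) (y : Fin q → Fin v → Fin N),
          Realised t pos (clsL t pos V Vg L0) V ty par F B A φ y) :
    UnivP t L0 n := by
  intro H hdeg
  obtain ⟨q, κ, hκinj, hκadj, hκnb, hκK4⟩ := k4d n H hdeg
  have hdeg' : ∀ x : {x : Fin n // ∀ i a, κ i a ≠ x},
      ((H.comap Subtype.val : SimpleGraph {x : Fin n // ∀ i a, κ i a ≠ x}).neighborSet x).ncard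
        ≤ 3 := by
    intro x
    refine le_trans ?_ (hdeg x.1)
    rw [← Set.ncard_image_of_injective _ Subtype.val_injective]
    refine Set.ncard_le_ncard ?_ (Set.toFinite _)
    rintro _ ⟨z, hz, rfl⟩
    exact hz
  have hK4' : ∀ x₁ x₂ x₃ x₄ : {x : Fin n // ∀ i a, κ i a ≠ x},
      (H.comap Subtype.val).Adj x₁ x₂ → (H.comap Subtype.val).Adj x₁ x₃ →
      (H.comap Subtype.val).Adj x₁ x₄ → (H.comap Subtype.val).Adj x₂ x₃ →
      (H.comap Subtype.val).Adj x₂ x₄ → (H.comap Subtype.val).Adj x₃ x₄ → False := by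
    intro x₁ x₂ x₃ x₄ h1 h2 h3 h4 h5 h6
    obtain ⟨i, a, h⟩ := hκK4 x₁.1 x₂.1 x₃.1 x₄.1 h1 h2 h3 h4 h5 h6
    exact x₁.2 i a h
  have hXn : Fintype.card {x : Fin n // ∀ i a, κ i a ≠ x} ≤ n := by
    have := Fintype.card_le_of_injective (Subtype.val : {x : Fin n // ∀ i a, κ i a ≠ x} → Fin n)
      Subtype.val_injective
    rwa [Fintype.card_fin] at this
  obtain ⟨ty, g, hg1, hg2, hg3⟩ := EMU_main pos (H.comap Subtype.val) hdeg' hK4' hcol t L0 V Vg n
    hXn hI
  have hq : q ≤ n := by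
    have hinj : Function.Injective fun i : Fin q => κ i 0 := by
      intro i j hij
      exact (hκinj i 0 j 0 hij).1
    have := Fintype.card_le_of_injective _ hinj
    rwa [Fintype.card_fin, Fintype.card_fin] at this
  obtain ⟨ι, hι1, hι2, hι3⟩ := ek4 t L0 Vr hR q (fun a => le_trans (by omega) (hn a))
  let ψ : Fin n → Fin 4 × Fin N := fun x => if h : ∃ p : Fin q × Fin 4, κ p.1 p.2 = x then
    (h.choose.2, t (ι h.choose.1, h.choose.2)) else
    (pos (ty ⟨x, fun i a hia => h ⟨(i, a), hia⟩⟩), g ⟨x, fun i a hia => h ⟨(i, a), hia⟩⟩)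
  have P1 : ∀ i a, ψ (κ i a) = (a, t (ι i, a)) := by
    intro i a
    have h : ∃ p : Fin q × Fin 4, κ p.1 p.2 = κ i a := ⟨(i, a), rfl⟩
    have h1 : ψ (κ i a) = (h.choose.2, t (ι h.choose.1, h.choose.2)) := dif_pos h
    obtain ⟨h2, h3⟩ := hκinj _ _ _ _ h.choose_spec
    rw [h1, h2, h3]
  have P2 : ∀ (x : Fin n) (hx : ∀ i a, κ i a ≠ x), ψ x = (pos (ty ⟨x, hx⟩), g ⟨x, hx⟩) := by
    intro x hx
    have h : ¬ ∃ p : Fin q × Fin 4, κ p.1 p.2 = x := by
      rintro ⟨p, hp⟩
      exact hx _ _ hp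
    exact dif_neg h
  have hdich : ∀ x : Fin n, (∃ i a, κ i a = x) ∨ (∀ i a, κ i a ≠ x) := by
    intro x
    by_cases h : ∃ i a, κ i a = x
    · exact Or.inl h
    · right
      intro i a hia
      exact h ⟨i, a, hia⟩
  refine ⟨ψ, ?_, ?_⟩
  · -- injectivity
    have mixed : ∀ (i : Fin q) (a : Fin 4) (x : Fin n) (_ : ∀ i a, κ i a ≠ x),
        ψ (κ i a) ≠ ψ x := by
      intro i a x hx heq
      rw [P1, P2 x hx, Prod.mk.injEq] at heq
      obtain ⟨h1, h2⟩ := heq
      have h3 := hι2 i a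
      rw [h2, h1] at h3
      exact Finset.disjoint_left.1 (hVr (ty ⟨x, hx⟩)) (hg1 ⟨x, hx⟩) h3
    intro x x' hxx
    rcases hdich x with ⟨i, a, rfl⟩ | hx
    · rcases hdich x' with ⟨i', a', rfl⟩ | hx'
      · rw [P1, P1, Prod.mk.injEq] at hxx
        obtain ⟨h1, h2⟩ := hxx
        subst h1
        by_cases hii : i = i'
        · rw [hii]
        · exact absurd h2 (hι3 i i' hii a)
      · exact absurd hxx (mixed i a x' hx')
    · rcases hdich x' with ⟨i', a', rfl⟩ | hx'
      · exact absurd hxx.symm (mixed i' a' x hx)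
      · rw [P2 x hx, P2 x' hx', Prod.mk.injEq] at hxx
        obtain ⟨h1, h2⟩ := hxx
        by_cases hty : ty ⟨x, hx⟩ = ty ⟨x', hx'⟩
        · exact congrArg Subtype.val (hg2 _ _ hty h2)
        · exfalso
          have h3 := hg1 ⟨x', hx'⟩
          rw [← h2] at h3
          exact Finset.disjoint_left.1 (hP.disV _ _ hty h1) (hg1 ⟨x, hx⟩) h3
  · -- edges
    have k4e : ∀ (i : Fin q) (a : Fin 4) (w : Fin n), H.Adj (κ i a) w →
        (ψ (κ i a)).1 ≠ (ψ w).1 ∧ ∃ k ∈ L0, t (k, (ψ (κ i a)).1) = (ψ (κ i a)).2 ∧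
          t (k, (ψ w).1) = (ψ w).2 := by
      intro i a w hadj
      obtain ⟨b, rfl⟩ := hκnb i a w hadj
      rw [P1, P1]
      refine ⟨?_, ι i, hι1 i, rfl, rfl⟩
      change a ≠ b
      rintro rfl
      exact H.loopless.irrefl _ hadj
    intro u w hadj
    rcases hdich u with ⟨i, a, rfl⟩ | hu
    · exact k4e i a w hadj
    · rcases hdich w with ⟨i, a, rfl⟩ | hw
      · obtain ⟨h1, k, hk, h2, h3⟩ := k4e i a u hadj.symm
        exact ⟨h1.symm, k, hk, h3, h2⟩
      · rw [P2 u hu, P2 w hw]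
        exact hg3 ⟨u, hu⟩ ⟨w, hw⟩ hadj

end Pool.Agent.CUB
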