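import Pool.Agent.CUB.RED

set_option autoImplicit false

/-!
# CUB.FINB

Proof. Like `Pool.Agent.PUG.final` (Pool/Agent/PUG/FIN.lean): an `exists_h` lemma with exponent 96
(`K n ≤ h^96 ≤ (h₀^96 + 2^96 K + 1) n`), transport `G` along `finProdFinEquiv`,
`C = b (h₀^96 + 2^96 K + 1)`.
-/

namespace Pool.Agent.CUB

open scoped Classical

private theorem finb_h (h0 A n : ℕ) (hn : 1 ≤ n) :
    ∃ h ≥ h0, A * n ≤ h ^ 96 ∧ h ^ 96 ≤ (h0 ^ 96 + 2 ^ 96 * A + 1) * n := by
  have hex : ∃ c : ℕ, A * n ≤ c ^ 96 := ⟨A * n, Nat.le_self_pow (by norm_num) _⟩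
  set c := Nat.find hex with hc
  have h1 : A * n ≤ c ^ 96 := Nat.find_spec hex
  have h2 : c ^ 96 ≤ 2 ^ 96 * (A * n) + 1 := by
    rcases Nat.lt_or_ge c 2 with hlt | hge
    · have : c ^ 96 ≤ 1 := by
        interval_cases c <;> simp
      exact le_trans this (Nat.le_add_left _ _)
    · have h3 : ¬ A * n ≤ (c - 1) ^ 96 := Nat.find_min hex (by omega)
      have h4 : c ^ 96 ≤ (2 * (c - 1)) ^ 96 := Nat.pow_le_pow_left (by omega) 96
      rw [mul_pow] at h4
      have h5 : (c - 1) ^ 96 ≤ A * n := by omega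
      have h6 : 2 ^ 96 * (c - 1) ^ 96 ≤ 2 ^ 96 * (A * n) := Nat.mul_le_mul_left _ h5
      exact le_trans (le_trans h4 h6) (Nat.le_add_right _ _)
  refine ⟨max h0 c, le_max_left _ _, le_trans h1 (Nat.pow_le_pow_left (le_max_right _ _) 96), ?_⟩
  have h5 : (max h0 c) ^ 96 ≤ h0 ^ 96 + c ^ 96 := by
    rcases le_total h0 c with h | h
    · rw [max_eq_right h]; exact Nat.le_add_left _ _
    · rw [max_eq_left h]; exact Nat.le_add_right _ _
  calc (max h0 c) ^ 96 ≤ h0 ^ 96 + c ^ 96 := h5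
    _ ≤ h0 ^ 96 + (2 ^ 96 * (A * n) + 1) := Nat.add_le_add_left h2 _
    _ ≤ h0 ^ 96 * n + (2 ^ 96 * (A * n) + n) :=
        Nat.add_le_add (Nat.le_mul_of_pos_right _ hn) (Nat.add_le_add_left hn _)
    _ = _ := by ring

/-- The final theorem. -/
theorem final (r : ℕ) (hr : 0 < r) :
    ∃ C : ℕ, ∀ n : ℕ, 1 ≤ n →
      ∃ N : ℕ, N ≤ C * n ∧
        ∃ G : SimpleGraph (Fin N),
          ¬ (completeBipartiteGraph (Fin (3 + 1)) (Fin (3 + 1))).IsContained G ∧
          ∀ χ : Sym2 (Fin N) → Fin r, ∃ c : Fin r,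
            ∀ H : SimpleGraph (Fin n),
              (∀ v : Fin n, (H.neighborSet v).ncard ≤ 3) →
                H.IsContained (SimpleGraph.fromEdgeSet {e | e ∈ G.edgeSet ∧ χ e = c}) := by
  obtain ⟨b, K, h₀, hh⟩ := host r hr
  refine ⟨b * (h₀ ^ 96 + 2 ^ 96 * K + 1), ?_⟩
  intro n hn
  obtain ⟨h, hh0, hA, hC⟩ := finb_h h₀ K n hn
  obtain ⟨G, hG, hcol⟩ := hh h hh0 (h ^ 96) rfl
  generalize h ^ 96 = N at hA hC G hG hcol
  refine ⟨b * N, ?_, G.comap finProdFinEquiv.symm, ?_, ?_⟩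
  · calc b * N ≤ b * ((h₀ ^ 96 + 2 ^ 96 * K + 1) * n) := Nat.mul_le_mul_left _ hC
      _ = _ := (mul_assoc _ _ _).symm
  · rintro ⟨f⟩
    apply hG (fun i => finProdFinEquiv.symm (f (Sum.inl i)))
      (fun j => finProdFinEquiv.symm (f (Sum.inr j)))
    · intro i i' hii
      exact Sum.inl.inj (f.injective (finProdFinEquiv.symm.injective hii))
    · intro i i' hii
      exact Sum.inr.inj (f.injective (finProdFinEquiv.symm.injective hii))
    · intro i j
      have : (G.comap finProdFinEquiv.symm).Adj (f (Sum.inl i)) (f (Sum.inr j)) := by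
        apply f.toHom.map_adj
        simp [completeBipartiteGraph]
      exact this
  · intro χ
    obtain ⟨c, hc⟩ := hcol (fun s => χ (s.map finProdFinEquiv))
    refine ⟨c, fun H hH => ?_⟩
    obtain ⟨φ, hφi, hφ⟩ := hc n hA H hH
    refine ⟨⟨⟨fun u => finProdFinEquiv (φ u), ?_⟩, ?_⟩⟩
    · intro u w huw
      obtain ⟨h1, h2⟩ := hφ u w huw
      rw [SimpleGraph.fromEdgeSet_adj]
      refine ⟨⟨?_, ?_⟩, ?_⟩
      · rw [SimpleGraph.mem_edgeSet, SimpleGraph.comap_adj, Equiv.symm_apply_apply,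
          Equiv.symm_apply_apply]
        exact h1
      · rw [← h2]
        rfl
      · intro hEq
        exact h1.ne (finProdFinEquiv.injective hEq)
    · intro u w huw
      exact hφi (finProdFinEquiv.injective huw)

end Pool.Agent.CUB
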