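import Pool.Agent.CUB.GQ
import Pool.Agent.CUB.GST

set_option autoImplicit false

/-!
# CUB.GFR

Let `nrm l = |X| ∏_{e∈l}(m/(|V||V|))`, `X = piFinset V`, and `NH l x`: for all `e ∈ l` both class
degrees of `x e.1`, `x e.2` in `L e` are `≤ 8 m/|V|`.
(1) Light part, by induction on `l` (constants `ε₄ ↦ ε₄'`): except with probability `exp(-Km)`,
`|Bad| ≤ ε₃|X|` implies `∑_{x∈Bad, NH l x} ∏_{e∈l} mm e x ≤ ε₄ nrm l`. `l = []`: trivial (`ε₃ = ε₄`).
`l = e :: l'`, `e = (u,w)`: choose `ε'` from `gst` with `C = 8^{|l'|}`, `K+1`; IH for `l'` with this `ε'`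
and `K+1`. Given all cells except `(i, pos u), (i, pos w)`, `i ∈ L e` (use `prf`), the function
`H(a,b) = ∑_{x∈Bad, NH l' x, x u = a, x w = b} ∏_{e'∈l'} mm e' x` is fixed, `H ≤ 8^{|l'|} nrm l'/(|V u||V w|)`
by `gq` (with `C = 8`; `x w` is free in `l'`), `∑ H ≤ ε' nrm l'` by IH, and
`∑_{x∈Bad, NH l' x} ∏_{l} mm = ∑_{i∈L e} H(t(i,pos u), t(i,pos w))`. Apply `gst` to `H` divided by
`nrm l'/(|V u||V w|)`; `nrm l = nrm l' m/(|V u||V w|)`.
(2) Heavy part: `DEG` gives all class degrees `≤ 8h^56 ≤ (8/κ₁) m/|V|`, so by `gq` with `C = 8/κ₁` and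
`HVC`, `∑_{x : ¬NH l x} ∏_l mm ≤ 2|l| (N/h^55) (8/κ₁)^{|l|} nrm l/(κ₁N) ≤ (ε₄/2) nrm l` for `h ≥ h₀`.
(3) The finitely many failure probabilities are absorbed: `|l| exp(-(K+1)m) ≤ exp(-Km)` for `h ≥ h₀`.
-/

namespace Pool.Agent.CUB

open scoped Classical

/-- Heavy control for the class `L e`: few blocks in total, few vertices of large class degree. -/
def HVC {v N M : ℕ} (h : ℕ) (t : Fin M × Fin 4 → Fin N) (pos : Fin v → Fin 4)
    (L : Fin v × Fin v → Finset (Fin M)) (V : Fin v → Finset (Fin N)) (m : ℝ)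
    (e : Fin v × Fin v) : Prop :=
  ((L e).card : ℝ) ≤ 8 * m ∧
  h ^ 55 * ((V e.1).filter fun a => 8 * m / ((V e.1).card : ℝ)
      < (((L e).filter fun j => t (j, pos e.1) = a).card : ℝ)).card ≤ N ∧
  h ^ 55 * ((V e.2).filter fun a => 8 * m / ((V e.2).card : ℝ)
      < (((L e).filter fun j => t (j, pos e.2) = a).card : ℝ)).card ≤ N

/-- All class degrees are at most eight times nominal. -/
private def GFR_nh {v N M : ℕ} (t : Fin M × Fin 4 → Fin N) (pos : Fin v → Fin 4)
    (L : Fin v × Fin v → Finset (Fin M)) (V : Fin v → Finset (Fin N)) (m : ℝ)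
    (l : List (Fin v × Fin v)) (x : Fin v → Fin N) : Prop :=
  ∀ e ∈ l, (((L e).filter fun j => t (j, pos e.1) = x e.1).card : ℝ)
      ≤ 8 * m / ((V e.1).card : ℝ) ∧
    (((L e).filter fun j => t (j, pos e.2) = x e.2).card : ℝ) ≤ 8 * m / ((V e.2).card : ℝ)

private noncomputable def GFR_S {v N M : ℕ} (t : Fin M × Fin 4 → Fin N) (pos : Fin v → Fin 4)
    (L : Fin v × Fin v → Finset (Fin M)) (V : Fin v → Finset (Fin N)) (m : ℝ)
    (l : List (Fin v × Fin v)) (A : Finset (Fin v → Fin N)) : ℝ :=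
  ∑ x ∈ A.filter (fun x => GFR_nh t pos L V m l x), ∏ e ∈ l.toFinset, (mm t pos L e x : ℝ)

private noncomputable def GFR_nrm {v N : ℕ} (V : Fin v → Finset (Fin N)) (m : ℝ)
    (l : List (Fin v × Fin v)) : ℝ :=
  ((Fintype.piFinset V).card : ℝ) *
    ∏ e ∈ l.toFinset, (m / (((V e.1).card : ℝ) * ((V e.2).card : ℝ)))

private noncomputable def GFR_H {v N M : ℕ} (t : Fin M × Fin 4 → Fin N) (pos : Fin v → Fin 4)
    (L : Fin v × Fin v → Finset (Fin M)) (V : Fin v → Finset (Fin N)) (m : ℝ)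
    (l : List (Fin v × Fin v)) (A : Finset (Fin v → Fin N)) (u w : Fin v) (a b : Fin N) : ℝ :=
  ∑ x ∈ A.filter (fun x => GFR_nh t pos L V m l x ∧ x u = a ∧ x w = b),
    ∏ e ∈ l.toFinset, (mm t pos L e x : ℝ)

private lemma GFR_nrm_pos {v N : ℕ} (V : Fin v → Finset (Fin N)) (m : ℝ)
    (l : List (Fin v × Fin v)) (hm : 0 < m) (hV : ∀ i, (V i).Nonempty) : 0 < GFR_nrm V m l := by
  have hc : ∀ i, 0 < ((V i).card : ℝ) := fun i => by exact_mod_cast (hV i).card_pos
  unfold GFR_nrm
  refine mul_pos ?_ (Finset.prod_pos fun e _ => div_pos hm (mul_pos (hc _) (hc _)))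
  rw [Fintype.card_piFinset]
  push_cast
  exact Finset.prod_pos fun i _ => hc i

private lemma GFR_nrm_cons {v N : ℕ} (V : Fin v → Finset (Fin N)) (m : ℝ) (e : Fin v × Fin v)
    (l : List (Fin v × Fin v)) (he : e ∉ l) :
    GFR_nrm V m (e :: l) = GFR_nrm V m l * (m / (((V e.1).card : ℝ) * ((V e.2).card : ℝ))) := by
  unfold GFR_nrm
  rw [List.toFinset_cons, Finset.prod_insert (by simpa using he)]
  ring

private lemma GFR_mm_congr {v N M : ℕ} (t t' : Fin M × Fin 4 → Fin N) (pos : Fin v → Fin 4)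
    (L : Fin v × Fin v → Finset (Fin M)) (e : Fin v × Fin v) (x : Fin v → Fin N)
    (h : ∀ c : Fin M × Fin 4, c.1 ∈ L e → t c = t' c) : mm t pos L e x = mm t' pos L e x := by
  unfold mm
  congr 1
  refine Finset.filter_congr fun i hi => ?_
  rw [h (i, pos e.1) hi, h (i, pos e.2) hi]

private lemma GFR_nh_congr {v N M : ℕ} (t t' : Fin M × Fin 4 → Fin N) (pos : Fin v → Fin 4)
    (L : Fin v × Fin v → Finset (Fin M)) (V : Fin v → Finset (Fin N)) (m : ℝ)
    (l : List (Fin v × Fin v)) (x : Fin v → Fin N)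
    (h : ∀ c : Fin M × Fin 4, ∀ e ∈ l, c.1 ∈ L e → t c = t' c) :
    GFR_nh t pos L V m l x ↔ GFR_nh t' pos L V m l x := by
  unfold GFR_nh
  refine forall₂_congr fun e he => ?_
  have h1 : ((L e).filter fun j => t (j, pos e.1) = x e.1) =
      ((L e).filter fun j => t' (j, pos e.1) = x e.1) :=
    Finset.filter_congr fun i hi => by rw [h (i, pos e.1) e he hi]
  have h2 : ((L e).filter fun j => t (j, pos e.2) = x e.2) =
      ((L e).filter fun j => t' (j, pos e.2) = x e.2) :=
    Finset.filter_congr fun i hi => by rw [h (i, pos e.2) e he hi]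
  rw [h1, h2]

private lemma GFR_S_congr {v N M : ℕ} (t t' : Fin M × Fin 4 → Fin N) (pos : Fin v → Fin 4)
    (L : Fin v × Fin v → Finset (Fin M)) (V : Fin v → Finset (Fin N)) (m : ℝ)
    (l : List (Fin v × Fin v)) (A : Finset (Fin v → Fin N))
    (h : ∀ c : Fin M × Fin 4, ∀ e ∈ l, c.1 ∈ L e → t c = t' c) :
    GFR_S t pos L V m l A = GFR_S t' pos L V m l A := by
  unfold GFR_S
  have h1 : A.filter (fun x => GFR_nh t pos L V m l x) =
      A.filter (fun x => GFR_nh t' pos L V m l x) :=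
    Finset.filter_congr fun x _ => GFR_nh_congr t t' pos L V m l x h
  rw [h1]
  refine Finset.sum_congr rfl fun x _ => Finset.prod_congr rfl fun e he => ?_
  rw [GFR_mm_congr t t' pos L e x (fun c hc => h c e (by simpa using he) hc)]

private lemma GFR_H_congr {v N M : ℕ} (t t' : Fin M × Fin 4 → Fin N) (pos : Fin v → Fin 4)
    (L : Fin v × Fin v → Finset (Fin M)) (V : Fin v → Finset (Fin N)) (m : ℝ)
    (l : List (Fin v × Fin v)) (A : Finset (Fin v → Fin N)) (u w : Fin v) (a b : Fin N)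
    (h : ∀ c : Fin M × Fin 4, ∀ e ∈ l, c.1 ∈ L e → t c = t' c) :
    GFR_H t pos L V m l A u w a b = GFR_H t' pos L V m l A u w a b := by
  unfold GFR_H
  have h1 : A.filter (fun x => GFR_nh t pos L V m l x ∧ x u = a ∧ x w = b) =
      A.filter (fun x => GFR_nh t' pos L V m l x ∧ x u = a ∧ x w = b) :=
    Finset.filter_congr fun x _ => by rw [GFR_nh_congr t t' pos L V m l x h]
  rw [h1]
  refine Finset.sum_congr rfl fun x _ => Finset.prod_congr rfl fun e he => ?_
  rw [GFR_mm_congr t t' pos L e x (fun c hc => h c e (by simpa using he) hc)]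

private lemma GFR_H_nonneg {v N M : ℕ} (t : Fin M × Fin 4 → Fin N) (pos : Fin v → Fin 4)
    (L : Fin v × Fin v → Finset (Fin M)) (V : Fin v → Finset (Fin N)) (m : ℝ)
    (l : List (Fin v × Fin v)) (A : Finset (Fin v → Fin N)) (u w : Fin v) (a b : Fin N) :
    0 ≤ GFR_H t pos L V m l A u w a b :=
  Finset.sum_nonneg fun _ _ => Finset.prod_nonneg fun _ _ => Nat.cast_nonneg _

/-- The sum for `e :: l` through the blocks of `L e`. -/
private lemma GFR_S_cons {v N M : ℕ} (t : Fin M × Fin 4 → Fin N) (pos : Fin v → Fin 4)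
    (L : Fin v × Fin v → Finset (Fin M)) (V : Fin v → Finset (Fin N)) (m : ℝ)
    (e : Fin v × Fin v) (l : List (Fin v × Fin v)) (he : e ∉ l) (A : Finset (Fin v → Fin N)) :
    GFR_S t pos L V m (e :: l) A ≤
      ∑ i ∈ L e, GFR_H t pos L V m l A e.1 e.2 (t (i, pos e.1)) (t (i, pos e.2)) := by
  unfold GFR_S GFR_H
  rw [List.toFinset_cons]
  have h1 : ∀ x ∈ A.filter (fun x => GFR_nh t pos L V m (e :: l) x),
      ∏ e' ∈ insert e l.toFinset, (mm t pos L e' x : ℝ) =
        ∑ i ∈ L e, if (x e.1 = t (i, pos e.1) ∧ x e.2 = t (i, pos e.2)) then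
          ∏ e' ∈ l.toFinset, (mm t pos L e' x : ℝ) else 0 := by
    intro x _
    rw [Finset.prod_insert (by simpa using he), ← Finset.sum_filter, Finset.sum_const,
      nsmul_eq_mul]
    congr 2
    unfold mm
    congr 1
    refine Finset.filter_congr fun i _ => ?_
    constructor
    · rintro ⟨h2, h3⟩
      exact ⟨h2.symm, h3.symm⟩
    · rintro ⟨h2, h3⟩
      exact ⟨h2.symm, h3.symm⟩
  rw [Finset.sum_congr rfl h1, Finset.sum_comm]
  refine Finset.sum_le_sum fun i _ => ?_
  rw [← Finset.sum_filter]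
  refine Finset.sum_le_sum_of_subset_of_nonneg ?_
    (fun x _ _ => Finset.prod_nonneg fun _ _ => Nat.cast_nonneg _)
  intro x hx
  obtain ⟨hx1, hx2, hx3⟩ := Finset.mem_filter.1 hx
  obtain ⟨hx4, hx5⟩ := Finset.mem_filter.1 hx1
  refine Finset.mem_filter.2 ⟨hx4, fun e' he' => hx5 e' (List.mem_cons_of_mem _ he'), hx2, hx3⟩

private lemma GFR_H_sum {v N M : ℕ} (t : Fin M × Fin 4 → Fin N) (pos : Fin v → Fin 4)
    (L : Fin v × Fin v → Finset (Fin M)) (V : Fin v → Finset (Fin N)) (m : ℝ)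
    (l : List (Fin v × Fin v)) (A : Finset (Fin v → Fin N)) (u w : Fin v)
    (A₁ A₂ : Finset (Fin N)) :
    ∑ a ∈ A₁, ∑ b ∈ A₂, GFR_H t pos L V m l A u w a b ≤ GFR_S t pos L V m l A := by
  have h1 : ∀ a b, GFR_H t pos L V m l A u w a b =
      ∑ x ∈ A.filter (fun x => GFR_nh t pos L V m l x), if (x u = a ∧ x w = b) then
        ∏ e ∈ l.toFinset, (mm t pos L e x : ℝ) else 0 := by
    intro a b
    unfold GFR_H
    rw [← Finset.sum_filter, Finset.filter_filter]
  have h2 : ∑ a ∈ A₁, ∑ b ∈ A₂, GFR_H t pos L V m l A u w a b =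
      ∑ x ∈ A.filter (fun x => GFR_nh t pos L V m l x), ∑ p ∈ A₁ ×ˢ A₂,
        if (x u = p.1 ∧ x w = p.2) then ∏ e ∈ l.toFinset, (mm t pos L e x : ℝ) else 0 := by
    symm
    rw [Finset.sum_comm, Finset.sum_product]
    refine Finset.sum_congr rfl fun a _ => Finset.sum_congr rfl fun b _ => (h1 a b).symm
  rw [h2]
  unfold GFR_S
  refine Finset.sum_le_sum fun x _ => ?_
  have h0 : 0 ≤ ∏ e ∈ l.toFinset, (mm t pos L e x : ℝ) :=
    Finset.prod_nonneg fun _ _ => Nat.cast_nonneg _
  rw [← Finset.sum_filter, Finset.sum_const, nsmul_eq_mul]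
  have h3 : ((A₁ ×ˢ A₂).filter (fun p => x u = p.1 ∧ x w = p.2)).card ≤ 1 := by
    rw [Finset.card_le_one]
    intro p hp p' hp'
    have h4 := (Finset.mem_filter.1 hp).2
    have h5 := (Finset.mem_filter.1 hp').2
    exact Prod.ext (h4.1.symm.trans h5.1) (h4.2.symm.trans h5.2)
  have h4 : (((A₁ ×ˢ A₂).filter (fun p => x u = p.1 ∧ x w = p.2)).card : ℝ) ≤ 1 := by
    exact_mod_cast h3
  calc _ ≤ 1 * ∏ e ∈ l.toFinset, (mm t pos L e x : ℝ) := mul_le_mul_of_nonneg_right h4 h0
    _ = _ := one_mul _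

private lemma GFR_H_le {v N M : ℕ} (t : Fin M × Fin 4 → Fin N) (pos : Fin v → Fin 4)
    (L : Fin v × Fin v → Finset (Fin M)) (V : Fin v → Finset (Fin N)) (m : ℝ) (hm : 0 < m)
    (hV : ∀ i, (V i).Nonempty) (l : List (Fin v × Fin v)) (hl : Fst l)
    (A : Finset (Fin v → Fin N)) (hA : A ⊆ Fintype.piFinset V) (u w : Fin v) (huw : u ≠ w)
    (hw : ∀ e ∈ l, e.1 ≠ w ∧ e.2 ≠ w) (a b : Fin N) :
    GFR_H t pos L V m l A u w a b ≤
      8 ^ l.length * GFR_nrm V m l / (((V u).card : ℝ) * ((V w).card : ℝ)) := by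
  have hc : ∀ i, 0 < ((V i).card : ℝ) := fun i => by exact_mod_cast (hV i).card_pos
  have hpos0 : 0 ≤ 8 ^ l.length * GFR_nrm V m l / (((V u).card : ℝ) * ((V w).card : ℝ)) :=
    div_nonneg (mul_nonneg (by positivity) (GFR_nrm_pos V m l hm hV).le)
      (mul_nonneg (hc _).le (hc _).le)
  by_cases hab : a ∈ V u ∧ b ∈ V w
  · obtain ⟨ha, hb⟩ := hab
    have hg := gq t pos L V m 8 hm (by norm_num) hV l hl u a ha
    set T1 : Finset (Fin v → Fin N) :=
      (Fintype.piFinset V).filter (fun x => GFR_nh t pos L V m l x ∧ x u = a ∧ x w = b) with hT1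
    set T2 : Finset (Fin v → Fin N) :=
      (Fintype.piFinset V).filter (fun x => x u = a ∧ GFR_nh t pos L V m l x) with hT2
    set f : (Fin v → Fin N) → ℝ := fun x => ∏ e ∈ l.toFinset, (mm t pos L e x : ℝ) with hf
    have hf0 : ∀ x, 0 ≤ f x := fun x => Finset.prod_nonneg fun _ _ => Nat.cast_nonneg _
    have hg' : ∑ x ∈ T2, f x ≤ 8 ^ l.length * GFR_nrm V m l / ((V u).card : ℝ) := by
      have h9 : ((∑ x ∈ (Fintype.piFinset V).filter (fun x => x u = a ∧ ∀ e ∈ l,
          (((L e).filter fun j => t (j, pos e.1) = x e.1).card : ℝ) ≤ 8 * m / ((V e.1).card : ℝ) ∧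
          (((L e).filter fun j => t (j, pos e.2) = x e.2).card : ℝ) ≤ 8 * m / ((V e.2).card : ℝ)),
          ∏ e ∈ l.toFinset, mm t pos L e x : ℕ) : ℝ) = ∑ x ∈ T2, f x := by
        rw [Nat.cast_sum]
        refine Finset.sum_congr ?_ fun x _ => ?_
        · rw [hT2]
          ext x
          rw [Finset.mem_filter, Finset.mem_filter]
          exact Iff.rfl
        · rw [Nat.cast_prod]
      rw [← h9]
      unfold GFR_nrm
      exact hg
    have hstep : ((V w).card : ℝ) * ∑ x ∈ T1, f x ≤ ∑ x ∈ T2, f x := by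
      rw [← nsmul_eq_mul, ← Finset.sum_const, ← Finset.sum_product']
      have hupd : ∀ (x : Fin v → Fin N) (b' : Fin N) (e : Fin v × Fin v), e ∈ l →
          (Function.update x w b') e.1 = x e.1 ∧ (Function.update x w b') e.2 = x e.2 := by
        intro x b' e he
        exact ⟨Function.update_of_ne (hw e he).1 _ _, Function.update_of_ne (hw e he).2 _ _⟩
      have hinj : Set.InjOn (fun q : Fin N × (Fin v → Fin N) => Function.update q.2 w q.1)
          ((V w ×ˢ T1 : Finset (Fin N × (Fin v → Fin N))) : Set (Fin N × (Fin v → Fin N))) := by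
        rintro ⟨b1, x1⟩ h1 ⟨b2, x2⟩ h2 h
        simp only [Finset.coe_product, Set.mem_prod, Finset.mem_coe] at h1 h2
        have h3 := (Finset.mem_filter.1 h1.2).2.2.2
        have h4 := (Finset.mem_filter.1 h2.2).2.2.2
        have h5 : b1 = b2 := by
          have := congrFun h w
          simpa using this
        refine Prod.ext h5 ?_
        funext i
        by_cases hi : i = w
        · change x1 i = x2 i
          rw [hi, h3, h4]
        · have := congrFun h i
          simpa [Function.update_of_ne hi] using this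
      calc ∑ q ∈ V w ×ˢ T1, f q.2
          = ∑ q ∈ V w ×ˢ T1, f (Function.update q.2 w q.1) := by
            refine Finset.sum_congr rfl fun q _ => ?_
            simp only [hf]
            refine Finset.prod_congr rfl fun e he => ?_
            have he' : e ∈ l := by simpa using he
            unfold mm
            rw [(hupd q.2 q.1 e he').1, (hupd q.2 q.1 e he').2]
        _ = ∑ y ∈ (V w ×ˢ T1).image (fun q => Function.update q.2 w q.1), f y := by
            rw [Finset.sum_image hinj]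
        _ ≤ _ := by
            refine Finset.sum_le_sum_of_subset_of_nonneg ?_ (fun y _ _ => hf0 y)
            intro y hy
            obtain ⟨⟨b', x⟩, hq, rfl⟩ := Finset.mem_image.1 hy
            obtain ⟨hb', hx⟩ := Finset.mem_product.1 hq
            obtain ⟨hx1, hx2, hx3, hx4⟩ := Finset.mem_filter.1 hx
            rw [Fintype.mem_piFinset] at hx1
            refine Finset.mem_filter.2 ⟨?_, ?_, ?_⟩
            · rw [Fintype.mem_piFinset]
              intro i
              by_cases hi : i = w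
              · subst hi
                simpa using hb'
              · simpa [Function.update_of_ne hi] using hx1 i
            · change Function.update x w b' u = a
              rw [Function.update_of_ne huw]
              exact hx3
            · intro e he
              change (((L e).filter fun j => t (j, pos e.1) = Function.update x w b' e.1).card : ℝ)
                ≤ _ ∧ (((L e).filter fun j => t (j, pos e.2) =
                  Function.update x w b' e.2).card : ℝ) ≤ _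
              rw [(hupd x b' e he).1, (hupd x b' e he).2]
              exact hx2 e he
    have hH : GFR_H t pos L V m l A u w a b ≤ ∑ x ∈ T1, f x := by
      unfold GFR_H
      refine Finset.sum_le_sum_of_subset_of_nonneg ?_ (fun x _ _ => hf0 x)
      exact Finset.filter_subset_filter _ hA
    refine hH.trans ?_
    rw [← div_div, le_div_iff₀ (hc w)]
    calc (∑ x ∈ T1, f x) * ((V w).card : ℝ) = ((V w).card : ℝ) * ∑ x ∈ T1, f x := mul_comm _ _
      _ ≤ _ := hstep.trans hg'
  · have : GFR_H t pos L V m l A u w a b = 0 := by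
      unfold GFR_H
      rw [Finset.filter_eq_empty_iff.2, Finset.sum_empty]
      intro x hx h2
      have h3 := hA hx
      rw [Fintype.mem_piFinset] at h3
      exact hab ⟨h2.2.1 ▸ h3 u, h2.2.2 ▸ h3 w⟩
    rw [this]
    exact hpos0

private lemma GFR_light {v : ℕ} (pos : Fin v → Fin 4) (l : List (Fin v × Fin v)) (hl : Fst l)
    (hpos : ∀ e ∈ l, pos e.1 ≠ pos e.2) :
    ∀ ε₄ K : ℝ, 0 < ε₄ → 0 < K → ∃ ε₃ : ℝ, 0 < ε₃ ∧
    ∀ (N M : ℕ) (V : Fin v → Finset (Fin N)) (m : ℝ)
      (L : Fin v × Fin v → Finset (Fin M)) (Vc : Fin M × Fin 4 → Finset (Fin N))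
      (Bad : (Fin M × Fin 4 → Fin N) → Finset (Fin v → Fin N)),
      0 < m → (∀ i, (V i).Nonempty) →
      (∀ e ∈ l, ∀ e' ∈ l, e ≠ e' → Disjoint (L e) (L e')) →
      (∀ e ∈ l, ∀ i ∈ L e, Vc (i, pos e.1) = V e.1 ∧ Vc (i, pos e.2) = V e.2) →
      (∀ e ∈ l, ((L e).card : ℝ) ≤ 8 * m) →
      (∀ t, Bad t ⊆ Fintype.piFinset V) →
      (∀ t t' : Fin M × Fin 4 → Fin N,
        (∀ c : Fin M × Fin 4, (∀ e ∈ l, c.1 ∉ L e) → t c = t' c) → Bad t = Bad t') →
      (((Fintype.piFinset Vc).filter fun t =>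
          ((Bad t).card : ℝ) ≤ ε₃ * ((Fintype.piFinset V).card : ℝ) ∧
          ε₄ * GFR_nrm V m l < GFR_S t pos L V m l (Bad t)).card : ℝ)
        ≤ (l.length : ℝ) * Real.exp (-(K * m)) * ((Fintype.piFinset Vc).card : ℝ) := by
  induction l with
  | nil =>
    intro ε₄ K hε hK
    refine ⟨ε₄, hε, ?_⟩
    intro N M V m L Vc Bad hm hV hdis hVc hL hBV hBad
    have h1 : (Fintype.piFinset Vc).filter (fun t =>
          ((Bad t).card : ℝ) ≤ ε₄ * ((Fintype.piFinset V).card : ℝ) ∧
          ε₄ * GFR_nrm V m [] < GFR_S t pos L V m [] (Bad t)) = ∅ := by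
      rw [Finset.filter_eq_empty_iff]
      rintro t _ ⟨h2, h3⟩
      unfold GFR_nrm GFR_S at h3
      have h4 : (Bad t).filter (fun x => GFR_nh t pos L V m [] x) = Bad t := by
        rw [Finset.filter_true_of_mem]
        intro x _ e he
        simp at he
      rw [h4] at h3
      simp only [List.toFinset_nil, Finset.prod_empty, mul_one, Finset.sum_const,
        nsmul_eq_mul] at h3
      linarith
    rw [h1, Finset.card_empty]
    simp
  | cons e l ih =>
    intro ε₄ K hε hK
    obtain ⟨hl1, hl2, hl3⟩ := hl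
    have hel : e ∉ l := fun h => (hl2 e h).2 rfl
    obtain ⟨ε', hε', hgst⟩ := gst (8 ^ l.length) ε₄ K (by positivity) hε hK
    obtain ⟨ε₃, hε₃, hIH⟩ := ih hl3 (fun e' he' => hpos e' (List.mem_cons_of_mem _ he')) ε' K hε' hK
    refine ⟨ε₃, hε₃, ?_⟩
    intro N M V m L Vc Bad hm hV hdis hVc hL hBV hBad
    have hc : ∀ i, 0 < ((V i).card : ℝ) := fun i => by exact_mod_cast (hV i).card_pos
    have hnl := GFR_nrm_pos V m l hm hV
    have hIH' := hIH N M V m L Vc Bad hm hV
      (fun e1 h1 e2 h2 hne => hdis e1 (List.mem_cons_of_mem _ h1) e2 (List.mem_cons_of_mem _ h2) hne)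
      (fun e1 h1 => hVc e1 (List.mem_cons_of_mem _ h1))
      (fun e1 h1 => hL e1 (List.mem_cons_of_mem _ h1)) hBV
      (fun t t' h => hBad t t' (fun c hc' => h c (fun e1 h1 => hc' e1 (List.mem_cons_of_mem _ h1))))
    set C : Finset (Fin M × Fin 4) :=
      Finset.univ.filter (fun c => c.1 ∈ L e ∧ (c.2 = pos e.1 ∨ c.2 = pos e.2)) with hC
    obtain ⟨P, hP⟩ : ∃ P : (Fin M × Fin 4 → Fin N) → Prop, ∀ t, P t ↔
        (GFR_S t pos L V m l (Bad t) ≤ ε' * GFR_nrm V m l ∧
          ε₄ * GFR_nrm V m (e :: l) < GFR_S t pos L V m (e :: l) (Bad t)) :=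
      ⟨_, fun t => Iff.rfl⟩
    have hstep : (((Fintype.piFinset Vc).filter P).card : ℝ) ≤
        Real.exp (-(K * m)) * ((Fintype.piFinset Vc).card : ℝ) := by
      refine prf Vc C P _ (Real.exp_pos _).le ?_
      intro t0 ht0
      have hmem : ∀ t ∈ fib Vc C t0, ∀ c, c ∉ C → t c = t0 c := by
        intro t ht c hcC
        unfold fib at ht
        rw [Fintype.mem_piFinset] at ht
        have := ht c
        rw [if_neg hcC, Finset.mem_singleton] at this
        exact this
      have hagree : ∀ t ∈ fib Vc C t0, ∀ c : Fin M × Fin 4, c.1 ∉ L e → t c = t0 c := by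
        intro t ht c hcL
        refine hmem t ht c ?_
        intro h
        exact hcL (Finset.mem_filter.1 h).2.1
      have hagl : ∀ t ∈ fib Vc C t0, ∀ c : Fin M × Fin 4, ∀ e' ∈ l, c.1 ∈ L e' → t c = t0 c := by
        intro t ht c e' he' hcL
        refine hagree t ht c ?_
        have hne : e' ≠ e := fun h => hel (h ▸ he')
        exact Finset.disjoint_left.1 (hdis e' (List.mem_cons_of_mem _ he') e
          List.mem_cons_self hne) hcL
      have hBt : ∀ t ∈ fib Vc C t0, Bad t = Bad t0 := by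
        intro t ht
        refine hBad t t0 fun c hc' => hagree t ht c (hc' e List.mem_cons_self)
      by_cases hgood : GFR_S t0 pos L V m l (Bad t0) ≤ ε' * GFR_nrm V m l
      · set cf : ℝ := ((V e.1).card : ℝ) * ((V e.2).card : ℝ) / GFR_nrm V m l with hcf
        have hcf0 : 0 < cf := div_pos (mul_pos (hc _) (hc _)) hnl
        set H' : Fin N → Fin N → ℝ := fun a b =>
          GFR_H t0 pos L V m l (Bad t0) e.1 e.2 a b * cf with hH'
        have hg := hgst N M (L e) (pos e.1) (pos e.2) (V e.1) (V e.2)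
          (fun c => if c ∈ C then Vc c else {t0 c}) m H' (hpos e List.mem_cons_self) hm.le
          (fun a b => mul_nonneg (GFR_H_nonneg t0 pos L V m l (Bad t0) e.1 e.2 a b) hcf0.le)
          (by
            intro a b
            have h1 := GFR_H_le t0 pos L V m hm hV l hl3 (Bad t0) (hBV t0) e.1 e.2 hl1 hl2 a b
            have h2 := mul_le_mul_of_nonneg_right h1 hcf0.le
            refine h2.trans (le_of_eq ?_)
            rw [hcf]
            have := (hc e.1).ne'
            have := (hc e.2).ne'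
            have := hnl.ne'
            field_simp)
          (hL e List.mem_cons_self)
          (by
            intro i hi
            have h1 : (i, pos e.1) ∈ C := by simp [hC, hi]
            have h2 : (i, pos e.2) ∈ C := by simp [hC, hi]
            rw [if_pos h1, if_pos h2]
            exact hVc e List.mem_cons_self i hi)
          (by
            have h1 := GFR_H_sum t0 pos L V m l (Bad t0) e.1 e.2 (V e.1) (V e.2)
            have h2 : ∑ a ∈ V e.1, ∑ b ∈ V e.2, H' a b =
                (∑ a ∈ V e.1, ∑ b ∈ V e.2, GFR_H t0 pos L V m l (Bad t0) e.1 e.2 a b) * cf := by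
              simp only [hH', Finset.sum_mul]
            rw [h2]
            calc _ ≤ (ε' * GFR_nrm V m l) * cf :=
                  mul_le_mul_of_nonneg_right (h1.trans hgood) hcf0.le
              _ = ε' * (((V e.1).card : ℝ) * ((V e.2).card : ℝ)) := by
                  rw [hcf]
                  have := hnl.ne'
                  field_simp)
        refine le_trans (Nat.cast_le.2 (Finset.card_le_card ?_)) hg
        intro t ht
        obtain ⟨ht1, ht23⟩ := Finset.mem_filter.1 ht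
        obtain ⟨ht2, ht3⟩ := (hP t).1 ht23
        refine Finset.mem_filter.2 ⟨?_, ?_⟩
        · unfold fib at ht1
          rw [Fintype.mem_piFinset] at ht1 ⊢
          intro c
          by_cases hcC : c ∈ C
          · have := ht1 c
            rw [if_pos hcC] at this
            rw [if_pos hcC]
            exact this
          · have := ht1 c
            rw [if_neg hcC] at this
            rw [if_neg hcC]
            exact this
        · have h1 := GFR_S_cons t pos L V m e l hel (Bad t)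
          rw [hBt t ht1] at h1 ht3
          have h2 : ∑ i ∈ L e, GFR_H t pos L V m l (Bad t0) e.1 e.2 (t (i, pos e.1))
              (t (i, pos e.2)) = ∑ i ∈ L e, GFR_H t0 pos L V m l (Bad t0) e.1 e.2 (t (i, pos e.1))
              (t (i, pos e.2)) := by
            refine Finset.sum_congr rfl fun i _ => ?_
            exact GFR_H_congr t t0 pos L V m l (Bad t0) e.1 e.2 _ _ (hagl t ht1)
          rw [h2] at h1
          have h3 : ∑ i ∈ L e, H' (t (i, pos e.1)) (t (i, pos e.2)) =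
              (∑ i ∈ L e, GFR_H t0 pos L V m l (Bad t0) e.1 e.2 (t (i, pos e.1))
              (t (i, pos e.2))) * cf := by
            simp only [hH', Finset.sum_mul]
          rw [h3]
          have h4 : ε₄ * m = (ε₄ * GFR_nrm V m (e :: l)) * cf := by
            rw [GFR_nrm_cons V m e l hel, hcf]
            have := (hc e.1).ne'
            have := (hc e.2).ne'
            have := hnl.ne'
            field_simp
          rw [h4]
          exact mul_le_mul_of_nonneg_right (ht3.le.trans h1) hcf0.le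
      · have hemp : (fib Vc C t0).filter P = ∅ := by
          rw [Finset.filter_eq_empty_iff]
          intro t ht hPt
          have h1 := ((hP t).1 hPt).1
          rw [hBt t ht, GFR_S_congr t t0 pos L V m l (Bad t0) (hagl t ht)] at h1
          exact hgood h1
        rw [hemp, Finset.card_empty, Nat.cast_zero]
        exact mul_nonneg (Real.exp_pos _).le (Nat.cast_nonneg _)
    have hcover : ((Fintype.piFinset Vc).filter fun t =>
          ((Bad t).card : ℝ) ≤ ε₃ * ((Fintype.piFinset V).card : ℝ) ∧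
          ε₄ * GFR_nrm V m (e :: l) < GFR_S t pos L V m (e :: l) (Bad t)) ⊆
        ((Fintype.piFinset Vc).filter fun t =>
          ((Bad t).card : ℝ) ≤ ε₃ * ((Fintype.piFinset V).card : ℝ) ∧
          ε' * GFR_nrm V m l < GFR_S t pos L V m l (Bad t)) ∪
        ((Fintype.piFinset Vc).filter P) := by
      intro t ht
      obtain ⟨ht1, ht2, ht3⟩ := Finset.mem_filter.1 ht
      rcases lt_or_ge (ε' * GFR_nrm V m l) (GFR_S t pos L V m l (Bad t)) with h1 | h1
      · exact Finset.mem_union_left _ (Finset.mem_filter.2 ⟨ht1, ht2, h1⟩)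
      · exact Finset.mem_union_right _ (Finset.mem_filter.2 ⟨ht1, (hP t).2 ⟨h1, ht3⟩⟩)
    have h5 := (Nat.cast_le (α := ℝ)).2 ((Finset.card_le_card hcover).trans (Finset.card_union_le _ _))
    rw [Nat.cast_add] at h5
    refine h5.trans ((add_le_add hIH' hstep).trans (le_of_eq ?_))
    rw [List.length_cons]
    push_cast
    ring

private lemma GFR_heavy {v N M : ℕ} (t : Fin M × Fin 4 → Fin N) (pos : Fin v → Fin 4)
    (L : Fin v × Fin v → Finset (Fin M)) (V : Fin v → Finset (Fin N)) (m κ₁ : ℝ) (h : ℕ)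
    (hκ : 0 < κ₁) (hh : 1 ≤ h) (hm : 0 < m) (hV : ∀ i, (V i).Nonempty)
    {l : List (Fin v × Fin v)} (hl : Fst l) (hN : (N : ℝ) = (h : ℝ) ^ 96)
    (hVle : ∀ i, ((V i).card : ℝ) ≤ (h : ℝ) ^ 96)
    (hVge : ∀ i, κ₁ * (h : ℝ) ^ 96 ≤ ((V i).card : ℝ)) (hmge : κ₁ * (h : ℝ) ^ 152 ≤ m)
    (hHV : ∀ e ∈ l, HVC h t pos L V m e) (hDEG : DEG h t) :
    ∑ x ∈ (Fintype.piFinset V).filter (fun x => ¬ GFR_nh t pos L V m l x),
        ∏ e ∈ l.toFinset, (mm t pos L e x : ℝ) ≤
      2 * (l.length : ℝ) * (8 / κ₁) ^ l.length / (κ₁ * (h : ℝ) ^ 55) * GFR_nrm V m l := by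
  have hR : (1 : ℝ) ≤ (h : ℝ) := by exact_mod_cast hh
  have h0 : (0 : ℝ) < (h : ℝ) := by linarith
  have hc : ∀ i, 0 < ((V i).card : ℝ) := fun i => by exact_mod_cast (hV i).card_pos
  have hn0 := GFR_nrm_pos V m l hm hV
  set f : (Fin v → Fin N) → ℝ := fun x => ∏ e ∈ l.toFinset, (mm t pos L e x : ℝ) with hf
  have hf0 : ∀ x, 0 ≤ f x := fun x => Finset.prod_nonneg fun _ _ => Nat.cast_nonneg _
  -- all class degrees
  have hdeg : ∀ (e : Fin v × Fin v) (i : Fin v) (b : Fin N),
      (((L e).filter fun j => t (j, pos i) = b).card : ℝ) ≤ 8 / κ₁ * m / ((V i).card : ℝ) := by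
    intro e i b
    have e1 : ((L e).filter fun j => t (j, pos i) = b).card ≤ 8 * h ^ 56 :=
      (Finset.card_le_card (Finset.filter_subset_filter _ (Finset.subset_univ _))).trans
        (hDEG (pos i) b)
    have e2 : (((L e).filter fun j => t (j, pos i) = b).card : ℝ) ≤ 8 * (h : ℝ) ^ 56 := by
      exact_mod_cast e1
    refine e2.trans ?_
    rw [le_div_iff₀ (hc i), div_mul_eq_mul_div, le_div_iff₀ hκ]
    calc 8 * (h : ℝ) ^ 56 * ((V i).card : ℝ) * κ₁
        ≤ 8 * (h : ℝ) ^ 56 * (h : ℝ) ^ 96 * κ₁ :=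
          mul_le_mul_of_nonneg_right (mul_le_mul_of_nonneg_left (hVle i) (by positivity)) hκ.le
      _ = 8 * (κ₁ * ((h : ℝ) ^ 56 * (h : ℝ) ^ 96)) := by ring
      _ = 8 * (κ₁ * (h : ℝ) ^ 152) := by rw [← pow_add]
      _ ≤ 8 * m := mul_le_mul_of_nonneg_left hmge (by norm_num)
  have hgq : ∀ (i : Fin v), ∀ a ∈ V i, ∑ x ∈ (Fintype.piFinset V).filter (fun x => x i = a), f x
      ≤ (8 / κ₁) ^ l.length * GFR_nrm V m l / (κ₁ * (N : ℝ)) := by
    intro i a ha
    have hg := gq t pos L V m (8 / κ₁) hm (by positivity) hV l hl i a ha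
    have e1 : ((∑ x ∈ (Fintype.piFinset V).filter (fun x => x i = a ∧ ∀ e ∈ l,
        (((L e).filter fun j => t (j, pos e.1) = x e.1).card : ℝ)
          ≤ 8 / κ₁ * m / ((V e.1).card : ℝ) ∧
        (((L e).filter fun j => t (j, pos e.2) = x e.2).card : ℝ)
          ≤ 8 / κ₁ * m / ((V e.2).card : ℝ)),
        ∏ e ∈ l.toFinset, mm t pos L e x : ℕ) : ℝ) =
        ∑ x ∈ (Fintype.piFinset V).filter (fun x => x i = a), f x := by
      rw [Nat.cast_sum]
      refine Finset.sum_congr ?_ fun x _ => ?_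
      · ext x
        rw [Finset.mem_filter, Finset.mem_filter]
        constructor
        · rintro ⟨h1, h2, _⟩
          exact ⟨h1, h2⟩
        · rintro ⟨h1, h2⟩
          exact ⟨h1, h2, fun e _ => ⟨hdeg e e.1 _, hdeg e e.2 _⟩⟩
      · rw [Nat.cast_prod]
    rw [e1] at hg
    refine hg.trans ?_
    have e2 : 0 ≤ (8 / κ₁) ^ l.length * GFR_nrm V m l := mul_nonneg (by positivity) hn0.le
    refine div_le_div_of_nonneg_left e2 ?_ ?_
    · rw [hN]
      positivity
    · rw [hN]
      exact hVge i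
  -- the heavy vertices
  set Hv : Fin v × Fin v → Fin v → Finset (Fin N) := fun e i =>
    (V i).filter fun a => 8 * m / ((V i).card : ℝ)
      < (((L e).filter fun j => t (j, pos i) = a).card : ℝ) with hHvdef
  have hHv : ∀ e ∈ l, ∀ i, (i = e.1 ∨ i = e.2) → ((Hv e i).card : ℝ) ≤ (N : ℝ) / (h : ℝ) ^ 55 := by
    intro e he i hi
    rw [le_div_iff₀ (by positivity)]
    have h1 := hHV e he
    rcases hi with rfl | rfl
    · have := h1.2.1
      have h2 : (h : ℝ) ^ 55 * ((Hv e e.1).card : ℝ) ≤ (N : ℝ) := by exact_mod_cast this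
      linarith
    · have := h1.2.2
      have h2 : (h : ℝ) ^ 55 * ((Hv e e.2).card : ℝ) ≤ (N : ℝ) := by exact_mod_cast this
      linarith
  have hHsum : ∀ e ∈ l, ∀ i, (i = e.1 ∨ i = e.2) →
      ∑ a ∈ Hv e i, ∑ x ∈ (Fintype.piFinset V).filter (fun x => x i = a), f x ≤
        (8 / κ₁) ^ l.length / (κ₁ * (h : ℝ) ^ 55) * GFR_nrm V m l := by
    intro e he i hi
    have e1 := Finset.sum_le_sum (s := Hv e i) (fun a ha => hgq i a (Finset.mem_filter.1 ha).1)
    refine e1.trans ?_
    rw [Finset.sum_const, nsmul_eq_mul]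
    have hNpos : 0 < (N : ℝ) := by rw [hN]; positivity
    have e2 : 0 ≤ (8 / κ₁) ^ l.length * GFR_nrm V m l / (κ₁ * (N : ℝ)) :=
      div_nonneg (mul_nonneg (by positivity) hn0.le) (by positivity)
    refine (mul_le_mul_of_nonneg_right (hHv e he i hi) e2).trans (le_of_eq ?_)
    field_simp
  have hpt : ∀ x ∈ (Fintype.piFinset V).filter (fun x => ¬ GFR_nh t pos L V m l x), f x ≤
      ∑ e ∈ l.toFinset, ((∑ a ∈ Hv e e.1, if x e.1 = a then f x else 0) +
        ∑ a ∈ Hv e e.2, if x e.2 = a then f x else 0) := by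
    intro x hx
    obtain ⟨hx1, hx2⟩ := Finset.mem_filter.1 hx
    rw [Fintype.mem_piFinset] at hx1
    unfold GFR_nh at hx2
    push Not at hx2
    obtain ⟨e, he, hx3⟩ := hx2
    have hnn : ∀ (e' : Fin v × Fin v) (i : Fin v),
        0 ≤ ∑ a ∈ Hv e' i, (if x i = a then f x else 0) := by
      intro e' i
      refine Finset.sum_nonneg fun a _ => ?_
      split_ifs
      · exact hf0 x
      · exact le_rfl
    have hone : ∀ i, x i ∈ Hv e i → f x ≤ ∑ a ∈ Hv e i, (if x i = a then f x else 0) := by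
      intro i hi
      have h1 : (if x i = x i then f x else 0) ≤ ∑ a ∈ Hv e i, (if x i = a then f x else 0) :=
        Finset.single_le_sum (f := fun a => if x i = a then f x else 0) (fun a _ => by
          split_ifs
          · exact hf0 x
          · exact le_rfl) hi
      rwa [if_pos rfl] at h1
    have hterm : f x ≤ (∑ a ∈ Hv e e.1, if x e.1 = a then f x else 0) +
        ∑ a ∈ Hv e e.2, if x e.2 = a then f x else 0 := by
      by_cases h1 : (((L e).filter fun j => t (j, pos e.1) = x e.1).card : ℝ)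
          ≤ 8 * m / ((V e.1).card : ℝ)
      · have h2 := hx3 h1
        have h3 := hone e.2 (Finset.mem_filter.2 ⟨hx1 _, h2⟩)
        have h4 := hnn e e.1
        linarith
      · have h3 := hone e.1 (Finset.mem_filter.2 ⟨hx1 _, not_le.1 h1⟩)
        have h4 := hnn e e.2
        linarith
    refine hterm.trans ?_
    exact Finset.single_le_sum (f := fun e' : Fin v × Fin v =>
      (∑ a ∈ Hv e' e'.1, if x e'.1 = a then f x else 0) +
        ∑ a ∈ Hv e' e'.2, if x e'.2 = a then f x else 0)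
      (fun e' _ => add_nonneg (hnn e' _) (hnn e' _)) (by simpa using he)
  have hall : ∑ x ∈ (Fintype.piFinset V).filter (fun x => ¬ GFR_nh t pos L V m l x), f x ≤
      ∑ x ∈ Fintype.piFinset V, ∑ e ∈ l.toFinset,
        ((∑ a ∈ Hv e e.1, if x e.1 = a then f x else 0) +
        ∑ a ∈ Hv e e.2, if x e.2 = a then f x else 0) := by
    refine (Finset.sum_le_sum hpt).trans ?_
    refine Finset.sum_le_sum_of_subset_of_nonneg (Finset.filter_subset _ _) fun x _ _ => ?_
    refine Finset.sum_nonneg fun e _ => add_nonneg ?_ ?_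
    · refine Finset.sum_nonneg fun a _ => ?_
      split_ifs
      · exact hf0 x
      · exact le_rfl
    · refine Finset.sum_nonneg fun a _ => ?_
      split_ifs
      · exact hf0 x
      · exact le_rfl
  refine hall.trans ?_
  rw [Finset.sum_comm]
  have hswap : ∀ (e : Fin v × Fin v) (i : Fin v),
      ∑ x ∈ Fintype.piFinset V, ∑ a ∈ Hv e i, (if x i = a then f x else 0) =
      ∑ a ∈ Hv e i, ∑ x ∈ (Fintype.piFinset V).filter (fun x => x i = a), f x := by
    intro e i
    rw [Finset.sum_comm]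
    refine Finset.sum_congr rfl fun a _ => ?_
    rw [Finset.sum_filter]
  have hterm : ∀ e ∈ l.toFinset, ∑ x ∈ Fintype.piFinset V,
      ((∑ a ∈ Hv e e.1, if x e.1 = a then f x else 0) +
        ∑ a ∈ Hv e e.2, if x e.2 = a then f x else 0) ≤
      2 * ((8 / κ₁) ^ l.length / (κ₁ * (h : ℝ) ^ 55) * GFR_nrm V m l) := by
    intro e he
    have he' : e ∈ l := by simpa using he
    rw [Finset.sum_add_distrib, hswap, hswap]
    have h1 := hHsum e he' e.1 (Or.inl rfl)
    have h2 := hHsum e he' e.2 (Or.inr rfl)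
    linarith
  refine (Finset.sum_le_sum hterm).trans ?_
  rw [Finset.sum_const, nsmul_eq_mul]
  have hcl : (l.toFinset.card : ℝ) ≤ (l.length : ℝ) := by exact_mod_cast l.toFinset_card_le
  have hX : 0 ≤ (8 / κ₁) ^ l.length / (κ₁ * (h : ℝ) ^ 55) * GFR_nrm V m l :=
    mul_nonneg (by positivity) hn0.le
  calc (l.toFinset.card : ℝ) * (2 * ((8 / κ₁) ^ l.length / (κ₁ * (h : ℝ) ^ 55) * GFR_nrm V m l))
      ≤ (l.length : ℝ) * (2 * ((8 / κ₁) ^ l.length / (κ₁ * (h : ℝ) ^ 55) * GFR_nrm V m l)) :=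
        mul_le_mul_of_nonneg_right hcl (by linarith)
    _ = _ := by ring

/-- Root to root forests: a small set of assignments (determined by the other cells) carries a small
proportion of the weight of the forest. -/
theorem gfr (v : ℕ) (pos : Fin v → Fin 4) (l : List (Fin v × Fin v)) (hl : Fst l)
    (hpos : ∀ e ∈ l, pos e.1 ≠ pos e.2) :
    ∀ ε₄ K : ℝ, 0 < ε₄ → 0 < K → ∃ ε₃ : ℝ, 0 < ε₃ ∧
    ∀ κ₁ : ℝ, 0 < κ₁ → ∃ h₀ : ℕ, ∀ h ≥ h₀, ∀ (N M : ℕ) (V : Fin v → Finset (Fin N)) (m : ℝ)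
      (L : Fin v × Fin v → Finset (Fin M)) (Vc : Fin M × Fin 4 → Finset (Fin N))
      (Bad : (Fin M × Fin 4 → Fin N) → Finset (Fin v → Fin N)),
      KHyp h pos l.toFinset κ₁ V m L Vc →
      (∀ t, Bad t ⊆ Fintype.piFinset V) →
      (∀ t t' : Fin M × Fin 4 → Fin N,
        (∀ c : Fin M × Fin 4, (∀ e ∈ l, c.1 ∉ L e) → t c = t' c) → Bad t = Bad t') →
      (((Fintype.piFinset Vc).filter fun t => (∀ e ∈ l, HVC h t pos L V m e) ∧ DEG h t ∧
          ((Bad t).card : ℝ) ≤ ε₃ * ((Fintype.piFinset V).card : ℝ) ∧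
          ε₄ * (((Fintype.piFinset V).card : ℝ) *
              ∏ e ∈ l.toFinset, (m / (((V e.1).card : ℝ) * ((V e.2).card : ℝ))))
            < ((∑ x ∈ Bad t, ∏ e ∈ l.toFinset, mm t pos L e x : ℕ) : ℝ)).card : ℝ)
        ≤ Real.exp (-(K * m)) * ((Fintype.piFinset Vc).card : ℝ) := by
  intro ε₄ K hε hK
  obtain ⟨ε₃, hε₃, hlight⟩ := GFR_light pos l hl hpos (ε₄ / 2) (K + 1) (by linarith) (by linarith)
  refine ⟨ε₃, hε₃, ?_⟩
  intro κ₁ hκ
  refine ⟨max 1 (max ⌈4 * (l.length : ℝ) * (8 / κ₁) ^ l.length / (κ₁ * ε₄)⌉₊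
    ⌈(l.length : ℝ) / κ₁⌉₊), ?_⟩
  intro h hh N M V m L Vc Bad hKH hBV hBad
  have hh1 : 1 ≤ h := (le_max_left _ _).trans hh
  have hR : (1 : ℝ) ≤ (h : ℝ) := by exact_mod_cast hh1
  have h0 : (0 : ℝ) < (h : ℝ) := by linarith
  have hhA : 4 * (l.length : ℝ) * (8 / κ₁) ^ l.length ≤ ε₄ * (κ₁ * (h : ℝ)) := by
    have e1 : (⌈4 * (l.length : ℝ) * (8 / κ₁) ^ l.length / (κ₁ * ε₄)⌉₊ : ℝ) ≤ (h : ℝ) := by
      exact_mod_cast (le_max_left _ _).trans ((le_max_right _ _).trans hh)
    have e2 := (Nat.le_ceil (4 * (l.length : ℝ) * (8 / κ₁) ^ l.length / (κ₁ * ε₄))).trans e1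
    rw [div_le_iff₀ (by positivity)] at e2
    linarith
  have hhB : (l.length : ℝ) ≤ κ₁ * (h : ℝ) := by
    have e1 : (⌈(l.length : ℝ) / κ₁⌉₊ : ℝ) ≤ (h : ℝ) := by
      exact_mod_cast (le_max_right _ _).trans ((le_max_right _ _).trans hh)
    have e2 := (Nat.le_ceil ((l.length : ℝ) / κ₁)).trans e1
    rw [div_le_iff₀ (by positivity)] at e2
    linarith
  have hNR : (N : ℝ) = (h : ℝ) ^ 96 := by rw [hKH.hN]; push_cast; rfl
  have hMR : (M : ℝ) = (h : ℝ) ^ 152 := by rw [hKH.hM]; push_cast; rfl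
  have hVle : ∀ i, ((V i).card : ℝ) ≤ (h : ℝ) ^ 96 := by
    intro i
    rw [← hNR]
    have := Finset.card_le_univ (V i)
    rw [Fintype.card_fin] at this
    exact_mod_cast this
  have hVge : ∀ i, κ₁ * (h : ℝ) ^ 96 ≤ ((V i).card : ℝ) := by
    intro i
    rw [← hNR]
    exact hKH.hV i
  have hc : ∀ i, 0 < ((V i).card : ℝ) := fun i => lt_of_lt_of_le (by positivity) (hVge i)
  have hV : ∀ i, (V i).Nonempty := fun i => Finset.card_pos.1 (by exact_mod_cast hc i)
  have hmge : κ₁ * (h : ℝ) ^ 152 ≤ m := by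
    rw [← hMR]
    exact hKH.hm
  have hm0 : 0 < m := lt_of_lt_of_le (by positivity) hmge
  have hmh : κ₁ * (h : ℝ) ≤ m :=
    (mul_le_mul_of_nonneg_left (le_self_pow₀ hR (by norm_num)) hκ.le).trans hmge
  have hcardN : 0 ≤ ((Fintype.piFinset Vc).card : ℝ) := Nat.cast_nonneg _
  by_cases hLe : ∀ e ∈ l, ((L e).card : ℝ) ≤ 8 * m
  · have hlt := hlight N M V m L Vc Bad hm0 hV
      (fun e he e' he' hne => hKH.hdis e (by simpa using he) e' (by simpa using he') hne)
      (fun e he => hKH.hVc e (by simpa using he)) hLe hBV hBad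
    have hexp : (l.length : ℝ) * Real.exp (-((K + 1) * m)) ≤ Real.exp (-(K * m)) := by
      have e1 : -((K + 1) * m) = -(K * m) + -m := by ring
      have e2 : (l.length : ℝ) ≤ Real.exp m :=
        (hhB.trans hmh).trans (by linarith [Real.add_one_le_exp m])
      rw [e1, Real.exp_add]
      have e3 : (l.length : ℝ) * Real.exp (-m) ≤ 1 := by
        rw [Real.exp_neg]
        rw [mul_inv_le_iff₀ (Real.exp_pos m), one_mul]
        exact e2
      calc (l.length : ℝ) * (Real.exp (-(K * m)) * Real.exp (-m))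
          = Real.exp (-(K * m)) * ((l.length : ℝ) * Real.exp (-m)) := by ring
        _ ≤ Real.exp (-(K * m)) * 1 := mul_le_mul_of_nonneg_left e3 (Real.exp_pos _).le
        _ = _ := mul_one _
    refine le_trans ?_ (hlt.trans (mul_le_mul_of_nonneg_right hexp hcardN))
    refine Nat.cast_le.2 (Finset.card_le_card ?_)
    intro t ht
    obtain ⟨ht1, ht2, ht3, ht4, ht5⟩ := Finset.mem_filter.1 ht
    refine Finset.mem_filter.2 ⟨ht1, ht4, ?_⟩
    have hheavy := GFR_heavy t pos L V m κ₁ h hκ hh1 hm0 hV hl hNR hVle hVge hmge ht2 ht3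
    have hn0 := GFR_nrm_pos V m l hm0 hV
    have hsplit : ((∑ x ∈ Bad t, ∏ e ∈ l.toFinset, mm t pos L e x : ℕ) : ℝ) ≤
        GFR_S t pos L V m l (Bad t) +
        ∑ x ∈ (Fintype.piFinset V).filter (fun x => ¬ GFR_nh t pos L V m l x),
          ∏ e ∈ l.toFinset, (mm t pos L e x : ℝ) := by
      rw [Nat.cast_sum]
      have e1 : ∀ x, ((∏ e ∈ l.toFinset, mm t pos L e x : ℕ) : ℝ) =
          ∏ e ∈ l.toFinset, (mm t pos L e x : ℝ) := fun x => by rw [Nat.cast_prod]
      rw [Finset.sum_congr rfl fun x _ => e1 x]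
      unfold GFR_S
      rw [← Finset.sum_filter_add_sum_filter_not (Bad t) (fun x => GFR_nh t pos L V m l x)]
      refine add_le_add le_rfl ?_
      refine Finset.sum_le_sum_of_subset_of_nonneg ?_
        (fun x _ _ => Finset.prod_nonneg fun _ _ => Nat.cast_nonneg _)
      exact Finset.filter_subset_filter _ (hBV t)
    have hsmall : 2 * (l.length : ℝ) * (8 / κ₁) ^ l.length / (κ₁ * (h : ℝ) ^ 55) *
        GFR_nrm V m l ≤ ε₄ / 2 * GFR_nrm V m l := by
      refine mul_le_mul_of_nonneg_right ?_ hn0.le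
      rw [div_le_iff₀ (by positivity)]
      have e1 : ε₄ * (κ₁ * (h : ℝ)) ≤ ε₄ * (κ₁ * (h : ℝ) ^ 55) :=
        mul_le_mul_of_nonneg_left (mul_le_mul_of_nonneg_left
          (le_self_pow₀ hR (by norm_num)) hκ.le) hε.le
      linarith
    have ht5' : ε₄ * GFR_nrm V m l <
        ((∑ x ∈ Bad t, ∏ e ∈ l.toFinset, mm t pos L e x : ℕ) : ℝ) := ht5
    linarith
  · have hemp : ((Fintype.piFinset Vc).filter fun t => (∀ e ∈ l, HVC h t pos L V m e) ∧ DEG h t ∧
          ((Bad t).card : ℝ) ≤ ε₃ * ((Fintype.piFinset V).card : ℝ) ∧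
          ε₄ * (((Fintype.piFinset V).card : ℝ) *
              ∏ e ∈ l.toFinset, (m / (((V e.1).card : ℝ) * ((V e.2).card : ℝ))))
            < ((∑ x ∈ Bad t, ∏ e ∈ l.toFinset, mm t pos L e x : ℕ) : ℝ)) = ∅ := by
      rw [Finset.filter_eq_empty_iff]
      rintro t _ ⟨h2, _⟩
      exact hLe fun e he => (h2 e he).1
    rw [hemp, Finset.card_empty, Nat.cast_zero]
    exact mul_nonneg (Real.exp_pos _).le hcardN

end Pool.Agent.CUB
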