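import Pool.Agent.CUB.Defs2

set_option autoImplicit false

/-!
# CUB.HST

host_free: choose blocks `ℓ i j ∈ 𝒢` for all pairs. If they are not all equal this is a `CrossK`
configuration with all blocks in `𝒢`, contradiction. If all equal `k`, then `a i = (v i, f (k, v i))`, so the
first components are injective, and `B` contains `K_{4,4} ⊇ K_{3,3}` (use `Fin.castSucc`), contradicting `hB`.
host_del: `𝒢` = complement of the set of the blocks `c.2.2 0 0`. push_unif: the fibres of
`f ↦ (fun c => f (c.1, ι c.2))` all have the same size `N^{M(b-4)}` (`Equiv` between `Fin M × Fin b → Fin N` and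
(functions on the image cells) × (functions on the other cells)). host_pigeon: for `k ∈ 𝒢` apply `hB` to
`χ ∘ Sym2.map (fun u => (u, f (k, u)))`, then pigeonhole over `Fin r × (Fin 4 → Fin b)` (`r b^4` pairs).
-/

namespace Pool.Agent.CUB

open scoped Classical

/-- The host graph without crossing `K_{4,4}`'s is `K_{4,4}`-free. -/
theorem host_free {b N M : ℕ} (B : SimpleGraph (Fin b))
    (hB : ∀ a a' : Fin 3 → Fin b, Function.Injective a → Function.Injective a' →
      ¬ ∀ i j, B.Adj (a i) (a' j))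
    (f : Fin M × Fin b → Fin N) (𝒢 : Finset (Fin M))
    (h : ∀ c, CrossK B f c → ∃ i j, c.2.2 i j ∉ 𝒢) : K44Free (hostG B f 𝒢) := by
  intro a a' ha ha' hadj
  have hex : ∀ i j, ∃ k : Fin M, k ∈ 𝒢 ∧ f (k, (a i).1) = (a i).2 ∧ f (k, (a' j).1) = (a' j).2 := by
    intro i j
    obtain ⟨-, k, hk, h1, h2⟩ := hadj i j
    exact ⟨k, hk, h1, h2⟩
  choose ell hG h1 h2 using hex
  have hB' : ∀ i j, B.Adj (a i).1 (a' j).1 := fun i j => (hadj i j).1
  by_cases hall : ∀ i j i' j', ell i j = ell i' j'
  · have hk : ∀ i j, ell i j = ell 0 0 := fun i j => hall i j 0 0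
    have e1 : ∀ i, f (ell 0 0, (a i).1) = (a i).2 := by
      intro i; rw [← hk i 0]; exact h1 i 0
    have e2 : ∀ j, f (ell 0 0, (a' j).1) = (a' j).2 := by
      intro j; rw [← hk 0 j]; exact h2 0 j
    refine hB (fun i => (a i.castSucc).1) (fun i => (a' i.castSucc).1) ?_ ?_
      (fun i j => hB' _ _)
    · intro i i' hii
      have hii' : (a i.castSucc).1 = (a i'.castSucc).1 := hii
      have h3 : a i.castSucc = a i'.castSucc := by
        refine Prod.ext hii' ?_
        rw [← e1, ← e1, hii']
      exact Fin.castSucc_injective _ (ha h3)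
    · intro i i' hii
      have hii' : (a' i.castSucc).1 = (a' i'.castSucc).1 := hii
      have h3 : a' i.castSucc = a' i'.castSucc := by
        refine Prod.ext hii' ?_
        rw [← e2, ← e2, hii']
      exact Fin.castSucc_injective _ (ha' h3)
  · obtain ⟨i, j, hij⟩ := h (a, a', ell) ⟨ha, ha', hB', fun i j => ⟨h1 i j, h2 i j⟩, hall⟩
    exact hij (hG i j)

/-- Deleting one block from every crossing `K_{4,4}`. -/
theorem host_del {b N M : ℕ} (B : SimpleGraph (Fin b)) (f : Fin M × Fin b → Fin N) :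
    ∃ 𝒢 : Finset (Fin M), M ≤ 𝒢.card + ((Finset.univ : Finset ((Fin 4 → Fin b × Fin N) ×
        (Fin 4 → Fin b × Fin N) × (Fin 4 → Fin 4 → Fin M))).filter fun c => CrossK B f c).card ∧
      ∀ c, CrossK B f c → ∃ i j, c.2.2 i j ∉ 𝒢 := by
  set S := (Finset.univ : Finset ((Fin 4 → Fin b × Fin N) ×
        (Fin 4 → Fin b × Fin N) × (Fin 4 → Fin 4 → Fin M))).filter fun c => CrossK B f c with hS
  refine ⟨(S.image fun c => c.2.2 0 0)ᶜ, ?_, ?_⟩
  · have h1 := Finset.card_compl_add_card (S.image fun c => c.2.2 0 0)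
    have h2 : (S.image fun c => c.2.2 0 0).card ≤ S.card := Finset.card_image_le
    rw [Fintype.card_fin] at h1
    omega
  · intro c hc
    refine ⟨0, 0, ?_⟩
    rw [Finset.mem_compl, not_not, Finset.mem_image]
    refine ⟨c, ?_, rfl⟩
    rw [hS, Finset.mem_filter]
    exact ⟨Finset.mem_univ _, hc⟩

/-- Restriction along an injective map is uniform. -/
theorem push_gen {α β γ : Type} [Fintype α] [Fintype β] [Fintype γ] [DecidableEq α]
    [DecidableEq β] (j : α → β)
    (hj : Function.Injective j) (P : (α → γ) → Prop) :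
    ((Finset.univ : Finset (β → γ)).filter fun f => P fun c => f (j c)).card
        * Fintype.card (α → γ)
      = ((Finset.univ : Finset (α → γ)).filter P).card * Fintype.card (β → γ) := by
  let R : Type := {b : β // b ∉ Set.range j}
  let e : α ⊕ R ≃ β := (Equiv.sumCongr (Equiv.ofInjective j hj) (Equiv.refl _)).trans
    (Equiv.Set.sumCompl (Set.range j))
  let E : (β → γ) ≃ (α → γ) × (R → γ) :=
    (Equiv.arrowCongr e.symm (Equiv.refl γ)).trans (Equiv.sumArrowEquivProdArrow α R γ)
  have hE : ∀ f : β → γ, (E f).1 = fun c => f (j c) := by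
    intro f; rfl
  have h1 : ((Finset.univ : Finset (β → γ)).filter fun f => P fun c => f (j c)).card
      = ((Finset.univ : Finset (α → γ)).filter P).card * Fintype.card (R → γ) := by
    rw [← Finset.card_univ (α := R → γ), ← Finset.card_product]
    apply Finset.card_equiv E
    intro f
    rw [Finset.mem_filter, Finset.mem_product, Finset.mem_filter, hE]
    simp
  have h2 : Fintype.card (β → γ) = Fintype.card (α → γ) * Fintype.card (R → γ) := by
    rw [← Fintype.card_prod]; exact Fintype.card_congr E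
  rw [h1, h2]; ring

/-- Restriction of a uniform configuration to four coordinates is uniform. -/
theorem push_unif {b N M : ℕ} (ι : Fin 4 → Fin b) (hι : Function.Injective ι)
    (P : (Fin M × Fin 4 → Fin N) → Prop) :
    (((Finset.univ : Finset (Fin M × Fin b → Fin N)).filter fun f =>
        P fun c => f (c.1, ι c.2)).card : ℝ) * (Fintype.card (Fin M × Fin 4 → Fin N) : ℝ)
      = (((Finset.univ : Finset (Fin M × Fin 4 → Fin N)).filter P).card : ℝ) *
        (Fintype.card (Fin M × Fin b → Fin N) : ℝ) := by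
  have hj : Function.Injective fun c : Fin M × Fin 4 => ((c.1, ι c.2) : Fin M × Fin b) := by
    intro c c' hcc
    have h1 := Prod.mk.inj hcc
    exact Prod.ext h1.1 (hι h1.2)
  have h2 := push_gen (γ := Fin N) _ hj P
  rw [← Nat.cast_mul, ← Nat.cast_mul]
  exact congrArg (fun x : ℕ => (x : ℝ)) h2

/-- Pigeonhole for the blocks: every colouring of the host has many blocks with a monochromatic `K_4`
of the same colour at the same place. -/
theorem host_pigeon {b N M r : ℕ} (B : SimpleGraph (Fin b)) (hr : 0 < r)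
    (hB : ∀ χ : Sym2 (Fin b) → Fin r, ∃ (i : Fin r) (g : Fin 4 → Fin b), Function.Injective g ∧
        ∀ u w, u ≠ w → B.Adj (g u) (g w) ∧ χ s(g u, g w) = i)
    (f : Fin M × Fin b → Fin N) (𝒢 : Finset (Fin M)) (χ : Sym2 (Fin b × Fin N) → Fin r) :
    ∃ (i : Fin r) (g : Fin 4 → Fin b) (L0 : Finset (Fin M)), Function.Injective g ∧ L0 ⊆ 𝒢 ∧
      𝒢.card ≤ r * b ^ 4 * L0.card ∧ (∀ u w, u ≠ w → B.Adj (g u) (g w)) ∧
      ∀ k ∈ L0, ∀ u w, u ≠ w → χ s((g u, f (k, g u)), (g w, f (k, g w))) = i := by
  have hk : ∀ k : Fin M, ∃ p : Fin r × (Fin 4 → Fin b), Function.Injective p.2 ∧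
      ∀ u w, u ≠ w → B.Adj (p.2 u) (p.2 w) ∧
        χ s((p.2 u, f (k, p.2 u)), (p.2 w, f (k, p.2 w))) = p.1 := by
    intro k
    obtain ⟨i, g, hg, h2⟩ := hB fun s => χ (Sym2.map (fun u => (u, f (k, u))) s)
    refine ⟨(i, g), hg, ?_⟩
    intro u w huw
    obtain ⟨h3, h4⟩ := h2 u w huw
    refine ⟨h3, ?_⟩
    rw [Sym2.map_mk] at h4
    exact h4
  choose p hp1 hp2 using hk
  obtain ⟨i0, g0, hg0, h0⟩ := hB fun _ => ⟨0, hr⟩
  rcases Finset.eq_empty_or_nonempty 𝒢 with hG | hG
  · refine ⟨i0, g0, ∅, hg0, Finset.empty_subset _, ?_, fun u w huw => (h0 u w huw).1, ?_⟩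
    · rw [hG]; simp
    · intro k hk; exact absurd hk (Finset.notMem_empty k)
  · have : Nonempty (Fin r × (Fin 4 → Fin b)) := ⟨(i0, g0)⟩
    obtain ⟨q, -, hq⟩ := Finset.exists_max_image (Finset.univ : Finset (Fin r × (Fin 4 → Fin b)))
      (fun q => (𝒢.filter fun k => p k = q).card) Finset.univ_nonempty
    have hcard : 𝒢.card ≤ r * b ^ 4 * (𝒢.filter fun k => p k = q).card := by
      have h1 := Finset.card_eq_sum_card_fiberwise (f := p) (s := 𝒢)
        (t := (Finset.univ : Finset (Fin r × (Fin 4 → Fin b)))) (fun k _ => Finset.mem_coe.2 (Finset.mem_univ _))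
      rw [h1]
      have h2 : ∑ q' : Fin r × (Fin 4 → Fin b), (𝒢.filter fun k => p k = q').card
          ≤ ∑ _q' : Fin r × (Fin 4 → Fin b), (𝒢.filter fun k => p k = q).card :=
        Finset.sum_le_sum fun q' hq' => hq q' hq'
      refine h2.trans (le_of_eq ?_)
      rw [Finset.sum_const, Finset.card_univ, Fintype.card_prod, Fintype.card_fun,
        Fintype.card_fin, Fintype.card_fin, Fintype.card_fin, smul_eq_mul]
    have hne : (𝒢.filter fun k => p k = q).Nonempty := by
      rw [← Finset.card_pos]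
      rcases Nat.eq_zero_or_pos (𝒢.filter fun k => p k = q).card with h3 | h3
      · rw [h3, Nat.mul_zero] at hcard
        exact absurd (Finset.card_pos.2 hG) (by omega)
      · exact h3
    obtain ⟨k0, hk0⟩ := hne
    rw [Finset.mem_filter] at hk0
    refine ⟨q.1, q.2, 𝒢.filter fun k => p k = q, ?_, Finset.filter_subset _ _, hcard, ?_, ?_⟩
    · rw [← hk0.2]; exact hp1 k0
    · intro u w huw
      rw [← hk0.2]; exact (hp2 k0 u w huw).1
    · intro k hk u w huw
      rw [Finset.mem_filter] at hk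
      rw [← hk.2]; exact (hp2 k u w huw).2

end Pool.Agent.CUB
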