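import Pool.Agent.CUB.PAT

set_option autoImplicit false

/-!
# CUB.INS

enw: list the elements of `Uᶜ` sorted by `rk` (`Finset.sort` or `List.insertionSort` of `univ.toList`),
`e` = the enumeration. inst_of_decomp: `anc j` = indices of `w, par w, par² w, par³ w`, `w = e j`; `par³ w` is a
root because the ranks decrease strictly and `rk ≤ 3` (so `par⁴ w = par³ w`; closedness, `anc_mono`).
`A i` = union of `anc` of the indices of the vertices outside `U` adjacent to `Q i` (`≤ 8·3·4 = 96`
elements). `anc_cnt`: `i ∈ anc j` implies that `e j` is reached by a walk of length `≤ 3` from `e i`: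
`≤ 1+3+9+27 = 40`. `A_cnt`: `≤ 40·3 = 120` (each such vertex has at most 3 neighbours in `U`, each in a
unique piece). All injectivity/disjointness statements follow from `hT2`: the vertices involved are
joined by walks of length `≤ 40` (within `Q i`: `≤ 7`; ancestors: `≤ 3`; within `A i`: `≤ 3+1+7+1+3`;
`A_disj`: `7+1+3+3+1+7 = 22`). `adm` by `pat`. `BA` by `hT3`. `FA`: an edge of `patF` has an end `a ∈ Q i`; the other
end is in `U`, hence in `Q i` (`adjU`, `dis`), or outside `U`, hence in `e '' A i`.
-/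

namespace Pool.Agent.CUB

open scoped Classical

/-- Enumeration of the forest part, parents first. -/
theorem enw {X : Type} [Fintype X] (U : Finset X) (par : X → X) (rk : X → ℕ)
    (h1 : ∀ w, w ∉ U → par w ∉ U) (h2 : ∀ w, w ∉ U → par w ≠ w → rk (par w) < rk w) :
    ∃ (n : ℕ) (e : Fin n → X) (parW : Fin n → Fin n), Function.Injective e ∧
      (∀ x, x ∉ U ↔ ∃ j, e j = x) ∧ (∀ j, e (parW j) = par (e j)) ∧ (∀ j, parW j ≤ j) := by
  obtain ⟨n, ⟨e0⟩⟩ : ∃ n, Nonempty (Fin n ≃ {x : X // x ∉ U}) :=
    ⟨_, ⟨(Fintype.equivFin {x : X // x ∉ U}).symm⟩⟩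
  have hm : Monotone ((fun i => rk (e0 i).1) ∘ Tuple.sort (fun i => rk (e0 i).1)) :=
    Tuple.monotone_sort _
  generalize hs : Tuple.sort (fun i => rk (e0 i).1) = σ at hm
  have hinj : Function.Injective fun j => (e0 (σ j)).1 := by
    intro a b h
    exact σ.injective (e0.injective (Subtype.ext h))
  have hpar : ∀ j, ((fun j => (e0 (σ j)).1)
      (σ.symm (e0.symm ⟨par (e0 (σ j)).1, h1 _ (e0 (σ j)).2⟩))) = par (e0 (σ j)).1 := by
    intro j
    simp
  refine ⟨n, fun j => (e0 (σ j)).1,
    fun j => σ.symm (e0.symm ⟨par (e0 (σ j)).1, h1 _ (e0 (σ j)).2⟩), hinj, ?_, hpar, ?_⟩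
  · intro x
    constructor
    · intro hx
      exact ⟨σ.symm (e0.symm ⟨x, hx⟩), by simp⟩
    · rintro ⟨j, rfl⟩
      exact (e0 (σ j)).2
  · intro j
    by_contra hlt
    have hlt' := not_le.1 hlt
    have h3 := hm (le_of_lt hlt')
    have h4 := hpar j
    by_cases h5 : par (e0 (σ j)).1 = (e0 (σ j)).1
    · have h6 := hinj (h4.trans h5)
      exact absurd (lt_of_lt_of_eq hlt' h6) (lt_irrefl _)
    · have h7 := h2 _ (e0 (σ j)).2 h5
      simp only [Function.comp] at h3 h4
      rw [h4] at h3
      omega

/-- Joined by a walk of length at most `k`. -/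
private def RR {X : Type} (H : SimpleGraph X) (k : ℕ) (u w : X) : Prop :=
  ∃ p : H.Walk u w, p.length ≤ k

private lemma RR.refl {X : Type} {H : SimpleGraph X} (k : ℕ) (u : X) : RR H k u u :=
  ⟨SimpleGraph.Walk.nil, by simp⟩

private lemma RR.symm {X : Type} {H : SimpleGraph X} {k : ℕ} {u w : X} (h : RR H k u w) :
    RR H k w u := by
  obtain ⟨p, hp⟩ := h
  exact ⟨p.reverse, by simpa using hp⟩

private lemma RR.trans {X : Type} {H : SimpleGraph X} {k l : ℕ} {u v w : X} (h : RR H k u v)
    (h' : RR H l v w) : RR H (k + l) u w := by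
  obtain ⟨p, hp⟩ := h
  obtain ⟨q, hq⟩ := h'
  exact ⟨p.append q, by rw [SimpleGraph.Walk.length_append]; omega⟩

private lemma RR.mono {X : Type} {H : SimpleGraph X} {k l : ℕ} {u v : X} (h : RR H k u v)
    (hkl : k ≤ l) : RR H l u v := by
  obtain ⟨p, hp⟩ := h
  exact ⟨p, hp.trans hkl⟩

private lemma RR.adj {X : Type} {H : SimpleGraph X} {u v : X} (h : H.Adj u v) : RR H 1 u v :=
  ⟨SimpleGraph.Walk.cons h SimpleGraph.Walk.nil, by simp⟩

private def bnd : ℕ → ℕ
  | 0 => 1
  | k + 1 => 1 + 3 * bnd k

private lemma nb_card {X : Type} [Fintype X] (H : SimpleGraph X)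
    (hdeg : ∀ x, (H.neighborSet x).ncard ≤ 3) (x : X) :
    (Finset.univ.filter fun y => H.Adj x y).card ≤ 3 := by
  have h := hdeg x
  rwa [show H.neighborSet x = ((Finset.univ.filter fun y => H.Adj x y : Finset X) : Set X) by
    ext y; simp, Set.ncard_coe_finset] at h

private lemma ball_card {X : Type} [Fintype X] (H : SimpleGraph X)
    (hdeg : ∀ x, (H.neighborSet x).ncard ≤ 3) (k : ℕ) :
    ∀ x, (Finset.univ.filter fun y => RR H k x y).card ≤ bnd k := by
  induction k with
  | zero =>
    intro x
    have : (Finset.univ.filter fun y => RR H 0 x y) ⊆ {x} := by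
      intro y hy
      obtain ⟨p, hp⟩ := (Finset.mem_filter.1 hy).2
      have := SimpleGraph.Walk.eq_of_length_eq_zero (Nat.le_zero.1 hp)
      exact Finset.mem_singleton.2 this.symm
    exact (Finset.card_le_card this).trans (by simp [bnd])
  | succ k ih =>
    intro x
    have hsub : (Finset.univ.filter fun y => RR H (k + 1) x y) ⊆
        insert x ((Finset.univ.filter fun y => H.Adj x y).biUnion
          fun z => Finset.univ.filter fun y => RR H k z y) := by
      intro y hy
      obtain ⟨p, hp⟩ := (Finset.mem_filter.1 hy).2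
      cases p with
      | nil => exact Finset.mem_insert_self _ _
      | @cons _ z _ h q =>
        refine Finset.mem_insert_of_mem (Finset.mem_biUnion.2 ⟨z, ?_, ?_⟩)
        · exact Finset.mem_filter.2 ⟨Finset.mem_univ _, h⟩
        · refine Finset.mem_filter.2 ⟨Finset.mem_univ _, q, ?_⟩
          rw [SimpleGraph.Walk.length_cons] at hp
          omega
    refine (Finset.card_le_card hsub).trans ((Finset.card_insert_le _ _).trans ?_)
    have h1 : ((Finset.univ.filter fun y => H.Adj x y).biUnion
          fun z => Finset.univ.filter fun y => RR H k z y).card ≤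
          (Finset.univ.filter fun y => H.Adj x y).card * bnd k :=
      Finset.card_biUnion_le_card_mul _ _ _ (fun z _ => ih z)
    have h2 := nb_card H hdeg x
    have h3 : (Finset.univ.filter fun y => H.Adj x y).card * bnd k ≤ 3 * bnd k :=
      Nat.mul_le_mul_right _ h2
    simp only [bnd]
    omega

/-- The embedding instance of a decomposed and typed graph. -/
theorem inst_of_decomp {X : Type} [Fintype X] (H : SimpleGraph X) (hdeg : ∀ x, (H.neighborSet x).ncard ≤ 3)
    (hK4 : ∀ x₁ x₂ x₃ x₄ : X, H.Adj x₁ x₂ → H.Adj x₁ x₃ → H.Adj x₁ x₄ → H.Adj x₂ x₃ →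
        H.Adj x₂ x₄ → H.Adj x₃ x₄ → False)
    {v : ℕ} (pos : Fin v → Fin 4) (U : Finset X) (par : X → X) (rk : X → ℕ) (q : ℕ)
    (Q : Fin q → Finset X) (hD : Decomp H U par rk q Q) (ty : X → Fin v)
    (hT1 : ∀ u w, H.Adj u w → pos (ty u) ≠ pos (ty w))
    (hT2 : ∀ u w, u ≠ w → (∃ p : H.Walk u w, p.length ≤ 40) → ty u ≠ ty w)
    (hT3 : ∀ u w, ty u = ty w → (u ∈ U ↔ w ∈ U)) :
    ∃ (n : ℕ) (e : Fin n → X) (parW : Fin n → Fin n) (anc : Fin n → Finset (Fin n))
      (A : Fin q → Finset (Fin n)), Function.Injective e ∧ (∀ x, x ∉ U ↔ ∃ j, e j = x) ∧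
      (∀ j, e (parW j) = par (e j)) ∧
      (∀ i, ∀ u ∈ Q i, ∀ w, w ∉ U → H.Adj u w → ∃ j ∈ A i, e j = w) ∧
      Inst pos (fun j => ty (e j)) parW anc (fun i => patF H ty (Q i)) (fun i => (Q i).image ty)
        A := by
  obtain ⟨n, e, p, hinj, hmem, hpar, hle⟩ := enw U par rk hD.parW (fun w hw h => (hD.parA w hw h).2)
  have hU : ∀ j, e j ∉ U := fun j => (hmem (e j)).2 ⟨j, rfl⟩
  -- strict decrease of ranks
  have hdec : ∀ j, p j = j ∨ rk (e (p j)) < rk (e j) := by
    intro j
    by_cases h : p j = j
    · exact Or.inl h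
    · right
      have h' : par (e j) ≠ e j := by
        intro h2
        rw [← hpar] at h2
        exact h (hinj h2)
      have := (hD.parA (e j) (hU j) h').2
      rwa [← hpar] at this
  have hadj : ∀ j, p j ≠ j → H.Adj (e (p j)) (e j) := by
    intro j h
    have h' : par (e j) ≠ e j := by
      intro h2
      rw [← hpar] at h2
      exact h (hinj h2)
    have := (hD.parA (e j) (hU j) h').1
    rwa [← hpar] at this
  have hroot : ∀ j, p (p (p (p j))) = p (p (p j)) := by
    intro j
    rcases hdec j with h | h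
    · rw [h, h, h, h]
    · rcases hdec (p j) with h' | h'
      · rw [h', h', h']
      · rcases hdec (p (p j)) with h'' | h''
        · rw [h'', h'']
        · rcases hdec (p (p (p j))) with h3 | h3
          · exact h3
          · have := hD.rk3 (e j) (hU j)
            omega
  have hpadj : ∀ j, RR H 1 (e (p j)) (e j) := by
    intro j
    by_cases h : p j = j
    · rw [h]; exact RR.refl 1 _
    · exact RR.adj (hadj j h)
  set anc : Fin n → Finset (Fin n) := fun j => {j, p j, p (p j), p (p (p j))} with hanc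
  have hancm : ∀ j i, i ∈ anc j ↔ (i = j ∨ i = p j ∨ i = p (p j) ∨ i = p (p (p j))) := by
    intro j i
    simp [hanc]
  have hR3 : ∀ j, ∀ i ∈ anc j, RR H 3 (e i) (e j) := by
    intro j i hi
    rcases (hancm j i).1 hi with h | h | h | h
    · rw [h]; exact RR.refl 3 _
    · rw [h]; exact (hpadj j).mono (by norm_num)
    · rw [h]; exact ((hpadj (p j)).trans (hpadj j)).mono (by norm_num)
    · rw [h]; exact ((hpadj (p (p j))).trans ((hpadj (p j)).trans (hpadj j))).mono (by norm_num)
  have hncard : ∀ j, (anc j).card ≤ 4 := by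
    intro j
    exact Finset.card_le_four
  have hself : ∀ j, j ∈ anc j := fun j => (hancm j j).2 (Or.inl rfl)
  have hancpar : ∀ j, ∀ i ∈ anc j, p i ∈ anc j := by
    intro j i hi
    rcases (hancm j i).1 hi with h | h | h | h
    · exact (hancm _ _).2 (Or.inr (Or.inl (by rw [h])))
    · exact (hancm _ _).2 (Or.inr (Or.inr (Or.inl (by rw [h]))))
    · exact (hancm _ _).2 (Or.inr (Or.inr (Or.inr (by rw [h]))))
    · exact (hancm _ _).2 (Or.inr (Or.inr (Or.inr (by rw [h, hroot]))))
  have hancle : ∀ j, ∀ i ∈ anc j, i ≤ j := by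
    intro j i hi
    rcases (hancm j i).1 hi with h | h | h | h
    · rw [h]
    · rw [h]; exact hle j
    · rw [h]; exact (hle _).trans (hle j)
    · rw [h]; exact (hle _).trans ((hle _).trans (hle j))
  have hancmono : ∀ j, anc (p j) ⊆ anc j := by
    intro j i hi
    rcases (hancm _ _).1 hi with h | h | h | h
    · exact (hancm _ _).2 (Or.inr (Or.inl h))
    · exact (hancm _ _).2 (Or.inr (Or.inr (Or.inl h)))
    · exact (hancm _ _).2 (Or.inr (Or.inr (Or.inr h)))
    · exact (hancm _ _).2 (Or.inr (Or.inr (Or.inr (by rw [h, hroot]))))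
  -- different vertices within distance 40 have different types
  have hT : ∀ (k : ℕ) (u w : X), RR H k u w → k ≤ 40 → ty u = ty w → u = w := by
    intro k u w h hk ht
    by_contra hne
    exact hT2 u w hne (h.mono hk) ht
  -- the pieces
  have hQ7 : ∀ i, ∀ a ∈ Q i, ∀ b ∈ Q i, RR H 7 a b := by
    intro i a ha b hb
    obtain ⟨w⟩ := (hD.conn i).preconnected ⟨a, Finset.mem_coe.2 ha⟩ ⟨b, Finset.mem_coe.2 hb⟩
    have hp := w.bypass_isPath
    have hl := hp.length_lt
    have hc : Fintype.card ((Q i : Set X) : Type) = (Q i).card := by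
      simp
    have h8 := hD.hi i
    have hle7 : w.bypass.length ≤ 7 := by omega
    have hlm := SimpleGraph.Walk.length_map (f := (SimpleGraph.Embedding.induce (Q i : Set X) :
      H.induce (Q i : Set X) ↪g H).toHom) (p := w.bypass)
    exact ⟨w.bypass.map (SimpleGraph.Embedding.induce (Q i : Set X)).toHom, hlm.le.trans hle7⟩
  set A : Fin q → Finset (Fin n) := fun i => Finset.univ.filter fun j' =>
    ∃ j, j' ∈ anc j ∧ ∃ u ∈ Q i, H.Adj u (e j) with hAdef
  have hAm : ∀ i j', j' ∈ A i ↔ ∃ j, j' ∈ anc j ∧ ∃ u ∈ Q i, H.Adj u (e j) := by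
    intro i j'
    simp [hAdef]
  have hA4 : ∀ i, ∀ j' ∈ A i, ∃ u ∈ Q i, RR H 4 u (e j') := by
    intro i j' hj'
    obtain ⟨j, hj, u, hu, huj⟩ := (hAm i j').1 hj'
    exact ⟨u, hu, ((RR.adj huj).trans (hR3 j j' hj).symm).mono (by norm_num)⟩
  have hnbW : ∀ u, (Finset.univ.filter fun j => H.Adj u (e j)).card ≤ 3 := by
    intro u
    have h1 : ((Finset.univ.filter fun j => H.Adj u (e j)).image e) ⊆
        Finset.univ.filter fun y => H.Adj u y := by
      intro y hy
      obtain ⟨j, hj, rfl⟩ := Finset.mem_image.1 hy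
      exact Finset.mem_filter.2 ⟨Finset.mem_univ _, (Finset.mem_filter.1 hj).2⟩
    have h2 := Finset.card_le_card h1
    rw [Finset.card_image_of_injective _ hinj] at h2
    exact h2.trans (nb_card H hdeg u)
  refine ⟨n, e, p, anc, A, hinj, hmem, hpar, ?_, ?_⟩
  · intro i u hu w hw huw
    obtain ⟨j, rfl⟩ := (hmem w).1 hw
    exact ⟨j, (hAm i j).2 ⟨j, hself j, u, hu, huw⟩, rfl⟩
  · refine
      { par_le := hle
        par_pos := ?_
        anc_self := hself
        anc_par := hancpar
        anc_le := hancle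
        anc_mono := hancmono
        anc_inj := ?_
        anc_card := fun j => (hncard j).trans (by norm_num)
        anc_cnt := ?_
        anc_disj := ?_
        anc_child := ?_
        adm := ?_
        B_ne := ?_
        BA := ?_
        FA := ?_
        A_par := ?_
        A_inj := ?_
        A_card := ?_
        A_cnt := ?_
        A_disj := ?_ }
    · -- par_pos
      intro j hj
      exact hT1 _ _ (hadj j hj)
    · -- anc_inj
      intro j i hi i' hi' h
      have h1 := hR3 j i (Finset.mem_coe.1 hi)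
      have h2 := hR3 j i' (Finset.mem_coe.1 hi')
      exact hinj (hT _ _ _ (h1.trans h2.symm) (by norm_num) h)
    · -- anc_cnt
      intro i
      have hsub : ((Finset.univ.filter fun j => i ∈ anc j).image e) ⊆
          Finset.univ.filter fun y => RR H 3 (e i) y := by
        intro y hy
        obtain ⟨j, hj, rfl⟩ := Finset.mem_image.1 hy
        exact Finset.mem_filter.2 ⟨Finset.mem_univ _, hR3 j i (Finset.mem_filter.1 hj).2⟩
      have h2 := Finset.card_le_card hsub
      rw [Finset.card_image_of_injective _ hinj] at h2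
      refine h2.trans ((ball_card H hdeg 3 (e i)).trans ?_)
      simp [bnd]
    · -- anc_disj
      intro j j' hjj' ht
      rw [Finset.disjoint_left]
      intro i hi hi'
      exact hjj' (hinj (hT _ _ _ ((hR3 j i hi).symm.trans (hR3 j' i hi')) (by norm_num) ht))
    · -- anc_child
      intro j hj i hi ht
      have h1 := hR3 j i (hancmono j hi)
      have h2 := hinj (hT _ _ _ h1 (by norm_num) ht)
      have h3 := hancle (p j) i hi
      rw [h2] at h3
      exact hj (le_antisymm (hle j) h3)
    · -- adm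
      intro i
      refine pat H hdeg hK4 pos ty hT1 (Q i) (hD.lo i) (hD.conn i) ?_
      intro u w hu hw ht
      have hu' : ∃ a ∈ Q i, RR H 1 a u := by
        rcases hu with h | ⟨a, ha, h⟩
        · exact ⟨u, h, RR.refl 1 _⟩
        · exact ⟨a, ha, RR.adj h⟩
      have hw' : ∃ a ∈ Q i, RR H 1 a w := by
        rcases hw with h | ⟨a, ha, h⟩
        · exact ⟨w, h, RR.refl 1 _⟩
        · exact ⟨a, ha, RR.adj h⟩
      obtain ⟨a, ha, h1⟩ := hu'
      obtain ⟨b, hb, h2⟩ := hw'
      exact hT _ _ _ (h1.symm.trans ((hQ7 i a ha b hb).trans h2)) (by norm_num) ht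
    · -- B_ne
      intro i
      have := hD.lo i
      exact (Finset.card_pos.1 (by omega)).image ty
    · -- BA
      intro i j hj
      obtain ⟨u, hu, ht⟩ := Finset.mem_image.1 hj
      exact hU j ((hT3 u (e j) ht).1 (hD.sub i hu))
    · -- FA
      intro i e' he'
      obtain ⟨_, a, b, hab, h1, h2, h3⟩ := by simpa [patF] using he'
      have key : ∀ a b, H.Adj a b → a ∈ Q i → (ty b ∈ (Q i).image ty ∨ ∃ j ∈ A i, ty (e j) = ty b) := by
        intro a b hab ha
        by_cases hb : b ∈ U
        · obtain ⟨i', hi1, hi2⟩ := hD.adjU a (hD.sub i ha) b hb hab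
          have : i' = i := by
            by_contra hne
            exact Finset.disjoint_left.1 (hD.dis i' i hne) hi1 ha
          subst this
          exact Or.inl (Finset.mem_image_of_mem ty hi2)
        · obtain ⟨j, rfl⟩ := (hmem b).1 hb
          exact Or.inr ⟨j, (hAm i j).2 ⟨j, hself j, a, ha, hab⟩, rfl⟩
      rcases h3 with h3 | h3
      · refine ⟨Or.inl (h1 ▸ Finset.mem_image_of_mem ty h3), ?_⟩
        rw [← h2]
        exact key a b hab h3
      · refine ⟨?_, Or.inl (h2 ▸ Finset.mem_image_of_mem ty h3)⟩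
        rw [← h1]
        exact key b a hab.symm h3
    · -- A_par
      intro i j' hj'
      obtain ⟨j, hj, hu⟩ := (hAm i j').1 hj'
      exact (hAm i _).2 ⟨j, hancpar j j' hj, hu⟩
    · -- A_inj
      intro i j1 hj1 j2 hj2 ht
      obtain ⟨u, hu, h1⟩ := hA4 i j1 (Finset.mem_coe.1 hj1)
      obtain ⟨w, hw, h2⟩ := hA4 i j2 (Finset.mem_coe.1 hj2)
      exact hinj (hT _ _ _ (h1.symm.trans ((hQ7 i u hu w hw).trans h2)) (by norm_num) ht)
    · -- A_card
      intro i
      have hsub : A i ⊆ (Q i).biUnion fun u =>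
          (Finset.univ.filter fun j => H.Adj u (e j)).biUnion anc := by
        intro j' hj'
        obtain ⟨j, hj, u, hu, huj⟩ := (hAm i j').1 hj'
        exact Finset.mem_biUnion.2 ⟨u, hu, Finset.mem_biUnion.2
          ⟨j, Finset.mem_filter.2 ⟨Finset.mem_univ _, huj⟩, hj⟩⟩
      have h1 : ((Q i).biUnion fun u =>
          (Finset.univ.filter fun j => H.Adj u (e j)).biUnion anc).card ≤ (Q i).card * 12 := by
        refine Finset.card_biUnion_le_card_mul _ _ _ (fun u _ => ?_)
        refine (Finset.card_biUnion_le_card_mul _ _ 4 (fun j _ => hncard j)).trans ?_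
        have := hnbW u
        omega
      have h2 := Finset.card_le_card hsub
      have h3 := hD.hi i
      omega
    · -- A_cnt
      intro j
      have hpc : ∀ x, (Finset.univ.filter fun i : Fin q => ∃ u ∈ Q i, H.Adj u x).card ≤ 3 := by
        intro x
        have hch : ∀ i : Fin q, ∃ u, (∃ u ∈ Q i, H.Adj u x) → (u ∈ Q i ∧ H.Adj u x) := by
          intro i
          by_cases h : ∃ u ∈ Q i, H.Adj u x
          · obtain ⟨u, hu⟩ := h
            exact ⟨u, fun _ => hu⟩
          · exact ⟨x, fun h' => absurd h' h⟩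
        choose f hf using hch
        have h1 : ((Finset.univ.filter fun i : Fin q => ∃ u ∈ Q i, H.Adj u x).image f) ⊆
            Finset.univ.filter fun y => H.Adj x y := by
          intro y hy
          obtain ⟨i, hi, rfl⟩ := Finset.mem_image.1 hy
          exact Finset.mem_filter.2 ⟨Finset.mem_univ _, (hf i (Finset.mem_filter.1 hi).2).2.symm⟩
        have h2 := Finset.card_le_card h1
        rw [Finset.card_image_of_injOn] at h2
        · exact h2.trans (nb_card H hdeg x)
        · intro i hi i' hi' hff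
          have g1 := hf i (Finset.mem_filter.1 (Finset.mem_coe.1 hi)).2
          have g2 := hf i' (Finset.mem_filter.1 (Finset.mem_coe.1 hi')).2
          by_contra hne
          exact Finset.disjoint_left.1 (hD.dis i i' hne) g1.1 (hff ▸ g2.1)
      have hsub : (Finset.univ.filter fun i => j ∈ A i) ⊆
          (Finset.univ.filter fun j' => j ∈ anc j').biUnion fun j' =>
            Finset.univ.filter fun i : Fin q => ∃ u ∈ Q i, H.Adj u (e j') := by
        intro i hi
        obtain ⟨j', hj', hu⟩ := (hAm i j).1 (Finset.mem_filter.1 hi).2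
        exact Finset.mem_biUnion.2 ⟨j', Finset.mem_filter.2 ⟨Finset.mem_univ _, hj'⟩,
          Finset.mem_filter.2 ⟨Finset.mem_univ _, hu⟩⟩
      have hcnt : (Finset.univ.filter fun j' => j ∈ anc j').card ≤ 40 := by
        have hsub : ((Finset.univ.filter fun j' => j ∈ anc j').image e) ⊆
            Finset.univ.filter fun y => RR H 3 (e j) y := by
          intro y hy
          obtain ⟨j', hj', rfl⟩ := Finset.mem_image.1 hy
          exact Finset.mem_filter.2 ⟨Finset.mem_univ _, hR3 j' j (Finset.mem_filter.1 hj').2⟩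
        have h2 := Finset.card_le_card hsub
        rw [Finset.card_image_of_injective _ hinj] at h2
        refine h2.trans ((ball_card H hdeg 3 (e j)).trans ?_)
        simp [bnd]
      have h1 := Finset.card_le_card hsub
      have h2 : ((Finset.univ.filter fun j' => j ∈ anc j').biUnion fun j' =>
            Finset.univ.filter fun i : Fin q => ∃ u ∈ Q i, H.Adj u (e j')).card ≤
            (Finset.univ.filter fun j' => j ∈ anc j').card * 3 :=
        Finset.card_biUnion_le_card_mul _ _ _ (fun j' _ => hpc (e j'))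
      omega
    · -- A_disj
      rintro i i' hne ⟨d, hd, hd'⟩
      obtain ⟨u, hu, rfl⟩ := Finset.mem_image.1 hd
      obtain ⟨u', hu', ht⟩ := Finset.mem_image.1 hd'
      rw [Finset.disjoint_left]
      intro j hj hj'
      obtain ⟨a, ha, h1⟩ := hA4 i j hj
      obtain ⟨b, hb, h2⟩ := hA4 i' j hj'
      have h3 : RR H 22 u u' :=
        ((hQ7 i u hu a ha).trans (h1.trans (h2.symm.trans (hQ7 i' b hb u' hu')))).mono
          (by norm_num)
      have h4 := hT _ _ _ h3 (by norm_num) ht.symm
      exact Finset.disjoint_left.1 (hD.dis i i' hne) hu (h4 ▸ hu')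

end Pool.Agent.CUB
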