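import Pool.Agent.CUB.Defs2
import Pool.Agent.CUB.KEY
import Pool.Agent.CUB.GFR
import Pool.Agent.CUB.CLU

set_option autoImplicit false

/-!
# CUB.KG

Proof. Given `c₀, ε₄`. For every `Frst` set `E` (finitely many) choose `l_E` with `l_E.toFinset = E`, `Fst l_E`,
and `ε₃` from `gfr` (with `ε₄`, `K = v² + 2`), the minimum over `E`; `ε₃' = min ε₃ (1/2)`. For every
admissible `(F, B)` `key` with `c₀, ε₃', K` gives `c, εin`; take minima over the finitely many `(F, B)`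
(`Reg` is antitone in `c`: smaller `c` is weaker; `Dense` with smaller `ε` is stronger; `Dense` on
`allE pos` implies `Dense` on `F`), and `εin ≤ ε₃'`. Given `κ₁` (WLOG `≤ 1`; if `κ₁ > 1`, `Parts` is
impossible since `nn a ≤ N`), use `κ₁' = κ₁^4` in `KHyp` (`m = msz ≥ κ₁^4 M`, `m ≤ M`).
Fix `V, Vg, nn` with `Parts`; apply `class_union` with `K = v²+2` to `P t L` := `CR ∧ DEG ∧
(∀ e, pos e.1 ≠ pos e.2 → HVC h t pos L V m e) ∧ Dense t pos L V m (allE pos) εin c₀ ∧` (one of the two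
conclusions of `PG` fails for `L`). For a fixed `L` (and `Vc`) union over the finitely many
`(F,B,E)`, the `≤ 2^{vN}` sets `S`, resp. `(d,d',E)`:
(1) `Bad t = {x ∈ piFinset V : ext t pos L F B S x < c nom}`. If `Reg t pos L V m F B ε₃' c` fails: `key`.
Otherwise `|Bad t| ≤ ε₃'|X|` (`|S i| ≥ |V i|/2`), and `Bad` depends only on the cells of blocks of
`L f`, `f ∈ F`, disjoint from `L e`, `e ∈ E` (`f` touches `B`, `e` does not): `gfr`.
(2) `Bad t = {x : deg of x d in L (d,d') < c₀ m/|V d|}`: `|Bad| ≤ εin |X| ≤ ε₃|X|` by `Dense` (with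
`S₁` = the poor vertices, `S₂ = V d'`), depends only on the cells of `L (d,d')`: `gfr`.
`UU h κ₁ t` gives `HVC` for `L = clsL ..` (for `h^55 κ₁ ≥ 1`): `|L e| ≤ 8 m` (whole box), and if the set
`Hv ⊆ V e.1` of vertices with class degree `> 8m/|V|` had `N < h^55 |Hv|`, `UU` for the box with side
`Hv` gives `≤ 8 m |Hv|/|V e.1|` blocks, a contradiction.
Finally union over the `≤ 2^{(v+4)N}` pairs `(V, Vg)`: everything is `≤ exp(C N - 1·m)` with
`m ≥ κ₁^4 h^{152}`, `N = h^96`, so `≤ δ` for `h ≥ h₀` (choose `K` one larger to absorb constants).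
-/

namespace Pool.Agent.CUB

open scoped Classical

private lemma kg_min {ι : Type*} [Finite ι] (f : ι → ℝ) (hf : ∀ i, 0 < f i) :
    ∃ ε : ℝ, 0 < ε ∧ ∀ i, ε ≤ f i := by
  rcases isEmpty_or_nonempty ι with h | h
  · exact ⟨1, one_pos, fun i => (h.false i).elim⟩
  · obtain ⟨i₀, hi₀⟩ := Finite.exists_min f
    exact ⟨f i₀, hf i₀, hi₀⟩

private lemma kg_max {ι : Type*} [Finite ι] (f : ι → ℕ) : ∃ H : ℕ, ∀ i, f i ≤ H := by
  rcases isEmpty_or_nonempty ι with h | h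
  · exact ⟨0, fun i => (h.false i).elim⟩
  · obtain ⟨i₀, hi₀⟩ := Finite.exists_max f
    exact ⟨f i₀, hi₀⟩

private lemma kg_union {I T : Type*} [Fintype I] (A : I → Finset T) (U : Finset T)
    (hU : ∀ t ∈ U, ∃ i, t ∈ A i) (b : ℝ) (hb : ∀ i, ((A i).card : ℝ) ≤ b) :
    (U.card : ℝ) ≤ (Fintype.card I : ℝ) * b := by
  have h1 : U ⊆ Finset.univ.biUnion A := by
    intro t ht
    obtain ⟨i, hi⟩ := hU t ht
    exact Finset.mem_biUnion.2 ⟨i, Finset.mem_univ _, hi⟩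
  have h2 : (U.card : ℝ) ≤ ∑ i : I, ((A i).card : ℝ) := by
    have := (Finset.card_le_card h1).trans Finset.card_biUnion_le
    exact_mod_cast this
  refine h2.trans ?_
  calc _ ≤ ∑ _i : I, b := Finset.sum_le_sum fun i _ => hb i
    _ = _ := by simp [Finset.sum_const, nsmul_eq_mul]

private lemma kg_exp (a b : ℕ) (κ δ : ℝ) (hκ : 0 < κ) (hδ : 0 < δ) :
    ∃ h₀ : ℕ, ∀ h ≥ h₀, ∀ m : ℝ, κ * (h : ℝ) ^ 152 ≤ m →
      (a : ℝ) * 2 ^ (b * h ^ 96) * Real.exp (-m) ≤ δ := by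
  obtain ⟨H, hH⟩ := exists_nat_ge (((a : ℝ) + b + |Real.log δ|) / κ)
  refine ⟨max H 1, fun h hh m hm => ?_⟩
  have hh1 : (1 : ℝ) ≤ h := by exact_mod_cast (le_max_right H 1).trans hh
  have hhH : (H : ℝ) ≤ h := by exact_mod_cast (le_max_left H 1).trans hh
  have hD : (a : ℝ) + b + |Real.log δ| ≤ κ * h := by
    rw [div_le_iff₀ hκ] at hH
    nlinarith
  have h2 : (2 : ℝ) ^ (b * h ^ 96) ≤ Real.exp ((b : ℝ) * (h : ℝ) ^ 96) := by
    have e1 : (2 : ℝ) ≤ Real.exp 1 := by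
      have := Real.add_one_le_exp (1 : ℝ)
      linarith
    calc (2 : ℝ) ^ (b * h ^ 96) ≤ (Real.exp 1) ^ (b * h ^ 96) :=
          pow_le_pow_left₀ (by norm_num) e1 _
      _ = Real.exp ((b : ℝ) * (h : ℝ) ^ 96) := by
          rw [Real.exp_one_pow]; push_cast; rfl
  have ha : (a : ℝ) ≤ Real.exp a := by
    have := Real.add_one_le_exp (a : ℝ)
    linarith
  have hh96 : (1 : ℝ) ≤ (h : ℝ) ^ 96 := one_le_pow₀ hh1
  have hm2 : κ * h * (h : ℝ) ^ 96 ≤ m := by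
    refine le_trans ?_ hm
    have e2 : (h : ℝ) * (h : ℝ) ^ 96 ≤ (h : ℝ) ^ 152 := by
      calc (h : ℝ) * (h : ℝ) ^ 96 = (h : ℝ) ^ 97 := by ring
        _ ≤ (h : ℝ) ^ 152 := pow_le_pow_right₀ hh1 (by norm_num)
    calc κ * h * (h : ℝ) ^ 96 = κ * (h * (h : ℝ) ^ 96) := by ring
      _ ≤ κ * (h : ℝ) ^ 152 := mul_le_mul_of_nonneg_left e2 hκ.le
  have hD2 : (a : ℝ) + b * (h : ℝ) ^ 96 + |Real.log δ| ≤ m := by
    refine le_trans ?_ hm2
    calc (a : ℝ) + b * (h : ℝ) ^ 96 + |Real.log δ|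
        ≤ a * (h : ℝ) ^ 96 + b * (h : ℝ) ^ 96 + |Real.log δ| * (h : ℝ) ^ 96 := by
          have h4 : (0 : ℝ) ≤ a := by positivity
          have h5 : (0 : ℝ) ≤ |Real.log δ| := abs_nonneg _
          nlinarith
      _ = ((a : ℝ) + b + |Real.log δ|) * (h : ℝ) ^ 96 := by ring
      _ ≤ κ * h * (h : ℝ) ^ 96 := mul_le_mul_of_nonneg_right hD (by positivity)
  have hlog : -|Real.log δ| ≤ Real.log δ := neg_abs_le _
  calc (a : ℝ) * 2 ^ (b * h ^ 96) * Real.exp (-m)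
      ≤ Real.exp a * Real.exp ((b : ℝ) * (h : ℝ) ^ 96) * Real.exp (-m) := by
        gcongr
    _ = Real.exp (a + (b : ℝ) * (h : ℝ) ^ 96 + -m) := by rw [Real.exp_add, Real.exp_add]
    _ ≤ Real.exp (Real.log δ) := Real.exp_le_exp.2 (by linarith)
    _ = δ := Real.exp_log hδ

private lemma kg_fst {v : ℕ} (l : List (Fin v × Fin v)) (hl : Fst l) :
    ∀ e ∈ l, ∀ e' ∈ l, e ≠ (e'.2, e'.1) := by
  induction l with
  | nil => intro e he; simp at he
  | cons a l ih =>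
    obtain ⟨h1, h2, h3⟩ := hl
    intro e he e' he' hee
    rcases List.mem_cons.1 he with h4 | h4
    · rcases List.mem_cons.1 he' with h5 | h5
      · subst h4; subst h5
        exact h1 (congrArg Prod.fst hee)
      · subst h4
        exact (h2 e' h5).1 (congrArg Prod.snd hee).symm
    · rcases List.mem_cons.1 he' with h5 | h5
      · subst h5
        exact (h2 e h4).1 (congrArg Prod.fst hee)
      · exact ih h3 e h4 e' h5 hee

private lemma kg_fiber {α β : Type*} (s : Finset α) (g : α → β) (T : Finset β) :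
    (s.filter fun i => g i ∈ T).card = ∑ a ∈ T, (s.filter fun j => g j = a).card := by
  have h1 : Set.MapsTo g (s.filter fun i => g i ∈ T : Finset α) (T : Set β) := by
    intro i hi
    exact (Finset.mem_filter.1 (Finset.mem_coe.1 hi)).2
  rw [Finset.card_eq_sum_card_fiberwise h1]
  refine Finset.sum_congr rfl fun a ha => ?_
  congr 1
  ext j
  simp only [Finset.mem_filter]
  constructor
  · rintro ⟨⟨h1, _⟩, h3⟩; exact ⟨h1, h3⟩
  · rintro ⟨h1, h3⟩; exact ⟨⟨h1, by rw [h3]; exact ha⟩, h3⟩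

private lemma kg_heavy {N M : ℕ} {h : ℕ} {κ₁ : ℝ} {t : Fin M × Fin 4 → Fin N}
    (X : Fin 4 → Finset (Fin N)) (nn : Fin 4 → ℕ) (hX : ∀ a, (X a).card = nn a)
    (big : ∀ a, κ₁ * (N : ℝ) ≤ (nn a : ℝ)) (hκ : 0 < κ₁) (hN : 0 < N) (hU : UU h κ₁ t)
    (Lc : Finset (Fin M)) (hL : ∀ i ∈ Lc, ∀ a, t (i, a) ∈ X a) (p : Fin 4) :
    h ^ 55 * ((X p).filter fun a => 8 * msz N M nn / ((X p).card : ℝ)
      < ((Lc.filter fun j => t (j, p) = a).card : ℝ)).card ≤ N := by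
  by_contra hc
  push Not at hc
  set Hv := (X p).filter fun a => 8 * msz N M nn / ((X p).card : ℝ)
      < ((Lc.filter fun j => t (j, p) = a).card : ℝ) with hHv
  have hNr : (0 : ℝ) < N := by exact_mod_cast hN
  have hne : Hv.Nonempty := by
    rw [← Finset.card_pos]
    rcases Nat.eq_zero_or_pos Hv.card with h0 | h0
    · rw [h0] at hc; simp at hc
    · exact h0
  have hU' := hU (Function.update X p Hv) p (by rw [Function.update_self]; exact hc.le)
    (fun a ha => by rw [Function.update_of_ne ha, hX]; exact big a)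
  have hnp : (0 : ℝ) < nn p := lt_of_lt_of_le (by positivity) (big p)
  set R := ∏ a ∈ Finset.univ.erase p, ((nn a : ℝ) / (N : ℝ)) with hR
  have hprod1 : ∏ a, (((Function.update X p Hv a).card : ℝ) / (N : ℝ)) = (Hv.card : ℝ) / N * R := by
    rw [← Finset.mul_prod_erase Finset.univ _ (Finset.mem_univ p), Function.update_self]
    congr 1
    refine Finset.prod_congr rfl fun a ha => ?_
    rw [Function.update_of_ne (Finset.ne_of_mem_erase ha), hX]
  have hprod2 : msz N M nn = (M : ℝ) * ((nn p : ℝ) / N * R) := by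
    unfold msz
    rw [← Finset.mul_prod_erase Finset.univ _ (Finset.mem_univ p)]
  have hsub : (Lc.filter fun i => t (i, p) ∈ Hv) ⊆
      (Finset.univ : Finset (Fin M)).filter fun i => ∀ a, t (i, a) ∈ Function.update X p Hv a := by
    intro i hi
    simp only [Finset.mem_filter, Finset.mem_univ, true_and] at hi ⊢
    intro a
    by_cases ha : a = p
    · subst ha; rw [Function.update_self]; exact hi.2
    · rw [Function.update_of_ne ha]; exact hL i hi.1 a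
  have hcard : (Lc.filter fun i => t (i, p) ∈ Hv).card
      = ∑ a ∈ Hv, (Lc.filter fun j => t (j, p) = a).card := by
    convert kg_fiber Lc (fun i => t (i, p)) Hv
  have hlt : (Hv.card : ℝ) * (8 * msz N M nn / (nn p : ℝ))
      < ((Lc.filter fun i => t (i, p) ∈ Hv).card : ℝ) := by
    rw [hcard]
    push_cast
    calc (Hv.card : ℝ) * (8 * msz N M nn / (nn p : ℝ))
        = ∑ _a ∈ Hv, (8 * msz N M nn / (nn p : ℝ)) := by
          rw [Finset.sum_const, nsmul_eq_mul]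
      _ < _ := by
          refine Finset.sum_lt_sum_of_nonempty hne fun a ha => ?_
          have := (Finset.mem_filter.1 ha).2
          rw [hX] at this
          exact this
  have hle : ((Lc.filter fun i => t (i, p) ∈ Hv).card : ℝ)
      ≤ 8 * (M : ℝ) * ((Hv.card : ℝ) / N * R) := by
    rw [← hprod1]
    refine le_trans ?_ hU'
    exact_mod_cast Finset.card_le_card hsub
  have heq : (Hv.card : ℝ) * (8 * msz N M nn / (nn p : ℝ)) = 8 * (M : ℝ) * ((Hv.card : ℝ) / N * R) := by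
    rw [hprod2]
    field_simp
  rw [heq] at hlt
  exact absurd (lt_of_lt_of_le hlt hle) (lt_irrefl _)

private lemma kg_hvc {v N M : ℕ} {h : ℕ} {κ₁ : ℝ} {t : Fin M × Fin 4 → Fin N}
    {pos : Fin v → Fin 4} {V : Fin v → Finset (Fin N)} {Vg : Fin 4 → Finset (Fin N)}
    {nn : Fin 4 → ℕ} (hP : Parts pos κ₁ V Vg nn) (hκ : 0 < κ₁) (hh : 1 ≤ (h : ℝ) ^ 55 * κ₁)
    (hN : 0 < N) (hU : UU h κ₁ t) (L0 : Finset (Fin M)) (e : Fin v × Fin v)
    (he : pos e.1 ≠ pos e.2) :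
    HVC h t pos (clsL t pos V Vg L0) V (msz N M nn) e := by
  have hNr : (0 : ℝ) < N := by exact_mod_cast hN
  set X : Fin 4 → Finset (Fin N) :=
    fun a => if a = pos e.1 then V e.1 else if a = pos e.2 then V e.2 else Vg a with hXdef
  have hX : ∀ a, (X a).card = nn a := by
    intro a
    simp only [hXdef]
    split_ifs with h1 h2
    · rw [h1]; exact hP.cV _
    · rw [h2]; exact hP.cV _
    · exact hP.cg a
  have hX1 : X (pos e.1) = V e.1 := by simp [hXdef]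
  have hX2 : X (pos e.2) = V e.2 := by
    show (if pos e.2 = pos e.1 then V e.1 else if pos e.2 = pos e.2 then V e.2 else Vg (pos e.2)) = _
    rw [if_neg (fun hh => he hh.symm), if_pos rfl]
  have hL : ∀ i ∈ clsL t pos V Vg L0 e, ∀ a, t (i, a) ∈ X a := by
    intro i hi a
    unfold clsL at hi
    rw [if_neg he] at hi
    unfold cls at hi
    exact (Finset.mem_filter.1 hi).2 a
  refine ⟨?_, ?_, ?_⟩
  · have h1 := hU X (pos e.1) (by
      rw [hX]
      have h2 := hP.big (pos e.1)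
      have h3 : (N : ℝ) ≤ (h : ℝ) ^ 55 * (nn (pos e.1) : ℝ) := by
        calc (N : ℝ) = 1 * N := (one_mul _).symm
          _ ≤ ((h : ℝ) ^ 55 * κ₁) * N := mul_le_mul_of_nonneg_right hh hNr.le
          _ = (h : ℝ) ^ 55 * (κ₁ * N) := by ring
          _ ≤ (h : ℝ) ^ 55 * (nn (pos e.1) : ℝ) :=
            mul_le_mul_of_nonneg_left h2 (pow_nonneg (Nat.cast_nonneg h) 55)
      have h4 : ((N : ℕ) : ℝ) ≤ ((h ^ 55 * nn (pos e.1) : ℕ) : ℝ) := by
        rw [Nat.cast_mul, Nat.cast_pow]; exact h3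
      exact Nat.cast_le.1 h4) (fun a _ => by rw [hX]; exact hP.big a)
    have h2 : ((clsL t pos V Vg L0 e).card : ℝ)
        ≤ (((Finset.univ : Finset (Fin M)).filter fun i => ∀ a, t (i, a) ∈ X a).card : ℝ) := by
      have : (clsL t pos V Vg L0 e).card
        ≤ ((Finset.univ : Finset (Fin M)).filter fun i => ∀ a, t (i, a) ∈ X a).card :=
        Finset.card_le_card fun i hi => by
          simp only [Finset.mem_filter, Finset.mem_univ, true_and]
          exact hL i hi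
      exact_mod_cast this
    refine (h2.trans h1).trans (le_of_eq ?_)
    unfold msz
    rw [mul_assoc]
    congr 2
    refine Finset.prod_congr rfl fun a _ => ?_
    rw [hX]
  · have := kg_heavy X nn hX hP.big hκ hN hU (clsL t pos V Vg L0 e) hL (pos e.1)
    rw [hX1] at this
    exact this
  · have := kg_heavy X nn hX hP.big hκ hN hU (clsL t pos V Vg L0 e) hL (pos e.2)
    rw [hX2] at this
    exact this

private lemma kg_poor {v N M : ℕ} {t : Fin M × Fin 4 → Fin N} {pos : Fin v → Fin 4}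
    {L : Fin v × Fin v → Finset (Fin M)} {V : Fin v → Finset (Fin N)} {m εin c₀ : ℝ}
    (hε : 0 < εin) (hε1 : εin ≤ 1) (hV : ∀ i, 0 < (V i).card)
    (hD : Dense t pos L V m (allE pos) εin c₀) (d d' : Fin v) (hp : pos d ≠ pos d') :
    (((Fintype.piFinset V).filter fun x =>
      (((L (d, d')).filter fun i => t (i, pos d) = x d).card : ℝ)
        < c₀ * m / ((V d).card : ℝ)).card : ℝ)
     ≤ εin * ((Fintype.piFinset V).card : ℝ) := by
  set S₁ := (V d).filter fun a => (((L (d, d')).filter fun i => t (i, pos d) = a).card : ℝ)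
        < c₀ * m / ((V d).card : ℝ) with hS₁
  have hVd : (0 : ℝ) < (V d).card := by exact_mod_cast hV d
  have hVd' : (0 : ℝ) < (V d').card := by exact_mod_cast hV d'
  have hsmall : (S₁.card : ℝ) ≤ εin * ((V d).card : ℝ) := by
    by_contra hc
    push Not at hc
    have hne : S₁.Nonempty := by
      rw [← Finset.card_pos]
      have : (0 : ℝ) < S₁.card := lt_trans (by positivity) hc
      exact_mod_cast this
    have h1 := hD (d, d') (by simp [allE, hp]) S₁ (V d') (Finset.filter_subset _ _)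
      (Finset.Subset.refl _) hc.le (by
        calc εin * ((V d').card : ℝ) ≤ 1 * ((V d').card : ℝ) :=
              mul_le_mul_of_nonneg_right hε1 hVd'.le
          _ = _ := one_mul _)
    simp only at h1
    rw [div_self hVd'.ne', mul_one] at h1
    have h2 : (((L (d, d')).filter fun i => t (i, pos d) ∈ S₁ ∧ t (i, pos d') ∈ V d').card : ℝ)
        ≤ ((((L (d, d')).filter fun i => t (i, pos d) ∈ S₁)).card : ℝ) := by
      have : ((L (d, d')).filter fun i => t (i, pos d) ∈ S₁ ∧ t (i, pos d') ∈ V d').card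
        ≤ (((L (d, d')).filter fun i => t (i, pos d) ∈ S₁)).card :=
        Finset.card_le_card fun i hi => by
          simp only [Finset.mem_filter] at hi ⊢
          exact ⟨hi.1, hi.2.1⟩
      exact_mod_cast this
    have hcard : ((L (d, d')).filter fun i => t (i, pos d) ∈ S₁).card
        = ∑ a ∈ S₁, ((L (d, d')).filter fun j => t (j, pos d) = a).card := by
      convert kg_fiber (L (d, d')) (fun i => t (i, pos d)) S₁
    have h3 : ((((L (d, d')).filter fun i => t (i, pos d) ∈ S₁)).card : ℝ)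
        < (S₁.card : ℝ) * (c₀ * m / ((V d).card : ℝ)) := by
      rw [hcard]
      push_cast
      calc _ < ∑ _a ∈ S₁, (c₀ * m / ((V d).card : ℝ)) := by
            refine Finset.sum_lt_sum_of_nonempty hne fun a ha => ?_
            exact (Finset.mem_filter.1 ha).2
        _ = _ := by rw [Finset.sum_const, nsmul_eq_mul]
    have h4 : c₀ * m * ((S₁.card : ℝ) / ((V d).card : ℝ))
        = (S₁.card : ℝ) * (c₀ * m / ((V d).card : ℝ)) := by ring
    rw [h4] at h1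
    exact absurd (lt_of_le_of_lt (h1.trans h2) h3) (lt_irrefl _)
  have hsub : ((Fintype.piFinset V).filter fun x =>
      (((L (d, d')).filter fun i => t (i, pos d) = x d).card : ℝ)
        < c₀ * m / ((V d).card : ℝ)) ⊆ Fintype.piFinset (Function.update V d S₁) := by
    intro x hx
    simp only [Finset.mem_filter, Fintype.mem_piFinset] at hx ⊢
    intro i
    by_cases hi : i = d
    · subst hi
      rw [Function.update_self]
      exact Finset.mem_filter.2 ⟨hx.1 i, hx.2⟩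
    · rw [Function.update_of_ne hi]; exact hx.1 i
  have h5 : ((Fintype.piFinset (Function.update V d S₁)).card : ℝ)
      ≤ εin * ((Fintype.piFinset V).card : ℝ) := by
    rw [Fintype.card_piFinset, Fintype.card_piFinset]
    push_cast
    rw [← Finset.mul_prod_erase Finset.univ _ (Finset.mem_univ d), Function.update_self,
      ← Finset.mul_prod_erase Finset.univ (fun i => ((V i).card : ℝ)) (Finset.mem_univ d)]
    have h6 : ∏ x ∈ Finset.univ.erase d, ((Function.update V d S₁ x).card : ℝ)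
        = ∏ x ∈ Finset.univ.erase d, ((V x).card : ℝ) := by
      refine Finset.prod_congr rfl fun a ha => ?_
      rw [Function.update_of_ne (Finset.ne_of_mem_erase ha)]
    rw [h6, ← mul_assoc]
    exact mul_le_mul_of_nonneg_right hsmall (Finset.prod_nonneg fun _ _ => by positivity)
  refine le_trans ?_ h5
  exact_mod_cast Finset.card_le_card hsub

private structure KF {v N M : ℕ} (h : ℕ) (pos : Fin v → Fin 4) (κ : ℝ)
    (V : Fin v → Finset (Fin N)) (m : ℝ) (L : Fin v × Fin v → Finset (Fin M))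
    (Vc : Fin M × Fin 4 → Finset (Fin N)) : Prop where
  hN : N = h ^ 96
  hM : M = h ^ 152
  hV : ∀ i, κ * (N : ℝ) ≤ ((V i).card : ℝ)
  hm : κ * (M : ℝ) ≤ m
  hmM : m ≤ (M : ℝ)
  hdis : ∀ e e', e ≠ e' → e ≠ (e'.2, e'.1) → Disjoint (L e) (L e')
  hVc : ∀ e, ∀ i ∈ L e, Vc (i, pos e.1) = V e.1 ∧ Vc (i, pos e.2) = V e.2

/-- the set of assignments with few extensions -/
private noncomputable def BD1 {v N M : ℕ} (t : Fin M × Fin 4 → Fin N) (pos : Fin v → Fin 4)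
    (L : Fin v × Fin v → Finset (Fin M)) (V : Fin v → Finset (Fin N)) (m c : ℝ)
    (F : Finset (Fin v × Fin v)) (B : Finset (Fin v)) (S : Fin v → Finset (Fin N)) :
    Finset (Fin v → Fin N) :=
  (Fintype.piFinset V).filter (fun x => (ext t pos L F B S x : ℝ) < c * nom V m F B)

/-- the set of assignments with a poor vertex -/
private noncomputable def BD2 {v N M : ℕ} (t : Fin M × Fin 4 → Fin N) (pos : Fin v → Fin 4)
    (L : Fin v × Fin v → Finset (Fin M)) (V : Fin v → Finset (Fin N)) (m c₀ : ℝ)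
    (d d' : Fin v) : Finset (Fin v → Fin N) :=
  (Fintype.piFinset V).filter (fun x =>
        (((L (d, d')).filter fun i => t (i, pos d) = x d).card : ℝ) < c₀ * m / ((V d).card : ℝ))

private def KB1 {v N M : ℕ} (t : Fin M × Fin 4 → Fin N) (pos : Fin v → Fin 4)
    (L : Fin v × Fin v → Finset (Fin M)) (V : Fin v → Finset (Fin N)) (m c ε₄ : ℝ)
    (F : Finset (Fin v × Fin v)) (B : Finset (Fin v)) (E : Finset (Fin v × Fin v))
    (S : Fin v → Finset (Fin N)) : Prop :=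
  Adm pos F B ∧ Frst E ∧ (∀ e ∈ E, pos e.1 ≠ pos e.2 ∧ e.1 ∉ B ∧ e.2 ∉ B) ∧ (∀ i, S i ⊆ V i) ∧
    (∀ i ∈ B, (V i).card ≤ 2 * (S i).card) ∧
    ε₄ * nrm V m E < ((∑ x ∈ BD1 t pos L V m c F B S, ∏ e ∈ E, mm t pos L e x : ℕ) : ℝ)

private def KB2 {v N M : ℕ} (t : Fin M × Fin 4 → Fin N) (pos : Fin v → Fin 4)
    (L : Fin v × Fin v → Finset (Fin M)) (V : Fin v → Finset (Fin N)) (m c₀ ε₄ : ℝ)
    (d d' : Fin v) (E : Finset (Fin v × Fin v)) : Prop :=
  pos d ≠ pos d' ∧ Frst E ∧ (∀ e ∈ E, pos e.1 ≠ pos e.2 ∧ e ≠ (d, d') ∧ e ≠ (d', d)) ∧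
    ε₄ * nrm V m E < ((∑ x ∈ BD2 t pos L V m c₀ d d', ∏ e ∈ E, mm t pos L e x : ℕ) : ℝ)

private def KB0 {v N M : ℕ} (h : ℕ) (t : Fin M × Fin 4 → Fin N) (pos : Fin v → Fin 4)
    (L : Fin v × Fin v → Finset (Fin M)) (V : Fin v → Finset (Fin N)) (m c₀ εin : ℝ) : Prop :=
  CR h t pos ∧ DEG h t ∧ (∀ e, pos e.1 ≠ pos e.2 → HVC h t pos L V m e) ∧
    Dense t pos L V m (allE pos) εin c₀

private lemma kg_ext_congr {v N M : ℕ} {t t' : Fin M × Fin 4 → Fin N} {pos : Fin v → Fin 4}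
    {L : Fin v × Fin v → Finset (Fin M)} {F : Finset (Fin v × Fin v)} {B : Finset (Fin v)}
    (S : Fin v → Finset (Fin N)) (x : Fin v → Fin N)
    (htt : ∀ f ∈ F, ∀ i ∈ L f, ∀ a, t (i, a) = t' (i, a)) :
    ext t pos L F B S x = ext t' pos L F B S x := by
  unfold ext
  refine Finset.sum_congr rfl fun y _ => Finset.prod_congr rfl fun f hf => ?_
  unfold mm
  congr 1
  refine Finset.filter_congr fun i hi => ?_
  rw [htt f hf i hi, htt f hf i hi]

/-- the property of the constants for one forest -/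
private def PGc {v : ℕ} (pos : Fin v → Fin 4) (ε₄ K : ℝ) (E : Finset (Fin v × Fin v))
    (ε₃ κ : ℝ) (h₀ : ℕ) : Prop :=
  Frst E → (∀ e ∈ E, pos e.1 ≠ pos e.2) →
      ∀ h ≥ h₀, ∀ (N M : ℕ) (V : Fin v → Finset (Fin N)) (m : ℝ)
      (L : Fin v × Fin v → Finset (Fin M)) (Vc : Fin M × Fin 4 → Finset (Fin N))
      (Bad : (Fin M × Fin 4 → Fin N) → Finset (Fin v → Fin N)),
      KF h pos κ V m L Vc → (∀ t, Bad t ⊆ Fintype.piFinset V) →
      (∀ t t' : Fin M × Fin 4 → Fin N,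
        (∀ c : Fin M × Fin 4, (∀ e ∈ E, c.1 ∉ L e) → t c = t' c) → Bad t = Bad t') →
      ∀ A : Finset (Fin M × Fin 4 → Fin N), (∀ t ∈ A, t ∈ Fintype.piFinset Vc ∧
          (∀ e, pos e.1 ≠ pos e.2 → HVC h t pos L V m e) ∧ DEG h t ∧
          ((Bad t).card : ℝ) ≤ ε₃ * ((Fintype.piFinset V).card : ℝ) ∧
          ε₄ * nrm V m E < ((∑ x ∈ Bad t, ∏ e ∈ E, mm t pos L e x : ℕ) : ℝ)) →
      (A.card : ℝ) ≤ Real.exp (-(K * m)) * ((Fintype.piFinset Vc).card : ℝ)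

/-- constants for one forest -/
private lemma kg_G {v : ℕ} (pos : Fin v → Fin 4) (ε₄ K : ℝ) (hε₄ : 0 < ε₄) (hK : 0 < K)
    (E : Finset (Fin v × Fin v)) :
    ∃ ε₃ : ℝ, 0 < ε₃ ∧ ∀ κ₁ : ℝ, 0 < κ₁ → ∃ h₀ : ℕ, PGc pos ε₄ K E ε₃ κ₁ h₀ := by
  by_cases hE : Frst E ∧ ∀ e ∈ E, pos e.1 ≠ pos e.2
  · obtain ⟨⟨l, rfl, hl⟩, hp⟩ := hE
    obtain ⟨ε₃, h3, H⟩ := gfr v pos l hl (fun e he => hp e (List.mem_toFinset.2 he)) ε₄ K hε₄ hK
    refine ⟨ε₃, h3, fun κ₁ hκ => ?_⟩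
    obtain ⟨h₀, H⟩ := H κ₁ hκ
    refine ⟨h₀, fun _ _ h hh N M V m L Vc Bad hKF hB hD A hA => ?_⟩
    have hKH : KHyp h pos l.toFinset κ₁ V m L Vc := by
      refine ⟨hKF.hN, hKF.hM, hKF.hV, hKF.hm, hKF.hmM, ?_, fun e _ => hKF.hVc e⟩
      intro e he e' he' hne
      exact hKF.hdis e e' hne (kg_fst l hl e (List.mem_toFinset.1 he) e' (List.mem_toFinset.1 he'))
    have h5 := H h hh N M V m L Vc Bad hKH hB
      (fun t t' htt => hD t t' (fun c hc => htt c (fun e he => hc e (List.mem_toFinset.2 he))))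
    refine le_trans (Nat.cast_le.2 (Finset.card_le_card fun t ht => ?_)) h5
    obtain ⟨h0, h1, h2, h3, h4⟩ := hA t ht
    exact Finset.mem_filter.2 ⟨h0, fun e he => h1 e (hp e (List.mem_toFinset.2 he)), h2, h3, h4⟩
  · refine ⟨1, one_pos, fun κ₁ _ => ⟨0, fun h1 h2 => absurd ⟨h1, h2⟩ hE⟩⟩

private def PKc {v : ℕ} (pos : Fin v → Fin 4) (c₀ ε K : ℝ)
    (FB : Finset (Fin v × Fin v) × Finset (Fin v)) (c εin κ : ℝ) (h₀ : ℕ) : Prop :=
  Adm pos FB.1 FB.2 →
      ∀ h ≥ h₀, ∀ (N M : ℕ) (V : Fin v → Finset (Fin N)) (m : ℝ)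
      (L : Fin v × Fin v → Finset (Fin M)) (Vc : Fin M × Fin 4 → Finset (Fin N)),
      KF h pos κ V m L Vc →
      ∀ A : Finset (Fin M × Fin 4 → Fin N), (∀ t ∈ A, t ∈ Fintype.piFinset Vc ∧
          CR h t pos ∧ Dense t pos L V m FB.1 εin c₀ ∧ ¬ Reg t pos L V m FB.1 FB.2 ε c) →
      (A.card : ℝ) ≤ Real.exp (-(K * m)) * ((Fintype.piFinset Vc).card : ℝ)

/-- constants for one pattern -/
private lemma kg_K {v : ℕ} (pos : Fin v → Fin 4) (c₀ ε K : ℝ) (hc₀ : 0 < c₀) (hε : 0 < ε)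
    (hε1 : ε ≤ 1) (hK : 0 < K) (FB : Finset (Fin v × Fin v) × Finset (Fin v)) :
    ∃ c : ℝ, 0 < c ∧ ∃ εin : ℝ, 0 < εin ∧ ∀ κ₁ : ℝ, 0 < κ₁ → ∃ h₀ : ℕ,
      PKc pos c₀ ε K FB c εin κ₁ h₀ := by
  obtain ⟨F, B⟩ := FB
  by_cases hA : Adm pos F B
  · obtain ⟨c, hc, εin, hεin, H⟩ := key v pos F B hA.posd hA.simp hA.tch hA.d2 hA.rs c₀ ε K
      hc₀ hε hε1 hK
    refine ⟨c, hc, εin, hεin, fun κ₁ hκ => ?_⟩
    obtain ⟨h₀, H⟩ := H κ₁ hκ
    refine ⟨h₀, fun _ h hh N M V m L Vc hKF A hAt => ?_⟩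
    have hKH : KHyp h pos F κ₁ V m L Vc := by
      refine ⟨hKF.hN, hKF.hM, hKF.hV, hKF.hm, hKF.hmM, ?_, fun e _ => hKF.hVc e⟩
      intro e he e' he' hne
      refine hKF.hdis e e' hne (fun hee => ?_)
      apply hA.simp e' he'
      rw [← hee]; exact he
    refine le_trans (Nat.cast_le.2 (Finset.card_le_card fun t ht => ?_))
      (H h hh N M V m L Vc hKH)
    exact Finset.mem_filter.2 (hAt t ht)
  · exact ⟨1, one_pos, 1, one_pos, fun κ₁ _ => ⟨0, fun h1 => absurd h1 hA⟩⟩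

private lemma kg_nom_nonneg {v N : ℕ} (V : Fin v → Finset (Fin N)) {m : ℝ} (hm : 0 ≤ m)
    (F : Finset (Fin v × Fin v)) (B : Finset (Fin v)) : 0 ≤ nom V m F B := by
  unfold nom
  exact mul_nonneg (Finset.prod_nonneg fun _ _ => Nat.cast_nonneg _)
    (Finset.prod_nonneg fun _ _ => div_nonneg hm (by positivity))

/-- the first type of bad configurations -/
private lemma kg_T1 {v N M : ℕ} {pos : Fin v → Fin 4} {c₀ ε₄ K ε ε₅ c κ εG cK εK : ℝ}
    {h hG hK : ℕ} {V : Fin v → Finset (Fin N)} {m : ℝ} {L : Fin v × Fin v → Finset (Fin M)}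
    {Vc : Fin M × Fin 4 → Finset (Fin N)} (hKF : KF h pos κ V m L Vc)
    (F : Finset (Fin v × Fin v)) (B : Finset (Fin v)) (E : Finset (Fin v × Fin v))
    (S : Fin v → Finset (Fin N)) (hm0 : 0 ≤ m) (hε2 : ε ≤ 1 / 2)
    (hPG : PGc pos ε₄ K E εG κ hG) (hPK : PKc pos c₀ ε K (F, B) cK εK κ hK)
    (hG' : hG ≤ h) (hK' : hK ≤ h) (hεG : ε ≤ εG) (hcK : c ≤ cK) (hεK : ε₅ ≤ εK)
    (A : Finset (Fin M × Fin 4 → Fin N)) (hA : ∀ t ∈ A, t ∈ Fintype.piFinset Vc ∧
      KB0 h t pos L V m c₀ ε₅ ∧ KB1 t pos L V m c ε₄ F B E S) :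
    (A.card : ℝ) ≤ 2 * (Real.exp (-(K * m)) * ((Fintype.piFinset Vc).card : ℝ)) := by
  rcases A.eq_empty_or_nonempty with rfl | ⟨t₀, ht₀⟩
  · simp only [Finset.card_empty, Nat.cast_zero]
    positivity
  obtain ⟨_, _, hAd, hFr, hE, hSV, hSB, _⟩ := hA t₀ ht₀
  have b1 := hPK hAd h hK' N M V m L Vc hKF (A.filter fun t => ¬ Reg t pos L V m F B ε c) (by
    intro t ht
    obtain ⟨ht1, hR⟩ := Finset.mem_filter.1 ht
    obtain ⟨htV, ⟨hCR, hDEG, hH, hDn⟩, _⟩ := hA t ht1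
    refine ⟨htV, hCR, ?_, ?_⟩
    · intro e he S₁ S₂ hS₁ hS₂ hc₁ hc₂
      exact hDn e (by simp [allE, hAd.posd e he]) S₁ S₂ hS₁ hS₂
        ((mul_le_mul_of_nonneg_right hεK (Nat.cast_nonneg _)).trans hc₁)
        ((mul_le_mul_of_nonneg_right hεK (Nat.cast_nonneg _)).trans hc₂)
    · intro hR'
      apply hR
      intro S' hS' hS'B
      refine le_trans (Nat.cast_le.2 (Finset.card_le_card fun x hx => ?_)) (hR' S' hS' hS'B)
      obtain ⟨hx1, hx2⟩ := Finset.mem_filter.1 hx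
      exact Finset.mem_filter.2 ⟨hx1, lt_of_lt_of_le hx2
          (mul_le_mul_of_nonneg_right hcK (kg_nom_nonneg V hm0 F B))⟩)
  have b2 := hPG hFr (fun e he => (hE e he).1) h hG' N M V m L Vc
    (fun t => BD1 t pos L V m c F B S) hKF (fun t => Finset.filter_subset _ _) (by
      intro t t' htt
      refine Finset.filter_congr fun x _ => ?_
      have hx : ext t pos L F B S x = ext t' pos L F B S x := by
        refine kg_ext_congr S x fun f hf i hi a => ?_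
        refine htt (i, a) fun e he hie => ?_
        have hne1 : e ≠ f := by
          rintro rfl
          rcases hAd.tch e hf with h7 | h7
          · exact (hE e he).2.1 h7
          · exact (hE e he).2.2 h7
        have hne2 : e ≠ (f.2, f.1) := by
          rintro rfl
          rcases hAd.tch f hf with h7 | h7
          · exact (hE _ he).2.2 h7
          · exact (hE _ he).2.1 h7
        exact (Finset.disjoint_left.1 (hKF.hdis e f hne1 hne2)) hie hi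
      rw [hx]) (A.filter fun t => Reg t pos L V m F B ε c) (by
      intro t ht
      obtain ⟨ht1, hR⟩ := Finset.mem_filter.1 ht
      obtain ⟨htV, ⟨hCR, hDEG, hH, hDn⟩, hB1⟩ := hA t ht1
      refine ⟨htV, hH, hDEG, ?_, hB1.2.2.2.2.2⟩
      refine (hR S hSV fun i hi => ?_).trans
        (mul_le_mul_of_nonneg_right hεG (Nat.cast_nonneg _))
      have h8 : ((V i).card : ℝ) ≤ 2 * ((S i).card : ℝ) := by exact_mod_cast hSB i hi
      nlinarith [(Nat.cast_nonneg (V i).card : (0 : ℝ) ≤ (V i).card)])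
  have hsum := Finset.card_filter_add_card_filter_not (s := A) (fun t => Reg t pos L V m F B ε c)
  have hsum' : (A.card : ℝ) = ((A.filter fun t => Reg t pos L V m F B ε c).card : ℝ)
      + ((A.filter fun t => ¬ Reg t pos L V m F B ε c).card : ℝ) := by
    rw [← hsum]; push_cast; rfl
  rw [hsum', two_mul]
  exact add_le_add b2 b1

/-- the second type of bad configurations -/
private lemma kg_T2 {v N M : ℕ} {pos : Fin v → Fin 4} {c₀ ε₄ K ε₅ κ εG : ℝ}
    {h hG : ℕ} {V : Fin v → Finset (Fin N)} {m : ℝ} {L : Fin v × Fin v → Finset (Fin M)}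
    {Vc : Fin M × Fin 4 → Finset (Fin N)} (hKF : KF h pos κ V m L Vc)
    (d d' : Fin v) (E : Finset (Fin v × Fin v)) (hVpos : ∀ i, 0 < (V i).card)
    (hPG : PGc pos ε₄ K E εG κ hG) (hG' : hG ≤ h) (hε₅ : 0 < ε₅) (hε₅1 : ε₅ ≤ 1)
    (hεG : ε₅ ≤ εG)
    (A : Finset (Fin M × Fin 4 → Fin N)) (hA : ∀ t ∈ A, t ∈ Fintype.piFinset Vc ∧
      KB0 h t pos L V m c₀ ε₅ ∧ KB2 t pos L V m c₀ ε₄ d d' E) :
    (A.card : ℝ) ≤ Real.exp (-(K * m)) * ((Fintype.piFinset Vc).card : ℝ) := by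
  rcases A.eq_empty_or_nonempty with rfl | ⟨t₀, ht₀⟩
  · simp only [Finset.card_empty, Nat.cast_zero]
    positivity
  obtain ⟨_, _, hdd, hFr, hE, _⟩ := hA t₀ ht₀
  refine hPG hFr (fun e he => (hE e he).1) h hG' N M V m L Vc
    (fun t => BD2 t pos L V m c₀ d d') hKF (fun t => Finset.filter_subset _ _) ?_ A ?_
  · intro t t' htt
    refine Finset.filter_congr fun x _ => ?_
    have h9 : ((L (d, d')).filter fun i => t (i, pos d) = x d)
        = ((L (d, d')).filter fun i => t' (i, pos d) = x d) := by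
      refine Finset.filter_congr fun i hi => ?_
      rw [htt (i, pos d) fun e he hie =>
        (Finset.disjoint_left.1 (hKF.hdis e (d, d') (hE e he).2.1 (hE e he).2.2)) hie hi]
    rw [h9]
  · intro t ht
    obtain ⟨htV, ⟨hCR, hDEG, hH, hDn⟩, hB2⟩ := hA t ht
    refine ⟨htV, hH, hDEG, ?_, hB2.2.2.2⟩
    exact (kg_poor hε₅ hε₅1 hVpos hDn d d' hdd).trans
      (mul_le_mul_of_nonneg_right hεG (Nat.cast_nonneg _))

/-- the bad configurations for a fixed family of classes -/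
private def KBad {v N M : ℕ} (h : ℕ) (t : Fin M × Fin 4 → Fin N) (pos : Fin v → Fin 4)
    (L : Fin v × Fin v → Finset (Fin M)) (V : Fin v → Finset (Fin N)) (m c₀ εin c ε₄ : ℝ) : Prop :=
  KB0 h t pos L V m c₀ εin ∧
    ((∃ i : Finset (Fin v × Fin v) × Finset (Fin v) × Finset (Fin v × Fin v) ×
        (Fin v → Finset (Fin N)), KB1 t pos L V m c ε₄ i.1 i.2.1 i.2.2.1 i.2.2.2) ∨
     (∃ i : Fin v × Fin v × Finset (Fin v × Fin v), KB2 t pos L V m c₀ ε₄ i.1 i.2.1 i.2.2))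

private lemma kg_card1 (v N : ℕ) :
    (Fintype.card (Finset (Fin v × Fin v) × Finset (Fin v) ×
        Finset (Fin v × Fin v) × (Fin v → Finset (Fin N))) : ℝ)
      = 2 ^ (v * v) * 2 ^ v * 2 ^ (v * v) * 2 ^ (v * N) := by
  rw [Fintype.card_prod, Fintype.card_prod, Fintype.card_prod, Fintype.card_finset,
    Fintype.card_finset, Fintype.card_prod, Fintype.card_fin, Fintype.card_pi]
  simp only [Fintype.card_finset, Fintype.card_fin, Finset.prod_const, Finset.card_univ]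
  push_cast
  rw [← pow_mul, mul_comm N v]
  ring

private lemma kg_card2 (v : ℕ) :
    (Fintype.card (Fin v × Fin v × Finset (Fin v × Fin v)) : ℝ) = v * v * 2 ^ (v * v) := by
  rw [Fintype.card_prod, Fintype.card_prod, Fintype.card_finset, Fintype.card_prod,
    Fintype.card_fin]
  push_cast
  ring

private lemma kg_arith (v : ℕ) (P E1 E2 X : ℝ) (hP : 1 ≤ P) (hE1 : 0 ≤ E1) (hEX : 0 ≤ E2 * X)
    (h : ((2 * (2 ^ (v * v) * 2 ^ v * 2 ^ (v * v)) + v * v * 2 ^ (v * v) : ℕ) : ℝ) * P * E1 ≤ 1) :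
    (2 ^ (v * v) * 2 ^ v * 2 ^ (v * v) * P : ℝ) * (2 * (E1 * E2 * X)) +
      (v * v * 2 ^ (v * v)) * (E1 * E2 * X) ≤ E2 * X := by
  push_cast at h
  have h0 : (0 : ℝ) ≤ v * v * 2 ^ (v * v) := by positivity
  have key1 : ((2 : ℝ) ^ (v * v) * 2 ^ v * 2 ^ (v * v) * P) * 2 + (v * v * 2 ^ (v * v) : ℝ) ≤
      (2 * (2 ^ (v * v) * 2 ^ v * 2 ^ (v * v)) + v * v * 2 ^ (v * v)) * P := by
    nlinarith
  calc (2 ^ (v * v) * 2 ^ v * 2 ^ (v * v) * P : ℝ) * (2 * (E1 * E2 * X)) +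
      (v * v * 2 ^ (v * v)) * (E1 * E2 * X)
      = ((((2 : ℝ) ^ (v * v) * 2 ^ v * 2 ^ (v * v) * P) * 2 + (v * v * 2 ^ (v * v) : ℝ)) * E1)
          * (E2 * X) := by ring
    _ ≤ 1 * (E2 * X) := by
        refine mul_le_mul_of_nonneg_right ?_ hEX
        exact (mul_le_mul_of_nonneg_right key1 hE1).trans h
    _ = E2 * X := one_mul _

private lemma kg_fix {v : ℕ} (pos : Fin v → Fin 4) (c₀ ε₄ K : ℝ) (hc₀ : 0 < c₀) (hε₄ : 0 < ε₄)
    (hK : 0 < K) :
    ∃ c : ℝ, 0 < c ∧ ∃ εin : ℝ, 0 < εin ∧ ∀ κ : ℝ, 0 < κ → ∃ h₀ : ℕ, ∀ h ≥ h₀,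
      ∀ (N M : ℕ) (V : Fin v → Finset (Fin N)) (m : ℝ)
      (L : Fin v × Fin v → Finset (Fin M)) (Vc : Fin M × Fin 4 → Finset (Fin N)),
      KF h pos κ V m L Vc →
      ∀ A : Finset (Fin M × Fin 4 → Fin N), (∀ t ∈ A, t ∈ Fintype.piFinset Vc ∧
        KBad h t pos L V m c₀ εin c ε₄) →
      (A.card : ℝ) ≤ Real.exp (-((K - 1) * m)) * ((Fintype.piFinset Vc).card : ℝ) := by
  choose εG hεG HG using kg_G pos ε₄ K hε₄ hK
  obtain ⟨ε₃, hε₃, hε₃le⟩ := kg_min εG hεG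
  obtain ⟨ε, hεpos, hε3, hε2⟩ : ∃ ε : ℝ, 0 < ε ∧ ε ≤ ε₃ ∧ ε ≤ 1 / 2 :=
    ⟨min ε₃ (1 / 2), lt_min hε₃ (by norm_num), min_le_left _ _, min_le_right _ _⟩
  have hε1 : ε ≤ 1 := hε2.trans (by norm_num)
  have hεle : ∀ E, ε ≤ εG E := fun E => hε3.trans (hε₃le E)
  choose cK hcK εK hεK HK using kg_K pos c₀ ε K hc₀ hεpos hε1 hK
  obtain ⟨c, hc, hcle⟩ := kg_min cK hcK
  obtain ⟨ε₅', hε₅', hε₅le'⟩ := kg_min εK hεK
  obtain ⟨ε₅, hε₅, hε₅le, hε₅ε⟩ : ∃ ε₅ : ℝ, 0 < ε₅ ∧ ε₅ ≤ ε₅' ∧ ε₅ ≤ ε :=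
    ⟨min ε₅' ε, lt_min hε₅' hεpos, min_le_left _ _, min_le_right _ _⟩
  refine ⟨c, hc, ε₅, hε₅, fun κ hκ => ?_⟩
  choose hG HG using fun E => HG E κ hκ
  choose hKn HK using fun FB => HK FB κ hκ
  obtain ⟨h1, hh1⟩ := kg_max hG
  obtain ⟨h2, hh2⟩ := kg_max hKn
  obtain ⟨h3, hh3⟩ := kg_exp (2 * (2 ^ (v * v) * 2 ^ v * 2 ^ (v * v)) + v * v * 2 ^ (v * v)) v κ 1
    hκ one_pos
  refine ⟨max (max h1 h2) (max h3 1), fun h hh N M V m L Vc hKF A hA => ?_⟩
  have e1 : h1 ≤ h := ((le_max_left _ _).trans (le_max_left _ _)).trans hh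
  have e2 : h2 ≤ h := ((le_max_right _ _).trans (le_max_left _ _)).trans hh
  have e3 : h3 ≤ h := ((le_max_left _ _).trans (le_max_right _ _)).trans hh
  have e4 : 1 ≤ h := ((le_max_right _ _).trans (le_max_right _ _)).trans hh
  have hNpos : 0 < N := by rw [hKF.hN]; exact Nat.pow_pos e4
  have hNr : (0 : ℝ) < N := by exact_mod_cast hNpos
  have hm0 : 0 ≤ m := le_trans (mul_nonneg hκ.le (Nat.cast_nonneg _)) hKF.hm
  have hVpos : ∀ i, 0 < (V i).card := by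
    intro i
    have : (0 : ℝ) < (V i).card := lt_of_lt_of_le (mul_pos hκ hNr) (hKF.hV i)
    exact_mod_cast this
  obtain ⟨X, hX⟩ : ∃ X : ℝ, X = ((Fintype.piFinset Vc).card : ℝ) := ⟨_, rfl⟩
  have hX0 : 0 ≤ X := by rw [hX]; exact Nat.cast_nonneg _
  rw [← hX]
  obtain ⟨A1, hA1⟩ : ∃ A1 : Finset (Fin M × Fin 4 → Fin N), A1 = A.filter (fun t =>
    ∃ i : Finset (Fin v × Fin v) × Finset (Fin v) × Finset (Fin v × Fin v) ×
        (Fin v → Finset (Fin N)), KB1 t pos L V m c ε₄ i.1 i.2.1 i.2.2.1 i.2.2.2) := ⟨_, rfl⟩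
  obtain ⟨A2, hA2⟩ : ∃ A2 : Finset (Fin M × Fin 4 → Fin N), A2 = A.filter (fun t =>
    ∃ i : Fin v × Fin v × Finset (Fin v × Fin v), KB2 t pos L V m c₀ ε₄ i.1 i.2.1 i.2.2) :=
      ⟨_, rfl⟩
  have hU1 : (A1.card : ℝ) ≤ (2 ^ (v * v) * 2 ^ v * 2 ^ (v * v) * 2 ^ (v * N)) *
      (2 * (Real.exp (-(K * m)) * X)) := by
    rw [← kg_card1]
    refine kg_union (fun i => A1.filter fun t => KB1 t pos L V m c ε₄ i.1 i.2.1 i.2.2.1 i.2.2.2)
      A1 ?_ _ ?_
    · intro t ht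
      obtain ⟨i, hi⟩ := (Finset.mem_filter.1 (hA1 ▸ ht)).2
      exact ⟨i, Finset.mem_filter.2 ⟨ht, hi⟩⟩
    · rintro ⟨F, B, E, S⟩
      rw [hX]
      refine kg_T1 hKF F B E S hm0 hε2 (HG E) (HK (F, B)) ((hh1 _).trans e1)
        ((hh2 _).trans e2) (hεle E) (hcle _) (hε₅le.trans (hε₅le' _)) _ ?_
      intro t ht
      obtain ⟨ht1, ht2⟩ := Finset.mem_filter.1 ht
      have ht3 := hA t ((Finset.mem_filter.1 (hA1 ▸ ht1)).1)
      exact ⟨ht3.1, ht3.2.1, ht2⟩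
  have hU2 : (A2.card : ℝ) ≤ (v * v * 2 ^ (v * v)) * (Real.exp (-(K * m)) * X) := by
    rw [← kg_card2]
    refine kg_union (fun i => A2.filter fun t => KB2 t pos L V m c₀ ε₄ i.1 i.2.1 i.2.2)
      A2 ?_ _ ?_
    · intro t ht
      obtain ⟨i, hi⟩ := (Finset.mem_filter.1 (hA2 ▸ ht)).2
      exact ⟨i, Finset.mem_filter.2 ⟨ht, hi⟩⟩
    · rintro ⟨d, d', E⟩
      rw [hX]
      refine kg_T2 (c₀ := c₀) hKF d d' E hVpos (HG E) ((hh1 _).trans e1) hε₅ (hε₅ε.trans hε1)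
        (hε₅ε.trans (hεle E)) _ ?_
      intro t ht
      obtain ⟨ht1, ht2⟩ := Finset.mem_filter.1 ht
      have ht3 := hA t ((Finset.mem_filter.1 (hA2 ▸ ht1)).1)
      exact ⟨ht3.1, ht3.2.1, ht2⟩
  have hsub : A ⊆ A1 ∪ A2 := by
    intro t ht
    obtain ⟨_, _, h3⟩ := hA t ht
    rw [Finset.mem_union, hA1, hA2]
    rcases h3 with h3 | h3
    · exact Or.inl (Finset.mem_filter.2 ⟨ht, h3⟩)
    · exact Or.inr (Finset.mem_filter.2 ⟨ht, h3⟩)
  have hcard : (A.card : ℝ) ≤ (A1.card : ℝ) + (A2.card : ℝ) := by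
    have := (Finset.card_le_card hsub).trans (Finset.card_union_le _ _)
    exact_mod_cast this
  refine (hcard.trans (add_le_add hU1 hU2)).trans ?_
  have hexp := hh3 h e3 m (by
    have : (M : ℝ) = (h : ℝ) ^ 152 := by rw [hKF.hM]; push_cast; rfl
    rw [← this]; exact hKF.hm)
  rw [← hKF.hN] at hexp
  have hsplit : Real.exp (-(K * m)) = Real.exp (-m) * Real.exp (-((K - 1) * m)) := by
    rw [← Real.exp_add]; congr 1; ring
  rw [hsplit]
  exact kg_arith v _ _ _ X (one_le_pow₀ (by norm_num)) (Real.exp_pos _).le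
    (mul_nonneg (Real.exp_pos _).le hX0) hexp

private lemma kg_vv (κ : ℝ) (hκ : 0 < κ) : ∃ h₀ : ℕ, ∀ h ≥ h₀, 1 ≤ (h : ℝ) ^ 55 * κ := by
  obtain ⟨H, hH⟩ := exists_nat_ge (1 / κ)
  refine ⟨max H 1, fun h hh => ?_⟩
  have h1 : (1 : ℝ) ≤ h := by exact_mod_cast (le_max_right H 1).trans hh
  have h2 : (H : ℝ) ≤ h := by exact_mod_cast (le_max_left H 1).trans hh
  have h3 : (h : ℝ) ≤ (h : ℝ) ^ 55 := by
    calc (h : ℝ) = (h : ℝ) ^ 1 := (pow_one _).symm
      _ ≤ (h : ℝ) ^ 55 := pow_le_pow_right₀ h1 (by norm_num)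
  rw [div_le_iff₀ hκ] at hH
  calc (1 : ℝ) ≤ (H : ℝ) * κ := hH
    _ ≤ (h : ℝ) ^ 55 * κ := mul_le_mul_of_nonneg_right (h2.trans h3) hκ.le

/-- size facts from `Parts` -/
private lemma kg_sizes {v N M : ℕ} {pos : Fin v → Fin 4} {κ₁ : ℝ} {V : Fin v → Finset (Fin N)}
    {Vg : Fin 4 → Finset (Fin N)} {nn : Fin 4 → ℕ} (hP : Parts pos κ₁ V Vg nn) (hκ : 0 < κ₁)
    (hN : 0 < N) :
    (∀ i, κ₁ ^ 4 * (N : ℝ) ≤ ((V i).card : ℝ)) ∧ κ₁ ^ 4 * (M : ℝ) ≤ msz N M nn ∧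
      msz N M nn ≤ (M : ℝ) := by
  have hNr : (0 : ℝ) < N := by exact_mod_cast hN
  have hnn : ∀ a, (nn a : ℝ) ≤ N := by
    intro a
    rw [← hP.cg a]
    have := Finset.card_le_univ (Vg a)
    rw [Fintype.card_fin] at this
    exact_mod_cast this
  have hκ1 : κ₁ ≤ 1 := by
    have h1 := (hP.big 0).trans (hnn 0)
    have h2 : κ₁ * N ≤ 1 * N := by rw [one_mul]; exact h1
    exact le_of_mul_le_mul_right h2 hNr
  have hκ4 : κ₁ ^ 4 ≤ κ₁ := by
    calc κ₁ ^ 4 ≤ κ₁ ^ 1 := pow_le_pow_of_le_one hκ.le hκ1 (by norm_num)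
      _ = κ₁ := pow_one _
  have hlo : ∀ a, κ₁ ≤ (nn a : ℝ) / N := fun a => (le_div_iff₀ hNr).2 (hP.big a)
  have hhi : ∀ a, (nn a : ℝ) / N ≤ 1 := fun a => (div_le_one hNr).2 (hnn a)
  refine ⟨?_, ?_, ?_⟩
  · intro i
    rw [hP.cV i]
    exact (mul_le_mul_of_nonneg_right hκ4 hNr.le).trans (hP.big _)
  · unfold msz
    rw [mul_comm]
    refine mul_le_mul_of_nonneg_left ?_ (Nat.cast_nonneg _)
    calc κ₁ ^ 4 = ∏ _a : Fin 4, κ₁ := by simp
      _ ≤ ∏ a : Fin 4, ((nn a : ℝ) / (N : ℝ)) :=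
        Finset.prod_le_prod (fun _ _ => hκ.le) (fun a _ => hlo a)
  · unfold msz
    calc (M : ℝ) * ∏ a, ((nn a : ℝ) / (N : ℝ)) ≤ M * 1 := by
          refine mul_le_mul_of_nonneg_left ?_ (Nat.cast_nonneg _)
          exact Finset.prod_le_one (fun a _ => by positivity) (fun a _ => hhi a)
      _ = M := mul_one _

/-- Few configurations satisfy the crude conditions but are not pattern good. -/
theorem kg (v : ℕ) (pos : Fin v → Fin 4) :
    ∀ c₀ ε₄ : ℝ, 0 < c₀ → 0 < ε₄ → ∃ c : ℝ, 0 < c ∧ ∃ εin : ℝ, 0 < εin ∧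
    ∀ κ₁ δ : ℝ, 0 < κ₁ → 0 < δ → ∃ h₀ : ℕ, ∀ h ≥ h₀, ∀ N M : ℕ, N = h ^ 96 → M = h ^ 152 →
      (((Finset.univ : Finset (Fin M × Fin 4 → Fin N)).filter fun t =>
          CR h t pos ∧ UU h κ₁ t ∧ DEG h t ∧ ¬ PG t pos c₀ εin c ε₄ κ₁).card : ℝ)
        ≤ δ * (Fintype.card (Fin M × Fin 4 → Fin N) : ℝ) := by
  intro c₀ ε₄ hc₀ hε₄
  obtain ⟨c, hc, εin, hεin, H⟩ := kg_fix pos c₀ ε₄ ((v : ℝ) ^ 2 + 3) hc₀ hε₄ (by positivity)
  refine ⟨c, hc, εin, hεin, fun κ₁ δ hκ₁ hδ => ?_⟩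
  obtain ⟨h1, H1⟩ := H (κ₁ ^ 4) (by positivity)
  obtain ⟨h2, H2⟩ := kg_exp 1 (v + 4) (κ₁ ^ 4) δ (by positivity) hδ
  obtain ⟨h3, H3⟩ := kg_vv κ₁ hκ₁
  refine ⟨max (max h1 h2) (max h3 1), fun h hh N M hN hM => ?_⟩
  have e1 : h1 ≤ h := ((le_max_left _ _).trans (le_max_left _ _)).trans hh
  have e2 : h2 ≤ h := ((le_max_right _ _).trans (le_max_left _ _)).trans hh
  have e3 : h3 ≤ h := ((le_max_left _ _).trans (le_max_right _ _)).trans hh
  have e4 : 1 ≤ h := ((le_max_right _ _).trans (le_max_right _ _)).trans hh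
  have hNpos : 0 < N := by rw [hN]; exact Nat.pow_pos e4
  have hT0 : (0 : ℝ) ≤ (Fintype.card (Fin M × Fin 4 → Fin N) : ℝ) := Nat.cast_nonneg _
  have hMr : (M : ℝ) = (h : ℝ) ^ 152 := by rw [hM]; push_cast; rfl
  obtain ⟨T, hT⟩ : ∃ T : ℝ, T = (Fintype.card (Fin M × Fin 4 → Fin N) : ℝ) := ⟨_, rfl⟩
  rw [← hT] at hT0 ⊢
  obtain ⟨U, hU⟩ : ∃ U : Finset (Fin M × Fin 4 → Fin N), U = (Finset.univ.filter fun t =>
    CR h t pos ∧ UU h κ₁ t ∧ DEG h t ∧ ¬ PG t pos c₀ εin c ε₄ κ₁) := ⟨_, rfl⟩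
  rw [← hU]
  have hkey := kg_union (I := (Fin v → Finset (Fin N)) × (Fin 4 → Finset (Fin N)))
    (fun p => Finset.univ.filter fun t : Fin M × Fin 4 → Fin N =>
      Parts pos κ₁ p.1 p.2 (fun a => (p.2 a).card) ∧
      ∃ L0 : Finset (Fin M), KBad h t pos (clsL t pos p.1 p.2 L0) p.1
        (msz N M (fun a => (p.2 a).card)) c₀ εin c ε₄) U ?_
    (Real.exp (-(κ₁ ^ 4 * (h : ℝ) ^ 152)) * T) ?_
  · refine hkey.trans ?_
    have hcard : (Fintype.card ((Fin v → Finset (Fin N)) × (Fin 4 → Finset (Fin N))) : ℝ)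
        = 2 ^ ((v + 4) * h ^ 96) := by
      rw [Fintype.card_prod, Fintype.card_pi, Fintype.card_pi]
      simp only [Fintype.card_finset, Fintype.card_fin, Finset.prod_const, Finset.card_univ]
      rw [← hN]
      push_cast
      rw [← pow_mul, ← pow_mul, ← pow_add]
      congr 1
      ring
    rw [hcard]
    have h9 := H2 h e2 (κ₁ ^ 4 * (h : ℝ) ^ 152) le_rfl
    rw [Nat.cast_one, one_mul] at h9
    calc (2 : ℝ) ^ ((v + 4) * h ^ 96) * (Real.exp (-(κ₁ ^ 4 * (h : ℝ) ^ 152)) * T)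
        = (2 : ℝ) ^ ((v + 4) * h ^ 96) * Real.exp (-(κ₁ ^ 4 * (h : ℝ) ^ 152)) * T := by ring
      _ ≤ δ * T := mul_le_mul_of_nonneg_right h9 hT0
  · intro t ht
    rw [hU] at ht
    obtain ⟨_, hCR, hUU, hDEG, hPG⟩ := Finset.mem_filter.1 ht
    unfold PG at hPG
    push Not at hPG
    obtain ⟨V, Vg, nn, L0, hParts, hDense, hbad⟩ := hPG
    have hnn : nn = fun a => (Vg a).card := funext fun a => (hParts.cg a).symm
    subst hnn
    refine ⟨(V, Vg), Finset.mem_filter.2 ⟨Finset.mem_univ _, hParts, L0, ⟨hCR, hDEG, ?_, hDense⟩, ?_⟩⟩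
    · intro e he
      exact kg_hvc hParts hκ₁ (H3 h e3) hNpos hUU L0 e he
    · by_cases hB1 : ∃ i : Finset (Fin v × Fin v) × Finset (Fin v) × Finset (Fin v × Fin v) ×
        (Fin v → Finset (Fin N)), KB1 t pos (clsL t pos V Vg L0) V
          (msz N M (fun a => (Vg a).card)) c ε₄ i.1 i.2.1 i.2.2.1 i.2.2.2
      · exact Or.inl hB1
      · right
        obtain ⟨d, d', E, hdd, hFr, hE, hlt⟩ := hbad (by
          intro F B E S hAd hFr hE hSV hSB
          by_contra hc2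
          push Not at hc2
          exact hB1 ⟨(F, B, E, S), hAd, hFr, fun e he => hE e he, hSV, hSB, hc2⟩)
        exact ⟨(d, d', E), hdd, hFr, fun e he => hE e he, hlt⟩
  · rintro ⟨V, Vg⟩
    rcases (Finset.univ.filter fun t : Fin M × Fin 4 → Fin N =>
      Parts pos κ₁ V Vg (fun a => (Vg a).card) ∧
      ∃ L0 : Finset (Fin M), KBad h t pos (clsL t pos V Vg L0) V
        (msz N M (fun a => (Vg a).card)) c₀ εin c ε₄).eq_empty_or_nonempty with h0 | ⟨t₀, ht₀⟩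
    · simp only at h0 ⊢
      rw [h0]
      simp only [Finset.card_empty, Nat.cast_zero]
      positivity
    · have hParts := (Finset.mem_filter.1 ht₀).2.1
      obtain ⟨s1, s2, s3⟩ := kg_sizes (M := M) hParts hκ₁ hNpos
      have hcu := class_union pos V Vg (fun a => (Vg a).card) hParts.cV hParts.cg hParts.disV
        hParts.disg hNpos (msz N M (fun a => (Vg a).card)) ((v : ℝ) ^ 2 + 2) rfl
        (fun t L => KBad h t pos L V (msz N M (fun a => (Vg a).card)) c₀ εin c ε₄) (by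
          intro L Vc hsym hemp hdis hVc
          have hKF : KF h pos (κ₁ ^ 4) V (msz N M (fun a => (Vg a).card)) L Vc :=
            ⟨hN, hM, s1, s2, s3, hdis, hVc⟩
          have h10 := H1 h e1 N M V _ L Vc hKF
            ((Fintype.piFinset Vc).filter fun t => KBad h t pos L V
              (msz N M (fun a => (Vg a).card)) c₀ εin c ε₄)
            (fun t ht => Finset.mem_filter.1 ht)
          have h11 : (v : ℝ) ^ 2 + 3 - 1 = (v : ℝ) ^ 2 + 2 := by ring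
          rw [h11] at h10
          exact h10)
      rw [← hT] at hcu
      refine le_trans (Nat.cast_le.2 (Finset.card_le_card fun t ht => ?_)) (hcu.trans ?_)
      · obtain ⟨_, _, L0, hL0⟩ := Finset.mem_filter.1 ht
        exact Finset.mem_filter.2 ⟨Finset.mem_univ _, L0, hL0⟩
      · refine mul_le_mul_of_nonneg_right (Real.exp_le_exp.2 ?_) hT0
        rw [hMr] at s2
        have h12 : ((v : ℝ) ^ 2 - ((v : ℝ) ^ 2 + 2)) * msz N M (fun a => (Vg a).card)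
            = -(2 * msz N M (fun a => (Vg a).card)) := by ring
        rw [h12]
        have h13 : (0 : ℝ) ≤ κ₁ ^ 4 * (h : ℝ) ^ 152 := by positivity
        linarith

end Pool.Agent.CUB
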