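import Pool.Agent.CUB.Defs2

set_option autoImplicit false

/-!
# CUB.KKC

Expected number of crossing `K_{4,4}`'s.
-/

namespace Pool.Agent.CUB

open scoped Classical

/-- Counting functions with prescribed values on `Z`. -/
private lemma kkc_cnt {X : Type} [Fintype X] {N : ℕ} (Z : Finset X) (A : Finset (X → Fin N))
    (h : ∀ f ∈ A, ∀ f' ∈ A, ∀ z ∈ Z, f z = f' z) :
    A.card * N ^ Z.card ≤ Fintype.card (X → Fin N) := by
  have h1 : A.card * N ^ Z.card = (A ×ˢ (Finset.univ : Finset (Z → Fin N))).card := by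
    rw [Finset.card_product, Finset.card_univ, Fintype.card_fun, Fintype.card_fin,
      Fintype.card_coe]
  rw [h1, ← Finset.card_univ]
  refine Finset.card_le_card_of_injOn
    (fun p => fun x => if hx : x ∈ Z then p.2 ⟨x, hx⟩ else p.1 x) (fun _ _ => Finset.mem_univ _) ?_
  rintro ⟨f, g⟩ hp ⟨f', g'⟩ hp' he
  have hf : f ∈ A := (Finset.mem_product.mp hp).1
  have hf' : f' ∈ A := (Finset.mem_product.mp hp').1
  have hpt : ∀ x, (if hx : x ∈ Z then g ⟨x, hx⟩ else f x) =
      (if hx : x ∈ Z then g' ⟨x, hx⟩ else f' x) := fun x => congrFun he x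
  have hg : g = g' := by
    funext z
    have := hpt z.1
    rw [dif_pos z.2, dif_pos z.2] at this
    exact this
  have hff : f = f' := by
    funext x
    by_cases hx : x ∈ Z
    · exact h f hf f' hf' x hx
    · have := hpt x
      rw [dif_neg hx, dif_neg hx] at this
      exact this
  rw [hg, hff]

/-- The sum of `M ^ (-|image|)` over all functions. -/
private lemma kkc_img (M : ℕ) (hM : 1 ≤ M) : ∀ n : ℕ,
    ∑ x : Fin n → Fin M, (1 / (M : ℝ) ^ (Finset.univ.image x).card) ≤ (n.factorial : ℝ) := by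
  intro n
  induction n with
  | zero =>
    rw [Fintype.sum_unique]
    simp
  | succ n ih =>
    have hMpos : (0 : ℝ) < (M : ℝ) := by exact_mod_cast hM
    rw [← (Fin.consEquiv (fun _ : Fin (n + 1) => Fin M)).sum_comp, Fintype.sum_prod_type_right]
    have key : ∀ x : Fin n → Fin M,
        ∑ y : Fin M, (1 / (M : ℝ) ^ (Finset.univ.image
          ((Fin.consEquiv (fun _ : Fin (n + 1) => Fin M)) (y, x))).card)
        ≤ ((n : ℝ) + 1) * (1 / (M : ℝ) ^ (Finset.univ.image x).card) := by
      intro x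
      have him : ∀ y : Fin M, Finset.univ.image
          ((Fin.consEquiv (fun _ : Fin (n + 1) => Fin M)) (y, x))
            = insert y (Finset.univ.image x) := by
        intro y
        ext z
        simp only [Finset.mem_image, Finset.mem_univ, true_and, Finset.mem_insert]
        constructor
        · rintro ⟨i, hi⟩
          induction i using Fin.cases with
          | zero =>
            left
            rw [← hi]
            rfl
          | succ j =>
            right
            exact ⟨j, by rw [← hi]; rfl⟩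
        · rintro (h | ⟨j, hj⟩)
          · exact ⟨0, by rw [h]; rfl⟩
          · exact ⟨j.succ, by rw [← hj]; rfl⟩
      have hsplit : ∀ y : Fin M, (1 / (M : ℝ) ^ (Finset.univ.image
          ((Fin.consEquiv (fun _ : Fin (n + 1) => Fin M)) (y, x))).card)
          ≤ (if y ∈ Finset.univ.image x then (1 / (M : ℝ) ^ (Finset.univ.image x).card) else 0)
            + (1 / (M : ℝ)) * (1 / (M : ℝ) ^ (Finset.univ.image x).card) := by
        intro y
        rw [him y]
        by_cases hy : y ∈ Finset.univ.image x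
        · rw [if_pos hy, Finset.insert_eq_of_mem hy]
          have : 0 ≤ (1 / (M : ℝ)) * (1 / (M : ℝ) ^ (Finset.univ.image x).card) := by positivity
          linarith
        · rw [if_neg hy, Finset.card_insert_of_notMem hy, pow_succ, zero_add]
          apply le_of_eq
          field_simp
      refine (Finset.sum_le_sum fun y _ => hsplit y).trans ?_
      rw [Finset.sum_add_distrib, Finset.sum_const, Finset.card_univ, Fintype.card_fin,
        ← Finset.sum_filter, Finset.sum_const]
      have hc : (Finset.univ.filter (fun y => y ∈ Finset.univ.image x)).card ≤ n := by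
        have h1 : Finset.univ.filter (fun y => y ∈ Finset.univ.image x) = Finset.univ.image x := by
          ext z; simp
        rw [h1]
        refine Finset.card_image_le.trans ?_
        rw [Finset.card_univ, Fintype.card_fin]
      have hpos : 0 ≤ (1 / (M : ℝ) ^ (Finset.univ.image x).card) := by positivity
      have hc' : ((Finset.univ.filter (fun y => y ∈ Finset.univ.image x)).card : ℝ) ≤ (n : ℝ) := by
        exact_mod_cast hc
      rw [nsmul_eq_mul, nsmul_eq_mul]
      have e1 : (M : ℝ) * ((1 / (M : ℝ)) * (1 / (M : ℝ) ^ (Finset.univ.image x).card))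
          = (1 / (M : ℝ) ^ (Finset.univ.image x).card) := by
        field_simp
      rw [e1]
      nlinarith
    refine (Finset.sum_le_sum fun x _ => key x).trans ?_
    rw [← Finset.mul_sum, Nat.factorial_succ]
    push_cast
    have : (0 : ℝ) ≤ (n : ℝ) + 1 := by positivity
    nlinarith


/-- The cells used by `ℓ` (values on the left, indices of the two quadruples on the right). -/
private noncomputable def kkcS {M : ℕ} (l : Fin 4 → Fin 4 → Fin M) :
    Finset (Fin M × (Fin 4 ⊕ Fin 4)) :=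
  Finset.univ.filter fun p => Sum.elim (fun i => ∃ j, l i j = p.1) (fun j => ∃ i, l i j = p.1) p.2

private noncomputable def kkcI {M : ℕ} (l : Fin 4 → Fin 4 → Fin M) : Finset (Fin M) :=
  Finset.univ.image fun q : Fin 4 × Fin 4 => l q.1 q.2

private noncomputable def kkcR {M : ℕ} (l : Fin 4 → Fin 4 → Fin M) (k : Fin M) : Finset (Fin 4) :=
  Finset.univ.filter fun i => ∃ j, l i j = k

private noncomputable def kkcC {M : ℕ} (l : Fin 4 → Fin 4 → Fin M) (k : Fin M) : Finset (Fin 4) :=
  Finset.univ.filter fun j => ∃ i, l i j = k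

private lemma kkc_cardS {M : ℕ} (l : Fin 4 → Fin 4 → Fin M) :
    (kkcS l).card = ∑ k ∈ kkcI l, ((kkcR l k).card + (kkcC l k).card) := by
  have hmaps : ∀ p ∈ kkcS l, Prod.fst p ∈ kkcI l := by
    rintro ⟨k, s⟩ hp
    unfold kkcS at hp
    rw [Finset.mem_filter] at hp
    unfold kkcI
    rw [Finset.mem_image]
    rcases s with i | j
    · obtain ⟨j, hj⟩ := hp.2
      exact ⟨(i, j), Finset.mem_univ _, hj⟩
    · obtain ⟨i, hi⟩ := hp.2
      exact ⟨(i, j), Finset.mem_univ _, hi⟩
  rw [Finset.card_eq_sum_card_fiberwise hmaps]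
  refine Finset.sum_congr rfl fun k _ => ?_
  rw [← Finset.card_disjSum]
  refine Finset.card_bij (fun p _ => p.2) ?_ ?_ ?_
  · rintro ⟨k', s⟩ hp
    rw [Finset.mem_filter] at hp
    obtain ⟨hp1, rfl⟩ := hp
    unfold kkcS at hp1
    rw [Finset.mem_filter] at hp1
    rcases s with i | j
    · rw [Finset.inl_mem_disjSum]
      exact Finset.mem_filter.mpr ⟨Finset.mem_univ _, hp1.2⟩
    · rw [Finset.inr_mem_disjSum]
      exact Finset.mem_filter.mpr ⟨Finset.mem_univ _, hp1.2⟩
  · rintro ⟨k1, s1⟩ h1 ⟨k2, s2⟩ h2 he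
    have e1 : k1 = k := (Finset.mem_filter.mp h1).2
    have e2 : k2 = k := (Finset.mem_filter.mp h2).2
    have e3 : s1 = s2 := he
    rw [e1, e2, e3]
  · rintro s hs
    refine ⟨(k, s), ?_, rfl⟩
    rw [Finset.mem_filter]
    refine ⟨?_, rfl⟩
    unfold kkcS
    rw [Finset.mem_filter]
    refine ⟨Finset.mem_univ _, ?_⟩
    rcases s with i | j
    · rw [Finset.inl_mem_disjSum] at hs
      exact (Finset.mem_filter.mp hs).2
    · rw [Finset.inr_mem_disjSum] at hs
      exact (Finset.mem_filter.mp hs).2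

private lemma kkc_num (r c : ℕ) (hr : 1 ≤ r) (hr4 : r ≤ 4) (hc : 1 ≤ c) (hc4 : c ≤ 4)
    (h : ¬ (r = 4 ∧ c = 4)) : 19 + 5 * (r * c) ≤ 12 * (r + c) := by
  interval_cases r <;> interval_cases c <;> omega

private lemma kkc_pat {M : ℕ} (l : Fin 4 → Fin 4 → Fin M) (hl : ¬ ∀ i j i' j', l i j = l i' j') :
    19 * (kkcI l).card + 80 ≤ 12 * (kkcS l).card := by
  rw [kkc_cardS, Finset.mul_sum]
  have hR : ∀ k ∈ kkcI l, 1 ≤ (kkcR l k).card ∧ 1 ≤ (kkcC l k).card := by
    intro k hk
    unfold kkcI at hk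
    rw [Finset.mem_image] at hk
    obtain ⟨⟨i, j⟩, _, hij⟩ := hk
    exact ⟨Finset.card_pos.mpr ⟨i, Finset.mem_filter.mpr ⟨Finset.mem_univ _, j, hij⟩⟩,
      Finset.card_pos.mpr ⟨j, Finset.mem_filter.mpr ⟨Finset.mem_univ _, i, hij⟩⟩⟩
  have h4 : ∀ k, (kkcR l k).card ≤ 4 ∧ (kkcC l k).card ≤ 4 := by
    intro k
    exact ⟨(Finset.card_le_univ _).trans (by rw [Fintype.card_fin]),
      (Finset.card_le_univ _).trans (by rw [Fintype.card_fin])⟩
  by_cases hex : ∃ k ∈ kkcI l, (kkcR l k).card = 4 ∧ (kkcC l k).card = 4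
  · obtain ⟨k0, hk0, hr0, hc0⟩ := hex
    have hm : 2 ≤ (kkcI l).card := by
      by_contra hcon
      have hle : (kkcI l).card ≤ 1 := by omega
      rw [Finset.card_le_one] at hle
      apply hl
      intro i j i' j'
      exact hle _ (Finset.mem_image.mpr ⟨(i, j), Finset.mem_univ _, rfl⟩) _
        (Finset.mem_image.mpr ⟨(i', j'), Finset.mem_univ _, rfl⟩)
    rw [← Finset.add_sum_erase _ _ hk0, hr0, hc0]
    have h2 : ∑ k ∈ (kkcI l).erase k0, 24 ≤
        ∑ k ∈ (kkcI l).erase k0, 12 * ((kkcR l k).card + (kkcC l k).card) := by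
      refine Finset.sum_le_sum fun k hk => ?_
      have := hR k (Finset.mem_of_mem_erase hk)
      omega
    rw [Finset.sum_const, smul_eq_mul, Finset.card_erase_of_mem hk0] at h2
    omega
  · have h1 : ∑ k ∈ kkcI l, (19 + 5 * ((kkcR l k).card * (kkcC l k).card)) ≤
        ∑ k ∈ kkcI l, 12 * ((kkcR l k).card + (kkcC l k).card) := by
      refine Finset.sum_le_sum fun k hk => ?_
      refine kkc_num _ _ (hR k hk).1 (h4 k).1 (hR k hk).2 (h4 k).2 ?_
      intro h
      exact hex ⟨k, hk, h⟩
    refine le_trans ?_ h1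
    rw [Finset.sum_add_distrib, Finset.sum_const, smul_eq_mul, ← Finset.mul_sum]
    have h16 : 16 ≤ ∑ k ∈ kkcI l, ((kkcR l k).card * (kkcC l k).card) := by
      have hu : (Finset.univ : Finset (Fin 4 × Fin 4)).card = 16 := by
        rw [Finset.card_univ, Fintype.card_prod, Fintype.card_fin]
      rw [← hu, Finset.card_eq_sum_card_fiberwise (f := fun q : Fin 4 × Fin 4 => l q.1 q.2)
        (t := kkcI l) (fun q _ => Finset.mem_image.mpr ⟨q, Finset.mem_univ _, rfl⟩)]
      refine Finset.sum_le_sum fun k _ => ?_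
      rw [← Finset.card_product]
      refine Finset.card_le_card ?_
      rintro ⟨i, j⟩ hq
      rw [Finset.mem_filter] at hq
      rw [Finset.mem_product]
      exact ⟨Finset.mem_filter.mpr ⟨Finset.mem_univ _, j, hq.2⟩,
        Finset.mem_filter.mpr ⟨Finset.mem_univ _, i, hq.2⟩⟩
    omega

/-- The number of `f` realising a configuration. -/
private lemma kkc_one {b N M : ℕ} (B : SimpleGraph (Fin b))
    (c : (Fin 4 → Fin b × Fin N) × (Fin 4 → Fin b × Fin N) × (Fin 4 → Fin 4 → Fin M)) :
    ((Finset.univ : Finset (Fin M × Fin b → Fin N)).filter fun f => CrossK B f c).card *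
      N ^ (kkcS c.2.2).card ≤ Fintype.card (Fin M × Fin b → Fin N) := by
  rcases Finset.eq_empty_or_nonempty
    ((Finset.univ : Finset (Fin M × Fin b → Fin N)).filter fun f => CrossK B f c) with h0 | ⟨f0, hf0⟩
  · rw [h0, Finset.card_empty, zero_mul]
    exact Nat.zero_le _
  obtain ⟨a, a', l⟩ := c
  have hC0 : CrossK B f0 (a, a', l) := (Finset.mem_filter.mp hf0).2
  obtain ⟨hia, hia', hadj, hval, _⟩ := hC0
  simp only at hia hia' hadj hval
  let φ : Fin M × (Fin 4 ⊕ Fin 4) → Fin M × Fin b :=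
    fun p => (p.1, Sum.elim (fun i => (a i).1) (fun j => (a' j).1) p.2)
  have hinj : Set.InjOn φ (kkcS l : Set (Fin M × (Fin 4 ⊕ Fin 4))) := by
    rintro ⟨k, s⟩ hs ⟨k', s'⟩ hs' he
    have hk : k = k' := congrArg Prod.fst he
    subst hk
    have h2 : Sum.elim (fun i => (a i).1) (fun j => (a' j).1) s =
        Sum.elim (fun i => (a i).1) (fun j => (a' j).1) s' := congrArg Prod.snd he
    have hs1 := (Finset.mem_filter.mp (Finset.mem_coe.mp hs)).2
    have hs2 := (Finset.mem_filter.mp (Finset.mem_coe.mp hs')).2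
    rcases s with i | j <;> rcases s' with i' | j'
    · obtain ⟨j, hj⟩ := hs1
      obtain ⟨j', hj'⟩ := hs2
      have e1 := (hval i j).1
      have e2 := (hval i' j').1
      simp only at hj hj'
      rw [hj] at e1
      rw [hj'] at e2
      have h3 : (a i).1 = (a i').1 := h2
      have h4 : a i = a i' := by
        refine Prod.ext h3 ?_
        rw [← e1, ← e2, h3]
      rw [hia h4]
    · exfalso
      have h3 : (a i).1 = (a' j').1 := h2
      exact (hadj i j').ne h3
    · exfalso
      have h3 : (a' j).1 = (a i').1 := h2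
      exact (hadj i' j).ne h3.symm
    · obtain ⟨i, hi⟩ := hs1
      obtain ⟨i', hi'⟩ := hs2
      have e1 := (hval i j).2
      have e2 := (hval i' j').2
      simp only at hi hi'
      rw [hi] at e1
      rw [hi'] at e2
      have h3 : (a' j).1 = (a' j').1 := h2
      have h4 : a' j = a' j' := by
        refine Prod.ext h3 ?_
        rw [← e1, ← e2, h3]
      rw [hia' h4]
  have hcard : ((kkcS l).image φ).card = (kkcS l).card := Finset.card_image_of_injOn hinj
  have := kkc_cnt ((kkcS l).image φ)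
    ((Finset.univ : Finset (Fin M × Fin b → Fin N)).filter fun f => CrossK B f (a, a', l)) (by
      intro f hf f' hf' z hz
      have h1 := (Finset.mem_filter.mp hf).2.2.2.2.1
      have h2 := (Finset.mem_filter.mp hf').2.2.2.2.1
      obtain ⟨⟨k, s⟩, hs, rfl⟩ := Finset.mem_image.mp hz
      have hs1 := (Finset.mem_filter.mp hs).2
      rcases s with i | j
      · obtain ⟨j, hj⟩ := hs1
        have e1 := (h1 i j).1
        have e2 := (h2 i j).1
        simp only at hj e1 e2
        rw [hj] at e1 e2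
        change f (k, (a i).1) = f' (k, (a i).1)
        rw [e1, e2]
      · obtain ⟨i, hi⟩ := hs1
        have e1 := (h1 i j).2
        have e2 := (h2 i j).2
        simp only at hi e1 e2
        rw [hi] at e1 e2
        change f (k, (a' j).1) = f' (k, (a' j).1)
        rw [e1, e2])
  rw [hcard] at this
  convert this using 2

private lemma kkc_img2 (M : ℕ) (hM : 1 ≤ M) :
    ∑ l : Fin 4 → Fin 4 → Fin M, (1 / (M : ℝ) ^ (kkcI l).card) ≤ ((16).factorial : ℝ) := by
  have h := kkc_img M hM 16
  let e : (Fin (4 * 4) → Fin M) ≃ (Fin 4 → Fin 4 → Fin M) :=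
    (Equiv.arrowCongr finProdFinEquiv.symm (Equiv.refl (Fin M))).trans
      (Equiv.curry (Fin 4) (Fin 4) (Fin M))
  rw [← e.sum_comp]
  refine le_trans (le_of_eq ?_) h
  refine Finset.sum_congr rfl fun x _ => ?_
  have : kkcI (e x) = Finset.univ.image x := by
    ext k
    unfold kkcI
    rw [Finset.mem_image, Finset.mem_image]
    constructor
    · rintro ⟨q, _, hq⟩
      exact ⟨finProdFinEquiv q, Finset.mem_univ _, hq⟩
    · rintro ⟨i, _, hi⟩
      refine ⟨finProdFinEquiv.symm i, Finset.mem_univ _, ?_⟩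
      rw [← hi]
      change x (finProdFinEquiv (finProdFinEquiv.symm i)) = x i
      rw [Equiv.apply_symm_apply]
  rw [this]

/-- Expected number of crossing `K_{4,4}`'s. -/
theorem k44_count (b : ℕ) (B : SimpleGraph (Fin b)) :
    ∃ C : ℝ, 0 < C ∧ ∀ g N M : ℕ, 1 ≤ g → N = g ^ 12 → M = g ^ 19 →
      ∑ f : Fin M × Fin b → Fin N,
        (((Finset.univ : Finset ((Fin 4 → Fin b × Fin N) × (Fin 4 → Fin b × Fin N) ×
          (Fin 4 → Fin 4 → Fin M))).filter fun c => CrossK B f c).card : ℝ)
        ≤ C * (g : ℝ) ^ 16 * (Fintype.card (Fin M × Fin b → Fin N) : ℝ) := by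
  refine ⟨(b : ℝ) ^ 8 * ((16).factorial : ℝ) + 1, by positivity, ?_⟩
  intro g N M hg hN hM
  have hN1 : 1 ≤ N := by rw [hN]; exact Nat.one_le_pow _ _ hg
  have hM1 : 1 ≤ M := by rw [hM]; exact Nat.one_le_pow _ _ hg
  have hNpos : (0 : ℝ) < (N : ℝ) := by exact_mod_cast hN1
  have hMpos : (0 : ℝ) < (M : ℝ) := by exact_mod_cast hM1
  have hgpos : (1 : ℝ) ≤ (g : ℝ) := by exact_mod_cast hg
  set T : ℝ := (Fintype.card (Fin M × Fin b → Fin N) : ℝ) with hT
  have hT0 : 0 ≤ T := Nat.cast_nonneg _
  have hswap : ∑ f : Fin M × Fin b → Fin N,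
        (((Finset.univ : Finset ((Fin 4 → Fin b × Fin N) × (Fin 4 → Fin b × Fin N) ×
          (Fin 4 → Fin 4 → Fin M))).filter fun c => CrossK B f c).card : ℝ)
      = ∑ c : (Fin 4 → Fin b × Fin N) × (Fin 4 → Fin b × Fin N) × (Fin 4 → Fin 4 → Fin M),
        (((Finset.univ : Finset (Fin M × Fin b → Fin N)).filter fun f =>
          CrossK B f c).card : ℝ) := by
    simp_rw [Finset.card_filter]
    push_cast
    rw [Finset.sum_comm]
  rw [hswap]
  have hterm : ∀ c : (Fin 4 → Fin b × Fin N) × (Fin 4 → Fin b × Fin N) × (Fin 4 → Fin 4 → Fin M),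
      (((Finset.univ : Finset (Fin M × Fin b → Fin N)).filter fun f =>
          CrossK B f c).card : ℝ)
        ≤ T * ((g : ℝ) ^ 16 / (N : ℝ) ^ 8) * (1 / (M : ℝ) ^ (kkcI c.2.2).card) := by
    intro c
    by_cases hconst : ∀ i j i' j', c.2.2 i j = c.2.2 i' j'
    · have h0 : ((Finset.univ : Finset (Fin M × Fin b → Fin N)).filter fun f =>
          CrossK B f c) = ∅ := by
        rw [Finset.filter_eq_empty_iff]
        intro f _ hf
        exact hf.2.2.2.2 hconst
      rw [h0, Finset.card_empty, Nat.cast_zero]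
      positivity
    · have h1 := kkc_one B c
      have h2 := kkc_pat c.2.2 hconst
      have h1' : (((Finset.univ : Finset (Fin M × Fin b → Fin N)).filter fun f =>
          CrossK B f c).card : ℝ) * (N : ℝ) ^ (kkcS c.2.2).card ≤ T := by
        rw [hT]
        exact_mod_cast h1
      have h3 : (N : ℝ) ^ 8 * (M : ℝ) ^ (kkcI c.2.2).card ≤
          (g : ℝ) ^ 16 * (N : ℝ) ^ (kkcS c.2.2).card := by
        have hNr : (N : ℝ) = (g : ℝ) ^ 12 := by rw [hN]; push_cast; rfl
        have hMr : (M : ℝ) = (g : ℝ) ^ 19 := by rw [hM]; push_cast; rfl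
        rw [hNr, hMr, ← pow_mul, ← pow_mul, ← pow_mul, ← pow_add, ← pow_add]
        exact pow_le_pow_right₀ hgpos (by omega)
      have hNs : (0 : ℝ) < (N : ℝ) ^ (kkcS c.2.2).card := by positivity
      have h4 : (((Finset.univ : Finset (Fin M × Fin b → Fin N)).filter fun f =>
          CrossK B f c).card : ℝ) ≤ T / (N : ℝ) ^ (kkcS c.2.2).card := by
        rw [le_div_iff₀ hNs]
        exact h1'
      refine h4.trans ?_
      rw [mul_assoc, div_eq_mul_inv]
      refine mul_le_mul_of_nonneg_left ?_ hT0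
      rw [inv_eq_one_div, div_mul_div_comm, mul_one, div_le_div_iff₀ hNs (by positivity), one_mul]
      exact h3
  refine (Finset.sum_le_sum fun c _ => hterm c).trans ?_
  rw [← Finset.mul_sum, Fintype.sum_prod_type]
  have hin : ∀ a : Fin 4 → Fin b × Fin N,
      ∑ y : (Fin 4 → Fin b × Fin N) × (Fin 4 → Fin 4 → Fin M),
        (1 / (M : ℝ) ^ (kkcI (a, y).2.2).card)
      = (((b : ℝ) * (N : ℝ)) ^ 4) * ∑ l : Fin 4 → Fin 4 → Fin M, (1 / (M : ℝ) ^ (kkcI l).card) := by
    intro a
    rw [Fintype.sum_prod_type]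
    simp only
    rw [Finset.sum_const, nsmul_eq_mul, Finset.card_univ, Fintype.card_fun, Fintype.card_prod,
      Fintype.card_fin, Fintype.card_fin, Fintype.card_fin]
    push_cast
    ring
  rw [Finset.sum_congr rfl fun a _ => hin a, Finset.sum_const, nsmul_eq_mul, Finset.card_univ,
      Fintype.card_fun, Fintype.card_prod, Fintype.card_fin, Fintype.card_fin, Fintype.card_fin]
  have himg := kkc_img2 M hM1
  set sl := ∑ l : Fin 4 → Fin 4 → Fin M, (1 / (M : ℝ) ^ (kkcI l).card) with hsl
  push_cast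
  have e1 : T * ((g : ℝ) ^ 16 / (N : ℝ) ^ 8) *
      (((b : ℝ) * (N : ℝ)) ^ 4 * (((b : ℝ) * (N : ℝ)) ^ 4 * sl))
      = ((b : ℝ) ^ 8 * sl) * ((g : ℝ) ^ 16 * T) := by
    field_simp
  have e2 : ((b : ℝ) ^ 8 * ((16).factorial : ℝ) + 1) * (g : ℝ) ^ 16 * T
      = ((b : ℝ) ^ 8 * ((16).factorial : ℝ) + 1) * ((g : ℝ) ^ 16 * T) := by ring
  rw [e1, e2]
  refine mul_le_mul_of_nonneg_right ?_ (by positivity)
  have : (b : ℝ) ^ 8 * sl ≤ (b : ℝ) ^ 8 * ((16).factorial : ℝ) :=
    mul_le_mul_of_nonneg_left himg (by positivity)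
  linarith

end Pool.Agent.CUB
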