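import Pool.Agent.CUB.CORE

set_option autoImplicit false

/-!
# CUB.LA

Proof (like Case B of `core`, with the index type `ι` in place of `V 0`). `ε' = min(ε/2, ε₀)` where
`ε₀` is from `core k` with `ρ`, `η = 1/4`, `b' = b + k log 2 + 1`. Given `c'`, apply `core` with
`c₁ = (ε/2) c'` to get `c₃`; `c₂ = δ = c₃/2`, `even_split k δ`. On the event, `SprA` (with `emp_coef`,
`emp_eq_wsum`) allows `even_split` with tests `ι`, `Sc = z^k`: `J0 ⊆ J`. Let
`Bad0 = {x : emp_{J0}(u x) < c₂ z^k}`, it contains all `x` with `emp_J (u x) < c₂ z^k`, so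
`|Bad0| > ε|ι|`. `G = (1/|ι|) ∑_{x∈Bad0} u x` depends only on the cells of `J0`. For `Y` with
`|Y j| ≥ ε'|V j|`: `∑_Y G ≥ (1/|ι|)(|Bad0| - ε'|ι|) c' ∏|V j| ≥ (ε/2) c' ∏|V j|`. And
`emp_{J\J0} G ≤ (c₂ + δ) z^k = c₃ z^k`, and `SprC` for `G`, `J\J0` by `sprC_mono`. Apply `prf` + `core`
for each `J0` (with `|(J\J0) j| ≥ z/4`), and sum over the `≤ 2^{kz}` choices of `J0`.
-/

namespace Pool.Agent.CUB

open scoped Classical

/-- Lower tail estimate for a family of functions: few of them have a small empirical sum. -/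
theorem la (k : ℕ) : ∀ ρ : ℝ, 0 < ρ → ∀ b : ℝ, 0 < b → ∀ ε : ℝ, 0 < ε →
    ∃ ε' : ℝ, 0 < ε' ∧ ∀ c' : ℝ, 0 < c' → ∃ c₂ : ℝ, 0 < c₂ ∧ ∃ θ₁ : ℝ, 0 < θ₁ ∧ ∃ z₀ : ℕ,
    ∀ (N M : ℕ) (ι : Type) [Fintype ι] (p : Fin k → Fin 4) (V Vst : Fin k → Finset (Fin N))
      (J : Fin k → Finset (Fin M)) (Vc : Fin M × Fin 4 → Finset (Fin N)) (z : ℕ) (θ : ℝ)
      (u : ι → (Fin k → Fin N) → ℝ),
      (∀ x y, 0 ≤ u x y) → (∀ j, Vst j ⊆ V j) → (∀ j, (V j).Nonempty) →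
      (∀ j, ρ * ((V j).card : ℝ) ≤ ((Vst j).card : ℝ)) →
      (∀ Y : Fin k → Finset (Fin N), (∀ j, Y j ⊆ Vst j) →
        (∀ j, ε' * ((V j).card : ℝ) ≤ ((Y j).card : ℝ)) →
        ((Finset.univ.filter fun x : ι =>
            ∑ y ∈ Fintype.piFinset Y, u x y < c' * ∏ j, ((V j).card : ℝ)).card : ℝ)
          ≤ ε' * (Fintype.card ι : ℝ)) →
      (∀ j, (J j).card = z) → z₀ ≤ z →
      0 < θ → θ ≤ θ₁ → (N : ℝ) * Real.exp (-(θ₁ / θ)) ≤ 1 →
      (Fintype.card ι : ℝ) * Real.exp (-(θ₁ / θ)) ≤ 1 →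
      (∀ i j, i ≠ j → Disjoint (J i) (J j)) → (∀ j, ∀ i ∈ J j, Vc (i, p j) = Vst j) →
      (((Fintype.piFinset Vc).filter fun t =>
          SprA p t J z θ u ∧ SprC p t V J z θ (fun y => (∑ x, u x y) / (Fintype.card ι : ℝ)) ∧
          ε * (Fintype.card ι : ℝ) < ((Finset.univ.filter fun x : ι =>
            emp p t J (u x) < c₂ * (z : ℝ) ^ k).card : ℝ)).card : ℝ)
        ≤ Real.exp (-(b * z)) * ((Fintype.piFinset Vc).card : ℝ) := by
  intro ρ hρ b hb ε hε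
  obtain ⟨ε₀, hε₀, hcore1⟩ := core k ρ hρ (1 / 4) (by norm_num) (b + k * Real.log 2 + 1)
    (by positivity)
  refine ⟨min (ε / 2) ε₀, lt_min (by positivity) hε₀, ?_⟩
  intro c' hc'
  obtain ⟨c₃, hc₃, θ', hθ', z₀, hcore⟩ := hcore1 (ε / 2 * c') (by positivity)
  obtain ⟨θ'', hθ'', n₀, hes⟩ := even_split k (c₃ / 2) (by positivity)
  refine ⟨c₃ / 2, by positivity, min θ' θ'', lt_min hθ' hθ'', z₀ + n₀ + 1, ?_⟩
  intro N M ι _ p V Vst J Vc z θ u hu hVst hV hρV hD hJ hz₀ hθ hθ₁ hN hι hdis hVc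
  have hz1 : 1 ≤ z := by omega
  by_cases hι0 : Fintype.card ι = 0
  · refine core_filter_zero _ _ _ (by positivity) ?_
    rintro t _ ⟨_, _, ht⟩
    rw [hι0, Nat.cast_zero, mul_zero] at ht
    have h1 : ((Finset.univ.filter fun x : ι => emp p t J (u x) < c₃ / 2 * (z : ℝ) ^ k).card : ℝ) ≤
        (Fintype.card ι : ℝ) := by
      rw [Nat.cast_le]
      exact Finset.card_le_univ _
    rw [hι0, Nat.cast_zero] at h1
    exact absurd ht (not_lt.mpr h1)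
  have hιpos : (0 : ℝ) < (Fintype.card ι : ℝ) := by
    exact_mod_cast Nat.pos_of_ne_zero hι0
  have hθexp : ∀ x : ℝ, min θ' θ'' ≤ x → Real.exp (-(x / θ)) ≤ Real.exp (-(min θ' θ'' / θ)) := by
    intro x hx
    refine Real.exp_le_exp.mpr (neg_le_neg (div_le_div_of_nonneg_right hx hθ.le))
  have hcore' : CoreS k ρ (1 / 4) (b + k * Real.log 2 + 1) ε₀ (ε / 2 * c') c₃ θ' z₀ := hcore
  have hes' : ESplit k (c₃ / 2) θ'' n₀ := hes
  have hB := core_caseB k ρ 1 b (ε / 2 * c') c₃ θ' θ'' ε₀ z₀ n₀ hc₃ hcore' hes' N M ι p V Vst J Vc z θ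
    u Finset.univ (ε * (Fintype.card ι : ℝ)) hu hVst hV hρV
    (by
      intro S _ hS Y hY1 hY2
      have h1 := hD Y hY1 (fun j => (mul_le_mul_of_nonneg_right (min_le_right _ _)
        (Nat.cast_nonneg _)).trans (hY2 j))
      obtain ⟨P, hP⟩ : ∃ P : ℝ, P = ∏ j, ((V j).card : ℝ) := ⟨_, rfl⟩
      have hP0 : 0 ≤ P := by
        rw [hP]
        exact Finset.prod_nonneg fun j _ => Nat.cast_nonneg _
      rw [← hP] at h1 ⊢
      obtain ⟨Lw, hLw⟩ : ∃ Lw : Finset ι, Lw = Finset.univ.filter fun x : ι =>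
          ∑ y ∈ Fintype.piFinset Y, u x y < c' * P := ⟨_, rfl⟩
      rw [← hLw] at h1
      have h2 : ((S.card : ℕ) : ℝ) ≤ ((S \ Lw).card : ℝ) + (Lw.card : ℝ) := by
        have h3 := Finset.le_card_sdiff Lw S
        have h4 : S.card ≤ (S \ Lw).card + Lw.card := by omega
        exact_mod_cast h4
      have h3 : min (ε / 2) ε₀ * (Fintype.card ι : ℝ) ≤ ε / 2 * (Fintype.card ι : ℝ) :=
        mul_le_mul_of_nonneg_right (min_le_left _ _) hιpos.le
      have h4 : ε / 2 * (Fintype.card ι : ℝ) ≤ ((S \ Lw).card : ℝ) := by linarith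
      have h5 : ∑ y ∈ Fintype.piFinset Y, (∑ x ∈ S, u x y) / (Fintype.card ι : ℝ) =
          (∑ x ∈ S, ∑ y ∈ Fintype.piFinset Y, u x y) / (Fintype.card ι : ℝ) := by
        rw [← Finset.sum_div, Finset.sum_comm]
      rw [h5, le_div_iff₀ hιpos]
      have h6 : ((S \ Lw).card : ℝ) * (c' * P) ≤
          ∑ x ∈ S \ Lw, ∑ y ∈ Fintype.piFinset Y, u x y := by
        rw [← nsmul_eq_mul]
        refine Finset.card_nsmul_le_sum _ _ _ fun x hx => ?_
        rw [Finset.mem_sdiff, hLw, Finset.mem_filter] at hx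
        by_contra hcon
        exact hx.2 ⟨Finset.mem_univ _, not_le.mp hcon⟩
      have h7 : ∑ x ∈ S \ Lw, ∑ y ∈ Fintype.piFinset Y, u x y ≤
          ∑ x ∈ S, ∑ y ∈ Fintype.piFinset Y, u x y :=
        Finset.sum_le_sum_of_subset_of_nonneg Finset.sdiff_subset
          fun x _ _ => Finset.sum_nonneg fun y _ => hu x y
      have h8 : ε / 2 * (Fintype.card ι : ℝ) * (c' * P) ≤ ((S \ Lw).card : ℝ) * (c' * P) :=
        mul_le_mul_of_nonneg_right h4 (by positivity)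
      have h9 : ε / 2 * c' * P * (Fintype.card ι : ℝ) =
        ε / 2 * (Fintype.card ι : ℝ) * (c' * P) := by ring
      linarith)
    (fun j => by rw [hJ j, one_mul]) (fun j => (hJ j).le) (by omega) hz1
    (fun j => by rw [hJ j]; omega) hθ (hθ₁.trans (min_le_left _ _)) (hθ₁.trans (min_le_right _ _))
    (le_trans (mul_le_mul_of_nonneg_left (hθexp _ (min_le_left _ _)) (Nat.cast_nonneg _)) hN)
    (le_trans (mul_le_mul_of_nonneg_left (hθexp _ (min_le_right _ _)) (Nat.cast_nonneg _)) hι)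
    hdis hVc
  have hexp : Real.exp (-((b + 1) * z)) ≤ Real.exp (-(b * z)) := by
    refine Real.exp_le_exp.mpr ?_
    have : (0 : ℝ) ≤ (z : ℝ) := Nat.cast_nonneg _
    nlinarith
  refine le_trans ?_ (hB.trans (mul_le_mul_of_nonneg_right hexp (Nat.cast_nonneg _)))
  rw [Nat.cast_le]
  refine Finset.card_le_card fun t ht => ?_
  rw [Finset.mem_filter] at ht ⊢
  obtain ⟨h1, h2, h3, h4⟩ := ht
  exact ⟨h1, h2, h3, h4.le⟩

end Pool.Agent.CUB
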