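import Pool.Agent.CUB.Defs2

set_option autoImplicit false

/-!
# CUB.PAT

The pattern of a connected piece is admissible: local sparsity (`D2`) from the degree bound and the
absence of `K_4`, rooted sparsity (`RS`) from the degree bound and connectedness.
-/

namespace Pool.Agent.CUB

open scoped Classical

/-- ordered pairs of adjacent vertices, the first one in `T`, the second one with property `p` -/
private noncomputable def PAT_A {X : Type} [Fintype X] (H : SimpleGraph X) (T : Finset X)
    (p : X → Prop) : Finset (X × X) :=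
  (T ×ˢ (Finset.univ : Finset X)).filter fun z => H.Adj z.1 z.2 ∧ p z.2

private lemma PAT_mem {X : Type} [Fintype X] {H : SimpleGraph X} {T : Finset X} {p : X → Prop}
    {z : X × X} : z ∈ PAT_A H T p ↔ z.1 ∈ T ∧ H.Adj z.1 z.2 ∧ p z.2 := by
  unfold PAT_A
  simp [Finset.mem_filter, Finset.mem_product]

private lemma PAT_deg {X : Type} [Fintype X] (H : SimpleGraph X)
    (hdeg : ∀ x, (H.neighborSet x).ncard ≤ 3) (u : X) :
    ((Finset.univ : Finset X).filter fun w => H.Adj u w).card ≤ 3 := by
  have h1 : (((Finset.univ : Finset X).filter fun w => H.Adj u w : Finset X) : Set X) =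
      H.neighborSet u := by
    ext w
    simp
  rw [← Set.ncard_coe_finset, h1]
  exact hdeg u

private lemma PAT_A_le {X : Type} [Fintype X] (H : SimpleGraph X) (T : Finset X)
    (p : X → Prop) (n : ℕ) (hn : ∀ u ∈ T, ((Finset.univ : Finset X).filter fun w =>
      H.Adj u w ∧ p w).card ≤ n) : (PAT_A H T p).card ≤ n * T.card := by
  refine Finset.card_le_mul_card_image_of_maps_to (f := fun z : X × X => z.1)
    (fun z hz => (PAT_mem.1 hz).1) n ?_
  intro u hu
  refine le_trans ?_ (hn u hu)
  refine Finset.card_le_card_of_injOn (fun z => z.2) ?_ ?_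
  · intro z hz
    simp only [Finset.coe_filter, Set.mem_ofPred_eq] at hz
    simp only [Finset.coe_filter, Set.mem_ofPred_eq, Finset.mem_univ, true_and]
    have := PAT_mem.1 hz.1
    rw [← hz.2]
    exact this.2
  · intro z hz z' hz' h
    simp only [Finset.coe_filter, Set.mem_ofPred_eq] at hz hz'
    exact Prod.ext (hz.2.trans hz'.2.symm) h

private lemma PAT_A_three {X : Type} [Fintype X] (H : SimpleGraph X)
    (hdeg : ∀ x, (H.neighborSet x).ncard ≤ 3) (T : Finset X) (p : X → Prop) :
    (PAT_A H T p).card ≤ 3 * T.card := by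
  refine PAT_A_le H T p 3 fun u _ => le_trans (Finset.card_le_card ?_) (PAT_deg H hdeg u)
  intro w hw
  have := (Finset.mem_filter.1 hw).2
  exact Finset.mem_filter.2 ⟨Finset.mem_univ _, this.1⟩

/-- unordered count: pairs inside `T` with increasing types -/
private noncomputable def PAT_E {X : Type} [Fintype X] {v : ℕ} (H : SimpleGraph X) (ty : X → Fin v)
    (T : Finset X) : Finset (X × X) :=
  (PAT_A H T (fun w => w ∈ T)).filter fun z => ty z.1 < ty z.2

private lemma PAT_two {X : Type} [Fintype X] {v : ℕ} (H : SimpleGraph X) (ty : X → Fin v)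
    (T : Finset X) : 2 * (PAT_E H ty T).card ≤ (PAT_A H T (fun w => w ∈ T)).card := by
  have h1 : ((PAT_A H T (fun w => w ∈ T)).filter fun z => ¬ ty z.1 < ty z.2).card ≥
      (PAT_E H ty T).card := by
    refine Finset.card_le_card_of_injOn (fun z => (z.2, z.1)) ?_ ?_
    · intro z hz
      have hz' := Finset.mem_filter.1 (Finset.mem_coe.1 hz)
      have h2 := PAT_mem.1 hz'.1
      refine Finset.mem_coe.2 (Finset.mem_filter.2 ⟨PAT_mem.2 ⟨h2.2.2, h2.2.1.symm, h2.1⟩, ?_⟩)
      exact not_lt.2 hz'.2.le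
    · intro z _ z' _ h
      simp only [Prod.mk.injEq] at h
      exact Prod.ext h.2 h.1
  have h2 := Finset.card_filter_add_card_filter_not (s := PAT_A H T (fun w => w ∈ T))
    (fun z => ty z.1 < ty z.2)
  have h3 : ((PAT_A H T (fun w => w ∈ T)).filter fun z => ty z.1 < ty z.2).card =
    (PAT_E H ty T).card := rfl
  omega

/-- edges inside a set, small cases -/
private lemma PAT_small {X : Type} [Fintype X] {v : ℕ} (H : SimpleGraph X)
    (hdeg : ∀ x, (H.neighborSet x).ncard ≤ 3)
    (hK4 : ∀ x₁ x₂ x₃ x₄ : X, H.Adj x₁ x₂ → H.Adj x₁ x₃ → H.Adj x₁ x₄ → H.Adj x₂ x₃ →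
        H.Adj x₂ x₄ → H.Adj x₃ x₄ → False) (ty : X → Fin v) (T : Finset X) (n : ℕ)
    (hn : T.card ≤ n) (hn3 : 3 ≤ n) : 5 * (PAT_E H ty T).card + 20 ≤ 12 * n := by
  have h2 := PAT_two H ty T
  have h3 := PAT_A_three H hdeg T (fun w => w ∈ T)
  have h4 : (PAT_A H T (fun w => w ∈ T)).card ≤ (T.card - 1) * T.card := by
    refine PAT_A_le H T _ (T.card - 1) fun u hu => ?_
    refine le_trans (Finset.card_le_card ?_) (le_of_eq (Finset.card_erase_of_mem hu))
    intro w hw
    simp only [Finset.mem_filter, Finset.mem_univ, true_and] at hw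
    exact Finset.mem_erase.2 ⟨hw.1.ne', hw.2⟩
  rcases Nat.lt_or_ge T.card 4 with h5 | h5
  · have h6 : (T.card - 1) * T.card ≤ 6 := by
      have : T.card = 0 ∨ T.card = 1 ∨ T.card = 2 ∨ T.card = 3 := by omega
      rcases this with h | h | h | h <;> rw [h] <;> norm_num
    rcases Nat.lt_or_ge T.card 3 with h7 | h7
    · have h8 : (T.card - 1) * T.card ≤ 2 := by
        have : T.card = 0 ∨ T.card = 1 ∨ T.card = 2 := by omega
        rcases this with h | h | h <;> rw [h] <;> norm_num
      omega
    · omega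
  · rcases Nat.lt_or_ge T.card 5 with h6 | h6
    · have hT4 : T.card = 4 := by omega
      rw [hT4] at h3
      by_cases h12 : (PAT_A H T (fun w => w ∈ T)).card = 12
      · exfalso
        have hall : ∀ u ∈ T, ∀ w ∈ T, u ≠ w → H.Adj u w := by
          intro u hu w hw huw
          by_contra hadj
          -- then the pairs inject into a set of size at most 11
          have h7 : PAT_A H T (fun w => w ∈ T) ⊆ (T.offDiag).erase (u, w) := by
            intro z hz
            have hz' := PAT_mem.1 hz
            refine Finset.mem_erase.2 ⟨?_, Finset.mem_offDiag.2 ⟨hz'.1, hz'.2.2, hz'.2.1.ne⟩⟩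
            intro h8
            rw [h8] at hz'
            exact hadj hz'.2.1
          have h8 := Finset.card_le_card h7
          rw [Finset.card_erase_of_mem (Finset.mem_offDiag.2 ⟨hu, hw, huw⟩), Finset.offDiag_card,
            hT4, h12] at h8
          omega
        obtain ⟨x1, hx1⟩ : T.Nonempty := Finset.card_pos.1 (by omega)
        have h9 : (T.erase x1).card = 3 := by
          rw [Finset.card_erase_of_mem hx1]
          omega
        obtain ⟨x2, x3, x4, h23, h24, h34, hTe⟩ := Finset.card_eq_three.1 h9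
        have hm2 : x2 ∈ T.erase x1 := by rw [hTe]; simp
        have hm3 : x3 ∈ T.erase x1 := by rw [hTe]; simp
        have hm4 : x4 ∈ T.erase x1 := by rw [hTe]; simp
        rw [Finset.mem_erase] at hm2 hm3 hm4
        exact hK4 x1 x2 x3 x4 (hall _ hx1 _ hm2.2 hm2.1.symm) (hall _ hx1 _ hm3.2 hm3.1.symm)
          (hall _ hx1 _ hm4.2 hm4.1.symm) (hall _ hm2.2 _ hm3.2 h23) (hall _ hm2.2 _ hm4.2 h24)
          (hall _ hm3.2 _ hm4.2 h34)
      · omega
    · omega

/-- The pattern of a connected piece with at least three vertices is admissible. -/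
theorem pat {X : Type} [Fintype X] (H : SimpleGraph X) (hdeg : ∀ x, (H.neighborSet x).ncard ≤ 3)
    (hK4 : ∀ x₁ x₂ x₃ x₄ : X, H.Adj x₁ x₂ → H.Adj x₁ x₃ → H.Adj x₁ x₄ → H.Adj x₂ x₃ →
        H.Adj x₂ x₄ → H.Adj x₃ x₄ → False)
    {v : ℕ} (pos : Fin v → Fin 4) (ty : X → Fin v)
    (hpos : ∀ u w, H.Adj u w → pos (ty u) ≠ pos (ty w)) (Q : Finset X) (hQ : 3 ≤ Q.card)
    (hconn : (H.induce (Q : Set X)).Connected)
    (hinj : ∀ u w, (u ∈ Q ∨ ∃ a ∈ Q, H.Adj a u) → (w ∈ Q ∨ ∃ a ∈ Q, H.Adj a w) →
      ty u = ty w → u = w) :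
    Adm pos (patF H ty Q) (Q.image ty) := by
  have hF : ∀ e, e ∈ patF H ty Q ↔ e.1 < e.2 ∧
      ∃ a b, H.Adj a b ∧ ty a = e.1 ∧ ty b = e.2 ∧ (a ∈ Q ∨ b ∈ Q) := by
    intro e
    unfold patF
    simp only [Finset.mem_filter, Finset.mem_univ, true_and]
  have hP : ∀ a b, H.Adj a b → (a ∈ Q ∨ b ∈ Q) →
      (a ∈ Q ∨ ∃ c ∈ Q, H.Adj c a) ∧ (b ∈ Q ∨ ∃ c ∈ Q, H.Adj c b) := by
    intro a b hab h
    rcases h with h | h
    · exact ⟨Or.inl h, Or.inr ⟨a, h, hab⟩⟩
    · exact ⟨Or.inr ⟨b, h, hab.symm⟩, Or.inl h⟩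
  constructor
  · intro e he
    obtain ⟨_, a, b, hab, h1, h2, _⟩ := (hF e).1 he
    rw [← h1, ← h2]
    exact hpos a b hab
  · intro e he he'
    have h1 := ((hF e).1 he).1
    have h2 := ((hF _).1 he').1
    exact lt_asymm h1 h2
  · intro e he
    obtain ⟨_, a, b, hab, h1, h2, h3⟩ := (hF e).1 he
    rcases h3 with h | h
    · exact Or.inl (Finset.mem_image.2 ⟨a, h, h1⟩)
    · exact Or.inr (Finset.mem_image.2 ⟨b, h, h2⟩)
  · intro S hS
    set T : Finset X := Finset.univ.filter fun u =>
      (u ∈ Q ∨ ∃ a ∈ Q, H.Adj a u) ∧ ty u ∈ S with hT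
    have hTS : T.card ≤ S.card := by
      refine Finset.card_le_card_of_injOn ty ?_ ?_
      · intro u hu
        exact (Finset.mem_filter.1 (Finset.mem_coe.1 hu)).2.2
      · intro u hu w hw h
        exact hinj u w (Finset.mem_filter.1 (Finset.mem_coe.1 hu)).2.1
          (Finset.mem_filter.1 (Finset.mem_coe.1 hw)).2.1 h
    have h1 : (ins (patF H ty Q) S).card ≤ (PAT_E H ty T).card := by
      have h2 : ins (patF H ty Q) S ⊆ (PAT_E H ty T).image (fun z => (ty z.1, ty z.2)) := by
        intro e he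
        obtain ⟨he1, he2, he3⟩ := Finset.mem_filter.1 he
        obtain ⟨hlt, a, b, hab, h3, h4, h5⟩ := (hF e).1 he1
        have h6 := hP a b hab h5
        refine Finset.mem_image.2 ⟨(a, b), ?_, ?_⟩
        · refine Finset.mem_filter.2 ⟨PAT_mem.2 ⟨?_, hab, ?_⟩, ?_⟩
          · exact Finset.mem_filter.2 ⟨Finset.mem_univ _, h6.1, by rw [h3]; exact he2⟩
          · exact Finset.mem_filter.2 ⟨Finset.mem_univ _, h6.2, by rw [h4]; exact he3⟩
          · change ty a < ty b
            rw [h3, h4]
            exact hlt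
        · change (ty a, ty b) = e
          rw [h3, h4]
      exact (Finset.card_le_card h2).trans Finset.card_image_le
    have h2 := PAT_small H hdeg hK4 ty T S.card hTS hS
    omega
  · intro S hSB hSne
    set T : Finset X := Q.filter fun u => ty u ∈ S with hT
    have hinjQ : ∀ u ∈ Q, ∀ w ∈ Q, ty u = ty w → u = w := fun u hu w hw h =>
      hinj u w (Or.inl hu) (Or.inl hw) h
    have hTS : T.card = S.card := by
      have h1 : T.image ty = S := by
        ext d
        rw [Finset.mem_image]
        constructor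
        · rintro ⟨u, hu, rfl⟩
          exact (Finset.mem_filter.1 hu).2
        · intro hd
          obtain ⟨u, hu, rfl⟩ := Finset.mem_image.1 (hSB hd)
          exact ⟨u, Finset.mem_filter.2 ⟨hu, hd⟩, rfl⟩
      rw [← h1, Finset.card_image_of_injOn]
      intro u hu w hw h
      exact hinjQ u (Finset.mem_filter.1 (Finset.mem_coe.1 hu)).1 w
        (Finset.mem_filter.1 (Finset.mem_coe.1 hw)).1 h
    have hTQ : T ⊆ Q := Finset.filter_subset _ _
    -- the three classes of ordered pairs
    set A1 := PAT_A H T (fun w => w ∈ T) with hA1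
    set A2 := PAT_A H T (fun w => w ∉ Q) with hA2
    set A3 := PAT_A H T (fun w => w ∈ Q ∧ w ∉ T) with hA3
    have hsum : A1.card + A2.card + A3.card ≤ 3 * T.card := by
      have h1 : Disjoint A1 A2 := by
        rw [Finset.disjoint_left]
        intro z hz hz'
        exact (PAT_mem.1 hz').2.2 (hTQ (PAT_mem.1 hz).2.2)
      have h2 : Disjoint (A1 ∪ A2) A3 := by
        rw [Finset.disjoint_left]
        intro z hz hz'
        have h3 := (PAT_mem.1 hz').2.2
        rcases Finset.mem_union.1 hz with h4 | h4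
        · exact h3.2 (PAT_mem.1 h4).2.2
        · exact (PAT_mem.1 h4).2.2 h3.1
      rw [← Finset.card_union_of_disjoint h1, ← Finset.card_union_of_disjoint h2]
      refine (Finset.card_le_card ?_).trans (PAT_A_three H hdeg T (fun _ => True))
      intro z hz
      rcases Finset.mem_union.1 hz with h3 | h3
      · rcases Finset.mem_union.1 h3 with h4 | h4
        · exact PAT_mem.2 ⟨(PAT_mem.1 h4).1, (PAT_mem.1 h4).2.1, trivial⟩
        · exact PAT_mem.2 ⟨(PAT_mem.1 h4).1, (PAT_mem.1 h4).2.1, trivial⟩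
      · exact PAT_mem.2 ⟨(PAT_mem.1 h3).1, (PAT_mem.1 h3).2.1, trivial⟩
    -- the counted edges
    have hcount : 2 * ((patF H ty Q).filter fun e =>
        (e.1 ∈ Q.image ty → e.1 ∈ S) ∧ (e.2 ∈ Q.image ty → e.2 ∈ S)).card ≤
        A1.card + 2 * A2.card := by
      have h1 : ((patF H ty Q).filter fun e =>
        (e.1 ∈ Q.image ty → e.1 ∈ S) ∧ (e.2 ∈ Q.image ty → e.2 ∈ S)) ⊆
          (PAT_E H ty T).image (fun z => (ty z.1, ty z.2)) ∪
          A2.image (fun z => (min (ty z.1) (ty z.2), max (ty z.1) (ty z.2))) := by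
        intro e he
        obtain ⟨he1, he2, he3⟩ := Finset.mem_filter.1 he
        obtain ⟨hlt, a, b, hab, h3, h4, h5⟩ := (hF e).1 he1
        have ha : a ∈ Q → a ∈ T := by
          intro ha
          refine Finset.mem_filter.2 ⟨ha, ?_⟩
          rw [h3]
          exact he2 (Finset.mem_image.2 ⟨a, ha, h3⟩)
        have hb : b ∈ Q → b ∈ T := by
          intro hb
          refine Finset.mem_filter.2 ⟨hb, ?_⟩
          rw [h4]
          exact he3 (Finset.mem_image.2 ⟨b, hb, h4⟩)
        have hltab : ty a < ty b := by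
          rw [h3, h4]
          exact hlt
        by_cases haQ : a ∈ Q
        · by_cases hbQ : b ∈ Q
          · refine Finset.mem_union_left _ (Finset.mem_image.2 ⟨(a, b), ?_, ?_⟩)
            · exact Finset.mem_filter.2 ⟨PAT_mem.2 ⟨ha haQ, hab, hb hbQ⟩, hltab⟩
            · change (ty a, ty b) = e
              rw [h3, h4]
          · refine Finset.mem_union_right _ (Finset.mem_image.2 ⟨(a, b), ?_, ?_⟩)
            · exact PAT_mem.2 ⟨ha haQ, hab, hbQ⟩
            · change (min (ty a) (ty b), max (ty a) (ty b)) = e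
              rw [min_eq_left hltab.le, max_eq_right hltab.le, h3, h4]
        · have hbQ : b ∈ Q := by
            rcases h5 with h | h
            · exact absurd h haQ
            · exact h
          refine Finset.mem_union_right _ (Finset.mem_image.2 ⟨(b, a), ?_, ?_⟩)
          · exact PAT_mem.2 ⟨hb hbQ, hab.symm, haQ⟩
          · change (min (ty b) (ty a), max (ty b) (ty a)) = e
            rw [min_eq_right hltab.le, max_eq_left hltab.le, h3, h4]
      have h2 := (Finset.card_le_card h1).trans (Finset.card_union_le _ _)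
      have h3 : ((PAT_E H ty T).image (fun z => (ty z.1, ty z.2))).card ≤ (PAT_E H ty T).card :=
        Finset.card_image_le
      have h4 : (A2.image (fun z => (min (ty z.1) (ty z.2), max (ty z.1) (ty z.2)))).card ≤
        A2.card := Finset.card_image_le
      have h5 : 2 * (PAT_E H ty T).card ≤ A1.card := PAT_two H ty T
      omega
    -- connectedness
    obtain ⟨r, hrQ, hr⟩ : ∃ r ∈ Q, (r ∉ T ∨ T = Q) := by
      by_cases h1 : T = Q
      · obtain ⟨r, hr⟩ : Q.Nonempty := Finset.card_pos.1 (by omega)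
        exact ⟨r, hr, Or.inr h1⟩
      · obtain ⟨r, hrQ, hrT⟩ : ∃ r ∈ Q, r ∉ T := by
          by_contra h2
          push Not at h2
          exact h1 (Finset.Subset.antisymm hTQ h2)
        exact ⟨r, hrQ, Or.inl hrT⟩
    set dQ : X → ℕ := fun u => if h : u ∈ (Q : Set X) then
      (H.induce (Q : Set X)).dist ⟨u, h⟩ ⟨r, hrQ⟩ else 0 with hdQ
    have hpar : ∀ u, ∃ w, u ∈ Q → u ≠ r → w ∈ Q ∧ H.Adj u w ∧ dQ w < dQ u := by
      intro u
      by_cases hu : u ∈ Q ∧ u ≠ r
      · obtain ⟨huQ, hur⟩ := hu
        obtain ⟨p, hp⟩ := (hconn.preconnected ⟨u, huQ⟩ ⟨r, hrQ⟩).exists_walk_length_eq_dist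
        cases p with
        | nil => exact absurd rfl hur
        | cons h p =>
          rename_i w
          refine ⟨w.1, fun _ _ => ⟨w.2, ?_, ?_⟩⟩
          · exact h
          · have h1 : (H.induce (Q : Set X)).dist w ⟨r, hrQ⟩ ≤ p.length :=
              SimpleGraph.dist_le p
            rw [SimpleGraph.Walk.length_cons] at hp
            have h2 : dQ w.1 = (H.induce (Q : Set X)).dist w ⟨r, hrQ⟩ := by
              simp only [hdQ]
              rw [dif_pos w.2]
            have h3 : dQ u = (H.induce (Q : Set X)).dist ⟨u, huQ⟩ ⟨r, hrQ⟩ := by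
              simp only [hdQ]
              rw [dif_pos (show u ∈ (Q : Set X) from huQ)]
            omega
      · exact ⟨u, fun h1 h2 => absurd ⟨h1, h2⟩ hu⟩
    choose par hpar using hpar
    set T' : Finset X := T.erase r with hT'
    have hT'Q : ∀ u ∈ T', u ∈ Q ∧ u ≠ r ∧ u ∈ T := by
      intro u hu
      obtain ⟨h1, h2⟩ := Finset.mem_erase.1 hu
      exact ⟨hTQ h2, h1, h2⟩
    have hS1 : 2 * (T'.filter fun u => par u ∈ T).card ≤ A1.card := by
      set I1 := (T'.filter fun u => par u ∈ T).image (fun u => (u, par u)) with hI1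
      set I2 := (T'.filter fun u => par u ∈ T).image (fun u => (par u, u)) with hI2
      have h1 : I1.card = (T'.filter fun u => par u ∈ T).card := by
        rw [hI1, Finset.card_image_of_injective]
        intro u w h
        exact (Prod.mk.injEq _ _ _ _ ▸ h).1
      have h2 : I2.card = (T'.filter fun u => par u ∈ T).card := by
        rw [hI2, Finset.card_image_of_injective]
        intro u w h
        exact (Prod.mk.injEq _ _ _ _ ▸ h).2
      have h3 : Disjoint I1 I2 := by
        rw [Finset.disjoint_left]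
        intro z hz hz'
        obtain ⟨u, hu, rfl⟩ := Finset.mem_image.1 hz
        obtain ⟨w, hw, h4⟩ := Finset.mem_image.1 hz'
        simp only [Prod.mk.injEq] at h4
        obtain ⟨h5, h6⟩ := h4
        have hu' := hT'Q u (Finset.mem_filter.1 hu).1
        have hw' := hT'Q w (Finset.mem_filter.1 hw).1
        have h7 := (hpar u hu'.1 hu'.2.1).2.2
        have h8 := (hpar w hw'.1 hw'.2.1).2.2
        rw [h5] at h8
        rw [← h6] at h7
        exact lt_asymm h7 h8
      have h4 : I1 ∪ I2 ⊆ A1 := by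
        intro z hz
        rcases Finset.mem_union.1 hz with h5 | h5
        · obtain ⟨u, hu, rfl⟩ := Finset.mem_image.1 h5
          have hu' := hT'Q u (Finset.mem_filter.1 hu).1
          exact PAT_mem.2 ⟨hu'.2.2, (hpar u hu'.1 hu'.2.1).2.1, (Finset.mem_filter.1 hu).2⟩
        · obtain ⟨u, hu, rfl⟩ := Finset.mem_image.1 h5
          have hu' := hT'Q u (Finset.mem_filter.1 hu).1
          exact PAT_mem.2 ⟨(Finset.mem_filter.1 hu).2, (hpar u hu'.1 hu'.2.1).2.1.symm, hu'.2.2⟩
      have h5 := Finset.card_le_card h4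
      rw [Finset.card_union_of_disjoint h3] at h5
      omega
    have hS2 : (T'.filter fun u => ¬ par u ∈ T).card ≤ A3.card := by
      refine Finset.card_le_card_of_injOn (fun u => (u, par u)) ?_ ?_
      · intro u hu
        have hu1 := Finset.mem_filter.1 (Finset.mem_coe.1 hu)
        have hu' := hT'Q u hu1.1
        exact Finset.mem_coe.2 (PAT_mem.2 ⟨hu'.2.2, (hpar u hu'.1 hu'.2.1).2.1,
          (hpar u hu'.1 hu'.2.1).1, hu1.2⟩)
      · intro u _ w _ h
        simp only [Prod.mk.injEq] at h
        exact h.1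
    have hS3 := Finset.card_filter_add_card_filter_not (s := T') (fun u => par u ∈ T)
    have hTpos : 1 ≤ T.card := by
      rw [hTS]
      exact hSne.card_pos
    rw [← hTS]
    rcases hr with hr | hr
    · have h1 : T'.card = T.card := by
        rw [hT', Finset.erase_eq_of_notMem hr]
      omega
    · have h1 : T'.card = T.card - 1 := by
        rw [hT', Finset.card_erase_of_mem (by rw [hr]; exact hrQ)]
      have h2 : T.card = Q.card := by rw [hr]
      omega

end Pool.Agent.CUB
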