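import Pool.Agent.CUB.Defs

set_option autoImplicit false

/-!
# CUB.PHI

All by unfolding. phi_child: split `box Sᶜ V x` according to `y = α i ∈ V i`
(`box Sᶜ V x = ⋃_y box (insert i S)ᶜ V (update x i y)`), the edges of `l` not inside `S` are `(u,i)` plus
those not inside `insert i S`; `mm (u,i) α = pmul u i (x u) y` since `α u = x u`. phi_full:
`|box Sᶜ V x| = ∏_{i∈Sᶜ}|V i|`.
-/

namespace Pool.Agent.CUB

open scoped Classical

/-- Splitting the free coordinates at `i`. -/
private lemma PHI_split {v N : ℕ} (V : Fin v → Finset (Fin N)) (S : Finset (Fin v)) (i : Fin v)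
    (hi : i ∉ S) (x : Fin v → Fin N) (f : (Fin v → Fin N) → ℝ) :
    ∑ α ∈ box Sᶜ V x, f α =
      ∑ y ∈ V i, ∑ α ∈ box (insert i S)ᶜ V (Function.update x i y), f α := by
  have hmap : ∀ α ∈ box Sᶜ V x, α i ∈ V i := by
    intro α hα
    have := Fintype.mem_piFinset.mp hα i
    rw [if_pos (Finset.mem_compl.mpr hi)] at this
    exact this
  rw [← Finset.sum_fiberwise_of_maps_to hmap]
  refine Finset.sum_congr rfl fun y hy => ?_
  refine Finset.sum_congr ?_ fun _ _ => rfl
  ext α
  simp only [Finset.mem_filter, box, Fintype.mem_piFinset]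
  constructor
  · rintro ⟨h1, h2⟩ j
    by_cases hj : j = i
    · subst hj
      rw [if_neg (by simp)]
      simp [h2]
    · have h3 := h1 j
      by_cases hjS : j ∈ S
      · rw [if_neg (by simpa using hjS)] at h3
        rw [if_neg (by simp [hjS])]
        rw [Function.update_of_ne hj]
        exact h3
      · rw [if_pos (by simpa using hjS)] at h3
        rw [if_pos (by simp [hj, hjS])]
        exact h3
  · intro h
    refine ⟨fun j => ?_, ?_⟩
    · have h3 := h j
      by_cases hj : j = i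
      · subst hj
        rw [if_neg (by simp)] at h3
        rw [if_pos (by simpa using hi)]
        rw [Finset.mem_singleton, Function.update_self] at h3
        rw [h3]
        exact hy
      · by_cases hjS : j ∈ S
        · rw [if_neg (by simp [hjS]), Function.update_of_ne hj] at h3
          rw [if_neg (by simpa using hjS)]
          exact h3
        · rw [if_pos (by simp [hj, hjS])] at h3
          rw [if_pos (by simpa using hjS)]
          exact h3
    · have h3 := h i
      rw [if_neg (by simp), Finset.mem_singleton, Function.update_self] at h3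
      exact h3

private lemma PHI_prod {v N : ℕ} (V : Fin v → Finset (Fin N)) (S : Finset (Fin v)) (i : Fin v)
    (hi : i ∉ S) :
    ∏ j ∈ Sᶜ, ((V j).card : ℝ) = ((V i).card : ℝ) * ∏ j ∈ (insert i S)ᶜ, ((V j).card : ℝ) := by
  have h1 : Sᶜ = insert i (insert i S)ᶜ := by
    ext j
    simp only [Finset.mem_compl, Finset.mem_insert, not_or]
    constructor
    · intro h
      by_cases hj : j = i
      · exact Or.inl hj
      · exact Or.inr ⟨hj, h⟩
    · rintro (h | h)
      · rw [h]
        exact hi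
      · exact h.2
  rw [h1, Finset.prod_insert (by simp)]

/-- Child step of the potential functional. -/
theorem phi_child {v N M : ℕ} (t : Fin M × Fin 4 → Fin N) (pos : Fin v → Fin 4)
    (L : Fin v × Fin v → Finset (Fin M)) (V : Fin v → Finset (Fin N)) (m : ℝ) (hm : 0 < m)
    (hV : ∀ i, (V i).Nonempty) (l : Finset (Fin v × Fin v)) (Y : (Fin v → Fin N) → ℝ)
    (S : Finset (Fin v)) (u i : Fin v) (hu : u ∈ S) (hi : i ∉ S) (hui : (u, i) ∈ l)
    (hl : ∀ e ∈ l, e.1 ∈ insert i S → e.2 ∈ insert i S → ¬ (e.1 ∈ S ∧ e.2 ∈ S) → e = (u, i))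
    (x : Fin v → Fin N) :
    ∑ y ∈ V i, (pmul t pos L u i (x u) y : ℝ) *
        Phi t pos L V m l Y (insert i S) (Function.update x i y)
      = m / ((V u).card : ℝ) * Phi t pos L V m l Y S x := by
  have hfil : l.filter (fun e => ¬ (e.1 ∈ S ∧ e.2 ∈ S)) =
      insert (u, i) (l.filter (fun e => ¬ (e.1 ∈ insert i S ∧ e.2 ∈ insert i S))) := by
    ext e
    simp only [Finset.mem_filter, Finset.mem_insert]
    constructor
    · rintro ⟨h1, h2⟩
      by_cases h3 : (e.1 = i ∨ e.1 ∈ S) ∧ (e.2 = i ∨ e.2 ∈ S)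
      · exact Or.inl (hl e h1 (Finset.mem_insert.mpr h3.1) (Finset.mem_insert.mpr h3.2) h2)
      · exact Or.inr ⟨h1, h3⟩
    · rintro (h | h)
      · subst h
        exact ⟨hui, fun h => hi h.2⟩
      · exact ⟨h.1, fun h' => h.2 ⟨Or.inr h'.1, Or.inr h'.2⟩⟩
  have hnot : (u, i) ∉ l.filter (fun e => ¬ (e.1 ∈ insert i S ∧ e.2 ∈ insert i S)) := by
    intro h
    exact (Finset.mem_filter.mp h).2
      ⟨Finset.mem_insert_of_mem hu, Finset.mem_insert_self i S⟩
  have hVi : ((V i).card : ℝ) ≠ 0 := by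
    have := (hV i).card_pos
    positivity
  have hVu : ((V u).card : ℝ) ≠ 0 := by
    have := (hV u).card_pos
    positivity
  have hP : (∏ j ∈ (insert i S)ᶜ, ((V j).card : ℝ)) ≠ 0 := by
    refine Finset.prod_ne_zero_iff.mpr fun j _ => ?_
    have := (hV j).card_pos
    positivity
  unfold Phi
  rw [PHI_prod V S i hi, PHI_split V S i hi x, hfil, mul_div_assoc', Finset.mul_sum,
    Finset.sum_div]
  refine Finset.sum_congr rfl fun y hy => ?_
  rw [mul_div_assoc', Finset.mul_sum, Finset.mul_sum, Finset.sum_div, Finset.sum_div]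
  refine Finset.sum_congr rfl fun α hα => ?_
  rw [Finset.prod_insert hnot]
  have hα' := Fintype.mem_piFinset.mp hα
  have hαi : α i = y := by
    have h3 := hα' i
    rw [if_neg (by simp), Finset.mem_singleton, Function.update_self] at h3
    exact h3
  have hαu : α u = x u := by
    have h3 := hα' u
    have hui' : u ≠ i := fun h => hi (h ▸ hu)
    rw [if_neg (by simp [hu]), Finset.mem_singleton, Function.update_of_ne hui'] at h3
    exact h3
  have hmm : mm t pos L (u, i) α = pmul t pos L u i (x u) y := by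
    unfold mm pmul
    rw [hαi, hαu]
  rw [hmm]
  field_simp

/-- Root step of the potential functional. -/
theorem phi_root {v N M : ℕ} (t : Fin M × Fin 4 → Fin N) (pos : Fin v → Fin 4)
    (L : Fin v × Fin v → Finset (Fin M)) (V : Fin v → Finset (Fin N)) (m : ℝ)
    (hV : ∀ i, (V i).Nonempty) (l : Finset (Fin v × Fin v)) (Y : (Fin v → Fin N) → ℝ)
    (S : Finset (Fin v)) (i : Fin v) (hi : i ∉ S)
    (hl : ∀ e ∈ l, e.1 ∈ insert i S → e.2 ∈ insert i S → (e.1 ∈ S ∧ e.2 ∈ S))
    (x : Fin v → Fin N) :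
    ∑ y ∈ V i, Phi t pos L V m l Y (insert i S) (Function.update x i y)
      = ((V i).card : ℝ) * Phi t pos L V m l Y S x := by
  have hfil : l.filter (fun e => ¬ (e.1 ∈ S ∧ e.2 ∈ S)) =
      l.filter (fun e => ¬ (e.1 ∈ insert i S ∧ e.2 ∈ insert i S)) := by
    ext e
    simp only [Finset.mem_filter]
    constructor
    · rintro ⟨h1, h2⟩
      exact ⟨h1, fun h3 => h2 (hl e h1 h3.1 h3.2)⟩
    · rintro ⟨h1, h2⟩
      exact ⟨h1, fun h3 => h2 ⟨Finset.mem_insert_of_mem h3.1, Finset.mem_insert_of_mem h3.2⟩⟩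
  have hVi : ((V i).card : ℝ) ≠ 0 := by
    have := (hV i).card_pos
    positivity
  have hP : (∏ j ∈ (insert i S)ᶜ, ((V j).card : ℝ)) ≠ 0 := by
    refine Finset.prod_ne_zero_iff.mpr fun j _ => ?_
    have := (hV j).card_pos
    positivity
  unfold Phi
  rw [PHI_prod V S i hi, PHI_split V S i hi x, hfil, ← Finset.sum_div]
  field_simp

theorem phi_nonneg {v N M : ℕ} (t : Fin M × Fin 4 → Fin N) (pos : Fin v → Fin 4)
    (L : Fin v × Fin v → Finset (Fin M)) (V : Fin v → Finset (Fin N)) (m : ℝ) (hm : 0 ≤ m)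
    (l : Finset (Fin v × Fin v)) (Y : (Fin v → Fin N) → ℝ) (hY : ∀ x, 0 ≤ Y x)
    (S : Finset (Fin v)) (x : Fin v → Fin N) : 0 ≤ Phi t pos L V m l Y S x := by
  unfold Phi
  refine div_nonneg (Finset.sum_nonneg fun α _ => mul_nonneg (hY α) ?_) ?_
  · refine Finset.prod_nonneg fun e _ => ?_
    positivity
  · exact Finset.prod_nonneg fun i _ => by positivity

/-- When all relevant coordinates are fixed, the functional is `Y x`. -/
theorem phi_full {v N M : ℕ} (t : Fin M × Fin 4 → Fin N) (pos : Fin v → Fin 4)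
    (L : Fin v × Fin v → Finset (Fin M)) (V : Fin v → Finset (Fin N)) (m : ℝ)
    (hV : ∀ i, (V i).Nonempty) (l : Finset (Fin v × Fin v)) (Y : (Fin v → Fin N) → ℝ)
    (S : Finset (Fin v)) (hl : ∀ e ∈ l, e.1 ∈ S ∧ e.2 ∈ S)
    (hY : ∀ x x' : Fin v → Fin N, (∀ i ∈ S, x i = x' i) → Y x = Y x') (x : Fin v → Fin N) :
    Phi t pos L V m l Y S x = Y x := by
  have hfil : l.filter (fun e => ¬ (e.1 ∈ S ∧ e.2 ∈ S)) = ∅ := by
    rw [Finset.filter_eq_empty_iff]
    intro e he
    exact not_not.mpr (hl e he)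
  have hP : (∏ j ∈ Sᶜ, ((V j).card : ℝ)) ≠ 0 := by
    refine Finset.prod_ne_zero_iff.mpr fun j _ => ?_
    have := (hV j).card_pos
    positivity
  have hcard : ((box Sᶜ V x).card : ℝ) = ∏ j ∈ Sᶜ, ((V j).card : ℝ) := by
    unfold box
    rw [Fintype.card_piFinset]
    push_cast
    rw [← Finset.prod_subset (Finset.subset_univ Sᶜ)]
    · refine Finset.prod_congr rfl fun j hj => ?_
      rw [if_pos hj]
    · intro j _ hj
      rw [if_neg hj]
      simp
  unfold Phi
  rw [hfil]
  have hsum : ∑ α ∈ box Sᶜ V x, Y α * ∏ e ∈ (∅ : Finset (Fin v × Fin v)),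
      ((mm t pos L e α : ℝ) * (((V e.1).card : ℝ) * ((V e.2).card : ℝ) / m))
      = ∑ α ∈ box Sᶜ V x, Y x := by
    refine Finset.sum_congr rfl fun α hα => ?_
    rw [Finset.prod_empty, mul_one]
    refine hY α x fun j hj => ?_
    have h3 := Fintype.mem_piFinset.mp hα j
    rw [if_neg (by simpa using hj), Finset.mem_singleton] at h3
    exact h3
  rw [hsum, Finset.sum_const, nsmul_eq_mul, hcard]
  field_simp

/-- The functional depends only on the coordinates in `S`. -/
theorem phi_congr {v N M : ℕ} (t : Fin M × Fin 4 → Fin N) (pos : Fin v → Fin 4)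
    (L : Fin v × Fin v → Finset (Fin M)) (V : Fin v → Finset (Fin N)) (m : ℝ)
    (l : Finset (Fin v × Fin v)) (Y : (Fin v → Fin N) → ℝ) (S : Finset (Fin v))
    (x x' : Fin v → Fin N) (h : ∀ i ∈ S, x i = x' i) :
    Phi t pos L V m l Y S x = Phi t pos L V m l Y S x' := by
  have hbox : box Sᶜ V x = box Sᶜ V x' := by
    unfold box
    congr 1
    funext j
    by_cases hj : j ∈ S
    · rw [if_neg (by simpa using hj), if_neg (by simpa using hj), h j hj]
    · rw [if_pos (by simpa using hj), if_pos (by simpa using hj)]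
  unfold Phi
  rw [hbox]

end Pool.Agent.CUB
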