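import Pool.Agent.CUB.Defs

set_option autoImplicit false

/-!
# CUB.PRF

Proof. `piFinset Vc` is partitioned into fibres `fib Vc C t` (all elements of a fibre have the same
fibre; if `t ∈ piFinset Vc` then `t ∈ fib Vc C t ⊆ piFinset Vc`; and `t' ∈ fib Vc C t → fib t' = fib t`).
Sum over the fibres (double counting: `∑_{t∈Ω} |fib t|⁻¹ ∑_{t'∈fib t} f t' = ∑_{t'∈Ω} f t'`, or use
`Finset.sum_fiberwise` for the restriction of `t` to the complement of `C`). `prf` is the case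
`f = 1_P, g = 1` of `prf_sum`.
-/

namespace Pool.Agent.CUB

open scoped Classical

private theorem PRF_mem {κ : Type} [Fintype κ] [DecidableEq κ] {N : ℕ} (Vc : κ → Finset (Fin N))
    (C : Finset κ) (t t' : κ → Fin N) :
    t' ∈ fib Vc C t ↔ ∀ c, (c ∈ C → t' c ∈ Vc c) ∧ (c ∉ C → t' c = t c) := by
  unfold fib
  rw [Fintype.mem_piFinset]
  refine forall_congr' fun c => ?_
  by_cases hc : c ∈ C
  · simp [hc]
  · simp [hc]

private theorem PRF_self {κ : Type} [Fintype κ] [DecidableEq κ] {N : ℕ} (Vc : κ → Finset (Fin N))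
    (C : Finset κ) (t : κ → Fin N) (ht : t ∈ Fintype.piFinset Vc) : t ∈ fib Vc C t := by
  rw [PRF_mem]
  intro c
  exact ⟨fun _ => Fintype.mem_piFinset.1 ht c, fun _ => rfl⟩

private theorem PRF_eq {κ : Type} [Fintype κ] [DecidableEq κ] {N : ℕ} (Vc : κ → Finset (Fin N))
    (C : Finset κ) (t t' : κ → Fin N) (h : t' ∈ fib Vc C t) : fib Vc C t' = fib Vc C t := by
  rw [PRF_mem] at h
  unfold fib
  congr 1
  funext c
  by_cases hc : c ∈ C
  · simp [hc]
  · simp [hc, (h c).2 hc]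

private theorem PRF_sub {κ : Type} [Fintype κ] [DecidableEq κ] {N : ℕ} (Vc : κ → Finset (Fin N))
    (C : Finset κ) (t t' : κ → Fin N) (ht : t ∈ Fintype.piFinset Vc) (h : t' ∈ fib Vc C t) :
    t' ∈ Fintype.piFinset Vc := by
  rw [PRF_mem] at h
  rw [Fintype.mem_piFinset]
  intro c
  by_cases hc : c ∈ C
  · exact (h c).1 hc
  · rw [(h c).2 hc]
    exact Fintype.mem_piFinset.1 ht c

private theorem PRF_fiber {κ : Type} [Fintype κ] [DecidableEq κ] {N : ℕ} (Vc : κ → Finset (Fin N))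
    (C : Finset κ) (t : κ → Fin N) (ht : t ∈ Fintype.piFinset Vc) :
    (Fintype.piFinset Vc).filter (fun t' => fib Vc C t' = fib Vc C t) = fib Vc C t := by
  ext t'
  rw [Finset.mem_filter]
  constructor
  · rintro ⟨h1, h2⟩
    rw [← h2]
    exact PRF_self Vc C t' h1
  · intro h
    exact ⟨PRF_sub Vc C t t' ht h, PRF_eq Vc C t t' h⟩

private theorem PRF_sum {κ : Type} [Fintype κ] [DecidableEq κ] {N : ℕ} (Vc : κ → Finset (Fin N))
    (C : Finset κ) (f : (κ → Fin N) → ℝ) :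
    ∑ s ∈ (Fintype.piFinset Vc).image (fib Vc C), ∑ t' ∈ s, f t' =
      ∑ t ∈ Fintype.piFinset Vc, f t := by
  rw [← Finset.sum_fiberwise_of_maps_to
    (fun t ht => Finset.mem_image_of_mem (fib Vc C) ht) f]
  refine Finset.sum_congr rfl fun s hs => ?_
  obtain ⟨t, ht, rfl⟩ := Finset.mem_image.1 hs
  rw [PRF_fiber Vc C t ht]

/-- Resampling: a bound on every fibre gives the bound globally. -/
theorem prf {κ : Type} [Fintype κ] [DecidableEq κ] {N : ℕ} (Vc : κ → Finset (Fin N)) (C : Finset κ)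
    (P : (κ → Fin N) → Prop) (q : ℝ) (hq : 0 ≤ q)
    (h : ∀ t ∈ Fintype.piFinset Vc,
      (((fib Vc C t).filter P).card : ℝ) ≤ q * ((fib Vc C t).card : ℝ)) :
    (((Fintype.piFinset Vc).filter P).card : ℝ) ≤ q * ((Fintype.piFinset Vc).card : ℝ) := by
  have h1 := PRF_sum Vc C (fun t => if P t then (1 : ℝ) else 0)
  have h2 := PRF_sum Vc C (fun _ => (1 : ℝ))
  have e1 : (((Fintype.piFinset Vc).filter P).card : ℝ) =
      ∑ t ∈ Fintype.piFinset Vc, (if P t then (1 : ℝ) else 0) := by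
    rw [Finset.sum_boole]
  have e2 : ((Fintype.piFinset Vc).card : ℝ) = ∑ t ∈ Fintype.piFinset Vc, (1 : ℝ) := by
    simp
  rw [e1, e2, ← h1, ← h2, Finset.mul_sum]
  refine Finset.sum_le_sum fun s hs => ?_
  obtain ⟨t, ht, rfl⟩ := Finset.mem_image.1 hs
  have h3 := h t ht
  rw [Finset.sum_boole]
  simpa using h3

/-- Real-valued version: if the sum of `f` over every fibre is at most `q` times the sum of the
(fibre-invariant) function `g`, the same holds globally. -/
theorem prf_sum {κ : Type} [Fintype κ] [DecidableEq κ] {N : ℕ} (Vc : κ → Finset (Fin N))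
    (C : Finset κ) (f g : (κ → Fin N) → ℝ) (q : ℝ)
    (h : ∀ t ∈ Fintype.piFinset Vc, ∑ t' ∈ fib Vc C t, f t' ≤ q * ∑ t' ∈ fib Vc C t, g t') :
    ∑ t ∈ Fintype.piFinset Vc, f t ≤ q * ∑ t ∈ Fintype.piFinset Vc, g t := by
  rw [← PRF_sum Vc C f, ← PRF_sum Vc C g, Finset.mul_sum]
  refine Finset.sum_le_sum fun s hs => ?_
  obtain ⟨t, ht, rfl⟩ := Finset.mem_image.1 hs
  exact h t ht

end Pool.Agent.CUB
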