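import Pool.Agent.CUB.TT
import Pool.Agent.CUB.KKC
import Pool.Agent.CUB.HST
import Pool.Agent.PUG.TRI

set_option autoImplicit false

/-!
# CUB.RED

Proof. `Pool.Agent.PUG.k33_ramsey` (file Pool/Agent/PUG/TRI.lean) for `F = ⊤` on `Fin 4` (`K_4` is
`K33Free`: only 4 vertices) gives `b, B`. `γ = 1/(2 r b^4)`, `δ = 1/(4 (b^4+1))`, `K, h₀` from `tt`. For
`h ≥ h₀` (larger), `M = h^152`, `g = h^8`: by `k44_count` and Markov at most a quarter of the `f` have more than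
`M/2` crossing configurations; by `push_unif` and `tt` at most a quarter are bad for some injective
`ι : Fin 4 → Fin b`. Take a good `f`, `𝒢` from `host_del` (`|𝒢| ≥ M/2`), `G = hostG B f 𝒢`, `host_free`.
Colouring: `host_pigeon` gives `i, g, L0`, `|L0| ≥ γM`; `UnivP (fun c => f (c.1, g c.2)) L0 n` gives
`ψ : Fin n → Fin 4 × Fin N`, and `φ u = (g (ψ u).1, (ψ u).2)`.
-/

namespace Pool.Agent.CUB

open scoped Classical

private lemma RED_k4 : Pool.Agent.PUG.K33Free (⊤ : SimpleGraph (Fin 4)) := by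
  intro a a' ha ha' h
  have hinj : Function.Injective (Sum.elim a a') := by
    rintro (i | i) (j | j) hij
    · exact congrArg Sum.inl (ha hij)
    · exact absurd hij (h i j)
    · exact absurd hij.symm (h j i)
    · exact congrArg Sum.inr (ha' hij)
  have := Fintype.card_le_of_injective _ hinj
  simp at this

/-- Markov. -/
private lemma RED_markov {α : Type} [Fintype α] (w : α → ℕ) (s A : ℝ)
    (h : ∑ f : α, (w f : ℝ) ≤ A) :
    (((Finset.univ : Finset α).filter fun f => s < (w f : ℝ)).card : ℝ) * s ≤ A := by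
  refine le_trans ?_ h
  calc (((Finset.univ : Finset α).filter fun f => s < (w f : ℝ)).card : ℝ) * s
      = ∑ f ∈ (Finset.univ : Finset α).filter (fun f => s < (w f : ℝ)), s := by
        rw [Finset.sum_const, nsmul_eq_mul]
    _ ≤ ∑ f ∈ (Finset.univ : Finset α).filter (fun f => s < (w f : ℝ)), (w f : ℝ) :=
        Finset.sum_le_sum fun f hf => (Finset.mem_filter.1 hf).2.le
    _ ≤ ∑ f : α, (w f : ℝ) :=
        Finset.sum_le_sum_of_subset_of_nonneg (Finset.filter_subset _ _)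
          (fun f _ _ => Nat.cast_nonneg _)

/-- The choice of a good configuration. -/
private lemma RED_good {b N M : ℕ} (B : SimpleGraph (Fin b)) (hN : 0 < N) (hM : 0 < M)
    (D : ℝ) (hCD : 8 * D ≤ M)
    (h1 : ∑ f : Fin M × Fin b → Fin N,
        (((Finset.univ : Finset ((Fin 4 → Fin b × Fin N) × (Fin 4 → Fin b × Fin N) ×
          (Fin 4 → Fin 4 → Fin M))).filter fun c => CrossK B f c).card : ℝ)
        ≤ D * (Fintype.card (Fin M × Fin b → Fin N) : ℝ))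
    (P : (Fin M × Fin 4 → Fin N) → Prop) (inst : DecidablePred fun t => ¬ P t)
    (h2' : ((@Finset.filter _ (fun t => ¬ P t) inst
          (Finset.univ : Finset (Fin M × Fin 4 → Fin N))).card : ℝ)
        ≤ 1 / (4 * ((b : ℝ) ^ 4 + 1)) * (Fintype.card (Fin M × Fin 4 → Fin N) : ℝ)) :
    ∃ f : Fin M × Fin b → Fin N,
      2 * ((Finset.univ : Finset ((Fin 4 → Fin b × Fin N) × (Fin 4 → Fin b × Fin N) ×
          (Fin 4 → Fin 4 → Fin M))).filter fun c => CrossK B f c).card ≤ M ∧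
      ∀ ι : Fin 4 → Fin b, Function.Injective ι → P fun c => f (c.1, ι c.2) := by
  have : Nonempty (Fin N) := ⟨⟨0, hN⟩⟩
  have h2 : (((Finset.univ : Finset (Fin M × Fin 4 → Fin N)).filter fun t => ¬ P t).card : ℝ)
        ≤ 1 / (4 * ((b : ℝ) ^ 4 + 1)) * (Fintype.card (Fin M × Fin 4 → Fin N) : ℝ) := by
    convert h2'
  set Φ : ℝ := (Fintype.card (Fin M × Fin b → Fin N) : ℝ) with hΦ
  have hΦ0 : 0 < Φ := by
    rw [hΦ]
    exact_mod_cast Fintype.card_pos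
  have hT0 : (0 : ℝ) < (Fintype.card (Fin M × Fin 4 → Fin N) : ℝ) := by
    exact_mod_cast Fintype.card_pos
  have hM0 : (0 : ℝ) < M := by exact_mod_cast hM
  -- first bad set
  have b1 := RED_markov (fun f : Fin M × Fin b → Fin N =>
    ((Finset.univ : Finset ((Fin 4 → Fin b × Fin N) × (Fin 4 → Fin b × Fin N) ×
          (Fin 4 → Fin 4 → Fin M))).filter fun c => CrossK B f c).card) ((M : ℝ) / 2) _ h1
  set S1 := (Finset.univ : Finset (Fin M × Fin b → Fin N)).filter fun f => (M : ℝ) / 2 <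
    (((Finset.univ : Finset ((Fin 4 → Fin b × Fin N) × (Fin 4 → Fin b × Fin N) ×
          (Fin 4 → Fin 4 → Fin M))).filter fun c => CrossK B f c).card : ℝ) with hS1
  have c1 : (S1.card : ℝ) ≤ Φ / 4 := by
    have h3 : (S1.card : ℝ) * ((M : ℝ) / 2) ≤ Φ / 4 * ((M : ℝ) / 2) := by
      refine le_trans b1 ?_
      nlinarith
    exact le_of_mul_le_mul_right h3 (by positivity)
  -- second bad sets
  let S2 : (Fin 4 → Fin b) → Finset (Fin M × Fin b → Fin N) := fun ι =>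
    (Finset.univ : Finset (Fin M × Fin b → Fin N)).filter fun f => ¬ P fun c => f (c.1, ι c.2)
  have c2 : ∀ ι : Fin 4 → Fin b, Function.Injective ι →
      ((S2 ι).card : ℝ) ≤ 1 / (4 * ((b : ℝ) ^ 4 + 1)) * Φ := by
    intro ι hι
    have h3 : ((S2 ι).card : ℝ) * (Fintype.card (Fin M × Fin 4 → Fin N) : ℝ)
        = (((Finset.univ : Finset (Fin M × Fin 4 → Fin N)).filter fun t => ¬ P t).card : ℝ) *
          Φ := by
      have h30 := push_unif (N := N) (M := M) ι hι (fun t => ¬ P t)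
      have h31 : S2 ι = (Finset.univ : Finset (Fin M × Fin b → Fin N)).filter fun f =>
        ¬ P fun c => f (c.1, ι c.2) := rfl
      rw [h31, hΦ]
      convert h30
    have h4 : ((S2 ι).card : ℝ) * (Fintype.card (Fin M × Fin 4 → Fin N) : ℝ)
        ≤ (1 / (4 * ((b : ℝ) ^ 4 + 1)) * Φ) * (Fintype.card (Fin M × Fin 4 → Fin N) : ℝ) := by
      refine le_trans (le_of_eq h3) ?_
      have := mul_le_mul_of_nonneg_right h2 hΦ0.le
      refine le_trans this (le_of_eq ?_)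
      ring
    exact le_of_mul_le_mul_right h4 hT0
  set S3 := ((Finset.univ : Finset (Fin 4 → Fin b)).filter Function.Injective).biUnion S2 with hS3
  have c3 : (S3.card : ℝ) ≤ Φ / 4 := by
    have h3 : (S3.card : ℝ) ≤
        ∑ ι ∈ (Finset.univ : Finset (Fin 4 → Fin b)).filter Function.Injective,
          ((S2 ι).card : ℝ) := by
      exact_mod_cast Finset.card_biUnion_le
    have h4 : ∑ ι ∈ (Finset.univ : Finset (Fin 4 → Fin b)).filter Function.Injective,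
          ((S2 ι).card : ℝ) ≤
        ∑ ι ∈ (Finset.univ : Finset (Fin 4 → Fin b)).filter Function.Injective,
          (1 / (4 * ((b : ℝ) ^ 4 + 1)) * Φ) :=
      Finset.sum_le_sum fun ι hι => c2 ι (Finset.mem_filter.1 hι).2
    rw [Finset.sum_const, nsmul_eq_mul] at h4
    have h5 : ((((Finset.univ : Finset (Fin 4 → Fin b)).filter Function.Injective).card : ℕ) : ℝ)
        ≤ (b : ℝ) ^ 4 := by
      have h6 : ((Finset.univ : Finset (Fin 4 → Fin b)).filter Function.Injective).card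
          ≤ b ^ 4 := by
        refine le_trans (Finset.card_filter_le _ _) ?_
        rw [Finset.card_univ, Fintype.card_fun, Fintype.card_fin, Fintype.card_fin]
      exact_mod_cast h6
    have h7 : (0 : ℝ) < (b : ℝ) ^ 4 + 1 := by positivity
    have h8 : (b : ℝ) ^ 4 * (1 / (4 * ((b : ℝ) ^ 4 + 1)) * Φ) ≤ Φ / 4 := by
      have h9 : (b : ℝ) ^ 4 * (1 / (4 * ((b : ℝ) ^ 4 + 1)) * Φ)
          = ((b : ℝ) ^ 4 / ((b : ℝ) ^ 4 + 1)) * (Φ / 4) := by
        field_simp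
      rw [h9]
      have h10 : (b : ℝ) ^ 4 / ((b : ℝ) ^ 4 + 1) ≤ 1 := by
        rw [div_le_one h7]
        linarith
      have h11 := mul_le_mul_of_nonneg_right h10 (by positivity : (0 : ℝ) ≤ Φ / 4)
      linarith
    have h12 : (0 : ℝ) ≤ 1 / (4 * ((b : ℝ) ^ 4 + 1)) * Φ := by positivity
    have h13 := mul_le_mul_of_nonneg_right h5 h12
    linarith
  have hex : ∃ f : Fin M × Fin b → Fin N, f ∉ S1 ∪ S3 := by
    by_contra hcon
    push Not at hcon
    have h3 : (Finset.univ : Finset (Fin M × Fin b → Fin N)).card ≤ (S1 ∪ S3).card :=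
      Finset.card_le_card fun f _ => hcon f
    have h4 : (S1 ∪ S3).card ≤ S1.card + S3.card := Finset.card_union_le _ _
    rw [Finset.card_univ] at h3
    have h5 : Φ ≤ (S1.card : ℝ) + (S3.card : ℝ) := by
      rw [hΦ]
      exact_mod_cast h3.trans h4
    linarith
  obtain ⟨f, hf⟩ := hex
  rw [Finset.mem_union, not_or] at hf
  obtain ⟨hf1, hf3⟩ := hf
  refine ⟨f, ?_, ?_⟩
  · rw [hS1, Finset.mem_filter, not_and] at hf1
    have h3 := hf1 (Finset.mem_univ f)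
    rw [not_lt] at h3
    have h4 : (2 : ℝ) * (((Finset.univ : Finset ((Fin 4 → Fin b × Fin N) ×
          (Fin 4 → Fin b × Fin N) ×
          (Fin 4 → Fin 4 → Fin M))).filter fun c => CrossK B f c).card : ℝ) ≤ (M : ℝ) := by
      linarith
    exact_mod_cast h4
  · intro ι hι
    by_contra hP
    apply hf3
    rw [hS3, Finset.mem_biUnion]
    exact ⟨ι, Finset.mem_filter.2 ⟨Finset.mem_univ _, hι⟩,
      Finset.mem_filter.2 ⟨Finset.mem_univ _, hP⟩⟩

/-- Host graphs. -/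
theorem host (r : ℕ) (hr : 0 < r) :
    ∃ b K h₀ : ℕ, ∀ h ≥ h₀, ∀ N : ℕ, N = h ^ 96 → ∃ G : SimpleGraph (Fin b × Fin N), K44Free G ∧
      ∀ χ : Sym2 (Fin b × Fin N) → Fin r, ∃ c : Fin r, ∀ n : ℕ, K * n ≤ N →
        ∀ H : SimpleGraph (Fin n), (∀ x, (H.neighborSet x).ncard ≤ 3) →
          ∃ φ : Fin n → Fin b × Fin N, Function.Injective φ ∧
            ∀ u w, H.Adj u w → G.Adj (φ u) (φ w) ∧ χ s(φ u, φ w) = c := by
  obtain ⟨b, B, hB33, hram⟩ := Pool.Agent.PUG.k33_ramsey r hr (⊤ : SimpleGraph (Fin 4)) RED_k4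
  have hram' : ∀ χ : Sym2 (Fin b) → Fin r, ∃ (i : Fin r) (g : Fin 4 → Fin b),
      Function.Injective g ∧ ∀ u w, u ≠ w → B.Adj (g u) (g w) ∧ χ s(g u, g w) = i := by
    intro χ
    obtain ⟨i, g, hg, h⟩ := hram χ
    exact ⟨i, g, hg, fun u w huw => h u w huw⟩
  have hb : 0 < b := by
    obtain ⟨i, g, hg, h⟩ := hram' fun _ => ⟨0, hr⟩
    exact lt_of_le_of_lt (Nat.zero_le _) (g 0).2
  have hb4 : (0 : ℝ) < (b : ℝ) ^ 4 := by positivity
  have hr1 : (1 : ℝ) ≤ (r : ℝ) := by exact_mod_cast hr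
  have hb1 : (1 : ℝ) ≤ (b : ℝ) ^ 4 := by
    have : (1 : ℝ) ≤ (b : ℝ) := by exact_mod_cast hb
    exact one_le_pow₀ this
  set γ : ℝ := 1 / (2 * (r : ℝ) * (b : ℝ) ^ 4) with hγ
  have hden : (0 : ℝ) < 2 * (r : ℝ) * (b : ℝ) ^ 4 := by positivity
  have hγ0 : 0 < γ := by rw [hγ]; positivity
  have hγ1 : γ ≤ 1 := by
    rw [hγ, div_le_one hden]
    nlinarith
  have hδ0 : (0 : ℝ) < 1 / (4 * ((b : ℝ) ^ 4 + 1)) := by positivity
  obtain ⟨K, h₁, htt⟩ := tt γ _ hγ0 hγ1 hδ0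
  obtain ⟨C, hC0, hkk⟩ := k44_count b B
  refine ⟨b, K, max (max h₁ 1) ⌈8 * C⌉₊, ?_⟩
  intro h hh N hN
  have hh1 : h₁ ≤ h := le_trans (le_trans (le_max_left _ _) (le_max_left _ _)) hh
  have hh2 : 1 ≤ h := le_trans (le_trans (le_max_right _ _) (le_max_left _ _)) hh
  have hh3 : 8 * C ≤ (h : ℝ) := le_trans (Nat.le_ceil _) (by exact_mod_cast le_trans (le_max_right _ _) hh)
  obtain ⟨M, hM⟩ : ∃ M : ℕ, M = h ^ 152 := ⟨_, rfl⟩
  have hN0 : 0 < N := by rw [hN]; exact Nat.pow_pos hh2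
  have hM0 : 0 < M := by rw [hM]; exact Nat.pow_pos hh2
  have hhr : (1 : ℝ) ≤ (h : ℝ) := by exact_mod_cast hh2
  have h1 := hkk (h ^ 8) N M (Nat.one_le_pow _ _ hh2) (by rw [hN, ← pow_mul]) (by
    rw [hM, ← pow_mul])
  have h2 := htt h hh1 N M hN hM
  have hCD : 8 * (C * (((h ^ 8 : ℕ) : ℝ)) ^ 16) ≤ (M : ℝ) := by
    rw [hM]
    push_cast
    have e1 : ((h : ℝ) ^ 8) ^ 16 = (h : ℝ) ^ 128 := by rw [← pow_mul]
    have e2 : (h : ℝ) ^ 152 = (h : ℝ) ^ 128 * (h : ℝ) ^ 24 := by rw [← pow_add]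
    rw [e1, e2]
    have e3 : (h : ℝ) ≤ (h : ℝ) ^ 24 := by
      calc (h : ℝ) = (h : ℝ) ^ 1 := (pow_one _).symm
        _ ≤ (h : ℝ) ^ 24 := pow_le_pow_right₀ hhr (by norm_num)
    have e4 : (0 : ℝ) ≤ (h : ℝ) ^ 128 := by positivity
    have e5 : 8 * C ≤ (h : ℝ) ^ 24 := hh3.trans e3
    have e6 := mul_le_mul_of_nonneg_left e5 e4
    linarith
  obtain ⟨f, hf1, hf2⟩ := RED_good B hN0 hM0 _ hCD h1
    (fun t => ∀ L0 : Finset (Fin M), γ * (M : ℝ) ≤ (L0.card : ℝ) →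
            ∀ n : ℕ, K * n ≤ N → UnivP t L0 n) _ h2
  obtain ⟨𝒢, hG1, hG2⟩ := host_del B f
  refine ⟨hostG B f 𝒢, host_free B hB33 f 𝒢 hG2, ?_⟩
  intro χ
  obtain ⟨i, g, L0, hg, hL0, hcard, hadj, hcol⟩ := host_pigeon B hr hram' f 𝒢 χ
  refine ⟨i, ?_⟩
  intro n hn H hH
  have hdens : γ * (M : ℝ) ≤ (L0.card : ℝ) := by
    have e1 : M ≤ 2 * (r * b ^ 4 * L0.card) := by
      have e0 : M ≤ 2 * 𝒢.card := by omega
      exact e0.trans (Nat.mul_le_mul_left 2 hcard)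
    have e2 : (M : ℝ) ≤ 2 * ((r : ℝ) * (b : ℝ) ^ 4 * (L0.card : ℝ)) := by exact_mod_cast e1
    rw [hγ, one_div, inv_mul_le_iff₀ hden]
    linarith
  obtain ⟨ψ, hψ1, hψ2⟩ := hf2 g hg L0 hdens n hn H hH
  refine ⟨fun u => (g (ψ u).1, (ψ u).2), ?_, ?_⟩
  · intro u w huw
    have h3 := Prod.mk.inj huw
    exact hψ1 (Prod.ext (hg h3.1) h3.2)
  · intro u w huw
    obtain ⟨hne, k, hk, e1, e2⟩ := hψ2 u w huw
    refine ⟨⟨hadj _ _ hne, k, hL0 hk, e1, e2⟩, ?_⟩
    have h4 := hcol k hk _ _ hne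
    change f (k, g (ψ u).1) = (ψ u).2 at e1
    change f (k, g (ψ w).1) = (ψ w).2 at e2
    rw [e1, e2] at h4
    exact h4

end Pool.Agent.CUB
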