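import Pool.Agent.CUB.CRA

set_option autoImplicit false

/-!
# CUB.TOTP

Proof. `∑_t Gcnt t pos F univ ρ ≤ N^v M^{|F|} N^{-2|F|} |all t|` (for injective `λ` the `2|F|` cells are
distinct, by `PosD`) `= h^{96v - 40|F|} |all t|`. Markov and the union over the `2^{v²}` sets `F`
(`Gcnt` with `B = univ` does not depend on `ρ`): `K₁ = 2^{v²}/δ`.
-/

namespace Pool.Agent.CUB

open scoped Classical

/-- The pairs (configuration, assignment) consistent with a fixed choice of blocks. -/
private theorem tot_core {v N M : ℕ} (pos : Fin v → Fin 4) (F : Finset (Fin v × Fin v))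
    (hpos : PosD pos F) (lam : ↥F → Fin M) (hlam : Function.Injective lam)
    (Q : Finset ((Fin M × Fin 4 → Fin N) × (Fin v → Fin N)))
    (hQ : ∀ p ∈ Q, ∀ e : ↥F,
      p.1 (lam e, pos e.1.1) = p.2 e.1.1 ∧ p.1 (lam e, pos e.1.2) = p.2 e.1.2) :
    Q.card * N ^ (2 * F.card) ≤ N ^ v * N ^ (M * 4) := by
  set D1 : Finset (Fin M × Fin 4) :=
    (Finset.univ : Finset ↥F).image fun e => (lam e, pos e.1.1) with hD1
  set D2 : Finset (Fin M × Fin 4) :=
    (Finset.univ : Finset ↥F).image fun e => (lam e, pos e.1.2) with hD2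
  have hF : (Finset.univ : Finset ↥F).card = F.card := by
    rw [Finset.card_univ, Fintype.card_coe]
  have hc1 : D1.card = F.card := by
    rw [hD1, ← hF]
    apply Finset.card_image_of_injective
    intro e e' hee
    exact hlam (Prod.mk.inj hee).1
  have hc2 : D2.card = F.card := by
    rw [hD2, ← hF]
    apply Finset.card_image_of_injective
    intro e e' hee
    exact hlam (Prod.mk.inj hee).1
  have hdis : Disjoint D1 D2 := by
    rw [Finset.disjoint_left]
    intro c hc hc'
    rw [hD1, Finset.mem_image] at hc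
    rw [hD2, Finset.mem_image] at hc'
    obtain ⟨e, -, rfl⟩ := hc
    obtain ⟨e', -, he'⟩ := hc'
    have h2 := Prod.mk.inj he'
    have h3 : e' = e := hlam h2.1
    subst h3
    exact hpos _ e'.2 h2.2.symm
  have hDcard : (D1 ∪ D2).card = 2 * F.card := by
    rw [Finset.card_union_of_disjoint hdis, hc1, hc2]; ring
  have hCcard : ((Finset.univ : Finset (Fin M × Fin 4)) \ (D1 ∪ D2)).card + 2 * F.card = M * 4 := by
    rw [← hDcard, Finset.card_sdiff_add_card_eq_card (Finset.subset_univ _), Finset.card_univ,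
      Fintype.card_prod, Fintype.card_fin, Fintype.card_fin]
  have hQcard : Q.card ≤ N ^ ((Finset.univ : Finset (Fin M × Fin 4)) \ (D1 ∪ D2)).card * N ^ v := by
    have h2 : Q.card ≤ (Finset.univ : Finset
        ((↥((Finset.univ : Finset (Fin M × Fin 4)) \ (D1 ∪ D2)) → Fin N) × (Fin v → Fin N))).card := by
      apply Finset.card_le_card_of_injOn (fun p => ((fun c => p.1 c.1), p.2))
      · intro p _; exact Finset.mem_coe.2 (Finset.mem_univ _)
      · intro p hp q hq hpq
        have hp' := hQ p (Finset.mem_coe.1 hp)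
        have hq' := hQ q (Finset.mem_coe.1 hq)
        have e1 := (Prod.mk.inj hpq).1
        have e2 : p.2 = q.2 := (Prod.mk.inj hpq).2
        refine Prod.ext ?_ e2
        funext c
        by_cases hcD : c ∈ D1 ∪ D2
        · rw [Finset.mem_union, hD1, hD2, Finset.mem_image, Finset.mem_image] at hcD
          rcases hcD with ⟨e, -, rfl⟩ | ⟨e, -, rfl⟩
          · rw [(hp' e).1, (hq' e).1, e2]
          · rw [(hp' e).2, (hq' e).2, e2]
        · exact congrFun e1 ⟨c, Finset.mem_sdiff.2 ⟨Finset.mem_univ _, hcD⟩⟩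
    refine h2.trans (le_of_eq ?_)
    rw [Finset.card_univ, Fintype.card_prod, Fintype.card_fun, Fintype.card_fun, Fintype.card_coe,
      Fintype.card_fin, Fintype.card_fin]
  calc Q.card * N ^ (2 * F.card)
      ≤ N ^ ((Finset.univ : Finset (Fin M × Fin 4)) \ (D1 ∪ D2)).card * N ^ v * N ^ (2 * F.card) :=
        Nat.mul_le_mul_right _ hQcard
    _ = N ^ v * N ^ (((Finset.univ : Finset (Fin M × Fin 4)) \ (D1 ∪ D2)).card + 2 * F.card) := by
        rw [pow_add]; ring
    _ = N ^ v * N ^ (M * 4) := by rw [hCcard]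

/-- The count without roots. -/
private noncomputable def g0 {v N M : ℕ} (pos : Fin v → Fin 4) (F : Finset (Fin v × Fin v))
    (t : Fin M × Fin 4 → Fin N) : ℕ :=
  ((Finset.univ : Finset ((Fin v → Fin N) × (↥F → Fin M))).filter fun p =>
    Function.Injective p.2 ∧
      ∀ e : ↥F, t (p.2 e, pos e.1.1) = p.1 e.1.1 ∧ t (p.2 e, pos e.1.2) = p.1 e.1.2).card

private theorem gcnt_eq {v N M : ℕ} (pos : Fin v → Fin 4) (F : Finset (Fin v × Fin v))
    (t : Fin M × Fin 4 → Fin N) (ρ : Fin v → Fin N) :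
    Gcnt t pos F Finset.univ ρ = g0 pos F t := by
  unfold Gcnt g0
  congr 1
  apply Finset.filter_congr
  intro p _
  constructor
  · rintro ⟨-, h2⟩; exact h2
  · intro h2; exact ⟨fun i hi => absurd (Finset.mem_univ i) hi, h2⟩

private theorem sum_le {v N M : ℕ} (pos : Fin v → Fin 4) (F : Finset (Fin v × Fin v))
    (hpos : PosD pos F) :
    (∑ t : Fin M × Fin 4 → Fin N, g0 pos F t) * N ^ (2 * F.card)
      ≤ M ^ F.card * (N ^ v * N ^ (M * 4)) := by
  have h1 : (∑ t : Fin M × Fin 4 → Fin N, g0 pos F t) =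
      ∑ lam : ↥F → Fin M, ((Finset.univ : Finset ((Fin M × Fin 4 → Fin N) × (Fin v → Fin N))).filter
        fun p => Function.Injective lam ∧
          ∀ e : ↥F, p.1 (lam e, pos e.1.1) = p.2 e.1.1 ∧ p.1 (lam e, pos e.1.2) = p.2 e.1.2).card := by
    unfold g0
    simp only [Finset.card_filter, Fintype.sum_prod_type]
    rw [Finset.sum_congr rfl (fun t _ => Finset.sum_comm), Finset.sum_comm]
  rw [h1, Finset.sum_mul]
  have h2 : ∀ lam ∈ (Finset.univ : Finset (↥F → Fin M)),
      ((Finset.univ : Finset ((Fin M × Fin 4 → Fin N) × (Fin v → Fin N))).filter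
        fun p => Function.Injective lam ∧
          ∀ e : ↥F, p.1 (lam e, pos e.1.1) = p.2 e.1.1 ∧
            p.1 (lam e, pos e.1.2) = p.2 e.1.2).card * N ^ (2 * F.card)
        ≤ N ^ v * N ^ (M * 4) := by
    intro lam _
    by_cases hlam : Function.Injective lam
    · apply tot_core pos F hpos lam hlam
      intro p hp
      exact (Finset.mem_filter.1 hp).2.2
    · have h0 : ((Finset.univ : Finset ((Fin M × Fin 4 → Fin N) × (Fin v → Fin N))).filter
          fun p => Function.Injective lam ∧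
            ∀ e : ↥F, p.1 (lam e, pos e.1.1) = p.2 e.1.1 ∧
              p.1 (lam e, pos e.1.2) = p.2 e.1.2) = ∅ := by
        apply Finset.filter_false_of_mem
        intro p _ hp
        exact hlam hp.1
      rw [h0, Finset.card_empty, zero_mul]
      exact Nat.zero_le _
  refine (Finset.sum_le_card_nsmul _ _ _ h2).trans (le_of_eq ?_)
  rw [Finset.card_univ, Fintype.card_fun, Fintype.card_fin, Fintype.card_coe, smul_eq_mul]

theorem tot_prob (v : ℕ) (pos : Fin v → Fin 4) (δ : ℝ) (hδ : 0 < δ) :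
    ∃ K₁ : ℝ, 0 < K₁ ∧ ∀ h : ℕ, 1 ≤ h → ∀ N M : ℕ, N = h ^ 96 → M = h ^ 152 →
      (((Finset.univ : Finset (Fin M × Fin 4 → Fin N)).filter fun t => ¬ TOT h K₁ t pos).card : ℝ)
        ≤ δ * (Fintype.card (Fin M × Fin 4 → Fin N) : ℝ) := by
  refine ⟨2 ^ (v * v) / δ, by positivity, ?_⟩
  intro h hh N M hN hM
  have hh0 : (0:ℝ) < (h : ℝ) := by exact_mod_cast hh
  have hN0 : (0:ℝ) < (N : ℝ) := by rw [hN]; positivity
  set T : ℝ := (Fintype.card (Fin M × Fin 4 → Fin N) : ℝ) with hT
  have hTe : T = (N : ℝ) ^ (M * 4) := by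
    rw [hT, Fintype.card_fun, Fintype.card_prod, Fintype.card_fin, Fintype.card_fin,
      Fintype.card_fin]
    push_cast
    rfl
  set bad : Finset (Fin v × Fin v) → Finset (Fin M × Fin 4 → Fin N) := fun F =>
    (Finset.univ : Finset (Fin M × Fin 4 → Fin N)).filter fun t => PosD pos F ∧
      2 ^ (v * v) / δ * ((h : ℝ) ^ (96 * v) / (h : ℝ) ^ (40 * F.card)) < (g0 pos F t : ℝ) with hbad
  have hsub : ((Finset.univ : Finset (Fin M × Fin 4 → Fin N)).filter
      fun t => ¬ TOT h (2 ^ (v * v) / δ) t pos) ⊆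
        (Finset.univ : Finset (Finset (Fin v × Fin v))).biUnion bad := by
    intro t ht
    rw [Finset.mem_filter] at ht
    have h2 := ht.2
    unfold TOT at h2
    push Not at h2
    obtain ⟨F, ρ, hF, hlt⟩ := h2
    rw [Finset.mem_biUnion]
    refine ⟨F, Finset.mem_univ _, ?_⟩
    rw [hbad, Finset.mem_filter]
    rw [gcnt_eq] at hlt
    exact ⟨Finset.mem_univ _, hF, hlt⟩
  have hb : ∀ F : Finset (Fin v × Fin v), ((bad F).card : ℝ) ≤ δ / 2 ^ (v * v) * T := by
    intro F
    by_cases hF : PosD pos F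
    · set X : ℝ := (h : ℝ) ^ (96 * v) / (h : ℝ) ^ (40 * F.card) with hX
      have hX0 : 0 < X := by positivity
      have hK0 : (0:ℝ) < 2 ^ (v * v) / δ := by positivity
      have h1 : ((bad F).card : ℝ) * (2 ^ (v * v) / δ * X)
          ≤ ((∑ t : Fin M × Fin 4 → Fin N, g0 pos F t : ℕ) : ℝ) := by
        rw [← nsmul_eq_mul]
        refine (Finset.card_nsmul_le_sum (bad F) (fun t => (g0 pos F t : ℝ)) _ ?_).trans ?_
        · intro t ht
          rw [hbad, Finset.mem_filter] at ht
          exact ht.2.2.le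
        · push_cast
          exact Finset.sum_le_sum_of_subset_of_nonneg (Finset.subset_univ _)
            (fun t _ _ => by positivity)
      have h2 : ((∑ t : Fin M × Fin 4 → Fin N, g0 pos F t : ℕ) : ℝ) * (N : ℝ) ^ (2 * F.card)
          ≤ (M : ℝ) ^ F.card * ((N : ℝ) ^ v * T) := by
        rw [hTe]
        exact_mod_cast sum_le (N := N) (M := M) pos F hF
      have h3 : (M : ℝ) ^ F.card * ((N : ℝ) ^ v * T) = X * T * (N : ℝ) ^ (2 * F.card) := by
        rw [hX, hN, hM]
        push_cast
        rw [← pow_mul, ← pow_mul, ← pow_mul]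
        have h4 : (h : ℝ) ^ (96 * (2 * F.card)) = (h : ℝ) ^ (40 * F.card) * (h : ℝ) ^ (152 * F.card) := by
          rw [← pow_add]; congr 1; ring
        rw [h4]
        field_simp
      have h5 : ((∑ t : Fin M × Fin 4 → Fin N, g0 pos F t : ℕ) : ℝ) ≤ X * T := by
        rw [h3] at h2
        exact le_of_mul_le_mul_right h2 (by positivity)
      have h6 : ((bad F).card : ℝ) * (2 ^ (v * v) / δ) ≤ T := by
        have h7 : ((bad F).card : ℝ) * (2 ^ (v * v) / δ) * X ≤ T * X := by
          calc ((bad F).card : ℝ) * (2 ^ (v * v) / δ) * X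
              = ((bad F).card : ℝ) * (2 ^ (v * v) / δ * X) := by ring
            _ ≤ X * T := h1.trans h5
            _ = T * X := by ring
        exact le_of_mul_le_mul_right h7 hX0
      calc ((bad F).card : ℝ) = ((bad F).card : ℝ) * (2 ^ (v * v) / δ) * (δ / 2 ^ (v * v)) := by
            field_simp
        _ ≤ T * (δ / 2 ^ (v * v)) := mul_le_mul_of_nonneg_right h6 (by positivity)
        _ = δ / 2 ^ (v * v) * T := by ring
    · have h0 : bad F = ∅ := by
        rw [hbad]
        apply Finset.filter_false_of_mem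
        intro t _ ht
        exact hF ht.1
      rw [h0, Finset.card_empty, Nat.cast_zero]
      have : (0:ℝ) ≤ T := by rw [hT]; positivity
      positivity
  have hcF : ((Finset.univ : Finset (Finset (Fin v × Fin v))).card : ℝ) = 2 ^ (v * v) := by
    rw [Finset.card_univ, Fintype.card_finset, Fintype.card_prod, Fintype.card_fin]
    push_cast
    rfl
  calc (((Finset.univ : Finset (Fin M × Fin 4 → Fin N)).filter
        fun t => ¬ TOT h (2 ^ (v * v) / δ) t pos).card : ℝ)
      ≤ (((Finset.univ : Finset (Finset (Fin v × Fin v))).biUnion bad).card : ℝ) := by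
        exact_mod_cast Finset.card_le_card hsub
    _ ≤ ((∑ F : Finset (Fin v × Fin v), (bad F).card : ℕ) : ℝ) := by
        exact_mod_cast Finset.card_biUnion_le
    _ = ∑ F : Finset (Fin v × Fin v), ((bad F).card : ℝ) := by push_cast; rfl
    _ ≤ ∑ _F : Finset (Fin v × Fin v), δ / 2 ^ (v * v) * T := Finset.sum_le_sum fun F _ => hb F
    _ = δ * T := by
        rw [Finset.sum_const, nsmul_eq_mul, hcF]
        field_simp

end Pool.Agent.CUB
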