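import Pool.Agent.CUB.Defs
import Pool.Agent.PUG.TAIL

set_option autoImplicit false

/-!
# CUB.UUP

Proof. `Pool.Agent.PUG.tail_up` (file Pool/Agent/PUG/TAIL.lean, already in the repository) with
`Y = Fin 4 → Fin N`, `κ = Fin M` (curry `Fin M × Fin 4 → Fin N`). uu: `T = piFinset X`,
`s = 8 M ∏ |X a|/N ≥ 8 κ₁³ h^{97}` (`|X a₀|/N ≥ h^{-55}`, others `≥ κ₁`; WLOG `κ₁ ≤ 1`), union over the
`≤ 4·2^{4N}` choices of `(X, a₀)`, `N = h^96`. (`κ₁ > 1`: no box satisfies the hypothesis once N > 0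
... then there is nothing to show.) deg: `T = {y : y a = x}`, `s = 8 h^56`.
-/

namespace Pool.Agent.CUB

open scoped Classical

private theorem uup_union {Ω ι : Type} [Fintype Ω] [Fintype ι] (P : Ω → Prop) (Q : ι → Ω → Prop)
    [DecidablePred P] [∀ i, DecidablePred (Q i)] (c : ℝ) (hPQ : ∀ ω, P ω → ∃ i, Q i ω)
    (hQ : ∀ i, (((Finset.univ : Finset Ω).filter (Q i)).card : ℝ) ≤ c) :
    (((Finset.univ : Finset Ω).filter P).card : ℝ) ≤ (Fintype.card ι : ℝ) * c := by
  have h1 : (Finset.univ : Finset Ω).filter P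
      ⊆ (Finset.univ : Finset ι).biUnion (fun i => (Finset.univ : Finset Ω).filter (Q i)) := by
    intro ω hω
    rw [Finset.mem_filter] at hω
    obtain ⟨i, hi⟩ := hPQ ω hω.2
    rw [Finset.mem_biUnion]
    exact ⟨i, Finset.mem_univ _, by rw [Finset.mem_filter]; exact ⟨Finset.mem_univ _, hi⟩⟩
  have h2 : ((Finset.univ : Finset Ω).filter P).card
      ≤ ∑ i : ι, ((Finset.univ : Finset Ω).filter (Q i)).card :=
    (Finset.card_le_card h1).trans Finset.card_biUnion_le
  calc (((Finset.univ : Finset Ω).filter P).card : ℝ)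
      ≤ ((∑ i : ι, ((Finset.univ : Finset Ω).filter (Q i)).card : ℕ) : ℝ) := by exact_mod_cast h2
    _ = ∑ i : ι, (((Finset.univ : Finset Ω).filter (Q i)).card : ℝ) := by push_cast; rfl
    _ ≤ ∑ _i : ι, c := Finset.sum_le_sum fun i _ => hQ i
    _ = (Fintype.card ι : ℝ) * c := by rw [Finset.sum_const, Finset.card_univ, nsmul_eq_mul]

/-- The tail bound in the form used here. -/
private theorem uup_tail {N M : ℕ} (T : Finset (Fin 4 → Fin N)) (s : ℝ)
    (hs : 8 * (M : ℝ) * T.card ≤ s * (N : ℝ) ^ 4) :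
    (((Finset.univ : Finset (Fin M × Fin 4 → Fin N)).filter fun t =>
        s ≤ (((Finset.univ : Finset (Fin M)).filter fun i => (fun a => t (i, a)) ∈ T).card : ℝ)).card : ℝ)
      ≤ Real.exp (-s) * (Fintype.card (Fin M × Fin 4 → Fin N) : ℝ) := by
  have hY : (Fintype.card (Fin 4 → Fin N) : ℝ) = (N : ℝ) ^ 4 := by
    rw [Fintype.card_fun]; simp
  have hK : (Fintype.card (Fin M) : ℝ) = (M : ℝ) := by simp
  have h1 : (((Finset.univ : Finset (Fin M → Fin 4 → Fin N)).filter fun f =>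
      s ≤ (((Finset.univ : Finset (Fin M)).filter fun k => f k ∈ T).card : ℝ)).card : ℝ)
      ≤ Real.exp (-s) * (Fintype.card (Fin 4 → Fin N) : ℝ) ^ (Fintype.card (Fin M)) := by
    have h0 := Pool.Agent.PUG.tail_up (Y := Fin 4 → Fin N) (κ := Fin M) T s (by
      have hY' : ∀ (i : Fintype (Fin 4 → Fin N)), (@Fintype.card _ i : ℝ) = (N : ℝ) ^ 4 := by
        intro i
        rw [← hY]
        congr 1
        exact congrArg (fun z => @Fintype.card _ z) (Subsingleton.elim _ _)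
      rw [hY', hK]; exact hs)
    refine le_trans (le_of_eq ?_) (le_trans h0 (le_of_eq ?_))
    · congr 2
      ext f
      simp only [Finset.mem_filter, Finset.mem_univ, true_and]
      refine iff_of_eq (congrArg (fun c : ℕ => s ≤ (c : ℝ)) ?_)
      refine congrArg Finset.card ?_
      ext k
      simp only [Finset.mem_filter, Finset.mem_univ, true_and]
    · congr 3
  have h2 : (Fintype.card (Fin M × Fin 4 → Fin N) : ℝ)
      = (Fintype.card (Fin 4 → Fin N) : ℝ) ^ (Fintype.card (Fin M)) := by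
    rw [← Nat.cast_pow, ← Fintype.card_fun]
    exact_mod_cast Fintype.card_congr (Equiv.curry (Fin M) (Fin 4) (Fin N))
  rw [h2]
  refine le_trans (le_of_eq ?_) h1
  norm_cast
  refine Finset.card_bij (fun t _ => Equiv.curry (Fin M) (Fin 4) (Fin N) t) ?_ ?_ ?_
  · intro t ht
    rw [Finset.mem_filter] at ht ⊢
    exact ⟨Finset.mem_univ _, ht.2⟩
  · intro t _ t' _ h
    exact (Equiv.curry (Fin M) (Fin 4) (Fin N)).injective h
  · intro f hf
    refine ⟨(Equiv.curry (Fin M) (Fin 4) (Fin N)).symm f, ?_, Equiv.apply_symm_apply _ _⟩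
    rw [Finset.mem_filter] at hf ⊢
    refine ⟨Finset.mem_univ _, ?_⟩
    convert hf.2
    rfl

private theorem uup_two_pow (n : ℕ) : (2 : ℝ) ^ n ≤ Real.exp (n : ℝ) := by
  have h2 : (2 : ℝ) ≤ Real.exp 1 := by
    have := Real.add_one_le_exp (1 : ℝ); linarith
  calc (2 : ℝ) ^ n ≤ (Real.exp 1) ^ n := pow_le_pow_left₀ (by norm_num) h2 n
    _ = Real.exp (n : ℝ) := by rw [← Real.exp_nat_mul, mul_one]

theorem uu_prob (κ₁ δ : ℝ) (hκ : 0 < κ₁) (hδ : 0 < δ) :
    ∃ h₀ : ℕ, ∀ h ≥ h₀, ∀ N M : ℕ, N = h ^ 96 → M = h ^ 152 →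
      (((Finset.univ : Finset (Fin M × Fin 4 → Fin N)).filter fun t => ¬ UU h κ₁ t).card : ℝ)
        ≤ δ * (Fintype.card (Fin M × Fin 4 → Fin N) : ℝ) := by
  obtain ⟨h₁, hh₁⟩ := exists_nat_ge (1 / κ₁ ^ 3)
  obtain ⟨h₂, hh₂⟩ := exists_nat_ge (2 - Real.log δ)
  refine ⟨max 1 (max h₁ h₂), ?_⟩
  intro h hh N M hN hM
  have hh0 : 1 ≤ h := le_trans (le_max_left _ _) hh
  have hh1' : h₁ ≤ h := le_trans (le_trans (le_max_left _ _) (le_max_right _ _)) hh
  have hh2' : h₂ ≤ h := le_trans (le_trans (le_max_right _ _) (le_max_right _ _)) hh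
  have hhr : (1 : ℝ) ≤ (h : ℝ) := by exact_mod_cast hh0
  have hhpos : (0 : ℝ) < (h : ℝ) := by linarith
  have hNr : (N : ℝ) = (h : ℝ) ^ 96 := by rw [hN]; push_cast; rfl
  have hMr : (M : ℝ) = (h : ℝ) ^ 152 := by rw [hM]; push_cast; rfl
  have hNpos : (0 : ℝ) < (N : ℝ) := by rw [hNr]; positivity
  have hMpos : (0 : ℝ) < (M : ℝ) := by rw [hMr]; positivity
  have hκh : 1 ≤ κ₁ ^ 3 * (h : ℝ) := by
    have h3 : 1 / κ₁ ^ 3 ≤ (h : ℝ) := hh₁.trans (by exact_mod_cast hh1')
    have h4 : 0 < κ₁ ^ 3 := by positivity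
    rw [div_le_iff₀ h4] at h3
    linarith
  -- the bound for one box
  let Q : ((Fin 4 → Finset (Fin N)) × Fin 4) → (Fin M × Fin 4 → Fin N) → Prop := fun z t =>
    N ≤ h ^ 55 * (z.1 z.2).card ∧ (∀ a, a ≠ z.2 → κ₁ * (N : ℝ) ≤ ((z.1 a).card : ℝ)) ∧
      8 * (M : ℝ) * ∏ a, (((z.1 a).card : ℝ) / (N : ℝ))
        < (((Finset.univ : Finset (Fin M)).filter fun i => ∀ a, t (i, a) ∈ z.1 a).card : ℝ)
  have hT : (0 : ℝ) ≤ (Fintype.card (Fin M × Fin 4 → Fin N) : ℝ) := Nat.cast_nonneg _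
  have key := uup_union (Ω := Fin M × Fin 4 → Fin N) (ι := (Fin 4 → Finset (Fin N)) × Fin 4)
    (fun t => ¬ UU h κ₁ t) Q
    (Real.exp (-(8 * (h : ℝ) ^ 96)) * (Fintype.card (Fin M × Fin 4 → Fin N) : ℝ)) ?_ ?_
  · refine key.trans ?_
    have hc : (Fintype.card ((Fin 4 → Finset (Fin N)) × Fin 4) : ℝ) ≤ Real.exp (4 * (h : ℝ) ^ 96 + 2) := by
      have h5 : Fintype.card ((Fin 4 → Finset (Fin N)) × Fin 4) = 2 ^ (4 * N + 2) := by
        rw [Fintype.card_prod, Fintype.card_fun, Fintype.card_finset, Fintype.card_fin,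
          Fintype.card_fin, ← pow_mul, pow_add, mul_comm N 4]
        norm_num
      rw [h5]
      have h6 := uup_two_pow (4 * N + 2)
      push_cast at h6 ⊢
      rw [hNr] at h6
      exact h6
    have hfin : Real.exp (4 * (h : ℝ) ^ 96 + 2) * Real.exp (-(8 * (h : ℝ) ^ 96)) ≤ δ := by
      rw [← Real.exp_add]
      have h7 : 4 * (h : ℝ) ^ 96 + 2 + -(8 * (h : ℝ) ^ 96) ≤ Real.log δ := by
        have h8 : (h : ℝ) ≤ (h : ℝ) ^ 96 := le_self_pow₀ hhr (by norm_num)
        have h9 : 2 - Real.log δ ≤ (h : ℝ) := hh₂.trans (by exact_mod_cast hh2')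
        linarith
      calc Real.exp (4 * (h : ℝ) ^ 96 + 2 + -(8 * (h : ℝ) ^ 96)) ≤ Real.exp (Real.log δ) :=
            Real.exp_le_exp.mpr h7
        _ = δ := Real.exp_log hδ
    calc (Fintype.card ((Fin 4 → Finset (Fin N)) × Fin 4) : ℝ)
          * (Real.exp (-(8 * (h : ℝ) ^ 96)) * (Fintype.card (Fin M × Fin 4 → Fin N) : ℝ))
        ≤ Real.exp (4 * (h : ℝ) ^ 96 + 2)
          * (Real.exp (-(8 * (h : ℝ) ^ 96)) * (Fintype.card (Fin M × Fin 4 → Fin N) : ℝ)) :=
          mul_le_mul_of_nonneg_right hc (by positivity)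
      _ = (Real.exp (4 * (h : ℝ) ^ 96 + 2) * Real.exp (-(8 * (h : ℝ) ^ 96)))
          * (Fintype.card (Fin M × Fin 4 → Fin N) : ℝ) := by ring
      _ ≤ δ * (Fintype.card (Fin M × Fin 4 → Fin N) : ℝ) := mul_le_mul_of_nonneg_right hfin hT
  · intro t ht
    unfold UU at ht
    push Not at ht
    obtain ⟨X, a₀, h1, h2, h3⟩ := ht
    exact ⟨(X, a₀), h1, h2, h3⟩
  · rintro ⟨X, a₀⟩
    by_cases hX : N ≤ h ^ 55 * (X a₀).card ∧ (∀ a, a ≠ a₀ → κ₁ * (N : ℝ) ≤ ((X a).card : ℝ))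
    · obtain ⟨hX1, hX2⟩ := hX
      have hs0 : 8 * (h : ℝ) ^ 96 ≤ 8 * (M : ℝ) * ∏ a, (((X a).card : ℝ) / (N : ℝ)) := by
        have hb : ∀ a, (if a = a₀ then 1 / (h : ℝ) ^ 55 else κ₁) ≤ ((X a).card : ℝ) / (N : ℝ) := by
          intro a
          by_cases ha : a = a₀
          · subst ha
            rw [if_pos rfl, div_le_div_iff₀ (by positivity) hNpos, one_mul]
            have : (N : ℝ) ≤ ((h ^ 55 * (X a).card : ℕ) : ℝ) := by exact_mod_cast hX1
            push_cast at this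
            linarith
          · rw [if_neg ha, le_div_iff₀ hNpos]
            exact hX2 a ha
        have hp : ∏ a : Fin 4, (if a = a₀ then 1 / (h : ℝ) ^ 55 else κ₁)
            ≤ ∏ a, (((X a).card : ℝ) / (N : ℝ)) := by
          refine Finset.prod_le_prod ?_ (fun a _ => hb a)
          intro a _
          split_ifs <;> positivity
        have hq : ∏ a : Fin 4, (if a = a₀ then 1 / (h : ℝ) ^ 55 else κ₁)
            = 1 / (h : ℝ) ^ 55 * κ₁ ^ 3 := by
          fin_cases a₀ <;> simp [Fin.prod_univ_four] <;> ring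
        rw [hq] at hp
        have h152 : (M : ℝ) * (1 / (h : ℝ) ^ 55) = (h : ℝ) ^ 96 * (h : ℝ) := by
          rw [hMr]
          field_simp
        calc 8 * (h : ℝ) ^ 96 = 8 * (h : ℝ) ^ 96 * 1 := by ring
          _ ≤ 8 * (h : ℝ) ^ 96 * (κ₁ ^ 3 * (h : ℝ)) :=
              mul_le_mul_of_nonneg_left hκh (by positivity)
          _ = 8 * ((M : ℝ) * (1 / (h : ℝ) ^ 55)) * κ₁ ^ 3 := by rw [h152]; ring
          _ = 8 * (M : ℝ) * (1 / (h : ℝ) ^ 55 * κ₁ ^ 3) := by ring
          _ ≤ _ := mul_le_mul_of_nonneg_left hp (by positivity)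
      have h10 := uup_tail (N := N) (M := M) (Fintype.piFinset X)
        (8 * (M : ℝ) * ∏ a, (((X a).card : ℝ) / (N : ℝ))) (by
          rw [Fintype.card_piFinset]
          push_cast
          rw [Finset.prod_div_distrib]
          simp only [Finset.prod_const, Finset.card_univ, Fintype.card_fin]
          rw [mul_div_assoc', div_mul_cancel₀]
          positivity)
      refine le_trans ?_ (le_trans h10 ?_)
      · refine Nat.cast_le.mpr (Finset.card_le_card ?_)
        intro t ht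
        rw [Finset.mem_filter] at ht ⊢
        refine ⟨Finset.mem_univ _, ?_⟩
        have h11 := ht.2.2.2
        refine le_trans h11.le (le_of_eq ?_)
        congr 2
        ext i
        simp [Fintype.mem_piFinset]
      · exact mul_le_mul_of_nonneg_right (Real.exp_le_exp.mpr (by linarith)) hT
    · have : ((Finset.univ : Finset (Fin M × Fin 4 → Fin N)).filter (Q (X, a₀))) = ∅ := by
        rw [Finset.filter_eq_empty_iff]
        intro t _ ht
        exact hX ⟨ht.1, ht.2.1⟩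
      rw [this]
      simp only [Finset.card_empty, Nat.cast_zero]
      positivity

theorem deg_prob (δ : ℝ) (hδ : 0 < δ) :
    ∃ h₀ : ℕ, ∀ h ≥ h₀, ∀ N M : ℕ, N = h ^ 96 → M = h ^ 152 →
      (((Finset.univ : Finset (Fin M × Fin 4 → Fin N)).filter fun t => ¬ DEG h t).card : ℝ)
        ≤ δ * (Fintype.card (Fin M × Fin 4 → Fin N) : ℝ) := by
  obtain ⟨h₁, hh₁⟩ := exists_nat_ge (8 / δ)
  refine ⟨max 1 h₁, ?_⟩
  intro h hh N M hN hM
  have hh0 : 1 ≤ h := le_trans (le_max_left _ _) hh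
  have hh1' : h₁ ≤ h := le_trans (le_max_right _ _) hh
  have hhr : (1 : ℝ) ≤ (h : ℝ) := by exact_mod_cast hh0
  have hhpos : (0 : ℝ) < (h : ℝ) := by linarith
  have hNr : (N : ℝ) = (h : ℝ) ^ 96 := by rw [hN]; push_cast; rfl
  have hMr : (M : ℝ) = (h : ℝ) ^ 152 := by rw [hM]; push_cast; rfl
  have hT : (0 : ℝ) ≤ (Fintype.card (Fin M × Fin 4 → Fin N) : ℝ) := Nat.cast_nonneg _
  let Q : (Fin 4 × Fin N) → (Fin M × Fin 4 → Fin N) → Prop := fun z t =>
    8 * (h : ℝ) ^ 56 ≤ (((Finset.univ : Finset (Fin M)).filter fun i =>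
      (fun a => t (i, a)) ∈ (Finset.univ.filter fun y : Fin 4 → Fin N => y z.1 = z.2)).card : ℝ)
  have key := uup_union (Ω := Fin M × Fin 4 → Fin N) (ι := Fin 4 × Fin N)
    (fun t => ¬ DEG h t) Q
    (Real.exp (-(8 * (h : ℝ) ^ 56)) * (Fintype.card (Fin M × Fin 4 → Fin N) : ℝ)) ?_ ?_
  · refine key.trans ?_
    have hc : (Fintype.card (Fin 4 × Fin N) : ℝ) = 4 * (h : ℝ) ^ 96 := by
      rw [Fintype.card_prod, Fintype.card_fin, Fintype.card_fin]
      push_cast
      rw [hNr]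
    have hu : (h : ℝ) ^ 96 ≤ ((h : ℝ) ^ 56) ^ 2 := by
      rw [← pow_mul]
      exact pow_le_pow_right₀ hhr (by norm_num)
    have hu1 : (h : ℝ) ≤ (h : ℝ) ^ 56 := le_self_pow₀ hhr (by norm_num)
    obtain ⟨u, hudef⟩ : ∃ u : ℝ, u = (h : ℝ) ^ 56 := ⟨_, rfl⟩
    rw [← hudef] at hu hu1
    have hupos : 0 < u := by linarith
    have hu2 : u ^ 2 ≤ 2 * Real.exp u := by
      have := Real.quadratic_le_exp_of_nonneg hupos.le
      linarith
    have hu3 : 8 / δ ≤ u := (hh₁.trans (by exact_mod_cast hh1')).trans hu1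
    have hfin : 4 * (h : ℝ) ^ 96 * Real.exp (-(8 * u)) ≤ δ := by
      have e1 : 4 * (h : ℝ) ^ 96 * Real.exp (-(8 * u)) ≤ 8 * Real.exp (-u) := by
        calc 4 * (h : ℝ) ^ 96 * Real.exp (-(8 * u))
            ≤ 4 * (2 * Real.exp u) * Real.exp (-(8 * u)) :=
              mul_le_mul_of_nonneg_right (by linarith) (Real.exp_nonneg _)
          _ = 8 * Real.exp (u + -(8 * u)) := by rw [Real.exp_add]; ring
          _ ≤ 8 * Real.exp (-u) :=
              mul_le_mul_of_nonneg_left (Real.exp_le_exp.mpr (by linarith)) (by norm_num)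
      have e2 : Real.exp (-u) ≤ 1 / u := by
        rw [Real.exp_neg, inv_eq_one_div]
        exact one_div_le_one_div_of_le hupos (by have := Real.add_one_le_exp u; linarith)
      have e3 : 8 * (1 / u) ≤ δ := by
        rw [mul_one_div, div_le_iff₀ hupos]
        rw [div_le_iff₀ hδ] at hu3
        linarith
      linarith
    rw [hc, ← hudef]
    calc 4 * (h : ℝ) ^ 96 * (Real.exp (-(8 * u)) * (Fintype.card (Fin M × Fin 4 → Fin N) : ℝ))
        = (4 * (h : ℝ) ^ 96 * Real.exp (-(8 * u))) * (Fintype.card (Fin M × Fin 4 → Fin N) : ℝ) := by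
          ring
      _ ≤ δ * (Fintype.card (Fin M × Fin 4 → Fin N) : ℝ) := mul_le_mul_of_nonneg_right hfin hT
  · intro t ht
    unfold DEG at ht
    push Not at ht
    obtain ⟨a, x, h3⟩ := ht
    refine ⟨(a, x), ?_⟩
    show 8 * (h : ℝ) ^ 56 ≤ _
    have h4 : ((8 * h ^ 56 : ℕ) : ℝ)
        ≤ (((Finset.univ : Finset (Fin M)).filter fun i => t (i, a) = x).card : ℝ) := by
      exact_mod_cast h3.le
    push_cast at h4
    refine h4.trans (le_of_eq ?_)
    congr 2
    ext i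
    simp
  · rintro ⟨a, x⟩
    refine uup_tail (N := N) (M := M)
      (Finset.univ.filter fun y : Fin 4 → Fin N => y a = x) (8 * (h : ℝ) ^ 56) ?_
    have hcard : ((Finset.univ.filter fun y : Fin 4 → Fin N => y a = x).card : ℝ) = (N : ℝ) ^ 3 := by
      have h5 : (Finset.univ.filter fun y : Fin 4 → Fin N => y a = x)
          = Fintype.piFinset (fun b => if b = a then ({x} : Finset (Fin N)) else Finset.univ) := by
        ext y
        simp only [Finset.mem_filter, Finset.mem_univ, true_and, Fintype.mem_piFinset]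
        constructor
        · intro hy b
          by_cases hb : b = a
          · subst hb; simp [hy]
          · simp [hb]
        · intro hy
          have := hy a
          simpa using this
      rw [h5, Fintype.card_piFinset]
      push_cast
      fin_cases a <;> simp [Fin.prod_univ_four] <;> ring
    rw [hcard, hMr, hNr]
    refine le_of_eq ?_
    ring

end Pool.Agent.CUB
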