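import Pool.Agent.CUB.KG
import Pool.Agent.CUB.PRT
import Pool.Agent.CUB.BOX
import Pool.Agent.CUB.CRF
import Pool.Agent.CUB.MULP
import Pool.Agent.CUB.UUP
import Pool.Agent.CUB.TOTP
import Pool.Agent.CUB.EIB
import Pool.Agent.CUB.COL
import Pool.Agent.CUB.EMU

set_option autoImplicit false

/-!
# CUB.TT

Proof. `v, pos, hcol` from `colt`; `c₀ = γ/2`; `ε₄ = 1/(2 (200 max(16/c₀) 4)^100)`; `c, εin` from `kg`; `ε` from
`parts`; `κ, κ₀` from `dense_box γ ε`; `κ₁` from `parts`; `K₁` from `tot_prob (δ/6)`; `c₈` from `eib`; `K` with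
`1 ≤ K c₈`, `2 ≤ K κ₁`. The bad `t` violate one of `CR, MUL, DEG, UU h (min κ₀ κ₁), TOT` or satisfy
`CR ∧ UU ∧ DEG ∧ ¬PG` (`UU h κ` is monotone in `κ`). For the others and `L0`: `dense_box`, `parts`, `emb_univ` with
`hI` from `eib` (`n ≤ N/K ≤ c₈N`).
-/

namespace Pool.Agent.CUB

open scoped Classical

private lemma tt_UU_mono {N M : ℕ} (h : ℕ) (κ κ' : ℝ) (hκ : κ ≤ κ') (t : Fin M × Fin 4 → Fin N)
    (hU : UU h κ t) : UU h κ' t := by
  intro X a₀ h1 h2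
  apply hU X a₀ h1
  intro a ha
  exact le_trans (mul_le_mul_of_nonneg_right hκ (Nat.cast_nonneg _)) (h2 a ha)

/-- Most configurations are universal on every dense set of blocks. -/
theorem tt (γ δ : ℝ) (hγ : 0 < γ) (hγ1 : γ ≤ 1) (hδ : 0 < δ) :
    ∃ K h₀ : ℕ, ∀ h ≥ h₀, ∀ N M : ℕ, N = h ^ 96 → M = h ^ 152 →
      (((Finset.univ : Finset (Fin M × Fin 4 → Fin N)).filter fun t =>
          ¬ ∀ L0 : Finset (Fin M), γ * (M : ℝ) ≤ (L0.card : ℝ) →
            ∀ n : ℕ, K * n ≤ N → UnivP t L0 n).card : ℝ)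
        ≤ δ * (Fintype.card (Fin M × Fin 4 → Fin N) : ℝ) := by
  obtain ⟨v, pos, hcol⟩ := colt
  have hc₀ : (0 : ℝ) < γ / 2 := by linarith
  have hδ6 : (0 : ℝ) < δ / 6 := by linarith
  have hD : (0 : ℝ) < (200 * max (16 / (γ / 2)) 4) ^ 100 := by
    apply pow_pos
    have : (0 : ℝ) < max (16 / (γ / 2)) 4 := lt_of_lt_of_le (by norm_num) (le_max_right _ _)
    linarith
  set D : ℝ := (200 * max (16 / (γ / 2)) 4) ^ 100 with hDdef
  have hε₄ : (0 : ℝ) < 1 / (2 * D) := by positivity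
  have h4 : D * (1 / (2 * D)) < 1 := by
    have : D * (1 / (2 * D)) = 1 / 2 := by field_simp
    rw [this]; norm_num
  obtain ⟨c, hc, εin, hεin, hkg⟩ := kg v pos (γ / 2) (1 / (2 * D)) hc₀ hε₄
  obtain ⟨ε, hε, hε1, hparts⟩ := parts v pos εin hεin
  obtain ⟨κ, hκ, κ₀, hκ₀, hb, hdb⟩ := dense_box γ ε hγ hγ1 hε hε1
  obtain ⟨κ₁, hκ₁, hp, hparts2⟩ := hparts κ hκ
  obtain ⟨K₁, hK₁, htot⟩ := tot_prob v pos (δ / 6) hδ6
  obtain ⟨c₈, hc₈, he, heib⟩ := eib v pos (γ / 2) c (1 / (2 * D)) κ₁ K₁ εin hc₀ hc hε₄ hκ₁ hK₁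
    hεin h4
  have hκm : 0 < min κ₀ κ₁ := lt_min hκ₀ hκ₁
  obtain ⟨hk, hkg2⟩ := hkg κ₁ (δ / 6) hκ₁ hδ6
  obtain ⟨h1, hcrf⟩ := crf v pos (δ / 6) hδ6
  obtain ⟨h2, hmul⟩ := mul_prob (δ / 6) hδ6
  obtain ⟨h3, huu⟩ := uu_prob (min κ₀ κ₁) (δ / 6) hκm hδ6
  obtain ⟨h5, hdeg⟩ := deg_prob (δ / 6) hδ6
  set K : ℕ := max ⌈1 / c₈⌉₊ ⌈2 / κ₁⌉₊ with hK
  have hKc : 1 ≤ (K : ℝ) * c₈ := by
    have : 1 / c₈ ≤ (K : ℝ) :=
      le_trans (Nat.le_ceil _) (by exact_mod_cast le_max_left _ _)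
    rwa [div_le_iff₀ hc₈] at this
  have hKκ : 2 ≤ (K : ℝ) * κ₁ := by
    have : 2 / κ₁ ≤ (K : ℝ) :=
      le_trans (Nat.le_ceil _) (by exact_mod_cast le_max_right _ _)
    rwa [div_le_iff₀ hκ₁] at this
  refine ⟨K, 1 + hb + hp + he + hk + h1 + h2 + h3 + h5, ?_⟩
  intro h hh N M hN hM
  have e1 := hcrf h (by omega) N M hN hM
  have e2 := hmul h (by omega) N M hN hM
  have e3 := huu h (by omega) N M hN hM
  have e4 := hdeg h (by omega) N M hN hM
  have e5 := htot h (by omega) N M hN hM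
  have e6 := hkg2 h (by omega) N M hN hM
  set U : Finset (Fin M × Fin 4 → Fin N) := Finset.univ with hU
  have hsub : (U.filter fun t =>
          ¬ ∀ L0 : Finset (Fin M), γ * (M : ℝ) ≤ (L0.card : ℝ) →
            ∀ n : ℕ, K * n ≤ N → UnivP t L0 n) ⊆
      (U.filter fun t => ¬ CR h t pos) ∪ ((U.filter fun t => ¬ MUL t) ∪
        ((U.filter fun t => ¬ UU h (min κ₀ κ₁) t) ∪ ((U.filter fun t => ¬ DEG h t) ∪
          ((U.filter fun t => ¬ TOT h K₁ t pos) ∪ (U.filter fun t =>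
            CR h t pos ∧ UU h κ₁ t ∧ DEG h t ∧
              ¬ PG t pos (γ / 2) εin c (1 / (2 * D)) κ₁))))) := by
    intro t ht
    rw [Finset.mem_filter] at ht
    by_contra hnot
    simp only [Finset.mem_union, Finset.mem_filter, hU, Finset.mem_univ, true_and, not_or,
      not_not] at hnot
    obtain ⟨g1, g2, g3, g4, g5, g6⟩ := hnot
    have g3' : UU h κ₁ t := tt_UU_mono h _ _ (min_le_right _ _) t g3
    have g3'' : UU h κ₀ t := tt_UU_mono h _ _ (min_le_left _ _) t g3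
    have g7 : PG t pos (γ / 2) εin c (1 / (2 * D)) κ₁ := by
      by_contra hPG
      exact g6 ⟨g1, g3', g4, hPG⟩
    apply ht.2
    intro L0 hL0 n hn
    obtain ⟨Cc, hCc, hC'⟩ := hdb h (by omega) N M hN hM t g3'' L0 hL0
    obtain ⟨V, Vg, Vr, nn, hP, hVr, hVrd, hDe, hR⟩ :=
      hparts2 h (by omega) N M hN hM γ hγ t L0 Cc hCc hC'
    have hnr : (K : ℝ) * (n : ℝ) ≤ (N : ℝ) := by exact_mod_cast hn
    have hn0 : (0 : ℝ) ≤ (n : ℝ) := Nat.cast_nonneg _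
    have hnc : (n : ℝ) ≤ c₈ * (N : ℝ) := by
      calc (n : ℝ) = 1 * (n : ℝ) := (one_mul _).symm
        _ ≤ ((K : ℝ) * c₈) * (n : ℝ) := mul_le_mul_of_nonneg_right hKc hn0
        _ = c₈ * ((K : ℝ) * (n : ℝ)) := by ring
        _ ≤ c₈ * (N : ℝ) := mul_le_mul_of_nonneg_left hnr hc₈.le
    refine emb_univ pos hcol t L0 κ₁ V Vg Vr nn hP hVrd hR n ?_ ?_
    · intro a
      rw [hVr a]
      have hb1 := hP.big a
      have : (2 : ℝ) * (n : ℝ) ≤ (nn a : ℝ) := by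
        calc (2 : ℝ) * (n : ℝ) ≤ ((K : ℝ) * κ₁) * (n : ℝ) :=
              mul_le_mul_of_nonneg_right hKκ hn0
          _ = κ₁ * ((K : ℝ) * (n : ℝ)) := by ring
          _ ≤ κ₁ * (N : ℝ) := mul_le_mul_of_nonneg_left hnr hκ₁.le
          _ ≤ _ := hb1
      exact_mod_cast this
    · intro n' q ty par anc F B A hI hn' hq
      have hn'r : (n' : ℝ) ≤ (n : ℝ) := by exact_mod_cast hn'
      have hqr : (q : ℝ) ≤ (n : ℝ) := by exact_mod_cast hq
      exact heib h (by omega) N M hN hM t g1 g2 g4 g5 g7 V Vg nn L0 hP hDe n' q ty par anc F B A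
        hI (le_trans hn'r hnc) (le_trans hqr hnc)
  have hcard : ((U.filter fun t =>
          ¬ ∀ L0 : Finset (Fin M), γ * (M : ℝ) ≤ (L0.card : ℝ) →
            ∀ n : ℕ, K * n ≤ N → UnivP t L0 n).card : ℝ)
      ≤ ((U.filter fun t => ¬ CR h t pos).card : ℝ) + (((U.filter fun t => ¬ MUL t).card : ℝ) +
        (((U.filter fun t => ¬ UU h (min κ₀ κ₁) t).card : ℝ) +
          (((U.filter fun t => ¬ DEG h t).card : ℝ) +
          (((U.filter fun t => ¬ TOT h K₁ t pos).card : ℝ) + ((U.filter fun t =>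
            CR h t pos ∧ UU h κ₁ t ∧ DEG h t ∧
              ¬ PG t pos (γ / 2) εin c (1 / (2 * D)) κ₁).card : ℝ))))) := by
    refine le_trans (Nat.cast_le.mpr (Finset.card_le_card hsub)) ?_
    have q1 := Finset.card_union_le (U.filter fun t => ¬ CR h t pos)
      ((U.filter fun t => ¬ MUL t) ∪
        ((U.filter fun t => ¬ UU h (min κ₀ κ₁) t) ∪ ((U.filter fun t => ¬ DEG h t) ∪
          ((U.filter fun t => ¬ TOT h K₁ t pos) ∪ (U.filter fun t =>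
            CR h t pos ∧ UU h κ₁ t ∧ DEG h t ∧
              ¬ PG t pos (γ / 2) εin c (1 / (2 * D)) κ₁)))))
    have q2 := Finset.card_union_le (U.filter fun t => ¬ MUL t)
        ((U.filter fun t => ¬ UU h (min κ₀ κ₁) t) ∪ ((U.filter fun t => ¬ DEG h t) ∪
          ((U.filter fun t => ¬ TOT h K₁ t pos) ∪ (U.filter fun t =>
            CR h t pos ∧ UU h κ₁ t ∧ DEG h t ∧
              ¬ PG t pos (γ / 2) εin c (1 / (2 * D)) κ₁))))
    have q3 := Finset.card_union_le (U.filter fun t => ¬ UU h (min κ₀ κ₁) t)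
        ((U.filter fun t => ¬ DEG h t) ∪
          ((U.filter fun t => ¬ TOT h K₁ t pos) ∪ (U.filter fun t =>
            CR h t pos ∧ UU h κ₁ t ∧ DEG h t ∧
              ¬ PG t pos (γ / 2) εin c (1 / (2 * D)) κ₁)))
    have q4 := Finset.card_union_le (U.filter fun t => ¬ DEG h t)
          ((U.filter fun t => ¬ TOT h K₁ t pos) ∪ (U.filter fun t =>
            CR h t pos ∧ UU h κ₁ t ∧ DEG h t ∧
              ¬ PG t pos (γ / 2) εin c (1 / (2 * D)) κ₁))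
    have q5 := Finset.card_union_le (U.filter fun t => ¬ TOT h K₁ t pos) (U.filter fun t =>
            CR h t pos ∧ UU h κ₁ t ∧ DEG h t ∧
              ¬ PG t pos (γ / 2) εin c (1 / (2 * D)) κ₁)
    exact_mod_cast (by omega)
  refine le_trans hcard ?_
  have : δ * (Fintype.card (Fin M × Fin 4 → Fin N) : ℝ)
      = δ / 6 * (Fintype.card (Fin M × Fin 4 → Fin N) : ℝ) +
        (δ / 6 * (Fintype.card (Fin M × Fin 4 → Fin N) : ℝ) +
        (δ / 6 * (Fintype.card (Fin M × Fin 4 → Fin N) : ℝ) +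
        (δ / 6 * (Fintype.card (Fin M × Fin 4 → Fin N) : ℝ) +
        (δ / 6 * (Fintype.card (Fin M × Fin 4 → Fin N) : ℝ) +
        δ / 6 * (Fintype.card (Fin M × Fin 4 → Fin N) : ℝ))))) := by ring
  rw [this]
  exact add_le_add e1 (add_le_add e2 (add_le_add e3 (add_le_add e4 (add_le_add e5 e6))))

end Pool.Agent.CUB
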