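import Pool.Agent.CUB.EDG
import Pool.Agent.CUB.PHI

set_option autoImplicit false

/-!
# CUB.WEMG

Proof. State after `j` steps: `φ` (only values `< j` matter). For an item with vertex set `A`
(closed under parents, `ty` injective) let `A_j = {a ∈ A : a < j}`, `S = A_j.image ty`,
`Φ_j = Phi t pos L V m (edg ty par A) Y S (asg ty A_j φ x₀)`, `r_j = |A| - |A_j|`.
Invariant: the first three parts of `WInv`; `Kb^{r_j} Φ_j(b) < 1` for all b-items; and
`Ψ := ∑_k ∏_i (1 + (e-1) C^{r_j} Φ_j(k,i)) ≤ exp(μ₀ + (e-1) μ₀)` (true at `j = 0`: `1 + x ≤ exp x`, `hμ`,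
`hμc`). It implies `WInv j`: for complete items `Φ = Y` (`phi_full`, `hYd`), `exp Y ≤ 1 + (e-1)Y` for
`Y ∈ [0,1]`, all factors `≥ 1`, `e ≤ 3 - small` so the sums are `≤ e μ₀ ≤ 3 μ₀`.
Step `j`: take `Av` from `hav`. Choose `y ∈ Av`, `φ' = update φ j y`. Items not containing `j` are
unchanged. For an item with `j ∈ A`: by `asg_insert` the new assignment is `update (old) (ty j) y`.
If `par j ≠ j` then `par j ∈ A_j` and the only edge of `edg ty par A` inside `insert (ty j) S` and not inside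
`S` is `(ty (par j), ty j)` (children of `j` come later), so `phi_child`: with `R = m/|V (ty (par j))|`,
`∑_{y∈V (ty j)} pmul(..) Φ'(y) = R Φ`; if `par j = j`, `phi_root`: `∑_{y} Φ'(y) = |V (ty j)| Φ`, put
`R = |V (ty j)|` and replace `pmul` by `1`. In both cases `∑_{y∈Av} Φ'(y) ≤ R Φ` and `2R ≤ C|Av|`.
For every b-item containing `j` at most `R/Kb` elements of `Av` have `Φ'(y) > Kb Φ` (if `Φ = 0` none has
`Φ' > 0`); `≤ Jb` items, so after removing them `Av'` has `|Av'| ≥ |Av| - Jb R/Kb ≥ |Av|/2 ≥ R/C`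
(as `Kb ≥ Jb C`, `R/C ≤ |Av|/2`). Average over `y ∈ Av'`: `Φ'` has average `≤ C Φ`, in every meter at most one
item contains `j` (`hdisj`), so the average of `Ψ'` is `≤ Ψ`: pick `y ∈ Av'` with `Ψ' ≤ Ψ`.
-/

namespace Pool.Agent.CUB

open scoped Classical

private def WEMG_low {n : ℕ} (A : Finset (Fin n)) (j : ℕ) : Finset (Fin n) :=
  A.filter fun a => (a : ℕ) < j

private noncomputable def WEMG_Ph {v N M n : ℕ} (t : Fin M × Fin 4 → Fin N)
    (pos : Fin v → Fin 4) (L : Fin v × Fin v → Finset (Fin M)) (V : Fin v → Finset (Fin N)) (m : ℝ)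
    (ty : Fin n → Fin v) (par : Fin n → Fin n) (x₀ : Fin v → Fin N)
    (A : Finset (Fin n)) (Y : (Fin v → Fin N) → ℝ) (j : ℕ) (φ : Fin n → Fin N) : ℝ :=
  Phi t pos L V m (edg ty par A) Y ((WEMG_low A j).image ty) (asg ty (WEMG_low A j) φ x₀)

private theorem WEMG_low_zero {n : ℕ} (A : Finset (Fin n)) : WEMG_low A 0 = ∅ := by
  ext a; simp [WEMG_low]

private theorem WEMG_low_out {n : ℕ} (A : Finset (Fin n)) (j : Fin n) (hj : j ∉ A) :
    WEMG_low A ((j : ℕ) + 1) = WEMG_low A j := by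
  ext a
  simp only [WEMG_low, Finset.mem_filter]
  constructor
  · rintro ⟨ha, h⟩
    refine ⟨ha, ?_⟩
    have h1 : a ≠ j := fun h' => hj (h' ▸ ha)
    have h2 : (a : ℕ) ≠ j := fun h' => h1 (Fin.ext h')
    omega
  · rintro ⟨ha, h⟩
    exact ⟨ha, by omega⟩

private theorem WEMG_low_in {n : ℕ} (A : Finset (Fin n)) (j : Fin n) (hj : j ∈ A) :
    WEMG_low A ((j : ℕ) + 1) = insert j (WEMG_low A j) := by
  ext a
  simp only [WEMG_low, Finset.mem_filter, Finset.mem_insert]
  constructor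
  · rintro ⟨ha, h⟩
    by_cases h1 : a = j
    · exact Or.inl h1
    · right
      refine ⟨ha, ?_⟩
      have h2 : (a : ℕ) ≠ j := fun h' => h1 (Fin.ext h')
      omega
  · rintro (h | ⟨ha, h⟩)
    · subst h
      exact ⟨hj, by omega⟩
    · exact ⟨ha, by omega⟩

private theorem WEMG_not_low {n : ℕ} (A : Finset (Fin n)) (j : Fin n) : j ∉ WEMG_low A j := by
  simp [WEMG_low]

section

variable {v N M n : ℕ} (t : Fin M × Fin 4 → Fin N)
    (pos : Fin v → Fin 4) (L : Fin v × Fin v → Finset (Fin M)) (V : Fin v → Finset (Fin N)) (m : ℝ)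
    (ty : Fin n → Fin v) (par : Fin n → Fin n) (x₀ : Fin v → Fin N)

private theorem WEMG_init (A : Finset (Fin n)) (Y : (Fin v → Fin N) → ℝ) (φ : Fin n → Fin N) :
    WEMG_Ph t pos L V m ty par x₀ A Y 0 φ = Phi t pos L V m (edg ty par A) Y ∅ x₀ := by
  unfold WEMG_Ph
  rw [WEMG_low_zero]
  have h : asg ty (∅ : Finset (Fin n)) φ x₀ = x₀ := by
    funext d
    exact asg_not ty ∅ φ x₀ d (by simp)
  rw [h, Finset.image_empty]

private theorem WEMG_full (hV : ∀ i, (V i).Nonempty) (A : Finset (Fin n))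
    (Y : (Fin v → Fin N) → ℝ) (j : ℕ)
    (φ : Fin n → Fin N) (hA : ∀ k ∈ A, par k ∈ A)
    (hYd : ∀ (x x' : Fin v → Fin N), (∀ k ∈ A, x (ty k) = x' (ty k)) → Y x = Y x')
    (hc : ∀ a ∈ A, (a : ℕ) < j) :
    WEMG_Ph t pos L V m ty par x₀ A Y j φ = Y (asg ty A φ x₀) := by
  have hl : WEMG_low A j = A := by
    ext a
    simp only [WEMG_low, Finset.mem_filter, and_iff_left_iff_imp]
    exact fun h => hc a h
  unfold WEMG_Ph
  rw [hl]
  apply phi_full t pos L V m hV
  · intro e he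
    simp only [edg, Finset.mem_image, Finset.mem_filter] at he
    obtain ⟨k, ⟨hk, _⟩, rfl⟩ := he
    exact ⟨Finset.mem_image_of_mem _ (hA k hk), Finset.mem_image_of_mem _ hk⟩
  · intro x x' h
    exact hYd x x' (fun k hk => h _ (Finset.mem_image_of_mem _ hk))

private theorem WEMG_nonneg (hm : 0 ≤ m) (A : Finset (Fin n))
    (Y : (Fin v → Fin N) → ℝ) (hY : ∀ x, 0 ≤ Y x) (j : ℕ) (φ : Fin n → Fin N) :
    0 ≤ WEMG_Ph t pos L V m ty par x₀ A Y j φ := phi_nonneg t pos L V m hm _ Y hY _ _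

private theorem WEMG_out (A : Finset (Fin n)) (Y : (Fin v → Fin N) → ℝ) (j : Fin n)
    (φ : Fin n → Fin N) (y : Fin N) (hj : j ∉ A) :
    WEMG_Ph t pos L V m ty par x₀ A Y ((j : ℕ) + 1) (Function.update φ j y)
      = WEMG_Ph t pos L V m ty par x₀ A Y j φ := by
  unfold WEMG_Ph
  rw [WEMG_low_out A j hj]
  have h : asg ty (WEMG_low A j) (Function.update φ j y) x₀ = asg ty (WEMG_low A j) φ x₀ := by
    apply asg_congr
    intro k hk
    have hkj : k ≠ j := fun h => WEMG_not_low A j (h ▸ hk)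
    rw [Function.update_of_ne hkj]
  rw [h]

private theorem WEMG_in (A : Finset (Fin n)) (Y : (Fin v → Fin N) → ℝ) (j : Fin n)
    (φ : Fin n → Fin N) (y : Fin N) (hj : j ∈ A) (hAi : Set.InjOn ty (A : Set (Fin n))) :
    WEMG_Ph t pos L V m ty par x₀ A Y ((j : ℕ) + 1) (Function.update φ j y)
      = Phi t pos L V m (edg ty par A) Y (insert (ty j) ((WEMG_low A j).image ty))
          (Function.update (asg ty (WEMG_low A j) φ x₀) (ty j) y) := by
  unfold WEMG_Ph
  rw [WEMG_low_in A j hj, Finset.image_insert]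
  rw [asg_insert ty (WEMG_low A j) j (WEMG_not_low A j) _ φ y x₀]
  apply hAi.mono
  intro a ha
  rw [Finset.mem_coe, Finset.mem_insert] at ha
  rcases ha with h | h
  · exact h ▸ hj
  · exact (Finset.mem_filter.1 h).1

private theorem WEMG_tynot (A : Finset (Fin n)) (j : Fin n) (hj : j ∈ A)
    (hAi : Set.InjOn ty (A : Set (Fin n))) : ty j ∉ (WEMG_low A j).image ty := by
  intro h
  obtain ⟨k, hk, hkj⟩ := Finset.mem_image.1 h
  have hkA : k ∈ A := (Finset.mem_filter.1 hk).1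
  have := hAi hkA hj hkj
  subst this
  exact WEMG_not_low A k hk

private theorem WEMG_sum (hm : 0 < m) (hV : ∀ i, (V i).Nonempty) (hpar : ∀ j, par j ≤ j)
    (A : Finset (Fin n)) (Y : (Fin v → Fin N) → ℝ) (hY0 : ∀ x, 0 ≤ Y x)
    (hA : ∀ k ∈ A, par k ∈ A) (hAi : Set.InjOn ty (A : Set (Fin n)))
    (j : Fin n) (φ : Fin n → Fin N) (hj : j ∈ A) (Av : Finset (Fin N)) (hAv : Av ⊆ V (ty j))
    (R : ℝ) (hR1 : par j = j → R = ((V (ty j)).card : ℝ))
    (hR2 : par j ≠ j → R = m / ((V (ty (par j))).card : ℝ) ∧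
      ∀ y ∈ Av, 0 < pmul t pos L (ty (par j)) (ty j) (φ (par j)) y) :
    ∑ y ∈ Av, WEMG_Ph t pos L V m ty par x₀ A Y ((j : ℕ) + 1) (Function.update φ j y)
      ≤ R * WEMG_Ph t pos L V m ty par x₀ A Y j φ := by
  have hnot := WEMG_tynot ty A j hj hAi
  -- membership analysis
  have hmem : ∀ k ∈ A, ty k ∈ insert (ty j) ((WEMG_low A j).image ty) → k = j ∨ (k : ℕ) < j := by
    intro k hk h
    rw [Finset.mem_insert] at h
    rcases h with h | h
    · exact Or.inl (hAi hk hj h)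
    · right
      obtain ⟨k', hk', hkk⟩ := Finset.mem_image.1 h
      have := hAi (Finset.mem_filter.1 hk').1 hk hkk
      subst this
      exact (Finset.mem_filter.1 hk').2
  have hin : ∀ k ∈ A, (k : ℕ) < j → ty k ∈ (WEMG_low A j).image ty := by
    intro k hk h
    exact Finset.mem_image_of_mem _ (Finset.mem_filter.2 ⟨hk, h⟩)
  have hpar' : ∀ k : Fin n, (k : ℕ) < j → ((par k : Fin n) : ℕ) < j := by
    intro k hk
    have := hpar k
    have h2 : ((par k : Fin n) : ℕ) ≤ k := this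
    omega
  have hnn : ∀ y, 0 ≤ WEMG_Ph t pos L V m ty par x₀ A Y ((j : ℕ) + 1) (Function.update φ j y) :=
    fun y => WEMG_nonneg t pos L V m ty par x₀ hm.le A Y hY0 _ _
  by_cases hr : par j = j
  · have h1 := phi_root t pos L V m hV (edg ty par A) Y ((WEMG_low A j).image ty) (ty j) hnot
      (by
        intro e he h1 h2
        simp only [edg, Finset.mem_image, Finset.mem_filter] at he
        obtain ⟨k, ⟨hk, hpk⟩, rfl⟩ := he
        have hk' := hmem k hk h2
        rcases hk' with hk' | hk'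
        · exact absurd (hk' ▸ hr) hpk
        · exact ⟨hin _ (hA k hk) (hpar' k hk'), hin _ hk hk'⟩)
      (asg ty (WEMG_low A j) φ x₀)
    have h2 : ∑ y ∈ V (ty j), WEMG_Ph t pos L V m ty par x₀ A Y ((j : ℕ) + 1)
        (Function.update φ j y) = R * WEMG_Ph t pos L V m ty par x₀ A Y j φ := by
      rw [hR1 hr]
      unfold WEMG_Ph at *
      rw [← h1]
      apply Finset.sum_congr rfl
      intro y _
      have := WEMG_in t pos L V m ty par x₀ A Y j φ y hj hAi
      unfold WEMG_Ph at this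
      exact this
    rw [← h2]
    exact Finset.sum_le_sum_of_subset_of_nonneg hAv (fun y _ _ => hnn y)
  · have hplt : ((par j : Fin n) : ℕ) < j := by
      have h2 : ((par j : Fin n) : ℕ) ≤ j := hpar j
      have h3 : ((par j : Fin n) : ℕ) ≠ j := fun h => hr (Fin.ext h)
      omega
    obtain ⟨hR, hpos⟩ := hR2 hr
    have h1 := phi_child t pos L V m hm hV (edg ty par A) Y ((WEMG_low A j).image ty)
      (ty (par j)) (ty j) (hin _ (hA j hj) hplt) hnot
      (by
        simp only [edg, Finset.mem_image, Finset.mem_filter]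
        exact ⟨j, ⟨hj, hr⟩, rfl⟩)
      (by
        intro e he h1 h2 h3
        simp only [edg, Finset.mem_image, Finset.mem_filter] at he
        obtain ⟨k, ⟨hk, hpk⟩, rfl⟩ := he
        have hk' := hmem k hk h2
        rcases hk' with hk' | hk'
        · rw [hk']
        · exact absurd ⟨hin _ (hA k hk) (hpar' k hk'), hin _ hk hk'⟩ h3)
      (asg ty (WEMG_low A j) φ x₀)
    have hasg : asg ty (WEMG_low A j) φ x₀ (ty (par j)) = φ (par j) := by
      apply asg_mem ty (WEMG_low A j) (hAi.mono _)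
      · exact Finset.mem_filter.2 ⟨hA j hj, hplt⟩
      · intro a ha
        exact (Finset.mem_filter.1 ha).1
    have h2 : ∑ y ∈ V (ty j), (pmul t pos L (ty (par j)) (ty j) (φ (par j)) y : ℝ) *
        WEMG_Ph t pos L V m ty par x₀ A Y ((j : ℕ) + 1)
        (Function.update φ j y) = R * WEMG_Ph t pos L V m ty par x₀ A Y j φ := by
      rw [hR]
      rw [hasg] at h1
      unfold WEMG_Ph at *
      rw [← h1]
      apply Finset.sum_congr rfl
      intro y _
      have := WEMG_in t pos L V m ty par x₀ A Y j φ y hj hAi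
      unfold WEMG_Ph at this
      rw [this]
    rw [← h2]
    calc ∑ y ∈ Av, WEMG_Ph t pos L V m ty par x₀ A Y ((j : ℕ) + 1) (Function.update φ j y)
        ≤ ∑ y ∈ Av, (pmul t pos L (ty (par j)) (ty j) (φ (par j)) y : ℝ) *
          WEMG_Ph t pos L V m ty par x₀ A Y ((j : ℕ) + 1) (Function.update φ j y) := by
          apply Finset.sum_le_sum
          intro y hy
          have h3 : (1 : ℝ) ≤ (pmul t pos L (ty (par j)) (ty j) (φ (par j)) y : ℝ) := by
            exact_mod_cast hpos y hy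
          nlinarith [hnn y]
      _ ≤ _ := Finset.sum_le_sum_of_subset_of_nonneg hAv
          (fun y _ _ => mul_nonneg (Nat.cast_nonneg _) (hnn y))

end

/-- choice of a good value. -/
private theorem WEMG_choose {N : ℕ} {β : Type} (Av : Finset (Fin N)) (C Kb R : ℝ) (Jb : ℕ)
    (hC : 1 ≤ C) (hR : 0 < R) (hKb : (Jb : ℝ) * C ≤ Kb) (hKb1 : 1 ≤ Kb)
    (hAv : 2 * R ≤ C * (Av.card : ℝ)) (J : Finset β) (hJ : J.card ≤ Jb) (fb : β → ℝ)
    (fb' : β → Fin N → ℝ) (h0 : ∀ b, 0 ≤ fb b) (h0' : ∀ b y, 0 ≤ fb' b y)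
    (hs : ∀ b ∈ J, ∑ y ∈ Av, fb' b y ≤ R * fb b) (Ψ : ℝ) (Ψ' : Fin N → ℝ)
    (hΨ : ∀ B ⊆ Av, R ≤ C * (B.card : ℝ) → ∑ y ∈ B, Ψ' y ≤ (B.card : ℝ) * Ψ) :
    ∃ y ∈ Av, Ψ' y ≤ Ψ ∧ ∀ b ∈ J, fb' b y ≤ Kb * fb b := by
  have hBd : ∀ b ∈ J, Kb * ((Av.filter fun y => Kb * fb b < fb' b y).card : ℝ) ≤ R := by
    intro b hb
    set Bd := Av.filter fun y => Kb * fb b < fb' b y with hBddef
    have h1 : (Bd.card : ℝ) * (Kb * fb b) ≤ ∑ y ∈ Bd, fb' b y := by
      rw [← nsmul_eq_mul]
      apply Finset.card_nsmul_le_sum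
      intro y hy
      exact (Finset.mem_filter.1 hy).2.le
    have h2 : ∑ y ∈ Bd, fb' b y ≤ ∑ y ∈ Av, fb' b y :=
      Finset.sum_le_sum_of_subset_of_nonneg (Finset.filter_subset _ _) (fun y _ _ => h0' b y)
    have h3 := hs b hb
    rcases (h0 b).eq_or_lt with h | h
    · have hE : Bd = ∅ := by
        rw [Finset.eq_empty_iff_forall_notMem]
        intro y hy
        obtain ⟨hyA, hlt⟩ := Finset.mem_filter.1 hy
        have h4 : fb' b y ≤ ∑ y ∈ Av, fb' b y := Finset.single_le_sum (fun y _ => h0' b y) hyA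
        rw [← h] at h3 hlt
        linarith
      rw [hE]
      simp only [Finset.card_empty, Nat.cast_zero, mul_zero]
      exact hR.le
    · have h5 : (Kb * (Bd.card : ℝ)) * fb b ≤ R * fb b := by nlinarith
      exact le_of_mul_le_mul_right h5 h
  set U := J.biUnion (fun b => Av.filter fun y => Kb * fb b < fb' b y) with hU
  have hUA : U ⊆ Av := by
    intro y hy
    obtain ⟨b, _, hb⟩ := Finset.mem_biUnion.1 hy
    exact (Finset.mem_filter.1 hb).1
  have hUc : Kb * (U.card : ℝ) ≤ (J.card : ℝ) * R := by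
    have h1 : (U.card : ℝ) ≤ ∑ b ∈ J, ((Av.filter fun y => Kb * fb b < fb' b y).card : ℝ) := by
      exact_mod_cast Finset.card_biUnion_le
    calc Kb * (U.card : ℝ)
        ≤ Kb * ∑ b ∈ J, ((Av.filter fun y => Kb * fb b < fb' b y).card : ℝ) :=
          mul_le_mul_of_nonneg_left h1 (by linarith)
      _ = ∑ b ∈ J, Kb * ((Av.filter fun y => Kb * fb b < fb' b y).card : ℝ) := by
          rw [Finset.mul_sum]
      _ ≤ ∑ b ∈ J, R := Finset.sum_le_sum hBd
      _ = (J.card : ℝ) * R := by rw [Finset.sum_const, nsmul_eq_mul]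
  have hCU : C * (U.card : ℝ) ≤ R := by
    rcases Nat.eq_zero_or_pos J.card with h | h
    · have hJe : J = ∅ := Finset.card_eq_zero.1 h
      have hUe : U = ∅ := by rw [hU, hJe, Finset.biUnion_empty]
      rw [hUe]
      simp only [Finset.card_empty, Nat.cast_zero, mul_zero]
      exact hR.le
    · have hJp : (0 : ℝ) < (J.card : ℝ) := by exact_mod_cast h
      have hJJ : (J.card : ℝ) ≤ (Jb : ℝ) := by exact_mod_cast hJ
      have hU0 : (0 : ℝ) ≤ (U.card : ℝ) := Nat.cast_nonneg _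
      have h1 : (J.card : ℝ) * (C * (U.card : ℝ)) ≤ (J.card : ℝ) * R := by
        calc (J.card : ℝ) * (C * (U.card : ℝ)) ≤ (Jb : ℝ) * (C * (U.card : ℝ)) :=
              mul_le_mul_of_nonneg_right hJJ (by positivity)
          _ = ((Jb : ℝ) * C) * (U.card : ℝ) := by ring
          _ ≤ Kb * (U.card : ℝ) := mul_le_mul_of_nonneg_right hKb hU0
          _ ≤ _ := hUc
      exact le_of_mul_le_mul_left h1 hJp
  have hBsub : Av \ U ⊆ Av := Finset.sdiff_subset
  have hBc : ((Av \ U).card : ℝ) = (Av.card : ℝ) - (U.card : ℝ) := by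
    have h1 := Finset.card_sdiff_add_card_eq_card hUA
    have h2 : ((Av \ U).card : ℝ) + (U.card : ℝ) = (Av.card : ℝ) := by exact_mod_cast h1
    linarith
  have hRB : R ≤ C * ((Av \ U).card : ℝ) := by
    rw [hBc]
    nlinarith
  have hBne : (Av \ U).Nonempty := by
    rw [Finset.nonempty_iff_ne_empty]
    intro h
    rw [h] at hRB
    simp only [Finset.card_empty, Nat.cast_zero, mul_zero] at hRB
    linarith
  have hsum := hΨ (Av \ U) hBsub hRB
  have hsum' : ∑ y ∈ Av \ U, Ψ' y ≤ ∑ _y ∈ Av \ U, Ψ := by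
    rw [Finset.sum_const, nsmul_eq_mul]
    exact hsum
  obtain ⟨y, hy, hyle⟩ := Finset.exists_le_of_sum_le hBne hsum'
  obtain ⟨hyA, hyU⟩ := Finset.mem_sdiff.1 hy
  refine ⟨y, hyA, hyle, ?_⟩
  intro b hb
  by_contra hcon
  push Not at hcon
  exact hyU (Finset.mem_biUnion.2 ⟨b, hb, Finset.mem_filter.2 ⟨hyA, hcon⟩⟩)

section

variable {v N M n : ℕ} (t : Fin M × Fin 4 → Fin N)
    (pos : Fin v → Fin 4) (L : Fin v × Fin v → Finset (Fin M)) (V : Fin v → Finset (Fin N)) (m : ℝ)
    (ty : Fin n → Fin v) (par : Fin n → Fin n) (x₀ : Fin v → Fin N) (C : ℝ)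

private noncomputable def WEMG_g (A : Finset (Fin n)) (Y : (Fin v → Fin N) → ℝ) (j : ℕ)
    (φ : Fin n → Fin N) : ℝ :=
  1 + (Real.exp 1 - 1) * (C ^ (A.card - (WEMG_low A j).card) *
    WEMG_Ph t pos L V m ty par x₀ A Y j φ)

private theorem WEMG_g_ge (hm : 0 ≤ m) (hC : 1 ≤ C) (A : Finset (Fin n))
    (Y : (Fin v → Fin N) → ℝ) (hY : ∀ x, 0 ≤ Y x) (j : ℕ) (φ : Fin n → Fin N) :
    1 ≤ WEMG_g t pos L V m ty par x₀ C A Y j φ := by
  unfold WEMG_g
  have h1 : 0 ≤ Real.exp 1 - 1 := by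
    have := Real.add_one_le_exp (1 : ℝ)
    linarith
  have h2 := WEMG_nonneg t pos L V m ty par x₀ hm A Y hY j φ
  have h3 : 0 ≤ C ^ (A.card - (WEMG_low A j).card) := by positivity
  have := mul_nonneg h1 (mul_nonneg h3 h2)
  linarith

private theorem WEMG_g_out (A : Finset (Fin n)) (Y : (Fin v → Fin N) → ℝ) (j : Fin n)
    (φ : Fin n → Fin N) (y : Fin N) (hj : j ∉ A) :
    WEMG_g t pos L V m ty par x₀ C A Y ((j : ℕ) + 1) (Function.update φ j y)
      = WEMG_g t pos L V m ty par x₀ C A Y j φ := by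
  unfold WEMG_g
  rw [WEMG_out t pos L V m ty par x₀ A Y j φ y hj, WEMG_low_out A j hj]

private theorem WEMG_low_card {n : ℕ} (A : Finset (Fin n)) (j : Fin n) (hj : j ∈ A) :
    A.card - (WEMG_low A j).card = (A.card - (WEMG_low A ((j : ℕ) + 1)).card) + 1 := by
  have h1 : (WEMG_low A ((j : ℕ) + 1)).card ≤ A.card :=
    Finset.card_le_card (Finset.filter_subset _ _)
  rw [WEMG_low_in A j hj, Finset.card_insert_of_notMem (WEMG_not_low A j)] at *
  omega

private theorem WEMG_g_in (hm : 0 < m) (hV : ∀ i, (V i).Nonempty) (hpar : ∀ j, par j ≤ j)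
    (hC : 1 ≤ C)
    (A : Finset (Fin n)) (Y : (Fin v → Fin N) → ℝ) (hY0 : ∀ x, 0 ≤ Y x)
    (hA : ∀ k ∈ A, par k ∈ A) (hAi : Set.InjOn ty (A : Set (Fin n)))
    (j : Fin n) (φ : Fin n → Fin N) (hj : j ∈ A) (Av : Finset (Fin N)) (hAv : Av ⊆ V (ty j))
    (R : ℝ) (hR1 : par j = j → R = ((V (ty j)).card : ℝ))
    (hR2 : par j ≠ j → R = m / ((V (ty (par j))).card : ℝ) ∧
      ∀ y ∈ Av, 0 < pmul t pos L (ty (par j)) (ty j) (φ (par j)) y)
    (hR3 : R ≤ C * (Av.card : ℝ)) :
    ∑ y ∈ Av, WEMG_g t pos L V m ty par x₀ C A Y ((j : ℕ) + 1) (Function.update φ j y)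
      ≤ (Av.card : ℝ) * WEMG_g t pos L V m ty par x₀ C A Y j φ := by
  have h1 := WEMG_sum t pos L V m ty par x₀ hm hV hpar A Y hY0 hA hAi j φ hj Av hAv R hR1 hR2
  have h0 := WEMG_nonneg t pos L V m ty par x₀ hm.le A Y hY0 j φ
  unfold WEMG_g
  rw [Finset.sum_add_distrib, ← Finset.mul_sum, ← Finset.mul_sum, Finset.sum_const, nsmul_eq_mul,
    mul_one, WEMG_low_card A j hj]
  have he : 0 ≤ Real.exp 1 - 1 := by
    have := Real.add_one_le_exp (1 : ℝ)
    linarith
  set r := A.card - (WEMG_low A ((j : ℕ) + 1)).card with hr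
  set P := WEMG_Ph t pos L V m ty par x₀ A Y (j : ℕ) φ with hP
  have hCr : 0 ≤ C ^ r := by positivity
  have h2 : C ^ r * ∑ y ∈ Av, WEMG_Ph t pos L V m ty par x₀ A Y ((j : ℕ) + 1)
      (Function.update φ j y) ≤ (Av.card : ℝ) * (C ^ (r + 1) * P) := by
    calc C ^ r * ∑ y ∈ Av, WEMG_Ph t pos L V m ty par x₀ A Y ((j : ℕ) + 1)
          (Function.update φ j y) ≤ C ^ r * (R * P) := mul_le_mul_of_nonneg_left h1 hCr
      _ ≤ C ^ r * ((C * (Av.card : ℝ)) * P) :=
          mul_le_mul_of_nonneg_left (mul_le_mul_of_nonneg_right hR3 h0) hCr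
      _ = (Av.card : ℝ) * (C ^ (r + 1) * P) := by ring
  have h3 := mul_le_mul_of_nonneg_left h2 he
  nlinarith

/-- the meters. -/
private theorem WEMG_meter (hm : 0 < m) (hV : ∀ i, (V i).Nonempty) (hpar : ∀ j, par j ≤ j)
    (hC : 1 ≤ C) {ι : Type} [Fintype ι] (A : ι → Finset (Fin n))
    (Y : ι → (Fin v → Fin N) → ℝ) (hY0 : ∀ i x, 0 ≤ Y i x)
    (hA : ∀ i, ∀ k ∈ A i, par k ∈ A i) (hAi : ∀ i, Set.InjOn ty (A i : Set (Fin n)))
    (hdisj : ∀ i i', i ≠ i' → Disjoint (A i) (A i'))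
    (j : Fin n) (φ : Fin n → Fin N) (Av : Finset (Fin N)) (hAv : Av ⊆ V (ty j))
    (R : ℝ) (hR1 : par j = j → R = ((V (ty j)).card : ℝ))
    (hR2 : par j ≠ j → R = m / ((V (ty (par j))).card : ℝ) ∧
      ∀ y ∈ Av, 0 < pmul t pos L (ty (par j)) (ty j) (φ (par j)) y)
    (hR3 : R ≤ C * (Av.card : ℝ)) :
    ∑ y ∈ Av, ∏ i, WEMG_g t pos L V m ty par x₀ C (A i) (Y i) ((j : ℕ) + 1) (Function.update φ j y)
      ≤ (Av.card : ℝ) * ∏ i, WEMG_g t pos L V m ty par x₀ C (A i) (Y i) j φ := by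
  by_cases hex : ∃ i, j ∈ A i
  · obtain ⟨i0, hi0⟩ := hex
    have hoth : ∀ i, i ≠ i0 → j ∉ A i := by
      intro i hi hji
      exact Finset.disjoint_left.1 (hdisj i i0 hi) hji hi0
    have h1 : ∀ y, ∏ i, WEMG_g t pos L V m ty par x₀ C (A i) (Y i) ((j : ℕ) + 1)
        (Function.update φ j y) = WEMG_g t pos L V m ty par x₀ C (A i0) (Y i0) ((j : ℕ) + 1)
        (Function.update φ j y) * ∏ i ∈ Finset.univ.erase i0,
          WEMG_g t pos L V m ty par x₀ C (A i) (Y i) j φ := by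
      intro y
      rw [← Finset.mul_prod_erase Finset.univ _ (Finset.mem_univ i0)]
      congr 1
      apply Finset.prod_congr rfl
      intro i hi
      exact WEMG_g_out t pos L V m ty par x₀ C (A i) (Y i) j φ y
        (hoth i (Finset.ne_of_mem_erase hi))
    rw [Finset.sum_congr rfl (fun y _ => h1 y), ← Finset.sum_mul,
      ← Finset.mul_prod_erase Finset.univ _ (Finset.mem_univ i0), ← mul_assoc]
    apply mul_le_mul_of_nonneg_right
    · exact WEMG_g_in t pos L V m ty par x₀ C hm hV hpar hC (A i0) (Y i0) (hY0 i0) (hA i0)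
        (hAi i0) j φ hi0 Av hAv R hR1 hR2 hR3
    · apply Finset.prod_nonneg
      intro i _
      have := WEMG_g_ge t pos L V m ty par x₀ C hm.le hC (A i) (Y i) (hY0 i) j φ
      linarith
  · push Not at hex
    rw [← nsmul_eq_mul, ← Finset.sum_const]
    apply Finset.sum_le_sum
    intro y _
    apply le_of_eq
    apply Finset.prod_congr rfl
    intro i _
    exact WEMG_g_out t pos L V m ty par x₀ C (A i) (Y i) j φ y (hex i)

end

/-- `exp` below its chord. -/
private theorem WEMG_exp (y : ℝ) (h0 : 0 ≤ y) (h1 : y ≤ 1) :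
    Real.exp y ≤ 1 + (Real.exp 1 - 1) * y := by
  have h := convexOn_exp.2 (Set.mem_univ (0 : ℝ)) (Set.mem_univ (1 : ℝ)) (sub_nonneg.2 h1) h0
    (by ring)
  simp only [smul_eq_mul, mul_zero, mul_one, zero_add, Real.exp_zero] at h
  linarith

/-- the invariant. -/
private def WEMG_Inv {v N M n : ℕ} {β μ ι : Type} [Fintype μ] [Fintype ι]
    (t : Fin M × Fin 4 → Fin N)
    (pos : Fin v → Fin 4) (L : Fin v × Fin v → Finset (Fin M)) (V : Fin v → Finset (Fin N))
    (m C Kb μ₀ : ℝ) (ty : Fin n → Fin v) (par : Fin n → Fin n) (x₀ : Fin v → Fin N)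
    (Ab : β → Finset (Fin n)) (Yb : β → (Fin v → Fin N) → ℝ)
    (A : μ → ι → Finset (Fin n)) (Y : μ → ι → (Fin v → Fin N) → ℝ) (j : ℕ)
    (φ : Fin n → Fin N) : Prop :=
  (∀ i : Fin n, (i : ℕ) < j → φ i ∈ V (ty i)) ∧
  (∀ i : Fin n, (i : ℕ) < j → par i ≠ i → 0 < pmul t pos L (ty (par i)) (ty i) (φ (par i)) (φ i)) ∧
  (∀ i i' : Fin n, (i : ℕ) < j → (i' : ℕ) < j → i ≠ i' → ty i = ty i' → φ i ≠ φ i') ∧
  (∀ b : β, Kb ^ ((Ab b).card - (WEMG_low (Ab b) j).card) *
    WEMG_Ph t pos L V m ty par x₀ (Ab b) (Yb b) j φ < 1) ∧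
  ∑ k : μ, ∏ i : ι, WEMG_g t pos L V m ty par x₀ C (A k i) (Y k i) j φ
    ≤ Real.exp (μ₀ + (Real.exp 1 - 1) * μ₀)

private theorem WEMG_toW {v N M n : ℕ} (t : Fin M × Fin 4 → Fin N)
    (pos : Fin v → Fin 4) (L : Fin v × Fin v → Finset (Fin M))
    (V : Fin v → Finset (Fin N)) (m C Kb μ₀ : ℝ)
    (ty : Fin n → Fin v) (par : Fin n → Fin n) (x₀ : Fin v → Fin N)
    (hm : 0 < m) (hV : ∀ i, (V i).Nonempty) (hC : 1 ≤ C)
    (hμ₀ : 0 ≤ μ₀)
    (β : Type) (Ab : β → Finset (Fin n)) (Yb : β → (Fin v → Fin N) → ℝ)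
    (hAb : ∀ b, ∀ j ∈ Ab b, par j ∈ Ab b)
    (hYbd : ∀ b (x x' : Fin v → Fin N), (∀ j ∈ Ab b, x (ty j) = x' (ty j)) → Yb b x = Yb b x')
    (μ ι : Type) [Fintype μ] [Fintype ι] (A : μ → ι → Finset (Fin n))
    (Y : μ → ι → (Fin v → Fin N) → ℝ) (hY0 : ∀ k i x, 0 ≤ Y k i x) (hY1 : ∀ k i x, Y k i x ≤ 1)
    (hA : ∀ k i, ∀ j ∈ A k i, par j ∈ A k i)
    (hYd : ∀ k i (x x' : Fin v → Fin N), (∀ j ∈ A k i, x (ty j) = x' (ty j)) → Y k i x = Y k i x')
    (j : ℕ) (φ : Fin n → Fin N)
    (hI : WEMG_Inv t pos L V m C Kb μ₀ ty par x₀ Ab Yb A Y j φ) :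
    WInv t pos L V ty par x₀ Ab Yb A Y μ₀ j φ := by
  obtain ⟨h1, h2, h3, h4, h5⟩ := hI
  refine ⟨h1, h2, h3, ?_, ?_⟩
  · intro b hb
    have h := h4 b
    rw [WEMG_full t pos L V m ty par x₀ hV (Ab b) (Yb b) j φ (hAb b) (hYbd b) hb] at h
    have hl : WEMG_low (Ab b) j = Ab b := by
      ext a
      simp only [WEMG_low, Finset.mem_filter, and_iff_left_iff_imp]
      exact fun h => hb a h
    rw [hl, Nat.sub_self, pow_zero, one_mul] at h
    exact h
  · intro k
    have hge : ∀ k i, 1 ≤ WEMG_g t pos L V m ty par x₀ C (A k i) (Y k i) j φ :=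
      fun k i => WEMG_g_ge t pos L V m ty par x₀ C hm.le hC (A k i) (Y k i) (hY0 k i) j φ
    have h6 : ∏ i : ι, WEMG_g t pos L V m ty par x₀ C (A k i) (Y k i) j φ
        ≤ Real.exp (μ₀ + (Real.exp 1 - 1) * μ₀) := by
      refine le_trans ?_ h5
      exact Finset.single_le_sum (f := fun k => ∏ i : ι,
        WEMG_g t pos L V m ty par x₀ C (A k i) (Y k i) j φ)
        (fun k _ => Finset.prod_nonneg (fun i _ => by linarith [hge k i])) (Finset.mem_univ k)
    set T := Finset.univ.filter (fun i : ι => ∀ a ∈ A k i, (a : ℕ) < j) with hT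
    have h7 : Real.exp (∑ i ∈ T, Y k i (asg ty (A k i) φ x₀))
        ≤ ∏ i : ι, WEMG_g t pos L V m ty par x₀ C (A k i) (Y k i) j φ := by
      rw [Real.exp_sum]
      calc ∏ i ∈ T, Real.exp (Y k i (asg ty (A k i) φ x₀))
          ≤ ∏ i ∈ T, WEMG_g t pos L V m ty par x₀ C (A k i) (Y k i) j φ := by
            apply Finset.prod_le_prod
            · intro i _
              exact (Real.exp_pos _).le
            · intro i hi
              have hc := (Finset.mem_filter.1 hi).2
              have hl : WEMG_low (A k i) j = A k i := by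
                ext a
                simp only [WEMG_low, Finset.mem_filter, and_iff_left_iff_imp]
                exact fun h => hc a h
              unfold WEMG_g
              rw [WEMG_full t pos L V m ty par x₀ hV (A k i) (Y k i) j φ (hA k i) (hYd k i) hc,
                hl, Nat.sub_self, pow_zero, one_mul]
              exact WEMG_exp _ (hY0 k i _) (hY1 k i _)
        _ ≤ _ := by
            rw [← Finset.prod_sdiff (Finset.subset_univ T)]
            apply le_mul_of_one_le_left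
            · exact Finset.prod_nonneg (fun i _ => by linarith [hge k i])
            · calc (1 : ℝ) = ∏ _i ∈ Finset.univ \ T, (1 : ℝ) := by rw [Finset.prod_const_one]
                _ ≤ _ := Finset.prod_le_prod (fun _ _ => zero_le_one) (fun i _ => hge k i)
    have h8 := Real.exp_le_exp.1 (h7.trans h6)
    have h9 : Real.exp 1 ≤ 3 := by
      have := Real.exp_one_lt_d9
      linarith
    nlinarith

/-- Sequential embedding of a forest with potentials. `b`-items: their potential grows by at most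
`Kb` in every step. Meters: the products `∏ (1 + (e - 1) C^{remaining} Phi)` do not grow. -/
theorem wemg {v N M n : ℕ} (t : Fin M × Fin 4 → Fin N) (pos : Fin v → Fin 4)
    (L : Fin v × Fin v → Finset (Fin M)) (V : Fin v → Finset (Fin N)) (m C Kb μ₀ : ℝ) (Jb : ℕ)
    (ty : Fin n → Fin v) (par : Fin n → Fin n) (x₀ : Fin v → Fin N)
    (hm : 0 < m) (hV : ∀ i, (V i).Nonempty) (hC : 1 ≤ C) (hKb : (Jb : ℝ) * C ≤ Kb) (hKb1 : 1 ≤ Kb)
    (hμ₀ : 0 ≤ μ₀) (hpar : ∀ j, par j ≤ j)
    (β : Type) [Fintype β] (Ab : β → Finset (Fin n)) (Yb : β → (Fin v → Fin N) → ℝ)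
    (hYb0 : ∀ b x, 0 ≤ Yb b x) (hAb : ∀ b, ∀ j ∈ Ab b, par j ∈ Ab b)
    (hAbi : ∀ b, Set.InjOn ty (Ab b : Set (Fin n)))
    (hYbd : ∀ b (x x' : Fin v → Fin N), (∀ j ∈ Ab b, x (ty j) = x' (ty j)) → Yb b x = Yb b x')
    (hb0 : ∀ b, Kb ^ (Ab b).card * Phi t pos L V m (edg ty par (Ab b)) (Yb b) ∅ x₀ < 1)
    (hJb : ∀ j, (Finset.univ.filter fun b : β => j ∈ Ab b).card ≤ Jb)
    (μ ι : Type) [Fintype μ] [Fintype ι] (A : μ → ι → Finset (Fin n))
    (Y : μ → ι → (Fin v → Fin N) → ℝ) (hY0 : ∀ k i x, 0 ≤ Y k i x) (hY1 : ∀ k i x, Y k i x ≤ 1)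
    (hA : ∀ k i, ∀ j ∈ A k i, par j ∈ A k i)
    (hAi : ∀ k i, Set.InjOn ty (A k i : Set (Fin n)))
    (hYd : ∀ k i (x x' : Fin v → Fin N), (∀ j ∈ A k i, x (ty j) = x' (ty j)) → Y k i x = Y k i x')
    (hdisj : ∀ k i i', i ≠ i' → Disjoint (A k i) (A k i'))
    (hμ : ∀ k, ∑ i, C ^ (A k i).card * Phi t pos L V m (edg ty par (A k i)) (Y k i) ∅ x₀ ≤ μ₀)
    (hμc : (Fintype.card μ : ℝ) ≤ Real.exp μ₀)
    (hav : ∀ (j : Fin n) (φ : Fin n → Fin N),
      WInv t pos L V ty par x₀ Ab Yb A Y μ₀ (j : ℕ) φ →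
      ∃ Av : Finset (Fin N), Av ⊆ V (ty j) ∧ (∀ y ∈ Av, ∀ i : Fin n, i < j → ty i = ty j → φ i ≠ y) ∧
        (par j = j → 2 * ((V (ty j)).card : ℝ) ≤ C * (Av.card : ℝ)) ∧
        (par j ≠ j → (∀ y ∈ Av, 0 < pmul t pos L (ty (par j)) (ty j) (φ (par j)) y) ∧
          2 * (m / ((V (ty (par j))).card : ℝ)) ≤ C * (Av.card : ℝ))) :
    ∃ φ : Fin n → Fin N, WInv t pos L V ty par x₀ Ab Yb A Y μ₀ n φ := by
  have he : 0 ≤ Real.exp 1 - 1 := by
    have := Real.add_one_le_exp (1 : ℝ)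
    linarith
  have main : ∀ j : ℕ, j ≤ n → ∃ φ : Fin n → Fin N,
      WEMG_Inv t pos L V m C Kb μ₀ ty par x₀ Ab Yb A Y j φ := by
    intro j
    induction j with
    | zero =>
      intro _
      refine ⟨fun i => (hV (ty i)).choose, ?_, ?_, ?_, ?_, ?_⟩
      · intro i hi; exact absurd hi (Nat.not_lt_zero _)
      · intro i hi; exact absurd hi (Nat.not_lt_zero _)
      · intro i i' hi; exact absurd hi (Nat.not_lt_zero _)
      · intro b
        rw [WEMG_init, WEMG_low_zero, Finset.card_empty, Nat.sub_zero]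
        exact hb0 b
      · have h1 : ∀ k : μ, ∏ i : ι, WEMG_g t pos L V m ty par x₀ C (A k i) (Y k i) 0
            (fun i => (hV (ty i)).choose) ≤ Real.exp ((Real.exp 1 - 1) * μ₀) := by
          intro k
          calc ∏ i : ι, WEMG_g t pos L V m ty par x₀ C (A k i) (Y k i) 0
                (fun i => (hV (ty i)).choose)
              ≤ ∏ i : ι, Real.exp ((Real.exp 1 - 1) * (C ^ (A k i).card *
                Phi t pos L V m (edg ty par (A k i)) (Y k i) ∅ x₀)) := by
                apply Finset.prod_le_prod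
                · intro i _
                  have := WEMG_g_ge t pos L V m ty par x₀ C hm.le hC (A k i) (Y k i) (hY0 k i) 0
                    (fun i => (hV (ty i)).choose)
                  linarith
                · intro i _
                  unfold WEMG_g
                  rw [WEMG_init, WEMG_low_zero, Finset.card_empty, Nat.sub_zero, add_comm]
                  exact Real.add_one_le_exp _
            _ = Real.exp (∑ i : ι, (Real.exp 1 - 1) * (C ^ (A k i).card *
                Phi t pos L V m (edg ty par (A k i)) (Y k i) ∅ x₀)) := by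
                rw [Real.exp_sum]
            _ ≤ _ := by
                rw [← Finset.mul_sum]
                exact Real.exp_le_exp.2 (mul_le_mul_of_nonneg_left (hμ k) he)
        calc _ ≤ ∑ _k : μ, Real.exp ((Real.exp 1 - 1) * μ₀) := Finset.sum_le_sum (fun k _ => h1 k)
          _ = (Fintype.card μ : ℝ) * Real.exp ((Real.exp 1 - 1) * μ₀) := by
              rw [Finset.sum_const, nsmul_eq_mul, Finset.card_univ]
          _ ≤ Real.exp μ₀ * Real.exp ((Real.exp 1 - 1) * μ₀) :=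
              mul_le_mul_of_nonneg_right hμc (Real.exp_pos _).le
          _ = _ := by rw [← Real.exp_add]
    | succ j ih =>
      intro hj
      obtain ⟨φ, hφ⟩ := ih (by omega)
      have hW := WEMG_toW t pos L V m C Kb μ₀ ty par x₀ hm hV hC hμ₀ β Ab Yb hAb hYbd μ ι A Y hY0
        hY1 hA hYd j φ hφ
      obtain ⟨a1, a2, a3, a4, a5⟩ := hφ
      let jj : Fin n := ⟨j, by omega⟩
      obtain ⟨Av, hAv, hAvn, hAvr, hAvc⟩ := hav jj φ hW
      set R : ℝ := if par jj = jj then ((V (ty jj)).card : ℝ)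
        else m / ((V (ty (par jj))).card : ℝ) with hRdef
      have hVpos : ∀ i, (0 : ℝ) < ((V i).card : ℝ) := by
        intro i
        exact_mod_cast Finset.card_pos.2 (hV i)
      have hR0 : 0 < R := by
        rw [hRdef]
        split_ifs
        · exact hVpos _
        · exact div_pos hm (hVpos _)
      have hR1 : par jj = jj → R = ((V (ty jj)).card : ℝ) := by
        intro h
        rw [hRdef, if_pos h]
      have hR2 : par jj ≠ jj → R = m / ((V (ty (par jj))).card : ℝ) := by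
        intro h
        rw [hRdef, if_neg h]
      have hRA : 2 * R ≤ C * (Av.card : ℝ) := by
        by_cases h : par jj = jj
        · rw [hR1 h]; exact hAvr h
        · rw [hR2 h]; exact (hAvc h).2
      obtain ⟨y, hyA, hyΨ, hyb⟩ := WEMG_choose Av C Kb R Jb hC hR0 hKb hKb1 hRA
        (Finset.univ.filter fun b : β => jj ∈ Ab b) (hJb jj)
        (fun b => WEMG_Ph t pos L V m ty par x₀ (Ab b) (Yb b) j φ)
        (fun b y => WEMG_Ph t pos L V m ty par x₀ (Ab b) (Yb b) (j + 1) (Function.update φ jj y))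
        (fun b => WEMG_nonneg t pos L V m ty par x₀ hm.le (Ab b) (Yb b) (hYb0 b) j φ)
        (fun b y => WEMG_nonneg t pos L V m ty par x₀ hm.le (Ab b) (Yb b) (hYb0 b) (j + 1) _)
        (by
          intro b hb
          exact WEMG_sum t pos L V m ty par x₀ hm hV hpar (Ab b) (Yb b) (hYb0 b) (hAb b) (hAbi b)
            jj φ (Finset.mem_filter.1 hb).2 Av hAv R hR1 (fun h => ⟨hR2 h, (hAvc h).1⟩))
        (∑ k : μ, ∏ i : ι, WEMG_g t pos L V m ty par x₀ C (A k i) (Y k i) j φ)
        (fun y => ∑ k : μ, ∏ i : ι, WEMG_g t pos L V m ty par x₀ C (A k i) (Y k i) (j + 1)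
          (Function.update φ jj y))
        (by
          intro B hB hRB
          rw [Finset.sum_comm, Finset.mul_sum]
          apply Finset.sum_le_sum
          intro k _
          exact WEMG_meter t pos L V m ty par x₀ C hm hV hpar hC (A k) (Y k) (hY0 k) (hA k)
            (hAi k) (hdisj k) jj φ B (hB.trans hAv) R hR1
            (fun h => ⟨hR2 h, fun y hy => (hAvc h).1 y (hB hy)⟩) hRB)
      have hup : ∀ i : Fin n, (i : ℕ) < j → Function.update φ jj y i = φ i := by
        intro i hi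
        have hne : i ≠ jj := by
          intro h
          rw [h] at hi
          exact lt_irrefl _ hi
        rw [Function.update_of_ne hne]
      have hupp : ∀ i : Fin n, (i : ℕ) < j → Function.update φ jj y (par i) = φ (par i) := by
        intro i hi
        apply hup
        have : ((par i : Fin n) : ℕ) ≤ i := hpar i
        omega
      have hcase : ∀ i : Fin n, (i : ℕ) < j + 1 → (i : ℕ) < j ∨ i = jj := by
        intro i hi
        by_cases h : (i : ℕ) = j
        · right; exact Fin.ext h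
        · left; omega
      have hself : Function.update φ jj y jj = y := Function.update_self _ _ _
      refine ⟨Function.update φ jj y, ?_, ?_, ?_, ?_, ?_⟩
      · intro i hi
        rcases hcase i hi with h | h
        · rw [hup i h]; exact a1 i h
        · subst h; rw [hself]; exact hAv hyA
      · intro i hi hpi
        rcases hcase i hi with h | h
        · rw [hup i h, hupp i h]; exact a2 i h hpi
        · subst h
          rw [hself, Function.update_of_ne hpi]
          exact (hAvc hpi).1 y hyA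
      · intro i i' hi hi' hne hty
        rcases hcase i hi with h | h
        · rcases hcase i' hi' with h' | h'
          · rw [hup i h, hup i' h']; exact a3 i i' h h' hne hty
          · subst h'
            rw [hself, hup i h]
            exact hAvn y hyA i h hty
        · rcases hcase i' hi' with h' | h'
          · subst h
            rw [hself, hup i' h']
            exact (hAvn y hyA i' h' hty.symm).symm
          · exact absurd (h.trans h'.symm) hne
      · intro b
        by_cases hb : jj ∈ Ab b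
        · have h1 := hyb b (Finset.mem_filter.2 ⟨Finset.mem_univ _, hb⟩)
          have h2 := a4 b
          have h3 : (Ab b).card - (WEMG_low (Ab b) j).card
              = ((Ab b).card - (WEMG_low (Ab b) (j + 1)).card) + 1 := WEMG_low_card (Ab b) jj hb
          rw [h3, pow_succ] at h2
          have h4 : 0 ≤ Kb ^ ((Ab b).card - (WEMG_low (Ab b) (j + 1)).card) := by positivity
          have h5 := mul_le_mul_of_nonneg_left h1 h4
          calc _ ≤ _ := h5
            _ = Kb ^ ((Ab b).card - (WEMG_low (Ab b) (j + 1)).card) * Kb *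
              WEMG_Ph t pos L V m ty par x₀ (Ab b) (Yb b) j φ := by ring
            _ < 1 := h2
        · have h1 := WEMG_out t pos L V m ty par x₀ (Ab b) (Yb b) jj φ y hb
          have h2 := WEMG_low_out (Ab b) jj hb
          have h3 : ((jj : Fin n) : ℕ) = j := rfl
          rw [h3] at h1 h2
          rw [h1, h2]
          exact a4 b
      · exact hyΨ.trans a5
  obtain ⟨φ, hφ⟩ := main n le_rfl
  exact ⟨φ, WEMG_toW t pos L V m C Kb μ₀ ty par x₀ hm hV hC hμ₀ β Ab Yb hAb hYbd μ ι A Y hY0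
        hY1 hA hYd n φ hφ⟩

end Pool.Agent.CUB
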